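import Pool.Agent.Helper79.RG.G1

set_option autoImplicit false

/-!
# Module AD: the normalised map to an elliptic curve is defined over `k`
-/

set_option linter.unusedSectionVars false

namespace Pool.Agent.Helper79.RG

open scoped WithZero IntermediateField.algebraAdjoinAdjoin
open IntermediateField
open Pool.Agent.Helper79.FE

section val

variable {L : Type*} [Field L] (w : Valuation L ℤᵐ⁰)

theorem v_add_lt {a b : L} (ha : w a < 1) (hb : w b < 1) : w (a + b) < 1 := Valuation.map_add_lt w ha hb

theorem v_mul_lt {a b : L} (ha : w a ≤ 1) (hb : w b < 1) : w (a * b) < 1 := by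
  rw [map_mul]
  exact (mul_le_of_le_one_left' ha).trans_lt hb

theorem v_add_le {a b : L} (ha : w a ≤ 1) (hb : w b ≤ 1) : w (a + b) ≤ 1 :=
  (Valuation.map_add w a b).trans (max_le ha hb)

theorem v_mul_le {a b : L} (ha : w a ≤ 1) (hb : w b ≤ 1) : w (a * b) ≤ 1 := by
  rw [map_mul]; exact mul_le_one' ha hb

theorem v_neg_le {a : L} (ha : w a ≤ 1) : w (-a) ≤ 1 := by rwa [Valuation.map_neg]

theorem v_pow_le {a : L} (ha : w a ≤ 1) (n : ℕ) : w (a ^ n) ≤ 1 := by
  rw [map_pow]; exact pow_le_one' ha n

theorem v_one_add {a : L} (ha : w a < 1) : w (1 + a) = 1 := by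
  rw [Valuation.map_add_eq_of_lt_left w (by rw [map_one]; exact ha), map_one]

theorem v_lt_of_pow {a : L} {n : ℕ} (hn : n ≠ 0) (ha : w a ^ n < 1) : w a < 1 := by
  by_contra h
  push Not at h
  exact absurd ha (not_lt.2 (one_le_pow₀ h))

end val

section

variable {K L : Type*} [Field K] [CharZero K] [Field L] [Algebra K L]

/-- the invariant differential of `v ^ 2 = u ^ 3 + p u + q` -/
theorem inv_diff {w : Valuation L ℤᵐ⁰} (hw : w ∈ VN K L) (D : Derivation ℤ L L) (hDw : ∀ a, w a ≤ 1 → w (D a) ≤ 1)
    {u v : L} {p q : K} (hv0 : v ≠ 0) (hDp : D (algebraMap K L p) = 0) (hDq : D (algebraMap K L q) = 0)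
    (huv : v ^ 2 = u ^ 3 + algebraMap K L p * u + algebraMap K L q) (hpq : 4 * p ^ 3 + 27 * q ^ 2 ≠ 0) :
    w (D u / v) ≤ 1 ∧ (1 < w u → w (u / v) < 1 ∧ w (D u / v) ≤ w (D (u / v))) := by
  have hLc : CharZero L := charZero_of_injective_algebraMap (algebraMap K L).injective
  set P := algebraMap K L p with hP
  set Q := algebraMap K L q with hQ
  have hP1 : w P ≤ 1 := val_k hw p
  have hQ1 : w Q ≤ 1 := val_k hw q
  have hint : ∀ n : ℕ, w ((n : L)) ≤ 1 := by
    intro n
    have := val_k hw (n : K)
    rwa [map_natCast] at this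
  have hder : 2 * v * D v = (3 * u ^ 2 + P) * D u := by
    have h1 := congrArg D huv
    rw [map_add, map_add, D.leibniz_pow, D.leibniz_pow, D.leibniz, hDp, hDq] at h1
    simp only [smul_eq_mul, nsmul_eq_mul, Nat.cast_ofNat] at h1
    norm_num at h1
    linear_combination h1
  rcases le_or_gt (w u) 1 with hu | hu
  · refine ⟨?_, fun h => absurd hu (not_le.2 h)⟩
    have hv : w v ≤ 1 := by
      have h1 : w v ^ 2 ≤ 1 := by
        rw [← map_pow, huv]
        exact v_add_le w (v_add_le w (v_pow_le w hu 3) (v_mul_le w hP1 hu)) hQ1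
      by_contra h
      push Not at h
      exact absurd h1 (not_le.2 (one_lt_pow₀ h two_ne_zero))
    rcases hv.lt_or_eq with hv1 | hv1
    · -- a branch point
      set g := 3 * u ^ 2 + P with hg
      have hg1 : w g ≤ 1 := v_add_le w (v_mul_le w (by exact_mod_cast hint 3) (v_pow_le w hu 2)) hP1
      have hg2 : w g = 1 := by
        refine le_antisymm hg1 (not_lt.1 fun hlt => ?_)
        have h1 : (-18 * P * u + 27 * Q) * v ^ 2 + (6 * P * u ^ 2 - 9 * Q * u + 4 * P ^ 2) * g =
            algebraMap K L (4 * p ^ 3 + 27 * q ^ 2) := by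
          rw [huv, hg, map_add, map_mul, map_mul, map_pow, map_pow, ← hP, ← hQ]
          simp only [map_ofNat]
          ring
        have h2 : w ((-18 * P * u + 27 * Q) * v ^ 2 + (6 * P * u ^ 2 - 9 * Q * u + 4 * P ^ 2) * g) < 1 := by
          refine v_add_lt w (v_mul_lt w ?_ ?_) (v_mul_lt w ?_ hlt)
          · refine v_add_le w (v_mul_le w (v_mul_le w (v_neg_le w (by exact_mod_cast hint 18)) hP1) hu)
              (v_mul_le w (by exact_mod_cast hint 27) hQ1)
          · rw [map_pow]; exact pow_lt_one₀ zero_le' hv1 two_ne_zero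
          · rw [sub_eq_add_neg]
            refine v_add_le w (v_add_le w (v_mul_le w (v_mul_le w (by exact_mod_cast hint 6) hP1) (v_pow_le w hu 2))
              (v_neg_le w (v_mul_le w (v_mul_le w (by exact_mod_cast hint 9) hQ1) hu)))
              (v_mul_le w (by exact_mod_cast hint 4) (v_pow_le w hP1 2))
        rw [h1, hw.2 _ hpq] at h2
        exact lt_irrefl _ h2
      have hg0 : g ≠ 0 := by
        intro h0
        rw [h0, map_zero] at hg2
        exact zero_ne_one hg2
      have h3 : D u / v = 2 * D v / g := by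
        rw [div_eq_div_iff hv0 hg0]
        linear_combination -hder
      rw [h3, map_div₀, hg2, div_one]
      exact v_mul_le w (by exact_mod_cast hint 2) (hDw _ hv)
    · rw [map_div₀, hv1, div_one]
      exact hDw _ hu
  · -- a pole
    have hu0 : u ≠ 0 := by
      rintro rfl
      rw [map_zero] at hu
      exact absurd hu (not_lt.2 zero_le_one)
    set s := u⁻¹ with hs
    set t := u / v with ht
    have hs1 : w s < 1 := by
      rw [hs, map_inv₀]
      exact inv_lt_one_of_one_lt₀ hu
    have hs0 : s ≠ 0 := inv_ne_zero hu0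
    set h := 1 + P * s ^ 2 + Q * s ^ 3 with hh
    have hh1 : w h = 1 := by
      rw [hh, add_assoc]
      refine v_one_add w (v_add_lt w (v_mul_lt w hP1 ?_) (v_mul_lt w hQ1 ?_))
      · rw [map_pow]; exact pow_lt_one₀ zero_le' hs1 two_ne_zero
      · rw [map_pow]; exact pow_lt_one₀ zero_le' hs1 three_ne_zero
    have hst : s = t ^ 2 * h := by
      have h1 : v ^ 2 * s = u ^ 2 * h := by
        rw [huv, hh, hs]
        field_simp
      rw [ht, div_pow, div_mul_eq_mul_div, ← h1]
      field_simp
    have ht1 : w t < 1 := by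
      refine v_lt_of_pow w (n := 2) two_ne_zero ?_
      rw [← map_pow]
      have h1 : w s = w (t ^ 2) := by
        conv_lhs => rw [hst]
        rw [map_mul, hh1, mul_one]
      rw [← h1]
      exact hs1
    have hDs : D s = 2 * t * h * D t + t ^ 2 * ((2 * P * s + 3 * Q * s ^ 2) * D s) := by
      have h1 := congrArg D hst
      have h2 : D h = (2 * P * s + 3 * Q * s ^ 2) * D s := by
        rw [hh, map_add, map_add, D.map_one_eq_zero, D.leibniz, D.leibniz, hDp, hDq, D.leibniz_pow, D.leibniz_pow]
        simp only [smul_eq_mul, nsmul_eq_mul, Nat.cast_ofNat]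
        norm_num
        ring
      rw [D.leibniz, h2, D.leibniz_pow] at h1
      simp only [smul_eq_mul, nsmul_eq_mul, Nat.cast_ofNat] at h1
      norm_num at h1
      linear_combination h1
    set e := 1 + (-(t ^ 2 * (2 * P * s + 3 * Q * s ^ 2))) with he
    have he1 : w e = 1 := by
      refine v_one_add w ?_
      rw [Valuation.map_neg, mul_comm]
      refine v_mul_lt w (v_add_le w (v_mul_le w (v_mul_le w (by exact_mod_cast hint 2) hP1) hs1.le)
        (v_mul_le w (v_mul_le w (by exact_mod_cast hint 3) hQ1) (v_pow_le w hs1.le 2))) ?_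
      rw [map_pow]; exact pow_lt_one₀ zero_le' ht1 two_ne_zero
    have hDu : D s = -(D u * s ^ 2) := by
      have h1 : D (s * u) = 0 := by
        rw [hs, inv_mul_cancel₀ hu0]
        exact D.map_one_eq_zero
      rw [D.leibniz, smul_eq_mul, smul_eq_mul] at h1
      have h2 : u * D s = -(s * D u) := by linear_combination h1
      have h3 : s * (u * D s) = D s := by
        rw [← mul_assoc, hs, inv_mul_cancel₀ hu0, one_mul]
      rw [← h3, h2]
      ring
    have hb : e * (D u / v) = -(2 * D t) := by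
      have h1 : e * D s = 2 * t * h * D t := by
        rw [he]
        linear_combination hDs
      have h2 : D u / v = -(D s * t / s) := by
        rw [hDu, ht, hs]
        field_simp
      have h3 : e * (D u / v) = -(2 * (t ^ 2 * h) * D t / s) := by
        rw [h2]
        have : e * -(D s * t / s) = -((e * D s) * t / s) := by ring
        rw [this, h1]
        ring
      rw [h3, ← hst]
      field_simp
    have hbw : w (D u / v) = w (2 * D t) := by
      have h1 : w (e * (D u / v)) = w (D u / v) := by rw [map_mul, he1, one_mul]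
      rw [← h1, hb, Valuation.map_neg]
    have h2w : w (2 : L) ≤ 1 := by exact_mod_cast hint 2
    refine ⟨?_, fun _ => ⟨ht1, ?_⟩⟩
    · rw [hbw]
      exact v_mul_le w h2w (hDw _ ht1.le)
    · rw [hbw, map_mul]
      exact mul_le_of_le_one_left' h2w

end

section

variable {k K L0 L : Type*} [Field k] [IsAlgClosed k] [CharZero k] [Field K] [IsAlgClosed K] [CharZero K] [Field L0]
  [Field L] [Algebra k K] [Algebra k L0] [Algebra k L] [Algebra K L] [Algebra L0 L] [IsScalarTower k K L]
  [IsScalarTower k L0 L]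

/-- an elliptic curve `v ^ 2 = u ^ 3 + p u + q` over `k` with a point `(u, v)` over `K (L0)`: the difference of this
point and a point over `K` is a point over `L0` -/
theorem addf (hP : IsProd k K L0 L) (hL0 : IsFun k L0) {u v : L} {p q : k} (hu : Transcendental K u)
    (huv : v ^ 2 = u ^ 3 + algebraMap k L p * u + algebraMap k L q) (hpq : 4 * p ^ 3 + 27 * q ^ 2 ≠ 0) :
    ((∃ h : L0, algebraMap L0 L h = u) ∧ ∃ h : L0, algebraMap L0 L h = v) ∨
    ∃ (a b : K) (u' v' : L0), b ^ 2 = a ^ 3 + algebraMap k K p * a + algebraMap k K q ∧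
      algebraMap L0 L u' = ((v + algebraMap K L b) / (u - algebraMap K L a)) ^ 2 - algebraMap K L a - u ∧
      algebraMap L0 L v' = algebraMap K L b -
        ((v + algebraMap K L b) / (u - algebraMap K L a)) * (algebraMap L0 L u' - algebraMap K L a) := by
  have hLc : CharZero L := charZero_of_injective_algebraMap (algebraMap k L).injective
  obtain ⟨x, hx, hfinx⟩ := id hL0
  have hLfun : IsFun K L := ⟨algebraMap L0 L x, hP.trans hx, hP.fin hx⟩
  set pK := algebraMap k K p with hpK
  set qK := algebraMap k K q with hqK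
  have hPK : algebraMap k L p = algebraMap K L pK := IsScalarTower.algebraMap_apply k K L p
  have hQK : algebraMap k L q = algebraMap K L qK := IsScalarTower.algebraMap_apply k K L q
  rw [hPK, hQK] at huv
  have hpqK : 4 * pK ^ 3 + 27 * qK ^ 2 ≠ 0 := by
    intro h
    apply hpq
    apply (algebraMap k K).injective
    rw [map_add, map_mul, map_mul, map_pow, map_pow, map_zero, ← h]
    simp only [map_ofNat, hpK, hqK]
  have hv0 : v ≠ 0 := by
    rintro rfl
    refine hu ⟨Polynomial.X ^ 3 + Polynomial.C pK * Polynomial.X + Polynomial.C qK, ?_, ?_⟩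
    · intro h0
      have h1 : (Polynomial.X ^ 3 + Polynomial.C pK * Polynomial.X + Polynomial.C qK).natDegree = 3 := by
        compute_degree!
      rw [h0, Polynomial.natDegree_zero] at h1
      exact absurd h1 (by norm_num)
    · simp only [map_add, map_mul, map_pow, Polynomial.aeval_X, Polynomial.aeval_C]
      rw [← huv]
      ring
  -- the derivations
  have hder : ∀ (δ : Derivation ℤ K K) (D : Derivation ℤ L L), (∀ a : k, δ (algebraMap k K a) = 0) →
      (∀ c : K, D (algebraMap K L c) = algebraMap K L (δ c)) → (∀ h : L0, D (algebraMap L0 L h) = 0) →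
      ∃ c : K, D u = algebraMap K L c * v ∧ 2 * D v = algebraMap K L c * (3 * u ^ 2 + algebraMap K L pK) ∧
        ∀ w ∈ VN K L, 1 < w u → w (u / v) < 1 ∧ w (algebraMap K L c) ≤ w (D (u / v)) := by
    intro δ D hδ hDK hD0
    have hDw : ∀ w ∈ VN K L, ∀ a, w a ≤ 1 → w (D a) ≤ 1 := fun w hw a ha =>
      der_int hP hL0 D (fun c => ⟨δ c, hDK c⟩) hD0 hw ha
    have hDp : D (algebraMap K L pK) = 0 := by rw [hDK, hpK, hδ, map_zero]
    have hDq : D (algebraMap K L qK) = 0 := by rw [hDK, hqK, hδ, map_zero]
    obtain ⟨c, hc⟩ := g1_const (k := K) hLfun (b := D u / v) fun w hw =>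
      (inv_diff hw D (hDw w hw) hv0 hDp hDq huv hpqK).1
    have hDu : D u = algebraMap K L c * v := by
      rw [hc]
      field_simp
    have h2 : 2 * v * D v = (3 * u ^ 2 + algebraMap K L pK) * D u := by
      have h1 := congrArg D huv
      rw [map_add, map_add, D.leibniz_pow, D.leibniz_pow, D.leibniz, hDp, hDq] at h1
      simp only [smul_eq_mul, nsmul_eq_mul, Nat.cast_ofNat] at h1
      norm_num at h1
      linear_combination h1
    refine ⟨c, hDu, ?_, fun w hw h1w => ?_⟩
    · rw [hDu] at h2
      have h3 : v * (2 * D v) = v * (algebraMap K L c * (3 * u ^ 2 + algebraMap K L pK)) := by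
        linear_combination h2
      exact mul_left_cancel₀ hv0 h3
    · rw [hc]
      exact (inv_diff hw D (hDw w hw) hv0 hDp hDq huv hpqK).2 h1w
  -- a Gauss place
  obtain ⟨w0, hw0, -⟩ := exists_zero (N := k) x hx
  obtain ⟨w, hw, hww0⟩ := exists_gauss (K := K) hP hL0 hw0
  obtain ⟨z, hz⟩ := hw0.1 (WithZero.exp (-1 : ℤ))
  have hz0 : z ≠ 0 := z_ne hz
  have hzL : algebraMap L0 L z ≠ 0 := (map_ne_zero _).2 hz0
  have hwz : w (algebraMap L0 L z) = WithZero.exp (-1 : ℤ) := by rw [hww0, hz]
  have hDm : ∀ (δ : Derivation ℤ K K) (D : Derivation ℤ L L), (∀ a : k, δ (algebraMap k K a) = 0) →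
      (∀ c : K, D (algebraMap K L c) = algebraMap K L (δ c)) → (∀ h : L0, D (algebraMap L0 L h) = 0) →
      ∀ a, w a < 1 → w (D a) < 1 := by
    intro δ D hδ hDK hD0 a ha
    by_cases ha0 : a = 0
    · rw [ha0, map_zero, map_zero]; exact zero_lt_one
    have h1 : w (a / algebraMap L0 L z) ≤ 1 := by
      rw [map_div₀, hwz]
      have ha0' : w a ≠ 0 := (Valuation.ne_zero_iff w).2 ha0
      obtain ⟨r, hr⟩ : ∃ r : ℤ, w a = WithZero.exp r := ⟨_, (WithZero.exp_log ha0').symm⟩
      rw [hr, ← WithZero.exp_zero, WithZero.exp_lt_exp] at ha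
      rw [hr, ← WithZero.exp_sub, ← WithZero.exp_zero, WithZero.exp_le_exp]
      omega
    have h2 : D a = algebraMap L0 L z * D (a / algebraMap L0 L z) := by
      have h3 : a = algebraMap L0 L z * (a / algebraMap L0 L z) := by field_simp
      conv_lhs => rw [h3]
      rw [D.leibniz, hD0, smul_zero, add_zero, smul_eq_mul]
    rw [h2, mul_comm]
    refine v_mul_lt w (der_int hP hL0 D (fun c => ⟨δ c, hDK c⟩) hD0 hw h1) ?_
    rw [hwz, ← WithZero.exp_zero, WithZero.exp_lt_exp]
    norm_num
  have hconstw : ∀ c : K, w (algebraMap K L c) < 1 → c = 0 := by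
    intro c hc
    by_contra h0
    rw [hw.2 c h0] at hc
    exact lt_irrefl _ hc
  rcases le_or_gt (w u) 1 with hu1 | hu1
  swap
  · -- the point reduces to the origin
    left
    have hall : ∀ (δ : Derivation ℤ K K) (D : Derivation ℤ L L), (∀ a : k, δ (algebraMap k K a) = 0) →
      (∀ c : K, D (algebraMap K L c) = algebraMap K L (δ c)) → (∀ h : L0, D (algebraMap L0 L h) = 0) →
      D u = 0 ∧ D v = 0 := by
      intro δ D hδ hDK hD0
      obtain ⟨c, hc1, hc2, hc3⟩ := hder δ D hδ hDK hD0
      obtain ⟨h1, h2⟩ := hc3 w hw hu1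
      have h3 : c = 0 := hconstw c (h2.trans_lt (hDm δ D hδ hDK hD0 _ h1))
      rw [h3, map_zero, zero_mul] at hc1 hc2
      refine ⟨hc1, ?_⟩
      have h4 : (2 : L) ≠ 0 := two_ne_zero
      exact (mul_eq_zero.1 hc2).resolve_left h4
    exact ⟨const_L0 hP u (fun δ D h1 h2 h3 => (hall δ D h1 h2 h3).1) hL0,
      const_L0 hP v (fun δ D h1 h2 h3 => (hall δ D h1 h2 h3).2) hL0⟩
  right
  have hP1 : w (algebraMap K L pK) ≤ 1 := val_k hw _
  have hQ1 : w (algebraMap K L qK) ≤ 1 := val_k hw _
  have hv1 : w v ≤ 1 := by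
    have h1 : w v ^ 2 ≤ 1 := by
      rw [← map_pow, huv]
      exact v_add_le w (v_add_le w (v_pow_le w hu1 3) (v_mul_le w hP1 hu1)) hQ1
    by_contra h
    push Not at h
    exact absurd h1 (not_le.2 (one_lt_pow₀ h two_ne_zero))
  obtain ⟨a, ha⟩ := exists_res hLfun hw hu1
  obtain ⟨b, hb⟩ := exists_res hLfun hw hv1
  have hua : u - algebraMap K L a ≠ 0 := by
    intro h
    rw [sub_eq_zero] at h
    exact hu (h ▸ isAlgebraic_algebraMap a)
  have hint : ∀ n : ℕ, w ((n : L)) ≤ 1 := by
    intro n
    have := val_k hw (n : K)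
    rwa [map_natCast] at this
  have ha1 : w (algebraMap K L a) ≤ 1 := val_k hw _
  have hb1 : w (algebraMap K L b) ≤ 1 := val_k hw _
  have hab : b ^ 2 = a ^ 3 + pK * a + qK := by
    rw [← sub_eq_zero]
    refine hconstw _ ?_
    have h1 : algebraMap K L (b ^ 2 - (a ^ 3 + pK * a + qK)) =
        -(v + algebraMap K L b) * (v - algebraMap K L b) +
        (u ^ 2 + u * algebraMap K L a + algebraMap K L a ^ 2 + algebraMap K L pK) * (u - algebraMap K L a) := by
      simp only [map_sub, map_add, map_mul, map_pow]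
      linear_combination huv
    rw [h1]
    refine v_add_lt w (v_mul_lt w (v_neg_le w (v_add_le w hv1 hb1)) hb) (v_mul_lt w ?_ ha)
    exact v_add_le w (v_add_le w (v_add_le w (v_pow_le w hu1 2) (v_mul_le w hu1 ha1)) (v_pow_le w ha1 2)) hP1
  -- the derivations at the point `(a, b)`
  have hall : ∀ (δ : Derivation ℤ K K) (D : Derivation ℤ L L), (∀ a : k, δ (algebraMap k K a) = 0) →
      (∀ c : K, D (algebraMap K L c) = algebraMap K L (δ c)) → (∀ h : L0, D (algebraMap L0 L h) = 0) →
      ∃ c : K, D u = algebraMap K L c * v ∧ 2 * D v = algebraMap K L c * (3 * u ^ 2 + algebraMap K L pK) ∧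
        D (algebraMap K L a) = algebraMap K L c * algebraMap K L b ∧
        2 * D (algebraMap K L b) = algebraMap K L c * (3 * algebraMap K L a ^ 2 + algebraMap K L pK) := by
    intro δ D hδ hDK hD0
    obtain ⟨c, hc1, hc2, -⟩ := hder δ D hδ hDK hD0
    have hc1w : w (algebraMap K L c) ≤ 1 := val_k hw _
    refine ⟨c, hc1, hc2, ?_, ?_⟩
    · have h1 := hDm δ D hδ hDK hD0 _ ha
      rw [map_sub, hc1, hDK] at h1
      have h2 : c * b - δ a = 0 := by
        refine hconstw _ ?_
        have h3 : algebraMap K L (c * b - δ a) = (algebraMap K L c * v - algebraMap K L (δ a)) +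
            (-algebraMap K L c) * (v - algebraMap K L b) := by
          rw [map_sub, map_mul]; ring
        rw [h3]
        exact v_add_lt w h1 (v_mul_lt w (v_neg_le w hc1w) hb)
      rw [hDK, ← map_mul, ← sub_eq_zero.1 h2]
    · have h1 := hDm δ D hδ hDK hD0 _ hb
      rw [map_sub, hDK] at h1
      have h2 : c * (3 * a ^ 2 + pK) - 2 * δ b = 0 := by
        refine hconstw _ ?_
        have h3 : algebraMap K L (c * (3 * a ^ 2 + pK) - 2 * δ b) = 2 * (D v - algebraMap K L (δ b)) +
            (-(algebraMap K L c * (3 * (u + algebraMap K L a)))) * (u - algebraMap K L a) := by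
          simp only [map_sub, map_mul, map_add, map_pow, map_ofNat]
          linear_combination -hc2
        rw [h3]
        refine v_add_lt w (v_mul_lt w (by exact_mod_cast hint 2) h1) (v_mul_lt w (v_neg_le w ?_) ha)
        exact v_mul_le w hc1w (v_mul_le w (by exact_mod_cast hint 3) (v_add_le w hu1 ha1))
      rw [hDK]
      have h4 := congrArg (algebraMap K L) (sub_eq_zero.1 h2)
      simp only [map_mul, map_add, map_pow, map_ofNat] at h4
      exact h4.symm
  set A := algebraMap K L a with hA
  set B := algebraMap K L b with hB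
  set lam := (v + B) / (u - A) with hlam
  have hlamE : lam * (u - A) = v + B := by rw [hlam]; field_simp
  have hABL : B ^ 2 = A ^ 3 + algebraMap K L pK * A + algebraMap K L qK := by
    rw [hA, hB, ← map_pow, hab]
    simp only [map_add, map_mul, map_pow]
  -- the derivative of the slope
  have hDlam : ∀ (D : Derivation ℤ L L) (c : L), D u = c * v → 2 * D v = c * (3 * u ^ 2 + algebraMap K L pK) →
      D A = c * B → 2 * D B = c * (3 * A ^ 2 + algebraMap K L pK) → 2 * D lam = c * (u - A) := by
    intro D c h1 h2 h3 h4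
    have h5 := congrArg D hlamE
    rw [D.leibniz, map_sub, map_add, h1, h3, smul_eq_mul, smul_eq_mul] at h5
    have h6 : (u - A) ^ 2 * (2 * D lam) = (u - A) ^ 2 * (c * (u - A)) := by
      have h7 : (u - A) * (2 * D lam) = 2 * D v + 2 * D B - 2 * lam * (c * v - c * B) := by linear_combination 2 * h5
      have h8 : (u - A) ^ 2 * (2 * D lam) = (u - A) * (2 * D v + 2 * D B) - 2 * c * (v + B) * (v - B) := by
        rw [← hlamE]
        linear_combination (u - A) * h7
      rw [h8, h2, h4]
      linear_combination (-2 * c) * huv + (2 * c) * hABL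
    exact mul_left_cancel₀ (pow_ne_zero 2 hua) h6
  have hlam2 : (A - u) * (A - (lam ^ 2 - A - u)) = 3 * A ^ 2 + algebraMap K L pK + 2 * lam * B := by
    -- the chord
    have h1 : (u - A) * ((A - u) * (A - (lam ^ 2 - A - u))) =
        (u - A) * (3 * A ^ 2 + algebraMap K L pK + 2 * lam * B) := by
      have e1 : lam ^ 2 * (u - A) ^ 2 = (v + B) ^ 2 := by rw [← hlamE]; ring
      have e2 : lam * (u - A) = v + B := hlamE
      linear_combination e1 - 2 * B * e2 + huv - hABL
    exact mul_left_cancel₀ hua h1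
  obtain ⟨u', hu'⟩ := const_L0 hP (lam ^ 2 - A - u) (fun δ D h1 h2 h3 => by
    obtain ⟨c, hc1, hc2, hc3, hc4⟩ := hall δ D h1 h2 h3
    have h4 := hDlam D _ hc1 hc2 hc3 hc4
    rw [map_sub, map_sub, D.leibniz_pow, hc1, hc3]
    simp only [smul_eq_mul, nsmul_eq_mul, Nat.cast_ofNat]
    norm_num
    linear_combination lam * h4 + algebraMap K L c * hlamE) hL0
  obtain ⟨v', hv'⟩ := const_L0 hP (B - lam * (algebraMap L0 L u' - A)) (fun δ D h1 h2 h3 => by
    obtain ⟨c, hc1, hc2, hc3, hc4⟩ := hall δ D h1 h2 h3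
    have h4 := hDlam D _ hc1 hc2 hc3 hc4
    have h5 : (2 : L) ≠ 0 := two_ne_zero
    have h6 : 2 * D (B - lam * (algebraMap L0 L u' - A)) = 0 := by
      rw [map_sub, D.leibniz, map_sub, h3 u', hc3, hu']
      simp only [smul_eq_mul]
      linear_combination hc4 - (lam ^ 2 - A - u - A) * h4 - algebraMap K L c * hlam2
    exact (mul_eq_zero.1 h6).resolve_left h5) hL0
  exact ⟨a, b, u', v', hab, hu', hv'⟩

end

end Pool.Agent.Helper79.RG
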