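import Pool.Agent.Helper79.RG.U4

set_option autoImplicit false

/-!
# Base change of a function field to the algebraic closure of its field of constants, inside the algebraic closure
-/

set_option linter.unusedSectionVars false

namespace Pool.Agent.Helper79.RG

open scoped WithZero IntermediateField.algebraAdjoinAdjoin
open IntermediateField IsDedekindDomain Filter
open Pool.Agent.Helper79.FE

universe u v w

/-- base change to the algebraic closure -/
theorem exists_bc2 {K : Type u} {L : Type v} [Field K] [CharZero K] [Field L] [Algebra K L] (hL : IsFun K L) :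
    ∃ (k L0 : Type v) (_ : Field k) (_ : IsAlgClosed k) (_ : CharZero k) (_ : Field L0) (_ : Algebra K k)
      (_ : Algebra.IsAlgebraic K k) (_ : Algebra k L0) (_ : Algebra L L0) (_ : Algebra K L0)
      (_ : IsScalarTower K k L0) (_ : IsScalarTower K L L0) (_ : Algebra k (AlgebraicClosure L))
      (_ : Algebra L0 (AlgebraicClosure L)) (_ : IsScalarTower k L0 (AlgebraicClosure L))
      (_ : IsScalarTower L L0 (AlgebraicClosure L)) (_ : IsScalarTower K k (AlgebraicClosure L)), IsFun k L0 ∧
      (∀ f : L, Transcendental K f → Transcendental k (algebraMap L L0 f)) ∧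
      (∀ f : L, Transcendental K f → Module.finrank k⟮algebraMap L L0 f⟯ L0 ≤ Module.finrank K⟮f⟯ L) := by
  let Ω := AlgebraicClosure L
  let k := algebraicClosure K Ω
  have hLc : CharZero L := charZero_of_injective_algebraMap (algebraMap K L).injective
  have hΩc : CharZero Ω := charZero_of_injective_algebraMap (algebraMap L Ω).injective
  have hkc : CharZero k := (algebraMap k Ω).charZero
  have hka : IsAlgClosed k := (inferInstance : IsAlgClosure K k).isAlgClosed
  let L0 := IntermediateField.adjoin k (Set.range (algebraMap L Ω))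
  let i0 : L →+* L0 := (algebraMap L Ω).codRestrict L0.toSubring.toSubsemiring
    (fun h => IntermediateField.subset_adjoin _ _ ⟨h, rfl⟩)
  let aL0 : Algebra L L0 := i0.toAlgebra
  have t2 : IsScalarTower K k L0 := inferInstance
  have t1 : IsScalarTower K L L0 := IsScalarTower.of_algebraMap_eq fun c => by
    apply (algebraMap L0 Ω).injective
    show algebraMap L0 Ω (algebraMap K L0 c) = algebraMap L Ω (algebraMap K L c)
    rw [IsScalarTower.algebraMap_apply K k L0, ← IsScalarTower.algebraMap_apply k L0 Ω,
      ← IsScalarTower.algebraMap_apply K k Ω, ← IsScalarTower.algebraMap_apply K L Ω]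
  have htr : ∀ f : L, Transcendental K f → Transcendental k (algebraMap L L0 f) := by
    intro f hf halg
    have h1 : IsAlgebraic K (algebraMap L L0 f) := halg.restrictScalars K
    exact hf ((isAlgebraic_algebraMap_iff (algebraMap L L0).injective).1 h1)
  have hgen : ∀ f : L, Transcendental K f → ∃ θ : L, K⟮f⟯⟮θ⟯ = ⊤ ∧
      (k⟮algebraMap L L0 f⟯)⟮algebraMap L L0 θ⟯ = ⊤ := by
    intro f hf
    have hfin := hL.alg hf
    have hc1 : CharZero K⟮f⟯ := charZero_of_injective_algebraMap (algebraMap K K⟮f⟯).injective
    obtain ⟨θ, hθ⟩ := Field.exists_primitive_element K⟮f⟯ L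
    refine ⟨θ, hθ, ?_⟩
    rw [eq_top_iff]
    have hKf : ∀ a : L, a ∈ K⟮f⟯ → algebraMap L L0 a ∈ (k⟮algebraMap L L0 f⟯)⟮algebraMap L L0 θ⟯ := by
      intro a ha
      induction ha using IntermediateField.adjoin_induction with
      | mem x hx =>
        rw [Set.mem_singleton_iff.1 hx]
        exact IntermediateField.algebraMap_mem _ (⟨_, IntermediateField.mem_adjoin_simple_self k (algebraMap L L0 f)⟩ :
          k⟮algebraMap L L0 f⟯)
      | algebraMap x =>
        rw [← IsScalarTower.algebraMap_apply K L L0, IsScalarTower.algebraMap_apply K k L0]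
        exact IntermediateField.algebraMap_mem _ (algebraMap k k⟮algebraMap L L0 f⟯ (algebraMap K k x))
      | add x y _ _ hx hy => rw [map_add]; exact add_mem hx hy
      | mul x y _ _ hx hy => rw [map_mul]; exact mul_mem hx hy
      | inv x _ h => rw [map_inv₀]; exact inv_mem h
    have hLf : ∀ a : L, algebraMap L L0 a ∈ (k⟮algebraMap L L0 f⟯)⟮algebraMap L L0 θ⟯ := by
      intro a
      have ha : a ∈ K⟮f⟯⟮θ⟯ := by rw [hθ]; trivial
      induction ha using IntermediateField.adjoin_induction with
      | mem x hx =>
        rw [Set.mem_singleton_iff.1 hx]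
        exact IntermediateField.mem_adjoin_simple_self _ _
      | algebraMap x => exact hKf x x.2
      | add x y _ _ hx hy => rw [map_add]; exact add_mem hx hy
      | mul x y _ _ hx hy => rw [map_mul]; exact mul_mem hx hy
      | inv x _ h => rw [map_inv₀]; exact inv_mem h
    rintro ⟨a, ha⟩ _
    induction ha using IntermediateField.adjoin_induction with
    | mem x hx =>
      obtain ⟨y, rfl⟩ := hx
      exact hLf y
    | algebraMap x =>
      exact IntermediateField.algebraMap_mem _ (algebraMap k k⟮algebraMap L L0 f⟯ x)
    | add x y _ _ hx hy => exact add_mem (hx trivial) (hy trivial)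
    | mul x y _ _ hx hy => exact mul_mem (hx trivial) (hy trivial)
    | inv x _ h => exact inv_mem (h trivial)
  have hbd : ∀ f : L, Transcendental K f → FiniteDimensional k⟮algebraMap L L0 f⟯ L0 ∧
      Module.finrank k⟮algebraMap L L0 f⟯ L0 ≤ Module.finrank K⟮f⟯ L := by
    intro f hf
    obtain ⟨θ, hθ1, hθ2⟩ := hgen f hf
    have hfin := hL.alg hf
    have hmem : ∀ a : L, a ∈ K⟮f⟯ → algebraMap L L0 a ∈ k⟮algebraMap L L0 f⟯ := by
      intro a ha
      induction ha using IntermediateField.adjoin_induction with
      | mem x hx =>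
        rw [Set.mem_singleton_iff.1 hx]
        exact IntermediateField.mem_adjoin_simple_self _ _
      | algebraMap x =>
        rw [← IsScalarTower.algebraMap_apply K L L0, IsScalarTower.algebraMap_apply K k L0]
        exact IntermediateField.algebraMap_mem _ _
      | add x y _ _ hx hy => rw [map_add]; exact add_mem hx hy
      | mul x y _ _ hx hy => rw [map_mul]; exact mul_mem hx hy
      | inv x _ h => rw [map_inv₀]; exact inv_mem h
    let j : K⟮f⟯ →+* k⟮algebraMap L L0 f⟯ :=
      { toFun := fun a => ⟨algebraMap L L0 a, hmem a a.2⟩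
        map_one' := Subtype.ext (map_one _)
        map_mul' := fun a b => Subtype.ext (map_mul _ _ _)
        map_zero' := Subtype.ext (map_zero _)
        map_add' := fun a b => Subtype.ext (map_add _ _ _) }
    have hint : IsIntegral K⟮f⟯ θ := (Algebra.IsAlgebraic.isAlgebraic θ).isIntegral
    have hmon : ((minpoly K⟮f⟯ θ).map j).Monic := (minpoly.monic hint).map j
    have hz : Polynomial.aeval (algebraMap L L0 θ) ((minpoly K⟮f⟯ θ).map j) = 0 := by
      have h1 := congrArg (algebraMap L L0) (minpoly.aeval K⟮f⟯ θ)
      rw [Polynomial.aeval_def, Polynomial.hom_eval₂, map_zero] at h1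
      rw [Polynomial.aeval_def, Polynomial.eval₂_map]
      exact h1
    have hint' : IsIntegral k⟮algebraMap L L0 f⟯ (algebraMap L L0 θ) :=
      ⟨_, hmon, hz⟩
    have h2 := IntermediateField.adjoin.finiteDimensional hint'
    have h3 := IntermediateField.adjoin.finrank hint'
    rw [hθ2] at h2 h3
    have h4 : FiniteDimensional k⟮algebraMap L L0 f⟯ L0 :=
      LinearEquiv.finiteDimensional (IntermediateField.topEquiv (F := k⟮algebraMap L L0 f⟯) (E := L0)).toLinearEquiv
    refine ⟨h4, ?_⟩
    rw [IntermediateField.finrank_top'] at h3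
    rw [h3]
    have h5 := IntermediateField.adjoin.finrank hint
    rw [hθ1, IntermediateField.finrank_top'] at h5
    rw [h5]
    have h6 := minpoly.min _ _ hmon hz
    have h7 := Polynomial.natDegree_le_natDegree h6
    exact h7.trans (Polynomial.natDegree_map_le)
  obtain ⟨x, hx1, _⟩ := id hL
  have t3 : IsScalarTower L L0 Ω := IsScalarTower.of_algebraMap_eq' rfl
  exact ⟨k, L0, inferInstance, hka, hkc, inferInstance, inferInstance, inferInstance, inferInstance, aL0, inferInstance,
    t2, t1, inferInstance, inferInstance, inferInstance, t3, inferInstance, ⟨_, htr x hx1, (hbd x hx1).1⟩, htr, fun f hf => (hbd f hf).2⟩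

end Pool.Agent.Helper79.RG
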