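import Pool.Agent.Helper79.RG.T1

set_option autoImplicit false

/-!
# Module BD: the functions of bounded degree are quotients of elements of a fixed finite-dimensional space
-/

set_option linter.unusedSectionVars false

namespace Pool.Agent.Helper79.RG

open scoped WithZero IntermediateField.algebraAdjoinAdjoin
open IntermediateField IsDedekindDomain
open Pool.Agent.Helper79.FE

section

variable {k L0 : Type*} [Field k] [Field L0] [Algebra k L0]

/-- poles bounded by `m (x)_∞` -/
def Vb (k : Type*) {L0 : Type*} [Field k] [Field L0] [Algebra k L0] (x : L0) (m : ℕ) (a : L0) : Prop :=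
  ∀ v ∈ VN k L0, v a ≤ (max 1 (v x)) ^ m

theorem bd_one (v : Valuation L0 ℤᵐ⁰) (x : L0) : (1 : ℤᵐ⁰) ≤ max 1 (v x) := le_max_left _ _

theorem bd_mono (v : Valuation L0 ℤᵐ⁰) (x : L0) {m n : ℕ} (h : m ≤ n) : (max 1 (v x)) ^ m ≤ (max 1 (v x)) ^ n :=
  pow_le_pow_right₀ (bd_one v x) h

theorem Vb.mul {x : L0} {m n : ℕ} {a b : L0} (ha : Vb k x m a) (hb : Vb k x n b) : Vb k x (m + n) (a * b) := by
  intro v hv
  rw [map_mul, pow_add]
  exact mul_le_mul' (ha v hv) (hb v hv)

theorem Vb.mono {x : L0} {m n : ℕ} (h : m ≤ n) {a : L0} (ha : Vb k x m a) : Vb k x n a :=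
  fun v hv => (ha v hv).trans (bd_mono v x h)

theorem bd_poly {x : L0} {m : ℕ} (p : Polynomial k) (hp : p.natDegree ≤ m) : Vb k x m (Polynomial.aeval x p) := by
  intro v hv
  rw [Polynomial.aeval_eq_sum_range' (Nat.lt_succ_of_le hp)]
  refine Valuation.map_sum_le v fun i hi => ?_
  rw [Finset.mem_range] at hi
  rw [Algebra.smul_def, map_mul, map_pow]
  refine (mul_le_of_le_one_left' (val_k hv _)).trans ?_
  exact (pow_le_pow_left₀ zero_le (le_max_right _ _) i).trans (bd_mono v x (by omega))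

/-- elements without poles outside the poles of `x` are integral over `k[x]` -/
theorem bd_int [CharZero k] {x : L0} (hx : Transcendental k x) [FiniteDimensional k⟮x⟯ L0] {a : L0}
    (ha : ∀ v ∈ VN k L0, v x ≤ 1 → v a ≤ 1) : IsIntegral (Algebra.adjoin k {x}) a := by
  obtain ⟨hded, hfrac⟩ := ded_closure _ hx
  have hall : ∀ P : HeightOneSpectrum (integralClosure (Algebra.adjoin k {x}) L0), P.valuation L0 a ≤ 1 := by
    intro P
    refine ha _ (p_mem P) ?_
    exact P.valuation_le_one (K := L0) (algebraMap (Algebra.adjoin k {x})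
      (integralClosure (Algebra.adjoin k {x}) L0) ⟨x, Algebra.self_mem_adjoin_singleton k x⟩)
  obtain ⟨c, hc⟩ := HeightOneSpectrum.mem_integers_of_valuation_le_one L0 _ hall
  rw [← hc]
  exact c.2

theorem bd_adj {x y : L0} (hy : y ∈ Algebra.adjoin k {x}) : ∃ p : Polynomial k, Polynomial.aeval x p = y := by
  rw [Algebra.adjoin_singleton_eq_range_aeval] at hy
  obtain ⟨p, hp⟩ := hy
  exact ⟨p, hp⟩

/-- traces of integral elements -/
theorem bd_tr {x : L0} (hx : Transcendental k x) [FiniteDimensional k⟮x⟯ L0] {a : L0}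
    (ha : IsIntegral (Algebra.adjoin k {x}) a) :
    ∃ p : Polynomial k, ((Algebra.trace k⟮x⟯ L0 a : k⟮x⟯) : L0) = Polynomial.aeval x p := by
  have hpid := pid_adjoin _ hx
  have h1 : IsIntegral (Algebra.adjoin k {x}) (Algebra.trace k⟮x⟯ L0 a) := Algebra.isIntegral_trace ha
  obtain ⟨y, hy⟩ := IsIntegrallyClosed.isIntegral_iff.1 h1
  have h2 : ((Algebra.trace k⟮x⟯ L0 a : k⟮x⟯) : L0) = (y : L0) := by
    rw [← hy]
    rfl
  rw [h2]
  obtain ⟨p, hp⟩ := bd_adj y.2
  exact ⟨p, hp.symm⟩

theorem bd_tr_eq {F F' : IntermediateField k L0} (h : F = F') (a : L0) :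
    ((Algebra.trace F L0 a : F) : L0) = ((Algebra.trace F' L0 a : F') : L0) := by
  subst h
  rfl

theorem bd_inv (x : L0) : k⟮x⁻¹⟯ = k⟮x⟯ := by
  refine le_antisymm ?_ ?_
  · rw [adjoin_simple_le_iff]
    exact inv_mem (mem_adjoin_simple_self k x)
  · rw [adjoin_simple_le_iff]
    have := inv_mem (mem_adjoin_simple_self k x⁻¹)
    rwa [inv_inv] at this

theorem bd_deg {v : Valuation L0 ℤᵐ⁰} (hv : v ∈ VN k L0) {x : L0} (hx : 1 < v x) (p : Polynomial k) (hp : p ≠ 0) :
    v (Polynomial.aeval x p) = v x ^ p.natDegree := by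
  rw [Polynomial.aeval_eq_sum_range, Finset.sum_range_succ, add_comm]
  have h1 : v (p.coeff p.natDegree • x ^ p.natDegree) = v x ^ p.natDegree := by
    rw [Algebra.smul_def, map_mul, map_pow, hv.2 (p.coeff p.natDegree) (Polynomial.leadingCoeff_ne_zero.2 hp), one_mul]
  rw [Valuation.map_add_eq_of_lt_left, h1]
  rw [h1]
  refine Valuation.map_sum_lt v (pow_ne_zero _ (zero_lt_one.trans hx).ne') fun i hi => ?_
  rw [Finset.mem_range] at hi
  rw [Algebra.smul_def, map_mul, map_pow]
  exact (mul_le_of_le_one_left' (val_k hv _)).trans_lt (pow_lt_pow_right₀ hx hi)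

/-- traces of elements with bounded poles -/
theorem bd_trb [CharZero k] {x : L0} (hx : Transcendental k x) [FiniteDimensional k⟮x⟯ L0] {m : ℕ} {a : L0}
    (ha : Vb k x m a) :
    ∃ p : Polynomial k, p.natDegree ≤ m ∧ ((Algebra.trace k⟮x⟯ L0 a : k⟮x⟯) : L0) = Polynomial.aeval x p := by
  have hx0 : x ≠ 0 := by
    rintro rfl
    exact hx isAlgebraic_zero
  obtain ⟨p, hp⟩ := bd_tr hx (bd_int hx (a := a) fun v hv h1 => by
    have := ha v hv
    rwa [max_eq_left h1, one_pow] at this)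
  refine ⟨p, ?_, hp⟩
  by_cases hp0 : p = 0
  · rw [hp0]; simp
  have hx' : Transcendental k x⁻¹ := fun h => hx (by simpa using h.inv)
  have hfin' : FiniteDimensional k⟮x⁻¹⟯ L0 := by rw [bd_inv]; infer_instance
  obtain ⟨v, hv, hvx⟩ := exists_zero _ hx'
  have hvx1 : 1 < v x := by
    rw [map_inv₀] at hvx
    exact (inv_lt_one₀ (zero_lt_iff.2 ((Valuation.ne_zero_iff v).2 hx0))).1 hvx
  obtain ⟨q, hq⟩ := bd_tr hx' (a := a * (x ^ m)⁻¹) (bd_int hx' fun w hw h1 => by
    have h2 := ha w hw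
    have hw0 : w x ≠ 0 := (Valuation.ne_zero_iff w).2 hx0
    rw [map_inv₀] at h1
    have h3 : 1 ≤ w x := (inv_le_one₀ (zero_lt_iff.2 hw0)).1 h1
    rw [max_eq_right h3] at h2
    rw [map_mul, map_inv₀, map_pow]
    exact mul_inv_le_one_of_le₀ h2 zero_le)
  rw [bd_tr_eq (bd_inv x)] at hq
  have h4 : (Algebra.trace k⟮x⟯ L0) (a * (x ^ m)⁻¹) = (AdjoinSimple.gen k x ^ m)⁻¹ * Algebra.trace k⟮x⟯ L0 a := by
    have h5 : a * (x ^ m)⁻¹ = (AdjoinSimple.gen k x ^ m)⁻¹ • a := by
      rw [Algebra.smul_def, mul_comm a]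
      rfl
    rw [h5, map_smul, smul_eq_mul]
  rw [h4] at hq
  have h6 : Polynomial.aeval x p = x ^ m * Polynomial.aeval x⁻¹ q := by
    rw [← hq, ← hp]
    show _ = x ^ m * ((x ^ m)⁻¹ * _)
    rw [mul_inv_cancel_left₀ (pow_ne_zero m hx0)]
  have h7 := congrArg v h6
  rw [bd_deg hv hvx1 p hp0, map_mul, map_pow] at h7
  have h8 : v (Polynomial.aeval x⁻¹ q) ≤ 1 := by
    have := bd_poly (x := x⁻¹) q le_rfl v hv
    rwa [max_eq_left hvx.le, one_pow] at this
  have h9 : v x ^ p.natDegree ≤ v x ^ m := by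
    rw [h7]
    exact mul_le_of_le_one_right' h8
  exact (pow_le_pow_iff_right₀ hvx1).1 h9

/-- integral elements have bounded poles -/
theorem bd_of_int {x : L0} {a : L0} (ha : IsIntegral (Algebra.adjoin k {x}) a) :
    ∃ m, Vb k x m a := by
  obtain ⟨P, hP, hPa⟩ := ha
  have hc : ∀ y : Algebra.adjoin k {x}, ∃ m, Vb k x m (y : L0) := by
    intro y
    obtain ⟨p, hp⟩ := bd_adj y.2
    refine ⟨p.natDegree, ?_⟩
    have h1 : Polynomial.aeval x p = (y : L0) := hp
    rw [← h1]
    exact bd_poly p le_rfl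
  choose m hm using fun i : ℕ => hc (P.coeff i)
  refine ⟨∑ i ∈ Finset.range (P.natDegree + 1), m i, fun v hv => ?_⟩
  by_contra hcon
  push Not at hcon
  set μ := (max 1 (v x)) ^ (∑ i ∈ Finset.range (P.natDegree + 1), m i) with hμ
  have hμ1 : 1 ≤ μ := one_le_pow₀ (bd_one v x)
  have ha1 : 1 < v a := hμ1.trans_lt hcon
  have hn : 0 < P.natDegree := by
    rcases Nat.eq_zero_or_pos P.natDegree with h | h
    · exfalso
      rw [hP.natDegree_eq_zero.1 h] at hPa
      simp at hPa
    · exact h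
  have h1 : Polynomial.eval₂ (algebraMap (Algebra.adjoin k {x}) L0) a P =
      a ^ P.natDegree + ∑ i ∈ Finset.range P.natDegree, (P.coeff i : L0) * a ^ i := by
    rw [Polynomial.eval₂_eq_sum_range, Finset.sum_range_succ, hP.coeff_natDegree, map_one, one_mul, add_comm]
    rfl
  rw [h1] at hPa
  have h2 : v (∑ i ∈ Finset.range P.natDegree, (P.coeff i : L0) * a ^ i) < v (a ^ P.natDegree) := by
    rw [map_pow]
    refine Valuation.map_sum_lt v (pow_ne_zero _ (zero_lt_one.trans ha1).ne') fun i hi => ?_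
    rw [Finset.mem_range] at hi
    rw [map_mul, map_pow]
    have h3 : v (P.coeff i : L0) ≤ μ := (hm i v hv).trans (bd_mono v x
      (Finset.single_le_sum (f := m) (fun _ _ => Nat.zero_le _) (Finset.mem_range.2 (by omega))))
    calc v (P.coeff i : L0) * v a ^ i ≤ μ * v a ^ (P.natDegree - 1) :=
          mul_le_mul' h3 (pow_le_pow_right₀ ha1.le (by omega))
      _ < v a * v a ^ (P.natDegree - 1) := by
          exact mul_lt_mul_of_pos_right hcon (pow_pos (zero_lt_one.trans ha1) _)
      _ = v a ^ P.natDegree := by rw [← pow_succ']; congr 1; omega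
  have h4 : v (a ^ P.natDegree) = 0 := by
    have h5 := congrArg v hPa
    rwa [Valuation.map_add_eq_of_lt_left v h2, map_zero] at h5
  rw [h4] at h2
  exact absurd h2 (not_lt.2 zero_le)

/-- the space of the elements with bounded poles is finite-dimensional -/
theorem bd_fin [CharZero k] {x : L0} (hx : Transcendental k x) [FiniteDimensional k⟮x⟯ L0] (D : ℕ) :
    ∃ (m : ℕ) (e : Fin m → L0), ∀ a : L0, Vb k x D a → a ∈ Submodule.span k (Set.range e) := by
  classical
  have hsep : Algebra.IsSeparable k⟮x⟯ L0 := by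
    have : CharZero k⟮x⟯ := charZero_of_injective_algebraMap (algebraMap k k⟮x⟯).injective
    infer_instance
  obtain ⟨s, b, hb⟩ := FiniteDimensional.exists_is_basis_integral (Algebra.adjoin k {x}) k⟮x⟯ L0
  choose M hM using fun i => bd_of_int (hb i)
  let N := ∑ i : s, M i
  let E : Fin (D + N + 1) × s → L0 := fun p => x ^ (p.1 : ℕ) * b.traceDual p.2
  let eqv := Fintype.equivFin (Fin (D + N + 1) × s)
  refine ⟨_, fun j => E (eqv.symm j), fun a ha => ?_⟩
  have hrange : Set.range (fun j => E (eqv.symm j)) = Set.range E := by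
    ext z
    constructor
    · rintro ⟨j, rfl⟩; exact ⟨_, rfl⟩
    · rintro ⟨p, rfl⟩; exact ⟨eqv p, by simp⟩
  rw [hrange]
  have h1 : a = ∑ i : s, ((Algebra.trace k⟮x⟯ L0 (a * b i) : k⟮x⟯) : L0) * b.traceDual i := by
    conv_lhs => rw [← b.traceDual.sum_repr a]
    refine Finset.sum_congr rfl fun i _ => ?_
    rw [Module.Basis.traceDual_repr_apply, Algebra.traceForm_apply, Algebra.smul_def]
    rfl
  rw [h1]
  refine Submodule.sum_mem _ fun i _ => ?_
  obtain ⟨p, hp, hpt⟩ := bd_trb hx (ha.mul (hM i))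
  have hpN : p.natDegree ≤ D + N :=
    hp.trans (Nat.add_le_add_left (Finset.single_le_sum (f := M) (fun _ _ => Nat.zero_le _) (Finset.mem_univ i)) D)
  rw [hpt, Polynomial.aeval_eq_sum_range' (Nat.lt_succ_of_le hpN), Finset.sum_mul]
  refine Submodule.sum_mem _ fun l hl => ?_
  rw [smul_mul_assoc]
  exact Submodule.smul_mem _ _ (Submodule.subset_span ⟨(⟨l, Finset.mem_range.1 hl⟩, i), rfl⟩)

/-- functions of bounded degree as quotients -/
theorem bd_quot [CharZero k] {x : L0} (hx : Transcendental k x) [FiniteDimensional k⟮x⟯ L0] (D : ℕ) {f : L0}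
    (hf : Transcendental k f) (hD : Module.finrank k⟮f⟯ L0 ≤ D) :
    ∃ b : L0, b ≠ 0 ∧ Vb k x D b ∧ Vb k x D (b * f) := by
  classical
  have hfin : FiniteDimensional k⟮f⟯ L0 := fin_adj x f hx hf
  have h1 : ¬ LinearIndependent (Algebra.adjoin k {f}) (fun i : Fin (D + 1) => x ^ (i : ℕ)) := by
    rw [li_frac]
    intro h
    have := h.fintype_card_le_finrank
    rw [Fintype.card_fin] at this
    omega
  obtain ⟨g, hg, i0, hi0⟩ := Fintype.not_linearIndependent_iff.1 h1
  have hG : ∀ i, ∃ p : Polynomial k, Polynomial.aeval f p = (g i : L0) := by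
    intro i
    obtain ⟨p, hp⟩ := bd_adj (g i).2
    exact ⟨p, hp⟩
  choose G hG using hG
  have hG0 : G i0 ≠ 0 := by
    intro h
    apply hi0
    apply Subtype.ext
    rw [← hG, h, map_zero]
    rfl
  obtain ⟨i1, hi1⟩ := Finite.exists_max (fun i => (G i).degree)
  have hG1 : G i1 ≠ 0 := by
    intro h
    have := hi1 i0
    rw [h, Polynomial.degree_zero, le_bot_iff, Polynomial.degree_eq_bot] at this
    exact hG0 this
  set n := (G i1).natDegree with hn
  have hle : ∀ i, (G i).natDegree ≤ n := fun i => Polynomial.natDegree_le_natDegree (hi1 i)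
  let p : ℕ → Polynomial k := fun j => ∑ i : Fin (D + 1), Polynomial.monomial (i : ℕ) ((G i).coeff j)
  have hpdeg : ∀ j, (p j).natDegree ≤ D := by
    intro j
    refine Polynomial.natDegree_sum_le_of_forall_le _ _ fun i _ => ?_
    exact (Polynomial.natDegree_monomial_le _).trans (Nat.lt_succ_iff.1 i.2)
  have hpn : p n ≠ 0 := by
    intro h
    have h2 : (p n).coeff (i1 : ℕ) = (G i1).coeff n := by
      show (∑ i : Fin (D + 1), Polynomial.monomial (i : ℕ) ((G i).coeff n)).coeff (i1 : ℕ) = _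
      rw [Polynomial.finsetSum_coeff, Finset.sum_eq_single i1]
      · rw [Polynomial.coeff_monomial, if_pos rfl]
      · intro b _ hb
        rw [Polynomial.coeff_monomial, if_neg]
        intro h
        exact hb (Fin.ext h)
      · intro h; exact absurd (Finset.mem_univ _) h
    rw [h, Polynomial.coeff_zero] at h2
    exact Polynomial.leadingCoeff_ne_zero.2 hG1 h2.symm
  have hsum : ∑ j ∈ Finset.range (n + 1), Polynomial.aeval x (p j) * f ^ j = 0 := by
    have h3 : ∑ i : Fin (D + 1), (g i : L0) * x ^ (i : ℕ) = 0 := hg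
    rw [← h3]
    have h4 : ∀ i, (g i : L0) = ∑ j ∈ Finset.range (n + 1), algebraMap k L0 ((G i).coeff j) * f ^ j := by
      intro i
      rw [← hG, Polynomial.aeval_eq_sum_range' (Nat.lt_succ_of_le (hle i))]
      exact Finset.sum_congr rfl fun j _ => by rw [Algebra.smul_def]
    simp only [h4, Finset.sum_mul]
    rw [Finset.sum_comm]
    refine Finset.sum_congr rfl fun j _ => ?_
    show Polynomial.aeval x (∑ i : Fin (D + 1), Polynomial.monomial (i : ℕ) ((G i).coeff j)) * f ^ j = _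
    rw [map_sum, Finset.sum_mul]
    refine Finset.sum_congr rfl fun i _ => ?_
    rw [Polynomial.aeval_monomial]
    ring
  have hb0 : Polynomial.aeval x (p n) ≠ 0 := fun h => hx ⟨_, hpn, h⟩
  refine ⟨Polynomial.aeval x (p n), hb0, bd_poly _ (hpdeg n), fun v hv => ?_⟩
  by_contra hcon
  push Not at hcon
  set μ := (max 1 (v x)) ^ D with hμ
  have hμ1 : 1 ≤ μ := one_le_pow₀ (bd_one v x)
  have hbv : ∀ j, v (Polynomial.aeval x (p j)) ≤ μ := fun j => bd_poly _ (hpdeg j) v hv
  have hfv : 1 < v f := by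
    by_contra h
    push Not at h
    rw [map_mul] at hcon
    exact absurd (hcon.trans_le (mul_le_of_le_one_right' h)) (not_lt.2 (hbv n))
  have hn0 : 0 < n := by
    rcases Nat.eq_zero_or_pos n with h | h
    · exfalso
      rw [h] at hsum hb0
      rw [zero_add, Finset.sum_range_one, pow_zero, mul_one] at hsum
      exact hb0 hsum
    · exact h
  rw [Finset.sum_range_succ, add_comm] at hsum
  have h5 : v (∑ j ∈ Finset.range n, Polynomial.aeval x (p j) * f ^ j) < v (Polynomial.aeval x (p n) * f ^ n) := by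
    have h6 : v (Polynomial.aeval x (p n) * f ^ n) = v (Polynomial.aeval x (p n) * f) * v f ^ (n - 1) := by
      rw [← map_pow, ← map_mul]
      congr 1
      rw [mul_assoc, ← pow_succ']
      congr 2
      omega
    rw [h6]
    have h7 : μ * v f ^ (n - 1) < v (Polynomial.aeval x (p n) * f) * v f ^ (n - 1) :=
      mul_lt_mul_of_pos_right hcon (pow_pos (zero_lt_one.trans hfv) _)
    refine Valuation.map_sum_lt v (zero_le.trans_lt h7).ne' fun j hj => ?_
    rw [Finset.mem_range] at hj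
    refine lt_of_le_of_lt ?_ h7
    rw [map_mul, map_pow]
    exact mul_le_mul' (hbv j) (pow_le_pow_right₀ hfv.le (by omega))
  have h8 := congrArg v hsum
  rw [Valuation.map_add_eq_of_lt_left v h5, map_zero] at h8
  rw [h8] at h5
  exact absurd h5 (not_lt.2 zero_le)

end

theorem bounded_degree {k L0 : Type*} [Field k] [IsAlgClosed k] [CharZero k] [Field L0] [Algebra k L0]
    (hL0 : IsFun k L0) (D : ℕ) : ∃ (m : ℕ) (e : Fin m → L0), ∀ f : L0, Transcendental k f →
      Module.finrank k⟮f⟯ L0 ≤ D → Quo k e f := by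
  obtain ⟨x, hx, hfin⟩ := hL0
  obtain ⟨m, e, he⟩ := bd_fin hx D
  refine ⟨m, e, fun f hf hD => ?_⟩
  obtain ⟨b, hb0, hb, hbf⟩ := bd_quot hx D hf hD
  exact ⟨b * f, b, he _ hbf, he _ hb, hb0, by field_simp⟩

end Pool.Agent.Helper79.RG
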