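import Pool.Agent.Helper79.RG.RED

set_option autoImplicit false

/-!
# Module DEG: the degree of the polar divisor of a function
-/

set_option linter.unusedSectionVars false
set_option linter.deprecated false

namespace Pool.Agent.Helper79.RG

open scoped WithZero IntermediateField.algebraAdjoinAdjoin
open IntermediateField IsDedekindDomain
open Pool.Agent.Helper79.FE

section deg

variable {k M : Type*} [Field k] [IsAlgClosed k] [CharZero k] [Field M] [Algebra k M]

/-- the place of a prime of the integral closure -/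
theorem deg_VN {x : M} [IsDedekindDomain (integralClosure (Algebra.adjoin k {x}) M)]
    [IsFractionRing (integralClosure (Algebra.adjoin k {x}) M) M]
    (P : HeightOneSpectrum (integralClosure (Algebra.adjoin k {x}) M)) :
    P.valuation M ∈ VN k M ∧ P.valuation M x ≤ 1 := by
  have hB1 : ∀ c : integralClosure (Algebra.adjoin k {x}) M, P.valuation M (c : M) ≤ 1 := fun c =>
    P.valuation_le_one (K := M) c
  have h1 : ∀ q : k, P.valuation M (algebraMap k M q) ≤ 1 := by
    intro q
    exact hB1 (algebraMap (Algebra.adjoin k {x}) _ (algebraMap k _ q))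
  refine ⟨⟨P.valuation_surjective M, ?_⟩, ?_⟩
  · intro q hq
    refine le_antisymm (h1 q) ?_
    have h2 := h1 q⁻¹
    have h3 : P.valuation M (algebraMap k M q) * P.valuation M (algebraMap k M q⁻¹) = 1 := by
      rw [← map_mul, ← map_mul, mul_inv_cancel₀ hq, map_one, map_one]
    calc (1 : ℤᵐ⁰) = P.valuation M (algebraMap k M q) * P.valuation M (algebraMap k M q⁻¹) :=
          h3.symm
      _ ≤ P.valuation M (algebraMap k M q) * 1 := mul_le_mul_right h2 _
      _ = _ := mul_one _
  · exact hB1 (algebraMap (Algebra.adjoin k {x}) _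
      ⟨x, Algebra.self_mem_adjoin_singleton k x⟩)

theorem deg_prime {t : M} (ht : Transcendental k t) :
    (Ideal.span {(⟨t, Algebra.self_mem_adjoin_singleton k t⟩ : Algebra.adjoin k {t})}).IsMaximal := by
  have hpid := pid_adjoin t ht
  let e : Polynomial k ≃ₐ[k] Algebra.adjoin k {t} := Polynomial.algEquivOfTranscendental k t ht
  have heX : e Polynomial.X = ⟨t, Algebra.self_mem_adjoin_singleton k t⟩ :=
    Polynomial.algEquivOfTranscendental_apply_X k t ht
  apply PrincipalIdealRing.isMaximal_of_irreducible
  rw [← heX]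
  exact (MulEquiv.irreducible_iff e).2 Polynomial.irreducible_X

theorem deg_main (hM : IsFun k M) {t : M} (ht : Transcendental k t) :
    ∃ S : Finset (Valuation M ℤᵐ⁰), (∀ w, w ∈ S ↔ w ∈ VN k M ∧ w t < 1) ∧
      ∑ w ∈ S, WithZero.log (w t) = -(Module.finrank k⟮t⟯ M : ℤ) := by
  classical
  have hfin : FiniteDimensional k⟮t⟯ M := hM.alg ht
  have ht0 : t ≠ 0 := by
    rintro rfl
    exact ht isAlgebraic_zero
  obtain ⟨hded, hfrac⟩ := ded_closure t ht
  have hpid := pid_adjoin t ht
  have hsep : Algebra.IsSeparable k⟮t⟯ M := by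
    have : CharZero k⟮t⟯ := charZero_of_injective_algebraMap (algebraMap k k⟮t⟯).injective
    infer_instance
  have hBf : Module.Finite (Algebra.adjoin k {t}) (integralClosure (Algebra.adjoin k {t}) M) :=
    IsIntegralClosure.finite (Algebra.adjoin k {t}) k⟮t⟯ M (integralClosure (Algebra.adjoin k {t}) M)
  have htA : t ∈ Algebra.adjoin k {t} := Algebra.self_mem_adjoin_singleton k t
  obtain ⟨p, hp⟩ : ∃ p : Ideal (Algebra.adjoin k {t}), p = Ideal.span {⟨t, htA⟩} := ⟨_, rfl⟩
  have hpmax : p.IsMaximal := by rw [hp]; exact deg_prime ht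
  have hp0 : p ≠ ⊥ := by
    rw [hp, Ne, Ideal.span_singleton_eq_bot]
    intro h
    exact ht0 (congrArg Subtype.val h)
  obtain ⟨tB, htB⟩ : ∃ tB : integralClosure (Algebra.adjoin k {t}) M,
      tB = algebraMap (Algebra.adjoin k {t}) _ ⟨t, htA⟩ := ⟨_, rfl⟩
  have htBM : algebraMap (integralClosure (Algebra.adjoin k {t}) M) M tB = t := by rw [htB]; rfl
  have hmap : Ideal.map (algebraMap (Algebra.adjoin k {t})
      (integralClosure (Algebra.adjoin k {t}) M)) p = Ideal.span {tB} := by
    rw [hp, Ideal.map_span, Set.image_singleton, htB]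
  have hfund := Ideal.sum_ramification_inertia (R := Algebra.adjoin k {t})
    (integralClosure (Algebra.adjoin k {t}) M) k⟮t⟯ M hp0
  have htB0 : tB ≠ 0 := by
    intro h
    rw [h, map_zero] at htBM
    exact ht0 htBM.symm
  -- primes over `p`
  have hprime : ∀ P ∈ IsDedekindDomain.primesOverFinset p (integralClosure (Algebra.adjoin k {t}) M),
      P.IsPrime ∧ P ≠ ⊥ ∧ tB ∈ P ∧ P.LiesOver p := by
    intro P hP
    obtain ⟨h1, h2⟩ := (IsDedekindDomain.mem_primesOverFinset_iff hp0 _).1 hP
    have h3 : tB ∈ P := by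
      have h4 : (⟨t, htA⟩ : Algebra.adjoin k {t}) ∈ p := by
        rw [hp]; exact Ideal.mem_span_singleton_self _
      rw [h2.over, Ideal.mem_comap] at h4
      rw [htB]
      exact h4
    refine ⟨h1, ?_, h3, h2⟩
    rintro rfl
    exact htB0 (by simpa using h3)
  have hval : ∀ P : HeightOneSpectrum (integralClosure (Algebra.adjoin k {t}) M),
      ∀ c : integralClosure (Algebra.adjoin k {t}) M, P.valuation M (c : M) < 1 ↔ c ∈ P.asIdeal :=
    fun P c => P.valuation_lt_one_iff_mem (K := M) c
  have hSfin : {w ∈ VN k M | w t < 1}.Finite := finite_zeros t ht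
  refine ⟨hSfin.toFinset, fun w => by rw [Set.Finite.mem_toFinset]; rfl, ?_⟩
  have hsum : ∑ P ∈ IsDedekindDomain.primesOverFinset p (integralClosure (Algebra.adjoin k {t}) M),
      ((Ideal.ramificationIdx' p P * Ideal.inertiaDeg' p P : ℕ) : ℤ) =
      ∑ w ∈ hSfin.toFinset, -WithZero.log (w t) := by
    refine Finset.sum_bij (fun P hP => HeightOneSpectrum.valuation M
      (⟨P, (hprime P hP).1, (hprime P hP).2.1⟩ : HeightOneSpectrum _)) ?_ ?_ ?_ ?_
    · intro P hP
      rw [Set.Finite.mem_toFinset]
      refine ⟨(deg_VN _).1, ?_⟩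
      have h1 := (hval ⟨P, (hprime P hP).1, (hprime P hP).2.1⟩ tB).2 (hprime P hP).2.2.1
      have h2 : ((tB : integralClosure (Algebra.adjoin k {t}) M) : M) = t := htBM
      rwa [h2] at h1
    · intro P hP P' hP' heq
      ext c
      have h1 := hval ⟨P, (hprime P hP).1, (hprime P hP).2.1⟩ c
      have h2 := hval ⟨P', (hprime P' hP').1, (hprime P' hP').2.1⟩ c
      rw [heq] at h1
      exact h1.symm.trans h2
    · intro w hw
      rw [Set.Finite.mem_toFinset] at hw
      obtain ⟨hwV, hwt⟩ := hw
      have hwB : ∀ c : integralClosure (Algebra.adjoin k {t}) M, w (algebraMap _ M c) ≤ 1 := fun c =>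
        val_int (B := Algebra.adjoin k {t}) w (fun b => red_adj hwV hwt.le b) _ c.2
      obtain ⟨P, hPp, hP⟩ := exists_centre w hwB
      have htP : tB ∈ P := by
        rw [← hP, htBM]; exact hwt
      have hP0 : P ≠ ⊥ := by
        rintro rfl
        exact htB0 (by simpa using htP)
      have hover : P.LiesOver p := by
        constructor
        apply hpmax.eq_of_le
        · intro h
          have h1 : (1 : Algebra.adjoin k {t}) ∈ Ideal.under (Algebra.adjoin k {t}) P := by rw [h]; trivial
          rw [Ideal.mem_comap, map_one] at h1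
          exact hPp.ne_top ((Ideal.eq_top_iff_one _).2 h1)
        · rw [hp, Ideal.span_singleton_le_iff_mem, Ideal.mem_comap]
          rw [htB] at htP
          exact htP
      refine ⟨P, (IsDedekindDomain.mem_primesOverFinset_iff hp0 _).2 ⟨hPp, hover⟩, ?_⟩
      obtain ⟨f, hf⟩ := val_det (F := M) P hPp hP0
      ext x
      by_cases hx : x = 0
      · rw [hx, map_zero, map_zero]
      · rw [hf w hwV.1 hwB hP x hx]
        exact hf _ ((deg_VN _).1.1) (fun c => HeightOneSpectrum.valuation_le_one _ c)
          (fun c => hval ⟨P, hPp, hP0⟩ c) x hx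
    · intro P hP
      obtain ⟨h1, h2, h3, h4⟩ := hprime P hP
      obtain ⟨v, hv⟩ : ∃ v : HeightOneSpectrum (integralClosure (Algebra.adjoin k {t}) M), v = ⟨P, h1, h2⟩ := ⟨_, rfl⟩
      have hvP : v.asIdeal = P := by rw [hv]
      -- inertia
      have hf1 : Ideal.inertiaDeg' p P = 1 := by
        rw [Ideal.inertiaDeg'_algebraMap]
        let _ := Ideal.Quotient.field p
        have hinj : Function.Injective (algebraMap (Algebra.adjoin k {t} ⧸ p)
            (integralClosure (Algebra.adjoin k {t}) M ⧸ P)) := RingHom.injective _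
        have hsurj : Function.Surjective (algebraMap (Algebra.adjoin k {t} ⧸ p)
            (integralClosure (Algebra.adjoin k {t}) M ⧸ P)) := by
          intro y
          obtain ⟨b, rfl⟩ := Ideal.Quotient.mk_surjective y
          have hb1 : v.valuation M (b : M) ≤ 1 := v.valuation_le_one (K := M) b
          obtain ⟨c, hc⟩ := exists_res hM (deg_VN v).1 hb1
          refine ⟨Ideal.Quotient.mk p (algebraMap k _ c), ?_⟩
          have h5 : algebraMap (Algebra.adjoin k {t} ⧸ p)
            (integralClosure (Algebra.adjoin k {t}) M ⧸ P) (Ideal.Quotient.mk p (algebraMap k _ c)) =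
            Ideal.Quotient.mk P (algebraMap (Algebra.adjoin k {t}) _ (algebraMap k _ c)) := rfl
          rw [h5]
          symm
          rw [Ideal.Quotient.eq, ← hvP, ← hval v]
          exact hc
        have h6 := (LinearEquiv.ofBijective (Algebra.linearMap (Algebra.adjoin k {t} ⧸ p)
            (integralClosure (Algebra.adjoin k {t}) M ⧸ P)) ⟨hinj, hsurj⟩).finrank_eq
        rw [← h6]
        exact Module.finrank_self _
      -- ramification
      have hvt : v.valuation M t = v.intValuation tB :=
        (congrArg (v.valuation M) htBM.symm).trans (v.valuation_of_algebraMap (K := M) tB)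
      have hvt0 : v.valuation M t ≠ 0 := (Valuation.ne_zero_iff _).2 ht0
      obtain ⟨r, hr⟩ : ∃ r : ℤ, v.valuation M t = WithZero.exp r := ⟨_, (WithZero.exp_log hvt0).symm⟩
      have hr0 : r ≤ 0 := by
        have h5 : v.valuation M t ≤ 1 := (deg_VN v).2
        rw [hr, ← WithZero.exp_zero, WithZero.exp_le_exp] at h5
        exact h5
      have hram : Ideal.ramificationIdx' p P = (-r).toNat := by
        apply Ideal.ramificationIdx'_spec
        · rw [hmap, Ideal.span_singleton_le_iff_mem, ← hvP, ← v.intValuation_le_pow_iff_mem, ← hvt, hr,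
            WithZero.exp_le_exp]
          omega
        · rw [hmap, Ideal.span_singleton_le_iff_mem, ← hvP, ← v.intValuation_le_pow_iff_mem, ← hvt, hr,
            WithZero.exp_le_exp]
          push_cast
          omega
      rw [hf1, mul_one, hram]
      have h7 : HeightOneSpectrum.valuation M (⟨P, h1, h2⟩ : HeightOneSpectrum _) t = WithZero.exp r := by
        rw [← hv, hr]
      rw [h7, WithZero.log_exp]
      omega
  rw [Finset.sum_neg_distrib] at hsum
  rw [← Nat.cast_sum, hfund] at hsum
  linarith

/-- a non-constant function has finitely many poles; with multiplicities their number is `[M : k(u)]` -/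
theorem deg_poles {k M : Type*} [Field k] [IsAlgClosed k] [CharZero k] [Field M] [Algebra k M] (hM : IsFun k M) {u : M}
    (hu : Transcendental k u) : ∃ S : Finset (Valuation M ℤᵐ⁰), (∀ w, w ∈ S ↔ w ∈ VN k M ∧ 1 < w u) ∧
      ∑ w ∈ S, WithZero.log (w u) = (Module.finrank k⟮u⟯ M : ℤ) := by
  have hxi : Transcendental k u⁻¹ := fun h => hu (by simpa using h.inv)
  have hu0 : u ≠ 0 := by
    rintro rfl
    exact hu isAlgebraic_zero
  have hF : k⟮u⁻¹⟯ = k⟮u⟯ := by
    apply le_antisymm
    · rw [adjoin_simple_le_iff]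
      exact inv_mem (mem_adjoin_simple_self k u)
    · rw [adjoin_simple_le_iff]
      have := inv_mem (mem_adjoin_simple_self k u⁻¹)
      rwa [inv_inv] at this
  have hfr : ∀ F F' : IntermediateField k M, F = F' → Module.finrank F M = Module.finrank F' M := by
    rintro F _ rfl; rfl
  obtain ⟨S, hS, hsum⟩ := deg_main hM hxi
  refine ⟨S, fun w => ?_, ?_⟩
  · rw [hS, map_inv₀]
    refine and_congr_right fun _ => ?_
    exact inv_lt_one₀ (zero_lt_iff.2 ((Valuation.ne_zero_iff w).2 hu0))
  · rw [hfr _ _ hF] at hsum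
    have h1 : ∑ w ∈ S, WithZero.log (w u) = -∑ w ∈ S, WithZero.log (w u⁻¹) := by
      rw [← Finset.sum_neg_distrib]
      refine Finset.sum_congr rfl fun w _ => ?_
      rw [map_inv₀, WithZero.log_inv, neg_neg]
    rw [h1, hsum, neg_neg]

end deg

end Pool.Agent.Helper79.RG
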