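import Pool.Agent.Helper79.RG.T1

set_option autoImplicit false

/-!
# Module NB: over a number field the order of a torsion tame symbol of functions of bounded degree is bounded
-/

set_option linter.unusedSectionVars false

namespace Pool.Agent.Helper79.RG

open scoped WithZero IntermediateField.algebraAdjoinAdjoin
open IntermediateField IsDedekindDomain
open Pool.Agent.Helper79.FE
open Pool.Agent.TH826.MK (KQ symb unitPart)
open Pool.Agent.Helper537_Sym

universe u v w

section

variable {K L : Type*} [Field K] [Field L] [Algebra K L] (v : Valuation L ℤᵐ⁰)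

theorem nb_k (hv : ∀ x : K, x ≠ 0 → v (algebraMap K L x) = 1) (x : K) : v (algebraMap K L x) ≤ 1 := by
  by_cases hx : x = 0
  · rw [hx, map_zero, map_zero]; exact zero_le_one
  · exact (hv x hx).le

theorem nb_le (hv : ∀ x : K, x ≠ 0 → v (algebraMap K L x) = 1) {f : L} (hf : v f ≤ 1) (p : Polynomial K) :
    v (Polynomial.aeval f p) ≤ 1 := by
  induction p using Polynomial.induction_on' with
  | add p q hp hq => rw [map_add]; exact (Valuation.map_add v _ _).trans (max_le hp hq)
  | monomial n a =>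
    rw [Polynomial.aeval_monomial, map_mul, map_pow]
    exact mul_le_one' (nb_k v hv a) (pow_le_one' hf n)

theorem nb_poly (hv : ∀ x : K, x ≠ 0 → v (algebraMap K L x) = 1) {f : L} (hf : v f < 1) (p : Polynomial K) :
    v (Polynomial.aeval f p - algebraMap K L (p.coeff 0)) < 1 := by
  have h : Polynomial.aeval f p - algebraMap K L (p.coeff 0) = Polynomial.aeval f p.divX * f := by
    conv_lhs => rw [← Polynomial.divX_mul_X_add p]
    simp
  rw [h, map_mul]
  exact (mul_le_of_le_one_left' (nb_le v hv hf.le _)).trans_lt hf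

/-- elements congruent to a constant -/
def Rc (K : Type*) {L : Type*} [Field K] [Field L] [Algebra K L] (v : Valuation L ℤᵐ⁰) (a : L) : Prop :=
  ∃ x : K, v (a - algebraMap K L x) < 1

theorem Rc.mul (hv : ∀ x : K, x ≠ 0 → v (algebraMap K L x) = 1) {a b : L} (ha : Rc K v a) (hb : Rc K v b) :
    Rc K v (a * b) := by
  obtain ⟨x, hx⟩ := ha
  obtain ⟨y, hy⟩ := hb
  refine ⟨x * y, ?_⟩
  have h1 : v b ≤ 1 := by
    have : b = (b - algebraMap K L y) + algebraMap K L y := by ring
    rw [this]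
    exact (Valuation.map_add v _ _).trans (max_le hy.le (nb_k v hv y))
  have h2 : a * b - algebraMap K L (x * y) = (a - algebraMap K L x) * b + algebraMap K L x * (b - algebraMap K L y) := by
    rw [map_mul]; ring
  rw [h2]
  refine Valuation.map_add_lt v ?_ ?_
  · rw [map_mul]; exact (mul_le_of_le_one_right' h1).trans_lt hx
  · rw [map_mul]; exact (mul_le_of_le_one_left' (nb_k v hv x)).trans_lt hy

theorem Rc.inv (hv : ∀ x : K, x ≠ 0 → v (algebraMap K L x) = 1) {a : L} (ha : Rc K v a) (h1 : v a = 1) :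
    Rc K v a⁻¹ := by
  obtain ⟨x, hx⟩ := ha
  have ha0 : a ≠ 0 := by
    rintro rfl
    rw [map_zero] at h1
    exact zero_ne_one h1
  have hx0 : x ≠ 0 := by
    rintro rfl
    rw [map_zero, sub_zero, h1] at hx
    exact absurd hx (lt_irrefl _)
  have hx0' : algebraMap K L x ≠ 0 := (map_ne_zero _).2 hx0
  refine ⟨x⁻¹, ?_⟩
  have h2 : a⁻¹ - algebraMap K L x⁻¹ = -(a - algebraMap K L x) * (a⁻¹ * (algebraMap K L x)⁻¹) := by
    rw [map_inv₀]
    field_simp
    ring
  rw [h2, map_mul, Valuation.map_neg, map_mul, map_inv₀, map_inv₀, h1, hv x hx0, inv_one, mul_one, mul_one]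
  exact hx

theorem nb_res1 (hv : ∀ x : K, x ≠ 0 → v (algebraMap K L x) = 1) {f : L} (hf : v f < 1) (hf0 : f ≠ 0) {a : L}
    (ha : a ∈ K⟮f⟯) (ha1 : v a ≤ 1) : Rc K v a := by
  have hzero : Rc K v (0 : L) := ⟨0, by rw [map_zero, sub_zero, map_zero]; exact zero_lt_one⟩
  have key : ∀ p : Polynomial K, p ≠ 0 → ∃ (m : ℕ) (b : L), Polynomial.aeval f p = f ^ m * b ∧ v b = 1 ∧ Rc K v b := by
    intro p hp
    obtain ⟨q, hq, hq1⟩ := Polynomial.exists_eq_pow_rootMultiplicity_mul_and_not_dvd p hp 0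
    rw [Polynomial.dvd_iff_isRoot, Polynomial.IsRoot.def, ← Polynomial.coeff_zero_eq_eval_zero] at hq1
    refine ⟨Polynomial.rootMultiplicity 0 p, Polynomial.aeval f q, ?_, ?_, _, nb_poly v hv hf q⟩
    · conv_lhs => rw [hq]
      simp
    · have h1 : Polynomial.aeval f q = algebraMap K L (q.coeff 0) + (Polynomial.aeval f q - algebraMap K L (q.coeff 0)) := by
        ring
      rw [h1, Valuation.map_add_eq_of_lt_left v (by rw [hv _ hq1]; exact nb_poly v hv hf q), hv _ hq1]
  obtain ⟨p, q, rfl⟩ := IntermediateField.mem_adjoin_simple_iff K a |>.1 ha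
  by_cases hq : Polynomial.aeval f q = 0
  · rw [hq, div_zero]; exact hzero
  by_cases hp : Polynomial.aeval f p = 0
  · rw [hp, zero_div]; exact hzero
  obtain ⟨m, b, hb, hb1, hbr⟩ := key p (by rintro rfl; exact hp (map_zero _))
  obtain ⟨n, c, hc, hc1, hcr⟩ := key q (by rintro rfl; exact hq (map_zero _))
  have hc0 : c ≠ 0 := by
    rintro rfl
    rw [map_zero] at hc1
    exact zero_ne_one hc1
  rw [hb, hc] at ha1 ⊢
  rcases lt_or_ge m n with hmn | hmn
  · exfalso
    obtain ⟨k, rfl⟩ := Nat.exists_eq_add_of_lt hmn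
    have h1 : f ^ m * b / (f ^ (m + k + 1) * c) = (f ^ (k + 1))⁻¹ * (b / c) := by
      field_simp
      ring
    rw [h1, map_mul, map_div₀, hb1, hc1, div_one, mul_one, map_inv₀, map_pow] at ha1
    have h2 : v f ^ (k + 1) < 1 := pow_lt_one₀ zero_le hf (Nat.succ_ne_zero k)
    have h3 : v f ^ (k + 1) ≠ 0 := pow_ne_zero _ ((Valuation.ne_zero_iff v).2 hf0)
    exact absurd ha1 (not_le.2 ((one_lt_inv₀ (zero_lt_iff.2 h3)).2 h2))
  · obtain ⟨k, rfl⟩ := Nat.exists_eq_add_of_le hmn
    have h1 : f ^ (n + k) * b / (f ^ n * c) = f ^ k * (b * c⁻¹) := by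
      rw [pow_add]
      field_simp
    rw [h1]
    refine Rc.mul v hv ?_ (Rc.mul v hv hbr (Rc.inv v hv hcr hc1))
    rcases Nat.eq_zero_or_pos k with rfl | hk
    · exact ⟨1, by rw [pow_zero, map_one, sub_self, map_zero]; exact zero_lt_one⟩
    · exact ⟨0, by rw [map_zero, sub_zero, map_pow]; exact pow_lt_one₀ zero_le hf hk.ne'⟩

theorem nb_res (hv : ∀ x : K, x ≠ 0 → v (algebraMap K L x) = 1) {f : L} (hf : v f ≠ 1) (hf0 : f ≠ 0) {a : L}
    (ha : a ∈ K⟮f⟯) (ha1 : v a ≤ 1) : Rc K v a := by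
  rcases lt_or_gt_of_ne hf with h | h
  · exact nb_res1 v hv h hf0 ha ha1
  · refine nb_res1 v hv (f := f⁻¹) ?_ (inv_ne_zero hf0) ?_ ha1
    · rw [map_inv₀]
      exact inv_lt_one_of_one_lt₀ h
    · have h1 : K⟮f⟯ ≤ K⟮f⁻¹⟯ := by
        rw [adjoin_simple_le_iff]
        have := inv_mem (mem_adjoin_simple_self K f⁻¹)
        rwa [inv_inv] at this
      exact h1 ha

/-- bounded residue degree -/
theorem nb_dep (hv : ∀ x : K, x ≠ 0 → v (algebraMap K L x) = 1) {f : L} (hf : v f ≠ 1) (hf0 : f ≠ 0)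
    [FiniteDimensional K⟮f⟯ L] {D : ℕ} (hD : Module.finrank K⟮f⟯ L ≤ D) (c : L) (hc : v c ≤ 1) :
    ∃ P : Polynomial K, P ≠ 0 ∧ P.natDegree ≤ D ∧ v (Polynomial.aeval c P) < 1 := by
  classical
  have h1 : ¬ LinearIndependent K⟮f⟯ (fun i : Fin (D + 1) => c ^ (i : ℕ)) := by
    intro h
    have := h.fintype_card_le_finrank
    rw [Fintype.card_fin] at this
    omega
  obtain ⟨g, hg, j, hj⟩ := Fintype.not_linearIndependent_iff.1 h1
  obtain ⟨i0, hi0⟩ := Finite.exists_max (fun i => v (g i : L))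
  have hj' : (g j : L) ≠ 0 := by
    intro h
    exact hj (Subtype.ext h)
  have hg0 : (g i0 : L) ≠ 0 := by
    intro h
    have := hi0 j
    rw [h, map_zero] at this
    exact hj' ((Valuation.zero_iff v).1 (le_antisymm this zero_le))
  have hval : ∀ i, v ((g i : L) / g i0) ≤ 1 := by
    intro i
    rw [map_div₀]
    exact div_le_one_of_le₀ (hi0 i) zero_le
  have hr : ∀ i, Rc K v ((g i : L) / g i0) := fun i =>
    nb_res v hv hf hf0 (div_mem (g i).2 (g i0).2) (hval i)
  choose x hx using hr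
  refine ⟨∑ i : Fin (D + 1), Polynomial.monomial (i : ℕ) (x i), ?_, ?_, ?_⟩
  · intro h
    have h2 : (∑ i : Fin (D + 1), Polynomial.monomial (i : ℕ) (x i)).coeff (i0 : ℕ) = x i0 := by
      rw [Polynomial.finsetSum_coeff]
      rw [Finset.sum_eq_single i0]
      · rw [Polynomial.coeff_monomial, if_pos rfl]
      · intro b _ hb
        rw [Polynomial.coeff_monomial, if_neg]
        intro h
        exact hb (Fin.ext h)
      · intro h; exact absurd (Finset.mem_univ _) h
    rw [h, Polynomial.coeff_zero] at h2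
    have h3 := hx i0
    rw [div_self hg0, ← h2, map_zero, sub_zero, map_one] at h3
    exact absurd h3 (lt_irrefl _)
  · refine Polynomial.natDegree_sum_le_of_forall_le _ _ fun i _ => ?_
    exact (Polynomial.natDegree_monomial_le _).trans (Nat.lt_succ_iff.1 i.2)
  · have h2 : ∑ i : Fin (D + 1), ((g i : L) / g i0) * c ^ (i : ℕ) = 0 := by
      have h3 : ∑ i : Fin (D + 1), (g i : L) * c ^ (i : ℕ) = 0 := hg
      rw [← zero_div (g i0 : L), ← h3, Finset.sum_div]
      exact Finset.sum_congr rfl fun i _ => by ring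
    have h4 : Polynomial.aeval c (∑ i : Fin (D + 1), Polynomial.monomial (i : ℕ) (x i)) =
        -∑ i : Fin (D + 1), ((g i : L) / g i0 - algebraMap K L (x i)) * c ^ (i : ℕ) := by
      rw [map_sum]
      simp only [Polynomial.aeval_monomial, sub_mul, Finset.sum_sub_distrib, h2]
      ring
    rw [h4, Valuation.map_neg]
    refine Valuation.map_sum_lt v one_ne_zero fun i _ => ?_
    rw [map_mul, map_pow]
    exact (mul_le_of_le_one_right' (pow_le_one' hc _)).trans_lt (hx i)

end

/-- numbers with bounded totient -/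
theorem nb_tot {m Φ : ℕ} (hm : 0 < m) (h : m.totient ≤ Φ) : m ∣ (Φ * (Φ + 1)).factorial := by
  rw [Nat.dvd_iff_prime_pow_dvd_dvd]
  intro p k hp hk
  rcases Nat.eq_zero_or_pos k with rfl | hk0
  · rw [pow_zero]; exact one_dvd _
  have h1 : (p ^ k).totient ≤ Φ :=
    (Nat.le_of_dvd (Nat.totient_pos.2 hm) (Nat.totient_dvd_of_dvd hk)).trans h
  rw [Nat.totient_prime_pow hp hk0] at h1
  have hp2 := hp.two_le
  have hp1 : 0 < p ^ (k - 1) := pow_pos hp.pos _
  have h2 : p ^ (k - 1) ≤ Φ := le_trans (Nat.le_mul_of_pos_right _ (by omega)) h1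
  have h3 : p - 1 ≤ Φ := le_trans (Nat.le_mul_of_pos_left _ hp1) h1
  have h4 : p ^ k ≤ Φ * (Φ + 1) := by
    have : p ^ k = p ^ (k - 1) * p := by
      rw [← pow_succ]
      congr 1
      omega
    rw [this]
    exact Nat.mul_le_mul h2 (by omega)
  exact Nat.dvd_factorial (pow_pos hp.pos _) h4

end Pool.Agent.Helper79.RG
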