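import Pool.Agent.Helper79.RG.BD
import Pool.Agent.Helper79.RG.NB1

set_option autoImplicit false

/-!
# Module DIFF: the tame different: elements of the complementary module give regular differentials
-/

set_option linter.unusedSectionVars false

namespace Pool.Agent.Helper79.RG

open scoped WithZero IntermediateField.algebraAdjoinAdjoin
open IntermediateField IsDedekindDomain
open Pool.Agent.Helper79.FE

/-- traces of idempotents modulo a maximal ideal -/
theorem df_idem {R S : Type*} [CommRing R] [CommRing S] [Algebra R S] (p : Ideal R) [p.IsMaximal]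
    [IsDedekindDomain R] [IsDomain S] [Module.IsTorsionFree R S] [Module.Finite R S] [IsIntegrallyClosed S]
    [CharZero (R ⧸ p)] (g : S) (h1 : g * g - g ∈ p.map (algebraMap R S)) (h2 : Algebra.intTrace R S g ∈ p) :
    g ∈ p.map (algebraMap R S) := by
  let := Ideal.Quotient.field p
  have h3 := Algebra.trace_quotient_eq_of_isDedekindDomain (R := R) (S := S) p g
  rw [Ideal.Quotient.eq_zero_iff_mem.2 h2, Algebra.trace_apply] at h3
  have hid : IsIdempotentElem (LinearMap.mulLeft (R ⧸ p) (Ideal.Quotient.mk (p.map (algebraMap R S)) g)) := by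
    have h4 : Ideal.Quotient.mk (p.map (algebraMap R S)) g * Ideal.Quotient.mk (p.map (algebraMap R S)) g =
        Ideal.Quotient.mk (p.map (algebraMap R S)) g := by
      rw [← map_mul, ← sub_eq_zero, ← map_sub]
      exact Ideal.Quotient.eq_zero_iff_mem.2 h1
    refine LinearMap.ext fun x => ?_
    show Ideal.Quotient.mk (p.map (algebraMap R S)) g * (Ideal.Quotient.mk (p.map (algebraMap R S)) g * x) =
      Ideal.Quotient.mk (p.map (algebraMap R S)) g * x
    rw [← mul_assoc, h4]
  have h5 := (LinearMap.IsIdempotentElem.trace_eq_zero_iff hid).1 h3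
  have h6 := LinearMap.congr_fun h5 1
  rw [LinearMap.mulLeft_apply, mul_one] at h6
  exact Ideal.Quotient.eq_zero_iff_mem.1 h6

/-- `(t)` is a maximal ideal of `k[t]` -/
theorem df_max {k M : Type*} [Field k] [Field M] [Algebra k M] {t : M} (ht : Transcendental k t) :
    (Ideal.span {(⟨t, Algebra.self_mem_adjoin_singleton k t⟩ : Algebra.adjoin k {t})}).IsMaximal := by
  have hpid := pid_adjoin _ ht
  let e : Polynomial k ≃ₐ[k] Algebra.adjoin k {t} := Polynomial.algEquivOfTranscendental k t ht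
  have heX : e Polynomial.X = ⟨t, Algebra.self_mem_adjoin_singleton k t⟩ :=
    Polynomial.algEquivOfTranscendental_apply_X k t ht
  refine PrincipalIdealRing.isMaximal_of_irreducible ?_
  rw [← heX]
  exact (MulEquiv.irreducible_iff e.toMulEquiv).2 Polynomial.irreducible_X

/-- an idempotent modulo `τ` divisible by `τ h` -/
theorem df_abs {R S M : Type*} [CommRing R] [IsDedekindDomain R] [CommRing S] [IsDedekindDomain S] [Algebra R S]
    [Field M] [Algebra S M] [IsFractionRing S M] [Module.IsTorsionFree R S] [Module.Finite R S]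
    (w : Valuation M ℤᵐ⁰) (hwS : ∀ s : S, w (algebraMap S M s) ≤ 1) (τ : R) [hp : (Ideal.span {τ}).IsMaximal]
    [CharZero (R ⧸ Ideal.span {τ})] (hτ : w (algebraMap S M (algebraMap R S τ)) < 1) (hτ0 : algebraMap R S τ ≠ 0)
    (h : M) (hcon : 1 ≤ w (algebraMap S M (algebraMap R S τ) * h)) :
    ∃ y b : S, algebraMap S M y = algebraMap S M (algebraMap R S τ) * h * algebraMap S M b ∧
      Algebra.intTrace R S y ∉ Ideal.span {τ} := by
  have hth0 : algebraMap S M (algebraMap R S τ) * h ≠ 0 := by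
    intro h0
    rw [h0, map_zero] at hcon
    exact absurd hcon (not_le.2 zero_lt_one)
  obtain ⟨P, hPp, hP⟩ := exists_centre w hwS
  have htP : algebraMap R S τ ∈ P := (hP _).1 hτ
  have hPne : P ≠ ⊥ := by
    rintro rfl
    rw [Ideal.mem_bot] at htP
    exact hτ0 htP
  have hPm : P.IsMaximal := hPp.isMaximal hPne
  have hpS : (Ideal.span {τ}).map (algebraMap R S) = Ideal.span {algebraMap R S τ} := by
    rw [Ideal.map_span, Set.image_singleton]
  have hpS0 : (Ideal.span {τ}).map (algebraMap R S) ≠ 0 := by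
    rw [hpS]
    intro h0
    rw [Submodule.zero_eq_bot, Ideal.span_singleton_eq_bot] at h0
    exact hτ0 h0
  have hpSP : (Ideal.span {τ}).map (algebraMap R S) ≤ P := by
    rw [hpS, Ideal.span_singleton_le_iff_mem]
    exact htP
  obtain ⟨n, A, hA, hPA⟩ : ∃ (n : ℕ) (A : Ideal S), (Ideal.span {τ}).map (algebraMap R S) = P ^ n * A ∧ ¬ P ∣ A := by
    obtain ⟨A, h1, h2⟩ := (FiniteMultiplicity.of_not_isUnit (a := P) (b := (Ideal.span {τ}).map (algebraMap R S))
      (by rw [Ideal.isUnit_iff]; exact hPp.ne_top) hpS0).exists_eq_pow_mul_and_not_dvd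
    exact ⟨_, A, h1, h2⟩
  have hn0 : n ≠ 0 := by
    intro h0
    rw [h0, pow_zero, one_mul] at hA
    rw [hA] at hpSP
    exact hPA (Ideal.dvd_iff_le.2 hpSP)
  obtain ⟨p', q', hq1, hq2⟩ := frac_unit w hwS (a := (algebraMap S M (algebraMap R S τ) * h)⁻¹) (by
    rw [map_inv₀]
    exact inv_le_one_of_one_le₀ hcon)
  have hq3 : algebraMap S M q' = algebraMap S M (algebraMap R S τ) * h * algebraMap S M p' := by
    rw [← hq2, mul_left_comm, mul_inv_cancel₀ hth0, mul_one]
  have hqP : q' ∉ P := fun h0 => absurd ((hP _).2 h0) (by rw [hq1]; exact lt_irrefl _)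
  have hI : ¬ A * Ideal.span {q'} ≤ P := by
    intro h0
    rcases hPp.mul_le.1 h0 with h1 | h1
    · exact hPA (Ideal.dvd_iff_le.2 h1)
    · exact hqP ((Ideal.span_singleton_le_iff_mem _).1 h1)
  have hcop : IsCoprime (P ^ n) (A * Ideal.span {q'}) := by
    refine IsCoprime.pow_left ?_
    rw [Ideal.isCoprime_iff_sup_eq]
    exact hPm.out.2 _ (lt_of_le_of_ne le_sup_left fun h0 => hI (by rw [h0]; exact le_sup_right))
  obtain ⟨x, hx, y, hy, hxy⟩ := Ideal.isCoprime_iff_exists.1 hcop
  have hyA : y ∈ A := Ideal.mul_le_left hy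
  have hyq : y ∈ Ideal.span {q'} := Ideal.mul_le_right hy
  obtain ⟨c, hc⟩ := Ideal.mem_span_singleton.1 hyq
  have hxP : x ∈ P := Ideal.pow_le_self hn0 hx
  refine ⟨y, p' * c, ?_, fun htr => ?_⟩
  · rw [hc, map_mul, hq3, map_mul]
    ring
  have hid : y * y - y ∈ (Ideal.span {τ}).map (algebraMap R S) := by
    rw [hA]
    have h1 : y * y - y = -(x * y) := by
      have : x = 1 - y := by rw [← hxy]; ring
      rw [this]; ring
    rw [h1]
    exact neg_mem (Ideal.mul_mem_mul hx hyA)
  have h8 := df_idem _ y hid htr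
  have h9 : (1 : S) ∈ P := by
    rw [← hxy]
    exact add_mem hxP (hpSP h8)
  exact hPp.ne_top ((Ideal.eq_top_iff_one P).2 h9)

theorem df_R {k M : Type*} [Field k] [Field M] [Algebra k M] {t : M} {v : Valuation M ℤᵐ⁰} (hv : v ∈ VN k M)
    (hvt : v t ≤ 1) (r : Algebra.adjoin k {t}) : v (algebraMap (Algebra.adjoin k {t}) M r) ≤ 1 := by
  obtain ⟨q, hq⟩ := bd_adj r.2
  have := bd_poly (x := t) q le_rfl v hv
  rw [max_eq_left hvt, one_pow, hq] at this
  exact this

theorem df_mem {k M : Type*} [Field k] [Field M] [Algebra k M] {t : M} {w : Valuation M ℤᵐ⁰} (hw : w ∈ VN k M)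
    (hwt : w t < 1) (r : Algebra.adjoin k {t}) (h3 : w (r : M) < 1) :
    r ∈ Ideal.span {(⟨t, Algebra.self_mem_adjoin_singleton k t⟩ : Algebra.adjoin k {t})} := by
  obtain ⟨q, hq⟩ := bd_adj r.2
  rw [← hq] at h3
  have h4 := nb_poly w (fun x hx => hw.2 x hx) hwt q
  have h5 : q.coeff 0 = 0 := by
    by_contra h0
    have h6 : w (algebraMap k M (q.coeff 0)) < 1 := by
      have h7 : algebraMap k M (q.coeff 0) = Polynomial.aeval t q -
          (Polynomial.aeval t q - algebraMap k M (q.coeff 0)) := by ring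
      rw [h7]
      exact Valuation.map_sub_lt w h3 h4
    rw [hw.2 _ h0] at h6
    exact lt_irrefl _ h6
  rw [Ideal.mem_span_singleton]
  refine ⟨⟨Polynomial.aeval t q.divX, Polynomial.aeval_mem_adjoin_singleton _ _⟩, Subtype.ext ?_⟩
  show _ = t * Polynomial.aeval t q.divX
  rw [← hq]
  conv_lhs => rw [← Polynomial.divX_mul_X_add q, h5]
  simp [mul_comm]

/-- the main point: `t h` has a zero at the places over `t = 0` -/
theorem df_main {k M : Type*} [Field k] [CharZero k] [Field M] [Algebra k M] {t : M}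
    (ht : Transcendental k t) [FiniteDimensional k⟮t⟯ M] (h : M)
    {w : Valuation M ℤᵐ⁰} (hw : w ∈ VN k M) (hwt : w t < 1)
    (hh : ∀ b : M, (∀ w ∈ VN k M, w t ≤ 1 → w b ≤ 1) →
      w ((Algebra.trace k⟮t⟯ M (h * b) : k⟮t⟯) : M) ≤ 1) : w (t * h) < 1 := by
  by_contra hcon
  push Not at hcon
  have hsep : Algebra.IsSeparable k⟮t⟯ M := by
    have : CharZero k⟮t⟯ := charZero_of_injective_algebraMap (algebraMap k k⟮t⟯).injective
    infer_instance
  have hpid := pid_adjoin _ ht
  obtain ⟨hded, hfrac⟩ := ded_closure _ ht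
  have ht0 : t ≠ 0 := by
    rintro rfl
    exact ht isAlgebraic_zero
  have hpm := df_max ht
  have hfinS : Module.Finite (Algebra.adjoin k {t}) (integralClosure (Algebra.adjoin k {t}) M) :=
    IsIntegralClosure.finite (Algebra.adjoin k {t}) k⟮t⟯ M _
  have hchar : CharZero (Algebra.adjoin k {t} ⧸
      Ideal.span {(⟨t, Algebra.self_mem_adjoin_singleton k t⟩ : Algebra.adjoin k {t})}) := by
    have := Ideal.Quotient.nontrivial_iff.2 hpm.ne_top
    exact charZero_of_injective_algebraMap (algebraMap k _).injective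
  obtain ⟨y, b, hy, hytr⟩ := df_abs (R := Algebra.adjoin k {t}) (S := integralClosure (Algebra.adjoin k {t}) M) w
    (fun s => val_int w (B := Algebra.adjoin k {t}) (df_R hw hwt.le) (s : M) s.2) ⟨t, Algebra.self_mem_adjoin_singleton k t⟩ hwt
    (fun h0 => ht0 (congrArg (fun s : integralClosure (Algebra.adjoin k {t}) M => (s : M)) h0)) h hcon
  refine hytr (df_mem hw hwt _ ?_)
  have h1 : ((Algebra.intTrace (Algebra.adjoin k {t}) (integralClosure (Algebra.adjoin k {t}) M) y :
      Algebra.adjoin k {t}) : M) = ((Algebra.trace k⟮t⟯ M (algebraMap _ M y) : k⟮t⟯) : M) := by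
    rw [← Algebra.algebraMap_intTrace (A := Algebra.adjoin k {t}) (K := k⟮t⟯) (L := M)]
    rfl
  have h2 : algebraMap (integralClosure (Algebra.adjoin k {t}) M) M y =
      AdjoinSimple.gen k t • (h * algebraMap (integralClosure (Algebra.adjoin k {t}) M) M b) := by
    rw [hy, Algebra.smul_def]
    show t * _ * _ = t * _
    ring
  rw [h2, map_smul, smul_eq_mul] at h1
  rw [h1]
  show w (t * _) < 1
  rw [map_mul]
  exact (mul_le_of_le_one_right' (hh _ fun v hv hvt => val_int v (B := Algebra.adjoin k {t}) (df_R hv hvt) (b : M) b.2)).trans_lt hwt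

/-- if the traces `Tr (h b)` are regular at `t = 0` for all `b` integral over `k[t]`, then the differential `h dt` is
regular at all the places over `t = 0` -/
theorem tame_diff {k M : Type*} [Field k] [IsAlgClosed k] [CharZero k] [Field M] [Algebra k M] (hM : IsFun k M)
    (F : IntermediateField k M) [FiniteDimensional F M] (t : M) (ht : Transcendental k t) (hF : k⟮t⟯ = F)
    (d : Derivation ℤ M M) (hd : ∀ c : k, d (algebraMap k M c) = 0) (h : M)
    (hh : ∀ b : M, (∀ w ∈ VN k M, w t ≤ 1 → w b ≤ 1) → ∀ w ∈ VN k M, w t < 1 →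
      w (algebraMap F M (Algebra.trace F M (h * b))) ≤ 1) :
    ∀ w ∈ VN k M, w t < 1 → ∀ z : M, w z = WithZero.exp (-1 : ℤ) → w h * w (d t) ≤ w (d z) := by
  subst hF
  intro w hw hwt z hz
  have hMc : CharZero M := charZero_of_injective_algebraMap (algebraMap k M).injective
  have ht0 : t ≠ 0 := by
    rintro rfl
    exact ht isAlgebraic_zero
  have hz0 := z_ne hz
  have hzt := z_trans hw hz
  by_cases hdz : d z = 0
  · -- the derivation is zero
    have hfz : FiniteDimensional k⟮z⟯ M := fin_adj t z ht hzt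
    have h1 := der_eq (k := k) (E := M) (M := M) z (Algebra.IsAlgebraic.of_finite _ _) d 0 (fun c => by rw [hd]; rfl) (by rw [hdz]; rfl)
    rw [h1]
    simp
  have hth : w (t * h) < 1 := df_main ht h hw hwt fun b hb => hh b hb w hw hwt
  have hth1 : w (t * h) ≤ w z := by
    by_cases h0 : w (t * h) = 0
    · rw [h0]; exact zero_le
    · obtain ⟨s, hs⟩ : ∃ s : ℤ, w (t * h) = WithZero.exp s := ⟨_, (WithZero.exp_log h0).symm⟩
      rw [hs, ← WithZero.exp_zero, WithZero.exp_lt_exp] at hth
      rw [hs, hz, WithZero.exp_le_exp]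
      omega
  obtain ⟨n, u, hu, htu, hwn⟩ := unif hz ht0
  -- the normalized derivation
  let D : Derivation ℤ M M := (d z)⁻¹ • d
  have hD : ∀ c : k, ∃ c' : k, D (algebraMap k M c) = algebraMap k M c' := fun c =>
    ⟨0, by rw [map_zero]; show (d z)⁻¹ • d (algebraMap k M c) = 0; rw [hd, smul_zero]⟩
  have hDz : D z = 1 := by
    show (d z)⁻¹ • d z = 1
    rw [smul_eq_mul, inv_mul_cancel₀ hdz]
  have hdD : ∀ a, d a = d z * D a := by
    intro a
    show _ = d z * ((d z)⁻¹ • d a)
    rw [smul_eq_mul, mul_inv_cancel_left₀ hdz]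
  have hDu : w (D u) ≤ 1 := by
    have := der_le hM hw hz D hD hu.le
    rwa [hDz, map_one, max_self] at this
  have hDt : w (D t) * w z ≤ w t := by
    rw [htu, der_unif hz0, hDz, ← map_mul, map_mul, map_mul, map_mul w (z ^ n) u, hu, mul_one, mul_assoc]
    refine mul_le_of_le_one_right' ?_
    rw [← map_mul]
    have h1 : (D u + n * (1 / z) * u) * z = z * D u + n * u := by field_simp
    rw [h1]
    refine (w.map_add _ _).trans (max_le ?_ ?_)
    · rw [map_mul]
      refine mul_le_one' ?_ hDu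
      rw [hz, ← WithZero.exp_zero, WithZero.exp_le_exp]
      omega
    · rw [map_mul, hu, mul_one]
      by_cases hn : n = 0
      · rw [hn, Int.cast_zero, map_zero]; exact zero_le_one
      · rw [v_int hw hn]
  rw [hdD t, map_mul]
  have hwz : 0 < w z := zero_lt_iff.2 ((Valuation.ne_zero_iff w).2 hz0)
  have hwt0 : 0 < w t := zero_lt_iff.2 ((Valuation.ne_zero_iff w).2 ht0)
  have key : w h * w (D t) ≤ 1 := by
    have h1 : (w h * w (D t)) * (w z * w t) ≤ 1 * (w z * w t) := by
      calc (w h * w (D t)) * (w z * w t) = (w t * w h) * (w (D t) * w z) := by ac_rfl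
        _ ≤ w z * w t := mul_le_mul' (by rw [← map_mul]; exact hth1) hDt
        _ = 1 * (w z * w t) := (one_mul _).symm
    exact le_of_mul_le_mul_right h1 (mul_pos hwz hwt0)
  calc w h * (w (d z) * w (D t)) = w (d z) * (w h * w (D t)) := by ac_rfl
    _ ≤ w (d z) := mul_le_of_le_one_right' key

end Pool.Agent.Helper79.RG
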