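import Pool.Agent.Helper79.RG.RT

set_option autoImplicit false

/-!
# Module DS: descent of constant elements from the algebraic closure
-/

set_option linter.unusedSectionVars false

universe u

namespace Pool.Agent.Helper79.RG

open Polynomial IntermediateField
open Pool.Agent.TH826.MK (KQ symb)
open Pool.Agent.Helper537_Sym

/-- a finite Galois extension inside an algebraic closure, containing given elements -/
theorem exists_fin_gal {K k : Type*} [Field K] [CharZero K] [Field k] [IsAlgClosed k] [Algebra K k]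
    [Algebra.IsAlgebraic K k] (s : Finset k) : ∃ K' : IntermediateField K k, FiniteDimensional K K' ∧
      IsGalois K K' ∧ ∀ x ∈ s, x ∈ K' := by
  have hc : IsAlgClosure K k := ⟨inferInstance, inferInstance⟩
  have hg : IsGalois K k := IsAlgClosure.isGalois K k
  refine ⟨(FiniteGaloisIntermediateField.adjoin K (s : Set k)).toIntermediateField,
    (FiniteGaloisIntermediateField.adjoin K (s : Set k)).finiteDimensional,
    (FiniteGaloisIntermediateField.adjoin K (s : Set k)).isGalois, fun x hx => ?_⟩
  exact FiniteGaloisIntermediateField.subset_adjoin K (s : Set k) hx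

/-- an element of `K_2` comes from every subfield containing finitely many elements -/
theorem kq_fin {K k : Type*} [Field K] [Field k] [Algebra K k] (y : KQ k 2) :
    ∃ s : Finset k, ∀ K' : IntermediateField K k, (∀ x ∈ s, x ∈ K') →
      ∃ y' : KQ K' 2, KQ.map 2 (algebraMap K' k) y' = y := by
  classical
  have hs := sy_span y
  induction hs using Submodule.span_induction with
  | mem x hx =>
    obtain ⟨p, rfl⟩ := hx
    refine ⟨{(p.1 : k), (p.2 : k)}, fun K' hK' => ?_⟩
    have h1 : (p.1 : k) ∈ K' := hK' _ (by simp)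
    have h2 : (p.2 : k) ∈ K' := hK' _ (by simp)
    refine ⟨RTm.s0 (⟨p.1, h1⟩ : K') (⟨p.2, h2⟩ : K'), ?_⟩
    rw [RTm.s0_map]
    exact RTm.s0_units p.1 p.2
  | zero => exact ⟨∅, fun K' _ => ⟨0, map_zero _⟩⟩
  | add x y _ _ hx hy =>
    obtain ⟨s, hs⟩ := hx
    obtain ⟨t, ht⟩ := hy
    refine ⟨s ∪ t, fun K' hK' => ?_⟩
    obtain ⟨x', hx'⟩ := hs K' fun a ha => hK' a (Finset.mem_union_left _ ha)
    obtain ⟨y', hy'⟩ := ht K' fun a ha => hK' a (Finset.mem_union_right _ ha)
    exact ⟨x' + y', by rw [map_add, hx', hy']⟩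
  | smul c x _ hx =>
    obtain ⟨s, hs⟩ := hx
    refine ⟨s, fun K' hK' => ?_⟩
    obtain ⟨x', hx'⟩ := hs K' hK'
    exact ⟨c • x', by rw [map_smul, hx']⟩

/-- the main step -/
theorem descent_core {K L K' L' : Type u} [Field K] [CharZero K] [Field L] [Field K'] [Field L'] [Algebra K L]
    [Algebra K K'] [Algebra K L'] [Algebra L L'] [Algebra K' L'] [IsScalarTower K K' L'] [IsScalarTower K L L']
    [FiniteDimensional K K'] [IsGalois K K'] [FiniteDimensional L L'] [IsGalois L L']
    (hK : ∀ x : L, IsAlgebraic K x → ∃ c : K, algebraMap K L c = x)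
    (δ : KQ L 2) (y : KQ K' 2) (h : KQ.map 2 (algebraMap L L') δ = KQ.map 2 (algebraMap K' L') y) :
    ∃ y0 : KQ K 2, KQ.map 2 (algebraMap K L) y0 = δ := by
  classical
  let R : (L' ≃ₐ[L] L') →* (K' ≃ₐ[K] K') :=
    (AlgEquiv.restrictNormalHom K').comp (AlgEquiv.restrictScalarsHom K)
  have hR : ∀ (σ : L' ≃ₐ[L] L') (x : K'), algebraMap K' L' (R σ x) = σ (algebraMap K' L' x) := fun σ x =>
    AlgEquiv.restrictNormal_commutes (σ.restrictScalars K) K' x
  -- surjectivity
  have hsurj : Function.Surjective R := by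
    rw [← MonoidHom.range_eq_top]
    have h1 : fixedField R.range = ⊥ := by
      rw [eq_bot_iff]
      intro x hx
      rw [IntermediateField.mem_fixedField_iff] at hx
      have h2 : algebraMap K' L' x ∈ Set.range (algebraMap L L') := by
        rw [IsGalois.mem_range_algebraMap_iff_fixed]
        intro σ
        rw [← hR, hx (R σ) ⟨σ, rfl⟩]
      obtain ⟨l, hl⟩ := h2
      have h3 : IsAlgebraic K l := by
        have h4 : IsAlgebraic K (algebraMap K' L' x) :=
          (Algebra.IsAlgebraic.isAlgebraic (R := K) x).algebraMap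
        rw [← hl] at h4
        exact (isAlgebraic_algebraMap_iff (algebraMap L L').injective).1 h4
      obtain ⟨c, hc⟩ := hK l h3
      rw [IntermediateField.mem_bot]
      refine ⟨c, ?_⟩
      apply (algebraMap K' L').injective
      rw [← IsScalarTower.algebraMap_apply K K' L', ← hl, ← hc, ← IsScalarTower.algebraMap_apply K L L']
    rw [← IntermediateField.fixingSubgroup_fixedField R.range, h1, IntermediateField.fixingSubgroup_bot]
  -- the sum over the Galois group
  obtain ⟨y0, hy0⟩ := rt (F := K) (E := K') y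
  have h1 : ∀ τ : K' ≃ₐ[K] K', KQ.map 2 (algebraMap K' L') (KQ.map 2 ((τ : K' →ₐ[K] K') : K' →+* K') y) =
      KQ.map 2 (algebraMap L L') δ := by
    intro τ
    obtain ⟨σ, rfl⟩ := hsurj τ
    rw [kmap_map (((R σ : K' ≃ₐ[K] K') : K' →ₐ[K] K') : K' →+* K') (algebraMap K' L')
      ((((σ : L' ≃ₐ[L] L') : L' →ₐ[L] L') : L' →+* L').comp (algebraMap K' L')) (fun x => hR σ x),
      ← kmap_map (algebraMap K' L') (((σ : L' ≃ₐ[L] L') : L' →ₐ[L] L') : L' →+* L')
      ((((σ : L' ≃ₐ[L] L') : L' →ₐ[L] L') : L' →+* L').comp (algebraMap K' L')) (fun x => rfl), ← h,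
      kmap_map (algebraMap L L') (((σ : L' ≃ₐ[L] L') : L' →ₐ[L] L') : L' →+* L') (algebraMap L L')
      (fun x => σ.commutes x)]
  have h2 : KQ.map 2 (algebraMap K' L') (KQ.map 2 (algebraMap K K') y0) =
      (Fintype.card (K' ≃ₐ[K] K') : ℚ) • KQ.map 2 (algebraMap L L') δ := by
    rw [hy0, map_sum, Finset.sum_congr rfl fun τ _ => h1 τ, Finset.sum_const, Finset.card_univ,
      ← Nat.cast_smul_eq_nsmul ℚ]
  have hn : (Fintype.card (K' ≃ₐ[K] K') : ℚ) ≠ 0 := Nat.cast_ne_zero.2 Fintype.card_ne_zero
  have h3 : KQ.map 2 (algebraMap K L) y0 = (Fintype.card (K' ≃ₐ[K] K') : ℚ) • δ := by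
    rw [← sub_eq_zero]
    refine Pool.Agent.Helper79.BT.inj_alg (F := L) (F' := L') _ ?_
    rw [map_sub, map_smul, ← h2, sub_eq_zero,
      kmap_map (algebraMap K L) (algebraMap L L') (algebraMap K L')
        (fun x => (IsScalarTower.algebraMap_apply K L L' x).symm),
      kmap_map (algebraMap K K') (algebraMap K' L') (algebraMap K L')
        (fun x => (IsScalarTower.algebraMap_apply K K' L' x).symm)]
  refine ⟨(Fintype.card (K' ≃ₐ[K] K') : ℚ)⁻¹ • y0, ?_⟩
  rw [map_smul, h3, smul_smul, inv_mul_cancel₀ hn, one_smul]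

/-- an element of `K_2(L)` which becomes constant over the algebraic closure `k` of `K` is constant, if `K` is
algebraically closed in `L` (here `L0 / L` is algebraic) -/
theorem descent {K L k L0 : Type u} [Field K] [CharZero K] [Field L] [Field k] [IsAlgClosed k] [Field L0]
    [Algebra K L] [Algebra K k] [Algebra.IsAlgebraic K k] [Algebra k L0] [Algebra L L0] [Algebra K L0]
    [IsScalarTower K k L0] [IsScalarTower K L L0] [Algebra.IsAlgebraic L L0]
    (hK : ∀ x : L, IsAlgebraic K x → ∃ c : K, algebraMap K L c = x)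
    (δ : KQ L 2) (y : KQ k 2) (h : KQ.map 2 (algebraMap L L0) δ = KQ.map 2 (algebraMap k L0) y) :
    ∃ y0 : KQ K 2, KQ.map 2 (algebraMap K L) y0 = δ := by
  classical
  have hLc : CharZero L := charZero_of_injective_algebraMap (algebraMap K L).injective
  let Ω := AlgebraicClosure L0
  have hLΩ : Algebra.IsAlgebraic L Ω := Algebra.IsAlgebraic.trans L L0 Ω
  have hKΩ : IsScalarTower K L Ω := IsScalarTower.of_algebraMap_eq fun x => by
    rw [IsScalarTower.algebraMap_apply K L0 Ω, IsScalarTower.algebraMap_apply K L L0,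
      ← IsScalarTower.algebraMap_apply L L0 Ω]
  have hKkΩ : IsScalarTower K k Ω := IsScalarTower.of_algebraMap_eq fun x => by
    rw [IsScalarTower.algebraMap_apply K L0 Ω, IsScalarTower.algebraMap_apply K k L0,
      ← IsScalarTower.algebraMap_apply k L0 Ω]
  -- the field of definition of `y`
  obtain ⟨s, hs⟩ := kq_fin (K := K) y
  obtain ⟨K', hK'fin, hK'gal, hK's⟩ := exists_fin_gal (K := K) s
  obtain ⟨y', hy'⟩ := hs K' hK's
  -- the field `L'`
  let b := Module.finBasis K K'
  obtain ⟨L', hL'fin, hL'gal, hL's⟩ := exists_fin_gal (K := L) (k := Ω)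
    (Finset.univ.image fun i => algebraMap k Ω (b i : K'))
  have hmem : ∀ x : K', algebraMap k Ω (x : k) ∈ L' := by
    intro x
    have h1 := b.sum_repr x
    have h2 : ((∑ i, b.repr x i • b i : K') : k) = (x : k) := congrArg Subtype.val h1
    rw [← h2, AddSubmonoidClass.coe_finsetSum, map_sum]
    refine sum_mem fun i _ => ?_
    have h3 : ((b.repr x i • b i : K') : k) = algebraMap K k (b.repr x i) * (b i : k) := by
      rw [IntermediateField.coe_smul, Algebra.smul_def]
    rw [h3, map_mul, ← IsScalarTower.algebraMap_apply K k Ω, IsScalarTower.algebraMap_apply K L Ω]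
    refine mul_mem (L'.algebraMap_mem _) (hL's _ ?_)
    exact Finset.mem_image.2 ⟨i, Finset.mem_univ _, rfl⟩
  let j : K' →+* L' :=
    { toFun := fun x => ⟨algebraMap k Ω (x : k), hmem x⟩
      map_one' := Subtype.ext (map_one (algebraMap k Ω))
      map_mul' := fun x y => Subtype.ext (map_mul (algebraMap k Ω) (x : k) (y : k))
      map_zero' := Subtype.ext (map_zero (algebraMap k Ω))
      map_add' := fun x y => Subtype.ext (map_add (algebraMap k Ω) (x : k) (y : k)) }
  let _ : Algebra K' L' := j.toAlgebra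
  have t1 : IsScalarTower K K' L' := IsScalarTower.of_algebraMap_eq fun x => by
    apply Subtype.ext
    show algebraMap K Ω x = algebraMap k Ω (algebraMap K k x)
    exact IsScalarTower.algebraMap_apply K k Ω x
  have t2 : IsScalarTower K L L' := IsScalarTower.of_algebraMap_eq fun x => by
    apply Subtype.ext
    show algebraMap K Ω x = algebraMap L Ω (algebraMap K L x)
    exact IsScalarTower.algebraMap_apply K L Ω x
  refine descent_core (K' := K') (L' := L') hK δ y' ?_
  have hL'Ω : Algebra.IsAlgebraic L' Ω := Algebra.IsAlgebraic.tower_top (K := L) L'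
  rw [← sub_eq_zero]
  refine Pool.Agent.Helper79.BT.inj_alg (F := L') (F' := Ω) _ ?_
  rw [map_sub, sub_eq_zero,
    kmap_map (algebraMap L L') (algebraMap L' Ω) (algebraMap L Ω) (fun x => rfl),
    kmap_map (algebraMap K' L') (algebraMap L' Ω) ((algebraMap k Ω).comp (algebraMap K' k)) (fun x => rfl),
    ← kmap_map (algebraMap K' k) (algebraMap k Ω) ((algebraMap k Ω).comp (algebraMap K' k)) (fun x => rfl), hy',
    ← kmap_map (algebraMap L L0) (algebraMap L0 Ω) (algebraMap L Ω) (fun x => rfl),
    ← kmap_map (algebraMap k L0) (algebraMap L0 Ω) (algebraMap k Ω) (fun x => rfl), h]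

/-- algebraicity of the base change -/
theorem alg_bc {K L k L0 : Type*} [Field K] [Field L] [Field k] [Field L0] [Algebra K L] [Algebra K k]
    [Algebra.IsAlgebraic K k] [Algebra k L0] [Algebra L L0] [Algebra K L0] [IsScalarTower K k L0]
    [IsScalarTower K L L0] (f : L) [FiniteDimensional k⟮algebraMap L L0 f⟯ L0] : Algebra.IsAlgebraic L L0 := by
  have h1 : ∀ x : k, algebraMap k L0 x ∈ algebraicClosure L L0 := by
    intro x
    rw [mem_algebraicClosure_iff]
    have h2 : IsAlgebraic K (algebraMap k L0 x) := (Algebra.IsAlgebraic.isAlgebraic (R := K) x).algebraMap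
    exact h2.tower_top L
  have h2 : ∀ x : L0, x ∈ k⟮algebraMap L L0 f⟯ → x ∈ algebraicClosure L L0 := by
    intro x hx
    induction hx using IntermediateField.adjoin_induction with
    | mem x hx =>
      rw [Set.mem_singleton_iff.1 hx]
      exact (algebraicClosure L L0).algebraMap_mem f
    | algebraMap x => exact h1 x
    | add x y _ _ hx hy => exact add_mem hx hy
    | mul x y _ _ hx hy => exact mul_mem hx hy
    | inv x _ h => exact inv_mem h
  let i : k⟮algebraMap L L0 f⟯ →+* algebraicClosure L L0 :=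
    { toFun := fun x => ⟨x, h2 x x.2⟩
      map_one' := rfl
      map_mul' := fun _ _ => rfl
      map_zero' := rfl
      map_add' := fun _ _ => rfl }
  constructor
  intro x
  have h3 : IsAlgebraic k⟮algebraMap L L0 f⟯ x := Algebra.IsAlgebraic.isAlgebraic x
  have h4 : IsAlgebraic (algebraicClosure L L0) x := by
    obtain ⟨p, hp, hpx⟩ := h3
    refine ⟨p.map i, (Polynomial.map_ne_zero_iff i.injective).2 hp, ?_⟩
    rw [Polynomial.aeval_def, Polynomial.eval₂_map]
    exact hpx
  exact h4.restrictScalars L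

end Pool.Agent.Helper79.RG
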