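import Pool.Agent.Helper79.RG.EMB
import Pool.Agent.Helper79.RG.AD

set_option autoImplicit false

/-!
# Module EL: unramified symbols of an elliptic function field inside `K (L0)`
-/

set_option linter.unusedSectionVars false

universe u

namespace Pool.Agent.Helper79.RG

open scoped WithZero IntermediateField.algebraAdjoinAdjoin
open IntermediateField
open Pool.Agent.Helper79.FE
open Pool.Agent.TH826.MK (KQ symb unitPart)
open Pool.Agent.Helper537_Sym

/-- homomorphisms which agree on generators -/
theorem hom_ext_adjoin {k M N : Type*} [Field k] [Field M] [Field N] [Algebra k M] (S : Set M)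
    (hgen : ∀ m : M, m ∈ IntermediateField.adjoin k S) (φ ψ : M →+* N)
    (hk : ∀ c : k, φ (algebraMap k M c) = ψ (algebraMap k M c)) (hS : ∀ s ∈ S, φ s = ψ s) (m : M) : φ m = ψ m := by
  have hm := hgen m
  induction hm using IntermediateField.adjoin_induction with
  | mem x hx => exact hS x hx
  | algebraMap x => exact hk x
  | add x y _ _ hx hy => rw [map_add, map_add, hx, hy]
  | mul x y _ _ hx hy => rw [map_mul, map_mul, hx, hy]
  | inv x _ hx => rw [map_inv₀, map_inv₀, hx]

/-- the chord construction on `v ^ 2 = u ^ 3 + p u + q` -/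
theorem chord {E : Type*} [Field E] {u v A B P Q lam u1 v1 : E} (huA : u - A ≠ 0)
    (huv : v ^ 2 = u ^ 3 + P * u + Q) (hAB : B ^ 2 = A ^ 3 + P * A + Q) (hlam : lam = (v + B) / (u - A))
    (hu1 : u1 = lam ^ 2 - A - u) (hv1 : v1 = B - lam * (u1 - A)) :
    v = lam * (u - A) - B ∧ u * u1 = P + A * lam ^ 2 + 2 * B * lam + A ^ 2 ∧
      (A - u) * (A - u1) = 3 * A ^ 2 + P + 2 * lam * B ∧ v1 ^ 2 = u1 ^ 3 + P * u1 + Q := by
  have hE : lam * (u - A) = v + B := by rw [hlam]; field_simp
  have h2 : (A - u) * (A - u1) = 3 * A ^ 2 + P + 2 * lam * B := by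
    have h1 : (u - A) * ((A - u) * (A - u1)) = (u - A) * (3 * A ^ 2 + P + 2 * lam * B) := by
      have e1 : lam ^ 2 * (u - A) ^ 2 = (v + B) ^ 2 := by rw [← hE]; ring
      rw [hu1]
      linear_combination e1 - 2 * B * hE + huv - hAB
    exact mul_left_cancel₀ huA h1
  have h3 : u * u1 = P + A * lam ^ 2 + 2 * B * lam + A ^ 2 := by
    linear_combination h2 + A * hu1
  refine ⟨by linear_combination -hE, h3, h2, ?_⟩
  rw [hv1]
  linear_combination (u1 - A) * h3 + hAB + (-u1 ^ 2 + A * u1) * hu1

section

variable {k K L0 M : Type*} {L : Type u} [Field k] [IsAlgClosed k] [CharZero k] [Field K] [IsAlgClosed K] [CharZero K]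
  [Field L0] [Field L] [Field M] [Algebra k K] [Algebra k L0] [Algebra k L] [Algebra K L] [Algebra L0 L]
  [IsScalarTower k K L] [IsScalarTower k L0 L] [Algebra k M] [Algebra M L] [IsScalarTower k M L]

theorem elliptic (hP : IsProd k K L0 L) (hL0 : IsFun k L0) (hM : IsFun k M) {u v : M} {p q : k}
    (hu : Transcendental K (algebraMap M L u))
    (huv : v ^ 2 = u ^ 3 + algebraMap k M p * u + algebraMap k M q) (hpq : 4 * p ^ 3 + 27 * q ^ 2 ≠ 0)
    (hgen : ∀ m : M, m ∈ IntermediateField.adjoin k ({u, v} : Set M)) (F G : Mˣ)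
    (h : ∀ v ∈ VN K L, KQ.map 2 (algebraMap M L) (sy F G) ∈ unitPart v 2) :
    ∃ (y0 : KQ L0 2) (yK : KQ K 2), KQ.map 2 (algebraMap M L) (sy F G) =
      KQ.map 2 (algebraMap L0 L) y0 + KQ.map 2 (algebraMap K L) yK := by
  obtain ⟨x, hx, hfinx⟩ := id hL0
  have hLfun : IsFun K L := ⟨algebraMap L0 L x, hP.trans hx, hP.fin hx⟩
  have hLc : CharZero L := charZero_of_injective_algebraMap (algebraMap k L).injective
  have huk : Transcendental k u := by
    intro h0
    exact hu ((h0.algebraMap (A := L)).tower_top K)
  have huvL : (algebraMap M L v) ^ 2 = (algebraMap M L u) ^ 3 + algebraMap k L p * algebraMap M L u +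
      algebraMap k L q := by
    rw [← map_pow, huv, map_add, map_add, map_mul, map_pow, ← IsScalarTower.algebraMap_apply,
      ← IsScalarTower.algebraMap_apply]
  rcases addf hP hL0 hu huvL hpq with ⟨⟨u0, hu0⟩, ⟨v0, hv0⟩⟩ | ⟨a, b, u', v', hab, hu', hv'⟩
  · -- everything is defined over `L0`
    have hall : ∀ m : M, ∃ h : L0, algebraMap L0 L h = algebraMap M L m := by
      intro m
      have hm := hgen m
      induction hm using IntermediateField.adjoin_induction with
      | mem x hx =>
        rcases hx with rfl | hx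
        · exact ⟨u0, hu0⟩
        · rw [Set.mem_singleton_iff] at hx
          subst hx
          exact ⟨v0, hv0⟩
      | algebraMap x => exact ⟨algebraMap k L0 x, by
          rw [← IsScalarTower.algebraMap_apply, ← IsScalarTower.algebraMap_apply]⟩
      | add x y _ _ hx hy =>
        obtain ⟨x', hx'⟩ := hx
        obtain ⟨y', hy'⟩ := hy
        exact ⟨x' + y', by rw [map_add, map_add, hx', hy']⟩
      | mul x y _ _ hx hy =>
        obtain ⟨x', hx'⟩ := hx
        obtain ⟨y', hy'⟩ := hy
        exact ⟨x' * y', by rw [map_mul, map_mul, hx', hy']⟩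
      | inv x _ hx =>
        obtain ⟨x', hx'⟩ := hx
        exact ⟨x'⁻¹, by rw [map_inv₀, map_inv₀, hx']⟩
    obtain ⟨i, hi⟩ := exists_hom (R1 := M) (R2 := L0) (L := L) (algebraMap L0 L).injective hall
    refine ⟨KQ.map 2 i (sy F G), 0, ?_⟩
    rw [map_zero, add_zero, kmap_map i (algebraMap L0 L) (algebraMap M L) hi]
  · -- the quadratic extension `M / k(u)`
    have hnegv : (-v) ^ 2 = u ^ 3 + algebraMap k M p * u + algebraMap k M q := by rw [neg_sq, huv]
    obtain ⟨σ2, hσ2k, hσ2u, hσ2v⟩ := exists_emb (N := M) huk huv hgen huk hnegv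
    set η : KQ M 2 := sy F G with hη
    have hunr : ∀ w ∈ VN k M, η ∈ unitPart w 2 := unram_descent hLfun hM u hu F G h
    have hunrσ : ∀ w ∈ VN k M, KQ.map 2 σ2 η ∈ unitPart w 2 := by
      intro w hw
      have h1 := unram_map (M := k) (N := k) σ2 (fun c => ⟨c, hσ2k c⟩) (z := η) (by
        rw [Submodule.mem_iInf]
        intro w
        rw [Submodule.mem_iInf]
        exact hunr w)
      rw [Submodule.mem_iInf] at h1
      have h2 := h1 w
      rw [Submodule.mem_iInf] at h2
      exact h2 hw
    obtain ⟨y1, hy1⟩ : ∃ y1 : KQ k 2, KQ.map 2 (algebraMap k M) y1 = η + KQ.map 2 σ2 η := by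
      let uF : k⟮u⟯ := ⟨u, IntermediateField.mem_adjoin_simple_self k u⟩
      have hfix : ∀ c : k⟮u⟯, σ2 (algebraMap k⟮u⟯ M c) = algebraMap k⟮u⟯ M c := by
        intro c
        have h1 := gen_simple u c
        have h2 := hom_ext_adjoin (k := k) (M := k⟮u⟯) (N := M) {uF} (fun m => gen_simple u m)
          (σ2.comp (algebraMap k⟮u⟯ M)) (algebraMap k⟮u⟯ M) (fun c => by
            rw [RingHom.comp_apply, ← IsScalarTower.algebraMap_apply, hσ2k]) (fun s hs => by
            rw [Set.mem_singleton_iff] at hs
            subst hs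
            exact hσ2u) c
        exact h2
      have hτ : v + σ2 v = algebraMap k⟮u⟯ M 0 := by rw [hσ2v, map_zero]; ring
      have hν : v * σ2 v = algebraMap k⟮u⟯ M (-(uF ^ 3 + algebraMap k k⟮u⟯ p * uF + algebraMap k k⟮u⟯ q)) := by
        rw [hσ2v, map_neg, map_add, map_add, map_mul, map_pow, ← IsScalarTower.algebraMap_apply,
          ← IsScalarTower.algebraMap_apply]
        show v * -v = -(u ^ 3 + algebraMap k M p * u + algebraMap k M q)
        rw [← huv]
        ring
      have hE := form_all (K0 := k) v σ2 hfix 0 _ hτ hν {u, v} (by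
        intro s hs
        rcases hs with rfl | hs
        · exact ⟨uF, 0, by rw [map_zero, zero_mul, add_zero]; rfl⟩
        · rw [Set.mem_singleton_iff] at hs
          subst hs
          exact ⟨0, 1, by rw [map_zero, map_one, one_mul, zero_add]⟩) hgen
      obtain ⟨y, hy⟩ := quad v σ2 hfix 0 _ hτ hν hE η
      obtain ⟨y', hy'⟩ := mil (k := k) (K := k) (F := k⟮u⟯) (E := M) hM uF huk (gen_simple u) y (by
        intro w hw
        rw [hy]
        exact add_mem (hunr w hw) (hunrσ w hw))
      exact ⟨y', by rw [hy', hy]⟩
    -- the compositum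
    obtain ⟨E, _, _, _, _, _, _, _, _, _, _, hPE, hEfun⟩ := exists_big hLfun hM u hu
    set uE := algebraMap M E u with huE
    set vE := algebraMap M E v with hvE
    set A := algebraMap K E a with hA
    set B := algebraMap K E b with hB
    set P := algebraMap K E (algebraMap k K p) with hPdef
    set Q := algebraMap K E (algebraMap k K q) with hQdef
    have huEt : Transcendental K uE := by
      intro h0
      refine hu ?_
      have h1 := h0.algebraMap (A := L)
      rwa [huE, ← IsScalarTower.algebraMap_apply] at h1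
    have huvE : vE ^ 2 = uE ^ 3 + P * uE + Q := by
      rw [hvE, huE, hPdef, hQdef, ← IsScalarTower.algebraMap_apply, ← IsScalarTower.algebraMap_apply,
        IsScalarTower.algebraMap_apply k M E, IsScalarTower.algebraMap_apply k M E, ← map_pow, huv, map_add, map_add,
        map_mul, map_pow]
    have hABE : B ^ 2 = A ^ 3 + P * A + Q := by
      rw [hA, hB, ← map_pow, hab, map_add, map_add, map_mul, map_pow]
    have huA : uE - A ≠ 0 := by
      intro h0
      rw [sub_eq_zero] at h0
      exact huEt (h0 ▸ isAlgebraic_algebraMap a)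
    obtain ⟨lam, hlam⟩ : ∃ lam : E, lam = (vE + B) / (uE - A) := ⟨_, rfl⟩
    obtain ⟨u1, hu1⟩ : ∃ u1 : E, u1 = lam ^ 2 - A - uE := ⟨_, rfl⟩
    obtain ⟨v1, hv1⟩ : ∃ v1 : E, v1 = B - lam * (u1 - A) := ⟨_, rfl⟩
    obtain ⟨hc1, hc2, hc3, hc4⟩ := chord huA huvE hABE hlam hu1 hv1
    -- images in `L`
    have huEL : algebraMap E L uE = algebraMap M L u := by rw [huE, ← IsScalarTower.algebraMap_apply]
    have hvEL : algebraMap E L vE = algebraMap M L v := by rw [hvE, ← IsScalarTower.algebraMap_apply]
    have hAL : algebraMap E L A = algebraMap K L a := by rw [hA, ← IsScalarTower.algebraMap_apply]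
    have hBL : algebraMap E L B = algebraMap K L b := by rw [hB, ← IsScalarTower.algebraMap_apply]
    have hu1L : algebraMap E L u1 = algebraMap L0 L u' := by
      rw [hu', hu1, hlam, map_sub, map_sub, map_pow, map_div₀, map_add, map_sub, huEL, hvEL, hAL, hBL]
    have hv1L : algebraMap E L v1 = algebraMap L0 L v' := by
      rw [hv', hv1, hlam, map_sub, map_mul, map_div₀, map_add, map_sub, map_sub, huEL, hvEL, hAL, hBL, hu1L]
    -- `lam` is transcendental
    have hlamt : Transcendental K lam := by
      intro h0
      obtain ⟨l, hl⟩ := mem_of_alg h0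
      refine huEt ?_
      -- `uE` is a root of a monic quadratic polynomial
      let c1 : K := l ^ 2 - a
      let c0 : K := algebraMap k K p + a * l ^ 2 + 2 * b * l + a ^ 2
      refine ⟨Polynomial.X ^ 2 - Polynomial.C c1 * Polynomial.X + Polynomial.C c0, ?_, ?_⟩
      · intro h1
        have h2 : (Polynomial.X ^ 2 - Polynomial.C c1 * Polynomial.X + Polynomial.C c0).natDegree = 2 := by
          compute_degree!
        rw [h1, Polynomial.natDegree_zero] at h2
        exact absurd h2 (by norm_num)
      · have h1 : algebraMap K E c1 = lam ^ 2 - A := by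
          show algebraMap K E (l ^ 2 - a) = _
          rw [map_sub, map_pow, hl]
        have h2 : algebraMap K E c0 = P + A * lam ^ 2 + 2 * B * lam + A ^ 2 := by
          show algebraMap K E (algebraMap k K p + a * l ^ 2 + 2 * b * l + a ^ 2) = _
          simp only [map_add, map_mul, map_pow, hl, map_ofNat]
          rfl
        simp only [map_add, map_sub, map_mul, map_pow, Polynomial.aeval_X, Polynomial.aeval_C]
        rw [h1, h2, ← hc2, hu1]
        ring
    -- `u1` is transcendental
    have hu1t : Transcendental K u1 := by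
      intro h0
      obtain ⟨c, hc⟩ := mem_of_alg h0
      have hv1a : IsAlgebraic K v1 := by
        have h1 : IsAlgebraic K (v1 ^ 2) := by
          rw [hc4, ← hc, hPdef, hQdef, ← map_pow, ← map_mul, ← map_add, ← map_add]
          exact isAlgebraic_algebraMap _
        exact IsAlgebraic.of_pow (by norm_num) h1
      obtain ⟨d, hd⟩ := mem_of_alg hv1a
      by_cases hca : c = a
      · have h1 : u1 = A := by rw [← hc, hca]
        rw [h1, sub_self, mul_zero] at hc3
        by_cases hb0 : b = 0
        · have hB0 : B = 0 := by rw [hB, hb0, map_zero]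
          rw [hB0, mul_zero, add_zero] at hc3
          have e1 : 3 * a ^ 2 + algebraMap k K p = 0 := by
            apply (algebraMap K E).injective
            rw [map_zero, hc3]
            simp only [map_add, map_mul, map_pow, map_ofNat]
            rfl
          have e2 : a ^ 3 + algebraMap k K p * a + algebraMap k K q = 0 := by
            rw [← hab, hb0]; ring
          apply hpq
          apply (algebraMap k K).injective
          simp only [map_add, map_mul, map_pow, map_ofNat, map_zero]
          have e3 : algebraMap k K p = -3 * a ^ 2 := by linear_combination e1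
          have e4 : algebraMap k K q = 2 * a ^ 3 := by rw [e3] at e2; linear_combination e2
          rw [e3, e4]
          ring
        · refine hlamt ?_
          have hB0 : B ≠ 0 := (map_ne_zero _).2 hb0
          have hEc : CharZero E := charZero_of_injective_algebraMap (algebraMap K E).injective
          have h2 : lam = algebraMap K E (-(3 * a ^ 2 + algebraMap k K p) / (2 * b)) := by
            simp only [map_div₀, map_neg, map_add, map_mul, map_pow, map_ofNat]
            rw [eq_div_iff (mul_ne_zero two_ne_zero hB0)]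
            linear_combination -hc3
          rw [h2]
          exact isAlgebraic_algebraMap _
      · refine hlamt ?_
        have h1 : u1 - A ≠ 0 := by
          rw [← hc, hA, ← map_sub]
          exact (map_ne_zero _).2 (sub_ne_zero.2 hca)
        have h2 : lam = algebraMap K E ((b - d) / (c - a)) := by
          rw [map_div₀, map_sub, map_sub, hc, hd, eq_div_iff h1]
          linear_combination hv1
        rw [h2]
        exact isAlgebraic_algebraMap _
    have hu1A : u1 - A ≠ 0 := by
      intro h0
      rw [sub_eq_zero] at h0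
      exact hu1t (h0 ▸ isAlgebraic_algebraMap a)
    -- generation of `E`
    have hgenE : ∀ e : E, e ∈ IntermediateField.adjoin K ({uE, vE} : Set E) := by
      have h1 : ∀ m : M, algebraMap M E m ∈ IntermediateField.adjoin K ({uE, vE} : Set E) := by
        intro m
        have hm := hgen m
        induction hm using IntermediateField.adjoin_induction with
        | mem x hx =>
          rcases hx with rfl | hx
          · exact IntermediateField.subset_adjoin _ _ (Or.inl rfl)
          · rw [Set.mem_singleton_iff] at hx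
            subst hx
            exact IntermediateField.subset_adjoin _ _ (Or.inr rfl)
        | algebraMap x =>
          rw [← IsScalarTower.algebraMap_apply, IsScalarTower.algebraMap_apply k K E]
          exact IntermediateField.algebraMap_mem _ _
        | add x y _ _ hx hy => rw [map_add]; exact add_mem hx hy
        | mul x y _ _ hx hy => rw [map_mul]; exact mul_mem hx hy
        | inv x _ hx => rw [map_inv₀]; exact inv_mem hx
      have h2 : ∀ r ∈ RR K M E, r ∈ IntermediateField.adjoin K ({uE, vE} : Set E) := by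
        intro r hr
        induction hr using Submodule.span_induction with
        | mem x hx => obtain ⟨m, rfl⟩ := hx; exact h1 m
        | zero => exact zero_mem _
        | add x y _ _ hx hy => exact add_mem hx hy
        | smul c x _ hx => rw [Algebra.smul_def]; exact mul_mem (IntermediateField.algebraMap_mem _ _) hx
      intro e
      obtain ⟨r, s, hr, hs, -, rfl⟩ := hPE.gen e
      exact div_mem (h2 r hr) (h2 s hs)
    -- the involution
    have hneg1 : (-v1) ^ 2 = u1 ^ 3 + P * u1 + Q := by rw [neg_sq, hc4]
    obtain ⟨σ1, hσ1K, hσ1u, hσ1v⟩ := exists_emb (k := K) (M := E) (N := E) huEt huvE hgenE hu1t hneg1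
    have hσ1lam : σ1 lam = lam := by
      have h1 : σ1 A = A := hσ1K a
      have h2 : σ1 B = B := hσ1K b
      have h3 : σ1 lam = (-v1 + B) / (u1 - A) := by
        conv_lhs => rw [hlam]
        rw [map_div₀, map_add, map_sub, hσ1u, hσ1v, h1, h2]
      rw [h3, div_eq_iff hu1A]
      linear_combination -hv1
    set ξ : KQ E 2 := KQ.map 2 (algebraMap M E) η with hξ
    have hξL : KQ.map 2 (algebraMap E L) ξ = KQ.map 2 (algebraMap M L) η :=
      kmap_map _ _ _ (fun x => (IsScalarTower.algebraMap_apply M E L x).symm) η
    have hunE : ∀ w ∈ VN K E, ξ ∈ unitPart w 2 := by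
      intro w hw
      obtain ⟨v, hv, hvw⟩ := exists_place hEfun hLfun hw
      rw [hξ, hη, map_sy']
      refine unit_descent v w hw.1 hvw _ _ ?_
      rw [← map_sy', ← hη, ← hξ, hξL]
      exact h v hv
    have hunEσ : ∀ w ∈ VN K E, KQ.map 2 σ1 ξ ∈ unitPart w 2 := by
      intro w hw
      have h1 := unram_map (M := K) (N := K) σ1 (fun c => ⟨c, hσ1K c⟩) (z := ξ) (by
        rw [Submodule.mem_iInf]
        intro w
        rw [Submodule.mem_iInf]
        exact hunE w)
      rw [Submodule.mem_iInf] at h1
      have h2 := h1 w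
      rw [Submodule.mem_iInf] at h2
      exact h2 hw
    obtain ⟨y2, hy2⟩ : ∃ y2 : KQ K 2, KQ.map 2 (algebraMap K E) y2 = ξ + KQ.map 2 σ1 ξ := by
      let lF : K⟮lam⟯ := ⟨lam, IntermediateField.mem_adjoin_simple_self K lam⟩
      have hfix : ∀ c : K⟮lam⟯, σ1 (algebraMap K⟮lam⟯ E c) = algebraMap K⟮lam⟯ E c := by
        intro c
        exact hom_ext_adjoin (k := K) (M := K⟮lam⟯) (N := E) {lF} (fun m => gen_simple lam m)
          (σ1.comp (algebraMap K⟮lam⟯ E)) (algebraMap K⟮lam⟯ E) (fun c => by
            rw [RingHom.comp_apply, ← IsScalarTower.algebraMap_apply, hσ1K]) (fun s hs => by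
            rw [Set.mem_singleton_iff] at hs
            subst hs
            exact hσ1lam) c
      have hτ : uE + σ1 uE = algebraMap K⟮lam⟯ E (lF ^ 2 - algebraMap K K⟮lam⟯ a) := by
        rw [hσ1u, map_sub, map_pow, ← IsScalarTower.algebraMap_apply]
        show uE + u1 = lam ^ 2 - A
        rw [hu1]
        ring
      have hν : uE * σ1 uE = algebraMap K⟮lam⟯ E (algebraMap K K⟮lam⟯ (algebraMap k K p) +
          algebraMap K K⟮lam⟯ a * lF ^ 2 + 2 * algebraMap K K⟮lam⟯ b * lF + algebraMap K K⟮lam⟯ a ^ 2) := by
        rw [hσ1u, hc2]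
        have e : ∀ c : K, algebraMap K⟮lam⟯ E (algebraMap K K⟮lam⟯ c) = algebraMap K E c := fun c =>
          (IsScalarTower.algebraMap_apply K K⟮lam⟯ E c).symm
        have e' : algebraMap K⟮lam⟯ E lF = lam := rfl
        simp only [map_add, map_mul, map_pow, map_ofNat, e, e', hPdef, hA, hB]
      have hE := form_all (K0 := K) uE σ1 hfix _ _ hτ hν {uE, vE} (by
        intro s hs
        rcases hs with rfl | hs
        · exact ⟨0, 1, by rw [map_zero, map_one, one_mul, zero_add]⟩
        · rw [Set.mem_singleton_iff] at hs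
          subst hs
          refine ⟨-(lF * algebraMap K K⟮lam⟯ a) - algebraMap K K⟮lam⟯ b, lF, ?_⟩
          rw [map_sub, map_neg, map_mul, ← IsScalarTower.algebraMap_apply, ← IsScalarTower.algebraMap_apply]
          show vE = -(lam * A) - B + lam * uE
          rw [hc1]
          ring) hgenE
      obtain ⟨y, hy⟩ := quad uE σ1 hfix _ _ hτ hν hE ξ
      obtain ⟨y', hy'⟩ := mil (k := K) (K := K) (F := K⟮lam⟯) (E := E) hEfun lF hlamt (gen_simple lam) y (by
        intro w hw
        rw [hy]
        exact add_mem (hunE w hw) (hunEσ w hw))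
      exact ⟨y', by rw [hy', hy]⟩
    -- the point over `L0`
    have hu't : Transcendental k u' := by
      intro h0
      have h1 : IsAlgebraic K (algebraMap E L u1) := by
        rw [hu1L]
        exact (h0.algebraMap (A := L)).tower_top K
      exact hu1t ((isAlgebraic_algebraMap_iff (algebraMap E L).injective).1 h1)
    have huv' : v' ^ 2 = u' ^ 3 + algebraMap k L0 p * u' + algebraMap k L0 q := by
      apply (algebraMap L0 L).injective
      rw [map_pow, map_add, map_add, map_mul, map_pow, ← hu1L, ← hv1L, ← IsScalarTower.algebraMap_apply,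
        ← IsScalarTower.algebraMap_apply, ← map_pow, hc4, map_add, map_add, map_mul, map_pow, hPdef, hQdef,
        ← IsScalarTower.algebraMap_apply, ← IsScalarTower.algebraMap_apply, ← IsScalarTower.algebraMap_apply,
        ← IsScalarTower.algebraMap_apply]
    obtain ⟨τ0, hτ0k, hτ0u, hτ0v⟩ := exists_emb (k := k) (M := M) (N := L0) huk huv hgen hu't huv'
    -- comparison
    let ρ : M →+* L := (algebraMap E L).comp (σ1.comp (algebraMap M E))
    have hρk : ∀ c : k, ρ (algebraMap k M c) = algebraMap k L c := by
      intro c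
      show algebraMap E L (σ1 (algebraMap M E (algebraMap k M c))) = _
      rw [← IsScalarTower.algebraMap_apply k M E, IsScalarTower.algebraMap_apply k K E, hσ1K,
        ← IsScalarTower.algebraMap_apply K E L, ← IsScalarTower.algebraMap_apply k K L]
    have hcmp : ∀ m : M, ρ (σ2 m) = algebraMap L0 L (τ0 m) := by
      intro m
      refine hom_ext_adjoin (k := k) {u, v} hgen (ρ.comp σ2) ((algebraMap L0 L).comp τ0) (fun c => ?_)
        (fun s hs => ?_) m
      · show ρ (σ2 (algebraMap k M c)) = algebraMap L0 L (τ0 (algebraMap k M c))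
        rw [hσ2k, hρk, hτ0k, ← IsScalarTower.algebraMap_apply]
      · rcases hs with rfl | hs
        · show ρ (σ2 _) = algebraMap L0 L (τ0 _)
          rw [hσ2u, hτ0u]
          show algebraMap E L (σ1 uE) = _
          rw [hσ1u, hu1L]
        · rw [Set.mem_singleton_iff] at hs
          subst hs
          show ρ (σ2 _) = algebraMap L0 L (τ0 _)
          rw [hσ2v, hτ0v, map_neg]
          show -(algebraMap E L (σ1 vE)) = _
          rw [hσ1v, map_neg, neg_neg, hv1L]
    have e1 : KQ.map 2 (algebraMap M L) η + KQ.map 2 ρ η = KQ.map 2 (algebraMap K L) y2 := by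
      have h1 := congrArg (KQ.map 2 (algebraMap E L)) hy2
      rw [map_add, hξL, kmap_map (algebraMap K E) (algebraMap E L) (algebraMap K L)
        (fun x => (IsScalarTower.algebraMap_apply K E L x).symm), hξ,
        kmap_map (algebraMap M E) σ1 (σ1.comp (algebraMap M E)) (fun x => rfl),
        kmap_map (σ1.comp (algebraMap M E)) (algebraMap E L) ρ (fun x => rfl)] at h1
      exact h1.symm
    have e2 : KQ.map 2 ρ η + KQ.map 2 (algebraMap L0 L) (KQ.map 2 τ0 η) =
        KQ.map 2 (algebraMap K L) (KQ.map 2 (algebraMap k K) y1) := by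
      have h1 := congrArg (KQ.map 2 ρ) hy1
      rw [map_add, kmap_map (algebraMap k M) ρ (algebraMap k L) hρk,
        kmap_map σ2 ρ (ρ.comp σ2) (fun x => rfl)] at h1
      rw [kmap_map (algebraMap k K) (algebraMap K L) (algebraMap k L)
        (fun x => (IsScalarTower.algebraMap_apply k K L x).symm), h1,
        kmap_map τ0 (algebraMap L0 L) (ρ.comp σ2) (fun x => (hcmp x).symm)]
    refine ⟨KQ.map 2 τ0 η, y2 - KQ.map 2 (algebraMap k K) y1, ?_⟩
    rw [map_sub, ← e1, ← e2]
    abel

end

end Pool.Agent.Helper79.RG
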