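import Pool.Agent.Helper79.RG.PL

set_option autoImplicit false

/-!
# Module EMB: embeddings of the function field of a plane cubic `v ^ 2 = u ^ 3 + p u + q`
-/

set_option linter.unusedSectionVars false

universe u

namespace Pool.Agent.Helper79.RG

open scoped WithZero IntermediateField.algebraAdjoinAdjoin
open IntermediateField
open Pool.Agent.Helper79.FE
open Pool.Agent.TH826.MK (KQ symb unitPart)
open Pool.Agent.Helper537_Sym

/-- homomorphisms from a field of fractions -/
theorem exists_frac_hom {R M N : Type*} [CommRing R] [Field M] [Field N] (p : R →+* M) (q : R →+* N)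
    (hker : ∀ a, p a = 0 ↔ q a = 0) (hsurj : ∀ m : M, ∃ a b : R, p b ≠ 0 ∧ m = p a / p b) :
    ∃ φ : M →+* N, ∀ a, φ (p a) = q a := by
  choose a b hb hm using hsurj
  have hq : ∀ y, p y ≠ 0 → q y ≠ 0 := fun y hy h => hy ((hker y).2 h)
  have key : ∀ (m : M) (x y : R), p y ≠ 0 → m = p x / p y → q (a m) / q (b m) = q x / q y := by
    intro m x y hy hxy
    have h1 : p (x * b m - a m * y) = 0 := by
      rw [map_sub, map_mul, map_mul, sub_eq_zero]
      have h2 : p x / p y = p (a m) / p (b m) := by rw [← hxy, ← hm]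
      rwa [div_eq_div_iff hy (hb m)] at h2
    have h2 := (hker _).1 h1
    rw [map_sub, map_mul, map_mul, sub_eq_zero] at h2
    rw [div_eq_div_iff (hq _ (hb m)) (hq y hy)]
    exact h2.symm
  have h1 : p 1 ≠ 0 := by rw [map_one]; exact one_ne_zero
  refine ⟨{ toFun := fun m => q (a m) / q (b m)
            map_one' := ?_, map_zero' := ?_, map_add' := fun m m' => ?_, map_mul' := fun m m' => ?_ }, fun x => ?_⟩
  · rw [key 1 1 1 h1 (by rw [map_one, div_one]), map_one, div_one]
  · rw [key (m := m * m') (x := a m * a m') (y := b m * b m')]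
    · rw [map_mul, map_mul, div_mul_div_comm]
    · rw [map_mul]; exact mul_ne_zero (hb m) (hb m')
    · conv_lhs => rw [hm m, hm m']
      rw [div_mul_div_comm, map_mul, map_mul]
  · rw [key 0 0 1 h1 (by rw [map_zero, zero_div]), map_zero, zero_div]
  · show q (a (m + m')) / q (b (m + m')) = _
    rw [key (m := m + m') (x := a m * b m' + b m * a m') (y := b m * b m')]
    · rw [map_add, map_mul, map_mul, map_mul, div_add_div _ _ (hq _ (hb m)) (hq _ (hb m'))]
    · rw [map_mul]; exact mul_ne_zero (hb m) (hb m')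
    · conv_lhs => rw [hm m, hm m']
      rw [div_add_div _ _ (hb m) (hb m'), map_add, map_mul, map_mul, map_mul]
  · show q (a (p x)) / q (b (p x)) = q x
    rw [key (p x) x 1 h1 (by rw [map_one, div_one]), map_one, div_one]

section emb

variable {k M N : Type*} [Field k] [Field M] [Field N] [Algebra k M] [Algebra k N]

theorem cubic_indep {u v : M} {p q : k} (hu : Transcendental k u)
    (huv : v ^ 2 = u ^ 3 + algebraMap k M p * u + algebraMap k M q) (A B : Polynomial k)
    (h : Polynomial.aeval u A + Polynomial.aeval u B * v = 0) : A = 0 ∧ B = 0 := by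
  let f : Polynomial k := Polynomial.X ^ 3 + Polynomial.C p * Polynomial.X + Polynomial.C q
  have hf : Polynomial.aeval u f = v ^ 2 := by
    rw [huv]
    simp [f]
  have hfd : f.natDegree = 3 := by
    show (Polynomial.X ^ 3 + Polynomial.C p * Polynomial.X + Polynomial.C q).natDegree = 3
    compute_degree!
  have hf0 : f ≠ 0 := by
    intro h0
    rw [h0, Polynomial.natDegree_zero] at hfd
    exact absurd hfd (by norm_num)
  have h1 : A ^ 2 = B ^ 2 * f := by
    have h2 : Polynomial.aeval u (A ^ 2 - B ^ 2 * f) = 0 := by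
      rw [map_sub, map_pow, map_mul, map_pow, hf]
      linear_combination (Polynomial.aeval u A - Polynomial.aeval u B * v) * h
    rw [transcendental_iff] at hu
    exact sub_eq_zero.1 (hu _ h2)
  by_cases hB : B = 0
  · rw [hB] at h1
    refine ⟨?_, hB⟩
    have h3 : A ^ 2 = 0 := by rw [h1]; ring
    exact pow_eq_zero_iff (two_ne_zero) |>.1 h3
  · exfalso
    have h3 := congrArg Polynomial.natDegree h1
    rw [Polynomial.natDegree_pow, Polynomial.natDegree_mul (pow_ne_zero 2 hB) hf0, Polynomial.natDegree_pow, hfd] at h3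
    omega

/-- embeddings of `k(u, v)` -/
theorem exists_emb {u v : M} {p q : k} (hu : Transcendental k u)
    (huv : v ^ 2 = u ^ 3 + algebraMap k M p * u + algebraMap k M q)
    (hgen : ∀ m : M, m ∈ IntermediateField.adjoin k ({u, v} : Set M)) {u' v' : N} (hu' : Transcendental k u')
    (huv' : v' ^ 2 = u' ^ 3 + algebraMap k N p * u' + algebraMap k N q) :
    ∃ φ : M →+* N, (∀ c : k, φ (algebraMap k M c) = algebraMap k N c) ∧ φ u = u' ∧ φ v = v' := by
  have hred : ∀ P : MvPolynomial (Fin 2) k, ∃ A B : Polynomial k,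
      MvPolynomial.aeval ![u, v] P = Polynomial.aeval u A + Polynomial.aeval u B * v ∧
      MvPolynomial.aeval ![u', v'] P = Polynomial.aeval u' A + Polynomial.aeval u' B * v' := by
    intro P
    induction P using MvPolynomial.induction_on with
    | C a => exact ⟨Polynomial.C a, 0, by simp, by simp⟩
    | add P Q hP hQ =>
      obtain ⟨A, B, h1, h2⟩ := hP
      obtain ⟨A', B', h1', h2'⟩ := hQ
      refine ⟨A + A', B + B', ?_, ?_⟩
      · rw [map_add, h1, h1', map_add, map_add]; ring
      · rw [map_add, h2, h2', map_add, map_add]; ring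
    | mul_X P i hP =>
      obtain ⟨A, B, h1, h2⟩ := hP
      fin_cases i
      · refine ⟨A * Polynomial.X, B * Polynomial.X, ?_, ?_⟩
        · rw [map_mul, h1]
          simp
          ring
        · rw [map_mul, h2]
          simp
          ring
      · refine ⟨B * (Polynomial.X ^ 3 + Polynomial.C p * Polynomial.X + Polynomial.C q), A, ?_, ?_⟩
        · rw [map_mul, h1]
          simp
          linear_combination (Polynomial.aeval u B) * huv
        · rw [map_mul, h2]
          simp
          linear_combination (Polynomial.aeval u' B) * huv'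
  have hker : ∀ P : MvPolynomial (Fin 2) k, (MvPolynomial.aeval ![u, v] : MvPolynomial (Fin 2) k →ₐ[k] M).toRingHom P = 0 ↔
      (MvPolynomial.aeval ![u', v'] : MvPolynomial (Fin 2) k →ₐ[k] N).toRingHom P = 0 := by
    intro P
    obtain ⟨A, B, h1, h2⟩ := hred P
    show MvPolynomial.aeval ![u, v] P = 0 ↔ MvPolynomial.aeval ![u', v'] P = 0
    rw [h1, h2]
    constructor
    · intro h
      obtain ⟨rfl, rfl⟩ := cubic_indep hu huv A B h
      simp
    · intro h
      obtain ⟨rfl, rfl⟩ := cubic_indep hu' huv' A B h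
      simp
  have hrange : ∀ x ∈ Algebra.adjoin k ({u, v} : Set M), ∃ P : MvPolynomial (Fin 2) k,
      MvPolynomial.aeval ![u, v] P = x := by
    intro x hx
    have h1 : ({u, v} : Set M) = Set.range ![u, v] := by
      rw [Matrix.range_cons, Matrix.range_cons, Matrix.range_empty, Set.union_empty]
      rfl
    rw [h1, Algebra.adjoin_range_eq_range_aeval] at hx
    exact hx
  obtain ⟨φ, hφ⟩ := exists_frac_hom (MvPolynomial.aeval ![u, v] : MvPolynomial (Fin 2) k →ₐ[k] M).toRingHom
    (MvPolynomial.aeval ![u', v'] : MvPolynomial (Fin 2) k →ₐ[k] N).toRingHom hker (by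
      intro m
      obtain ⟨r, hr, s, hs, hrs⟩ := IntermediateField.mem_adjoin_iff_div.1 (hgen m)
      obtain ⟨P, hP⟩ := hrange r hr
      obtain ⟨Q, hQ⟩ := hrange s hs
      by_cases hs0 : s = 0
      · refine ⟨0, 1, ?_, ?_⟩
        · rw [map_one]; exact one_ne_zero
        · rw [map_zero, zero_div, hrs, hs0, div_zero]
      · refine ⟨P, Q, ?_, ?_⟩
        · show MvPolynomial.aeval ![u, v] Q ≠ 0
          rw [hQ]; exact hs0
        · show m = MvPolynomial.aeval ![u, v] P / MvPolynomial.aeval ![u, v] Q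
          rw [hP, hQ, hrs])
  refine ⟨φ, fun c => ?_, ?_, ?_⟩
  · have h1 := hφ (MvPolynomial.C c)
    have h2 : (MvPolynomial.aeval ![u, v] : MvPolynomial (Fin 2) k →ₐ[k] M).toRingHom (MvPolynomial.C c) =
      algebraMap k M c := MvPolynomial.aeval_C _ c
    have h3 : (MvPolynomial.aeval ![u', v'] : MvPolynomial (Fin 2) k →ₐ[k] N).toRingHom (MvPolynomial.C c) =
      algebraMap k N c := MvPolynomial.aeval_C _ c
    rwa [h2, h3] at h1
  · have h1 := hφ (MvPolynomial.X 0)
    have h2 : (MvPolynomial.aeval ![u, v] : MvPolynomial (Fin 2) k →ₐ[k] M).toRingHom (MvPolynomial.X 0) = u :=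
      MvPolynomial.aeval_X _ 0
    have h3 : (MvPolynomial.aeval ![u', v'] : MvPolynomial (Fin 2) k →ₐ[k] N).toRingHom (MvPolynomial.X 0) = u' :=
      MvPolynomial.aeval_X _ 0
    rwa [h2, h3] at h1
  · have h1 := hφ (MvPolynomial.X 1)
    have h2 : (MvPolynomial.aeval ![u, v] : MvPolynomial (Fin 2) k →ₐ[k] M).toRingHom (MvPolynomial.X 1) = v :=
      MvPolynomial.aeval_X _ 1
    have h3 : (MvPolynomial.aeval ![u', v'] : MvPolynomial (Fin 2) k →ₐ[k] N).toRingHom (MvPolynomial.X 1) = v' :=
      MvPolynomial.aeval_X _ 1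
    rwa [h2, h3] at h1

end emb

/-- all elements of a quadratic extension are `p + q u` -/
theorem form_all {K0 F E : Type*} [Field K0] [Field F] [Field E] [Algebra K0 F] [Algebra K0 E] [Algebra F E]
    [IsScalarTower K0 F E] (u : E) (σ : E →+* E) (hσF : ∀ c : F, σ (algebraMap F E c) = algebraMap F E c) (τ ν : F)
    (hτ : u + σ u = algebraMap F E τ) (hν : u * σ u = algebraMap F E ν) (S : Set E)
    (hS : ∀ s ∈ S, ∃ p q : F, s = algebraMap F E p + algebraMap F E q * u)
    (hgen : ∀ e : E, e ∈ IntermediateField.adjoin K0 S) (e : E) :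
    ∃ p q : F, e = algebraMap F E p + algebraMap F E q * u := by
  have he := hgen e
  induction he using IntermediateField.adjoin_induction with
  | mem x hx => exact hS x hx
  | algebraMap x => exact ⟨algebraMap K0 F x, 0, by rw [← IsScalarTower.algebraMap_apply, map_zero, zero_mul, add_zero]⟩
  | add x y _ _ hx hy =>
    obtain ⟨p, q, rfl⟩ := hx
    obtain ⟨p', q', rfl⟩ := hy
    exact ⟨p + p', q + q', by rw [map_add, map_add]; ring⟩
  | mul x y _ _ hx hy =>
    obtain ⟨p, q, rfl⟩ := hx
    obtain ⟨p', q', rfl⟩ := hy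
    refine ⟨p * p' - q * q' * ν, p * q' + q * p' + q * q' * τ, ?_⟩
    rw [map_sub, map_add, map_add, map_mul, map_mul, map_mul, map_mul, map_mul, map_mul, map_mul, ← hτ, ← hν]
    ring
  | inv x _ hx =>
    obtain ⟨p, q, hx⟩ := hx
    by_cases h0 : x = 0
    · exact ⟨0, 0, by rw [h0, inv_zero, map_zero, zero_mul, add_zero]⟩
    have hσx : σ x = algebraMap F E p + algebraMap F E q * σ u := by
      rw [hx, map_add, map_mul, hσF, hσF]
    have hN : x * σ x = algebraMap F E (p ^ 2 + p * q * τ + q ^ 2 * ν) := by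
      rw [hσx]
      conv_lhs => rw [hx]
      rw [map_add, map_add, map_mul, map_mul, map_mul, map_pow, map_pow, ← hτ, ← hν]
      ring
    have hσ0 : σ x ≠ 0 := (map_ne_zero σ).2 h0
    have hN0 : algebraMap F E (p ^ 2 + p * q * τ + q ^ 2 * ν) ≠ 0 := by
      rw [← hN]; exact mul_ne_zero h0 hσ0
    refine ⟨(p + q * τ) / (p ^ 2 + p * q * τ + q ^ 2 * ν), -q / (p ^ 2 + p * q * τ + q ^ 2 * ν), ?_⟩
    have h1 : x⁻¹ = σ x / algebraMap F E (p ^ 2 + p * q * τ + q ^ 2 * ν) := by
      rw [← hN]
      field_simp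
    set N := p ^ 2 + p * q * τ + q ^ 2 * ν with hNdef
    rw [h1, hσx, map_div₀, map_div₀, map_add (algebraMap F E) p, map_mul (algebraMap F E) q, map_neg, ← hτ]
    ring

/-- a simple extension is generated by its generator -/
theorem gen_simple {K E : Type*} [Field K] [Field E] [Algebra K E] (l : E) (x : K⟮l⟯) :
    x ∈ K⟮(⟨l, IntermediateField.mem_adjoin_simple_self K l⟩ : K⟮l⟯)⟯ := by
  obtain ⟨x, hx⟩ := x
  induction hx using IntermediateField.adjoin_induction with
  | mem x hx =>
    rw [Set.mem_singleton_iff] at hx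
    subst hx
    exact IntermediateField.mem_adjoin_simple_self K _
  | algebraMap x => exact IntermediateField.algebraMap_mem _ x
  | add x y hx' hy' hx hy => exact add_mem hx hy
  | mul x y hx' hy' hx hy => exact mul_mem hx hy
  | inv x hx' hx => exact inv_mem hx

end Pool.Agent.Helper79.RG
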