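import Pool.Agent.Helper79.RG.NB1

set_option autoImplicit false

/-!
# Module NB: over a number field the order of a torsion tame symbol of functions of bounded degree is bounded
-/

set_option linter.unusedSectionVars false

namespace Pool.Agent.Helper79.RG

open scoped WithZero IntermediateField.algebraAdjoinAdjoin
open IntermediateField IsDedekindDomain
open Pool.Agent.Helper79.FE
open Pool.Agent.TH826.MK (KQ symb unitPart)
open Pool.Agent.Helper537_Sym (sy eq_cons)

universe u v w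

/-- roots of unity of bounded degree over a number field -/
theorem nb_prim {K R : Type*} [Field K] [NumberField K] [Field R] [Algebra K R] (D : ℕ) {c : R} {n : ℕ}
    (hn : 0 < n) (hcn : c ^ n = 1) (P : Polynomial K) (hP0 : P ≠ 0) (hPD : P.natDegree ≤ D)
    (hPc : Polynomial.aeval c P = 0) :
    c ^ (Module.finrank ℚ K * D * (Module.finrank ℚ K * D + 1)).factorial = 1 := by
  have hfin : IsOfFinOrder c := isOfFinOrder_iff_pow_eq_one.2 ⟨n, hn, hcn⟩
  have hm : 0 < orderOf c := hfin.orderOf_pos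
  have hint : IsIntegral K c := ⟨Polynomial.X ^ n - 1, Polynomial.monic_X_pow_sub_C 1 hn.ne', by simp [hcn]⟩
  have : CharZero K⟮c⟯ := charZero_of_injective_algebraMap (algebraMap K K⟮c⟯).injective
  have : FiniteDimensional K K⟮c⟯ := adjoin.finiteDimensional hint
  have : FiniteDimensional ℚ K⟮c⟯ := FiniteDimensional.trans ℚ K K⟮c⟯
  let γ : K⟮c⟯ := AdjoinSimple.gen K c
  have hγ : IsPrimitiveRoot γ (orderOf c) := by
    refine IsPrimitiveRoot.of_map_of_injective (f := algebraMap K⟮c⟯ R) ?_ (algebraMap K⟮c⟯ R).injective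
    have : algebraMap K⟮c⟯ R γ = c := AdjoinSimple.algebraMap_gen K c
    rw [this]
    exact IsPrimitiveRoot.orderOf c
  have h1 := hγ.totient_le_degree_minpoly
  have h2 : (minpoly ℤ γ).natDegree = (minpoly ℚ γ).natDegree := by
    rw [minpoly.isIntegrallyClosed_eq_field_fractions' ℚ (hγ.isIntegral hm)]
    exact ((minpoly.monic (hγ.isIntegral hm)).natDegree_map _).symm
  have h3 : (minpoly ℚ γ).natDegree ≤ Module.finrank ℚ K⟮c⟯ := minpoly.natDegree_le γ
  have h4 : Module.finrank ℚ K⟮c⟯ = Module.finrank ℚ K * Module.finrank K K⟮c⟯ :=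
    (Module.finrank_mul_finrank ℚ K K⟮c⟯).symm
  have h5 : Module.finrank K K⟮c⟯ ≤ D := by
    rw [adjoin.finrank hint]
    exact (Polynomial.natDegree_le_natDegree (minpoly.degree_le_of_ne_zero K c hP0 hPc)).trans hPD
  have h6 : (orderOf c).totient ≤ Module.finrank ℚ K * D := by
    rw [h2] at h1
    exact h1.trans (h3.trans (h4.le.trans (Nat.mul_le_mul_left _ h5)))
  exact orderOf_dvd_iff_pow_eq_one.1 (nb_tot hm h6)

/-- the same for residues -/
theorem nb_ord {K L : Type*} [Field K] [NumberField K] [Field L] [Algebra K L] (v : Valuation L ℤᵐ⁰)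
    (hv : ∀ x : K, x ≠ 0 → v (algebraMap K L x) = 1) (D : ℕ) {c : L} (hc : v c ≤ 1) {n : ℕ}
    (hn : 0 < n) (hcn : v (c ^ n - 1) < 1) (P : Polynomial K) (hP0 : P ≠ 0) (hPD : P.natDegree ≤ D)
    (hPc : v (Polynomial.aeval c P) < 1) :
    v (c ^ (Module.finrank ℚ K * D * (Module.finrank ℚ K * D + 1)).factorial - 1) < 1 := by
  let A := v.valuationSubring
  let φ : K →+* A := (algebraMap K L).codRestrict A fun x => nb_k v hv x
  let R := IsLocalRing.ResidueField A
  let ρ : A →+* R := IsLocalRing.residue A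
  let : Algebra K R := (ρ.comp φ).toAlgebra
  have hρ : ∀ a : A, ρ a = 0 ↔ v (a : L) < 1 := by
    intro a
    rw [IsLocalRing.residue_eq_zero_iff]
    exact Valuation.mem_maximalIdeal_iff _ v
  let γ : A := ⟨c, hc⟩
  have h1 : ρ γ ^ n = 1 := by
    have : ρ (γ ^ n - 1) = 0 := (hρ _).2 hcn
    rw [map_sub, map_pow, map_one] at this
    exact sub_eq_zero.1 this
  have h2 : Polynomial.aeval (ρ γ) P = 0 := by
    have h3 : ρ (P.eval₂ φ γ) = Polynomial.aeval (ρ γ) P := by
      rw [Polynomial.hom_eval₂]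
      rfl
    rw [← h3, hρ]
    have h4 : ((P.eval₂ φ γ : A) : L) = Polynomial.aeval c P := by
      have : ((P.eval₂ φ γ : A) : L) = A.subtype (P.eval₂ φ γ) := rfl
      rw [this, Polynomial.hom_eval₂]
      rfl
    rw [h4]
    exact hPc
  have h5 := nb_prim D hn h1 P hP0 hPD h2
  have h6 : ρ (γ ^ (Module.finrank ℚ K * D * (Module.finrank ℚ K * D + 1)).factorial - 1) = 0 := by
    rw [map_sub, map_pow, map_one, h5, sub_self]
  exact (hρ _).1 h6

theorem nb_pow {L : Type*} [Field L] (v : Valuation L ℤᵐ⁰) {x : L} (hx : v (x - 1) < 1) (n : ℕ) :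
    v (x ^ n - 1) < 1 := by
  have hx1 : v x ≤ 1 := by
    have : x = (x - 1) + 1 := by ring
    rw [this]
    exact (Valuation.map_add v _ _).trans (max_le hx.le (by rw [map_one]))
  induction n with
  | zero => rw [pow_zero, sub_self, map_zero]; exact zero_lt_one
  | succ n ih =>
    have : x ^ (n + 1) - 1 = x * (x ^ n - 1) + (x - 1) := by ring
    rw [this]
    refine Valuation.map_add_lt v ?_ hx
    rw [map_mul]
    exact (mul_le_of_le_one_left' hx1).trans_lt ih

/-- the case of a normalized valuation -/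
theorem nb_norm {K L : Type*} [Field K] [NumberField K] [Field L] [Algebra K L] (v : Valuation L ℤᵐ⁰)
    (hvs : Function.Surjective v) (hv : ∀ x : K, x ≠ 0 → v (algebraMap K L x) = 1) (D : ℕ) (f g : Lˣ)
    (hf : FiniteDimensional K⟮(f : L)⟯ L) (hfD : Module.finrank K⟮(f : L)⟯ L ≤ D)
    (hg : FiniteDimensional K⟮(g : L)⟯ L) (hgD : Module.finrank K⟮(g : L)⟯ L ≤ D)
    (hsy : sy f g ∈ unitPart v 2) (hne : v (f : L) ≠ 1 ∨ v (g : L) ≠ 1) :
    v ((((f : L) ^ WithZero.log (v (g : L)) / (g : L) ^ WithZero.log (v (f : L))) ^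
      (2 * (Module.finrank ℚ K * D * (Module.finrank ℚ K * D + 1)).factorial)) - 1) < 1 := by
  obtain ⟨t, ht⟩ := hvs (WithZero.exp (-1 : ℤ))
  have ht0 : t ≠ 0 := by
    rintro rfl
    rw [map_zero] at ht
    exact WithZero.exp_ne_zero ht.symm
  let T : Lˣ := Units.mk0 t ht0
  have hT : v (T : L) = WithZero.exp (-1 : ℤ) := ht
  have key : ∀ f : Lˣ, ∃ (a : ℤ) (f1 : Lˣ), v (f1 : L) = 1 ∧ f = T ^ a * f1 ∧ WithZero.log (v (f : L)) = -a := by
    intro f
    have hf0 : v (f : L) ≠ 0 := (Valuation.ne_zero_iff v).2 f.ne_zero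
    obtain ⟨r, hr⟩ : ∃ r : ℤ, v (f : L) = WithZero.exp r := ⟨_, (WithZero.exp_log hf0).symm⟩
    refine ⟨-r, T ^ r * f, ?_, ?_, ?_⟩
    · rw [Units.val_mul, map_mul, Units.val_zpow_eq_zpow_val, map_zpow₀, hT, ← WithZero.exp_zsmul, hr,
        ← WithZero.exp_add, smul_eq_mul, show r * -1 + r = 0 by ring, WithZero.exp_zero]
    · rw [← mul_assoc, ← zpow_add, neg_add_cancel, zpow_zero, one_mul]
    · rw [hr, WithZero.log_exp, neg_neg]
  obtain ⟨a, f1, hf1, hfT, hla⟩ := key f
  obtain ⟨b, g1, hg1, hgT, hlb⟩ := key g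
  rw [hla, hlb]
  let c : Lˣ := g1 ^ a * f1⁻¹ ^ b
  have hc : v (c : L) = 1 := by
    show v (((g1 ^ a * f1⁻¹ ^ b : Lˣ) : L)) = 1
    rw [Units.val_mul, Units.val_zpow_eq_zpow_val, Units.val_zpow_eq_zpow_val, map_mul, map_zpow₀, map_zpow₀, hg1,
      Units.val_inv_eq_inv_val, map_inv₀, hf1, inv_one, one_zpow, one_zpow, one_mul]
  have hx : (f : L) ^ (-b) / (g : L) ^ (-a) = (c : L) := by
    have h1 : (c : L) = (g1 : L) ^ a * ((f1 : L)⁻¹) ^ b := by
      show ((g1 ^ a * f1⁻¹ ^ b : Lˣ) : L) = _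
      rw [Units.val_mul, Units.val_zpow_eq_zpow_val, Units.val_zpow_eq_zpow_val, Units.val_inv_eq_inv_val]
    rw [h1, hfT, hgT, Units.val_mul, Units.val_mul, Units.val_zpow_eq_zpow_val, Units.val_zpow_eq_zpow_val]
    have hTL : (T : L) ≠ 0 := T.ne_zero
    have hf1L : (f1 : L) ≠ 0 := f1.ne_zero
    have hg1L : (g1 : L) ≠ 0 := g1.ne_zero
    rw [mul_zpow, mul_zpow, ← zpow_mul, ← zpow_mul, inv_zpow, zpow_neg (f1 : L), zpow_neg (g1 : L),
      show b * -a = a * -b by ring]
    have h2 : (T : L) ^ (a * -b) ≠ 0 := zpow_ne_zero _ hTL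
    have h3 : (g1 : L) ^ a ≠ 0 := zpow_ne_zero _ hg1L
    have h4 : (f1 : L) ^ b ≠ 0 := zpow_ne_zero _ hf1L
    field_simp
  rw [hx]
  have h5 : sy T c ∈ unitPart v 2 := by
    have h6 := hsy
    rw [hfT, hgT, sy_dec] at h6
    have h7 := sub_mem h6 (sy_unit v hf1 hg1)
    rwa [add_sub_cancel_right] at h7
  obtain ⟨n, hn, hcn⟩ := tame_tors v c T (unitPart_swap v T c h5) hc (by
    rw [hT, ← WithZero.exp_zero, Ne, WithZero.exp_inj]
    norm_num)
  obtain ⟨P, hP0, hPD, hPc⟩ : ∃ P : Polynomial K, P ≠ 0 ∧ P.natDegree ≤ D ∧ v (Polynomial.aeval (c : L) P) < 1 := by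
    rcases hne with h | h
    · exact nb_dep v hv h f.ne_zero hfD (c : L) hc.le
    · exact nb_dep v hv h g.ne_zero hgD (c : L) hc.le
  have h8 := nb_ord v hv D hc.le hn hcn P hP0 hPD hPc
  rw [mul_comm 2, pow_mul]
  exact nb_pow v h8 2

theorem tame_bound (K : Type u) [Field K] [NumberField K] (D : ℕ) : ∃ N : ℕ, 0 < N ∧
    ∀ {L : Type v} {E : Type w} [Field L] [Field E] [Algebra K L] [Algebra L E] (f g : Lˣ),
      Transcendental K (f : L) → FiniteDimensional K⟮(f : L)⟯ L → Module.finrank K⟮(f : L)⟯ L ≤ D →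
      Transcendental K (g : L) → FiniteDimensional K⟮(g : L)⟯ L → Module.finrank K⟮(g : L)⟯ L ≤ D →
      (∀ v ∈ VN K L, sy f g ∈ unitPart v 2) →
      ∀ w : Valuation E ℤᵐ⁰, (∀ x : K, x ≠ 0 → w (algebraMap L E (algebraMap K L x)) = 1) →
        TameTors w N (algebraMap L E f) (algebraMap L E g) := by
  refine ⟨2 * (Module.finrank ℚ K * D * (Module.finrank ℚ K * D + 1)).factorial,
    Nat.mul_pos two_pos (Nat.factorial_pos _), ?_⟩
  intro L E _ _ _ _ f g _ hf hfD _ hg hgD hsy w hw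
  set B := (Module.finrank ℚ K * D * (Module.finrank ℚ K * D + 1)).factorial with hB
  let w' : Valuation L ℤᵐ⁰ := w.comap (algebraMap L E)
  have hww : ∀ x : L, w (algebraMap L E x) = w' x := fun x => rfl
  suffices h : w' ((((-1) ^ (WithZero.log (w' (f : L)) * WithZero.log (w' (g : L))) *
      (f : L) ^ WithZero.log (w' (g : L)) / (g : L) ^ WithZero.log (w' (f : L)))) ^ (2 * B) - 1) < 1 by
    unfold TameTors
    rw [hww, hww]
    rw [← hww] at h
    rw [map_sub, map_one, map_pow, map_div₀, map_mul, map_zpow₀, map_zpow₀, map_zpow₀, map_neg, map_one] at h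
    exact h
  have hsq : ∀ n : ℤ, ((-1 : L) ^ n) ^ (2 * B) = 1 := by
    intro n
    rw [pow_mul, ← zpow_natCast ((-1 : L) ^ n) 2, ← zpow_mul, mul_comm n, zpow_mul]
    norm_num
  rw [mul_div_assoc, mul_pow, hsq, one_mul]
  by_cases hne : w' (f : L) ≠ 1 ∨ w' (g : L) ≠ 1
  · obtain ⟨v, hvs, hv1⟩ := exists_norm w' (by
      rcases hne with h | h
      · exact ⟨f, f.ne_zero, h⟩
      · exact ⟨g, g.ne_zero, h⟩)
    have hvK : ∀ x : K, x ≠ 0 → v (algebraMap K L x) = 1 := fun x hx => (hv1 _).2 (hw x hx)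
    have hne' : v (f : L) ≠ 1 ∨ v (g : L) ≠ 1 := by
      rcases hne with h | h
      · exact Or.inl fun h1 => h ((hv1 _).1 h1)
      · exact Or.inr fun h1 => h ((hv1 _).1 h1)
    have h1 := nb_norm v hvs hvK D f g hf hfD hg hgD (hsy v ⟨hvs, hvK⟩) hne'
    rw [← hB] at h1
    -- the relation between the valuations
    obtain ⟨t, ht⟩ := hvs (WithZero.exp (-1 : ℤ))
    have ht0 : t ≠ 0 := by
      rintro rfl
      rw [map_zero] at ht
      exact WithZero.exp_ne_zero ht.symm
    have hlt : w' t < 1 := lt_of_same (v := v) (w := w') (fun a => (hv1 a).symm) (by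
      rw [ht, ← WithZero.exp_zero, WithZero.exp_lt_exp]
      norm_num)
    have hwt0 : w' t ≠ 0 := (Valuation.ne_zero_iff w').2 ht0
    obtain ⟨s, hs⟩ : ∃ s : ℤ, w' t = WithZero.exp s := ⟨_, (WithZero.exp_log hwt0).symm⟩
    have hs0 : s < 0 := by rwa [hs, ← WithZero.exp_zero, WithZero.exp_lt_exp] at hlt
    obtain ⟨e, he⟩ : ∃ e : ℕ, s = -e := ⟨s.natAbs, by omega⟩
    have hlog : ∀ x : Lˣ, WithZero.log (w' (x : L)) = e * WithZero.log (v (x : L)) := by
      intro x
      have hx0 : v (x : L) ≠ 0 := (Valuation.ne_zero_iff v).2 x.ne_zero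
      obtain ⟨r, hr⟩ : ∃ r : ℤ, v (x : L) = WithZero.exp r := ⟨_, (WithZero.exp_log hx0).symm⟩
      have h2 : v ((x : L) * t ^ r) = 1 := by
        rw [map_mul, map_zpow₀, ht, hr, ← WithZero.exp_zsmul, ← WithZero.exp_add, smul_eq_mul,
          show r + r * -1 = 0 by ring, WithZero.exp_zero]
      have h3 := (hv1 _).1 h2
      rw [map_mul, map_zpow₀, hs, ← WithZero.exp_zsmul, smul_eq_mul] at h3
      have h4 : w' (x : L) = WithZero.exp (-(r * s)) := by
        rw [WithZero.exp_neg]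
        exact eq_inv_of_mul_eq_one_left h3
      rw [h4, hr, WithZero.log_exp, WithZero.log_exp, he]
      ring
    rw [hlog, hlog]
    have h5 : ((f : L) ^ ((e : ℤ) * WithZero.log (v (g : L))) / (g : L) ^ ((e : ℤ) * WithZero.log (v (f : L)))) ^ (2 * B) =
        (((f : L) ^ WithZero.log (v (g : L)) / (g : L) ^ WithZero.log (v (f : L))) ^ (2 * B)) ^ e := by
      rw [mul_comm (e : ℤ), mul_comm (e : ℤ), zpow_mul, zpow_mul, zpow_natCast, zpow_natCast, ← div_pow, ← pow_mul,
        ← pow_mul, mul_comm]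
    rw [h5]
    exact lt_of_same (v := v) (w := w') (fun a => (hv1 a).symm) (nb_pow v h1 e)
  · push Not at hne
    rw [hne.1, hne.2, WithZero.log_one, zpow_zero, zpow_zero, div_one, one_pow, sub_self, map_zero]
    exact zero_lt_one

end Pool.Agent.Helper79.RG
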