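import Pool.Agent.Helper79.RG.TR
import Pool.Agent.Helper79.RG.BD
import Pool.Agent.Helper79.RG.NB

set_option autoImplicit false

/-!
# The finiteness theorems for unramified pairs of bounded degree
-/

set_option linter.unusedSectionVars false

namespace Pool.Agent.Helper79.RG

open scoped WithZero IntermediateField.algebraAdjoinAdjoin
open IntermediateField IsDedekindDomain Filter
open Pool.Agent.Helper79.FE
open Pool.Agent.TH826.MK (KQ symb unitPart)
open Pool.Agent.Helper537_Sym (sy eq_cons)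

universe u v w

/-- a polynomial over an algebraic extension divides a polynomial over the ground field -/
theorem descend {K k : Type*} [Field K] [Field k] [Algebra K k] [Algebra.IsAlgebraic K k]
    (Q : MvPolynomial (Fin 2) k) (hQ : Q ≠ 0) :
    ∃ Q' : MvPolynomial (Fin 2) K, Q' ≠ 0 ∧ Q ∣ MvPolynomial.map (algebraMap K k) Q' := by
  let _ : Algebra (MvPolynomial (Fin 2) K) (MvPolynomial (Fin 2) k) := MvPolynomial.algebraMvPolynomial
  have hmap : ∀ P : MvPolynomial (Fin 2) K, algebraMap (MvPolynomial (Fin 2) K) (MvPolynomial (Fin 2) k) P =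
    MvPolynomial.map (algebraMap K k) P := fun P => rfl
  have hint : ∀ P : MvPolynomial (Fin 2) k, IsIntegral (MvPolynomial (Fin 2) K) P := by
    intro P
    induction P using MvPolynomial.induction_on with
    | C a =>
      have h1 : IsIntegral K a := (Algebra.IsAlgebraic.isAlgebraic a).isIntegral
      refine h1.map_of_comp_eq (MvPolynomial.C (σ := Fin 2)) (MvPolynomial.C (σ := Fin 2)) ?_
      ext c
      rw [RingHom.comp_apply, RingHom.comp_apply, hmap, MvPolynomial.map_C]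
    | add p q hp hq => exact hp.add hq
    | mul_X p i hp =>
      refine hp.mul ?_
      have : (MvPolynomial.X i : MvPolynomial (Fin 2) k) =
          algebraMap (MvPolynomial (Fin 2) K) (MvPolynomial (Fin 2) k) (MvPolynomial.X i) := by
        rw [hmap, MvPolynomial.map_X]
      rw [this]
      exact isIntegral_algebraMap
  have h1 := Ideal.comap_ne_bot_of_algebraic_mem (R := MvPolynomial (Fin 2) K) (I := Ideal.span {Q}) hQ
    (Ideal.mem_span_singleton_self Q) (hint Q).isAlgebraic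
  obtain ⟨Q', hQ', hQ'0⟩ := Submodule.exists_mem_ne_zero_of_ne_bot h1
  refine ⟨Q', hQ'0, ?_⟩
  have h2 : algebraMap (MvPolynomial (Fin 2) K) (MvPolynomial (Fin 2) k) Q' ∈ Ideal.span {Q} := hQ'
  rw [Ideal.mem_span_singleton] at h2
  exact h2

theorem core {K : Type u} {L : Type v} [Field K] [CharZero K] [Field L] [Algebra K L] (hL : IsFun K L) (D : ℕ)
    {N : ℕ} (hN : 0 < N) (Pr : L → L → Prop) (hPr : ∀ f g, Pr f g → Transcendental K f ∧
      Module.finrank K⟮f⟯ L ≤ D ∧ Transcendental K g ∧ Module.finrank K⟮g⟯ L ≤ D ∧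
      ∀ {E : Type v} [Field E] [Algebra L E] (w : Valuation E ℤᵐ⁰),
        (∀ x : K, x ≠ 0 → w (algebraMap L E (algebraMap K L x)) = 1) →
        TameTors w N (algebraMap L E f) (algebraMap L E g)) :
    (∃ Q : MvPolynomial (Fin 2) K, Q ≠ 0 ∧ ∀ f g, Pr f g → MvPolynomial.aeval ![f, g] Q = 0) ∧
      {p : L × L | Pr p.1 p.2 ∧ TwoRegT K (IntermediateField.adjoin K {p.1, p.2})}.Finite := by
  obtain ⟨k, L0, _, _, _, _, _, _, _, _, _, _, _, hL0, htr, hdeg⟩ := exists_bc hL
  obtain ⟨m, e, he⟩ := bounded_degree hL0 D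
  have hne : ∀ f : L, Transcendental K f → algebraMap L L0 f ≠ 0 := by
    intro f hf h
    have : f = 0 := (map_eq_zero _).1 h
    rw [this] at hf
    exact hf isAlgebraic_zero
  have hq : ∀ f : L, Transcendental K f → Module.finrank K⟮f⟯ L ≤ D → Quo k e (algebraMap L L0 f) := fun f hf hd =>
    he _ (htr f hf) ((hdeg f hf).trans hd)
  have htame : ∀ f g, Pr f g → ∀ v ∈ VN k L0, TameTors v N (algebraMap L L0 f) (algebraMap L L0 g) := by
    intro f g hfg v hv
    refine (hPr f g hfg).2.2.2.2 v fun x hx => ?_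
    rw [← IsScalarTower.algebraMap_apply K L L0, IsScalarTower.algebraMap_apply K k L0]
    exact hv.2 _ ((map_ne_zero _).2 hx)
  constructor
  · obtain ⟨Q, hQ0, hQ⟩ := common_relation hL0 e hN
    obtain ⟨Q', hQ'0, R, hR⟩ := descend (K := K) Q hQ0
    refine ⟨Q', hQ'0, fun f g hfg => ?_⟩
    obtain ⟨hf, hfd, hg, hgd, _⟩ := hPr f g hfg
    have h1 := hQ _ _ (hq f hf hfd) (hq g hg hgd) (hne f hf) (hne g hg) (htame f g hfg) (by
      rintro ⟨⟨c, hc⟩, _⟩
      refine htr f hf ?_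
      rw [← hc]
      exact isAlgebraic_algebraMap c)
    apply (algebraMap L L0).injective
    rw [map_zero]
    have h2 : algebraMap L L0 (MvPolynomial.aeval ![f, g] Q') =
        MvPolynomial.aeval ![algebraMap L L0 f, algebraMap L L0 g] (MvPolynomial.map (algebraMap K k) Q') := by
      rw [MvPolynomial.aeval_map_algebraMap, ← MvPolynomial.aeval_algebraMap_apply]
      congr 2
      funext i
      fin_cases i <;> rfl
    rw [h2, hR, map_mul, h1, zero_mul]
  · have h1 := finite_pairs hL0 e hN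
    let F : L × L → L0 × L0 := fun p => (algebraMap L L0 p.1, algebraMap L L0 p.2)
    have hF : Function.Injective F := fun p q h =>
      Prod.ext ((algebraMap L L0).injective (congrArg Prod.fst h)) ((algebraMap L L0).injective (congrArg Prod.snd h))
    refine (h1.preimage hF.injOn).subset ?_
    rintro ⟨f, g⟩ ⟨hfg, h2⟩
    obtain ⟨hf, hfd, hg, hgd, _⟩ := hPr f g hfg
    exact ⟨hq f hf hfd, hq g hg hgd, hne f hf, hne g hg, htame f g hfg, (twoReg_bc hL0 hL htr h2).twoReg⟩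

/-- **over a field of characteristic zero** -/
theorem final_general {K : Type u} {L : Type v} [Field K] [CharZero K] [Field L] [Algebra K L] (hL : IsFun K L)
    (D : ℕ) {N : ℕ} (hN : 0 < N) :
    (∃ Q : MvPolynomial (Fin 2) K, Q ≠ 0 ∧ ∀ f g : L, Transcendental K f → Module.finrank K⟮f⟯ L ≤ D →
      Transcendental K g → Module.finrank K⟮g⟯ L ≤ D → (∀ v ∈ VN K L, TameTors v N f g) →
        MvPolynomial.aeval ![f, g] Q = 0) ∧
      {p : L × L | Transcendental K p.1 ∧ Module.finrank K⟮p.1⟯ L ≤ D ∧ Transcendental K p.2 ∧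
        Module.finrank K⟮p.2⟯ L ≤ D ∧ (∀ v ∈ VN K L, TameTors v N p.1 p.2) ∧
        TwoRegT K (IntermediateField.adjoin K {p.1, p.2})}.Finite := by
  have hne : ∀ f : L, Transcendental K f → f ≠ 0 := by
    rintro f hf rfl
    exact hf isAlgebraic_zero
  obtain ⟨⟨Q, hQ0, hQ⟩, h2⟩ := core hL D hN (fun f g => Transcendental K f ∧ Module.finrank K⟮f⟯ L ≤ D ∧
    Transcendental K g ∧ Module.finrank K⟮g⟯ L ≤ D ∧ ∀ v ∈ VN K L, TameTors v N f g)
    (fun f g ⟨hf, hfd, hg, hgd, h⟩ => ⟨hf, hfd, hg, hgd, fun w hw => tame_res (hne f hf) (hne g hg) h w hw⟩)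
  refine ⟨⟨Q, hQ0, fun f g hf hfd hg hgd h => hQ f g ⟨hf, hfd, hg, hgd, h⟩⟩, h2.subset ?_⟩
  rintro ⟨f, g⟩ ⟨hf, hfd, hg, hgd, h, h'⟩
  exact ⟨⟨hf, hfd, hg, hgd, h⟩, h'⟩

/-- **over a number field** -/
theorem final_nf {K : Type u} {L : Type v} [Field K] [NumberField K] [Field L] [Algebra K L] (hL : IsFun K L)
    (D : ℕ) :
    (∃ Q : MvPolynomial (Fin 2) K, Q ≠ 0 ∧ ∀ f g : Lˣ, Transcendental K (f : L) → Module.finrank K⟮(f : L)⟯ L ≤ D →
      Transcendental K (g : L) → Module.finrank K⟮(g : L)⟯ L ≤ D → (∀ v ∈ VN K L, sy f g ∈ unitPart v 2) →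
        MvPolynomial.aeval ![(f : L), (g : L)] Q = 0) ∧
      {p : Lˣ × Lˣ | Transcendental K (p.1 : L) ∧ Module.finrank K⟮(p.1 : L)⟯ L ≤ D ∧ Transcendental K (p.2 : L) ∧
        Module.finrank K⟮(p.2 : L)⟯ L ≤ D ∧ (∀ v ∈ VN K L, sy p.1 p.2 ∈ unitPart v 2) ∧
        TwoRegT K (IntermediateField.adjoin K {(p.1 : L), (p.2 : L)})}.Finite := by
  obtain ⟨N, hN, hbound⟩ := tame_bound.{u, v, v} K D
  obtain ⟨⟨Q, hQ0, hQ⟩, h2⟩ := core hL D hN (fun f g => ∃ f' g' : Lˣ, (f' : L) = f ∧ (g' : L) = g ∧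
    Transcendental K f ∧ Module.finrank K⟮f⟯ L ≤ D ∧
    Transcendental K g ∧ Module.finrank K⟮g⟯ L ≤ D ∧ ∀ v ∈ VN K L, sy f' g' ∈ unitPart v 2) (by
      rintro f g ⟨f', g', rfl, rfl, hf, hfd, hg, hgd, h⟩
      exact ⟨hf, hfd, hg, hgd, fun w hw => hbound f' g' hf (hL.alg hf) hfd hg (hL.alg hg) hgd h w hw⟩)
  refine ⟨⟨Q, hQ0, fun f g hf hfd hg hgd h => hQ f g ⟨f, g, rfl, rfl, hf, hfd, hg, hgd, h⟩⟩, ?_⟩
  let F : Lˣ × Lˣ → L × L := fun p => ((p.1 : L), (p.2 : L))
  have hF : Function.Injective F := fun p q h => Prod.ext (Units.ext (congrArg Prod.fst h)) (Units.ext (congrArg Prod.snd h))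
  refine (h2.preimage hF.injOn).subset ?_
  rintro ⟨f, g⟩ ⟨hf, hfd, hg, hgd, h, h'⟩
  exact ⟨⟨f, g, rfl, rfl, hf, hfd, hg, hgd, h⟩, h'⟩

end Pool.Agent.Helper79.RG
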