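import Pool.Agent.Helper79.RG.M9

set_option autoImplicit false

/-!
# Module G1: embeddings of a function field with two independent regular differentials into `K (L0)`
-/

set_option linter.unusedSectionVars false

namespace Pool.Agent.Helper79.RG

open scoped WithZero IntermediateField.algebraAdjoinAdjoin
open IntermediateField IsDedekindDomain
open Pool.Agent.Helper79.FE

/-- `M / k` has two linearly independent regular differentials `h₁ dx`, `h₂ dx` (genus at least two) -/
def TwoReg (k M : Type*) [Field k] [Field M] [Algebra k M] : Prop :=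
  ∃ (x : M) (d : Derivation ℤ M M) (h₁ h₂ : M), Transcendental k x ∧ (∀ c : k, d (algebraMap k M c) = 0) ∧
    d x = 1 ∧ LinearIndependent k ![h₁, h₂] ∧ Reg k d h₁ ∧ Reg k d h₂

/-- algebraic elements over an algebraically closed field -/
theorem g1_mem_range {k K : Type*} [Field k] [IsAlgClosed k] [Field K] [Algebra k K] {c : K}
    (h : IsAlgebraic k c) : ∃ a : k, algebraMap k K a = c := by
  have h1 := minpoly.irreducible h.isIntegral
  have h2 := IsAlgClosed.degree_eq_one_of_irreducible k h1
  exact minpoly.mem_range_of_degree_eq_one k c h2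

section

variable {k K L0 L : Type*} [Field k] [IsAlgClosed k] [CharZero k] [Field K] [IsAlgClosed K] [Field L0] [Field L]
  [Algebra k K] [Algebra k L0] [Algebra k L] [Algebra K L] [Algebra L0 L] [IsScalarTower k K L]
  [IsScalarTower k L0 L]

/-- derivations of `K / k` detect non-constants -/
theorem exists_derK {k K : Type*} [Field k] [IsAlgClosed k] [CharZero k] [Field K] [Algebra k K] (c : K)
    (hc : ∀ a : k, algebraMap k K a ≠ c) : ∃ δ : Derivation ℤ K K, (∀ a : k, δ (algebraMap k K a) = 0) ∧ δ c ≠ 0 := by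
  have hKc : CharZero K := charZero_of_injective_algebraMap (algebraMap k K).injective
  have hct : Transcendental k c := by
    intro halg
    obtain ⟨a, ha⟩ := g1_mem_range halg
    exact hc a ha
  have hs : AlgebraicIndepOn k id ({c} : Set K) :=
    (algebraicIndependent_singleton_iff (R := k) (x := fun i : ({c} : Set K) => (i : K)) ⟨c, rfl⟩).2 hct
  obtain ⟨t, hst, ht⟩ := exists_isTranscendenceBasis_superset hs
  have hcT : c ∈ t := hst rfl
  have h1 := AlgebraicIndependent.transcendental_adjoin ht.1 (s := {i : t | (i : K) ≠ c}) (i := ⟨c, hcT⟩)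
    (by simp)
  set S : Set K := (fun i : t => (i : K)) '' {i : t | (i : K) ≠ c} with hS
  have h2 : Transcendental (IntermediateField.adjoin k S) c := by
    intro halg
    exact h1 ((IsFractionRing.isAlgebraic_iff (Algebra.adjoin k S) (IntermediateField.adjoin k S) K).2 halg)
  have h3 : Algebra.IsAlgebraic (IntermediateField.adjoin k S)⟮c⟯ K := by
    have h4 := ht.isAlgebraic_field
    have hmem : ∀ a : K, a ∈ IntermediateField.adjoin k (Set.range (fun i : t => (i : K))) →
        a ∈ (IntermediateField.adjoin k S)⟮c⟯ := by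
      intro a ha
      induction ha using IntermediateField.adjoin_induction with
      | mem x hx =>
        obtain ⟨i, rfl⟩ := hx
        by_cases hic : (i : K) = c
        · simp only [hic]
          exact IntermediateField.mem_adjoin_simple_self _ _
        · have h5 : (i : K) ∈ IntermediateField.adjoin k S :=
            IntermediateField.subset_adjoin _ _ ⟨i, hic, rfl⟩
          exact IntermediateField.algebraMap_mem _ (⟨(i : K), h5⟩ : IntermediateField.adjoin k S)
      | algebraMap x =>
        exact IntermediateField.algebraMap_mem _ (algebraMap k (IntermediateField.adjoin k S) x)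
      | add x y _ _ hx hy => exact add_mem hx hy
      | mul x y _ _ hx hy => exact mul_mem hx hy
      | inv x _ h => exact inv_mem h
    let ι : IntermediateField.adjoin k (Set.range (fun i : t => (i : K))) →+*
        (IntermediateField.adjoin k S)⟮c⟯ :=
      { toFun := fun a => ⟨a, hmem a a.2⟩
        map_one' := Subtype.ext (by simp)
        map_mul' := fun a b => Subtype.ext (by simp)
        map_zero' := Subtype.ext (by simp)
        map_add' := fun a b => Subtype.ext (by simp) }
    refine ⟨fun a => ?_⟩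
    exact alg_transfer ι (RingHom.id K) (fun _ => rfl) (h4.isAlgebraic a)
  obtain ⟨D, hD1, hD2⟩ := exists_der (K := IntermediateField.adjoin k S) (E := K) c h2 h3 (fun _ => 0)
    (by simp) (by simp) 1
  refine ⟨D, fun a => ?_, ?_⟩
  · exact hD1 (algebraMap k (IntermediateField.adjoin k S) a)
  · rw [hD2]; exact one_ne_zero

/-- a derivation of `K / k` extends to `L` killing `L0` -/
theorem exists_extL (hP : IsProd k K L0 L) (hL0 : IsFun k L0) (δ : Derivation ℤ K K)
    (hδ : ∀ a : k, δ (algebraMap k K a) = 0) : ∃ D : Derivation ℤ L L,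
      (∀ c : K, D (algebraMap K L c) = algebraMap K L (δ c)) ∧ ∀ h : L0, D (algebraMap L0 L h) = 0 := by
  have hLc : CharZero L := charZero_of_injective_algebraMap (algebraMap k L).injective
  have hL0c : CharZero L0 := charZero_of_injective_algebraMap (algebraMap k L0).injective
  obtain ⟨x, hx, hfin⟩ := hL0
  have hfinL := hP.fin hx
  obtain ⟨D, hD1, hD2⟩ := exists_der (K := K) (E := L) (algebraMap L0 L x) (hP.trans hx) inferInstance
    (fun c => algebraMap K L (δ c)) (fun a b => by rw [map_add, map_add])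
    (fun a b => by rw [δ.leibniz, map_add, smul_eq_mul, smul_eq_mul, map_mul, map_mul]) 0
  refine ⟨D, hD1, fun h => ?_⟩
  have h1 := der_eq (k := k) (E := L0) (M := L) x (Algebra.IsAlgebraic.of_finite _ _) (D.compAlgebraMap L0) 0 (by
      intro c
      show D (algebraMap L0 L (algebraMap k L0 c)) = 0
      rw [← IsScalarTower.algebraMap_apply, IsScalarTower.algebraMap_apply k K L, hD1, hδ, map_zero]) (by
      show D (algebraMap L0 L x) = 0
      rw [hD2])
  exact congrArg (fun X => X h) h1

/-- such a derivation preserves the valuation rings of all places of `L / K` -/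
theorem der_int (hP : IsProd k K L0 L) (hL0 : IsFun k L0) (D : Derivation ℤ L L)
    (hD1 : ∀ c : K, ∃ c' : K, D (algebraMap K L c) = algebraMap K L c') (hD2 : ∀ h : L0, D (algebraMap L0 L h) = 0)
    {v : Valuation L ℤᵐ⁰} (hv : v ∈ VN K L) {a : L} (ha : v a ≤ 1) : v (D a) ≤ 1 := by
  have hLc : CharZero L := charZero_of_injective_algebraMap (algebraMap k L).injective
  have hKc : CharZero K := charZero_of_injective_algebraMap (algebraMap k K).injective
  have hDK : ∀ c : K, v (D (algebraMap K L c)) ≤ 1 := by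
    intro c
    obtain ⟨c', hc'⟩ := hD1 c
    rw [hc']; exact val_k hv _
  rcases gauss_or_triv hP hL0 hv with htriv | ⟨w, hw, hvw⟩
  · have hRR : ∀ p ∈ RR K L0 L, v p ≤ 1 := by
      intro p hp
      obtain ⟨n, κ, h, rfl⟩ := rep_aux hp
      refine Valuation.map_sum_le v fun i _ => ?_
      rw [map_mul]
      refine mul_le_one' (val_k hv _) ?_
      by_cases hc : h i = 0
      · rw [hc, map_zero, map_zero]; exact zero_le_one
      · rw [htriv _ hc]
    have hD : ∀ p ∈ RR K L0 L, D p ∈ RR K L0 L := by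
      intro p hp
      obtain ⟨n, κ, h, rfl⟩ := rep_aux hp
      rw [map_sum]
      refine Submodule.sum_mem _ fun i _ => ?_
      obtain ⟨c', hc'⟩ := hD1 (κ i)
      rw [D.leibniz, hD2, hc', smul_zero, zero_add, smul_eq_mul, mul_comm, ← Algebra.smul_def]
      exact Submodule.smul_mem _ _ (Submodule.subset_span ⟨_, rfl⟩)
    obtain ⟨x, hx, hfin⟩ := hL0
    obtain ⟨p, q, hp, hq, hq1, rfl⟩ := frac_nc hP x hx hv htriv ha
    have hq0 : q ≠ 0 := by
      rintro rfl
      rw [map_zero] at hq1
      exact zero_ne_one hq1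
    rw [der_div D p q hq0, map_div₀, map_pow, hq1, one_pow, div_one]
    refine (Valuation.map_sub v _ _).trans (max_le ?_ ?_)
    · rw [map_mul, hq1, one_mul]; exact hRR _ (hD _ hp)
    · rw [map_mul]; exact mul_le_one' (hRR _ hp) (hRR _ (hD _ hq))
  · exact der_gauss hP hL0 hw hv hvw D hDK
      (fun h _ => by rw [hD2, map_zero]; exact zero_le_one) ha

/-- if all the coefficients are killed by all the derivations, the sum is in `L0` -/
theorem g1_sum_mem {n : ℕ} (κ : Fin n → K) (y : Fin n → L0)
    (h : ∀ i, ∃ a : k, algebraMap k K a = κ i) :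
    ∃ h0 : L0, algebraMap L0 L h0 = ∑ i, algebraMap K L (κ i) * algebraMap L0 L (y i) := by
  choose a ha using h
  refine ⟨∑ i, algebraMap k L0 (a i) * y i, ?_⟩
  rw [map_sum]
  refine Finset.sum_congr rfl fun i _ => ?_
  rw [map_mul, ← ha i, ← IsScalarTower.algebraMap_apply, ← IsScalarTower.algebraMap_apply]

/-- a sum killed by all the derivations -/
theorem g1_coef (hP : IsProd k K L0 L) (hL0 : IsFun k L0) {n : ℕ} (κ : Fin n → K) (y : Fin n → L0)
    (hy : LinearIndependent k y)
    (h0 : ∀ (δ : Derivation ℤ K K) (D : Derivation ℤ L L),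
      (∀ a : k, δ (algebraMap k K a) = 0) → (∀ c : K, D (algebraMap K L c) = algebraMap K L (δ c)) →
      (∀ h : L0, D (algebraMap L0 L h) = 0) →
      D (∑ i, algebraMap K L (κ i) * algebraMap L0 L (y i)) = 0) :
    ∀ i, ∃ a : k, algebraMap k K a = κ i := by
  intro i
  by_contra hcon
  push Not at hcon
  obtain ⟨δ, hδ1, hδ2⟩ := exists_derK (κ i) hcon
  obtain ⟨D, hD1, hD2⟩ := exists_extL hP hL0 δ hδ1
  have h1 := h0 δ D hδ1 hD1 hD2
  rw [map_sum] at h1
  have h2 : ∑ i, δ (κ i) • algebraMap L0 L (y i) = 0 := by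
    rw [← h1]
    refine Finset.sum_congr rfl fun i _ => ?_
    rw [D.leibniz, hD2, hD1, smul_zero, zero_add, smul_eq_mul, mul_comm, Algebra.smul_def]
  exact hδ2 (Fintype.linearIndependent_iff.1 (hP.ld _ _ hy) (fun i => δ (κ i)) h2 i)

/-- the joint constants of the derivations -/
theorem const_L0 (hP : IsProd k K L0 L) (a : L) (ha : ∀ (δ : Derivation ℤ K K) (D : Derivation ℤ L L),
      (∀ a : k, δ (algebraMap k K a) = 0) → (∀ c : K, D (algebraMap K L c) = algebraMap K L (δ c)) →
      (∀ h : L0, D (algebraMap L0 L h) = 0) → D a = 0) (hL0 : IsFun k L0) : ∃ h : L0, algebraMap L0 L h = a := by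
  classical
  have hex : ∃ n : ℕ, ∃ (κ : Fin n → K) (y : Fin n → L0),
      ∑ i, algebraMap K L (κ i) * algebraMap L0 L (y i) ≠ 0 ∧
      a * ∑ i, algebraMap K L (κ i) * algebraMap L0 L (y i) ∈ RR K L0 L := by
    obtain ⟨p, q, hp, hq, hq0, rfl⟩ := hP.gen a
    obtain ⟨n, κ, y, rfl⟩ := rep_aux hq
    refine ⟨n, κ, y, hq0, ?_⟩
    rw [div_mul_cancel₀ _ hq0]
    exact hp
  have hmin := fun m hm => Nat.find_min' hex (m := m) hm
  obtain ⟨κ, y, hq0, hpR⟩ := Nat.find_spec hex
  generalize Nat.find hex = n at hmin κ y hq0 hpR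
  -- the elements `y` are independent
  have hy : LinearIndependent k y := by
    by_contra hcon
    rcases Nat.eq_zero_or_pos n with h0 | hpos
    · subst h0
      exact hq0 (by simp)
    · obtain ⟨m, rfl⟩ : ∃ m, n = m + 1 := ⟨n - 1, by omega⟩
      obtain ⟨h', κ', hh'⟩ := red_one (L := L) y κ hcon
      have e : ∑ i, algebraMap K L (κ i) * algebraMap L0 L (y i) =
          ∑ i, algebraMap K L (κ' i) * algebraMap L0 L (h' i) := by
        calc ∑ i, algebraMap K L (κ i) * algebraMap L0 L (y i)
            = ∑ i, algebraMap L0 L (y i) * algebraMap K L (κ i) := Finset.sum_congr rfl fun i _ => mul_comm _ _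
          _ = ∑ i, algebraMap L0 L (h' i) * algebraMap K L (κ' i) := hh'
          _ = _ := Finset.sum_congr rfl fun i _ => mul_comm _ _
      have h2 := hmin m ⟨κ', h', by rw [← e]; exact hq0, by rw [← e]; exact hpR⟩
      omega
  have hn : n ≠ 0 := by
    rintro rfl
    exact hq0 (by simp)
  obtain ⟨m, rfl⟩ : ∃ m, n = m + 1 := ⟨n - 1, by omega⟩
  have hκ0 : κ 0 ≠ 0 := by
    intro h0
    have e : ∑ i, algebraMap K L (κ i) * algebraMap L0 L (y i) =
        ∑ i : Fin m, algebraMap K L (κ i.succ) * algebraMap L0 L (y i.succ) := by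
      rw [Fin.sum_univ_succ, h0, map_zero, zero_mul, zero_add]
    have h2 := hmin m ⟨fun i => κ i.succ, fun i => y i.succ, by rw [← e]; exact hq0, by rw [← e]; exact hpR⟩
    omega
  have hκ0' : algebraMap K L (κ 0) ≠ 0 := (map_ne_zero _).2 hκ0
  -- normalised coefficients
  set μ : Fin (m + 1) → K := fun i => (κ 0)⁻¹ * κ i with hμ
  set q : L := ∑ i, algebraMap K L (μ i) * algebraMap L0 L (y i) with hqdef
  have hq : q = algebraMap K L (κ 0)⁻¹ * ∑ i, algebraMap K L (κ i) * algebraMap L0 L (y i) := by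
    rw [hqdef, Finset.mul_sum]
    refine Finset.sum_congr rfl fun i _ => ?_
    rw [hμ]
    simp only [map_mul]
    ring
  have hq1 : q ≠ 0 := by
    rw [hq, map_inv₀]
    exact mul_ne_zero (inv_ne_zero hκ0') hq0
  have haq : a * q ∈ RR K L0 L := by
    rw [hq]
    have e : a * (algebraMap K L (κ 0)⁻¹ * ∑ i, algebraMap K L (κ i) * algebraMap L0 L (y i)) =
        (κ 0)⁻¹ • (a * ∑ i, algebraMap K L (κ i) * algebraMap L0 L (y i)) := by
      rw [Algebra.smul_def]; ring
    rw [e]
    exact Submodule.smul_mem _ _ hpR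
  have hμ0 : μ 0 = 1 := by rw [hμ]; exact inv_mul_cancel₀ hκ0
  have hDRR : ∀ (δ : Derivation ℤ K K) (D : Derivation ℤ L L),
      (∀ c : K, D (algebraMap K L c) = algebraMap K L (δ c)) →
      (∀ h : L0, D (algebraMap L0 L h) = 0) → ∀ p ∈ RR K L0 L, D p ∈ RR K L0 L := by
    intro δ D hD1 hD2 p hp
    obtain ⟨n, κ, h, rfl⟩ := rep_aux hp
    rw [map_sum]
    refine Submodule.sum_mem _ fun i _ => ?_
    rw [D.leibniz, hD2, hD1, smul_zero, zero_add, smul_eq_mul, mul_comm, ← Algebra.smul_def]
    exact Submodule.smul_mem _ _ (Submodule.subset_span ⟨_, rfl⟩)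
  have hDq : ∀ (δ : Derivation ℤ K K) (D : Derivation ℤ L L),
      (∀ a : k, δ (algebraMap k K a) = 0) → (∀ c : K, D (algebraMap K L c) = algebraMap K L (δ c)) →
      (∀ h : L0, D (algebraMap L0 L h) = 0) → D q = 0 := by
    intro δ D hδ hD1 hD2
    by_contra hne
    have e : D q = ∑ i : Fin m, algebraMap K L (δ (μ i.succ)) * algebraMap L0 L (y i.succ) := by
      rw [hqdef, map_sum, Fin.sum_univ_succ, hμ0, map_one, one_mul, hD2, zero_add]
      refine Finset.sum_congr rfl fun i _ => ?_
      rw [D.leibniz, hD2, hD1, smul_zero, zero_add, smul_eq_mul, mul_comm]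
    have h3 : a * D q ∈ RR K L0 L := by
      have h4 : a * D q = D (a * q) := by
        rw [D.leibniz, ha δ D hδ hD1 hD2, smul_zero, add_zero, smul_eq_mul]
      rw [h4]
      exact hDRR δ D hD1 hD2 _ haq
    have h2 := hmin m ⟨fun i => δ (μ i.succ), fun i => y i.succ, by rw [← e]; exact hne, by rw [← e]; exact h3⟩
    omega
  obtain ⟨q0, hq0'⟩ := g1_sum_mem (L := L) μ y (g1_coef hP hL0 μ y hy hDq)
  obtain ⟨N, ν, z, hν, hz, hsum⟩ := exists_rep k haq
  obtain ⟨p0, hp0⟩ := g1_sum_mem (L := L) ν z (g1_coef hP hL0 ν z hz (by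
    intro δ D hδ hD1 hD2
    rw [← hsum, D.leibniz, ha δ D hδ hD1 hD2, hDq δ D hδ hD1 hD2, smul_zero, smul_zero, add_zero]))
  refine ⟨p0 / q0, ?_⟩
  rw [map_div₀, hp0, ← hsum, hq0', mul_div_assoc, div_self hq1, mul_one]

/-- elements without poles are constants -/
theorem g1_const {E : Type*} [Field E] {k : Type*} [Field k] [IsAlgClosed k] [CharZero k] [Algebra k E]
    (hE : IsFun k E) {b : E} (hb : ∀ v ∈ VN k E, v b ≤ 1) : ∃ c : k, algebraMap k E c = b := by
  by_cases h0 : b = 0
  · exact ⟨0, by rw [h0, map_zero]⟩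
  by_cases halg : IsAlgebraic k b⁻¹
  · obtain ⟨c, hc⟩ := g1_mem_range halg
    exact ⟨c⁻¹, by rw [map_inv₀, hc, inv_inv]⟩
  · have hfin := hE.alg halg
    obtain ⟨v, hv, hlt⟩ := exists_zero (N := k) b⁻¹ halg
    have h1 := hb v hv
    have hvb : v b ≠ 0 := (Valuation.ne_zero_iff v).2 h0
    rw [map_inv₀] at hlt
    have h2 : 1 < v b := (inv_lt_one₀ (zero_lt_iff.2 hvb)).1 hlt
    exact absurd h1 (not_le.2 h2)

/-- de Franchis: `M ⊂ K (L0)` of genus at least two is contained in `K` or in `L0` -/
theorem deFranchis {M : Type*} [Field M] [Algebra k M] (hP : IsProd k K L0 L) (hL0 : IsFun k L0)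
    (hM : IsFun k M) (h2 : TwoReg k M) (ρ : M →+* L) (hρ : ∀ c : k, ρ (algebraMap k M c) = algebraMap k L c) :
    (∀ m : M, ∃ c : K, algebraMap K L c = ρ m) ∨ (∀ m : M, ∃ h : L0, algebraMap L0 L h = ρ m) := by
  have hLc : CharZero L := charZero_of_injective_algebraMap (algebraMap k L).injective
  have hKc : CharZero K := charZero_of_injective_algebraMap (algebraMap k K).injective
  have hMc : CharZero M := charZero_of_injective_algebraMap (algebraMap k M).injective
  obtain ⟨x, d, h₁, h₂, hx, hd, hdx, hli, hr1, hr2⟩ := h2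
  have hfinx := hM.alg hx
  have hLfun : IsFun K L := by
    obtain ⟨y, hy, hfin⟩ := hL0
    exact ⟨algebraMap L0 L y, hP.trans hy, hP.fin hy⟩
  have hcomp : ∀ (D : Derivation ℤ L L), (∀ h : L0, D (algebraMap L0 L h) = 0) → ∀ m : M,
      D (ρ m) = D (ρ x) * ρ (d m) := by
    intro D hD2 m
    refine comp_der (k := k) inferInstance d hd hdx ρ D (fun c => ?_) m
    rw [hρ, IsScalarTower.algebraMap_apply k L0 L, hD2]
  by_cases hex : ∃ (δ : Derivation ℤ K K) (D : Derivation ℤ L L), (∀ a : k, δ (algebraMap k K a) = 0) ∧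
      (∀ c : K, D (algebraMap K L c) = algebraMap K L (δ c)) ∧ (∀ h : L0, D (algebraMap L0 L h) = 0) ∧
      D (ρ x) ≠ 0
  · left
    obtain ⟨δ, D, hδ, hD1, hD2, hne⟩ := hex
    have key : ∀ h : M, Reg k d h → ∃ c : K, algebraMap K L c = ρ h * D (ρ x) := by
      intro h hh
      refine g1_const hLfun fun v hv => ?_
      have hint : ∀ a, v a ≤ 1 → v (D a) ≤ 1 := fun a ha =>
        der_int hP hL0 D (fun c => ⟨δ c, hD1 c⟩) hD2 hv ha
      by_cases htriv : ∀ m : M, m ≠ 0 → v (ρ m) = 1
      · have h1 : ∀ a : M, v (ρ a) ≤ 1 := by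
          intro a
          by_cases ha : a = 0
          · rw [ha, map_zero, map_zero]; exact zero_le_one
          · rw [htriv a ha]
        rw [map_mul]
        exact mul_le_one' (h1 _) (hint _ (h1 _))
      · push Not at htriv
        obtain ⟨a0, ha0, ha1⟩ := htriv
        obtain ⟨w, hws, hw1⟩ := exists_norm (v.comap ρ) ⟨a0, ha0, ha1⟩
        have hw : w ∈ VN k M := by
          refine ⟨hws, fun c hc => (hw1 _).2 ?_⟩
          show v (ρ (algebraMap k M c)) = 1
          rw [hρ, IsScalarTower.algebraMap_apply k K L]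
          exact hv.2 _ ((map_ne_zero _).2 hc)
        obtain ⟨τ, hτ⟩ := hws (WithZero.exp (-1 : ℤ))
        have hτ1 : v (ρ τ) ≤ 1 := by
          refine le_of_same (v := w) (w := v.comap ρ) (fun a => (hw1 a).symm) ?_
          rw [hτ, ← WithZero.exp_zero, WithZero.exp_le_exp]
          norm_num
        have hτt := unif_trans hw hτ
        have hfin := hM.alg hτt
        have hdτ : d τ ≠ 0 := der_ne (k := k) d hd hdx inferInstance
        have hρd : ρ (d τ) ≠ 0 := (map_ne_zero _).2 hdτ
        have hκ1 : w (h / d τ) ≤ 1 := by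
          have h3 := hh w hw τ hτ
          rw [map_div₀]
          exact (div_le_one₀ (zero_lt_iff.2 ((Valuation.ne_zero_iff w).2 hdτ))).2 h3
        have hκ2 : v (ρ (h / d τ)) ≤ 1 := le_of_same (v := w) (w := v.comap ρ) (fun a => (hw1 a).symm) hκ1
        have h3 : ρ h * D (ρ x) = ρ (h / d τ) * D (ρ τ) := by
          rw [hcomp D hD2 τ, map_div₀]
          field_simp
        rw [h3, map_mul]
        exact mul_le_one' hκ2 (hint _ hτ1)
    obtain ⟨c1, hc1⟩ := key h₁ hr1
    obtain ⟨c2, hc2⟩ := key h₂ hr2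
    have hh2 : h₂ ≠ 0 := by
      have := hli.ne_zero 1
      simpa using this
    have hρ2 : ρ h₂ ≠ 0 := (map_ne_zero _).2 hh2
    have hc : algebraMap K L (c1 / c2) = ρ (h₁ / h₂) := by
      rw [map_div₀, hc1, hc2, map_div₀]
      field_simp
    have htr : Transcendental k (h₁ / h₂) := by
      intro halg
      obtain ⟨c, hcc⟩ := g1_mem_range halg
      rw [eq_div_iff hh2] at hcc
      have h5 := LinearIndependent.pair_iff.1 hli 1 (-c) (by
        rw [one_smul, neg_smul, Algebra.smul_def, hcc, add_neg_cancel])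
      exact one_ne_zero h5.1
    have hfin := hM.alg htr
    intro m
    have halg : IsAlgebraic K (ρ m) := by
      have h6 : IsAlgebraic k⟮(h₁ / h₂)⟯ m := Algebra.IsAlgebraic.isAlgebraic m
      obtain ⟨p, hp0, hp⟩ := h6
      have hmem : ∀ a : M, a ∈ k⟮(h₁ / h₂)⟯ → ∃ c : K, algebraMap K L c = ρ a := by
        intro a ha
        induction ha using IntermediateField.adjoin_induction with
        | mem x hx => rw [Set.mem_singleton_iff.1 hx]; exact ⟨_, hc⟩
        | algebraMap x =>
          exact ⟨algebraMap k K x, by rw [hρ, ← IsScalarTower.algebraMap_apply]⟩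
        | add x y _ _ hx hy =>
          obtain ⟨a, ha⟩ := hx
          obtain ⟨b, hb⟩ := hy
          exact ⟨a + b, by rw [map_add, map_add, ha, hb]⟩
        | mul x y _ _ hx hy =>
          obtain ⟨a, ha⟩ := hx
          obtain ⟨b, hb⟩ := hy
          exact ⟨a * b, by rw [map_mul, map_mul, ha, hb]⟩
        | inv x _ h =>
          obtain ⟨a, ha⟩ := h
          exact ⟨a⁻¹, by rw [map_inv₀, map_inv₀, ha]⟩
      choose f hf using fun a : k⟮(h₁ / h₂)⟯ => hmem a a.2
      have hinj := (algebraMap K L).injective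
      let ι : k⟮(h₁ / h₂)⟯ →+* K :=
        { toFun := f
          map_one' := hinj (by rw [hf, map_one]; simp)
          map_mul' := fun a b => hinj (by rw [hf, map_mul, hf, hf]; simp)
          map_zero' := hinj (by rw [hf, map_zero]; simp)
          map_add' := fun a b => hinj (by rw [hf, map_add, hf, hf]; simp) }
      refine ⟨p.map ι, (Polynomial.map_ne_zero_iff ι.injective).2 hp0, ?_⟩
      have h7 : (algebraMap K L).comp ι = ρ.comp (algebraMap k⟮(h₁ / h₂)⟯ M) := by
        ext a
        exact hf a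
      rw [Polynomial.aeval_def, Polynomial.eval₂_map, h7, ← Polynomial.hom_eval₂, ← Polynomial.aeval_def, hp,
        map_zero]
    exact g1_mem_range halg
  · right
    push Not at hex
    intro m
    refine const_L0 hP (ρ m) (fun δ D hδ hD1 hD2 => ?_) hL0
    rw [hcomp D hD2 m, hex δ D hδ hD1 hD2, zero_mul]

end

end Pool.Agent.Helper79.RG
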