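import Pool.Agent.Helper79.RG.PL
import Pool.Agent.Helper79.RG.DS
import Pool.Agent.Helper79.BT.Alg

set_option autoImplicit false

/-!
# Module IL: elements of `K_2` defined over two independent subfields are constant
-/

set_option linter.unusedSectionVars false

universe u

namespace Pool.Agent.Helper79.RG

open scoped WithZero IntermediateField.algebraAdjoinAdjoin
open IntermediateField IsDedekindDomain
open Pool.Agent.Helper79.FE
open Pool.Agent.TH826.MK (KQ symb unitPart)
open Pool.Agent.Helper537_Sym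

section spec

variable {K E : Type*} [Field K] [Field E] [Algebra K E] {v : Valuation E ℤᵐ⁰} {π : E}

theorem il_val (hv : v ∈ VN K E) {a : E} {c : Kˣ} (h : v (a - algebraMap K E c) < 1) : v a = 1 := by
  have h1 : a = algebraMap K E c + (a - algebraMap K E c) := by ring
  have h2 := hv.2 (c : K) c.ne_zero
  rw [h1, Valuation.map_add_eq_of_lt_left v (by rw [h2]; exact h), h2]

theorem il_ord (hπ : v π = WithZero.exp (-1 : ℤ)) (hv : v ∈ VN K E) {a : E} {m : ℤ} {c : Kˣ}
    (h : v (a * π ^ (-m) - algebraMap K E c) < 1) : v a = WithZero.exp (-m) := by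
  have h1 := il_val hv h
  rw [map_mul, map_zpow₀, hπ, ← WithZero.exp_zsmul] at h1
  have h2 : v a * WithZero.exp m = 1 := by
    rw [← h1]
    congr 2
    simp
  have h3 : (WithZero.exp m : ℤᵐ⁰) * WithZero.exp (-m) = 1 := by
    rw [← WithZero.exp_add, add_neg_cancel, WithZero.exp_zero]
  calc v a = v a * (WithZero.exp m * WithZero.exp (-m)) := by rw [h3, mul_one]
    _ = (v a * WithZero.exp m) * WithZero.exp (-m) := by rw [mul_assoc]
    _ = _ := by rw [h2, one_mul]

theorem il_uniq (hπ : v π = WithZero.exp (-1 : ℤ)) (hv : v ∈ VN K E) {a : E} {m m' : ℤ} {c c' : Kˣ}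
    (h : v (a * π ^ (-m) - algebraMap K E c) < 1) (h' : v (a * π ^ (-m') - algebraMap K E c') < 1) :
    m = m' ∧ c = c' := by
  have h1 := il_ord hπ hv h
  rw [il_ord hπ hv h', WithZero.exp_inj] at h1
  have hm : m = m' := by omega
  subst hm
  refine ⟨rfl, ?_⟩
  by_contra hne
  have h2 : (c : K) - c' ≠ 0 := fun h0 => hne (Units.ext (sub_eq_zero.1 h0))
  have h3 := hv.2 _ h2
  have h4 : algebraMap K E ((c : K) - c') = (a * π ^ (-m) - algebraMap K E c') - (a * π ^ (-m) - algebraMap K E c) := by
    rw [map_sub]; ring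
  rw [h4] at h3
  exact absurd h3 (ne_of_lt (Valuation.map_sub_lt v h' h))

theorem il_mul (hπ : v π = WithZero.exp (-1 : ℤ)) (hv : v ∈ VN K E) {a b : E} {m n : ℤ} {c d : Kˣ}
    (h : v (a * π ^ (-m) - algebraMap K E c) < 1) (h' : v (b * π ^ (-n) - algebraMap K E d) < 1) :
    v (a * b * π ^ (-(m + n)) - algebraMap K E (c * d : Kˣ)) < 1 := by
  have hπ0 : π ≠ 0 := by
    rintro rfl
    rw [map_zero] at hπ
    exact WithZero.exp_ne_zero hπ.symm
  have h1 : a * b * π ^ (-(m + n)) - algebraMap K E (c * d : Kˣ) = (a * π ^ (-m) - algebraMap K E c) * (b * π ^ (-n)) +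
      algebraMap K E c * (b * π ^ (-n) - algebraMap K E d) := by
    rw [Units.val_mul, map_mul, neg_add, zpow_add₀ hπ0]
    ring
  rw [h1]
  refine Valuation.map_add_lt v ?_ ?_
  · rw [map_mul, il_val hv h', mul_one]; exact h
  · rw [map_mul, hv.2 _ c.ne_zero, one_mul]; exact h'

/-- the specialization map of `K_2` at a place with residue field `K` -/
theorem exists_spec {K E : Type*} [Field K] [Field E] [Algebra K E] (v : Valuation E ℤᵐ⁰) (hv : v ∈ VN K E)
    (hres : ∀ a : E, v a ≤ 1 → ∃ c : K, v (a - algebraMap K E c) < 1) (π : E) (hπ : v π = WithZero.exp (-1 : ℤ)) :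
    ∃ s : KQ E 2 →ₗ[ℚ] KQ K 2, (∀ y : KQ K 2, s (KQ.map 2 (algebraMap K E) y) = y) ∧
      ∀ (a b : Eˣ) (m n : ℤ) (c d : Kˣ), v ((a : E) * π ^ (-m) - algebraMap K E c) < 1 →
        v ((b : E) * π ^ (-n) - algebraMap K E d) < 1 → s (sy a b) = sy c d := by
  classical
  have hπ0 : π ≠ 0 := by
    rintro rfl
    rw [map_zero] at hπ
    exact WithZero.exp_ne_zero hπ.symm
  have hex : ∀ a : Eˣ, ∃ (m : ℤ) (c : Kˣ), v ((a : E) * π ^ (-m) - algebraMap K E c) < 1 := by
    intro a
    have ha : v (a : E) ≠ 0 := (Valuation.ne_zero_iff v).2 a.ne_zero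
    have h1 : v ((a : E) * π ^ (-(-(WithZero.log (v (a : E)))))) = 1 := by
      rw [map_mul, map_zpow₀, hπ, ← WithZero.exp_zsmul, neg_neg]
      conv_lhs => rw [← WithZero.exp_log ha]
      rw [← WithZero.exp_add, ← WithZero.exp_zero]
      congr 1
      simp
    obtain ⟨c, hc⟩ := hres _ h1.le
    have hc0 : c ≠ 0 := by
      rintro rfl
      rw [map_zero, sub_zero, h1] at hc
      exact lt_irrefl _ hc
    exact ⟨-(WithZero.log (v (a : E))), Units.mk0 c hc0, hc⟩
  choose M C hC using hex
  have hCu : ∀ (a : Eˣ) (m : ℤ) (c : Kˣ), v ((a : E) * π ^ (-m) - algebraMap K E c) < 1 → M a = m ∧ C a = c :=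
    fun a m c h => il_uniq hπ hv (hC a) h
  have hCm : ∀ a b : Eˣ, C (a * b) = C a * C b := fun a b => (hCu (a * b) (M a + M b) (C a * C b) (by
    rw [Units.val_mul]
    exact il_mul hπ hv (hC a) (hC b))).2
  have h1 : ∀ (a : Fin 2 → Eˣ) (i : Fin 2) (x y : Eˣ),
      (fun a : Fin 2 → Eˣ => sy (C (a 0)) (C (a 1))) (Function.update a i (x * y)) =
      (fun a : Fin 2 → Eˣ => sy (C (a 0)) (C (a 1))) (Function.update a i x) +
      (fun a : Fin 2 → Eˣ => sy (C (a 0)) (C (a 1))) (Function.update a i y) := by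
    intro a i x y
    fin_cases i
    · simp only [Fin.zero_eta, Function.update_self, ne_eq, one_ne_zero, not_false_eq_true, Function.update_of_ne]
      rw [hCm, sy_mul_left]
    · simp only [Fin.mk_one, Function.update_self, ne_eq, zero_ne_one, not_false_eq_true, Function.update_of_ne]
      rw [hCm, sy_mul_right]
  have h2 : ∀ a : Fin 2 → Eˣ, (∃ i j, i < j ∧ (a i : E) + (a j : E) = 1) →
      (fun a : Fin 2 → Eˣ => sy (C (a 0)) (C (a 1))) a = 0 := by
    rintro a ⟨i, j, hij, h⟩
    have hi : i = 0 := by omega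
    have hj : j = 1 := by omega
    subst hi hj
    show sy (C (a 0)) (C (a 1)) = 0
    generalize ha0 : a 0 = x at h ⊢
    generalize ha1 : a 1 = y at h ⊢
    have hx := il_ord hπ hv (hC x)
    have hy := il_ord hπ hv (hC y)
    rcases lt_or_ge 0 (M x) with hm | hm
    · have h3 : v ((y : E) * π ^ (-(0 : ℤ)) - algebraMap K E (1 : Kˣ)) < 1 := by
        have e : (y : E) * π ^ (-(0 : ℤ)) - algebraMap K E (1 : Kˣ) = -(x : E) := by
          rw [neg_zero, zpow_zero, mul_one, Units.val_one, map_one, ← h]; ring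
        rw [e, Valuation.map_neg, hx, ← WithZero.exp_zero, WithZero.exp_lt_exp]
        omega
      rw [(hCu y 0 1 h3).2, sy_one_right]
    rcases lt_or_ge 0 (M y) with hn | hn
    · have h3 : v ((x : E) * π ^ (-(0 : ℤ)) - algebraMap K E (1 : Kˣ)) < 1 := by
        have e : (x : E) * π ^ (-(0 : ℤ)) - algebraMap K E (1 : Kˣ) = -(y : E) := by
          rw [neg_zero, zpow_zero, mul_one, Units.val_one, map_one, ← h]; ring
        rw [e, Valuation.map_neg, hy, ← WithZero.exp_zero, WithZero.exp_lt_exp]
        omega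
      rw [(hCu x 0 1 h3).2, sy_one_left]
    rcases eq_or_lt_of_le hm with hm0 | hm0
    · -- both are units
      have hy1 : v (y : E) ≤ 1 := by
        have e : (y : E) = 1 - x := by rw [← h]; ring
        rw [e]
        refine (Valuation.map_sub v _ _).trans (max_le (by rw [map_one]) ?_)
        rw [hx, hm0, neg_zero, WithZero.exp_zero]
      have hn0 : M y = 0 := by
        rw [hy, ← WithZero.exp_zero, WithZero.exp_le_exp] at hy1
        omega
      have hcx := hC x
      have hcy := hC y
      rw [hm0, neg_zero, zpow_zero, mul_one] at hcx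
      rw [hn0, neg_zero, zpow_zero, mul_one] at hcy
      apply sy_steinberg
      by_contra hne
      have h3 : ((C x : K) + C y - 1) ≠ 0 := fun h0 => hne (sub_eq_zero.1 h0)
      have h4 := hv.2 _ h3
      have h5 : algebraMap K E ((C x : K) + C y - 1) = -((x : E) - algebraMap K E (C x)) -
          ((y : E) - algebraMap K E (C y)) := by
        rw [map_sub, map_add, map_one, ← h]; ring
      rw [h5] at h4
      refine absurd h4 (ne_of_lt (Valuation.map_sub_lt v ?_ hcy))
      rw [Valuation.map_neg]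
      exact hcx
    · have h3 : v ((y : E) * π ^ (-(M x)) - algebraMap K E (-C x : Kˣ)) < 1 := by
        have e : (y : E) * π ^ (-(M x)) - algebraMap K E (-C x : Kˣ) = π ^ (-(M x)) -
            ((x : E) * π ^ (-(M x)) - algebraMap K E (C x)) := by
          have e1 : (y : E) = 1 - x := by rw [← h]; ring
          rw [Units.val_neg, map_neg, e1]; ring
        rw [e]
        refine Valuation.map_sub_lt v ?_ (hC x)
        rw [map_zpow₀, hπ, ← WithZero.exp_zsmul, ← WithZero.exp_zero, WithZero.exp_lt_exp]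
        simp only [smul_eq_mul]
        omega
      rw [(hCu y (M x) (-C x) h3).2, sy_neg_right, sy_self]
  have hs : ∀ (a b : Eˣ) (m n : ℤ) (c d : Kˣ), v ((a : E) * π ^ (-m) - algebraMap K E c) < 1 →
        v ((b : E) * π ^ (-n) - algebraMap K E d) < 1 →
        KQ.lift (fun a : Fin 2 → Eˣ => sy (C (a 0)) (C (a 1))) h1 h2 (sy a b) = sy c d := by
    intro a b m n c d hc hd
    have h := KQ.lift_symb (fun a : Fin 2 → Eˣ => sy (C (a 0)) (C (a 1))) h1 h2 ![a, b]
    refine h.trans ?_
    show sy (C a) (C b) = sy c d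
    rw [(hCu a m c hc).2, (hCu b n d hd).2]
  refine ⟨KQ.lift (fun a : Fin 2 → Eˣ => sy (C (a 0)) (C (a 1))) h1 h2, fun y => ?_, hs⟩
  have hy := sy_span y
  induction hy using Submodule.span_induction with
  | mem x hx =>
    obtain ⟨p, rfl⟩ := hx
    show _ = sy p.1 p.2
    rw [map_sy']
    have hc : ∀ c : Kˣ, v (((Units.map ((algebraMap K E : K →+* E) : K →* E) c : Eˣ) : E) * π ^ (-(0 : ℤ)) -
        algebraMap K E c) < 1 := by
      intro c
      rw [neg_zero, zpow_zero, mul_one]
      have : ((Units.map ((algebraMap K E : K →+* E) : K →* E) c : Eˣ) : E) = algebraMap K E c := rfl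
      rw [this, sub_self, map_zero]
      exact zero_lt_one
    exact hs _ _ 0 0 _ _ (hc _) (hc _)
  | zero => rw [map_zero, map_zero]
  | add x y _ _ hx hy => rw [map_add, map_add, hx, hy]
  | smul c x _ hx => rw [map_smul, map_smul, hx]

end spec

section core

variable {k K C E : Type*} [Field k] [IsAlgClosed k] [CharZero k] [Field K] [Field C] [Field E] [Algebra k K]
  [Algebra k C] [Algebra k E] [Algebra K E] [Algebra C E] [IsScalarTower k K E] [IsScalarTower k C E]

/-- residues of powers of the uniformizer times elements of a function field over an algebraically closed field -/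
theorem il_lead (hC : IsFun k C) {w : Valuation C ℤᵐ⁰} (hw : w ∈ VN k C) {z : C} (hz : w z = WithZero.exp (-1 : ℤ))
    (a : Cˣ) : ∃ (m : ℤ) (c : kˣ), w ((a : C) * z ^ (-m) - algebraMap k C c) < 1 := by
  have ha : w (a : C) ≠ 0 := (Valuation.ne_zero_iff w).2 a.ne_zero
  have h1 : w ((a : C) * z ^ (-(-(WithZero.log (w (a : C)))))) = 1 := by
    rw [map_mul, map_zpow₀, hz, ← WithZero.exp_zsmul, neg_neg]
    conv_lhs => rw [← WithZero.exp_log ha]
    rw [← WithZero.exp_add, ← WithZero.exp_zero]
    congr 1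
    simp
  obtain ⟨c, hc⟩ := exists_res hC hw h1.le
  have hc0 : c ≠ 0 := by
    rintro rfl
    rw [map_zero, sub_zero, h1] at hc
    exact lt_irrefl _ hc
  exact ⟨-(WithZero.log (w (a : C))), Units.mk0 c hc0, hc⟩

/-- an element of `K_2` of the compositum of the independent fields `K` and `C` which comes from both is constant -/
theorem il_core (hP : IsProd k K C E) (hC : IsFun k C) (η1 : KQ C 2) (η' : KQ K 2)
    (h : KQ.map 2 (algebraMap C E) η1 = KQ.map 2 (algebraMap K E) η') :
    ∃ y : KQ k 2, KQ.map 2 (algebraMap k K) y = η' := by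
  obtain ⟨w, hw⟩ : ∃ w : Valuation C ℤᵐ⁰, w ∈ VN k C := by
    obtain ⟨x, hx, hfin⟩ := id hC
    obtain ⟨w, hw, -⟩ := exists_zero (N := k) x hx
    exact ⟨w, hw⟩
  obtain ⟨z, hz⟩ := hw.1 (WithZero.exp (-1 : ℤ))
  obtain ⟨v, hv, hvw⟩ := exists_gauss (K := K) hP hC hw
  obtain ⟨s, hs1, hs2⟩ := exists_spec v hv (fun a ha => res_gauss hP hC hw hv hvw ha) (algebraMap C E z)
    (by rw [hvw]; exact hz)
  have key : ∀ x : KQ C 2, ∃ y : KQ k 2, KQ.map 2 (algebraMap k K) y = s (KQ.map 2 (algebraMap C E) x) := by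
    intro x
    have hx := sy_span x
    induction hx using Submodule.span_induction with
    | mem x hx =>
      obtain ⟨p, rfl⟩ := hx
      obtain ⟨m, c, hc⟩ := il_lead hC hw hz p.1
      obtain ⟨n, d, hd⟩ := il_lead hC hw hz p.2
      refine ⟨sy c d, ?_⟩
      show _ = s (KQ.map 2 (algebraMap C E) (sy p.1 p.2))
      rw [map_sy', map_sy']
      have hcc : ∀ (a : Cˣ) (m : ℤ) (c : kˣ), w ((a : C) * z ^ (-m) - algebraMap k C c) < 1 →
          v (((Units.map ((algebraMap C E : C →+* E) : C →* E) a : Eˣ) : E) * (algebraMap C E z) ^ (-m) -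
          algebraMap K E (Units.map ((algebraMap k K : k →+* K) : k →* K) c : Kˣ)) < 1 := by
        intro a m c hc
        have e : ((Units.map ((algebraMap C E : C →+* E) : C →* E) a : Eˣ) : E) * (algebraMap C E z) ^ (-m) -
          algebraMap K E (Units.map ((algebraMap k K : k →+* K) : k →* K) c : Kˣ) =
          algebraMap C E ((a : C) * z ^ (-m) - algebraMap k C c) := by
          rw [map_sub, map_mul, map_zpow₀, ← IsScalarTower.algebraMap_apply k C E]
          show _ - algebraMap K E (algebraMap k K c) = _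
          rw [← IsScalarTower.algebraMap_apply k K E]
          rfl
        rw [e, hvw]
        exact hc
      exact (hs2 _ _ m n _ _ (hcc _ _ _ hc) (hcc _ _ _ hd)).symm
    | zero => exact ⟨0, by rw [map_zero, map_zero, map_zero]⟩
    | add x y _ _ hx hy =>
      obtain ⟨x', hx'⟩ := hx
      obtain ⟨y', hy'⟩ := hy
      exact ⟨x' + y', by rw [map_add, map_add, map_add, hx', hy']⟩
    | smul c x _ hx =>
      obtain ⟨x', hx'⟩ := hx
      exact ⟨c • x', by rw [map_smul, map_smul, map_smul, hx']⟩
  obtain ⟨y, hy⟩ := key η1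
  exact ⟨y, by rw [hy, h, hs1]⟩

end core

/-- the intersection lemma -/
theorem inter {k K M Ω : Type u} [Field k] [IsAlgClosed k] [CharZero k] [Field K] [IsAlgClosed K] [CharZero K]
    [Field M] [Field Ω] [Algebra k K] [Algebra k M] [Algebra k Ω] [Algebra K Ω] [Algebra M Ω]
    [IsScalarTower k K Ω] [IsScalarTower k M Ω] (t : M) (ht : Transcendental K (algebraMap M Ω t))
    (hM : Algebra.IsAlgebraic k⟮t⟯ M) (hΩ : Algebra.IsAlgebraic K⟮algebraMap M Ω t⟯ Ω) (η : KQ M 2) (η' : KQ K 2)
    (h : KQ.map 2 (algebraMap M Ω) η = KQ.map 2 (algebraMap K Ω) η') :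
    ∃ y : KQ k 2, KQ.map 2 (algebraMap k Ω) y = KQ.map 2 (algebraMap M Ω) η := by
  classical
  have hΩc : CharZero Ω := charZero_of_injective_algebraMap (algebraMap k Ω).injective
  have htk : Transcendental k t := by
    intro h0
    exact ht ((h0.algebraMap (A := Ω)).tower_top K)
  obtain ⟨s, hs⟩ := kq_fin (K := k) η
  set T : Finset M := insert t s with hT
  let C := IntermediateField.adjoin k (T : Set M)
  obtain ⟨η1, hη1⟩ := hs C fun x hx => IntermediateField.subset_adjoin k _ (by simp [hT, hx])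
  have htT : t ∈ (T : Set M) := by simp [hT]
  have hCf : IsFun k C := ⟨_, isFun_adjoin htk hM (T : Set M) T.finite_toSet htT⟩
  -- the big field
  set T' : Set Ω := algebraMap M Ω '' (T : Set M) with hT'
  have htT' : algebraMap M Ω t ∈ T' := ⟨t, htT, rfl⟩
  let L := IntermediateField.adjoin K T'
  have hLf : IsFun K L := ⟨_, isFun_adjoin ht hΩ T' (T.finite_toSet.image _) htT'⟩
  have hCL : ∀ x : M, x ∈ C → algebraMap M Ω x ∈ L := by
    intro x hx
    induction hx using IntermediateField.adjoin_induction with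
    | mem y hy => exact IntermediateField.subset_adjoin _ _ ⟨y, hy, rfl⟩
    | algebraMap y =>
      rw [← IsScalarTower.algebraMap_apply k M Ω, IsScalarTower.algebraMap_apply k K Ω]
      exact IntermediateField.algebraMap_mem _ _
    | add a b _ _ hx hy => rw [map_add]; exact add_mem hx hy
    | mul a b _ _ hx hy => rw [map_mul]; exact mul_mem hx hy
    | inv a _ hx => rw [map_inv₀]; exact inv_mem hx
  let i0 : C →+* L := ((algebraMap M Ω).comp (algebraMap C M)).codRestrict L.toSubring.toSubsemiring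
    (fun h => hCL _ h.2)
  let aC : Algebra C L := i0.toAlgebra
  let akL : Algebra k L := ((algebraMap K L).comp (algebraMap k K)).toAlgebra
  have t1 : IsScalarTower k K L := IsScalarTower.of_algebraMap_eq' rfl
  have t2 : IsScalarTower k C L := IsScalarTower.of_algebraMap_eq fun c => by
    apply (algebraMap L Ω).injective
    show algebraMap K Ω (algebraMap k K c) = algebraMap M Ω (algebraMap k M c)
    rw [← IsScalarTower.algebraMap_apply, ← IsScalarTower.algebraMap_apply]
  have hF : Transcendental K (algebraMap C L (⟨t, IntermediateField.subset_adjoin k _ htT⟩ : C)) := by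
    intro h0
    apply ht
    exact h0.algebraMap (A := Ω)
  obtain ⟨E, _, _, _, _, _, _, _, _, _, _, hP, hE⟩ := exists_big hLf hCf _ hF
  have hEL : FiniteDimensional E L := fin_tower hE hLf
  have hLΩ : Algebra.IsAlgebraic L Ω := by
    constructor
    intro x
    have h1 := hΩ.isAlgebraic x
    have hle : K⟮algebraMap M Ω t⟯ ≤ L := by
      rw [IntermediateField.adjoin_simple_le_iff]
      exact IntermediateField.subset_adjoin _ _ htT'
    exact alg_transfer (IntermediateField.inclusion hle).toRingHom (RingHom.id Ω) (fun a => rfl) h1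
  -- the equality over `E`
  have e1 : KQ.map 2 (algebraMap C L) η1 = KQ.map 2 (algebraMap K L) η' := by
    rw [← sub_eq_zero]
    refine Pool.Agent.Helper79.BT.inj_alg (F := L) (F' := Ω) _ ?_
    rw [map_sub, kmap_map (algebraMap C L) (algebraMap L Ω) ((algebraMap M Ω).comp (algebraMap C M)) (fun x => rfl),
      kmap_map (algebraMap K L) (algebraMap L Ω) (algebraMap K Ω) (fun x => rfl), ← h, ← hη1,
      kmap_map (algebraMap C M) (algebraMap M Ω) ((algebraMap M Ω).comp (algebraMap C M)) (fun x => rfl), sub_self]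
  have e2 : KQ.map 2 (algebraMap C E) η1 = KQ.map 2 (algebraMap K E) η' := by
    rw [← sub_eq_zero]
    refine Pool.Agent.Helper79.BT.inj_alg (F := E) (F' := L) _ ?_
    rw [map_sub, kmap_map (algebraMap C E) (algebraMap E L) (algebraMap C L)
        (fun x => (IsScalarTower.algebraMap_apply C E L x).symm),
      kmap_map (algebraMap K E) (algebraMap E L) (algebraMap K L)
        (fun x => (IsScalarTower.algebraMap_apply K E L x).symm), e1, sub_self]
  obtain ⟨y, hy⟩ := il_core hP hCf η1 η' e2
  refine ⟨y, ?_⟩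
  rw [h, ← hy, kmap_map (algebraMap k K) (algebraMap K Ω) (algebraMap k Ω)
    (fun x => (IsScalarTower.algebraMap_apply k K Ω x).symm)]

end Pool.Agent.Helper79.RG
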