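import Pool.Agent.Helper79.RG.M9

set_option autoImplicit false

/-!
# Tame symbols of finite order and the unit part
-/

namespace Pool.Agent.Helper79.RG

open scoped WithZero
open Pool.Agent.Helper79.FE
open Pool.Agent.TH826.MK (KQ symb unitPart)
open Pool.Agent.Helper537_Sym

variable {L : Type*} [Field L]

/-- the tame symbol of `{f, g}` at `v` is a root of unity of order dividing `N` in the residue field -/
def TameTors (v : Valuation L ℤᵐ⁰) (N : ℕ) (f g : L) : Prop :=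
  v (((-1) ^ (WithZero.log (v f) * WithZero.log (v g)) * f ^ WithZero.log (v g) / g ^ WithZero.log (v f)) ^ N - 1) < 1

/-- quotients of elements of the span of `e` -/
def Quo (k : Type*) {L0 : Type*} [Field k] [Field L0] [Algebra k L0] {m : ℕ} (e : Fin m → L0) (f : L0) : Prop :=
  ∃ a b : L0, a ∈ Submodule.span k (Set.range e) ∧ b ∈ Submodule.span k (Set.range e) ∧ b ≠ 0 ∧ f = a / b

theorem sy_unit (v : Valuation L ℤᵐ⁰) {u w : Lˣ} (hu : v (u : L) = 1) (hw : v (w : L) = 1) : sy u w ∈ unitPart v 2 := by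
  refine Submodule.subset_span ⟨![u, w], fun i => ?_, rfl⟩
  fin_cases i
  · exact hu
  · exact hw

/-- `{T, 1 + m}` is in the unit part -/
theorem sy_one_add (v : Valuation L ℤᵐ⁰) (T d : Lˣ) (hT : v (T : L) = WithZero.exp (-1 : ℤ))
    (hd : v ((d : L) - 1) < 1) : sy T d ∈ unitPart v 2 := by
  by_cases h1 : (d : L) - 1 = 0
  · have : d = 1 := Units.ext (sub_eq_zero.1 h1)
    rw [this, sy_one_right]
    exact zero_mem _
  have hdv : v (d : L) = 1 := by
    have : (d : L) = 1 + (d - 1) := by ring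
    rw [this, Valuation.map_add_eq_of_lt_left v (by rw [map_one]; exact hd), map_one]
  have hm0 : v ((d : L) - 1) ≠ 0 := (Valuation.ne_zero_iff v).2 h1
  obtain ⟨r, hr⟩ : ∃ r : ℤ, v ((d : L) - 1) = WithZero.exp r := ⟨_, (WithZero.exp_log hm0).symm⟩
  have hr0 : r < 0 := by rwa [hr, ← WithZero.exp_zero, WithZero.exp_lt_exp] at hd
  let m : Lˣ := Units.mk0 _ h1
  let w : Lˣ := T ^ r * m
  have hw : v (w : L) = 1 := by
    show v (((T ^ r * m : Lˣ) : L)) = 1
    rw [Units.val_mul, map_mul, Units.val_zpow_eq_zpow_val, map_zpow₀, hT, ← WithZero.exp_zsmul]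
    show WithZero.exp (r • (-1 : ℤ)) * v ((d : L) - 1) = 1
    rw [hr, ← WithZero.exp_add, smul_eq_mul, show r * -1 + r = 0 by ring, WithZero.exp_zero]
  have h2 : sy (-m) d = 0 := sy_steinberg (by
    rw [Units.val_neg]
    show -((d : L) - 1) + d = 1
    ring)
  have h3 : m = T ^ (-r) * w := by
    show m = T ^ (-r) * (T ^ r * m)
    rw [← mul_assoc, ← zpow_add, neg_add_cancel, zpow_zero, one_mul]
  rw [sy_neg_left, h3, sy_mul_left, sy_zpow_left] at h2
  have h4 : ((-r : ℤ) : ℚ) • sy T d ∈ unitPart v 2 := by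
    rw [eq_neg_of_add_eq_zero_left h2]
    exact neg_mem (sy_unit v hw hdv)
  have h5 : ((-r : ℤ) : ℚ) ≠ 0 := by
    rw [Int.cast_ne_zero]
    omega
  have h6 := Submodule.smul_mem _ (((-r : ℤ) : ℚ))⁻¹ h4
  rwa [smul_smul, inv_mul_cancel₀ h5, one_smul] at h6

/-- tame symbol of finite order implies unit part -/
theorem tame_unit (v : Valuation L ℤᵐ⁰) (hv : Function.Surjective v) {N : ℕ} (hN : 0 < N) (f g : Lˣ)
    (h : TameTors v N (f : L) (g : L)) : sy f g ∈ unitPart v 2 := by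
  obtain ⟨t, ht⟩ := hv (WithZero.exp (-1 : ℤ))
  have ht0 : t ≠ 0 := by
    rintro rfl
    rw [map_zero] at ht
    exact WithZero.exp_ne_zero ht.symm
  let T : Lˣ := Units.mk0 t ht0
  have hT : v (T : L) = WithZero.exp (-1 : ℤ) := ht
  have key : ∀ f : Lˣ, ∃ (a : ℤ) (f1 : Lˣ), v (f1 : L) = 1 ∧ f = T ^ a * f1 ∧ WithZero.log (v (f : L)) = -a := by
    intro f
    have hf0 : v (f : L) ≠ 0 := (Valuation.ne_zero_iff v).2 f.ne_zero
    obtain ⟨r, hr⟩ : ∃ r : ℤ, v (f : L) = WithZero.exp r := ⟨_, (WithZero.exp_log hf0).symm⟩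
    refine ⟨-r, T ^ r * f, ?_, ?_, ?_⟩
    · rw [Units.val_mul, map_mul, Units.val_zpow_eq_zpow_val, map_zpow₀, hT, ← WithZero.exp_zsmul, hr,
        ← WithZero.exp_add, smul_eq_mul, show r * -1 + r = 0 by ring, WithZero.exp_zero]
    · rw [← mul_assoc, ← zpow_add, neg_add_cancel, zpow_zero, one_mul]
    · rw [hr, WithZero.log_exp, neg_neg]
  obtain ⟨a, f1, hf1, hf, hla⟩ := key f
  obtain ⟨b, g1, hg1, hg, hlb⟩ := key g
  unfold TameTors at h
  rw [hla, hlb] at h
  let c : Lˣ := g1 ^ a * f1⁻¹ ^ b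
  have hc : v (c : L) = 1 := by
    show v (((g1 ^ a * f1⁻¹ ^ b : Lˣ) : L)) = 1
    rw [Units.val_mul, Units.val_zpow_eq_zpow_val, Units.val_zpow_eq_zpow_val, map_mul, map_zpow₀, map_zpow₀, hg1,
      Units.val_inv_eq_inv_val, map_inv₀, hf1, inv_one, one_zpow, one_zpow, one_mul]
  have hx : (-1 : L) ^ (-a * -b) * (f : L) ^ (-b) / (g : L) ^ (-a) = (-1) ^ (a * b) * (c : L) := by
    have h1 : (c : L) = (g1 : L) ^ a * ((f1 : L)⁻¹) ^ b := by
      show ((g1 ^ a * f1⁻¹ ^ b : Lˣ) : L) = _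
      rw [Units.val_mul, Units.val_zpow_eq_zpow_val, Units.val_zpow_eq_zpow_val, Units.val_inv_eq_inv_val]
    rw [h1, hf, hg, Units.val_mul, Units.val_mul, Units.val_zpow_eq_zpow_val, Units.val_zpow_eq_zpow_val,
      neg_mul_neg]
    have hTL : (T : L) ≠ 0 := T.ne_zero
    have hf1L : (f1 : L) ≠ 0 := f1.ne_zero
    have hg1L : (g1 : L) ≠ 0 := g1.ne_zero
    rw [mul_zpow, mul_zpow, ← zpow_mul, ← zpow_mul, inv_zpow, zpow_neg (f1 : L), zpow_neg (g1 : L),
      show b * -a = a * -b by ring]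
    have h2 : (T : L) ^ (a * -b) ≠ 0 := zpow_ne_zero _ hTL
    have h3 : (g1 : L) ^ a ≠ 0 := zpow_ne_zero _ hg1L
    have h4 : (f1 : L) ^ b ≠ 0 := zpow_ne_zero _ hf1L
    field_simp
  rw [hx] at h
  -- the square
  have hsq : ((-1 : L) ^ (a * b) * (c : L)) ^ (2 * N) = (c : L) ^ (2 * N) := by
    rw [mul_pow, pow_mul ((-1 : L) ^ (a * b)) 2 N, ← zpow_natCast ((-1 : L) ^ (a * b)) 2, ← zpow_mul]
    rw [show a * b * ((2 : ℕ) : ℤ) = 2 * (a * b) by push_cast; ring, zpow_mul]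
    norm_num
  have hd : v (((c ^ (2 * N) : Lˣ) : L) - 1) < 1 := by
    rw [Units.val_pow_eq_pow_val, ← hsq]
    set X := ((-1 : L) ^ (a * b) * (c : L)) ^ N with hX
    have hX1 : v (X + 1) ≤ 1 := by
      have : X + 1 = (X - 1) + 2 := by ring
      rw [this]
      refine (Valuation.map_add v _ _).trans (max_le h.le ?_)
      have h2 : (2 : L) = 1 + 1 := by norm_num
      rw [h2]
      exact (Valuation.map_add v _ _).trans (by rw [map_one, max_self])
    have h3 : ((-1 : L) ^ (a * b) * (c : L)) ^ (2 * N) - 1 = (X - 1) * (X + 1) := by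
      rw [hX, mul_comm 2 N, pow_mul]
      ring
    rw [h3, map_mul]
    exact (mul_le_of_le_one_right' hX1).trans_lt h
  have h7 : sy T (c ^ (2 * N)) ∈ unitPart v 2 := sy_one_add v T _ hT hd
  rw [sy_pow_right] at h7
  have h8 : ((2 * N : ℕ) : ℚ) ≠ 0 := by
    rw [Nat.cast_ne_zero]
    omega
  have h9 := Submodule.smul_mem _ (((2 * N : ℕ) : ℚ))⁻¹ h7
  rw [smul_smul, inv_mul_cancel₀ h8, one_smul] at h9
  rw [hf, hg, sy_dec]
  exact add_mem h9 (sy_unit v hf1 hg1)

end Pool.Agent.Helper79.RG
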