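import Pool.Agent.Helper79.RG.U2
import Pool.Agent.Helper79.RG.T1

set_option autoImplicit false

/-!
# A common relation for the unramified pairs of bounded degree
-/

set_option linter.unusedSectionVars false

namespace Pool.Agent.Helper79.RG

open scoped WithZero IntermediateField.algebraAdjoinAdjoin
open IntermediateField IsDedekindDomain Filter
open Pool.Agent.Helper79.FE
open Pool.Agent.TH826.MK (KQ symb unitPart)
open Pool.Agent.Helper537_Sym (sy eq_cons)

universe u v w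

section ultra

variable {I : Type u} (U : Ultrafilter I) {k : Type v} {K : Type (max u v)} {L0 : Type w} {L : Type (max u w)}
  [Field k] [IsAlgClosed k] [CharZero k] [Field K] [IsAlgClosed K] [Field L0] [Field L]
  [Algebra k K] [Algebra k L0] [Algebra k L] [Algebra K L] [Algebra L0 L] [IsScalarTower k K L]
  [IsScalarTower k L0 L]

/-- lifting a sequence of quotients -/
theorem lift_quo (ψ : L →+* (U : Filter I).Germ L0)
    (hrange : ∀ (n : ℕ) (e : Fin n → L0) (s : I → L0), (∀ i, s i ∈ Submodule.span k (Set.range e)) →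
        ∃ a : L, ψ a = (s : (U : Filter I).Germ L0)) {m : ℕ} (e : Fin m → L0) (f : I → L0)
    (hf : ∀ i, Quo k e (f i)) (hf0 : ∀ i, f i ≠ 0) :
    ∃ F : Lˣ, ψ (F : L) = (f : (U : Filter I).Germ L0) := by
  choose a b ha hb hb0 hab using hf
  obtain ⟨A, hA⟩ := hrange m e a ha
  obtain ⟨B, hB⟩ := hrange m e b hb
  have h1 : ψ (A / B) = (f : (U : Filter I).Germ L0) := by
    rw [map_div₀, hA, hB]
    have h2 : ((a / b : I → L0) : (U : Filter I).Germ L0) = (f : (U : Filter I).Germ L0) := by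
      congr 1
      funext i
      rw [Pi.div_apply, ← hab]
    rw [← h2]
    rfl
  have h3 : A / B ≠ 0 := by
    intro h
    rw [h, map_zero, ← Germ.coe_zero, Germ.coe_eq] at h1
    obtain ⟨i, hi⟩ := h1.exists
    exact hf0 i hi.symm
  exact ⟨Units.mk0 _ h3, h1⟩

/-- the limit of unramified pairs is unramified -/
theorem lift_unram (hP : IsProd k K L0 L) (hL0 : IsFun k L0) (φ : K ≃+* (U : Filter I).Germ k)
    (ψ : L →+* (U : Filter I).Germ L0)
    (hφ : ∀ c : k, φ (algebraMap k K c) = ((fun _ => c : I → k) : (U : Filter I).Germ k))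
    (hψ1 : ∀ (c : K) (s : I → k), φ c = (s : (U : Filter I).Germ k) →
      ψ (algebraMap K L c) = ((fun n => algebraMap k L0 (s n) : I → L0) : (U : Filter I).Germ L0))
    (hψ2 : ∀ h : L0, ψ (algebraMap L0 L h) = ((fun _ => h : I → L0) : (U : Filter I).Germ L0))
    {N : ℕ} (hN : 0 < N) (f g : I → L0) (hfg : ∀ i, ∀ v ∈ VN k L0, TameTors v N (f i) (g i))
    (F G : Lˣ) (hF : ψ (F : L) = (f : (U : Filter I).Germ L0)) (hG : ψ (G : L) = (g : (U : Filter I).Germ L0))
    (v : Valuation L ℤᵐ⁰) (hv : v ∈ VN K L) : sy F G ∈ unitPart v 2 := by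
  refine tame_unit v hv.1 hN F G ?_
  obtain ⟨vn, hvn, hval⟩ := los_place hP hL0 U φ ψ hφ hψ1 hψ2 v hv
  have h1 := hval _ _ hF
  have h2 := hval _ _ hG
  unfold TameTors
  set i := WithZero.log (v (F : L)) with hi
  set j := WithZero.log (v (G : L)) with hj
  have h3 := hval (((-1) ^ (i * j) * (F : L) ^ j / (G : L) ^ i) ^ N - 1)
    (fun n => ((-1) ^ (i * j) * (f n) ^ j / (g n) ^ i) ^ N - 1) (by
      rw [map_sub, map_pow, map_div₀, map_mul, map_zpow₀, map_zpow₀, map_zpow₀, map_neg, map_one, hF, hG]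
      have ez : ∀ (s : I → L0) (z : ℤ), (s : (U : Filter I).Germ L0) ^ z =
          ((fun n => s n ^ z : I → L0) : (U : Filter I).Germ L0) := by
        intro s z
        rcases z with z | z
        · have : ∀ (E : Type _) [Field E] (a : E), a ^ (Int.ofNat z) = a ^ z := fun E _ a => zpow_natCast a z
          rw [this, ← Germ.coe_pow]
          congr 1
          funext n
          rw [Pi.pow_apply]
          exact (zpow_natCast _ _).symm
        · rw [zpow_negSucc, ← Germ.coe_pow, ← Germ.coe_inv]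
          congr 1
          funext n
          rw [Pi.inv_apply, Pi.pow_apply, zpow_negSucc]
      have e1 : (1 : (U : Filter I).Germ L0) = ((fun _ => 1 : I → L0) : (U : Filter I).Germ L0) := rfl
      have e2 : (-1 : (U : Filter I).Germ L0) = ((fun _ => -1 : I → L0) : (U : Filter I).Germ L0) := rfl
      rw [e2, e1, ez, ez, ez, ← Germ.coe_mul, ← Germ.coe_div, ← Germ.coe_pow, ← Germ.coe_sub]
      rfl)
  obtain ⟨n, hn1, hn2, hn3⟩ := (h1.and (h2.and h3)).exists
  rw [← hn3]
  have h4 := hfg n (vn n) (hvn n)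
  unfold TameTors at h4
  rw [hn1, hn2] at h4
  exact h4

theorem lift_poly (ψ : L →+* (U : Filter I).Germ L0)
    (hψ0 : ∀ c : k, ψ (algebraMap k L c) = ((fun _ => algebraMap k L0 c : I → L0) : (U : Filter I).Germ L0))
    {F G : L} {f g : I → L0} (hF : ψ F = (f : (U : Filter I).Germ L0)) (hG : ψ G = (g : (U : Filter I).Germ L0))
    (Q : MvPolynomial (Fin 2) k) : ψ (MvPolynomial.aeval ![F, G] Q) =
      ((fun n => MvPolynomial.aeval ![f n, g n] Q : I → L0) : (U : Filter I).Germ L0) := by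
  induction Q using MvPolynomial.induction_on with
  | C a =>
    have h1 : ∀ (E : Type _) [Field E] [Algebra k E] (x y : E), MvPolynomial.aeval ![x, y]
      (MvPolynomial.C a : MvPolynomial (Fin 2) k) = algebraMap k E a := fun E _ _ x y => MvPolynomial.aeval_C _ _
    rw [h1, hψ0]
    congr 1
    funext n
    exact (MvPolynomial.aeval_C _ _).symm
  | add p q hp hq =>
    rw [map_add, map_add, hp, hq, ← Germ.coe_add]
    congr 1
    funext n
    simp only [Pi.add_apply, map_add]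
  | mul_X p i hp =>
    rw [map_mul, map_mul, hp]
    have h2 : ψ (MvPolynomial.aeval ![F, G] (MvPolynomial.X i : MvPolynomial (Fin 2) k)) =
        ((fun n => MvPolynomial.aeval ![f n, g n] (MvPolynomial.X i : MvPolynomial (Fin 2) k) : I → L0) :
          (U : Filter I).Germ L0) := by
      fin_cases i
      · simp only [MvPolynomial.aeval_X]
        exact hF
      · simp only [MvPolynomial.aeval_X]
        exact hG
    rw [h2, ← Germ.coe_mul]
    congr 1
    funext n
    simp only [Pi.mul_apply, map_mul]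

end ultra

/-- the dichotomy for the limit pair -/
theorem limit_dep {I : Type u} (U : Ultrafilter I) {k : Type v} {L0 : Type w} [Field k] [IsAlgClosed k] [CharZero k]
    [Field L0] [Algebra k L0] (hL0 : IsFun k L0) {m : ℕ} (e : Fin m → L0) {N : ℕ} (hN : 0 < N) (f g : I → L0)
    (hf : ∀ i, Quo k e (f i)) (hg : ∀ i, Quo k e (g i)) (hf0 : ∀ i, f i ≠ 0) (hg0 : ∀ i, g i ≠ 0)
    (hfg : ∀ i, ∀ v ∈ VN k L0, TameTors v N (f i) (g i))
    (hc : ∀ i, ¬ ((∃ c : k, algebraMap k L0 c = f i) ∧ ∃ c : k, algebraMap k L0 c = g i)) :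
    ∃ Q : MvPolynomial (Fin 2) k, Q ≠ 0 ∧ ∀ᶠ i in (U : Filter I), MvPolynomial.aeval ![f i, g i] Q = 0 := by
  obtain ⟨K, L, _, _, _, _, _, _, _, _, _, φ, ψ, hP, hφ, hψ1, hψ2, hrange⟩ := exists_ultra U (k := k) (L0 := L0)
  obtain ⟨F, hF⟩ := lift_quo U ψ hrange e f hf hf0
  obtain ⟨G, hG⟩ := lift_quo U ψ hrange e g hg hg0
  have hψ0 : ∀ c : k, ψ (algebraMap k L c) =
      ((fun _ => algebraMap k L0 c : I → L0) : (U : Filter I).Germ L0) := fun c => by
    rw [IsScalarTower.algebraMap_apply k L0 L]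
    exact hψ2 _
  have hun := lift_unram U hP hL0 φ ψ hφ hψ1 hψ2 hN f g hfg F G hF hG
  rcases rigid hP hL0 F G hun with h | ⟨⟨a, ha⟩, ⟨b, hb⟩⟩
  · rw [algebraicIndependent_iff] at h
    push Not at h
    obtain ⟨Q, hQ, hQ0⟩ := h
    refine ⟨Q, hQ0, ?_⟩
    have h1 := lift_poly U ψ hψ0 hF hG Q
    rw [hQ, map_zero, ← Germ.coe_zero, Germ.coe_eq] at h1
    filter_upwards [h1] with i hi
    exact hi.symm
  · exfalso
    obtain ⟨s, hs⟩ := germ_rep U (φ a)
    obtain ⟨t, ht⟩ := germ_rep U (φ b)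
    have h1 := hψ1 a s hs
    have h2 := hψ1 b t ht
    rw [ha, hF, Germ.coe_eq] at h1
    rw [hb, hG, Germ.coe_eq] at h2
    obtain ⟨i, hi1, hi2⟩ := (h1.and h2).exists
    exact hc i ⟨⟨s i, hi1.symm⟩, ⟨t i, hi2.symm⟩⟩

/-- **all the unramified pairs of bounded degree satisfy one polynomial relation** -/
theorem common_relation {k : Type v} {L0 : Type w} [Field k] [IsAlgClosed k] [CharZero k]
    [Field L0] [Algebra k L0] (hL0 : IsFun k L0) {m : ℕ} (e : Fin m → L0) {N : ℕ} (hN : 0 < N) :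
    ∃ Q : MvPolynomial (Fin 2) k, Q ≠ 0 ∧ ∀ f g : L0, Quo k e f → Quo k e g → f ≠ 0 → g ≠ 0 →
      (∀ v ∈ VN k L0, TameTors v N f g) →
      ¬ ((∃ c : k, algebraMap k L0 c = f) ∧ ∃ c : k, algebraMap k L0 c = g) →
      MvPolynomial.aeval ![f, g] Q = 0 := by
  by_contra hcon
  push Not at hcon
  let I := {Q : MvPolynomial (Fin 2) k // Q ≠ 0}
  choose f g hf hg hf0 hg0 hfg hc hne using fun Q : I => hcon Q.1 Q.2
  let pre : Preorder I :=
    { le := fun P Q => P.1 ∣ Q.1
      le_refl := fun P => dvd_refl _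
      le_trans := fun P Q R h1 h2 => dvd_trans h1 h2 }
  have hdir : IsDirected I (· ≤ ·) := ⟨fun P Q => ⟨⟨P.1 * Q.1, mul_ne_zero P.2 Q.2⟩, ⟨Q.1, rfl⟩, ⟨P.1, mul_comm _ _⟩⟩⟩
  have hnon : Nonempty I := ⟨⟨1, one_ne_zero⟩⟩
  have hnb : (atTop : Filter I).NeBot := atTop_neBot
  let U : Ultrafilter I := Ultrafilter.of atTop
  obtain ⟨Q, hQ0, hQ⟩ := limit_dep U hL0 e hN f g hf hg hf0 hg0 hfg (fun i h => by
    obtain ⟨c, hc'⟩ := h.2
    exact hc i h.1 c hc')
  have h1 : ∀ᶠ P in (U : Filter I), (⟨Q, hQ0⟩ : I) ≤ P := Ultrafilter.of_le _ (eventually_ge_atTop _)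
  obtain ⟨P, hP1, hP2⟩ := (hQ.and h1).exists
  obtain ⟨R, hR⟩ := hP2
  refine hne P ?_
  rw [hR, map_mul, hP1, zero_mul]

end Pool.Agent.Helper79.RG
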