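import Pool.Agent.Helper79.RG.RK
import Pool.Agent.Helper79.RG.U3

set_option autoImplicit false

/-!
# Module LK: finitely many classes of unramified symbols of bounded degree over an algebraically closed field
-/

set_option linter.unusedSectionVars false

namespace Pool.Agent.Helper79.RG

open scoped WithZero IntermediateField.algebraAdjoinAdjoin
open IntermediateField Filter
open Pool.Agent.Helper79.FE
open Pool.Agent.TH826.MK (KQ symb unitPart)
open Pool.Agent.Helper537_Sym

universe u v w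

/-- the unit attached to an element -/
noncomputable def uu {A : Type*} [Field A] (a : A) : Aˣ := by
  classical
  exact if h : a = 0 then 1 else Units.mk0 a h

theorem uu_val {A : Type*} [Field A] {a : A} (h : a ≠ 0) : (uu a : A) = a := by
  unfold uu
  rw [dif_neg h]
  rfl

theorem uu_unit {A : Type*} [Field A] (a : Aˣ) : uu (a : A) = a := Units.ext (uu_val a.ne_zero)

theorem uu_mul {A : Type*} [Field A] {a b : A} (ha : a ≠ 0) (hb : b ≠ 0) : uu (a * b) = uu a * uu b := by
  refine Units.ext ?_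
  rw [Units.val_mul, uu_val ha, uu_val hb, uu_val (mul_ne_zero ha hb)]

section los

variable {I : Type u} (U : Ultrafilter I) {A : Type w} [Field A]

/-- the symbol of two germs -/
noncomputable def gs (x y : (U : Filter I).Germ A) : (U : Filter I).Germ (KQ A 2) :=
  Germ.map₂ (fun a b => sy (uu a) (uu b)) x y

theorem germ_ne_zero (s : I → A) (h : (s : (U : Filter I).Germ A) ≠ 0) : ∀ᶠ n in (U : Filter I), s n ≠ 0 := by
  by_contra hcon
  rw [← Ultrafilter.eventually_not] at hcon
  apply h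
  rw [← Germ.coe_zero, Germ.coe_eq]
  filter_upwards [hcon] with n hn
  push Not at hn
  exact hn

/-- the symbols of an ultraproduct -/
theorem los_kq : ∃ Θ : KQ ((U : Filter I).Germ A) 2 →ₗ[ℚ] (U : Filter I).Germ (KQ A 2),
    ∀ X Y : ((U : Filter I).Germ A)ˣ, Θ (sy X Y) = gs U (X : (U : Filter I).Germ A) (Y : (U : Filter I).Germ A) := by
  have hadd1 : ∀ x x' y : ((U : Filter I).Germ A)ˣ, gs U ((x * x' : ((U : Filter I).Germ A)ˣ) : (U : Filter I).Germ A) y =
      gs U (x : (U : Filter I).Germ A) y + gs U (x' : (U : Filter I).Germ A) y := by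
    intro x x' y
    obtain ⟨s, hs⟩ := germ_rep U (x : (U : Filter I).Germ A)
    obtain ⟨t, ht⟩ := germ_rep U (x' : (U : Filter I).Germ A)
    obtain ⟨r, hr⟩ := germ_rep U (y : (U : Filter I).Germ A)
    have h1 := germ_ne_zero U s (by rw [← hs]; exact x.ne_zero)
    have h2 := germ_ne_zero U t (by rw [← ht]; exact x'.ne_zero)
    rw [Units.val_mul, hs, ht, hr]
    show ((fun n => sy (uu ((s * t) n)) (uu (r n)) : I → KQ A 2) : (U : Filter I).Germ (KQ A 2)) =
      ((fun n => sy (uu (s n)) (uu (r n)) + sy (uu (t n)) (uu (r n)) : I → KQ A 2) : (U : Filter I).Germ (KQ A 2))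
    rw [Germ.coe_eq]
    filter_upwards [h1, h2] with n hn1 hn2
    rw [Pi.mul_apply, uu_mul hn1 hn2, sy_mul_left]
  have hadd2 : ∀ y x x' : ((U : Filter I).Germ A)ˣ, gs U y ((x * x' : ((U : Filter I).Germ A)ˣ) : (U : Filter I).Germ A) =
      gs U (y : (U : Filter I).Germ A) x + gs U (y : (U : Filter I).Germ A) x' := by
    intro y x x'
    obtain ⟨s, hs⟩ := germ_rep U (x : (U : Filter I).Germ A)
    obtain ⟨t, ht⟩ := germ_rep U (x' : (U : Filter I).Germ A)
    obtain ⟨r, hr⟩ := germ_rep U (y : (U : Filter I).Germ A)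
    have h1 := germ_ne_zero U s (by rw [← hs]; exact x.ne_zero)
    have h2 := germ_ne_zero U t (by rw [← ht]; exact x'.ne_zero)
    rw [Units.val_mul, hs, ht, hr]
    show ((fun n => sy (uu (r n)) (uu ((s * t) n)) : I → KQ A 2) : (U : Filter I).Germ (KQ A 2)) =
      ((fun n => sy (uu (r n)) (uu (s n)) + sy (uu (r n)) (uu (t n)) : I → KQ A 2) : (U : Filter I).Germ (KQ A 2))
    rw [Germ.coe_eq]
    filter_upwards [h1, h2] with n hn1 hn2
    rw [Pi.mul_apply, uu_mul hn1 hn2, sy_mul_right]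
  have hst : ∀ x y : ((U : Filter I).Germ A)ˣ, (x : (U : Filter I).Germ A) + y = 1 →
      gs U (x : (U : Filter I).Germ A) y = 0 := by
    intro x y hxy
    obtain ⟨s, hs⟩ := germ_rep U (x : (U : Filter I).Germ A)
    obtain ⟨r, hr⟩ := germ_rep U (y : (U : Filter I).Germ A)
    have h1 := germ_ne_zero U s (by rw [← hs]; exact x.ne_zero)
    have h2 := germ_ne_zero U r (by rw [← hr]; exact y.ne_zero)
    rw [hs, hr, ← Germ.coe_add, ← Germ.coe_one, Germ.coe_eq] at hxy
    rw [hs, hr, ← Germ.coe_zero]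
    show ((fun n => sy (uu (s n)) (uu (r n)) : I → KQ A 2) : (U : Filter I).Germ (KQ A 2)) = _
    rw [Germ.coe_eq]
    filter_upwards [h1, h2, hxy] with n hn1 hn2 hn3
    refine sy_steinberg ?_
    rw [uu_val hn1, uu_val hn2]
    exact hn3
  refine ⟨KQ.lift (fun a => gs U (a 0 : (U : Filter I).Germ A) (a 1 : (U : Filter I).Germ A)) ?_ ?_, fun X Y => ?_⟩
  · intro a i x y
    fin_cases i
    · simp only [Fin.zero_eta, Function.update_self, ne_eq, one_ne_zero, not_false_eq_true, Function.update_of_ne]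
      exact hadd1 x y (a 1)
    · simp only [Fin.mk_one, Function.update_self, ne_eq, zero_ne_one, not_false_eq_true, Function.update_of_ne]
      exact hadd2 (a 0) x y
  · rintro a ⟨i, j, hij, h⟩
    have hi : i = 0 := by omega
    have hj : j = 1 := by omega
    subst hi
    subst hj
    exact hst (a 0) (a 1) h
  · unfold sy
    rw [KQ.lift_symb]
    rfl

end los

/-- the limit of a sequence of unramified symbols of bounded degree -/
theorem limit_class {I : Type u} (U : Ultrafilter I) {k : Type v} {L0 : Type w} [Field k] [IsAlgClosed k] [CharZero k]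
    [Field L0] [Algebra k L0] (hL0 : IsFun k L0) {m : ℕ} (e : Fin m → L0) {N : ℕ} (hN : 0 < N) (f g : I → L0ˣ)
    (hf : ∀ i, Quo k e (f i : L0)) (hg : ∀ i, Quo k e (g i : L0))
    (hfg : ∀ i, ∀ v ∈ VN k L0, TameTors v N (f i : L0) (g i : L0)) :
    ∃ y0 : KQ L0 2, ∀ᶠ i in (U : Filter I), ∃ y : KQ k 2, sy (f i) (g i) = y0 + KQ.map 2 (algebraMap k L0) y := by
  obtain ⟨K, L, _, _, _, _, _, _, _, _, _, φ, ψ, hP, hφ, hψ1, hψ2, hrange⟩ := exists_ultra U (k := k) (L0 := L0)
  have hKc : CharZero K := charZero_of_injective_algebraMap (algebraMap k K).injective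
  obtain ⟨F, hF⟩ := lift_quo U ψ hrange e (fun i => (f i : L0)) hf (fun i => (f i).ne_zero)
  obtain ⟨G, hG⟩ := lift_quo U ψ hrange e (fun i => (g i : L0)) hg (fun i => (g i).ne_zero)
  have hun := lift_unram U hP hL0 φ ψ hφ hψ1 hψ2 hN (fun i => (f i : L0)) (fun i => (g i : L0)) hfg F G hF hG
  obtain ⟨y0, yK, hyy⟩ := rigid_k2 hP hL0 F G hun
  obtain ⟨Θ, hΘ⟩ := los_kq U (A := L0)
  refine ⟨y0, ?_⟩
  have h1 : Θ (KQ.map 2 ψ (sy F G)) = ((fun i => sy (f i) (g i) : I → KQ L0 2) : (U : Filter I).Germ (KQ L0 2)) := by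
    rw [map_sy', hΘ]
    show gs U (ψ (F : L)) (ψ (G : L)) = _
    rw [hF, hG]
    show ((fun n => sy (uu (f n : L0)) (uu (g n : L0)) : I → KQ L0 2) : (U : Filter I).Germ (KQ L0 2)) = _
    congr 1
    funext n
    rw [uu_unit, uu_unit]
  have h2 : Θ (KQ.map 2 ψ (KQ.map 2 (algebraMap L0 L) y0)) =
      ((fun _ => y0 : I → KQ L0 2) : (U : Filter I).Germ (KQ L0 2)) := by
    have hs := sy_span y0
    clear hyy
    induction hs using Submodule.span_induction with
    | mem x hx =>
      obtain ⟨p, rfl⟩ := hx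
      show Θ (KQ.map 2 ψ (KQ.map 2 (algebraMap L0 L) (sy p.1 p.2))) = _
      rw [map_sy', map_sy', hΘ]
      show gs U (ψ (algebraMap L0 L (p.1 : L0))) (ψ (algebraMap L0 L (p.2 : L0))) = _
      rw [hψ2, hψ2]
      show ((fun n => sy (uu (p.1 : L0)) (uu (p.2 : L0)) : I → KQ L0 2) : (U : Filter I).Germ (KQ L0 2)) = _
      rw [uu_unit, uu_unit]
    | zero =>
      rw [map_zero, map_zero, map_zero]
      rfl
    | add x y _ _ h h' =>
      rw [map_add, map_add, map_add, h, h']
      rfl
    | smul r x _ h =>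
      rw [map_smul, map_smul, map_smul, h]
      rfl
  have h3 : ∃ s : I → KQ k 2, Θ (KQ.map 2 ψ (KQ.map 2 (algebraMap K L) yK)) =
      ((fun n => KQ.map 2 (algebraMap k L0) (s n) : I → KQ L0 2) : (U : Filter I).Germ (KQ L0 2)) := by
    have hs := sy_span yK
    clear hyy
    induction hs using Submodule.span_induction with
    | mem x hx =>
      obtain ⟨p, rfl⟩ := hx
      obtain ⟨s, hs⟩ := germ_rep U (φ (p.1 : K))
      obtain ⟨t, ht⟩ := germ_rep U (φ (p.2 : K))
      have hs1 := hψ1 _ s hs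
      have ht1 := hψ1 _ t ht
      have hs0 : ∀ᶠ n in (U : Filter I), s n ≠ 0 := germ_ne_zero U s (by
        rw [← hs]
        exact (map_ne_zero φ).2 p.1.ne_zero)
      have ht0 : ∀ᶠ n in (U : Filter I), t n ≠ 0 := germ_ne_zero U t (by
        rw [← ht]
        exact (map_ne_zero φ).2 p.2.ne_zero)
      refine ⟨fun n => sy (uu (s n)) (uu (t n)), ?_⟩
      show Θ (KQ.map 2 ψ (KQ.map 2 (algebraMap K L) (sy p.1 p.2))) = _
      rw [map_sy', map_sy', hΘ]
      show gs U (ψ (algebraMap K L (p.1 : K))) (ψ (algebraMap K L (p.2 : K))) = _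
      rw [hs1, ht1]
      show ((fun n => sy (uu (algebraMap k L0 (s n))) (uu (algebraMap k L0 (t n))) : I → KQ L0 2) :
        (U : Filter I).Germ (KQ L0 2)) = _
      rw [Germ.coe_eq]
      filter_upwards [hs0, ht0] with n hn1 hn2
      rw [map_sy']
      congr 1
      · refine Units.ext ?_
        rw [uu_val ((map_ne_zero _).2 hn1)]
        show _ = algebraMap k L0 (uu (s n) : k)
        rw [uu_val hn1]
      · refine Units.ext ?_
        rw [uu_val ((map_ne_zero _).2 hn2)]
        show _ = algebraMap k L0 (uu (t n) : k)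
        rw [uu_val hn2]
    | zero =>
      refine ⟨fun _ => 0, ?_⟩
      have e0 : (fun n : I => KQ.map 2 (algebraMap k L0) ((fun _ : I => (0 : KQ k 2)) n)) = 0 := by
        funext n
        exact map_zero _
      rw [map_zero, map_zero, map_zero, e0]
      rfl
    | add x y _ _ h h' =>
      obtain ⟨s, hs⟩ := h
      obtain ⟨t, ht⟩ := h'
      refine ⟨fun n => s n + t n, ?_⟩
      rw [map_add, map_add, map_add, hs, ht, ← Germ.coe_add]
      congr 1
      funext n
      rw [Pi.add_apply, map_add]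
    | smul r x _ h =>
      obtain ⟨s, hs⟩ := h
      refine ⟨fun n => r • s n, ?_⟩
      rw [map_smul, map_smul, map_smul, hs]
      have : (fun n => KQ.map 2 (algebraMap k L0) (r • s n)) = r • fun n => KQ.map 2 (algebraMap k L0) (s n) := by
        funext n
        rw [Pi.smul_apply, map_smul]
      rw [this]
      rfl
  obtain ⟨s, hs⟩ := h3
  rw [hyy, map_add, map_add, h2, hs, ← Germ.coe_add, Germ.coe_eq] at h1
  filter_upwards [h1] with i hi
  exact ⟨s i, hi.symm⟩

/-- **finitely many classes**, algebraically closed ground field -/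
theorem finite_classes {k : Type v} {L0 : Type w} [Field k] [IsAlgClosed k] [CharZero k]
    [Field L0] [Algebra k L0] (hL0 : IsFun k L0) {m : ℕ} (e : Fin m → L0) {N : ℕ} (hN : 0 < N) :
    {z : KQ L0 2 ⧸ LinearMap.range (KQ.map 2 (algebraMap k L0)) | ∃ f g : L0ˣ, Quo k e (f : L0) ∧ Quo k e (g : L0) ∧
      (∀ v ∈ VN k L0, TameTors v N (f : L0) (g : L0)) ∧ z = Submodule.Quotient.mk (sy f g)}.Finite := by
  by_contra hinf
  set S := {z : KQ L0 2 ⧸ LinearMap.range (KQ.map 2 (algebraMap k L0)) | ∃ f g : L0ˣ, Quo k e (f : L0) ∧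
    Quo k e (g : L0) ∧ (∀ v ∈ VN k L0, TameTors v N (f : L0) (g : L0)) ∧ z = Submodule.Quotient.mk (sy f g)} with hS
  have hinf' : S.Infinite := hinf
  let p : ℕ → KQ L0 2 ⧸ LinearMap.range (KQ.map 2 (algebraMap k L0)) := fun n => (hinf'.natEmbedding _ n).1
  have hp : ∀ n, p n ∈ S := fun n => (hinf'.natEmbedding _ n).2
  have hpinj : Function.Injective p := Subtype.val_injective.comp (hinf'.natEmbedding _).injective
  choose f g hf hg hfg hz using hp
  let U : Ultrafilter ℕ := hyperfilter ℕ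
  obtain ⟨y0, hy0⟩ := limit_class U hL0 e hN f g hf hg hfg
  have h7 : ∀ᶠ n in (U : Filter ℕ), p n = Submodule.Quotient.mk y0 := by
    filter_upwards [hy0] with n hn
    obtain ⟨y, hy⟩ := hn
    rw [hz, Submodule.Quotient.eq, hy, add_sub_cancel_left]
    exact ⟨y, rfl⟩
  have h8 : {n : ℕ | p n = Submodule.Quotient.mk y0}.Finite := by
    refine Set.Subsingleton.finite fun x hx y hy => hpinj ?_
    rw [Set.mem_ofPred_eq] at hx hy
    rw [hx, hy]
  have h9 : {n : ℕ | p n = Submodule.Quotient.mk y0}ᶜ ∈ (U : Filter ℕ) :=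
    Filter.hyperfilter_le_cofinite h8.compl_mem_cofinite
  obtain ⟨n, hn1, hn2⟩ := (h7.and h9).exists
  exact hn2 hn1

end Pool.Agent.Helper79.RG
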