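import Pool.Agent.Helper79.RG.M1a

set_option autoImplicit false

/-!
# Module M1: extension of derivations, and derivations of function fields at the places
-/

namespace Pool.Agent.Helper79.RG

open scoped WithZero IntermediateField.algebraAdjoinAdjoin
open IntermediateField
open Pool.Agent.Helper79.FE (VN)

/-- a function field of one variable over `k` -/
def IsFun (k E : Type*) [Field k] [Field E] [Algebra k E] : Prop :=
  ∃ w : E, Transcendental k w ∧ FiniteDimensional k⟮w⟯ E

/-- elements of value at most one are fractions with a denominator of value one -/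
theorem frac_unit {C F : Type*} [CommRing C] [IsDedekindDomain C] [Field F] [Algebra C F]
    [IsFractionRing C F] (v : Valuation F ℤᵐ⁰) (hv : ∀ c : C, v (algebraMap C F c) ≤ 1) {a : F}
    (ha : v a ≤ 1) : ∃ p q : C, v (algebraMap C F q) = 1 ∧ algebraMap C F q * a = algebraMap C F p := by
  obtain ⟨c, d, hd, rfl⟩ := IsFractionRing.div_surjective (A := C) a
  have hd0 : d ≠ 0 := nonZeroDivisors.ne_zero hd
  have hdF : algebraMap C F d ≠ 0 := (map_ne_zero_iff _ (IsFractionRing.injective C F)).2 hd0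
  have hvd : v (algebraMap C F d) ≠ 0 := (Valuation.ne_zero_iff v).2 hdF
  have hcd : v (algebraMap C F c) ≤ v (algebraMap C F d) := by
    rw [map_div₀] at ha
    exact (div_le_one₀ (zero_lt_iff.2 hvd)).1 ha
  have h1 : Ideal.span {d} ≤ Ideal.span {c} ⊔ Ideal.span {d} := le_sup_right
  obtain ⟨M, hM⟩ := Ideal.dvd_iff_le.2 h1
  have h2 : ∀ m ∈ M, d ∣ c * m := by
    intro m hm
    rw [← Ideal.mem_span_singleton, hM]
    exact Ideal.mul_mem_mul (Ideal.mem_sup_left (Ideal.mem_span_singleton_self c)) hm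
  have h3 : d ∈ (Ideal.span {c} ⊔ Ideal.span {d}) * M := by
    rw [← hM]; exact Ideal.mem_span_singleton_self d
  rw [Ideal.sup_mul, Submodule.mem_sup] at h3
  obtain ⟨y, hy, z, hz, hyz⟩ := h3
  obtain ⟨m1, hm1, rfl⟩ := Ideal.mem_span_singleton_mul.1 hy
  obtain ⟨m2, hm2, rfl⟩ := Ideal.mem_span_singleton_mul.1 hz
  have key : ∀ m ∈ M, v (algebraMap C F m) = 1 → ∃ p q : C, v (algebraMap C F q) = 1 ∧
      algebraMap C F q * (algebraMap C F c / algebraMap C F d) = algebraMap C F p := by
    intro m hm hvm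
    obtain ⟨p, hp⟩ := h2 m hm
    refine ⟨p, m, hvm, ?_⟩
    have h4 := congrArg (algebraMap C F) hp
    rw [map_mul, map_mul] at h4
    field_simp
    rw [mul_comm, h4, mul_comm]
  by_cases g1 : v (algebraMap C F m1) = 1
  · exact key m1 hm1 g1
  by_cases g2 : v (algebraMap C F m2) = 1
  · exact key m2 hm2 g2
  exfalso
  have l1 := lt_of_le_of_ne (hv m1) g1
  have l2 := lt_of_le_of_ne (hv m2) g2
  have h5 := congrArg (fun x => v (algebraMap C F x)) hyz
  simp only [map_add, map_mul] at h5
  have h6 : v (algebraMap C F c * algebraMap C F m1 + algebraMap C F d * algebraMap C F m2) <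
      v (algebraMap C F d) := by
    refine Valuation.map_add_lt v ?_ ?_
    · rw [map_mul]
      calc v (algebraMap C F c) * v (algebraMap C F m1) ≤ v (algebraMap C F d) * v (algebraMap C F m1) :=
            mul_le_mul_left hcd _
        _ < v (algebraMap C F d) * 1 := (mul_lt_mul_iff_right₀ (zero_lt_iff.2 hvd)).2 l1
        _ = v (algebraMap C F d) := mul_one _
    · rw [map_mul]
      calc v (algebraMap C F d) * v (algebraMap C F m2) < v (algebraMap C F d) * 1 :=
            (mul_lt_mul_iff_right₀ (zero_lt_iff.2 hvd)).2 l2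
        _ = v (algebraMap C F d) := mul_one _
  rw [h5] at h6
  exact lt_irrefl _ h6

section

variable {k E : Type*} [Field k] [IsAlgClosed k] [CharZero k] [Field E] [Algebra k E]

omit [IsAlgClosed k] [CharZero k] in
theorem vk_le {v : Valuation E ℤᵐ⁰} (hv : v ∈ VN k E) (c : k) : v (algebraMap k E c) ≤ 1 := by
  by_cases h : c = 0
  · rw [h, map_zero, map_zero]; exact zero_le_one
  · rw [hv.2 c h]

omit [CharZero k] in
/-- the residue field at a place is `k` -/
theorem exists_res (hE : IsFun k E) {v : Valuation E ℤᵐ⁰} (hv : v ∈ VN k E) {a : E} (ha : v a ≤ 1) :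
    ∃ c : k, v (a - algebraMap k E c) < 1 := by
  by_contra hcon
  push Not at hcon
  have h1 : ∀ c : k, v (a - algebraMap k E c) = 1 := fun c =>
    le_antisymm ((v.map_sub _ _).trans (max_le ha (vk_le hv c))) (hcon c)
  have hp : ∀ p : Polynomial k, p ≠ 0 → v (Polynomial.aeval a p) = 1 := by
    intro p hp0
    have hs := IsAlgClosed.splits p
    have hm : ∀ s : Multiset k, v (Polynomial.aeval a (s.map fun c => Polynomial.X - Polynomial.C c).prod) = 1 := by
      intro s
      induction s using Multiset.induction_on with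
      | empty => simp
      | cons c s ih =>
        rw [Multiset.map_cons, Multiset.prod_cons, map_mul, map_mul, ih, mul_one, map_sub,
          Polynomial.aeval_X, Polynomial.aeval_C, h1]
    have h2 := congrArg (fun q => v (Polynomial.aeval a q)) hs.eq_prod_roots
    simp only [map_mul, Polynomial.aeval_C] at h2
    rw [h2, hm, mul_one]
    exact hv.2 _ (Polynomial.leadingCoeff_ne_zero.2 hp0)
  have htr : Transcendental k a := by
    rintro ⟨p, hp0, hpa⟩
    have := hp p hp0
    rw [hpa, map_zero] at this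
    exact zero_ne_one this
  obtain ⟨w, hw, hfin⟩ := hE
  have hfa := Pool.Agent.Helper79.FE.fin_adj w a hw htr
  have hB : ∀ b : k⟮a⟯, v (algebraMap k⟮a⟯ E b) ≤ 1 := by
    intro b
    obtain ⟨r, s, hrs⟩ := IntermediateField.mem_adjoin_simple_iff k (b : E) |>.1 b.2
    have : algebraMap k⟮a⟯ E b = (b : E) := rfl
    rw [this, hrs, map_div₀]
    by_cases hr : r = 0
    · rw [hr, map_zero, map_zero, zero_div]; exact zero_le_one
    by_cases hs : s = 0
    · rw [hs, map_zero, map_zero, div_zero]; exact zero_le_one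
    rw [hp r hr, hp s hs, div_one]
  have hall : ∀ x : E, v x ≤ 1 := fun x =>
    Pool.Agent.Helper79.FE.val_int v hB x (Algebra.IsIntegral.isIntegral x)
  obtain ⟨y, hy⟩ := hv.1 (WithZero.exp (1 : ℤ))
  have h2 := hall y
  rw [hy, ← WithZero.exp_zero, WithZero.exp_le_exp] at h2
  omega

omit [IsAlgClosed k] [CharZero k] in
theorem z_ne {v : Valuation E ℤᵐ⁰} {z : E} (hz : v z = WithZero.exp (-1 : ℤ)) : z ≠ 0 := by
  rintro rfl
  rw [map_zero] at hz
  exact WithZero.exp_ne_zero hz.symm

omit [IsAlgClosed k] [CharZero k] in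
theorem z_trans {v : Valuation E ℤᵐ⁰} (hv : v ∈ VN k E) {z : E}
    (hz : v z = WithZero.exp (-1 : ℤ)) : Transcendental k z := by
  intro halg
  have h2 := Pool.Agent.Helper79.FE.val_int v (vk_le hv) z⁻¹ halg.inv.isIntegral
  rw [map_inv₀, hz, ← WithZero.exp_neg, ← WithZero.exp_zero, WithZero.exp_le_exp] at h2
  omega

omit [IsAlgClosed k] in
/-- the derivation is bounded on the elements of value at most one -/
theorem der_bdd (hE : IsFun k E) {v : Valuation E ℤᵐ⁰} (hv : v ∈ VN k E) {z : E}
    (hz : v z = WithZero.exp (-1 : ℤ)) (D : Derivation ℤ E E)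
    (hD : ∀ c : k, ∃ c' : k, D (algebraMap k E c) = algebraMap k E c') :
    ∃ M : ℤᵐ⁰, ∀ a : E, v a ≤ 1 → v (D a) ≤ M := by
  have hzt := z_trans hv hz
  have hz1 : v z ≤ 1 := by rw [hz, ← WithZero.exp_zero, WithZero.exp_le_exp]; omega
  obtain ⟨w, hw, hfin⟩ := hE
  have hfa := Pool.Agent.Helper79.FE.fin_adj w z hw hzt
  obtain ⟨hded, hfrac⟩ := Pool.Agent.Helper79.FE.ded_closure z hzt
  have hpid := Pool.Agent.Helper79.FE.pid_adjoin z hzt
  have hsep : Algebra.IsSeparable k⟮z⟯ E := by
    have : CharZero k⟮z⟯ := charZero_of_injective_algebraMap (algebraMap k k⟮z⟯).injective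
    infer_instance
  have hBf : Module.Finite (Algebra.adjoin k {z}) (integralClosure (Algebra.adjoin k {z}) E) :=
    IsIntegralClosure.finite (Algebra.adjoin k {z}) k⟮z⟯ E (integralClosure (Algebra.adjoin k {z}) E)
  -- on `k[z]`
  have hA : ∀ x ∈ Algebra.adjoin k {z}, v x ≤ 1 ∧ v (D x) ≤ max 1 (v (D z)) := by
    intro x hx
    induction hx using Algebra.adjoin_induction with
    | mem x hx =>
      rw [Set.mem_singleton_iff] at hx
      rw [hx]
      exact ⟨hz1, le_max_right _ _⟩
    | algebraMap r =>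
      obtain ⟨c', hc'⟩ := hD r
      rw [hc']
      exact ⟨vk_le hv _, (vk_le hv _).trans (le_max_left _ _)⟩
    | add x y _ _ hx hy =>
      refine ⟨(v.map_add x y).trans (max_le hx.1 hy.1), ?_⟩
      rw [map_add]
      exact (v.map_add _ _).trans (max_le hx.2 hy.2)
    | mul x y _ _ hx hy =>
      rw [Derivation.leibniz, smul_eq_mul, smul_eq_mul]
      refine ⟨by rw [map_mul]; exact mul_le_one' hx.1 hy.1, (v.map_add _ _).trans (max_le ?_ ?_)⟩
      · rw [map_mul]; exact (mul_le_of_le_one_left' hx.1).trans hy.2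
      · rw [map_mul]; exact (mul_le_of_le_one_left' hy.1).trans hx.2
  -- on the integral closure
  have hB1 : ∀ x : integralClosure (Algebra.adjoin k {z}) E, v (x : E) ≤ 1 := fun x =>
    Pool.Agent.Helper79.FE.val_int (B := Algebra.adjoin k {z}) v (fun b => (hA b b.2).1) _ x.2
  obtain ⟨s, hs⟩ := hBf.fg_top
  obtain ⟨M0, hM0⟩ := Finset.exists_le (s.image fun b : integralClosure (Algebra.adjoin k {z}) E => v (D (b : E)))
  obtain ⟨M, hM⟩ : ∃ M, M = max M0 (max 1 (v (D z))) := ⟨_, rfl⟩
  have hB2 : ∀ x : integralClosure (Algebra.adjoin k {z}) E, v (D (x : E)) ≤ M := by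
    intro x
    have hx : x ∈ Submodule.span (Algebra.adjoin k {z})
        (s : Set (integralClosure (Algebra.adjoin k {z}) E)) := by rw [hs]; trivial
    induction hx using Submodule.span_induction with
    | mem x hx =>
      refine (hM0 _ (Finset.mem_image.2 ⟨x, hx, rfl⟩)).trans ?_
      rw [hM]; exact le_max_left _ _
    | zero => rw [show ((0 : integralClosure (Algebra.adjoin k {z}) E) : E) = 0 from rfl, map_zero,
        map_zero]; exact zero_le
    | add x y _ _ hx hy =>
      rw [show ((x + y : integralClosure (Algebra.adjoin k {z}) E) : E) = x + y from rfl, map_add]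
      exact (v.map_add _ _).trans (max_le hx hy)
    | smul a x _ hx =>
      rw [show ((a • x : integralClosure (Algebra.adjoin k {z}) E) : E) = (a : E) * (x : E) from rfl,
        Derivation.leibniz, smul_eq_mul, smul_eq_mul]
      refine (v.map_add _ _).trans (max_le ?_ ?_)
      · rw [map_mul]; exact (mul_le_of_le_one_left' (hA a a.2).1).trans hx
      · rw [map_mul]
        refine (mul_le_of_le_one_left' (hB1 x)).trans ((hA a a.2).2.trans ?_)
        rw [hM]; exact le_max_right _ _
  refine ⟨M, fun a ha => ?_⟩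
  obtain ⟨p, q, hq, hpq⟩ := frac_unit (C := integralClosure (Algebra.adjoin k {z}) E) v hB1 ha
  have h1 := congrArg D hpq
  rw [Derivation.leibniz, smul_eq_mul, smul_eq_mul] at h1
  have h2 : algebraMap (integralClosure (Algebra.adjoin k {z}) E) E q * D a =
      D (algebraMap (integralClosure (Algebra.adjoin k {z}) E) E p) -
        a * D (algebraMap (integralClosure (Algebra.adjoin k {z}) E) E q) := by
    rw [← h1]; ring
  have h3 := congrArg v h2
  rw [map_mul, hq, one_mul] at h3
  rw [h3]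
  refine (v.map_sub _ _).trans (max_le (hB2 p) ?_)
  rw [map_mul]
  exact (mul_le_of_le_one_left' ha).trans (hB2 q)

omit [CharZero k] in
theorem step {v : Valuation E ℤᵐ⁰} (hE : IsFun k E) (hv : v ∈ VN k E) {z : E}
    (hz : v z = WithZero.exp (-1 : ℤ)) {a : E} (ha : v a ≤ 1) :
    ∃ (c : k) (a' : E), v a' ≤ 1 ∧ a = algebraMap k E c + z * a' := by
  obtain ⟨c, hc⟩ := exists_res hE hv ha
  have hz0 := z_ne hz
  refine ⟨c, (a - algebraMap k E c) / z, ?_, by field_simp; ring⟩
  rw [map_div₀, hz]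
  by_cases h0 : v (a - algebraMap k E c) = 0
  · rw [h0, zero_div]; exact zero_le
  · rw [← WithZero.exp_log h0, ← WithZero.exp_sub, ← WithZero.exp_zero, WithZero.exp_le_exp]
    rw [← WithZero.exp_log h0, ← WithZero.exp_zero, WithZero.exp_lt_exp] at hc
    omega

theorem der_le (hE : IsFun k E) {v : Valuation E ℤᵐ⁰} (hv : v ∈ VN k E) {z : E}
    (hz : v z = WithZero.exp (-1 : ℤ)) (D : Derivation ℤ E E)
    (hD : ∀ c : k, ∃ c' : k, D (algebraMap k E c) = algebraMap k E c') {a : E} (ha : v a ≤ 1) :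
    v (D a) ≤ max 1 (v (D z)) := by
  obtain ⟨M, hM⟩ := der_bdd hE hv hz D hD
  obtain ⟨j, hj⟩ : ∃ j : ℕ, M ≤ WithZero.exp (j : ℤ) := by
    by_cases h0 : M = 0
    · exact ⟨0, by rw [h0]; exact zero_le⟩
    · refine ⟨(WithZero.log M).toNat, ?_⟩
      rw [← WithZero.exp_log h0, WithZero.exp_le_exp, WithZero.log_exp]
      exact Int.self_le_toNat _
  have key : ∀ n : ℕ, ∀ a : E, v a ≤ 1 → v (D a) ≤ max (max 1 (v (D z))) (WithZero.exp ((j : ℤ) - n)) := by
    intro n
    induction n with
    | zero =>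
      intro a ha
      refine ((hM a ha).trans hj).trans ?_
      rw [Nat.cast_zero, sub_zero]
      exact le_max_right _ _
    | succ n ih =>
      intro a ha
      obtain ⟨c, a', ha', rfl⟩ := step hE hv hz ha
      obtain ⟨c', hc'⟩ := hD c
      rw [map_add, hc', Derivation.leibniz, smul_eq_mul, smul_eq_mul]
      refine (v.map_add _ _).trans (max_le ?_ ((v.map_add _ _).trans (max_le ?_ ?_)))
      · exact (vk_le hv _).trans ((le_max_left _ _).trans (le_max_left _ _))
      · rw [map_mul, hz]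
        have h1 := ih a' ha'
        rcases le_max_iff.1 h1 with h2 | h2
        · refine le_trans ?_ (le_max_left _ _)
          refine (mul_le_of_le_one_left' ?_).trans h2
          rw [← WithZero.exp_zero, WithZero.exp_le_exp]; omega
        · refine le_trans ?_ (le_max_right _ _)
          refine (mul_le_mul_right h2 _).trans (le_of_eq ?_)
          rw [← WithZero.exp_add]
          congr 1
          push_cast
          ring
      · rw [map_mul]
        refine (mul_le_of_le_one_left' ha').trans ?_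
        exact (le_max_right _ _).trans (le_max_left _ _)
  have h1 := key j a ha
  rw [sub_self, WithZero.exp_zero, max_eq_left (le_max_left _ _)] at h1
  exact h1

omit [IsAlgClosed k] in
theorem v_int {v : Valuation E ℤᵐ⁰} (hv : v ∈ VN k E) {n : ℤ} (hn : n ≠ 0) : v (n : E) = 1 := by
  have h1 : (n : E) = algebraMap k E (n : k) := by simp
  rw [h1]
  exact hv.2 _ (by exact_mod_cast hn)

omit [IsAlgClosed k] [CharZero k] in
/-- the form `z ^ n * u` -/
theorem unif {v : Valuation E ℤᵐ⁰} {z : E} (hz : v z = WithZero.exp (-1 : ℤ)) {f : E} (hf0 : f ≠ 0) :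
    ∃ (n : ℤ) (u : E), v u = 1 ∧ f = z ^ n * u ∧ v f = WithZero.exp (-n) := by
  have hz0 := z_ne hz
  have hvf : v f ≠ 0 := (Valuation.ne_zero_iff v).2 hf0
  refine ⟨-WithZero.log (v f), z ^ (WithZero.log (v f)) * f, ?_, ?_, ?_⟩
  · rw [map_mul, map_zpow₀, hz, ← WithZero.exp_zsmul, smul_eq_mul]
    conv_lhs => rw [← WithZero.exp_log hvf]
    rw [WithZero.log_exp, ← WithZero.exp_add, ← WithZero.exp_zero]
    congr 1
    ring
  · rw [← mul_assoc, ← zpow_add₀ hz0, neg_add_cancel, zpow_zero, one_mul]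
  · rw [neg_neg, WithZero.exp_log hvf]

omit [IsAlgClosed k] [CharZero k] in
theorem der_unif {z : E} (hz0 : z ≠ 0) (D : Derivation ℤ E E) (n : ℤ) (u : E) :
    D (z ^ n * u) = z ^ n * (D u + n * (D z / z) * u) := by
  rw [Derivation.leibniz, Derivation.leibniz_zpow, smul_eq_mul, smul_eq_mul, smul_eq_mul, zsmul_eq_mul,
    zpow_sub_one₀ hz0]
  field_simp

theorem der_log (hE : IsFun k E) {v : Valuation E ℤᵐ⁰} (hv : v ∈ VN k E) {z : E}
    (hz : v z = WithZero.exp (-1 : ℤ)) (D : Derivation ℤ E E)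
    (hD : ∀ c : k, ∃ c' : k, D (algebraMap k E c) = algebraMap k E c') {f : E} (hf0 : f ≠ 0)
    (hf : v f ≠ 1) (hDf : v (D f) ≤ v f) : v (D z) ≤ v z := by
  obtain ⟨n, u, hu, rfl, hvf⟩ := unif hz hf0
  have hz0 := z_ne hz
  have hn : n ≠ 0 := by
    rintro rfl
    rw [zpow_zero, one_mul] at hf
    exact hf hu
  by_contra hcon
  push Not at hcon
  have hvz : v z ≠ 0 := (Valuation.ne_zero_iff v).2 hz0
  have hvn : v (z ^ n) ≠ 0 := by rw [map_zpow₀]; exact zpow_ne_zero _ hvz
  rw [der_unif hz0, map_mul, map_mul (v) (z ^ n) u, hu, mul_one] at hDf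
  have h1 : v (D u + n * (D z / z) * u) ≤ 1 := by
    by_contra hc
    push Not at hc
    have h7 := (mul_lt_mul_iff_right₀ (zero_lt_iff.2 hvn)).2 hc
    rw [mul_one] at h7
    exact absurd hDf (not_le.2 h7)
  have hDu := der_le hE hv hz D hD hu.le
  have hvDz : v (D z) ≠ 0 := (zero_le.trans_lt hcon).ne'
  have h2 : v (n * (D z / z) * u) = v (D z) * WithZero.exp (1 : ℤ) := by
    rw [map_mul, map_mul, v_int hv hn, hu, map_div₀, hz, one_mul, mul_one, div_eq_mul_inv,
      ← WithZero.exp_neg, neg_neg]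
  have h3 : 1 ≤ v (D z) := by
    rw [hz, ← WithZero.exp_log hvDz, WithZero.exp_lt_exp] at hcon
    rw [← WithZero.exp_log hvDz, ← WithZero.exp_zero, WithZero.exp_le_exp]
    omega
  rw [max_eq_right h3] at hDu
  have h4 : v (D z) < v (n * (D z / z) * u) := by
    rw [h2]
    conv_lhs => rw [← mul_one (v (D z))]
    refine (mul_lt_mul_iff_right₀ (zero_lt_iff.2 hvDz)).2 ?_
    rw [← WithZero.exp_zero, WithZero.exp_lt_exp]; omega
  have h5 : v (D u + n * (D z / z) * u) = v (n * (D z / z) * u) :=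
    Valuation.map_add_eq_of_lt_right v (hDu.trans_lt h4)
  rw [h5] at h1
  exact absurd (h3.trans_lt h4) (not_lt.2 h1)

theorem der_le_self (hE : IsFun k E) {v : Valuation E ℤᵐ⁰} (hv : v ∈ VN k E) {z : E}
    (hz : v z = WithZero.exp (-1 : ℤ)) (D : Derivation ℤ E E)
    (hD : ∀ c : k, ∃ c' : k, D (algebraMap k E c) = algebraMap k E c')
    (hDz : v (D z) ≤ v z) (a : E) : v (D a) ≤ v a := by
  by_cases ha : a = 0
  · rw [ha, map_zero]
  obtain ⟨n, u, hu, rfl, hvf⟩ := unif hz ha
  have hz0 := z_ne hz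
  have hz1 : v z ≤ 1 := by rw [hz, ← WithZero.exp_zero, WithZero.exp_le_exp]; omega
  have hvz : v z ≠ 0 := (Valuation.ne_zero_iff v).2 hz0
  have hDu := der_le hE hv hz D hD hu.le
  rw [max_eq_left (hDz.trans hz1)] at hDu
  rw [der_unif hz0, map_mul, map_mul (v) (z ^ n) u, hu]
  refine mul_le_mul_right ?_ _
  refine (v.map_add _ _).trans (max_le hDu ?_)
  rw [map_mul, map_mul, hu, mul_one, map_div₀]
  refine mul_le_one' ?_ ?_
  · by_cases hn : n = 0
    · rw [hn, Int.cast_zero, map_zero]; exact zero_le_one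
    · rw [v_int hv hn]
  · exact (div_le_one₀ (zero_lt_iff.2 hvz)).2 hDz

theorem der_lt_one (hE : IsFun k E) {v : Valuation E ℤᵐ⁰} (hv : v ∈ VN k E) {z : E}
    (hz : v z = WithZero.exp (-1 : ℤ)) (D : Derivation ℤ E E)
    (hD : ∀ c : k, D (algebraMap k E c) = 0)
    (hDz : v (D z) ≤ v z) {a : E} (ha : v a ≤ 1) : v (D a) < 1 := by
  obtain ⟨c, a', ha', rfl⟩ := step hE hv hz ha
  have hD' : ∀ c : k, ∃ c' : k, D (algebraMap k E c) = algebraMap k E c' := fun c =>
    ⟨0, by rw [hD, map_zero]⟩
  have hz1 : v z < 1 := by rw [hz, ← WithZero.exp_zero, WithZero.exp_lt_exp]; omega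
  have hDa := der_le_self hE hv hz D hD' hDz a'
  rw [map_add, hD, zero_add, Derivation.leibniz, smul_eq_mul, smul_eq_mul]
  refine Valuation.map_add_lt v ?_ ?_
  · rw [map_mul]
    exact (mul_le_of_le_one_right' (hDa.trans ha')).trans_lt hz1
  · rw [map_mul]
    exact ((mul_le_of_le_one_left' ha').trans hDz).trans_lt hz1

end

end Pool.Agent.Helper79.RG
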