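import Pool.Agent.Helper79.RG.M9

set_option autoImplicit false

/-!
# Composita of `L0` with intermediate fields
-/

set_option linter.unusedSectionVars false

namespace Pool.Agent.Helper79.RG

open scoped WithZero IntermediateField.algebraAdjoinAdjoin
open IntermediateField IsDedekindDomain
open Pool.Agent.Helper79.FE

universe u

section frac

variable {K L0 L : Type*} [Field K] [Field L0] [Field L] [Algebra K L] [Algebra L0 L]

/-- quotients of elements of `RR` -/
def FrR (K L0 : Type*) {L : Type*} [Field K] [Field L0] [Field L] [Algebra K L] [Algebra L0 L] (a : L) : Prop :=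
  ∃ p q : L, p ∈ RR K L0 L ∧ q ∈ RR K L0 L ∧ q ≠ 0 ∧ a = p / q

theorem FrR.of {a : L} (ha : a ∈ RR K L0 L) : FrR K L0 a :=
  ⟨a, 1, ha, by have := RR_K (L0 := L0) (L := L) (1 : K); rwa [map_one] at this, one_ne_zero, by rw [div_one]⟩

theorem FrR.add {a b : L} (ha : FrR K L0 a) (hb : FrR K L0 b) : FrR K L0 (a + b) := by
  obtain ⟨p, q, hp, hq, hq0, rfl⟩ := ha
  obtain ⟨p', q', hp', hq', hq0', rfl⟩ := hb
  exact ⟨p * q' + q * p', q * q', add_mem (RR_mul hp hq') (RR_mul hq hp'), RR_mul hq hq', mul_ne_zero hq0 hq0',
    div_add_div _ _ hq0 hq0'⟩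

theorem FrR.mul {a b : L} (ha : FrR K L0 a) (hb : FrR K L0 b) : FrR K L0 (a * b) := by
  obtain ⟨p, q, hp, hq, hq0, rfl⟩ := ha
  obtain ⟨p', q', hp', hq', hq0', rfl⟩ := hb
  exact ⟨p * p', q * q', RR_mul hp hp', RR_mul hq hq', mul_ne_zero hq0 hq0', div_mul_div_comm _ _ _ _⟩

theorem FrR.inv {a : L} (ha : FrR K L0 a) : FrR K L0 a⁻¹ := by
  obtain ⟨p, q, hp, hq, hq0, rfl⟩ := ha
  by_cases h : p = 0
  · rw [h, zero_div, inv_zero]
    exact FrR.of (zero_mem _)
  · exact ⟨q, p, hq, hp, h, by rw [inv_div]⟩

end frac

section

variable {k F K L0 : Type*} {L : Type u} [Field k] [Field F] [Field K] [Field L0] [Field L]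
  [Algebra k F] [Algebra F K] [Algebra k K] [IsScalarTower k F K]
  [Algebra k L0] [Algebra k L] [Algebra F L] [Algebra K L] [Algebra L0 L] [IsScalarTower k F L]
  [IsScalarTower k K L] [IsScalarTower F K L] [IsScalarTower k L0 L]

/-- the compositum of an intermediate field with `L0` -/
theorem exists_comp (hP : IsProd k K L0 L) : ∃ (E : Type u) (_ : Field E) (_ : Algebra k E) (_ : Algebra F E)
    (_ : Algebra L0 E) (_ : Algebra E L) (_ : IsScalarTower k F E) (_ : IsScalarTower k L0 E)
    (_ : IsScalarTower F E L) (_ : IsScalarTower L0 E L) (_ : IsScalarTower k E L), IsProd k F L0 E ∧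
      IsProd F K E L ∧ ∀ a ∈ RR F L0 L, ∃ b : E, algebraMap E L b = a := by
  let E := IntermediateField.adjoin F (Set.range (algebraMap L0 L))
  let i0 : L0 →+* E := (algebraMap L0 L).codRestrict E.toSubring.toSubsemiring
    (fun h => IntermediateField.subset_adjoin _ _ ⟨h, rfl⟩)
  let aL0 : Algebra L0 E := i0.toAlgebra
  have t1 : IsScalarTower k F E := inferInstance
  have t4 : IsScalarTower L0 E L := IsScalarTower.of_algebraMap_eq' rfl
  have t3 : IsScalarTower F E L := inferInstance
  have t5 : IsScalarTower k E L := IsScalarTower.of_algebraMap_eq fun c => by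
    rw [IsScalarTower.algebraMap_apply k F E, ← IsScalarTower.algebraMap_apply F E L,
      ← IsScalarTower.algebraMap_apply k F L]
  have t2 : IsScalarTower k L0 E := IsScalarTower.of_algebraMap_eq fun c => by
    apply (algebraMap E L).injective
    rw [← IsScalarTower.algebraMap_apply k E L, ← IsScalarTower.algebraMap_apply L0 E L,
      ← IsScalarTower.algebraMap_apply k L0 L]
  have hRRE : ∀ a ∈ RR F L0 L, ∃ b : E, b ∈ RR F L0 E ∧ algebraMap E L b = a := by
    intro a ha
    obtain ⟨n, κ, h, rfl⟩ := rep_aux ha
    refine ⟨∑ i, algebraMap F E (κ i) * algebraMap L0 E (h i), sum_mem fun i _ => RR_mul (RR_K _) (RR_L0 _), ?_⟩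
    rw [map_sum]
    refine Finset.sum_congr rfl fun i _ => ?_
    rw [map_mul, ← IsScalarTower.algebraMap_apply F E L, ← IsScalarTower.algebraMap_apply L0 E L]
  have hFr : ∀ a : L, a ∈ E → FrR F L0 a := by
    intro a ha
    induction ha using IntermediateField.adjoin_induction with
    | mem x hx =>
      obtain ⟨h, rfl⟩ := hx
      exact FrR.of (RR_L0 h)
    | algebraMap x => exact FrR.of (RR_K x)
    | add x y _ _ hx hy => exact hx.add hy
    | mul x y _ _ hx hy => exact hx.mul hy
    | inv x _ h => exact h.inv
  have hP1 : IsProd k F L0 E := by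
    refine ⟨fun n h hh => ?_, fun a => ?_⟩
    · have h1 := hP.ld n h hh
      have h2 : LinearIndependent F (fun i => algebraMap L0 L (h i)) := by
        refine h1.restrict_scalars ?_
        intro a b hab
        have : algebraMap F K a = algebraMap F K b := by
          simpa [Algebra.smul_def] using hab
        exact (algebraMap F K).injective this
      exact LinearIndependent.of_comp (IsScalarTower.toAlgHom F E L).toLinearMap h2
    · obtain ⟨p, q, hp, hq, hq0, hpq⟩ := hFr a a.2
      obtain ⟨p', hp', rfl⟩ := hRRE p hp
      obtain ⟨q', hq', rfl⟩ := hRRE q hq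
      refine ⟨p', q', hp', hq', fun h => hq0 (by rw [h, map_zero]), ?_⟩
      apply (algebraMap E L).injective
      rw [map_div₀]
      exact hpq
  have hP2 : IsProd F E K L := by
    refine ⟨fun n κ hκ => ?_, fun a => ?_⟩
    · -- a basis of `L0`
      let β := Module.Basis.ofVectorSpace k L0
      have hβ := hP.ld' β.linearIndependent
      have hspan : ∀ p ∈ RR F L0 E, ∃ c : Module.Basis.ofVectorSpaceIndex k L0 →₀ F,
          algebraMap E L p = Finsupp.linearCombination F (fun j => algebraMap L0 L (β j)) c := by
        intro p hp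
        have h1 : algebraMap E L p ∈ Submodule.span F (Set.range fun j => algebraMap L0 L (β j)) := by
          induction hp using Submodule.span_induction with
          | mem x hx =>
            obtain ⟨h, rfl⟩ := hx
            rw [← IsScalarTower.algebraMap_apply L0 E L, ← β.linearCombination_repr h,
              Finsupp.linearCombination_apply, Finsupp.sum, map_sum]
            refine sum_mem fun j _ => ?_
            rw [Algebra.smul_def, map_mul, ← IsScalarTower.algebraMap_apply k L0 L,
              IsScalarTower.algebraMap_apply k F L, ← Algebra.smul_def]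
            exact Submodule.smul_mem _ _ (Submodule.subset_span ⟨j, rfl⟩)
          | zero => rw [map_zero]; exact zero_mem _
          | add x y _ _ hx hy => rw [map_add]; exact add_mem hx hy
          | smul c x _ hx =>
            rw [Algebra.smul_def, map_mul, ← IsScalarTower.algebraMap_apply F E L, ← Algebra.smul_def]
            exact Submodule.smul_mem _ _ hx
        obtain ⟨c, hc⟩ := (Finsupp.mem_span_range_iff_exists_finsupp).1 h1
        exact ⟨c, hc.symm⟩
      rw [Fintype.linearIndependent_iff]
      intro y hy
      choose p q hp hq hq0 hpq using fun i => hP1.gen (y i)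
      -- common denominator
      let Q := ∏ i, q i
      have hQ0 : Q ≠ 0 := Finset.prod_ne_zero_iff.2 fun i _ => hq0 i
      have hprod : ∀ s : Finset (Fin n), ∏ i ∈ s, q i ∈ RR F L0 E := by
        classical
        intro s
        induction s using Finset.induction_on with
        | empty =>
          have := RR_K (L0 := L0) (L := E) (1 : F)
          rw [map_one] at this
          rwa [Finset.prod_empty]
        | insert a s ha ih => rw [Finset.prod_insert ha]; exact RR_mul (hq _) ih
      have hQy : ∀ i, Q * y i ∈ RR F L0 E := by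
        classical
        intro i
        have h1 : Q = q i * ∏ j ∈ Finset.univ.erase i, q j := (Finset.mul_prod_erase _ _ (Finset.mem_univ i)).symm
        have h2 : Q * y i = p i * ∏ j ∈ Finset.univ.erase i, q j := by
          rw [h1]
          conv_lhs => rw [hpq i]
          field_simp [hq0 i]
        rw [h2]
        exact RR_mul (hp i) (hprod _)
      choose c hc using fun i => hspan _ (hQy i)
      let ℓ : Module.Basis.ofVectorSpaceIndex k L0 →₀ K :=
        ∑ i, κ i • (c i).mapRange (algebraMap F K) (map_zero _)
      have hℓ : Finsupp.linearCombination K (fun j => algebraMap L0 L (β j)) ℓ = 0 := by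
        rw [map_sum]
        have h1 : ∀ i, Finsupp.linearCombination K (fun j => algebraMap L0 L (β j))
            (κ i • (c i).mapRange (algebraMap F K) (map_zero _)) = algebraMap K L (κ i) * algebraMap E L (Q * y i) := by
          intro i
          rw [map_smul, Algebra.smul_def, hc]
          congr 1
          rw [Finsupp.linearCombination_apply, Finsupp.linearCombination_apply,
            Finsupp.sum_mapRange_index (by intro j; rw [zero_smul])]
          refine Finsupp.sum_congr fun j _ => ?_
          rw [Algebra.smul_def, Algebra.smul_def, ← IsScalarTower.algebraMap_apply F K L]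
        rw [Finset.sum_congr rfl fun i _ => h1 i]
        have h2 : ∑ i, algebraMap K L (κ i) * algebraMap E L (Q * y i) =
            algebraMap E L Q * ∑ i, y i • algebraMap K L (κ i) := by
          rw [Finset.mul_sum]
          refine Finset.sum_congr rfl fun i _ => ?_
          rw [map_mul, Algebra.smul_def]
          ring
        rw [h2, hy, mul_zero]
      have hℓ0 : ℓ = 0 := (linearIndependent_iff.1 hβ) _ hℓ
      have hc0 : ∀ i j, c i j = 0 := by
        intro i j
        have h1 := congrArg (fun X => X j) hℓ0
        simp only [ℓ, Finsupp.finsetSum_apply, Finsupp.smul_apply, Finsupp.mapRange_apply, smul_eq_mul,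
          Finsupp.coe_zero, Pi.zero_apply] at h1
        refine (Fintype.linearIndependent_iff.1 hκ) (fun i => c i j) ?_ i
        rw [← h1]
        refine Finset.sum_congr rfl fun i _ => ?_
        rw [Algebra.smul_def, mul_comm]
      intro i
      have h3 : algebraMap E L (Q * y i) = 0 := by
        rw [hc, show c i = 0 from Finsupp.ext (hc0 i), map_zero]
      have h4 : Q * y i = 0 := (map_eq_zero _).1 h3
      exact (mul_eq_zero.1 h4).resolve_left hQ0
    · obtain ⟨p, q, hp, hq, hq0, rfl⟩ := hP.gen a
      have h1 : ∀ p ∈ RR K L0 L, p ∈ RR E K L := by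
        intro p hp
        obtain ⟨n, κ, h, rfl⟩ := rep_aux hp
        refine sum_mem fun i _ => RR_mul (RR_L0 _) ?_
        rw [IsScalarTower.algebraMap_apply L0 E L]
        exact RR_K _
      exact ⟨p, q, h1 p hp, h1 q hq, hq0, rfl⟩
  refine ⟨E, inferInstance, inferInstance, inferInstance, aL0, inferInstance, t1, t2, t3, t4, t5, hP1, hP2.symm,
    fun a ha => ?_⟩
  obtain ⟨b, _, hb⟩ := hRRE a ha
  exact ⟨b, hb⟩

end

end Pool.Agent.Helper79.RG
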