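import Pool.Agent.Helper79.RG.M10

set_option autoImplicit false

/-!
# Rigidity of unramified symbols when `K` is algebraic over `k(t)`
-/

set_option linter.unusedSectionVars false

namespace Pool.Agent.Helper79.RG

open scoped WithZero IntermediateField.algebraAdjoinAdjoin
open IntermediateField IsDedekindDomain
open Pool.Agent.Helper79.FE
open Pool.Agent.TH826.MK (KQ symb unitPart)
open Pool.Agent.Helper537_Sym (sy eq_cons)

universe u

/-- finitely generated subfields are function fields -/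
theorem isFun_adjoin {k K : Type*} [Field k] [Field K] [Algebra k K] {t : K} (ht : Transcendental k t)
    (hta : Algebra.IsAlgebraic k⟮t⟯ K) (T : Set K) (hT : T.Finite) (htT : t ∈ T) :
    Transcendental k (⟨t, IntermediateField.subset_adjoin k T htT⟩ : IntermediateField.adjoin k T) ∧
    FiniteDimensional k⟮(⟨t, IntermediateField.subset_adjoin k T htT⟩ : IntermediateField.adjoin k T)⟯
      (IntermediateField.adjoin k T) := by
  set F := IntermediateField.adjoin k T with hF
  set w : F := ⟨t, IntermediateField.subset_adjoin k T htT⟩ with hw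
  have hwt : Transcendental k w := by
    rintro ⟨p, hp0, hp⟩
    refine ht ⟨p, hp0, ?_⟩
    have h3 := congrArg (algebraMap F K) hp
    rw [Polynomial.aeval_def, Polynomial.hom_eval₂, map_zero, ← IsScalarTower.algebraMap_eq] at h3
    rw [Polynomial.aeval_def]
    exact h3
  have hmem : ∀ a : K, a ∈ k⟮t⟯ → ∃ b ∈ k⟮w⟯, ((b : F) : K) = a := by
    intro a ha
    induction ha using IntermediateField.adjoin_induction with
    | mem y hy =>
      rw [Set.mem_singleton_iff] at hy
      exact ⟨w, IntermediateField.mem_adjoin_simple_self _ _, hy.symm⟩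
    | algebraMap y => exact ⟨algebraMap k F y, IntermediateField.algebraMap_mem _ _, rfl⟩
    | add a b _ _ hx hy =>
      obtain ⟨x, hx1, hx2⟩ := hx
      obtain ⟨y, hy1, hy2⟩ := hy
      exact ⟨x + y, add_mem hx1 hy1, by rw [← hx2, ← hy2]; rfl⟩
    | mul a b _ _ hx hy =>
      obtain ⟨x, hx1, hx2⟩ := hx
      obtain ⟨y, hy1, hy2⟩ := hy
      exact ⟨x * y, mul_mem hx1 hy1, by rw [← hx2, ← hy2]; rfl⟩
    | inv a _ hx =>
      obtain ⟨x, hx1, hx2⟩ := hx
      exact ⟨x⁻¹, inv_mem hx1, by rw [← hx2]; rfl⟩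
  have hfE : ∀ a : K, a ∈ k⟮t⟯ → a ∈ F := fun a ha => by
    obtain ⟨b, _, rfl⟩ := hmem a ha
    exact b.2
  have hwa : Algebra.IsAlgebraic k⟮w⟯ F := by
    constructor
    intro e
    let i : k⟮t⟯ →+* k⟮w⟯ :=
      { toFun := fun a => ⟨⟨a, hfE a a.2⟩, by
          obtain ⟨b, hb1, hb2⟩ := hmem a a.2
          have : (⟨a, hfE a a.2⟩ : F) = b := Subtype.ext hb2.symm
          rw [this]
          exact hb1⟩
        map_one' := rfl
        map_mul' := fun a b => rfl
        map_zero' := rfl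
        map_add' := fun a b => rfl }
    exact alg_transfer i (algebraMap F K) (fun a => rfl) (hta.isAlgebraic (e : K))
  refine ⟨hwt, fd_of_gen k⟮w⟯ (Subtype.val ⁻¹' T) (hT.preimage Subtype.val_injective.injOn) ?_⟩
  rw [eq_top_iff]
  rintro ⟨x, hx⟩ _
  induction hx using IntermediateField.adjoin_induction with
  | mem y hy => exact IntermediateField.subset_adjoin _ _ hy
  | algebraMap y => exact IntermediateField.algebraMap_mem _ y
  | add a b _ _ hx hy => exact add_mem (hx trivial) (hy trivial)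
  | mul a b _ _ hx hy => exact mul_mem (hx trivial) (hy trivial)
  | inv a _ hx => exact inv_mem (hx trivial)

section

variable {k K L0 : Type*} {L : Type u} [Field k] [IsAlgClosed k] [CharZero k] [Field K] [Field L0] [Field L]
  [Algebra k K] [Algebra k L0] [Algebra k L] [Algebra K L] [Algebra L0 L] [IsScalarTower k K L]
  [IsScalarTower k L0 L]

theorem rigid_one (hP : IsProd k K L0 L) (hL0 : IsFun k L0) {t : K} (ht : Transcendental k t)
    (hta : Algebra.IsAlgebraic k⟮t⟯ K) (f g : Lˣ) (hfg : ∀ v ∈ VN K L, sy f g ∈ unitPart v 2) :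
    ¬ AlgebraicIndependent k ![(f : L), (g : L)] := by
  obtain ⟨x, hx, hfinx⟩ := id hL0
  have hKc : CharZero K := charZero_of_injective_algebraMap (algebraMap k K).injective
  have hL0c : CharZero L0 := charZero_of_injective_algebraMap (algebraMap k L0).injective
  have hLc : CharZero L := charZero_of_injective_algebraMap (algebraMap k L).injective
  have hxa : Algebra.IsAlgebraic k⟮x⟯ L0 := Algebra.IsAlgebraic.of_finite k⟮x⟯ L0
  obtain ⟨dt, Dt, hdt, hdt1, hDt0, hDt⟩ := exists_pd hP t ht hta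
  obtain ⟨dx, Dx, hdx, hdx1, hDx0, hDx⟩ := exists_pd hP.symm x hx hxa
  obtain ⟨n, κ, h, hκ, hh, hW, hregh⟩ := partI hP hL0 hx dt Dt hDt0 hDt dx Dx hdx hdx1 hDx0 hDx f g hfg
  obtain ⟨p1, q1, hp1, hq1, hq10, hf⟩ := hP.gen (f : L)
  obtain ⟨p2, q2, hp2, hq2, hq20, hg⟩ := hP.gen (g : L)
  have hrep : ∀ p ∈ RR K L0 L, ∃ T : Set K, T.Finite ∧ ∀ F : IntermediateField k K, T ⊆ F → p ∈ RR F L0 L := by
    intro p hp
    obtain ⟨m, a, b, rfl⟩ := rep_aux hp
    refine ⟨Set.range a, Set.finite_range a, fun F hF => sum_mem fun i _ => RR_mul ?_ (RR_L0 _)⟩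
    have : algebraMap K L (a i) = algebraMap F L ⟨a i, hF ⟨i, rfl⟩⟩ := rfl
    rw [this]
    exact RR_K _
  obtain ⟨T1, hT1, hF1⟩ := hrep _ hp1
  obtain ⟨T2, hT2, hF2⟩ := hrep _ hq1
  obtain ⟨T3, hT3, hF3⟩ := hrep _ hp2
  obtain ⟨T4, hT4, hF4⟩ := hrep _ hq2
  let T : Set K := insert t (Set.range κ ∪ (T1 ∪ (T2 ∪ (T3 ∪ T4))))
  have hT : T.Finite := ((Set.finite_range κ).union (hT1.union (hT2.union (hT3.union hT4)))).insert t
  have htT : t ∈ T := Set.mem_insert _ _
  obtain ⟨hw1, hw2⟩ := isFun_adjoin ht hta T hT htT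
  let F := IntermediateField.adjoin k T
  let w : F := ⟨t, IntermediateField.subset_adjoin k T htT⟩
  have hTF : T ⊆ F := IntermediateField.subset_adjoin k T
  have hF : IsFun k F := ⟨w, hw1, hw2⟩
  have hsub1 : T1 ⊆ F := fun a ha => hTF (Or.inr (Or.inr (Or.inl ha)))
  have hsub2 : T2 ⊆ F := fun a ha => hTF (Or.inr (Or.inr (Or.inr (Or.inl ha))))
  have hsub3 : T3 ⊆ F := fun a ha => hTF (Or.inr (Or.inr (Or.inr (Or.inr (Or.inl ha)))))
  have hsub4 : T4 ⊆ F := fun a ha => hTF (Or.inr (Or.inr (Or.inr (Or.inr (Or.inr ha)))))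
  have hκF : ∀ i, κ i ∈ F := fun i => hTF (Or.inr (Or.inl ⟨i, rfl⟩))
  obtain ⟨E, _, _, _, _, _, _, _, _, _, _, hP1, _, hmem⟩ := exists_comp (F := F) hP
  have hfd : ∀ (a p q : L), p ∈ RR F L0 L → q ∈ RR F L0 L → a = p / q → ∃ b : E, algebraMap E L b = a := by
    intro a p q hp hq h
    obtain ⟨p', rfl⟩ := hmem p hp
    obtain ⟨q', rfl⟩ := hmem q hq
    exact ⟨p' / q', by rw [map_div₀]; exact h.symm⟩
  obtain ⟨f', hf'⟩ := hfd f p1 q1 (hF1 F hsub1) (hF2 F hsub2) hf
  obtain ⟨g', hg'⟩ := hfd g p2 q2 (hF3 F hsub3) (hF4 F hsub4) hg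
  have hf0 : f' ≠ 0 := by
    rintro rfl
    rw [map_zero] at hf'
    exact f.ne_zero hf'.symm
  have hg0 : g' ≠ 0 := by
    rintro rfl
    rw [map_zero] at hg'
    exact g.ne_zero hg'.symm
  have hFc : CharZero F := charZero_of_injective_algebraMap (algebraMap k F).injective
  have hEc : CharZero E := charZero_of_injective_algebraMap (algebraMap k E).injective
  have hwa : Algebra.IsAlgebraic k⟮w⟯ F := @Algebra.IsAlgebraic.of_finite k⟮w⟯ F _ _ _ _ hw2
  obtain ⟨dt', Dt', hdt', hdt1', hDt0', hDt'⟩ := exists_pd hP1 w hw1 hwa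
  obtain ⟨dx', Dx', hdx', hdx1', hDx0', hDx'⟩ := exists_pd hP1.symm x hx hxa
  have hdxeq : dx' = dx := der_eq (k := k) x hxa dx' dx (fun c => by rw [hdx', hdx]) (by rw [hdx1', hdx1])
  subst hdxeq
  have hFL : ∀ c : F, algebraMap F L c = algebraMap K L (algebraMap F K c) := fun c =>
    IsScalarTower.algebraMap_apply F K L c
  have hdtc : ∀ c : F, dt (algebraMap F K c) = algebraMap F K (dt' c) := by
    intro c
    have h1 := comp_der (k := k) (K0 := F) (t := w) hwa dt' hdt' hdt1' (algebraMap F K) dt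
      (fun c => by rw [← IsScalarTower.algebraMap_apply k F K]; exact hdt c) c
    rw [h1]
    have : algebraMap F K w = t := rfl
    rw [this, hdt1, one_mul]
  have hDtc : ∀ a : E, Dt (algebraMap E L a) = algebraMap E L (Dt' a) := by
    have h1 := der_eq_prod (E := L) hP1 (Dt.compAlgebraMap E) ((Algebra.linearMap E L).compDer Dt') (by
      intro c
      show Dt (algebraMap E L (algebraMap F E c)) = algebraMap E L (Dt' (algebraMap F E c))
      rw [hDt', ← IsScalarTower.algebraMap_apply F E L, ← IsScalarTower.algebraMap_apply F E L, hFL, hFL, hDt, hdtc]) (by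
      intro c
      show Dt (algebraMap E L (algebraMap L0 E c)) = algebraMap E L (Dt' (algebraMap L0 E c))
      rw [hDt0', map_zero, ← IsScalarTower.algebraMap_apply L0 E L, hDt0])
    exact fun a => congrArg (fun X => X a) h1
  have hDxc : ∀ a : E, Dx (algebraMap E L a) = algebraMap E L (Dx' a) := by
    have h1 := der_eq_prod (E := L) hP1 (Dx.compAlgebraMap E) ((Algebra.linearMap E L).compDer Dx') (by
      intro c
      show Dx (algebraMap E L (algebraMap F E c)) = algebraMap E L (Dx' (algebraMap F E c))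
      rw [hDx0', map_zero, ← IsScalarTower.algebraMap_apply F E L, hFL, hDx0]) (by
      intro c
      show Dx (algebraMap E L (algebraMap L0 E c)) = algebraMap E L (Dx' (algebraMap L0 E c))
      rw [hDx', ← IsScalarTower.algebraMap_apply L0 E L, ← IsScalarTower.algebraMap_apply L0 E L, hDx])
    exact fun a => congrArg (fun X => X a) h1
  have hW' : Wf Dt' Dx' (Units.mk0 f' hf0 : Eˣ) (Units.mk0 g' hg0 : Eˣ) =
      ∑ i, algebraMap F E ⟨κ i, hκF i⟩ * algebraMap L0 E (h i) := by
    apply (algebraMap E L).injective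
    have h1 : algebraMap E L (Wf Dt' Dx' (Units.mk0 f' hf0 : Eˣ) (Units.mk0 g' hg0 : Eˣ)) = Wf Dt Dx f g := by
      unfold Wf
      rw [Units.val_mk0, Units.val_mk0, map_div₀, map_sub, map_mul, map_mul, map_mul, ← hDtc, ← hDtc, ← hDxc, ← hDxc,
        hf', hg']
    rw [h1, hW, map_sum]
    refine Finset.sum_congr rfl fun i _ => ?_
    rw [map_mul, ← IsScalarTower.algebraMap_apply F E L, ← IsScalarTower.algebraMap_apply L0 E L]
    rfl
  have hregκ := fun i => partII hP1 hF hL0 dt' Dt' hdt' hdt1' hDt0' hDt' dx' Dx' hdx' hdx1' hDx0' hDx'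
    (Units.mk0 f' hf0) (Units.mk0 g' hg0) (fun i => ⟨κ i, hκF i⟩) h hh hW' hregh i
  have hfin := partIII hP1 hF hL0 hw1 hx dt' Dt' hdt' hdt1' hDt0' hDt' dx' Dx' hdx' hdx1' hDx0' hDx'
    (Units.mk0 f' hf0) (Units.mk0 g' hg0) (fun i => ⟨κ i, hκF i⟩) h hW' hregκ hregh
  intro hai
  refine hfin ?_
  refine AlgebraicIndependent.of_comp (IsScalarTower.toAlgHom k E L) ?_
  have h2 : ((IsScalarTower.toAlgHom k E L) ∘ ![((Units.mk0 f' hf0 : Eˣ) : E), ((Units.mk0 g' hg0 : Eˣ) : E)]) =
      ![(f : L), (g : L)] := by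
    funext i
    fin_cases i
    · exact hf'
    · exact hg'
  rw [h2]
  exact hai

end

end Pool.Agent.Helper79.RG
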