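import Pool.Agent.Helper79.RG.M11

set_option autoImplicit false

/-!
# Rigidity of unramified symbols over an arbitrary algebraically closed extension
-/

set_option linter.unusedSectionVars false

namespace Pool.Agent.Helper79.RG

open scoped WithZero IntermediateField.algebraAdjoinAdjoin
open IntermediateField IsDedekindDomain
open Pool.Agent.Helper79.FE
open Pool.Agent.TH826.MK (KQ symb unitPart)
open Pool.Agent.Helper537_Sym (sy eq_cons)

universe u

/-- inclusions of ranges give ring homomorphisms -/
theorem exists_hom {R1 R2 L : Type*} [CommRing R1] [CommRing R2] [Field L] [Algebra R1 L] [Algebra R2 L]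
    (h2 : Function.Injective (algebraMap R2 L)) (h : ∀ a : R1, ∃ b : R2, algebraMap R2 L b = algebraMap R1 L a) :
    ∃ i : R1 →+* R2, ∀ a, algebraMap R2 L (i a) = algebraMap R1 L a := by
  choose i hi using h
  exact ⟨{ toFun := i
           map_one' := h2 (by rw [hi, map_one, map_one])
           map_zero' := h2 (by rw [hi, map_zero, map_zero])
           map_add' := fun a b => h2 (by rw [hi, map_add, map_add, hi, hi])
           map_mul' := fun a b => h2 (by rw [hi, map_mul, map_mul, hi, hi]) }, hi⟩

theorem alg_of_range {R1 R2 L : Type*} [CommRing R1] [CommRing R2] [Field L] [Algebra R1 L] [Algebra R2 L]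
    (h1 : Function.Injective (algebraMap R1 L)) (h2 : Function.Injective (algebraMap R2 L))
    (h : ∀ a : R1, ∃ b : R2, algebraMap R2 L b = algebraMap R1 L a) {e : L} (he : IsAlgebraic R1 e) :
    IsAlgebraic R2 e := by
  obtain ⟨i, hi⟩ := exists_hom h2 h
  have hinj : Function.Injective i := fun a b hab => h1 (by rw [← hi, ← hi, hab])
  obtain ⟨p, hp0, hp⟩ := he
  refine ⟨p.map i, (Polynomial.map_ne_zero_iff hinj).2 hp0, ?_⟩
  rw [← hp, Polynomial.aeval_def, Polynomial.aeval_def, Polynomial.eval₂_map]
  congr 1
  ext a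
  exact hi a

theorem ai_of_range {R1 R2 L ι : Type*} [CommRing R1] [CommRing R2] [Field L] [Algebra R1 L] [Algebra R2 L]
    (h1 : Function.Injective (algebraMap R1 L)) (h2 : Function.Injective (algebraMap R2 L))
    (h : ∀ a : R1, ∃ b : R2, algebraMap R2 L b = algebraMap R1 L a) {x : ι → L} (hx : AlgebraicIndependent R2 x) :
    AlgebraicIndependent R1 x := by
  obtain ⟨i, hi⟩ := exists_hom h2 h
  have hinj : Function.Injective i := fun a b hab => h1 (by rw [← hi, ← hi, hab])
  refine AlgebraicIndependent.of_ringHom_of_comp_eq i (RingHom.id L) (x := x) hx hinj ?_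
  ext a
  exact hi a

/-- an algebraic element over an algebraically closed field is in the field -/
theorem mem_of_alg {K L : Type*} [Field K] [IsAlgClosed K] [Field L] [Algebra K L] {a : L} (ha : IsAlgebraic K a) :
    ∃ c : K, algebraMap K L c = a := by
  have h1 : (minpoly K a).degree = 1 :=
    IsAlgClosed.degree_eq_one_of_irreducible K (minpoly.irreducible ha.isIntegral)
  exact minpoly.mem_range_of_degree_eq_one K a h1

section

variable {k K L0 : Type*} {L : Type u} [Field k] [IsAlgClosed k] [CharZero k] [Field K] [IsAlgClosed K] [Field L0]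
  [Field L] [Algebra k K] [Algebra k L0] [Algebra k L] [Algebra K L] [Algebra L0 L] [IsScalarTower k K L]
  [IsScalarTower k L0 L]

theorem rigid_aux (hP : IsProd k K L0 L) (hL0 : IsFun k L0) (f g : Lˣ)
    (hfg : ∀ v ∈ VN K L, sy f g ∈ unitPart v 2) (hfK : ∀ a : K, algebraMap K L a ≠ f) :
    ¬ AlgebraicIndependent k ![(f : L), (g : L)] := by
  intro hai
  obtain ⟨x, hx, hfinx⟩ := id hL0
  have hKc : CharZero K := charZero_of_injective_algebraMap (algebraMap k K).injective
  have hft : Transcendental K (f : L) := fun h => by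
    obtain ⟨c, hc⟩ := mem_of_alg h
    exact hfK c hc
  have hLfun : IsFun K L := ⟨algebraMap L0 L x, hP.trans hx, hP.fin hx⟩
  have hfd : FiniteDimensional K⟮(f : L)⟯ L := hLfun.alg hft
  have hfa : Algebra.IsAlgebraic K⟮(f : L)⟯ L := Algebra.IsAlgebraic.of_finite _ _
  -- the sets
  let s : Set L := {(f : L), (g : L)}
  let t : Set L := s ∪ Set.range (algebraMap K L)
  have hrange : Set.range ![(f : L), (g : L)] = s := by
    simp [s, Set.pair_comm]
  have hs : AlgebraicIndepOn k id s := by
    have h1 := hai.to_subtype_range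
    rw [hrange] at h1
    exact h1
  have halg1 : Algebra.IsAlgebraic (Algebra.adjoin K {(f : L)}) L := by
    have : Algebra.IsAlgebraic (Algebra.adjoin K {(f : L)}) K⟮(f : L)⟯ := IsLocalization.isAlgebraic _ (nonZeroDivisors _)
    exact Algebra.IsAlgebraic.trans _ K⟮(f : L)⟯ _
  have ht : Algebra.IsAlgebraic (Algebra.adjoin k t) L := by
    constructor
    intro e
    refine alg_of_range (R1 := Algebra.adjoin K {(f : L)}) Subtype.val_injective Subtype.val_injective ?_
      (halg1.isAlgebraic e)
    rintro ⟨a, ha⟩
    have : a ∈ Algebra.adjoin k t := by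
      induction ha using Algebra.adjoin_induction with
      | mem y hy =>
        rw [Set.mem_singleton_iff] at hy
        exact Algebra.subset_adjoin (Or.inl (Or.inl hy))
      | algebraMap r => exact Algebra.subset_adjoin (Or.inr ⟨r, rfl⟩)
      | add a b _ _ ha hb => exact add_mem ha hb
      | mul a b _ _ ha hb => exact mul_mem ha hb
    exact ⟨⟨a, this⟩, rfl⟩
  obtain ⟨u, hsu, hut, hu⟩ := exists_isTranscendenceBasis_between s t Set.subset_union_left hs
  let A0 : Set K := algebraMap K L ⁻¹' (u \ s)
  let R2 := Algebra.adjoin k A0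
  let F0 := IntermediateField.adjoin k A0
  let F := algebraicClosure F0 K
  have hFcl : IsAlgClosed F := (inferInstance : IsAlgClosure F0 F).isAlgClosed
  have hFc : CharZero F := (algebraMap F K).charZero
  have hus : ∀ a ∈ u \ s, ∃ c : K, c ∈ A0 ∧ algebraMap K L c = a := by
    intro a ha
    rcases hut ha.1 with h | ⟨c, hc⟩
    · exact absurd h ha.2
    · exact ⟨c, by show algebraMap K L c ∈ u \ s; rw [hc]; exact ha, hc⟩
  have hfs : (f : L) ∈ s := Or.inl rfl
  have hgs : (g : L) ∈ s := Or.inr rfl
  have hfg' : (f : L) ≠ g := by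
    intro h
    have := hai.injective (a₁ := 0) (a₂ := 1) h
    exact absurd this (by decide)
  let e : Fin 2 ⊕ ↥(u \ s) → u := Sum.elim ![⟨f, hsu hfs⟩, ⟨g, hsu hgs⟩] (fun a => ⟨a, a.2.1⟩)
  have he : Function.Injective e := by
    have h1 : ∀ i : Fin 2, ((e (Sum.inl i) : u) : L) ∈ s := by
      intro i
      fin_cases i
      · exact hfs
      · exact hgs
    have h2 : ∀ a : ↥(u \ s), ((e (Sum.inr a) : u) : L) ∉ s := fun a => a.2.2
    rintro (i | a) (j | b) hab
    · congr 1
      fin_cases i <;> fin_cases j
      · rfl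
      · exact absurd (congrArg Subtype.val hab) hfg'
      · exact absurd (congrArg Subtype.val hab).symm hfg'
      · rfl
    · exact absurd (hab ▸ h1 i) (h2 b)
    · exact absurd (hab.symm ▸ h1 j) (h2 a)
    · congr 1
      exact Subtype.ext (congrArg (fun z : u => (z : L)) hab)
  have h1 := hu.1.comp e he
  have h2 : (Subtype.val : u → L) ∘ e = Sum.elim ![(f : L), (g : L)] (Subtype.val : ↥(u \ s) → L) := by
    funext a
    rcases a with i | a
    · fin_cases i <;> rfl
    · rfl
  rw [h2, AlgebraicIndependent.sumElim_iff] at h1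
  have hR2L : Function.Injective (algebraMap R2 L) :=
    (algebraMap K L).injective.comp Subtype.val_injective
  have hai2 : AlgebraicIndependent R2 ![(f : L), (g : L)] := by
    refine ai_of_range hR2L Subtype.val_injective ?_ h1.2
    rintro ⟨a, ha⟩
    have : algebraMap K L a ∈ Algebra.adjoin k (Set.range (Subtype.val : ↥(u \ s) → L)) := by
      induction ha using Algebra.adjoin_induction with
      | mem y hy => exact Algebra.subset_adjoin ⟨⟨_, hy⟩, rfl⟩
      | algebraMap r =>
        rw [← IsScalarTower.algebraMap_apply k K L]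
        exact Subalgebra.algebraMap_mem _ _
      | add a b _ _ ha hb => rw [map_add]; exact add_mem ha hb
      | mul a b _ _ ha hb => rw [map_mul]; exact mul_mem ha hb
    exact ⟨⟨_, this⟩, rfl⟩
  have tow1 : IsScalarTower R2 F0 L := IsScalarTower.of_algebraMap_eq fun c => rfl
  have alg1 : Algebra.IsAlgebraic R2 F0 := IsLocalization.isAlgebraic _ (nonZeroDivisors _)
  have hai3 : AlgebraicIndependent F0 ![(f : L), (g : L)] := hai2.extendScalars F0
  have tow2 : IsScalarTower F0 F L := IsScalarTower.of_algebraMap_eq fun c => rfl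
  have hai4 : AlgebraicIndependent F ![(f : L), (g : L)] := hai3.extendScalars F
  have hb : IsTranscendenceBasis F ![(f : L), (g : L)] := by
    rw [hai4.isTranscendenceBasis_iff_isAlgebraic]
    constructor
    intro ω
    refine alg_of_range (R1 := Algebra.adjoin k (Set.range (Subtype.val : u → L))) Subtype.val_injective
      Subtype.val_injective ?_ (hu.isAlgebraic.isAlgebraic ω)
    rintro ⟨a, ha⟩
    have : a ∈ Algebra.adjoin F (Set.range ![(f : L), (g : L)]) := by
      induction ha using Algebra.adjoin_induction with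
      | mem y hy =>
        obtain ⟨⟨z, hz⟩, rfl⟩ := hy
        by_cases hzs : z ∈ s
        · rw [hrange]
          exact Algebra.subset_adjoin hzs
        · obtain ⟨c, hc, hcz⟩ := hus z ⟨hz, hzs⟩
          have h5 : c ∈ F := by
            refine mem_algebraicClosure_iff.2 ?_
            have : c = algebraMap F0 K ⟨c, IntermediateField.subset_adjoin _ _ hc⟩ := rfl
            rw [this]
            exact isAlgebraic_algebraMap _
          have h6 : z = algebraMap F L ⟨c, h5⟩ := hcz.symm
          show z ∈ _
          rw [h6]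
          exact Subalgebra.algebraMap_mem _ _
      | algebraMap r =>
        have h5 : algebraMap k L r = algebraMap F L (algebraMap k F r) := by
          rw [IsScalarTower.algebraMap_apply k K L]
          rfl
        rw [h5]
        exact Subalgebra.algebraMap_mem _ _
      | add a b _ _ ha hb => exact add_mem ha hb
      | mul a b _ _ ha hb => exact mul_mem ha hb
    exact ⟨⟨a, this⟩, rfl⟩
  -- the transcendence degree of `K`
  have htr : Algebra.trdeg F K = 1 := by
    have h5 := lift_trdeg_add_eq F K L
    have h6 := (tb_one hft hfa).lift_cardinalMk_eq_trdeg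
    have h7 := hb.lift_cardinalMk_eq_trdeg
    have h8 : Algebra.trdeg K L = 1 := by
      rw [Cardinal.mk_fintype, Fintype.card_unit, Nat.cast_one, Cardinal.lift_one, Cardinal.lift_uzero] at h6
      exact h6.symm
    have h9 : Algebra.trdeg F L = 2 := by
      rw [Cardinal.mk_fintype, Fintype.card_fin, Cardinal.lift_uzero] at h7
      rw [← h7]
      simp
    rw [h8, h9, Cardinal.lift_one, Cardinal.lift_ofNat, ← one_add_one_eq_two, Cardinal.add_one_inj] at h5
    exact Cardinal.lift_eq_one.1 h5
  obtain ⟨b, hbb⟩ := exists_isTranscendenceBasis F K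
  have hb1 : Cardinal.mk b = 1 := by rw [← htr]; exact hbb.cardinalMk_eq_trdeg
  obtain ⟨t0, rfl⟩ := Cardinal.mk_set_eq_one_iff.1 hb1
  have ht0 : Transcendental F t0 := hbb.1.transcendental ⟨t0, rfl⟩
  have ht0a : Algebra.IsAlgebraic F⟮t0⟯ K := by
    have h5 := hbb.isAlgebraic_field
    rwa [Subtype.range_coe] at h5
  have tow3 : IsScalarTower k F L := IsScalarTower.of_algebraMap_eq fun c => by
    rw [IsScalarTower.algebraMap_apply k K L]; rfl
  have tow4 : IsScalarTower k F K := IsScalarTower.of_algebraMap_eq fun c => rfl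
  have tow5 : IsScalarTower F K L := IsScalarTower.of_algebraMap_eq fun c => rfl
  obtain ⟨E, _, _, _, _, _, _, _, _, _, _, hP1, hP2, _⟩ := exists_comp (F := F) hP
  have hEfun : IsFun F E := ⟨algebraMap L0 E x, hP1.trans hx, hP1.fin hx⟩
  exact rigid_one hP2 hEfun ht0 ht0a f g hfg hai4

/-- **Rigidity of unramified symbols**: if `{f, g}` is unramified over `K` on the constant curve `L0`, then `f` and `g`
are algebraically dependent over `k`, or both are constants -/
theorem rigid (hP : IsProd k K L0 L) (hL0 : IsFun k L0) (f g : Lˣ)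
    (hfg : ∀ v ∈ VN K L, sy f g ∈ unitPart v 2) :
    ¬ AlgebraicIndependent k ![(f : L), (g : L)] ∨
      ((∃ a : K, algebraMap K L a = f) ∧ ∃ a : K, algebraMap K L a = g) := by
  by_cases hf : ∀ a : K, algebraMap K L a ≠ f
  · exact Or.inl (rigid_aux hP hL0 f g hfg hf)
  by_cases hg : ∀ a : K, algebraMap K L a ≠ g
  · left
    intro hai
    refine rigid_aux hP hL0 g f (fun v hv => unitPart_swap v f g (hfg v hv)) hg ?_
    have h1 := hai.comp (Equiv.swap (0 : Fin 2) 1) (Equiv.swap (0 : Fin 2) 1).injective
    have h2 : ![(f : L), (g : L)] ∘ (Equiv.swap (0 : Fin 2) 1) = ![(g : L), (f : L)] := by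
      funext i
      fin_cases i <;> simp
    rwa [h2] at h1
  · right
    push Not at hf hg
    exact ⟨hf, hg⟩

end

end Pool.Agent.Helper79.RG
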