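import Pool.Agent.Helper79.FE.Val3

set_option autoImplicit false

/-!
# Module M1, first part: extension of derivations
-/

namespace Pool.Agent.Helper79.RG

open scoped WithZero IntermediateField.algebraAdjoinAdjoin
open IntermediateField
open Pool.Agent.Helper79.FE (VN)

/-- uniqueness of the extension of derivations to algebraic extensions -/
theorem der_unique {F L M : Type*} [Field F] [Field L] [Algebra F L] [CharZero L] [Algebra.IsAlgebraic F L]
    [AddCommGroup M] [Module L M] (D D' : Derivation ℤ L M)
    (h : ∀ a : F, D (algebraMap F L a) = D' (algebraMap F L a)) : D = D' := by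
  have hF : CharZero F := (algebraMap F L).charZero_iff (algebraMap F L).injective |>.2 inferInstance
  let _ : Module F M := Module.compHom M (algebraMap F L)
  have hsm : ∀ (c : F) (m : M), c • m = algebraMap F L c • m := fun c m => rfl
  have _ : IsScalarTower F L M := ⟨fun c l m => by
    rw [hsm, Algebra.smul_def, mul_smul]⟩
  let D0 : Derivation F L M :=
    { toFun := fun y => D y - D' y
      map_add' := fun a b => by rw [map_add, map_add]; abel
      map_smul' := fun c a => by
        rw [Algebra.smul_def, Derivation.leibniz, Derivation.leibniz, h, RingHom.id_apply, hsm,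
          smul_sub]
        abel
      map_one_eq_zero' := by
        show D 1 - D' 1 = 0
        rw [Derivation.map_one_eq_zero, Derivation.map_one_eq_zero, sub_zero]
      leibniz' := fun a b => by
        show D (a * b) - D' (a * b) = a • (D b - D' b) + b • (D a - D' a)
        rw [Derivation.leibniz, Derivation.leibniz, smul_sub, smul_sub]
        abel }
  refine Derivation.ext fun y => ?_
  have hy : IsIntegral F y := (Algebra.IsAlgebraic.isAlgebraic y).isIntegral
  have h1 := Derivation.map_aeval (D := D0) (minpoly F y) y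
  rw [minpoly.aeval, map_zero] at h1
  have hsep : (minpoly F y).Separable := (minpoly.irreducible hy).separable
  have h2 : Polynomial.aeval y (Polynomial.derivative (minpoly F y)) ≠ 0 :=
    hsep.aeval_derivative_ne_zero (minpoly.aeval F y)
  have h3 : D0 y = 0 := by
    rcases smul_eq_zero.1 h1.symm with h4 | h4
    · exact absurd h4 h2
    · exact h4
  exact sub_eq_zero.1 h3

theorem lift_ex {R A B : Type*} [CommRing R] [CommRing A] [CommRing B] [Algebra R A]
    [Algebra.FormallySmooth R A] (ψ : R →+* B) (g : B →+* A) (hg : Function.Surjective g)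
    (hk : IsNilpotent (RingHom.ker g)) (h : ∀ r, g (ψ r) = algebraMap R A r) :
    ∃ f : A →+* B, (∀ a, g (f a) = a) ∧ ∀ r, f (algebraMap R A r) = ψ r := by
  let _ : Algebra R B := ψ.toAlgebra
  let g' : B →ₐ[R] A := { g with commutes' := h }
  let f := Algebra.FormallySmooth.liftOfSurjective (AlgHom.id R A) g' hg hk
  refine ⟨(f : A →+* B), fun a => ?_, fun r => ?_⟩
  · exact Algebra.FormallySmooth.liftOfSurjective_apply (AlgHom.id R A) g' hg hk a
  · exact f.commutes r

/-- existence: a derivation `δ` of `K` with values in `E` and a value at `x` (transcendental) extend -/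
theorem exists_der {K E : Type*} [Field K] [Field E] [CharZero E] [Algebra K E] (x : E)
    (hx : Transcendental K x) (halg : Algebra.IsAlgebraic K⟮x⟯ E) (δ : K → E)
    (hδ1 : ∀ a b, δ (a + b) = δ a + δ b)
    (hδ2 : ∀ a b, δ (a * b) = algebraMap K E a * δ b + algebraMap K E b * δ a) (c : E) :
    ∃ D : Derivation ℤ E E, (∀ a : K, D (algebraMap K E a) = δ a) ∧ D x = c := by
  have hF : CharZero K⟮x⟯ :=
    (algebraMap K⟮x⟯ E).charZero_iff (algebraMap K⟮x⟯ E).injective |>.2 inferInstance
  have hsep : Algebra.IsSeparable K⟮x⟯ E := inferInstance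
  have e1 : Algebra.FormallyEtale K⟮x⟯ E := Algebra.FormallyEtale.of_isSeparable _ _
  have e2 : Algebra.FormallyEtale (Algebra.adjoin K {x}) K⟮x⟯ :=
    Algebra.FormallyEtale.of_isLocalization (nonZeroDivisors (Algebra.adjoin K {x}))
  have e3 : Algebra.FormallyEtale (Algebra.adjoin K {x}) E :=
    Algebra.FormallyEtale.comp (Algebra.adjoin K {x}) K⟮x⟯ E
  have hδ0 : δ 0 = 0 := by
    have := hδ1 0 0
    rw [add_zero] at this
    exact left_eq_add.1 this
  have hδ11 : δ 1 = 0 := by
    have := hδ2 1 1
    rw [mul_one, map_one, one_mul] at this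
    exact left_eq_add.1 this
  let ψ0 : K →+* TrivSqZeroExt E E :=
    { toFun := fun a => TrivSqZeroExt.inl (algebraMap K E a) + TrivSqZeroExt.inr (δ a)
      map_one' := by rw [hδ11, map_one, TrivSqZeroExt.inr_zero, add_zero]; rfl
      map_mul' := fun a b => by
        ext
        · simp
        · simp [hδ2, mul_comm]
      map_zero' := by rw [hδ0, map_zero, TrivSqZeroExt.inr_zero, add_zero]; rfl
      map_add' := fun a b => by
        ext
        · simp
        · simp [hδ1] }
  let ψ1 : Polynomial K →+* TrivSqZeroExt E E :=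
    Polynomial.eval₂RingHom ψ0 (TrivSqZeroExt.inl x + TrivSqZeroExt.inr c)
  let e : Polynomial K ≃ₐ[K] Algebra.adjoin K {x} := Polynomial.algEquivOfTranscendental K x hx
  let ψ : Algebra.adjoin K {x} →+* TrivSqZeroExt E E := ψ1.comp (e.symm : Algebra.adjoin K {x} →+* Polynomial K)
  let g : TrivSqZeroExt E E →+* E := (TrivSqZeroExt.fstHom ℤ E E : TrivSqZeroExt E E →+* E)
  have hgfst : ∀ t, g t = t.fst := fun t => rfl
  have hcomp : ∀ p : Polynomial K, g (ψ1 p) = Polynomial.aeval x p := by
    intro p
    have h1 : g.comp ψ1 = (Polynomial.aeval x : Polynomial K →ₐ[K] E).toRingHom := by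
      ext a
      · simp [hgfst, ψ1, ψ0]
      · simp [hgfst, ψ1]
    exact DFunLike.congr_fun h1 p
  obtain ⟨f, hf1, hf2⟩ := lift_ex (R := Algebra.adjoin K {x}) (A := E) ψ g
    (fun a => ⟨TrivSqZeroExt.inl a, rfl⟩)
    ⟨2, by
      rw [Submodule.zero_eq_bot, eq_bot_iff, pow_two, Ideal.mul_le]
      intro r hr s hs
      rw [RingHom.mem_ker, hgfst] at hr hs
      rw [Ideal.mem_bot]
      ext
      · simp [hr]
      · simp [hr, hs]⟩
    (fun r => by
      obtain ⟨p, rfl⟩ := e.surjective r
      show g (ψ1 (e.symm (e p))) = _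
      rw [e.symm_apply_apply, hcomp]
      have h2 := DFunLike.congr_fun (Polynomial.algEquivOfTranscendental_coe K x hx) p
      have h3 : e p = Polynomial.aeval (⟨x, Algebra.self_mem_adjoin_singleton K x⟩ : Algebra.adjoin K {x}) p := h2
      rw [h3]
      exact (Polynomial.aeval_algebraMap_apply E
        (⟨x, Algebra.self_mem_adjoin_singleton K x⟩ : Algebra.adjoin K {x}) p))
  have hfst : ∀ a, (f a).fst = a := hf1
  refine ⟨{ toFun := fun a => (f a).snd
            map_add' := fun a b => by rw [map_add]; rfl
            map_smul' := fun n a => by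
              rw [map_zsmul]; rfl
            map_one_eq_zero' := by
              show (f 1).snd = 0
              rw [map_one]; rfl
            leibniz' := fun a b => by
              show (f (a * b)).snd = a • (f b).snd + b • (f a).snd
              rw [map_mul, TrivSqZeroExt.snd_mul, hfst, hfst]
              simp [mul_comm] }, fun a => ?_, ?_⟩
  · show (f (algebraMap K E a)).snd = δ a
    have h1 : algebraMap K E a = algebraMap (Algebra.adjoin K {x}) E (algebraMap K (Algebra.adjoin K {x}) a) := rfl
    rw [h1, hf2]
    have h2 : ψ (algebraMap K (Algebra.adjoin K {x}) a) = ψ0 a := by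
      show ψ1 (e.symm (algebraMap K (Algebra.adjoin K {x}) a)) = ψ0 a
      rw [AlgEquiv.commutes]
      simp [ψ1]
    rw [h2]
    simp [ψ0]
  · show (f x).snd = c
    have hwB : x ∈ Algebra.adjoin K {x} := Algebra.self_mem_adjoin_singleton K x
    have h1 : x = algebraMap (Algebra.adjoin K {x}) E ⟨x, hwB⟩ := rfl
    have heX : e Polynomial.X = ⟨x, hwB⟩ := Polynomial.algEquivOfTranscendental_apply_X K x hx
    have h2 : ψ ⟨x, hwB⟩ = TrivSqZeroExt.inl x + TrivSqZeroExt.inr c := by
      rw [← heX]
      show ψ1 (e.symm (e Polynomial.X)) = _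
      rw [e.symm_apply_apply]
      simp [ψ1]
    have h3 : f x = TrivSqZeroExt.inl x + TrivSqZeroExt.inr c := by
      rw [← h2]
      exact hf2 ⟨x, hwB⟩
    rw [h3]
    simp

end Pool.Agent.Helper79.RG
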