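import Pool.Agent.Helper79.FE.Val3

set_option autoImplicit false

/-!
# Module M3, first part: the integral closure of `K[x]` in `L = K (L0)`
-/

namespace Pool.Agent.Helper79.RG

open scoped WithZero IntermediateField.algebraAdjoinAdjoin
open IntermediateField
open Pool.Agent.Helper79.FE (VN)

/-- `R = K · L0` (the `K`-span of `L0`, a subring of `L`) -/
def RR (K L0 L : Type*) [Field K] [Field L0] [Field L] [Algebra K L] [Algebra L0 L] : Submodule K L :=
  Submodule.span K (Set.range (algebraMap L0 L))

/-- `L` is the field of fractions of `K ⊗_k L0` -/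
structure IsProd (k K L0 L : Type*) [Field k] [Field K] [Field L0] [Field L] [Algebra k K] [Algebra k L0]
    [Algebra k L] [Algebra K L] [Algebra L0 L] [IsScalarTower k K L] [IsScalarTower k L0 L] : Prop where
  ld : ∀ (n : ℕ) (h : Fin n → L0), LinearIndependent k h → LinearIndependent K (fun i => algebraMap L0 L (h i))
  gen : ∀ a : L, ∃ p q : L, p ∈ RR K L0 L ∧ q ∈ RR K L0 L ∧ q ≠ 0 ∧ a = p / q

section rr

variable {K L0 L : Type*} [Field K] [Field L0] [Field L] [Algebra K L] [Algebra L0 L]

theorem RR_L0 (h : L0) : algebraMap L0 L h ∈ RR K L0 L := Submodule.subset_span ⟨h, rfl⟩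

theorem RR_mul {a b : L} (ha : a ∈ RR K L0 L) (hb : b ∈ RR K L0 L) : a * b ∈ RR K L0 L := by
  have h1 := Submodule.mul_mem_mul ha hb
  unfold RR at h1 ⊢
  rw [Submodule.span_mul_span] at h1
  refine Submodule.span_mono ?_ h1
  rintro _ ⟨_, ⟨x, rfl⟩, _, ⟨y, rfl⟩, rfl⟩
  exact ⟨x * y, by rw [map_mul]⟩

theorem RR_K (c : K) : algebraMap K L c ∈ RR K L0 L := by
  rw [Algebra.algebraMap_eq_smul_one]
  refine Submodule.smul_mem _ _ ?_
  have := RR_L0 (K := K) (L := L) (1 : L0)
  rwa [map_one] at this

end rr

section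

variable {k K L0 L : Type*} [Field k] [Field K] [Field L0] [Field L] [Algebra k K] [Algebra k L0]
  [Algebra k L] [Algebra K L] [Algebra L0 L] [IsScalarTower k K L] [IsScalarTower k L0 L]

theorem IsProd.ld' (hP : IsProd k K L0 L) {ι : Type*} {h : ι → L0} (hh : LinearIndependent k h) :
    LinearIndependent K (fun i => algebraMap L0 L (h i)) := by
  rw [linearIndependent_iff_finset_linearIndependent]
  intro s
  have h1 : LinearIndependent k (fun i : Fin (Fintype.card s) => h ((Fintype.equivFin s).symm i)) :=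
    hh.comp (fun i => (((Fintype.equivFin s).symm i : s) : ι))
      (Subtype.val_injective.comp (Fintype.equivFin s).symm.injective)
  have h2 := hP.ld _ _ h1
  have h3 := h2.comp (Fintype.equivFin s) (Fintype.equivFin s).injective
  have h4 : (fun i : s => algebraMap L0 L (h ((Fintype.equivFin s).symm (Fintype.equivFin s i)))) =
      (fun i => algebraMap L0 L (h i)) ∘ (Subtype.val : s → ι) := by
    funext i
    simp
  rw [← h4]
  exact h3

theorem li_pow {N E : Type*} [Field N] [Field E] [Algebra N E] {x : E} (hx : Transcendental N x) :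
    LinearIndependent N (fun j : ℕ => x ^ j) := by
  rw [linearIndependent_iff']
  intro s g hg i hi
  have h1 : Polynomial.aeval x (∑ j ∈ s, Polynomial.C (g j) * Polynomial.X ^ j) = 0 := by
    rw [map_sum]
    simpa [Algebra.smul_def] using hg
  have h2 : (∑ j ∈ s, Polynomial.C (g j) * Polynomial.X ^ j) = 0 := by
    by_contra hne
    exact hx ⟨_, hne, h1⟩
  have h3 := congrArg (fun p => p.coeff i) h2
  simpa [Polynomial.finsetSum_coeff, Polynomial.coeff_C_mul, Polynomial.coeff_X_pow, hi] using h3

theorem IsProd.trans (hP : IsProd k K L0 L) {x : L0} (hx : Transcendental k x) :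
    Transcendental K (algebraMap L0 L x) := by
  have h1 := hP.ld' (li_pow hx)
  rintro ⟨p, hp0, hp⟩
  rw [linearIndependent_iff'] at h1
  rw [Polynomial.aeval_eq_sum_range] at hp
  have h2 := h1 (Finset.range (p.natDegree + 1)) (fun j => p.coeff j) (by
    simpa [map_pow] using hp) p.natDegree (by simp)
  exact hp0 (Polynomial.leadingCoeff_eq_zero.1 h2)

/-- linear independence over the ring of polynomials -/
theorem li_adj {N E : Type*} [Field N] [Field E] [Algebra N E] {x : E} (hx : Transcendental N x)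
    {ι : Type*} {b : ι → E} (hb : LinearIndependent N (fun p : ℕ × ι => x ^ p.1 * b p.2)) :
    LinearIndependent (Algebra.adjoin N {x}) b := by
  classical
  let e : Polynomial N ≃ₐ[N] Algebra.adjoin N {x} := Polynomial.algEquivOfTranscendental N x hx
  have he : ∀ p, ((e p : Algebra.adjoin N {x}) : E) = Polynomial.aeval x p := by
    intro p
    have h2 := DFunLike.congr_fun (Polynomial.algEquivOfTranscendental_coe N x hx) p
    have h3 : e p = Polynomial.aeval (⟨x, Algebra.self_mem_adjoin_singleton N x⟩ : Algebra.adjoin N {x}) p := h2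
    rw [h3]
    exact (Polynomial.aeval_algebraMap_apply E
      (⟨x, Algebra.self_mem_adjoin_singleton N x⟩ : Algebra.adjoin N {x}) p).symm
  rw [linearIndependent_iff']
  intro s g hg i hi
  obtain ⟨P, hPd⟩ : ∃ P : ι → Polynomial N, P = fun i => e.symm (g i) := ⟨_, rfl⟩
  have hgP : ∀ i, (g i : E) = Polynomial.aeval x (P i) := by
    intro i
    rw [hPd, ← he, AlgEquiv.apply_symm_apply]
  obtain ⟨M, hM⟩ : ∃ M, ∀ i ∈ s, (P i).natDegree ≤ M := by
    obtain ⟨M, hM⟩ := Finset.exists_le (s.image fun i => (P i).natDegree)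
    exact ⟨M, fun i hi => hM _ (Finset.mem_image.2 ⟨i, hi, rfl⟩)⟩
  rw [linearIndependent_iff'] at hb
  have h1 := hb (Finset.range (M + 1) ×ˢ s) (fun p => (P p.2).coeff p.1) (by
    rw [Finset.sum_product_right]
    rw [← hg]
    refine Finset.sum_congr rfl fun i hi => ?_
    rw [Algebra.smul_def]
    have h2 : algebraMap (Algebra.adjoin N {x}) E (g i) = Polynomial.aeval x (P i) := hgP i
    rw [h2, Polynomial.aeval_eq_sum_range' (Nat.lt_succ_of_le (hM i hi)), Finset.sum_mul]
    refine Finset.sum_congr rfl fun j _ => ?_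
    rw [smul_mul_assoc])
  have h3 : P i = 0 := by
    ext j
    rw [Polynomial.coeff_zero]
    by_cases hj : j ≤ M
    · exact h1 (j, i) (Finset.mem_product.2 ⟨Finset.mem_range.2 (by omega), hi⟩)
    · exact Polynomial.coeff_eq_zero_of_natDegree_lt ((hM i hi).trans_lt (by omega))
  apply Subtype.ext
  rw [hgP, h3]
  simp

theorem li_frac {N E : Type*} [Field N] [Field E] [Algebra N E] (x : E) {ι : Type*} {b : ι → E} :
    LinearIndependent (Algebra.adjoin N {x}) b ↔ LinearIndependent N⟮x⟯ b :=
  LinearIndependent.iff_fractionRing (Algebra.adjoin N {x}) N⟮x⟯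

/-- images of a basis are linearly independent -/
theorem IsProd.li (hP : IsProd k K L0 L) {x : L0} (hx : Transcendental k x) {ι : Type*} {b : ι → L0}
    (hb : LinearIndependent k⟮x⟯ b) : LinearIndependent K⟮algebraMap L0 L x⟯ (fun i => algebraMap L0 L (b i)) := by
  refine (li_frac _).1 (li_adj (hP.trans hx) ?_)
  have h1 : LinearIndependent (Algebra.adjoin k {x}) b :=
    (LinearIndependent.iff_fractionRing (Algebra.adjoin k {x}) k⟮x⟯).2 hb
  have hX : LinearIndependent k (fun j : ℕ => (⟨x, Algebra.self_mem_adjoin_singleton k x⟩ : Algebra.adjoin k {x}) ^ j) := by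
    refine LinearIndependent.of_comp (Algebra.adjoin k {x}).val.toLinearMap ?_
    exact li_pow hx
  have h2 := linearIndependent_smul hX h1
  have h3 := hP.ld' h2
  have h4 : (fun p : ℕ × ι => algebraMap L0 L ((⟨x, Algebra.self_mem_adjoin_singleton k x⟩ : Algebra.adjoin k {x}) ^ p.1 • b p.2)) =
      fun p : ℕ × ι => algebraMap L0 L x ^ p.1 * algebraMap L0 L (b p.2) := by
    funext p
    rw [Algebra.smul_def, map_mul, map_pow, map_pow]
    rfl
  rw [← h4]
  exact h3

theorem IsProd.mem_adj {x : L0} (y : k⟮x⟯) : algebraMap L0 L (y : L0) ∈ K⟮algebraMap L0 L x⟯ := by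
  obtain ⟨y, hy⟩ := y
  show algebraMap L0 L y ∈ _
  induction hy using IntermediateField.adjoin_induction with
  | mem y hy =>
    rw [Set.mem_singleton_iff] at hy
    rw [hy]
    exact mem_adjoin_simple_self _ _
  | algebraMap r =>
    rw [← IsScalarTower.algebraMap_apply k L0 L, IsScalarTower.algebraMap_apply k K L]
    exact IntermediateField.algebraMap_mem _ _
  | add a b _ _ ha hb => rw [map_add]; exact add_mem ha hb
  | mul a b _ _ ha hb => rw [map_mul]; exact mul_mem ha hb
  | inv a _ ha => rw [map_inv₀]; exact inv_mem ha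

/-- `k(x) → K(x)` -/
def io (k K : Type*) {L0 : Type*} (L : Type*) [Field k] [Field K] [Field L0] [Field L] [Algebra k K] [Algebra k L0]
    [Algebra k L] [Algebra K L] [Algebra L0 L] [IsScalarTower k K L] [IsScalarTower k L0 L] (x : L0) :
    k⟮x⟯ →+* K⟮algebraMap L0 L x⟯ where
  toFun y := ⟨algebraMap L0 L (y : L0), IsProd.mem_adj (K := K) y⟩
  map_one' := Subtype.ext (by simp)
  map_mul' a b := Subtype.ext (by simp)
  map_zero' := Subtype.ext (by simp)
  map_add' a b := Subtype.ext (by simp)

/-- the images of a basis span -/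
theorem IsProd.sp (hP : IsProd k K L0 L) {x : L0} [FiniteDimensional k⟮x⟯ L0] {ι : Type*}
    (b : Module.Basis ι k⟮x⟯ L0) :
    (⊤ : Submodule K⟮algebraMap L0 L x⟯ L) ≤
      Submodule.span K⟮algebraMap L0 L x⟯ (Set.range (fun i => algebraMap L0 L (b i))) := by
  classical
  -- the subalgebra generated by `L0`
  obtain ⟨W, hW⟩ : ∃ W, W = Algebra.adjoin K⟮algebraMap L0 L x⟯ (Set.range (algebraMap L0 L)) := ⟨_, rfl⟩
  have hint : ∀ h : L0, IsAlgebraic K⟮algebraMap L0 L x⟯ (algebraMap L0 L h) := by
    intro h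
    obtain ⟨p, hp, hph⟩ := (Algebra.IsAlgebraic.isAlgebraic (R := k⟮x⟯) h)
    refine ⟨p.map (io k K L x), (Polynomial.map_ne_zero_iff (io k K L x).injective).2 hp, ?_⟩
    rw [Polynomial.aeval_def, Polynomial.eval₂_map]
    have h1 : (algebraMap K⟮algebraMap L0 L x⟯ L).comp (io k K L x) =
        (algebraMap L0 L).comp (algebraMap k⟮x⟯ L0) := by
      ext y; rfl
    rw [h1, ← Polynomial.hom_eval₂, ← Polynomial.aeval_def, hph, map_zero]
  have hWalg : ∀ w ∈ W, IsAlgebraic K⟮algebraMap L0 L x⟯ w := by
    intro w hw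
    rw [hW] at hw
    induction hw using Algebra.adjoin_induction with
    | mem w hw => obtain ⟨h, rfl⟩ := hw; exact hint h
    | algebraMap r => exact isAlgebraic_algebraMap r
    | add a b _ _ ha hb => exact ha.add hb
    | mul a b _ _ ha hb => exact ha.mul hb
  have hRW : ∀ a ∈ RR K L0 L, a ∈ W := by
    intro a ha
    unfold RR at ha
    induction ha using Submodule.span_induction with
    | mem a ha => rw [hW]; exact Algebra.subset_adjoin ha
    | zero => exact zero_mem _
    | add a b _ _ ha hb => exact add_mem ha hb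
    | smul c a _ ha =>
      rw [Algebra.smul_def, IsScalarTower.algebraMap_apply K K⟮algebraMap L0 L x⟯ L]
      exact mul_mem (Subalgebra.algebraMap_mem _ _) ha
  have htop : ∀ a : L, a ∈ W := by
    intro a
    obtain ⟨p, q, hp, hq, hq0, rfl⟩ := hP.gen a
    rw [div_eq_mul_inv]
    exact mul_mem (hRW p hp) (W.inv_mem_of_algebraic (x := ⟨q, hRW q hq⟩) (hWalg q (hRW q hq)))
  have hone : ∀ h : L0, algebraMap L0 L h ∈
      Submodule.span K⟮algebraMap L0 L x⟯ (Set.range (fun i => algebraMap L0 L (b i))) := by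
    intro h
    have h1 := b.mem_span h
    induction h1 using Submodule.span_induction with
    | mem h hh => obtain ⟨i, rfl⟩ := hh; exact Submodule.subset_span ⟨i, rfl⟩
    | zero => rw [map_zero]; exact zero_mem _
    | add a b _ _ ha hb => rw [map_add]; exact add_mem ha hb
    | smul c a _ ha =>
      have h2 : algebraMap L0 L (c • a) = io k K L x c • algebraMap L0 L a := by
        rw [Algebra.smul_def, Algebra.smul_def, map_mul]; rfl
      rw [h2]
      exact Submodule.smul_mem _ _ ha
  intro a _
  have ha := htop a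
  rw [hW, ← Subalgebra.mem_toSubmodule, Algebra.adjoin_eq_span] at ha
  refine Submodule.span_le.2 ?_ ha
  intro y hy
  have hy2 : y ∈ Set.range (algebraMap L0 L) := by
    induction hy using Submonoid.closure_induction with
    | mem y hy => exact hy
    | one => exact ⟨1, map_one _⟩
    | mul a b _ _ ha hb =>
      obtain ⟨a, rfl⟩ := ha
      obtain ⟨b, rfl⟩ := hb
      exact ⟨a * b, map_mul _ _ _⟩
  obtain ⟨h, rfl⟩ := hy2
  exact hone h

/-- the trace is compatible -/
theorem trace_io {x : L0} {ι : Type*} [Fintype ι] [DecidableEq ι]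
    (b : Module.Basis ι k⟮x⟯ L0) (b' : Module.Basis ι K⟮algebraMap L0 L x⟯ L)
    (hb : ∀ i, b' i = algebraMap L0 L (b i)) (y : L0) :
    Algebra.trace K⟮algebraMap L0 L x⟯ L (algebraMap L0 L y) = io k K L x (Algebra.trace k⟮x⟯ L0 y) := by
  have hsm : ∀ (c : k⟮x⟯) (a : L0), algebraMap L0 L (c • a) = io k K L x c • algebraMap L0 L a := by
    intro c a
    rw [Algebra.smul_def, Algebra.smul_def, map_mul]; rfl
  rw [Algebra.trace_eq_matrix_trace b', Algebra.trace_eq_matrix_trace b, Matrix.trace, Matrix.trace, map_sum]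
  refine Finset.sum_congr rfl fun i _ => ?_
  rw [Matrix.diag_apply, Matrix.diag_apply, Algebra.leftMulMatrix_eq_repr_mul, Algebra.leftMulMatrix_eq_repr_mul]
  have h1 : y * b i = ∑ j, b.repr (y * b i) j • b j := (b.sum_repr _).symm
  have h2 : algebraMap L0 L y * b' i = ∑ j, io k K L x (b.repr (y * b i) j) • b' j := by
    rw [hb, ← map_mul, h1, map_sum]
    refine Finset.sum_congr rfl fun j _ => ?_
    rw [hsm, hb, ← h1]
  rw [h2, b'.repr_sum_self]

theorem adj_adj {x : L0} (y : Algebra.adjoin k {x}) :
    algebraMap L0 L (y : L0) ∈ Algebra.adjoin K {algebraMap L0 L x} := by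
  obtain ⟨y, hy⟩ := y
  show algebraMap L0 L y ∈ _
  induction hy using Algebra.adjoin_induction with
  | mem y hy =>
    rw [Set.mem_singleton_iff] at hy
    rw [hy]
    exact Algebra.self_mem_adjoin_singleton _ _
  | algebraMap r =>
    rw [← IsScalarTower.algebraMap_apply k L0 L, IsScalarTower.algebraMap_apply k K L]
    exact Subalgebra.algebraMap_mem _ _
  | add a b _ _ ha hb => rw [map_add]; exact add_mem ha hb
  | mul a b _ _ ha hb => rw [map_mul]; exact mul_mem ha hb

/-- `k[x] → K[x]` -/
def ia (k K : Type*) {L0 : Type*} (L : Type*) [Field k] [Field K] [Field L0] [Field L] [Algebra k K] [Algebra k L0]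
    [Algebra k L] [Algebra K L] [Algebra L0 L] [IsScalarTower k K L] [IsScalarTower k L0 L] (x : L0) :
    Algebra.adjoin k {x} →+* Algebra.adjoin K {algebraMap L0 L x} where
  toFun y := ⟨algebraMap L0 L (y : L0), adj_adj (K := K) y⟩
  map_one' := Subtype.ext (by simp)
  map_mul' a b := Subtype.ext (by simp)
  map_zero' := Subtype.ext (by simp)
  map_add' a b := Subtype.ext (by simp)

theorem RR_adj {x : L0} {y : L} (hy : y ∈ Algebra.adjoin K {algebraMap L0 L x}) : y ∈ RR K L0 L := by
  induction hy using Algebra.adjoin_induction with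
  | mem y hy =>
    rw [Set.mem_singleton_iff] at hy
    rw [hy]
    exact RR_L0 _
  | algebraMap r => exact RR_K r
  | add a b _ _ ha hb => exact add_mem ha hb
  | mul a b _ _ ha hb => exact RR_mul ha hb

/-- the degree over `K(x)` is finite -/
theorem IsProd.fin (hP : IsProd k K L0 L) {x : L0} (hx : Transcendental k x) [FiniteDimensional k⟮x⟯ L0] :
    FiniteDimensional K⟮algebraMap L0 L x⟯ L :=
  Module.Finite.of_basis (Module.Basis.mk (hP.li hx (Module.finBasis k⟮x⟯ L0).linearIndependent)
    (hP.sp (Module.finBasis k⟮x⟯ L0)))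

theorem le_span {N E : Type*} [Field N] [Field E] [Algebra N E] (y : E) (hy : Transcendental N y)
    [FiniteDimensional N⟮y⟯ E] [Algebra.IsSeparable N⟮y⟯ E] {ι : Type*} [Finite ι] [DecidableEq ι]
    (b' : Module.Basis ι N⟮y⟯ E) (hint : ∀ i, IsIntegral (Algebra.adjoin N {y}) (b' i)) {a : E}
    (ha : a ∈ integralClosure (Algebra.adjoin N {y}) E) :
    a ∈ Submodule.span (Algebra.adjoin N {y}) (Set.range (b'.traceDual : ι → E)) := by
  have hpid := Pool.Agent.Helper79.FE.pid_adjoin _ hy
  exact integralClosure_le_span_dualBasis (A := Algebra.adjoin N {y}) (K := N⟮y⟯) (L := E) b' hint ha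

/-- the integral closure is contained in `RR` -/
theorem int_le [CharZero k] (hP : IsProd k K L0 L) {x : L0} (hx : Transcendental k x) [FiniteDimensional k⟮x⟯ L0]
    {a : L} (ha : a ∈ integralClosure (Algebra.adjoin K {algebraMap L0 L x}) L) : a ∈ RR K L0 L := by
  classical
  have hfin := hP.fin hx
  have hcK : CharZero K := charZero_of_injective_algebraMap (algebraMap k K).injective
  have hsep0 : Algebra.IsSeparable k⟮x⟯ L0 := by
    have : CharZero k⟮x⟯ := charZero_of_injective_algebraMap (algebraMap k k⟮x⟯).injective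
    infer_instance
  have hsep : Algebra.IsSeparable K⟮algebraMap L0 L x⟯ L := by
    have : CharZero K⟮algebraMap L0 L x⟯ :=
      charZero_of_injective_algebraMap (algebraMap K K⟮algebraMap L0 L x⟯).injective
    infer_instance
  obtain ⟨s, b, hb⟩ := FiniteDimensional.exists_is_basis_integral (Algebra.adjoin k {x}) k⟮x⟯ L0
  obtain ⟨b', hb'⟩ : ∃ b' : Module.Basis s K⟮algebraMap L0 L x⟯ L, ∀ i, b' i = algebraMap L0 L (b i) :=
    ⟨Module.Basis.mk (hP.li hx b.linearIndependent) (hP.sp b), fun i => Module.Basis.mk_apply _ _ _⟩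
  have hint : ∀ i, IsIntegral (Algebra.adjoin K {algebraMap L0 L x}) (b' i) := by
    intro i
    rw [hb']
    exact (hb i).map_of_comp_eq (ia k K L x) (algebraMap L0 L) (by ext y; rfl)
  have hdual : (b'.traceDual : s → L) = fun i => algebraMap L0 L (b.traceDual i) := by
    rw [Module.Basis.traceDual_eq_iff]
    intro i j
    rw [hb', Algebra.traceForm_apply, ← map_mul, trace_io b b' hb', Module.Basis.trace_traceDual_mul]
    split_ifs
    · exact map_one _
    · exact map_zero _
  have h2 := le_span _ (hP.trans hx) b' hint ha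
  rw [hdual] at h2
  clear ha
  induction h2 using Submodule.span_induction with
  | mem y hy => obtain ⟨i, rfl⟩ := hy; exact RR_L0 _
  | zero => exact zero_mem _
  | add a b _ _ ha hb => exact add_mem ha hb
  | smul c a _ ha =>
    rw [Algebra.smul_def]
    exact RR_mul (RR_adj c.2) ha

end

end Pool.Agent.Helper79.RG
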