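import Pool.Agent.Helper79.RG.M1
import Pool.Agent.Helper79.RG.M3a

set_option autoImplicit false

/-!
# Module M3: the ring `K ⊗ L0` in the function field `L = K (L0)`
-/

namespace Pool.Agent.Helper79.RG

open scoped WithZero IntermediateField.algebraAdjoinAdjoin
open IntermediateField IsDedekindDomain
open Pool.Agent.Helper79.FE (VN)

section

variable {k K L0 L : Type*} [Field k] [CharZero k] [Field K] [Field L0] [Field L] [Algebra k K] [Algebra k L0]
  [Algebra k L] [Algebra K L] [Algebra L0 L] [IsScalarTower k K L] [IsScalarTower k L0 L]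

omit [CharZero k] in
theorem v_adj {v : Valuation L ℤᵐ⁰} (hv : v ∈ VN K L) {y : L} (hy : v y ≤ 1) {z : L}
    (hz : z ∈ Algebra.adjoin K {y}) : v z ≤ 1 := by
  induction hz using Algebra.adjoin_induction with
  | mem z hz =>
    rw [Set.mem_singleton_iff] at hz
    rw [hz]; exact hy
  | algebraMap r =>
    by_cases h : r = 0
    · rw [h, map_zero, map_zero]; exact zero_le_one
    · rw [hv.2 r h]
  | add a b _ _ ha hb => exact (v.map_add a b).trans (max_le ha hb)
  | mul a b _ _ ha hb => rw [map_mul]; exact mul_le_one' ha hb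

/-- the places of `L / K` which are trivial on `L0` are given by prime ideals of `RR` -/
theorem frac_nc (hP : IsProd k K L0 L) (x : L0) (hx : Transcendental k x) [FiniteDimensional k⟮x⟯ L0]
    {v : Valuation L ℤᵐ⁰} (hv : v ∈ VN K L) (htriv : ∀ h : L0, h ≠ 0 → v (algebraMap L0 L h) = 1)
    {a : L} (ha : v a ≤ 1) : ∃ p q : L, p ∈ RR K L0 L ∧ q ∈ RR K L0 L ∧ v q = 1 ∧ a = p / q := by
  have hfin := hP.fin hx
  have hcK : CharZero K := charZero_of_injective_algebraMap (algebraMap k K).injective
  obtain ⟨hded, hfrac⟩ := Pool.Agent.Helper79.FE.ded_closure _ (hP.trans hx)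
  have hx1 : v (algebraMap L0 L x) ≤ 1 := by
    by_cases h : x = 0
    · rw [h, map_zero, map_zero]; exact zero_le_one
    · rw [htriv x h]
  have hB : ∀ c : integralClosure (Algebra.adjoin K {algebraMap L0 L x}) L,
      v (algebraMap (integralClosure (Algebra.adjoin K {algebraMap L0 L x}) L) L c) ≤ 1 := fun c =>
    Pool.Agent.Helper79.FE.val_int (B := Algebra.adjoin K {algebraMap L0 L x}) v
      (fun b => v_adj hv hx1 b.2) _ c.2
  obtain ⟨p, q, hq, hpq⟩ := frac_unit v hB ha
  refine ⟨p, q, int_le hP hx p.2, int_le hP hx q.2, hq, ?_⟩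
  have hq0 : ((q : integralClosure (Algebra.adjoin K {algebraMap L0 L x}) L) : L) ≠ 0 := by
    intro h
    have h1 : v ((q : integralClosure (Algebra.adjoin K {algebraMap L0 L x}) L) : L) = 1 := hq
    rw [h, map_zero] at h1
    exact zero_ne_one h1
  rw [eq_div_iff hq0, mul_comm]
  exact hpq

/-- the valuations of a Dedekind domain of integral elements -/
theorem p_mem {y : L} [IsDedekindDomain (integralClosure (Algebra.adjoin K {y}) L)]
    [IsFractionRing (integralClosure (Algebra.adjoin K {y}) L) L]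
    (P : HeightOneSpectrum (integralClosure (Algebra.adjoin K {y}) L)) : P.valuation L ∈ VN K L := by
  refine ⟨P.valuation_surjective L, ?_⟩
  have h1 : ∀ q : K, P.valuation L (algebraMap K L q) ≤ 1 := by
    intro q
    exact P.valuation_le_one (K := L) (algebraMap (Algebra.adjoin K {y})
      (integralClosure (Algebra.adjoin K {y}) L) (algebraMap K _ q))
  intro q hq
  refine le_antisymm (h1 q) ?_
  have h2 := h1 q⁻¹
  have h3 : P.valuation L (algebraMap K L q) * P.valuation L (algebraMap K L q⁻¹) = 1 := by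
    rw [← map_mul, ← map_mul, mul_inv_cancel₀ hq, map_one, map_one]
  calc (1 : ℤᵐ⁰) = P.valuation L (algebraMap K L q) * P.valuation L (algebraMap K L q⁻¹) :=
        h3.symm
    _ ≤ P.valuation L (algebraMap K L q) * 1 := mul_le_mul_right h2 _
    _ = _ := mul_one _

theorem ex_N {s t : ℤᵐ⁰} (hs0 : s ≠ 0) (hs : s < 1) (ht0 : t ≠ 0) : ∃ N : ℕ, s ^ N * t ≤ 1 := by
  refine ⟨(WithZero.log t).toNat, ?_⟩
  have l1 : WithZero.log s ≤ -1 := by
    have : WithZero.log s < 0 := by
      rw [← WithZero.log_one, WithZero.log_lt_log hs0 one_ne_zero]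
      exact hs
    omega
  obtain ⟨m, hm⟩ : ∃ m, m = WithZero.log t := ⟨_, rfl⟩
  obtain ⟨j, hj⟩ : ∃ j, j = WithZero.log s := ⟨_, rfl⟩
  have e1 : s = WithZero.exp j := by rw [hj, WithZero.exp_log hs0]
  have e2 : t = WithZero.exp m := by rw [hm, WithZero.exp_log ht0]
  rw [← hm, e1, e2, ← WithZero.exp_nsmul, ← WithZero.exp_add, ← WithZero.exp_zero,
    WithZero.exp_le_exp, nsmul_eq_mul]
  rw [← hj] at l1
  have l2 := Int.self_le_toNat m
  nlinarith [Int.natCast_nonneg m.toNat]

omit [CharZero k] [Algebra k L] [IsScalarTower k L0 L] in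
/-- a polynomial in `x` with a zero -/
theorem exists_bad (x : L0) [FiniteDimensional k⟮x⟯ L0] {v : Valuation L ℤᵐ⁰}
    (hle : ∀ p : Polynomial k, v (algebraMap L0 L (Polynomial.aeval x p)) ≤ 1)
    (hnt : ∃ h : L0, h ≠ 0 ∧ v (algebraMap L0 L h) ≠ 1) :
    ∃ p : Polynomial k, Polynomial.aeval x p ≠ 0 ∧ v (algebraMap L0 L (Polynomial.aeval x p)) < 1 := by
  by_contra hcon
  push Not at hcon
  have h1 : ∀ p : Polynomial k, Polynomial.aeval x p ≠ 0 → v (algebraMap L0 L (Polynomial.aeval x p)) = 1 :=
    fun p hp => le_antisymm (hle p) (hcon p hp)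
  obtain ⟨w, hw⟩ : ∃ w : Valuation L0 ℤᵐ⁰, ∀ h, w h = v (algebraMap L0 L h) :=
    ⟨v.comap (algebraMap L0 L), fun h => rfl⟩
  have hB : ∀ b : k⟮x⟯, w (algebraMap k⟮x⟯ L0 b) ≤ 1 := by
    intro b
    obtain ⟨r, s, hrs⟩ := IntermediateField.mem_adjoin_simple_iff k (b : L0) |>.1 b.2
    have : algebraMap k⟮x⟯ L0 b = (b : L0) := rfl
    rw [this, hrs, map_div₀, hw, hw]
    by_cases hs : Polynomial.aeval x s = 0
    · rw [hs, map_zero, map_zero, div_zero]; exact zero_le_one
    rw [h1 s hs, div_one]
    exact hle r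
  obtain ⟨h, hh0, hh⟩ := hnt
  have g1 := Pool.Agent.Helper79.FE.val_int w hB h (Algebra.IsIntegral.isIntegral h)
  have g2 := Pool.Agent.Helper79.FE.val_int w hB h⁻¹ (Algebra.IsIntegral.isIntegral _)
  rw [map_inv₀] at g2
  have hw0 : w h ≠ 0 := (Valuation.ne_zero_iff w).2 hh0
  have g3 : 1 ≤ w h := (inv_le_one₀ (zero_lt_iff.2 hw0)).1 g2
  rw [hw] at g1 g3
  exact hh (le_antisymm g1 g3)

/-- an element of `L` which is integral at the places of `L / K` which are trivial on `L0` is in `RR` -/
theorem mem_RR (hP : IsProd k K L0 L) (x : L0) (hx : Transcendental k x) [FiniteDimensional k⟮x⟯ L0]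
    {a : L} (ha : ∀ v ∈ VN K L, (∀ h : L0, h ≠ 0 → v (algebraMap L0 L h) = 1) → v a ≤ 1) :
    a ∈ RR K L0 L := by
  classical
  have hfin := hP.fin hx
  have hcK : CharZero K := charZero_of_injective_algebraMap (algebraMap k K).injective
  obtain ⟨hded, hfrac⟩ := Pool.Agent.Helper79.FE.ded_closure _ (hP.trans hx)
  have hle : ∀ (P : HeightOneSpectrum (integralClosure (Algebra.adjoin K {algebraMap L0 L x}) L)) (p : Polynomial k),
      P.valuation L (algebraMap L0 L (Polynomial.aeval x p)) ≤ 1 := by
    intro P p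
    have h1 : Polynomial.aeval x p ∈ Algebra.adjoin k {x} := by
      exact Polynomial.aeval_mem_adjoin_singleton _ _
    have h2 := adj_adj (K := K) (L := L) (⟨_, h1⟩ : Algebra.adjoin k {x})
    exact P.valuation_le_one (K := L) (algebraMap (Algebra.adjoin K {algebraMap L0 L x})
      (integralClosure (Algebra.adjoin K {algebraMap L0 L x}) L) ⟨_, h2⟩)
  have key : ∀ T : Finset (HeightOneSpectrum (integralClosure (Algebra.adjoin K {algebraMap L0 L x}) L)),
      ∃ p : Polynomial k, Polynomial.aeval x p ≠ 0 ∧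
        ∀ P ∈ T, P.valuation L (algebraMap L0 L (Polynomial.aeval x p) * a) ≤ 1 := by
    intro T
    induction T using Finset.induction_on with
    | empty => exact ⟨1, by simp, fun P hP => absurd hP (Finset.notMem_empty P)⟩
    | insert P T hPT ih =>
      obtain ⟨p, hp0, hp⟩ := ih
      by_cases hPa : P.valuation L a ≤ 1
      · refine ⟨p, hp0, fun P' hP' => ?_⟩
        rcases Finset.mem_insert.1 hP' with rfl | h
        · rw [map_mul]; exact mul_le_one' (hle _ _) hPa
        · exact hp P' h
      · have hnt : ∃ h : L0, h ≠ 0 ∧ P.valuation L (algebraMap L0 L h) ≠ 1 := by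
          by_contra hc
          push Not at hc
          exact hPa (ha _ (p_mem P) hc)
        obtain ⟨q, hq0, hq⟩ := exists_bad x (hle P) hnt
        have hqv : P.valuation L (algebraMap L0 L (Polynomial.aeval x q)) ≠ 0 := by
          rw [Valuation.ne_zero_iff]
          exact (map_ne_zero_iff _ (algebraMap L0 L).injective).2 hq0
        have ha0 : P.valuation L a ≠ 0 := by
          intro h
          rw [h] at hPa
          exact hPa zero_le_one
        obtain ⟨N, hN⟩ := ex_N hqv hq ha0
        refine ⟨q ^ N * p, ?_, fun P' hP' => ?_⟩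
        · rw [map_mul, map_pow]
          exact mul_ne_zero (pow_ne_zero _ hq0) hp0
        · have e0 : algebraMap L0 L (Polynomial.aeval x (q ^ N * p)) =
              algebraMap L0 L (Polynomial.aeval x q) ^ N * algebraMap L0 L (Polynomial.aeval x p) := by
            rw [map_mul, map_mul, map_pow, map_pow]
          rw [e0]
          rcases Finset.mem_insert.1 hP' with rfl | h
          · have e1 : algebraMap L0 L (Polynomial.aeval x q) ^ N * algebraMap L0 L (Polynomial.aeval x p) * a =
                algebraMap L0 L (Polynomial.aeval x p) * (algebraMap L0 L (Polynomial.aeval x q) ^ N * a) := by ring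
            rw [e1, map_mul]
            refine mul_le_one' (hle _ _) ?_
            rw [map_mul, map_pow]
            exact hN
          · rw [mul_assoc, map_mul, map_pow]
            exact mul_le_one' (pow_le_one₀ zero_le (hle _ _)) (hp P' h)
  obtain ⟨p, hp0, hp⟩ := key (HeightOneSpectrum.Support.finite
    (integralClosure (Algebra.adjoin K {algebraMap L0 L x}) L) a).toFinset
  have hall : ∀ P : HeightOneSpectrum (integralClosure (Algebra.adjoin K {algebraMap L0 L x}) L),
      P.valuation L (algebraMap L0 L (Polynomial.aeval x p) * a) ≤ 1 := by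
    intro P
    by_cases h : P ∈ HeightOneSpectrum.Support (integralClosure (Algebra.adjoin K {algebraMap L0 L x}) L) a
    · exact hp P ((Set.Finite.mem_toFinset _).2 h)
    · have h1 : P.valuation L a ≤ 1 := not_lt.1 h
      rw [map_mul]
      exact mul_le_one' (hle P p) h1
  obtain ⟨c, hc⟩ := HeightOneSpectrum.mem_integers_of_valuation_le_one L _ hall
  have h1 : algebraMap L0 L (Polynomial.aeval x p) * a ∈ RR K L0 L := by
    rw [← hc]
    exact int_le hP hx c.2
  have hp0' : algebraMap L0 L (Polynomial.aeval x p) ≠ 0 :=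
    (map_ne_zero_iff _ (algebraMap L0 L).injective).2 hp0
  have h2 : a = algebraMap L0 L (Polynomial.aeval x p)⁻¹ * (algebraMap L0 L (Polynomial.aeval x p) * a) := by
    rw [map_inv₀, inv_mul_cancel_left₀ hp0']
  rw [h2]
  exact RR_mul (RR_L0 _) h1

end

end Pool.Agent.Helper79.RG
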