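import Pool.Agent.Helper79.RG.M1
import Pool.Agent.Helper79.RG.M3
import Pool.Agent.Helper79.FE.Rst

set_option autoImplicit false

/-!
# Gauss valuations of the function field of a product
-/

set_option linter.unusedSectionVars false

namespace Pool.Agent.Helper79.RG

open scoped WithZero IntermediateField.algebraAdjoinAdjoin
open IntermediateField IsDedekindDomain
open Pool.Agent.Helper79.FE

section rep

variable {k K L0 L : Type*} [Field k] [Field K] [Field L0] [Field L] [Algebra k K] [Algebra k L0]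
  [Algebra k L] [Algebra K L] [Algebra L0 L] [IsScalarTower k K L] [IsScalarTower k L0 L]

/-- dependent coefficients can be removed -/
theorem red_one {n : ℕ} (κ : Fin (n + 1) → K) (h : Fin (n + 1) → L0) (hκ : ¬ LinearIndependent k κ) :
    ∃ (κ' : Fin n → K) (h' : Fin n → L0), ∑ i, algebraMap K L (κ i) * algebraMap L0 L (h i) =
      ∑ i, algebraMap K L (κ' i) * algebraMap L0 L (h' i) := by
  rw [Fintype.not_linearIndependent_iff] at hκ
  obtain ⟨g, hg, i0, hi0⟩ := hκ
  refine ⟨fun i => κ (i0.succAbove i), fun i => h (i0.succAbove i) - (g (i0.succAbove i) / g i0) • h i0, ?_⟩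
  rw [Fin.sum_univ_succAbove _ i0] at hg ⊢
  have h1 : κ i0 = -∑ i : Fin n, (g (i0.succAbove i) / g i0) • κ (i0.succAbove i) := by
    have h2 : g i0 • κ i0 = -∑ i : Fin n, g (i0.succAbove i) • κ (i0.succAbove i) := eq_neg_of_add_eq_zero_left hg
    have h3 := congrArg (fun x => (g i0)⁻¹ • x) h2
    simp only [smul_neg, Finset.smul_sum, smul_smul] at h3
    rw [inv_mul_cancel₀ hi0, one_smul] at h3
    rw [h3]
    congr 1
    exact Finset.sum_congr rfl fun i _ => by rw [div_eq_inv_mul]
  have h4 : ∀ (c : k) (x : K), algebraMap K L (c • x) = algebraMap k L c * algebraMap K L x := by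
    intro c x
    rw [Algebra.smul_def, map_mul, ← IsScalarTower.algebraMap_apply]
  have h5 : ∀ (c : k) (x : L0), algebraMap L0 L (c • x) = algebraMap k L c * algebraMap L0 L x := by
    intro c x
    rw [Algebra.smul_def, map_mul, ← IsScalarTower.algebraMap_apply]
  rw [h1, map_neg, map_sum, neg_mul, Finset.sum_mul, ← Finset.sum_neg_distrib, ← Finset.sum_add_distrib]
  refine Finset.sum_congr rfl fun i _ => ?_
  rw [h4, map_sub, h5]
  ring

omit [Algebra k K] [Algebra k L0] [Algebra k L] [IsScalarTower k K L] [IsScalarTower k L0 L] in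
theorem rep_aux {a : L} (ha : a ∈ RR K L0 L) : ∃ (n : ℕ) (κ : Fin n → K) (h : Fin n → L0),
    a = ∑ i, algebraMap K L (κ i) * algebraMap L0 L (h i) := by
  induction ha using Submodule.span_induction with
  | mem x hx =>
    obtain ⟨h, rfl⟩ := hx
    exact ⟨1, fun _ => 1, fun _ => h, by simp⟩
  | zero => exact ⟨0, Fin.elim0, Fin.elim0, by simp⟩
  | add x y _ _ hx hy =>
    obtain ⟨n, κ, h, rfl⟩ := hx
    obtain ⟨m, κ', h', rfl⟩ := hy
    refine ⟨n + m, Fin.append κ κ', Fin.append h h', ?_⟩
    rw [Fin.sum_univ_add]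
    simp
  | smul c x _ hx =>
    obtain ⟨n, κ, h, rfl⟩ := hx
    refine ⟨n, fun i => c * κ i, h, ?_⟩
    rw [Finset.smul_sum]
    refine Finset.sum_congr rfl fun i _ => ?_
    rw [Algebra.smul_def, map_mul]
    ring

/-- representation with independent coefficients -/
theorem exists_rep (k : Type*) {K L0 L : Type*} [Field k] [Field K] [Field L0] [Field L] [Algebra k K] [Algebra k L0]
    [Algebra k L] [Algebra K L] [Algebra L0 L] [IsScalarTower k K L] [IsScalarTower k L0 L]
    {a : L} (ha : a ∈ RR K L0 L) : ∃ (n : ℕ) (κ : Fin n → K) (h : Fin n → L0),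
    LinearIndependent k κ ∧ LinearIndependent k h ∧ a = ∑ i, algebraMap K L (κ i) * algebraMap L0 L (h i) := by
  classical
  have hex := rep_aux ha
  let n := Nat.find hex
  obtain ⟨κ, h, hn⟩ := Nat.find_spec hex
  have hmin : ∀ m, (∃ (κ : Fin m → K) (h : Fin m → L0), a = ∑ i, algebraMap K L (κ i) * algebraMap L0 L (h i)) →
      n ≤ m := fun m hm => Nat.find_min' hex hm
  refine ⟨n, κ, h, ?_, ?_, hn⟩
  · by_contra hcon
    rcases Nat.eq_zero_or_pos n with h0 | hpos
    · apply hcon
      have : IsEmpty (Fin n) := by rw [h0]; infer_instance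
      exact linearIndependent_empty_type
    · obtain ⟨m, hm⟩ : ∃ m, n = m + 1 := ⟨n - 1, by omega⟩
      have h1 : ∀ (N : ℕ) (hN : N = m + 1) (κ : Fin N → K) (h : Fin N → L0), ¬ LinearIndependent k κ →
          a = ∑ i, algebraMap K L (κ i) * algebraMap L0 L (h i) → False := by
        intro N hN κ h hκ hh
        subst hN
        obtain ⟨κ', h', hh'⟩ := red_one (L := L) κ h hκ
        have := hmin m ⟨κ', h', hh.trans hh'⟩
        omega
      exact h1 n hm κ h hcon hn
  · by_contra hcon
    rcases Nat.eq_zero_or_pos n with h0 | hpos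
    · apply hcon
      have : IsEmpty (Fin n) := by rw [h0]; infer_instance
      exact linearIndependent_empty_type
    · obtain ⟨m, hm⟩ : ∃ m, n = m + 1 := ⟨n - 1, by omega⟩
      have h1 : ∀ (N : ℕ) (hN : N = m + 1) (κ : Fin N → K) (h : Fin N → L0), ¬ LinearIndependent k h →
          a = ∑ i, algebraMap K L (κ i) * algebraMap L0 L (h i) → False := by
        intro N hN κ h hκ hh
        subst hN
        obtain ⟨h', κ', hh'⟩ := red_one (L := L) h κ hκ
        have h2 := hmin m ⟨κ', h', by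
          rw [hh]
          calc ∑ i, algebraMap K L (κ i) * algebraMap L0 L (h i)
              = ∑ i, algebraMap L0 L (h i) * algebraMap K L (κ i) := Finset.sum_congr rfl fun i _ => mul_comm _ _
            _ = _ := hh'
            _ = _ := Finset.sum_congr rfl fun i _ => mul_comm _ _⟩
        omega
      exact h1 n hm κ h hcon hn

omit [Algebra k K] [Algebra k L0] [Algebra k L] [IsScalarTower k K L] [IsScalarTower k L0 L] in
theorem RR_swap {a : L} (ha : a ∈ RR K L0 L) : a ∈ RR L0 K L := by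
  obtain ⟨n, κ, h, rfl⟩ := rep_aux ha
  refine Submodule.sum_mem _ fun i _ => ?_
  rw [mul_comm, ← Algebra.smul_def]
  exact Submodule.smul_mem _ _ (Submodule.subset_span ⟨κ i, rfl⟩)

theorem IsProd.symm (hP : IsProd k K L0 L) : IsProd k L0 K L where
  ld := by
    classical
    intro n c hc
    rw [Fintype.linearIndependent_iff]
    intro a ha
    let W := Submodule.span k (Set.range a)
    have : FiniteDimensional k W := FiniteDimensional.span_of_finite k (Set.finite_range a)
    let e := Module.finBasis k W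
    let a' : Fin n → W := fun i => ⟨a i, Submodule.subset_span ⟨i, rfl⟩⟩
    have he : LinearIndependent k (fun j => ((e j : W) : L0)) :=
      e.linearIndependent.map' W.subtype (Submodule.ker_subtype W)
    have he2 := hP.ld _ _ he
    rw [Fintype.linearIndependent_iff] at he2
    have h1 : ∀ i, a i = ∑ j, (e.repr (a' i) j) • ((e j : W) : L0) := by
      intro i
      have h2 := e.sum_repr (a' i)
      have h3 := congrArg (fun x : W => (x : L0)) h2
      simp only [Submodule.coe_sum, Submodule.coe_smul] at h3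
      exact h3.symm
    have h2 : ∑ j, (∑ i, (e.repr (a' i) j) • c i) • algebraMap L0 L ((e j : W) : L0) = 0 := by
      rw [← ha]
      calc ∑ j, (∑ i, (e.repr (a' i) j) • c i) • algebraMap L0 L ((e j : W) : L0)
          = ∑ j, ∑ i, algebraMap k L (e.repr (a' i) j) * algebraMap K L (c i) * algebraMap L0 L ((e j : W) : L0) := by
            refine Finset.sum_congr rfl fun j _ => ?_
            rw [Algebra.smul_def, map_sum, Finset.sum_mul]
            refine Finset.sum_congr rfl fun i _ => ?_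
            rw [Algebra.smul_def, map_mul, ← IsScalarTower.algebraMap_apply]
        _ = ∑ i, ∑ j, algebraMap k L (e.repr (a' i) j) * algebraMap K L (c i) * algebraMap L0 L ((e j : W) : L0) :=
            Finset.sum_comm
        _ = ∑ i, a i • algebraMap K L (c i) := by
            refine Finset.sum_congr rfl fun i _ => ?_
            rw [Algebra.smul_def, h1 i, map_sum, Finset.sum_mul]
            refine Finset.sum_congr rfl fun j _ => ?_
            rw [Algebra.smul_def, map_mul, ← IsScalarTower.algebraMap_apply]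
            ring
    have h3 := he2 _ h2
    rw [Fintype.linearIndependent_iff] at hc
    intro i
    rw [h1 i]
    refine Finset.sum_eq_zero fun j _ => ?_
    rw [hc _ (h3 j) i, zero_smul]
  gen := by
    intro a
    obtain ⟨p, q, hp, hq, hq0, h⟩ := hP.gen a
    exact ⟨p, q, RR_swap hp, RR_swap hq, hq0, h⟩

/-- linear functionals on `K` extend to `K · L0` -/
theorem dual_apply (hP : IsProd k K L0 L) (φ : K →ₗ[k] k) {n : ℕ} (κ : Fin n → K) (h : Fin n → L0)
    (h0 : ∑ i, algebraMap K L (κ i) * algebraMap L0 L (h i) = 0) : ∑ i, φ (κ i) • h i = 0 := by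
  classical
  let W := Submodule.span k (Set.range κ)
  have : FiniteDimensional k W := FiniteDimensional.span_of_finite k (Set.finite_range κ)
  let e := Module.finBasis k W
  let a' : Fin n → W := fun i => ⟨κ i, Submodule.subset_span ⟨i, rfl⟩⟩
  have he : LinearIndependent k (fun j => ((e j : W) : K)) :=
    e.linearIndependent.map' W.subtype (Submodule.ker_subtype W)
  have he2 := hP.symm.ld _ _ he
  rw [Fintype.linearIndependent_iff] at he2
  have h1 : ∀ i, κ i = ∑ j, (e.repr (a' i) j) • ((e j : W) : K) := by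
    intro i
    have h2 := e.sum_repr (a' i)
    have h3 := congrArg (fun x : W => (x : K)) h2
    simp only [Submodule.coe_sum, Submodule.coe_smul] at h3
    exact h3.symm
  have h2 : ∑ j, (∑ i, (e.repr (a' i) j) • h i) • algebraMap K L ((e j : W) : K) = 0 := by
    rw [← h0]
    calc ∑ j, (∑ i, (e.repr (a' i) j) • h i) • algebraMap K L ((e j : W) : K)
        = ∑ j, ∑ i, algebraMap k L (e.repr (a' i) j) * algebraMap L0 L (h i) * algebraMap K L ((e j : W) : K) := by
          refine Finset.sum_congr rfl fun j _ => ?_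
          rw [Algebra.smul_def, map_sum, Finset.sum_mul]
          refine Finset.sum_congr rfl fun i _ => ?_
          rw [Algebra.smul_def, map_mul, ← IsScalarTower.algebraMap_apply]
      _ = ∑ i, ∑ j, algebraMap k L (e.repr (a' i) j) * algebraMap L0 L (h i) * algebraMap K L ((e j : W) : K) :=
          Finset.sum_comm
      _ = ∑ i, algebraMap K L (κ i) * algebraMap L0 L (h i) := by
          refine Finset.sum_congr rfl fun i _ => ?_
          conv_rhs => rw [h1 i]
          rw [map_sum, Finset.sum_mul]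
          refine Finset.sum_congr rfl fun j _ => ?_
          rw [Algebra.smul_def, map_mul, ← IsScalarTower.algebraMap_apply]
          ring
  have h3 := he2 _ h2
  calc ∑ i, φ (κ i) • h i = ∑ i, ∑ j, φ ((e j : W) : K) • (e.repr (a' i) j) • h i := by
        refine Finset.sum_congr rfl fun i _ => ?_
        conv_lhs => rw [h1 i]
        rw [map_sum, Finset.sum_smul]
        refine Finset.sum_congr rfl fun j _ => ?_
        rw [map_smul, smul_eq_mul, mul_comm, mul_smul]
    _ = ∑ j, φ ((e j : W) : K) • ∑ i, (e.repr (a' i) j) • h i := by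
        rw [Finset.sum_comm]
        exact Finset.sum_congr rfl fun j _ => (Finset.smul_sum).symm
    _ = 0 := Finset.sum_eq_zero fun j _ => by rw [h3 j, smul_zero]

end rep

section gauss

variable {k K L0 L : Type*} [Field k] [IsAlgClosed k] [CharZero k] [Field K] [Field L0] [Field L] [Algebra k K]
  [Algebra k L0] [Algebra k L] [Algebra K L] [Algebra L0 L] [IsScalarTower k K L] [IsScalarTower k L0 L]

/-- the basic estimate: sums with independent coefficients have no cancellation -/
theorem gauss_unit (hL0 : IsFun k L0) {w : Valuation L0 ℤᵐ⁰} (hw : w ∈ VN k L0)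
    {v : Valuation L ℤᵐ⁰} (hvK : ∀ x : K, x ≠ 0 → v (algebraMap K L x) = 1)
    (hv1 : ∀ h : L0, w h < 1 → v (algebraMap L0 L h) < 1) {n : ℕ} (κ : Fin n → K) (hκ : LinearIndependent k κ)
    (b : Fin n → L0) (hb : ∀ i, w (b i) ≤ 1) (i0 : Fin n) (hi0 : w (b i0) = 1) :
    v (∑ i, algebraMap K L (κ i) * algebraMap L0 L (b i)) = 1 := by
  choose c hc using fun i => exists_res hL0 hw (hb i)
  have hc0 : c i0 ≠ 0 := by
    intro h0
    have h1 := hc i0
    rw [h0, map_zero, sub_zero, hi0] at h1
    exact lt_irrefl _ h1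
  have hsum : ∑ i, algebraMap K L (κ i) * algebraMap L0 L (b i) =
      algebraMap K L (∑ i, c i • κ i) + ∑ i, algebraMap K L (κ i) * algebraMap L0 L (b i - algebraMap k L0 (c i)) := by
    rw [map_sum, ← Finset.sum_add_distrib]
    refine Finset.sum_congr rfl fun i _ => ?_
    rw [Algebra.smul_def, map_mul, ← IsScalarTower.algebraMap_apply, map_sub, ← IsScalarTower.algebraMap_apply]
    ring
  have hne : ∑ i, c i • κ i ≠ 0 := by
    intro h0
    exact hc0 (Fintype.linearIndependent_iff.1 hκ c h0 i0)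
  have hK : ∀ x : K, v (algebraMap K L x) ≤ 1 := by
    intro x
    by_cases hx : x = 0
    · rw [hx, map_zero, map_zero]; exact zero_le_one
    · rw [hvK x hx]
  have h1 : v (∑ i, algebraMap K L (κ i) * algebraMap L0 L (b i - algebraMap k L0 (c i))) < 1 := by
    refine Valuation.map_sum_lt v one_ne_zero fun i _ => ?_
    rw [map_mul]
    exact (mul_le_of_le_one_left' (hK _)).trans_lt (hv1 _ (hc i))
  rw [hsum, Valuation.map_add_eq_of_lt_left v (by rw [hvK _ hne]; exact h1), hvK _ hne]

/-- the Gauss norm -/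
theorem gauss_le (hL0 : IsFun k L0) {w : Valuation L0 ℤᵐ⁰} (hw : w ∈ VN k L0)
    {v : Valuation L ℤᵐ⁰} (hv : v ∈ VN K L) (hvw : ∀ h : L0, v (algebraMap L0 L h) = w h) {n : ℕ}
    (κ : Fin n → K) (hκ : LinearIndependent k κ) (h : Fin n → L0) (i : Fin n) :
    w (h i) ≤ v (∑ i, algebraMap K L (κ i) * algebraMap L0 L (h i)) := by
  obtain ⟨i0, -, hi0⟩ := Finset.exists_max_image Finset.univ (fun i => w (h i)) ⟨i, Finset.mem_univ i⟩
  by_cases h0 : h i0 = 0
  · have h1 := hi0 i (Finset.mem_univ i)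
    rw [h0, map_zero] at h1
    exact h1.trans zero_le
  have hw0 : w (h i0) ≠ 0 := (Valuation.ne_zero_iff w).2 h0
  have h2 := gauss_unit hL0 hw (v := v) (K := K) hv.2 (fun h hh => by rw [hvw]; exact hh) κ hκ (fun i => h i / h i0)
    (fun i => by
      rw [map_div₀]
      exact (div_le_one₀ (zero_lt_iff.2 hw0)).2 (hi0 i (Finset.mem_univ i))) i0
    (by rw [map_div₀, div_self hw0])
  have h3 : ∑ i, algebraMap K L (κ i) * algebraMap L0 L (h i) = algebraMap L0 L (h i0) *
      ∑ i, algebraMap K L (κ i) * algebraMap L0 L (h i / h i0) := by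
    rw [Finset.mul_sum]
    refine Finset.sum_congr rfl fun i _ => ?_
    have h4 : algebraMap L0 L (h i0) ≠ 0 := (map_ne_zero _).2 h0
    rw [map_div₀]
    field_simp
  rw [h3, map_mul, h2, mul_one, hvw]
  exact hi0 i (Finset.mem_univ i)

/-- the ring `K · O_w` -/
def RW (K L : Type*) {L0 : Type*} [Field K] [Field L0] [Field L] [Algebra K L] [Algebra L0 L]
    (w : Valuation L0 ℤᵐ⁰) : Submodule K L :=
  Submodule.span K (algebraMap L0 L '' {h | w h ≤ 1})

theorem gauss_struct (hP : IsProd k K L0 L) (hL0 : IsFun k L0) {w : Valuation L0 ℤᵐ⁰} (hw : w ∈ VN k L0) {z : L0}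
    (hz : w z = WithZero.exp (-1 : ℤ)) {v : Valuation L ℤᵐ⁰} (hvK : ∀ x : K, x ≠ 0 → v (algebraMap K L x) = 1)
    (hv1 : ∀ h : L0, w h < 1 → v (algebraMap L0 L h) < 1) {a : L} (ha : a ≠ 0) :
    ∃ (m : ℤ) (p q : L), p ∈ RW K L w ∧ q ∈ RW K L w ∧ v p = 1 ∧ v q = 1 ∧
      a = algebraMap L0 L z ^ m * (p / q) := by
  have hz0 : z ≠ 0 := by
    rintro rfl
    rw [map_zero] at hz
    exact WithZero.exp_ne_zero hz.symm
  have key : ∀ p : L, p ∈ RR K L0 L → p ≠ 0 → ∃ (m : ℤ) (q : L), q ∈ RW K L w ∧ v q = 1 ∧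
      p = algebraMap L0 L z ^ m * q := by
    intro p hp hp0
    obtain ⟨n, κ, h, hκ, -, rfl⟩ := exists_rep k hp
    have hn : Nonempty (Fin n) := by
      by_contra hcon
      rw [not_nonempty_iff] at hcon
      exact hp0 (by simp)
    obtain ⟨i0, -, hi0⟩ := Finset.exists_max_image Finset.univ (fun i => w (h i)) Finset.univ_nonempty
    have h0 : h i0 ≠ 0 := by
      intro h0
      apply hp0
      refine Finset.sum_eq_zero fun i _ => ?_
      have h1 := hi0 i (Finset.mem_univ i)
      rw [h0, map_zero] at h1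
      have h2 : h i = 0 := (Valuation.zero_iff w).1 (le_antisymm h1 zero_le)
      rw [h2, map_zero, mul_zero]
    have hw0 : w (h i0) ≠ 0 := (Valuation.ne_zero_iff w).2 h0
    obtain ⟨m, hm⟩ : ∃ m : ℤ, w (h i0) = WithZero.exp (-m) := ⟨-WithZero.log (w (h i0)), by
      rw [neg_neg, WithZero.exp_log hw0]⟩
    have hzm : w (z ^ m) = w (h i0) := by
      rw [map_zpow₀, hz, hm, ← WithZero.exp_zsmul]
      congr 1
      rw [smul_eq_mul]; ring
    have hzm0 : z ^ m ≠ 0 := zpow_ne_zero _ hz0
    refine ⟨m, ∑ i, algebraMap K L (κ i) * algebraMap L0 L (h i / z ^ m), ?_, ?_, ?_⟩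
    · refine Submodule.sum_mem _ fun i _ => ?_
      rw [← Algebra.smul_def]
      refine Submodule.smul_mem _ _ (Submodule.subset_span ⟨_, ?_, rfl⟩)
      show w _ ≤ 1
      rw [map_div₀, hzm]
      exact (div_le_one₀ (zero_lt_iff.2 hw0)).2 (hi0 i (Finset.mem_univ i))
    · refine gauss_unit hL0 hw hvK hv1 κ hκ _ (fun i => ?_) i0 ?_
      · rw [map_div₀, hzm]
        exact (div_le_one₀ (zero_lt_iff.2 hw0)).2 (hi0 i (Finset.mem_univ i))
      · rw [map_div₀, hzm, div_self hw0]
    · rw [Finset.mul_sum]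
      refine Finset.sum_congr rfl fun i _ => ?_
      have h4 : algebraMap L0 L z ≠ 0 := (map_ne_zero _).2 hz0
      have h5 : algebraMap L0 L z ^ m ≠ 0 := zpow_ne_zero _ h4
      rw [map_div₀, map_zpow₀]
      field_simp
  obtain ⟨p0, q0, hp, hq, hq0, rfl⟩ := hP.gen a
  have hp0 : p0 ≠ 0 := by
    rintro rfl
    exact ha (zero_div _)
  obtain ⟨m, p, hp1, hp2, hp3⟩ := key p0 hp hp0
  obtain ⟨m', q, hq1, hq2, hq3⟩ := key q0 hq hq0
  have hz1 : algebraMap L0 L z ≠ 0 := (map_ne_zero _).2 hz0
  refine ⟨m - m', p, q, hp1, hq1, hp2, hq2, ?_⟩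
  rw [hp3, hq3, zpow_sub₀ hz1]
  have h5 : algebraMap L0 L z ^ m' ≠ 0 := zpow_ne_zero _ hz1
  have hq' : q ≠ 0 := by
    rintro rfl
    rw [map_zero] at hq2
    exact zero_ne_one hq2
  field_simp

/-- the ideal `K · m_w` of `K · O_w` -/
def MW (K L : Type*) {L0 : Type*} [Field K] [Field L0] [Field L] [Algebra K L] [Algebra L0 L]
    (w : Valuation L0 ℤᵐ⁰) : Submodule K L :=
  Submodule.span K (algebraMap L0 L '' {h | w h < 1})

omit [IsAlgClosed k] [CharZero k] in
theorem MW_le (w : Valuation L0 ℤᵐ⁰) : MW K L w ≤ RW K L w :=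
  Submodule.span_mono (Set.image_mono fun x (hx : w x < 1) => show w x ≤ 1 from le_of_lt hx)

theorem RW_mul {w : Valuation L0 ℤᵐ⁰} {a b : L} (ha : a ∈ RW K L w) (hb : b ∈ RW K L w) : a * b ∈ RW K L w := by
  induction ha using Submodule.span_induction with
  | mem x hx =>
    obtain ⟨h, hh, rfl⟩ := hx
    induction hb using Submodule.span_induction with
    | mem y hy =>
      obtain ⟨h', hh', rfl⟩ := hy
      rw [← map_mul]
      refine Submodule.subset_span ⟨_, ?_, rfl⟩
      show w _ ≤ 1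
      rw [map_mul]
      exact mul_le_one' hh hh'
    | zero => rw [mul_zero]; exact Submodule.zero_mem _
    | add x y _ _ hx hy => rw [mul_add]; exact Submodule.add_mem _ hx hy
    | smul c x _ hx => rw [mul_smul_comm]; exact Submodule.smul_mem _ _ hx
  | zero => rw [zero_mul]; exact Submodule.zero_mem _
  | add x y _ _ hx hy => rw [add_mul]; exact Submodule.add_mem _ hx hy
  | smul c x _ hx => rw [smul_mul_assoc]; exact Submodule.smul_mem _ _ hx

theorem MW_mul {w : Valuation L0 ℤᵐ⁰} {a b : L} (ha : a ∈ RW K L w) (hb : b ∈ MW K L w) : a * b ∈ MW K L w := by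
  induction ha using Submodule.span_induction with
  | mem x hx =>
    obtain ⟨h, hh, rfl⟩ := hx
    induction hb using Submodule.span_induction with
    | mem y hy =>
      obtain ⟨h', hh', rfl⟩ := hy
      rw [← map_mul]
      refine Submodule.subset_span ⟨_, ?_, rfl⟩
      show w _ < 1
      rw [map_mul]
      exact (mul_le_of_le_one_left' hh).trans_lt hh'
    | zero => rw [mul_zero]; exact Submodule.zero_mem _
    | add x y _ _ hx hy => rw [mul_add]; exact Submodule.add_mem _ hx hy
    | smul c x _ hx => rw [mul_smul_comm]; exact Submodule.smul_mem _ _ hx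
  | zero => rw [zero_mul]; exact Submodule.zero_mem _
  | add x y _ _ hx hy => rw [add_mul]; exact Submodule.add_mem _ hx hy
  | smul c x _ hx => rw [smul_mul_assoc]; exact Submodule.smul_mem _ _ hx

theorem RW_const (w : Valuation L0 ℤᵐ⁰) (x : K) : algebraMap K L x ∈ RW K L w := by
  have h : algebraMap K L x = x • algebraMap L0 L 1 := by rw [map_one, Algebra.smul_def, mul_one]
  rw [h]
  refine Submodule.smul_mem _ _ (Submodule.subset_span ⟨1, ?_, rfl⟩)
  show w 1 ≤ 1
  rw [map_one]

theorem RW_dec (hL0 : IsFun k L0) {w : Valuation L0 ℤᵐ⁰} (hw : w ∈ VN k L0) {a : L} (ha : a ∈ RW K L w) :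
    ∃ x : K, a - algebraMap K L x ∈ MW K L w := by
  induction ha using Submodule.span_induction with
  | mem x hx =>
    obtain ⟨h, hh, rfl⟩ := hx
    obtain ⟨c, hc⟩ := exists_res hL0 hw hh
    refine ⟨algebraMap k K c, ?_⟩
    rw [← IsScalarTower.algebraMap_apply, IsScalarTower.algebraMap_apply k L0 L, ← map_sub]
    exact Submodule.subset_span ⟨_, hc, rfl⟩
  | zero => exact ⟨0, by rw [map_zero, sub_zero]; exact Submodule.zero_mem _⟩
  | add x y _ _ hx hy =>
    obtain ⟨c, hc⟩ := hx
    obtain ⟨d, hd⟩ := hy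
    refine ⟨c + d, ?_⟩
    have h : x + y - algebraMap K L (c + d) = (x - algebraMap K L c) + (y - algebraMap K L d) := by
      rw [map_add]; ring
    rw [h]
    exact Submodule.add_mem _ hc hd
  | smul e x _ hx =>
    obtain ⟨c, hc⟩ := hx
    refine ⟨e * c, ?_⟩
    have h : e • x - algebraMap K L (e * c) = e • (x - algebraMap K L c) := by
      rw [smul_sub, Algebra.smul_def, Algebra.smul_def, map_mul]
    rw [h]
    exact Submodule.smul_mem _ _ hc

omit [IsAlgClosed k] [CharZero k] in
theorem MW_const (hP : IsProd k K L0 L) {w : Valuation L0 ℤᵐ⁰}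
    (hwk : ∀ x : k, x ≠ 0 → w (algebraMap k L0 x) = 1) {x : K} (hx : algebraMap K L x ∈ MW K L w) :
    x = 0 := by
  classical
  -- a representation
  obtain ⟨n, κ, r, hr, hsum⟩ : ∃ (n : ℕ) (κ : Fin n → K) (r : Fin n → L0), (∀ i, w (r i) < 1) ∧
      algebraMap K L x = ∑ i, algebraMap K L (κ i) * algebraMap L0 L (r i) := by
    generalize algebraMap K L x = a at hx
    induction hx using Submodule.span_induction with
    | mem x hx =>
      obtain ⟨h, hh, rfl⟩ := hx
      exact ⟨1, fun _ => 1, fun _ => h, fun _ => hh, by simp⟩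
    | zero => exact ⟨0, Fin.elim0, Fin.elim0, fun i => i.elim0, by simp⟩
    | add x y _ _ hx hy =>
      obtain ⟨n, κ, h, h1, rfl⟩ := hx
      obtain ⟨m, κ', h', h2, rfl⟩ := hy
      refine ⟨n + m, Fin.append κ κ', Fin.append h h', ?_, ?_⟩
      · intro i
        refine Fin.addCases (fun i => ?_) (fun i => ?_) i
        · rw [Fin.append_left]; exact h1 i
        · rw [Fin.append_right]; exact h2 i
      · rw [Fin.sum_univ_add]
        simp
    | smul c x _ hx =>
      obtain ⟨n, κ, h, h1, rfl⟩ := hx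
      refine ⟨n, fun i => c * κ i, h, h1, ?_⟩
      rw [Finset.smul_sum]
      refine Finset.sum_congr rfl fun i _ => ?_
      rw [Algebra.smul_def, map_mul]
      ring
  by_contra hx0
  obtain ⟨φ, hφ⟩ := Module.Projective.exists_dual_eq_one k hx0
  have h1 := dual_apply hP φ (Fin.cons x κ : Fin (n + 1) → K) (Fin.cons (-1) r : Fin (n + 1) → L0) (by
    rw [Fin.sum_univ_succ]
    simp only [Fin.cons_zero, Fin.cons_succ]
    rw [← hsum, map_neg, map_one]
    ring)
  rw [Fin.sum_univ_succ] at h1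
  simp only [Fin.cons_zero, Fin.cons_succ] at h1
  rw [hφ, one_smul] at h1
  have h2 : (1 : L0) = ∑ i, φ (κ i) • r i := (neg_add_eq_zero.1 h1)
  have h3 : w (∑ i, φ (κ i) • r i) < 1 := by
    refine Valuation.map_sum_lt w one_ne_zero fun i _ => ?_
    rw [Algebra.smul_def, map_mul]
    refine (mul_le_of_le_one_left' ?_).trans_lt (hr i)
    by_cases hc : φ (κ i) = 0
    · rw [hc, map_zero, map_zero]; exact zero_le_one
    · rw [hwk _ hc]
  rw [← h2, map_one] at h3
  exact lt_irrefl _ h3

/-- the elements of `K · O_w` outside `K · m_w` are closed under multiplication -/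
theorem UW_mul (hP : IsProd k K L0 L) (hL0 : IsFun k L0) {w : Valuation L0 ℤᵐ⁰} (hw : w ∈ VN k L0) {a b : L}
    (ha : a ∈ RW K L w ∧ a ∉ MW K L w) (hb : b ∈ RW K L w ∧ b ∉ MW K L w) :
    a * b ∈ RW K L w ∧ a * b ∉ MW K L w := by
  refine ⟨RW_mul ha.1 hb.1, fun hab => ?_⟩
  obtain ⟨x, hx⟩ := RW_dec hL0 hw ha.1
  obtain ⟨y, hy⟩ := RW_dec hL0 hw hb.1
  have h1 : algebraMap K L (x * y) ∈ MW K L w := by
    have h2 : algebraMap K L (x * y) = a * b - (b * (a - algebraMap K L x) +
        algebraMap K L x * (b - algebraMap K L y)) := by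
      rw [map_mul]; ring
    rw [h2]
    exact Submodule.sub_mem _ hab (Submodule.add_mem _ (MW_mul hb.1 hx) (MW_mul (RW_const w x) hy))
  have h2 := MW_const hP hw.2 h1
  rcases mul_eq_zero.1 h2 with h3 | h3
  · rw [h3, map_zero, sub_zero] at hx
    exact ha.2 hx
  · rw [h3, map_zero, sub_zero] at hy
    exact hb.2 hy

theorem UW_one (hP : IsProd k K L0 L) {w : Valuation L0 ℤᵐ⁰} (hw : w ∈ VN k L0) :
    (1 : L) ∈ RW K L w ∧ (1 : L) ∉ MW K L w := by
  constructor
  · have := RW_const (K := K) (L := L) w 1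
    rwa [map_one] at this
  · intro h
    rw [← map_one (algebraMap K L)] at h
    exact one_ne_zero (MW_const hP hw.2 h)

/-- the elements of `K · L0` are powers of the uniformizer times elements of `K · O_w` outside `K · m_w` -/
theorem RR_struct (hP : IsProd k K L0 L) (hL0 : IsFun k L0) {w : Valuation L0 ℤᵐ⁰} (hw : w ∈ VN k L0) {z : L0}
    (hz : w z = WithZero.exp (-1 : ℤ)) {p : L} (hp : p ∈ RR K L0 L) (hp0 : p ≠ 0) :
    ∃ (m : ℤ) (q : L), (q ∈ RW K L w ∧ q ∉ MW K L w) ∧ p = algebraMap L0 L z ^ m * q := by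
  have hz0 : z ≠ 0 := by
    rintro rfl
    rw [map_zero] at hz
    exact WithZero.exp_ne_zero hz.symm
  obtain ⟨n, κ, h, hκ, -, rfl⟩ := exists_rep k hp
  have hn : Nonempty (Fin n) := by
    by_contra hcon
    rw [not_nonempty_iff] at hcon
    exact hp0 (by simp)
  obtain ⟨i0, -, hi0⟩ := Finset.exists_max_image Finset.univ (fun i => w (h i)) Finset.univ_nonempty
  have h0 : h i0 ≠ 0 := by
    intro h0
    apply hp0
    refine Finset.sum_eq_zero fun i _ => ?_
    have h1 := hi0 i (Finset.mem_univ i)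
    rw [h0, map_zero] at h1
    have h2 : h i = 0 := (Valuation.zero_iff w).1 (le_antisymm h1 zero_le)
    rw [h2, map_zero, mul_zero]
  have hw0 : w (h i0) ≠ 0 := (Valuation.ne_zero_iff w).2 h0
  obtain ⟨m, hm⟩ : ∃ m : ℤ, w (h i0) = WithZero.exp (-m) := ⟨-WithZero.log (w (h i0)), by
    rw [neg_neg, WithZero.exp_log hw0]⟩
  have hzm : w (z ^ m) = w (h i0) := by
    rw [map_zpow₀, hz, hm, ← WithZero.exp_zsmul]
    congr 1
    rw [smul_eq_mul]; ring
  have hle : ∀ i, w (h i / z ^ m) ≤ 1 := by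
    intro i
    rw [map_div₀, hzm]
    exact (div_le_one₀ (zero_lt_iff.2 hw0)).2 (hi0 i (Finset.mem_univ i))
  choose c hc using fun i => exists_res hL0 hw (hle i)
  have hc0 : c i0 ≠ 0 := by
    intro h0
    have h1 := hc i0
    rw [h0, map_zero, sub_zero, map_div₀, hzm, div_self hw0] at h1
    exact lt_irrefl _ h1
  refine ⟨m, ∑ i, algebraMap K L (κ i) * algebraMap L0 L (h i / z ^ m), ⟨?_, fun hcon => ?_⟩, ?_⟩
  · refine Submodule.sum_mem _ fun i _ => ?_
    rw [← Algebra.smul_def]
    exact Submodule.smul_mem _ _ (Submodule.subset_span ⟨_, hle i, rfl⟩)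
  · have h1 : algebraMap K L (∑ i, c i • κ i) ∈ MW K L w := by
      have h2 : algebraMap K L (∑ i, c i • κ i) = ∑ i, algebraMap K L (κ i) * algebraMap L0 L (h i / z ^ m) -
          ∑ i, κ i • algebraMap L0 L (h i / z ^ m - algebraMap k L0 (c i)) := by
        rw [map_sum, ← Finset.sum_sub_distrib]
        refine Finset.sum_congr rfl fun i _ => ?_
        rw [Algebra.smul_def, Algebra.smul_def, map_mul, ← IsScalarTower.algebraMap_apply, map_sub,
          ← IsScalarTower.algebraMap_apply]
        ring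
      rw [h2]
      exact Submodule.sub_mem _ hcon (Submodule.sum_mem _ fun i _ =>
        Submodule.smul_mem _ _ (Submodule.subset_span ⟨_, hc i, rfl⟩))
    have h2 := MW_const hP hw.2 h1
    exact hc0 (Fintype.linearIndependent_iff.1 hκ c h2 i0)
  · rw [Finset.mul_sum]
    refine Finset.sum_congr rfl fun i _ => ?_
    have h4 : algebraMap L0 L z ≠ 0 := (map_ne_zero _).2 hz0
    have h5 : algebraMap L0 L z ^ m ≠ 0 := zpow_ne_zero _ h4
    rw [map_div₀, map_zpow₀]
    field_simp

theorem L_struct (hP : IsProd k K L0 L) (hL0 : IsFun k L0) {w : Valuation L0 ℤᵐ⁰} (hw : w ∈ VN k L0) {z : L0}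
    (hz : w z = WithZero.exp (-1 : ℤ)) {a : L} (ha : a ≠ 0) :
    ∃ (m : ℤ) (p q : L), (p ∈ RW K L w ∧ p ∉ MW K L w) ∧ (q ∈ RW K L w ∧ q ∉ MW K L w) ∧
      a = algebraMap L0 L z ^ m * (p / q) := by
  have hz0 : z ≠ 0 := by
    rintro rfl
    rw [map_zero] at hz
    exact WithZero.exp_ne_zero hz.symm
  obtain ⟨p0, q0, hp, hq, hq0, rfl⟩ := hP.gen a
  have hp0 : p0 ≠ 0 := by
    rintro rfl
    exact ha (zero_div _)
  obtain ⟨m, p, hp1, hp3⟩ := RR_struct hP hL0 hw hz hp hp0
  obtain ⟨m', q, hq1, hq3⟩ := RR_struct hP hL0 hw hz hq hq0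
  have hz1 : algebraMap L0 L z ≠ 0 := (map_ne_zero _).2 hz0
  refine ⟨m - m', p, q, hp1, hq1, ?_⟩
  rw [hp3, hq3, zpow_sub₀ hz1]
  have h5 : algebraMap L0 L z ^ m' ≠ 0 := zpow_ne_zero _ hz1
  have hq' : q ≠ 0 := by
    rintro rfl
    exact hq1.2 (Submodule.zero_mem _)
  field_simp

/-- uniqueness of the exponent, and integrality -/
theorem L_unique {w : Valuation L0 ℤᵐ⁰} {z : L0}
    (hz : w z = WithZero.exp (-1 : ℤ)) {m m' : ℤ} {r p : L} (hr : r ∈ RW K L w)
    (hp : p ∈ RW K L w ∧ p ∉ MW K L w)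
    (h : algebraMap L0 L z ^ m * r = algebraMap L0 L z ^ m' * p) : m ≤ m' := by
  by_contra hcon
  push Not at hcon
  have hz0 : z ≠ 0 := by
    rintro rfl
    rw [map_zero] at hz
    exact WithZero.exp_ne_zero hz.symm
  have hz1 : algebraMap L0 L z ≠ 0 := (map_ne_zero _).2 hz0
  obtain ⟨j, hj⟩ : ∃ j : ℕ, m - m' = j + 1 := ⟨(m - m' - 1).toNat, by omega⟩
  have h1 : p = algebraMap L0 L z ^ (j + 1) * r := by
    have h2 : algebraMap L0 L z ^ (j + 1) = algebraMap L0 L z ^ (m - m') := by
      rw [hj]; norm_cast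
    rw [h2, zpow_sub₀ hz1]
    have h5 : algebraMap L0 L z ^ m' ≠ 0 := zpow_ne_zero _ hz1
    field_simp
    rw [mul_comm p, ← h]
  apply hp.2
  rw [h1, ← map_pow, mul_comm]
  refine MW_mul hr (Submodule.subset_span ⟨_, ?_, rfl⟩)
  show w _ < 1
  rw [map_pow]
  refine pow_lt_one₀ zero_le ?_ (by omega)
  rw [hz, ← WithZero.exp_zero, WithZero.exp_lt_exp]
  norm_num

/-- **the Gauss valuation** -/
theorem exists_gauss (hP : IsProd k K L0 L) (hL0 : IsFun k L0) {w : Valuation L0 ℤᵐ⁰} (hw : w ∈ VN k L0) :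
    ∃ v ∈ VN K L, ∀ h : L0, v (algebraMap L0 L h) = w h := by
  classical
  obtain ⟨z, hz⟩ := hw.1 (WithZero.exp (-1 : ℤ))
  have hz0 : z ≠ 0 := by
    rintro rfl
    rw [map_zero] at hz
    exact WithZero.exp_ne_zero hz.symm
  have hz1 : algebraMap L0 L z ≠ 0 := (map_ne_zero _).2 hz0
  choose! o P Q hPo hQo hdec using fun (a : L) (ha : a ≠ 0) => L_struct hP hL0 hw hz ha
  have hne : ∀ {q : L}, q ∉ MW K L w → q ≠ 0 := by
    rintro q hq rfl
    exact hq (Submodule.zero_mem _)
  -- the exponent is determined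
  have huniq : ∀ (a : L) (ha : a ≠ 0) (m : ℤ) (p q : L), (p ∈ RW K L w ∧ p ∉ MW K L w) →
      (q ∈ RW K L w ∧ q ∉ MW K L w) → a = algebraMap L0 L z ^ m * (p / q) → o a = m := by
    intro a ha m p q hp hq h
    have hq0 := hne hq.2
    have hQ0 := hne (hQo a ha).2
    have h1 : a * Q a = algebraMap L0 L z ^ (o a) * P a := by
      calc a * Q a = (algebraMap L0 L z ^ (o a) * (P a / Q a)) * Q a := by rw [← hdec a ha]
        _ = _ := by rw [mul_assoc, div_mul_cancel₀ _ hQ0]
    have h1' : a * q = algebraMap L0 L z ^ m * p := by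
      rw [h, mul_assoc, div_mul_cancel₀ _ hq0]
    have h2 : algebraMap L0 L z ^ (o a) * (P a * q) = algebraMap L0 L z ^ m * (p * Q a) := by
      linear_combination (-q) * h1 + (Q a) * h1'
    refine le_antisymm ?_ ?_
    · exact L_unique hz (UW_mul hP hL0 hw (hPo a ha) hq).1 (UW_mul hP hL0 hw hp (hQo a ha)) h2
    · exact L_unique hz (UW_mul hP hL0 hw hp (hQo a ha)).1 (UW_mul hP hL0 hw (hPo a ha) hq) h2.symm
  have hge : ∀ (a : L) (ha : a ≠ 0) (m : ℤ) (r q : L), r ∈ RW K L w →
      (q ∈ RW K L w ∧ q ∉ MW K L w) → a = algebraMap L0 L z ^ m * (r / q) → m ≤ o a := by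
    intro a ha m p q hp hq h
    have hq0 := hne hq.2
    have hQ0 := hne (hQo a ha).2
    have h1 : a * Q a = algebraMap L0 L z ^ (o a) * P a := by
      calc a * Q a = (algebraMap L0 L z ^ (o a) * (P a / Q a)) * Q a := by rw [← hdec a ha]
        _ = _ := by rw [mul_assoc, div_mul_cancel₀ _ hQ0]
    have h1' : a * q = algebraMap L0 L z ^ m * p := by
      rw [h, mul_assoc, div_mul_cancel₀ _ hq0]
    have h2 : algebraMap L0 L z ^ m * (p * Q a) = algebraMap L0 L z ^ (o a) * (P a * q) := by
      linear_combination (q) * h1 - (Q a) * h1'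
    exact L_unique hz (RW_mul hp (hQo a ha).1) (UW_mul hP hL0 hw (hPo a ha) hq) h2
  have hmul : ∀ a b : L, a ≠ 0 → b ≠ 0 → o (a * b) = o a + o b := by
    intro a b ha hb
    refine huniq (a * b) (mul_ne_zero ha hb) _ (P a * P b) (Q a * Q b) (UW_mul hP hL0 hw (hPo a ha) (hPo b hb))
      (UW_mul hP hL0 hw (hQo a ha) (hQo b hb)) ?_
    conv_lhs => rw [hdec a ha, hdec b hb]
    rw [zpow_add₀ hz1]
    have hQa := hne (hQo a ha).2
    have hQb := hne (hQo b hb).2
    field_simp
  have hadd : ∀ a b : L, a ≠ 0 → b ≠ 0 → a + b ≠ 0 → min (o a) (o b) ≤ o (a + b) := by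
    have aux : ∀ a b : L, a ≠ 0 → b ≠ 0 → a + b ≠ 0 → o a ≤ o b → o a ≤ o (a + b) := by
      intro a b ha hb hab hle
      obtain ⟨j, hj⟩ : ∃ j : ℕ, o b = o a + j := ⟨(o b - o a).toNat, by omega⟩
      have hQa := hne (hQo a ha).2
      have hQb := hne (hQo b hb).2
      refine hge (a + b) hab (o a) (P a * Q b + algebraMap L0 L (z ^ j) * (P b * Q a)) (Q a * Q b) ?_
        (UW_mul hP hL0 hw (hQo a ha) (hQo b hb)) ?_
      · refine Submodule.add_mem _ (RW_mul (hPo a ha).1 (hQo b hb).1) (RW_mul ?_ (RW_mul (hPo b hb).1 (hQo a ha).1))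
        refine Submodule.subset_span ⟨_, ?_, rfl⟩
        show w _ ≤ 1
        rw [map_pow]
        refine pow_le_one₀ zero_le ?_
        rw [hz, ← WithZero.exp_zero, WithZero.exp_le_exp]
        norm_num
      · conv_lhs => rw [hdec a ha, hdec b hb, hj]
        rw [zpow_add₀ hz1, zpow_natCast, map_pow]
        field_simp
    intro a b ha hb hab
    rcases le_total (o a) (o b) with h | h
    · rw [min_eq_left h]
      exact aux a b ha hb hab h
    · rw [min_eq_right h, add_comm]
      exact aux b a hb ha (by rwa [add_comm]) h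
  let v : Valuation L ℤᵐ⁰ :=
    { toFun := fun a => if a = 0 then 0 else WithZero.exp (-(o a))
      map_zero' := by simp
      map_one' := by
        have h1 : o 1 = 0 := huniq 1 one_ne_zero 0 1 1 (UW_one hP hw) (UW_one hP hw) (by simp)
        simp [h1]
      map_mul' := by
        intro a b
        by_cases ha : a = 0
        · simp [ha]
        by_cases hb : b = 0
        · simp [hb]
        simp only [ha, hb, mul_ne_zero ha hb, if_false, hmul a b ha hb, neg_add, WithZero.exp_add]
      map_add_le_max' := by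
        intro a b
        by_cases ha : a = 0
        · simp [ha]
        by_cases hb : b = 0
        · simp [hb]
        by_cases hab : a + b = 0
        · simp [hab]
        simp only [ha, hb, hab, if_false]
        have h1 := hadd a b ha hb hab
        rcases min_le_iff.1 h1 with h2 | h2
        · exact le_max_of_le_left (WithZero.exp_le_exp.2 (by omega))
        · exact le_max_of_le_right (WithZero.exp_le_exp.2 (by omega)) }
  have hv : ∀ a : L, a ≠ 0 → v a = WithZero.exp (-(o a)) := fun a ha => if_neg ha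
  have hvw : ∀ h : L0, v (algebraMap L0 L h) = w h := by
    intro h
    by_cases h0 : h = 0
    · rw [h0, map_zero, map_zero, map_zero]
    have hw0 : w h ≠ 0 := (Valuation.ne_zero_iff w).2 h0
    obtain ⟨m, hm⟩ : ∃ m : ℤ, w h = WithZero.exp (-m) := ⟨-WithZero.log (w h), by
      rw [neg_neg, WithZero.exp_log hw0]⟩
    have hL : algebraMap L0 L h ≠ 0 := (map_ne_zero _).2 h0
    have hu : w (h / z ^ m) = 1 := by
      rw [map_div₀, map_zpow₀, hz, hm, ← WithZero.exp_zsmul, smul_eq_mul]
      rw [show m * (-1 : ℤ) = -m by ring, div_self WithZero.exp_ne_zero]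
    have hU : algebraMap L0 L (h / z ^ m) ∈ RW K L w ∧ algebraMap L0 L (h / z ^ m) ∉ MW K L w := by
      constructor
      · exact Submodule.subset_span ⟨_, hu.le, rfl⟩
      · intro hcon
        obtain ⟨c, hc⟩ := exists_res hL0 hw hu.le
        have h1 : algebraMap K L (algebraMap k K c) ∈ MW K L w := by
          have h2 : algebraMap K L (algebraMap k K c) = algebraMap L0 L (h / z ^ m) -
              algebraMap L0 L (h / z ^ m - algebraMap k L0 c) := by
            rw [map_sub (algebraMap L0 L), ← IsScalarTower.algebraMap_apply, ← IsScalarTower.algebraMap_apply]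
            ring
          rw [h2]
          exact Submodule.sub_mem _ hcon (Submodule.subset_span ⟨_, hc, rfl⟩)
        have h2 := MW_const hP hw.2 h1
        have h3 : c = 0 := (map_eq_zero _).1 h2
        rw [h3, map_zero, sub_zero, hu] at hc
        exact lt_irrefl _ hc
    rw [hv _ hL, huniq _ hL m _ 1 hU (UW_one hP hw) (by
      rw [div_one, map_div₀, map_zpow₀]
      have h5 : algebraMap L0 L z ^ m ≠ 0 := zpow_ne_zero _ hz1
      field_simp), hm]
  refine ⟨v, ⟨?_, ?_⟩, hvw⟩
  · intro x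
    obtain ⟨h, hh⟩ := hw.1 x
    exact ⟨algebraMap L0 L h, by rw [hvw, hh]⟩
  · intro x hx
    have hx' : algebraMap K L x ≠ 0 := (map_ne_zero _).2 hx
    rw [hv _ hx', huniq _ hx' 0 (algebraMap K L x) 1 ⟨RW_const w x, fun hcon => hx (MW_const hP hw.2 hcon)⟩
      (UW_one hP hw) (by rw [zpow_zero, one_mul, div_one]), neg_zero, WithZero.exp_zero]

section ovr

variable (hP : IsProd k K L0 L) (hL0 : IsFun k L0) {w : Valuation L0 ℤᵐ⁰} (hw : w ∈ VN k L0)
  {v : Valuation L ℤᵐ⁰} (hv : v ∈ VN K L) (hvw : ∀ h : L0, v (algebraMap L0 L h) = w h)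

include hv hvw in
theorem val_RW {a : L} (ha : a ∈ RW K L w) : v a ≤ 1 := by
  induction ha using Submodule.span_induction with
  | mem x hx =>
    obtain ⟨h, hh, rfl⟩ := hx
    rw [hvw]; exact hh
  | zero => rw [map_zero]; exact zero_le_one
  | add x y _ _ hx hy => exact (Valuation.map_add v x y).trans (max_le hx hy)
  | smul c x _ hx =>
    rw [Algebra.smul_def, map_mul]
    refine mul_le_one' ?_ hx
    by_cases hc : c = 0
    · rw [hc, map_zero, map_zero]; exact zero_le_one
    · rw [hv.2 c hc]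

include hv hvw in
theorem val_MW {a : L} (ha : a ∈ MW K L w) : v a < 1 := by
  induction ha using Submodule.span_induction with
  | mem x hx =>
    obtain ⟨h, hh, rfl⟩ := hx
    rw [hvw]; exact hh
  | zero => rw [map_zero]; exact zero_lt_one
  | add x y _ _ hx hy => exact Valuation.map_add_lt v hx hy
  | smul c x _ hx =>
    rw [Algebra.smul_def, map_mul]
    refine (mul_le_of_le_one_left' ?_).trans_lt hx
    by_cases hc : c = 0
    · rw [hc, map_zero, map_zero]; exact zero_le_one
    · rw [hv.2 c hc]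

include hL0 hw hv hvw in
theorem val_UW {a : L} (ha : a ∈ RW K L w ∧ a ∉ MW K L w) : v a = 1 := by
  obtain ⟨x, hx⟩ := RW_dec hL0 hw ha.1
  have hx0 : x ≠ 0 := by
    rintro rfl
    rw [map_zero, sub_zero] at hx
    exact ha.2 hx
  have h1 : a = algebraMap K L x + (a - algebraMap K L x) := by ring
  rw [h1, Valuation.map_add_eq_of_lt_left v (by rw [hv.2 x hx0]; exact val_MW hv hvw hx), hv.2 x hx0]

include hP hL0 hw hv hvw in
/-- the elements of the valuation ring -/
theorem val_frac {a : L} (ha : v a ≤ 1) : ∃ p q : L, p ∈ RW K L w ∧ q ∈ RW K L w ∧ v q = 1 ∧ a = p / q := by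
  obtain ⟨z, hz⟩ := hw.1 (WithZero.exp (-1 : ℤ))
  by_cases ha0 : a = 0
  · refine ⟨0, 1, Submodule.zero_mem _, (UW_one hP hw).1, map_one v, by rw [ha0, zero_div]⟩
  obtain ⟨m, p, q, hp, hq, h⟩ := L_struct hP hL0 hw hz ha0
  have hm : 0 ≤ m := by
    rw [h, map_mul, map_div₀, val_UW hL0 hw hv hvw hp, val_UW hL0 hw hv hvw hq, div_one, mul_one, map_zpow₀,
      hvw, hz, ← WithZero.exp_zsmul, ← WithZero.exp_zero, WithZero.exp_le_exp, smul_eq_mul] at ha
    omega
  obtain ⟨j, rfl⟩ := Int.eq_ofNat_of_zero_le hm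
  refine ⟨algebraMap L0 L (z ^ j) * p, q, RW_mul (Submodule.subset_span ⟨_, ?_, rfl⟩) hp.1, hq.1,
    val_UW hL0 hw hv hvw hq, ?_⟩
  · show w _ ≤ 1
    rw [map_pow]
    refine pow_le_one₀ zero_le ?_
    rw [hz, ← WithZero.exp_zero, WithZero.exp_le_exp]
    norm_num
  · rw [h, map_pow, zpow_natCast, mul_div_assoc]

include hP hL0 hw hv hvw in
/-- a derivation which preserves `K · O_w` preserves the valuation ring -/
theorem der_gauss (D : Derivation ℤ L L) (hDK : ∀ x : K, v (D (algebraMap K L x)) ≤ 1)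
    (hD0 : ∀ h : L0, w h ≤ 1 → v (D (algebraMap L0 L h)) ≤ 1) {a : L} (ha : v a ≤ 1) : v (D a) ≤ 1 := by
  have hRW : ∀ {p : L}, p ∈ RW K L w → v (D p) ≤ 1 := by
    intro p hp
    induction hp using Submodule.span_induction with
    | mem x hx =>
      obtain ⟨h, hh, rfl⟩ := hx
      exact hD0 h hh
    | zero => rw [map_zero, map_zero]; exact zero_le_one
    | add x y _ _ hx hy => rw [map_add]; exact (Valuation.map_add v _ _).trans (max_le hx hy)
    | smul c x hx1 hx =>
      rw [Algebra.smul_def, D.leibniz, smul_eq_mul, smul_eq_mul]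
      refine (Valuation.map_add v _ _).trans (max_le ?_ ?_)
      · rw [map_mul]
        refine mul_le_one' ?_ hx
        by_cases hc : c = 0
        · rw [hc, map_zero, map_zero]; exact zero_le_one
        · rw [hv.2 c hc]
      · rw [map_mul]
        exact mul_le_one' (val_RW hv hvw hx1) (hDK c)
  obtain ⟨p, q, hp, hq, hq1, rfl⟩ := val_frac hP hL0 hw hv hvw ha
  have hq0 : q ≠ 0 := by
    rintro rfl
    rw [map_zero] at hq1
    exact zero_ne_one hq1
  have h1 : D (p / q) = (q * D p - p * D q) / q ^ 2 := by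
    have h2 : D p = D (p / q) * q + p / q * D q := by
      have h3 : p = (p / q) * q := by field_simp
      conv_lhs => rw [h3]
      rw [D.leibniz, smul_eq_mul, smul_eq_mul]
      ring
    rw [h2]
    field_simp
    ring
  rw [h1, map_div₀, map_pow, hq1, one_pow, div_one]
  refine (Valuation.map_sub v _ _).trans (max_le ?_ ?_)
  · rw [map_mul, hq1, one_mul]; exact hRW hp
  · rw [map_mul]; exact mul_le_one' (val_RW hv hvw hp) (hRW hq)

include hP hL0 hw hv hvw in
/-- the residue field is `K` -/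
theorem res_gauss {a : L} (ha : v a ≤ 1) : ∃ x : K, v (a - algebraMap K L x) < 1 := by
  obtain ⟨p, q, hp, hq, hq1, rfl⟩ := val_frac hP hL0 hw hv hvw ha
  obtain ⟨x, hx⟩ := RW_dec hL0 hw hp
  obtain ⟨y, hy⟩ := RW_dec hL0 hw hq
  have hx1 := val_MW hv hvw hx
  have hy1 := val_MW hv hvw hy
  have hy0 : y ≠ 0 := by
    rintro rfl
    rw [map_zero, sub_zero, hq1] at hy1
    exact lt_irrefl _ hy1
  have hq0 : q ≠ 0 := by
    rintro rfl
    rw [map_zero] at hq1
    exact zero_ne_one hq1
  have hy' : algebraMap K L y ≠ 0 := (map_ne_zero _).2 hy0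
  refine ⟨x / y, ?_⟩
  have h1 : p / q - algebraMap K L (x / y) = ((p - algebraMap K L x) * algebraMap K L y -
      algebraMap K L x * (q - algebraMap K L y)) / (q * algebraMap K L y) := by
    rw [map_div₀]
    field_simp
    ring
  rw [h1, map_div₀, map_mul v q, hq1, hv.2 y hy0, mul_one, div_one]
  have hxx : v (algebraMap K L x) ≤ 1 := by
    by_cases hc : x = 0
    · rw [hc, map_zero, map_zero]; exact zero_le_one
    · rw [hv.2 x hc]
  refine Valuation.map_sub_lt v ?_ ?_
  · rw [map_mul, hv.2 y hy0, mul_one]; exact hx1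
  · rw [map_mul]; exact (mul_le_of_le_one_left' hxx).trans_lt hy1

end ovr

end gauss

end Pool.Agent.Helper79.RG
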