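import Pool.Agent.Helper79.RG.M2
import Pool.Agent.Helper79.FE.Tm
import Pool.Agent.Helper79.FE.FinN

set_option autoImplicit false

/-!
# The differential symbol, and its values on unramified symbols
-/

set_option linter.unusedSectionVars false

namespace Pool.Agent.Helper79.RG

open scoped WithZero IntermediateField.algebraAdjoinAdjoin
open IntermediateField IsDedekindDomain
open Pool.Agent.Helper79.FE
open Pool.Agent.TH826.MK (KQ symb unitPart)
open Pool.Agent.Helper537_Sym (sy eq_cons)

section W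

variable {L : Type*} [Field L]

/-- the differential symbol `(D₁ ∧ D₂) (dlog a ∧ dlog b)` -/
noncomputable def Wf (D₁ D₂ : Derivation ℤ L L) (a b : L) : L := (D₁ a * D₂ b - D₁ b * D₂ a) / (a * b)

theorem der_div (D : Derivation ℤ L L) (p q : L) (hq : q ≠ 0) : D (p / q) = (q * D p - p * D q) / q ^ 2 := by
  have h2 : D p = D (p / q) * q + p / q * D q := by
    have h3 : p = (p / q) * q := by field_simp
    conv_lhs => rw [h3]
    rw [D.leibniz, smul_eq_mul, smul_eq_mul]
    ring
  rw [h2]
  field_simp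
  ring

variable [CharZero L]

theorem exists_W (D₁ D₂ : Derivation ℤ L L) : ∃ Φ : KQ L 2 →ₗ[ℚ] L, ∀ u v : Lˣ, Φ (sy u v) = Wf D₁ D₂ u v := by
  refine ⟨KQ.lift (fun a => Wf D₁ D₂ (a 0 : L) (a 1 : L)) ?_ ?_, fun u v => ?_⟩
  · intro a i x y
    have hx := x.ne_zero
    have hy := y.ne_zero
    have h0 := (a 0).ne_zero
    have h1 := (a 1).ne_zero
    fin_cases i
    · simp only [Wf, Fin.zero_eta, Function.update_self, ne_eq, one_ne_zero, not_false_eq_true, Function.update_of_ne,
        Units.val_mul, Derivation.leibniz, smul_eq_mul]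
      field_simp
      ring
    · simp only [Wf, Fin.mk_one, Function.update_self, ne_eq, zero_ne_one, not_false_eq_true, Function.update_of_ne,
        Units.val_mul, Derivation.leibniz, smul_eq_mul]
      field_simp
      ring
  · rintro a ⟨i, j, hij, h⟩
    have hi : i = 0 := by omega
    have hj : j = 1 := by omega
    subst hi hj
    have h1 : (a 0 : L) = 1 - a 1 := eq_sub_of_add_eq h
    simp only [Wf, h1, map_sub, Derivation.map_one_eq_zero]
    ring
  · have h := KQ.lift_symb (fun a : Fin 2 → Lˣ => Wf D₁ D₂ (a 0 : L) (a 1 : L)) (by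
      intro a i x y
      have hx := x.ne_zero
      have hy := y.ne_zero
      have h0 := (a 0).ne_zero
      have h1 := (a 1).ne_zero
      fin_cases i
      · simp only [Wf, Fin.zero_eta, Function.update_self, ne_eq, one_ne_zero, not_false_eq_true, Function.update_of_ne,
          Units.val_mul, Derivation.leibniz, smul_eq_mul]
        field_simp
        ring
      · simp only [Wf, Fin.mk_one, Function.update_self, ne_eq, zero_ne_one, not_false_eq_true, Function.update_of_ne,
          Units.val_mul, Derivation.leibniz, smul_eq_mul]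
        field_simp
        ring) (by
      rintro a ⟨i, j, hij, h⟩
      have hi : i = 0 := by omega
      have hj : j = 1 := by omega
      subst hi hj
      have h1 : (a 0 : L) = 1 - a 1 := eq_sub_of_add_eq h
      simp only [Wf, h1, map_sub, Derivation.map_one_eq_zero]
      ring) ![u, v]
    exact h

/-- the differential symbol on the unit part -/
theorem W_unit (D₁ D₂ : Derivation ℤ L L) (v : Valuation L ℤᵐ⁰) (hq : ∀ q : ℚ, v (q : L) ≤ 1) (C : ℤᵐ⁰)
    (h1 : ∀ a, v a ≤ 1 → v (D₁ a) ≤ 1) (h2 : ∀ a, v a ≤ 1 → v (D₂ a) ≤ C) (f g : Lˣ)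
    (hfg : sy f g ∈ unitPart v 2) : v (Wf D₁ D₂ f g) ≤ C := by
  obtain ⟨Φ, hΦ⟩ := exists_W D₁ D₂
  have key : ∀ z ∈ unitPart v 2, v (Φ z) ≤ C := by
    intro z hz
    induction hz using Submodule.span_induction with
    | mem x hx =>
      obtain ⟨a, ha, rfl⟩ := hx
      have e : symb a = sy (a 0) (a 1) := by
        conv_lhs => rw [eq_cons a]
        rfl
      rw [e, hΦ]
      unfold Wf
      rw [map_div₀, map_mul, ha 0, ha 1, mul_one, div_one]
      refine (Valuation.map_sub v _ _).trans (max_le ?_ ?_)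
      · rw [map_mul]
        calc v (D₁ ↑(a 0)) * v (D₂ ↑(a 1)) ≤ 1 * C := mul_le_mul' (h1 _ (ha 0).le) (h2 _ (ha 1).le)
          _ = C := one_mul _
      · rw [map_mul]
        calc v (D₁ ↑(a 1)) * v (D₂ ↑(a 0)) ≤ 1 * C := mul_le_mul' (h1 _ (ha 1).le) (h2 _ (ha 0).le)
          _ = C := one_mul _
    | zero => rw [map_zero, map_zero]; exact zero_le
    | add x y _ _ hx hy => rw [map_add]; exact (Valuation.map_add v _ _).trans (max_le hx hy)
    | smul c x _ hx =>
      rw [map_smul, Algebra.smul_def, map_mul]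
      calc v (algebraMap ℚ L c) * v (Φ x) ≤ 1 * C := mul_le_mul' (by
            rw [eq_ratCast]; exact hq c) hx
        _ = C := one_mul _
  rw [← hΦ]
  exact key _ hfg

end W

section der

/-- two derivations which agree on the constants and on a transcendence basis agree -/
theorem der_eq {k E M : Type*} [Field k] [Field E] [Algebra k E] [CharZero E] [AddCommGroup M] [Module E M] (t : E)
    (halg : Algebra.IsAlgebraic k⟮t⟯ E) (D D' : Derivation ℤ E M)
    (h1 : ∀ c : k, D (algebraMap k E c) = D' (algebraMap k E c)) (h2 : D t = D' t) : D = D' := by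
  refine der_unique (F := k⟮t⟯) D D' fun a => ?_
  obtain ⟨a, ha⟩ := a
  change D a = D' a
  induction ha using IntermediateField.adjoin_induction with
  | mem x hx =>
    rw [Set.mem_singleton_iff.1 hx]; exact h2
  | algebraMap x => exact h1 x
  | add x y _ _ hx hy => rw [map_add, map_add, hx, hy]
  | mul x y _ _ hx hy => rw [D.leibniz, D'.leibniz, hx, hy]
  | inv x _ h =>
    by_cases hx : x = 0
    · rw [hx, inv_zero, map_zero, map_zero]
    have e : ∀ D : Derivation ℤ E M, D x⁻¹ = -(x⁻¹ ^ 2) • D x := by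
      intro D
      have h3 : D (x * x⁻¹) = 0 := by rw [mul_inv_cancel₀ hx, D.map_one_eq_zero]
      rw [D.leibniz] at h3
      have h4 : x • D x⁻¹ = -(x⁻¹ • D x) := eq_neg_of_add_eq_zero_left h3
      have h5 := congrArg (fun m => x⁻¹ • m) h4
      simp only [smul_smul, smul_neg] at h5
      rw [inv_mul_cancel₀ hx, one_smul] at h5
      rw [h5, neg_smul, pow_two]
    rw [e D, e D', h]

variable {k K L0 L : Type*} [Field k] [CharZero k] [Field K] [Field L0] [Field L] [Algebra k K]
  [Algebra k L0] [Algebra k L] [Algebra K L] [Algebra L0 L] [IsScalarTower k K L] [IsScalarTower k L0 L]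

omit [CharZero k] in
theorem IsProd.alg (hP : IsProd k K L0 L) {t : K} (ht : Algebra.IsAlgebraic k⟮t⟯ K) :
    Algebra.IsAlgebraic L0⟮(algebraMap K L t)⟯ L := by
  have h1 : ∀ κ : K, IsAlgebraic L0⟮(algebraMap K L t)⟯ (algebraMap K L κ) := by
    intro κ
    have h2 := ht.isAlgebraic κ
    obtain ⟨p, hp0, hp⟩ := h2
    -- the inclusion of `k(t)`
    have hmem : ∀ a : K, a ∈ k⟮t⟯ → algebraMap K L a ∈ L0⟮(algebraMap K L t)⟯ := by
      intro a ha
      induction ha using IntermediateField.adjoin_induction with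
      | mem x hx =>
        rw [Set.mem_singleton_iff.1 hx]; exact IntermediateField.mem_adjoin_simple_self _ _
      | algebraMap x =>
        rw [← IsScalarTower.algebraMap_apply, IsScalarTower.algebraMap_apply k L0 L]
        exact IntermediateField.algebraMap_mem _ _
      | add x y _ _ hx hy => rw [map_add]; exact add_mem hx hy
      | mul x y _ _ hx hy => rw [map_mul]; exact mul_mem hx hy
      | inv x _ h => rw [map_inv₀]; exact inv_mem h
    let ι : k⟮t⟯ →+* L0⟮(algebraMap K L t)⟯ :=
      { toFun := fun a => ⟨algebraMap K L a, hmem a a.2⟩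
        map_one' := Subtype.ext (by simp)
        map_mul' := fun a b => Subtype.ext (by simp)
        map_zero' := Subtype.ext (by simp)
        map_add' := fun a b => Subtype.ext (by simp) }
    refine ⟨p.map ι, (Polynomial.map_ne_zero_iff ι.injective).2 hp0, ?_⟩
    rw [Polynomial.aeval_def, Polynomial.eval₂_map]
    have h3 : (algebraMap (↥L0⟮(algebraMap K L t)⟯) L).comp ι = (algebraMap K L).comp (algebraMap (k⟮t⟯) K) := by
      ext a; rfl
    rw [h3, ← Polynomial.hom_eval₂, ← Polynomial.aeval_def, hp, map_zero]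
  constructor
  intro a
  obtain ⟨p, q, hp, hq, -, rfl⟩ := hP.gen a
  have h2 : ∀ p ∈ RR K L0 L, IsAlgebraic L0⟮(algebraMap K L t)⟯ p := by
    intro p hp
    obtain ⟨n, κ, h, rfl⟩ := rep_aux hp
    refine mem_algebraicClosure_iff.1 (sum_mem fun i _ => mem_algebraicClosure_iff.2 ((h1 _).mul ?_))
    have : algebraMap L0 L (h i) = algebraMap L0⟮(algebraMap K L t)⟯ L (algebraMap L0 _ (h i)) := rfl
    rw [this]
    exact isAlgebraic_algebraMap _
  rw [div_eq_mul_inv]
  exact (h2 p hp).mul (h2 q hq).inv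

/-- the partial derivatives -/
theorem exists_pd (hP : IsProd k K L0 L) (t : K) (ht : Transcendental k t) (hta : Algebra.IsAlgebraic k⟮t⟯ K) :
    ∃ (d : Derivation ℤ K K) (D : Derivation ℤ L L), (∀ c : k, d (algebraMap k K c) = 0) ∧ d t = 1 ∧
      (∀ h : L0, D (algebraMap L0 L h) = 0) ∧ ∀ κ : K, D (algebraMap K L κ) = algebraMap K L (d κ) := by
  have hK : CharZero K := charZero_of_injective_algebraMap (algebraMap k K).injective
  have hLc : CharZero L := charZero_of_injective_algebraMap (algebraMap k L).injective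
  obtain ⟨d, hd1, hd2⟩ := exists_der (K := k) (E := K) t ht hta (fun _ => 0) (by simp) (by simp) 1
  obtain ⟨D, hD1, hD2⟩ := exists_der (K := L0) (E := L) (algebraMap K L t) (hP.symm.trans ht) (hP.alg hta)
    (fun _ => 0) (by simp) (by simp) 1
  refine ⟨d, D, hd1, hd2, hD1, fun κ => ?_⟩
  have h := der_eq (k := k) (E := K) (M := L) t hta (D.compAlgebraMap K)
    ((Algebra.linearMap K L).compDer d) (by
      intro c
      show D (algebraMap K L (algebraMap k K c)) = algebraMap K L (d (algebraMap k K c))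
      rw [hd1, map_zero, ← IsScalarTower.algebraMap_apply, IsScalarTower.algebraMap_apply k L0 L, hD1]) (by
      show D (algebraMap K L t) = algebraMap K L (d t)
      rw [hd2, map_one, hD2])
  exact congrArg (fun X => X κ) h

/-- a derivation which does not vanish at a transcendental element is nonzero at all of them -/
theorem der_ne {k E : Type*} [Field k] [Field E] [Algebra k E] [CharZero E] {x : E} (d : Derivation ℤ E E)
    (hd : ∀ c : k, d (algebraMap k E c) = 0) (hdx : d x = 1) {z : E}
    (hz : Algebra.IsAlgebraic k⟮z⟯ E) : d z ≠ 0 := by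
  intro h0
  have h1 := der_eq (k := k) (E := E) (M := E) z hz d 0 (fun c => by rw [hd]; rfl) (by rw [h0]; rfl)
  rw [h1] at hdx
  exact zero_ne_one hdx

end der

/-- `h` is the coefficient of a regular differential `h dx`; `d` is the derivation `d/dx` -/
def Reg (k : Type*) {E : Type*} [Field k] [Field E] [Algebra k E] (d : Derivation ℤ E E) (h : E) : Prop :=
  ∀ w ∈ VN k E, ∀ z : E, w z = WithZero.exp (-1 : ℤ) → w h ≤ w (d z)

theorem IsFun.alg {k E : Type*} [Field k] [CharZero k] [Field E] [Algebra k E] (hE : IsFun k E) {z : E}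
    (hz : Transcendental k z) : FiniteDimensional k⟮z⟯ E := by
  obtain ⟨w, hw1, hw2⟩ := hE
  exact fin_adj w z hw1 hz

theorem val_k {k E : Type*} [Field k] [Field E] [Algebra k E] {w : Valuation E ℤᵐ⁰} (hw : w ∈ VN k E) (c : k) :
    w (algebraMap k E c) ≤ 1 := by
  by_cases hc : c = 0
  · rw [hc, map_zero, map_zero]; exact zero_le_one
  · rw [hw.2 c hc]

theorem unif_trans {k E : Type*} [Field k] [CharZero k] [Field E] [Algebra k E] {w : Valuation E ℤᵐ⁰}
    (hw : w ∈ VN k E) {z : E} (hz : w z = WithZero.exp (-1 : ℤ)) : Transcendental k z := by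
  intro halg
  have hz0 : z ≠ 0 := by
    rintro rfl
    rw [map_zero] at hz
    exact WithZero.exp_ne_zero hz.symm
  have h1 := val_alg hw hz0 halg
  rw [hz, ← WithZero.exp_zero, WithZero.exp_inj] at h1
  omega

section partI

variable {k K L0 L : Type*} [Field k] [IsAlgClosed k] [CharZero k] [Field K] [Field L0] [Field L] [Algebra k K]
  [Algebra k L0] [Algebra k L] [Algebra K L] [Algebra L0 L] [IsScalarTower k K L] [IsScalarTower k L0 L]

/-- the derivation `d/dx` at a place -/
theorem dx_le (hL0 : IsFun k L0) {w : Valuation L0 ℤᵐ⁰} (hw : w ∈ VN k L0) {z : L0}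
    (hz : w z = WithZero.exp (-1 : ℤ)) {x : L0} (d : Derivation ℤ L0 L0) (hd : ∀ c : k, d (algebraMap k L0 c) = 0)
    (hdx : d x = 1) {h : L0} (hh : w h ≤ 1) : w (d h) ≤ w (d z) := by
  have hc0 : CharZero L0 := charZero_of_injective_algebraMap (algebraMap k L0).injective
  have hzt := unif_trans hw hz
  have hfin := hL0.alg hzt
  have hdz : d z ≠ 0 := der_ne (k := k) d hd hdx inferInstance
  have h1 := der_le hL0 hw hz ((d z)⁻¹ • d) (fun c => ⟨0, by
    rw [Derivation.smul_apply, hd, smul_zero, map_zero]⟩) hh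
  rw [Derivation.smul_apply, Derivation.smul_apply, smul_eq_mul, smul_eq_mul, inv_mul_cancel₀ hdz, map_one, max_self,
    map_mul, map_inv₀] at h1
  have h2 : w (d z) ≠ 0 := (Valuation.ne_zero_iff w).2 hdz
  calc w (d h) = w (d z) * ((w (d z))⁻¹ * w (d h)) := by rw [← mul_assoc, mul_inv_cancel₀ h2, one_mul]
    _ ≤ w (d z) * 1 := mul_le_mul_right h1 _
    _ = w (d z) := mul_one _

variable (hP : IsProd k K L0 L) (hL0 : IsFun k L0) {t : K} (ht : Transcendental k t)
  (hta : Algebra.IsAlgebraic k⟮t⟯ K) {x : L0} (hx : Transcendental k x)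
  (dt : Derivation ℤ K K) (Dt : Derivation ℤ L L) (hdt : ∀ c : k, dt (algebraMap k K c) = 0) (hdt1 : dt t = 1)
  (hDt0 : ∀ h : L0, Dt (algebraMap L0 L h) = 0) (hDt : ∀ κ : K, Dt (algebraMap K L κ) = algebraMap K L (dt κ))
  (dx : Derivation ℤ L0 L0) (Dx : Derivation ℤ L L) (hdx : ∀ c : k, dx (algebraMap k L0 c) = 0) (hdx1 : dx x = 1)
  (hDx0 : ∀ κ : K, Dx (algebraMap K L κ) = 0) (hDx : ∀ h : L0, Dx (algebraMap L0 L h) = algebraMap L0 L (dx h))

include hP hL0 hdx hdx1 hDt0 hDt hDx0 hDx in
/-- the differential symbol of the unit part at a Gauss valuation -/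
theorem W_gauss {w : Valuation L0 ℤᵐ⁰} (hw : w ∈ VN k L0) {z : L0} (hz : w z = WithZero.exp (-1 : ℤ))
    {v : Valuation L ℤᵐ⁰} (hv : v ∈ VN K L) (hvw : ∀ h : L0, v (algebraMap L0 L h) = w h) (f g : Lˣ)
    (hfg : sy f g ∈ unitPart v 2) : v (Wf Dt Dx f g) ≤ w (dx z) := by
  have hLc : CharZero L := charZero_of_injective_algebraMap (algebraMap k L).injective
  have hL0c : CharZero L0 := charZero_of_injective_algebraMap (algebraMap k L0).injective
  have hKc : CharZero K := charZero_of_injective_algebraMap (algebraMap k K).injective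
  have hzt := unif_trans hw hz
  have hfin := hL0.alg hzt
  have hdz : dx z ≠ 0 := der_ne (k := k) dx hdx hdx1 inferInstance
  have hdz' : algebraMap L0 L (dx z) ≠ 0 := (map_ne_zero _).2 hdz
  refine W_unit Dt Dx v (fun q => ?_) _ (fun a ha => ?_) (fun a ha => ?_) f g hfg
  · have h1 : ((q : ℚ) : L) = algebraMap K L (q : K) := by simp
    rw [h1]; exact val_k hv _
  · exact der_gauss hP hL0 hw hv hvw Dt (fun κ => by rw [hDt]; exact val_k hv _)
      (fun h _ => by rw [hDt0, map_zero]; exact zero_le_one) ha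
  · have h1 := der_gauss hP hL0 hw hv hvw ((algebraMap L0 L (dx z))⁻¹ • Dx)
      (fun κ => by rw [Derivation.smul_apply, hDx0, smul_zero, map_zero]; exact zero_le_one)
      (fun h hh => by
        rw [Derivation.smul_apply, hDx, smul_eq_mul, ← map_inv₀, ← map_mul, hvw, map_mul, map_inv₀]
        have h2 := dx_le hL0 hw hz dx hdx hdx1 hh
        have h3 : w (dx z) ≠ 0 := (Valuation.ne_zero_iff w).2 hdz
        calc (w (dx z))⁻¹ * w (dx h) ≤ (w (dx z))⁻¹ * w (dx z) := mul_le_mul_right h2 _
          _ = 1 := inv_mul_cancel₀ h3) ha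
    rw [Derivation.smul_apply, smul_eq_mul, map_mul, map_inv₀, hvw] at h1
    have h3 : w (dx z) ≠ 0 := (Valuation.ne_zero_iff w).2 hdz
    calc v (Dx a) = w (dx z) * ((w (dx z))⁻¹ * v (Dx a)) := by rw [← mul_assoc, mul_inv_cancel₀ h3, one_mul]
      _ ≤ w (dx z) * 1 := mul_le_mul_right h1 _
      _ = w (dx z) := mul_one _

include hP hL0 hx hDt0 hDt hDx0 hDx in
/-- the differential symbol of a symbol which is unramified at the non-constant places -/
theorem W_mem_RR (f g : Lˣ) (hfg : ∀ v ∈ VN K L, sy f g ∈ unitPart v 2) : Wf Dt Dx f g ∈ RR K L0 L := by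
  have hLc : CharZero L := charZero_of_injective_algebraMap (algebraMap k L).injective
  have hKc : CharZero K := charZero_of_injective_algebraMap (algebraMap k K).injective
  have hfin := hL0.alg hx
  refine mem_RR hP x hx fun v hv htriv => ?_
  have hRR : ∀ p ∈ RR K L0 L, v p ≤ 1 := by
    intro p hp
    obtain ⟨n, κ, h, rfl⟩ := rep_aux hp
    refine Valuation.map_sum_le v fun i _ => ?_
    rw [map_mul]
    refine mul_le_one' (val_k hv _) ?_
    by_cases hc : h i = 0
    · rw [hc, map_zero, map_zero]; exact zero_le_one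
    · rw [htriv _ hc]
  have key : ∀ D : Derivation ℤ L L, (∀ p ∈ RR K L0 L, D p ∈ RR K L0 L) → ∀ a, v a ≤ 1 → v (D a) ≤ 1 := by
    intro D hD a ha
    obtain ⟨p, q, hp, hq, hq1, rfl⟩ := frac_nc hP x hx hv htriv ha
    have hq0 : q ≠ 0 := by
      rintro rfl
      rw [map_zero] at hq1
      exact zero_ne_one hq1
    rw [der_div D p q hq0, map_div₀, map_pow, hq1, one_pow, div_one]
    refine (Valuation.map_sub v _ _).trans (max_le ?_ ?_)
    · rw [map_mul, hq1, one_mul]; exact hRR _ (hD _ hp)
    · rw [map_mul]; exact mul_le_one' (hRR _ hp) (hRR _ (hD _ hq))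
  refine W_unit Dt Dx v (fun q => ?_) _ (key Dt fun p hp => ?_) (key Dx fun p hp => ?_) f g (hfg v hv)
  · have h1 : ((q : ℚ) : L) = algebraMap K L (q : K) := by simp
    rw [h1]; exact val_k hv _
  · obtain ⟨n, κ, h, rfl⟩ := rep_aux hp
    rw [map_sum]
    refine Submodule.sum_mem _ fun i _ => ?_
    rw [Dt.leibniz, hDt0, hDt, smul_zero, zero_add, smul_eq_mul, mul_comm, ← Algebra.smul_def]
    exact Submodule.smul_mem _ _ (Submodule.subset_span ⟨_, rfl⟩)
  · obtain ⟨n, κ, h, rfl⟩ := rep_aux hp
    rw [map_sum]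
    refine Submodule.sum_mem _ fun i _ => ?_
    rw [Dx.leibniz, hDx0, hDx, smul_zero, add_zero, smul_eq_mul, ← Algebra.smul_def]
    exact Submodule.smul_mem _ _ (Submodule.subset_span ⟨_, rfl⟩)

include hP hL0 hx hdx hdx1 hDt0 hDt hDx0 hDx in
/-- **Part I**: the differential symbol of an unramified symbol is a combination of regular differentials -/
theorem partI (f g : Lˣ) (hfg : ∀ v ∈ VN K L, sy f g ∈ unitPart v 2) :
    ∃ (n : ℕ) (κ : Fin n → K) (h : Fin n → L0), LinearIndependent k κ ∧ LinearIndependent k h ∧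
      Wf Dt Dx f g = ∑ i, algebraMap K L (κ i) * algebraMap L0 L (h i) ∧ ∀ i, Reg k dx (h i) := by
  obtain ⟨n, κ, h, hκ, hh, hsum⟩ := exists_rep k (W_mem_RR hP hL0 hx dt Dt hDt0 hDt dx Dx hDx0 hDx f g hfg)
  refine ⟨n, κ, h, hκ, hh, hsum, fun i w hw z hz => ?_⟩
  obtain ⟨v, hv, hvw⟩ := exists_gauss (K := K) hP hL0 hw
  have h1 := W_gauss hP hL0 dt Dt hDt0 hDt dx Dx hdx hdx1 hDx0 hDx hw hz hv hvw f g (hfg v hv)
  rw [hsum] at h1
  exact (gauss_le hL0 hw hv hvw κ hκ h i).trans h1

end partI

end Pool.Agent.Helper79.RG
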