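import Pool.Agent.Helper79.RG.M4

set_option autoImplicit false

/-!
# The differential symbol at the vertical places
-/

set_option linter.unusedSectionVars false

namespace Pool.Agent.Helper79.RG

open scoped WithZero IntermediateField.algebraAdjoinAdjoin
open IntermediateField IsDedekindDomain
open Pool.Agent.Helper79.FE
open Pool.Agent.TH826.MK (KQ symb unitPart)
open Pool.Agent.Helper537_Sym (sy eq_cons)

theorem alg_mem {k E : Type*} [Field k] [IsAlgClosed k] [Field E] [Algebra k E] {h : E} (hh : IsAlgebraic k h) :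
    ∃ c : k, algebraMap k E c = h := by
  have h1 := minpoly.irreducible hh.isIntegral
  exact minpoly.mem_range_of_degree_eq_one k h (IsAlgClosed.degree_eq_one_of_irreducible k h1)

section dlog

variable {k L0 : Type*} [Field k] [IsAlgClosed k] [CharZero k] [Field L0] [Algebra k L0]

/-- a regular logarithmic differential vanishes -/
theorem dlog_reg (hL0 : IsFun k L0) {x : L0} (d : Derivation ℤ L0 L0) (hd : ∀ c : k, d (algebraMap k L0 c) = 0)
    (hdx : d x = 1) {h : L0} (hh0 : h ≠ 0) (hreg : Reg k d (d h / h)) : d h = 0 := by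
  have hc0 : CharZero L0 := charZero_of_injective_algebraMap (algebraMap k L0).injective
  have hunit : ∀ w ∈ VN k L0, w h = 1 := by
    intro w hw
    by_contra hne
    obtain ⟨z, hz⟩ := hw.1 (WithZero.exp (-1 : ℤ))
    have hz0 : z ≠ 0 := by
      rintro rfl
      rw [map_zero] at hz
      exact WithZero.exp_ne_zero hz.symm
    have hzt := unif_trans hw hz
    have hfin := hL0.alg hzt
    have hdz : d z ≠ 0 := der_ne (k := k) d hd hdx inferInstance
    have hwdz : w (d z) ≠ 0 := (Valuation.ne_zero_iff w).2 hdz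
    have hwh : w h ≠ 0 := (Valuation.ne_zero_iff w).2 hh0
    obtain ⟨m, hm⟩ : ∃ m : ℤ, w h = WithZero.exp (-m) := ⟨-WithZero.log (w h), by
      rw [neg_neg, WithZero.exp_log hwh]⟩
    have hm0 : m ≠ 0 := by
      rintro rfl
      rw [neg_zero, WithZero.exp_zero] at hm
      exact hne hm
    have hzm : z ^ m ≠ 0 := zpow_ne_zero _ hz0
    set u : L0 := h / z ^ m with hu
    have hwu : w u = 1 := by
      rw [hu, map_div₀, map_zpow₀, hz, hm, ← WithZero.exp_zsmul, smul_eq_mul]
      rw [show m * (-1 : ℤ) = -m by ring, div_self WithZero.exp_ne_zero]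
    have hu0 : u ≠ 0 := div_ne_zero hh0 hzm
    have hhu : h = z ^ m * u := by rw [hu]; field_simp
    have hdu := dx_le hL0 hw hz d hd hdx hwu.le
    have hdm : d (z ^ m) = m * z ^ m * (d z / z) := by
      rw [Derivation.leibniz_zpow]
      rw [smul_eq_mul, zsmul_eq_mul, zpow_sub_one₀ hz0]
      field_simp
    have h1 : d h / h = m * (d z / z) + d u / u := by
      rw [hhu, d.leibniz, smul_eq_mul, smul_eq_mul, hdm]
      field_simp
      ring
    have hm1 : w (m : L0) = 1 := by
      have h2 : (m : L0) = algebraMap k L0 (m : k) := by simp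
      rw [h2]
      exact hw.2 _ (Int.cast_ne_zero.2 hm0)
    have h2 : w ((m : L0) * (d z / z)) = w (d z) * WithZero.exp (1 : ℤ) := by
      rw [map_mul, hm1, one_mul, map_div₀, hz, div_eq_mul_inv, ← WithZero.exp_neg, neg_neg]
    have h3 : w (d u / u) ≤ w (d z) := by rw [map_div₀, hwu, div_one]; exact hdu
    have hlt : w (d z) < w (d z) * WithZero.exp (1 : ℤ) := by
      have h4 : w (d z) * 1 < w (d z) * WithZero.exp (1 : ℤ) := by
        refine mul_lt_mul_of_pos_left ?_ (zero_lt_iff.2 hwdz)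
        rw [← WithZero.exp_zero, WithZero.exp_lt_exp]
        norm_num
      rwa [mul_one] at h4
    have h5 : w (d h / h) = w (d z) * WithZero.exp (1 : ℤ) := by
      rw [h1, Valuation.map_add_eq_of_lt_left w (by rw [h2]; exact h3.trans_lt hlt), h2]
    have h6 := hreg w hw z hz
    rw [h5] at h6
    exact absurd hlt (not_lt.2 h6)
  -- so `h` is constant
  by_cases halg : IsAlgebraic k h
  · obtain ⟨c, hc⟩ := alg_mem (k := k) halg
    rw [← hc, hd]
  · exfalso
    have hfin := hL0.alg (z := h) halg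
    obtain ⟨w, hw, hlt⟩ := exists_zero (N := k) h halg
    rw [hunit w hw] at hlt
    exact lt_irrefl _ hlt

end dlog

section partII

variable {k K L0 L : Type*} [Field k] [IsAlgClosed k] [CharZero k] [Field K] [Field L0] [Field L] [Algebra k K]
  [Algebra k L0] [Algebra k L] [Algebra K L] [Algebra L0 L] [IsScalarTower k K L] [IsScalarTower k L0 L]

/-- decomposition of a symbol at a place with uniformizer `T` -/
theorem sy_dec {L : Type*} [Field L] (T f1 g1 : Lˣ) (a b : ℤ) :
    sy (T ^ a * f1) (T ^ b * g1) = sy T (g1 ^ a * f1⁻¹ ^ b) + sy f1 g1 := by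
  open Pool.Agent.Helper537_Sym in
  rw [sy_mul_left, sy_mul_right, sy_mul_right, sy_zpow_left, sy_zpow_right, sy_self, sy_zpow_left, sy_zpow_right,
    sy_mul_right, sy_zpow_right, sy_zpow_right, sy_inv_right, sy_swap f1 T]
  simp only [smul_zero, zero_add]
  abel

variable (hP : IsProd k K L0 L) (hK : IsFun k K) (hL0 : IsFun k L0) {t : K} {x : L0} (hx : Transcendental k x)
  (dt : Derivation ℤ K K) (Dt : Derivation ℤ L L) (hdt : ∀ c : k, dt (algebraMap k K c) = 0) (hdt1 : dt t = 1)
  (hDt0 : ∀ h : L0, Dt (algebraMap L0 L h) = 0) (hDt : ∀ κ : K, Dt (algebraMap K L κ) = algebraMap K L (dt κ))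
  (dx : Derivation ℤ L0 L0) (Dx : Derivation ℤ L L) (hdx : ∀ c : k, dx (algebraMap k L0 c) = 0) (hdx1 : dx x = 1)
  (hDx0 : ∀ κ : K, Dx (algebraMap K L κ) = 0) (hDx : ∀ h : L0, Dx (algebraMap L0 L h) = algebraMap L0 L (dx h))

include hP hK hL0 hdt hdt1 hDt0 hDt hdx hdx1 hDx0 hDx in
/-- **Part II**: the coefficients are regular differentials -/
theorem partII (f g : Lˣ) {n : ℕ} (κ : Fin n → K) (h : Fin n → L0) (hh : LinearIndependent k h)
    (hW : Wf Dt Dx f g = ∑ i, algebraMap K L (κ i) * algebraMap L0 L (h i)) (hreg : ∀ i, Reg k dx (h i)) (i : Fin n) :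
    Reg k dt (κ i) := by
  have hLc : CharZero L := charZero_of_injective_algebraMap (algebraMap k L).injective
  have hL0c : CharZero L0 := charZero_of_injective_algebraMap (algebraMap k L0).injective
  have hKc : CharZero K := charZero_of_injective_algebraMap (algebraMap k K).injective
  intro w hw τ hτ
  obtain ⟨v, hv, hvw⟩ := exists_gauss (K := L0) hP.symm hK hw
  have hτ0 : τ ≠ 0 := by
    rintro rfl
    rw [map_zero] at hτ
    exact WithZero.exp_ne_zero hτ.symm
  have hτt := unif_trans hw hτ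
  have hfin := hK.alg hτt
  have hdτ : dt τ ≠ 0 := der_ne (k := k) dt hdt hdt1 inferInstance
  have hwdτ : w (dt τ) ≠ 0 := (Valuation.ne_zero_iff w).2 hdτ
  have hτL : algebraMap K L τ ≠ 0 := (map_ne_zero _).2 hτ0
  have hdτL : algebraMap K L (dt τ) ≠ 0 := (map_ne_zero _).2 hdτ
  let T : Lˣ := Units.mk0 _ hτL
  have hvT : v (T : L) = WithZero.exp (-1 : ℤ) := by
    show v (algebraMap K L τ) = _
    rw [hvw, hτ]
  -- normalisation of the entries
  have hnorm : ∀ u : Lˣ, ∃ (a : ℤ) (u1 : Lˣ), v (u1 : L) = 1 ∧ u = T ^ a * u1 := by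
    intro u
    have hu : v (u : L) ≠ 0 := (Valuation.ne_zero_iff v).2 u.ne_zero
    refine ⟨-WithZero.log (v (u : L)), T ^ (WithZero.log (v (u : L))) * u, ?_, ?_⟩
    · rw [Units.val_mul, Units.val_zpow_eq_zpow_val, map_mul, map_zpow₀, hvT, ← WithZero.exp_zsmul, smul_eq_mul]
      conv_lhs => rw [← WithZero.exp_log hu]
      rw [WithZero.log_exp, ← WithZero.exp_add, ← WithZero.exp_zero]
      congr 1
      ring
    · rw [← mul_assoc, ← zpow_add, neg_add_cancel, zpow_zero, one_mul]
  obtain ⟨a, f1, hf1, hf⟩ := hnorm f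
  obtain ⟨b, g1, hg1, hg⟩ := hnorm g
  set H : Lˣ := g1 ^ a * f1⁻¹ ^ b with hHdef
  have hvH : v (H : L) = 1 := by
    rw [hHdef, Units.val_mul, Units.val_zpow_eq_zpow_val, Units.val_zpow_eq_zpow_val, Units.val_inv_eq_inv_val,
      map_mul, map_zpow₀, map_zpow₀, map_inv₀, hf1, hg1, inv_one, one_zpow, one_zpow, one_mul]
  have hHne : (H : L) ≠ 0 := H.ne_zero
  -- the differential symbol
  obtain ⟨Φ, hΦ⟩ := exists_W Dt Dx
  have hW1 : Wf Dt Dx f g = Wf Dt Dx T H + Wf Dt Dx f1 g1 := by
    rw [← hΦ, ← hΦ, ← hΦ, hf, hg, sy_dec, map_add]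
  have hWT : Wf Dt Dx T H = algebraMap K L (dt τ / τ) * (Dx H / H) := by
    unfold Wf
    show (Dt (algebraMap K L τ) * Dx H - Dt H * Dx (algebraMap K L τ)) / (algebraMap K L τ * H) = _
    rw [hDt, hDx0, map_div₀]
    field_simp
    ring
  have hW2 : v (Wf Dt Dx f1 g1) ≤ w (dt τ) := by
    have h1 : Wf Dt Dx f1 g1 = -Wf Dx Dt f1 g1 := by
      unfold Wf
      ring
    rw [h1, Valuation.map_neg]
    refine W_gauss (K := L0) (L0 := K) hP.symm hK dx Dx hDx0 hDx dt Dt hdt hdt1 hDt0 hDt hw hτ hv hvw f1 g1 ?_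
    refine Submodule.subset_span ⟨![f1, g1], fun i => ?_, rfl⟩
    fin_cases i
    · exact hf1
    · exact hg1
  -- the derivation in the direction of the curve preserves the valuation ring
  have hDxv : ∀ {a : L}, v a ≤ 1 → v (Dx a) ≤ 1 := fun {a} ha =>
    der_gauss (K := L0) (L0 := K) hP.symm hK hw hv hvw Dx (fun h => by rw [hDx]; exact val_k hv _)
      (fun κ _ => by rw [hDx0, map_zero]; exact zero_le_one) ha
  have hDxv1 : ∀ {a : L}, v a < 1 → v (Dx a) < 1 := by
    intro a ha
    have h1 : v (a / algebraMap K L τ) ≤ 1 := by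
      by_cases ha0 : a = 0
      · rw [ha0, zero_div, map_zero]; exact zero_le_one
      have hva : v a ≠ 0 := (Valuation.ne_zero_iff v).2 ha0
      rw [map_div₀, hvw, hτ]
      rw [← WithZero.exp_log hva, ← WithZero.exp_zero, WithZero.exp_lt_exp] at ha
      rw [← WithZero.exp_log hva, ← WithZero.exp_sub, ← WithZero.exp_zero, WithZero.exp_le_exp]
      omega
    have h2 : a = algebraMap K L τ * (a / algebraMap K L τ) := by field_simp
    rw [h2, Dx.leibniz, hDx0, smul_zero, add_zero, smul_eq_mul, map_mul, hvw, hτ]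
    refine (mul_le_of_le_one_right' (hDxv h1)).trans_lt ?_
    rw [← WithZero.exp_zero, WithZero.exp_lt_exp]
    norm_num
  set κ' : Fin n → K := fun i => κ i * (τ / dt τ) with hκ'
  -- the main congruence
  have hmain : v (∑ i, algebraMap K L (κ' i) * algebraMap L0 L (h i) - Dx H / H) < 1 := by
    have h1 : ∑ i, algebraMap K L (κ' i) * algebraMap L0 L (h i) = algebraMap K L (τ / dt τ) * Wf Dt Dx f g := by
      rw [hW, Finset.mul_sum]
      refine Finset.sum_congr rfl fun i _ => ?_
      rw [hκ', map_mul]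
      ring
    have h2 : algebraMap K L (τ / dt τ) * Wf Dt Dx f g - Dx H / H = algebraMap K L (τ / dt τ) * Wf Dt Dx f1 g1 := by
      rw [hW1, hWT, map_div₀, map_div₀]
      field_simp
      ring
    rw [h1, h2, map_mul, hvw, map_div₀, hτ]
    calc WithZero.exp (-1 : ℤ) / w (dt τ) * v (Wf Dt Dx f1 g1) ≤ WithZero.exp (-1 : ℤ) / w (dt τ) * w (dt τ) :=
          mul_le_mul_right hW2 _
      _ = WithZero.exp (-1 : ℤ) := by field_simp
      _ < 1 := by
        rw [← WithZero.exp_zero, WithZero.exp_lt_exp]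
        norm_num
  have hle : v (∑ i, algebraMap K L (κ' i) * algebraMap L0 L (h i)) ≤ 1 := by
    have h1 : ∑ i, algebraMap K L (κ' i) * algebraMap L0 L (h i) =
        (∑ i, algebraMap K L (κ' i) * algebraMap L0 L (h i) - Dx H / H) + Dx H / H := by ring
    rw [h1]
    refine (Valuation.map_add v _ _).trans (max_le hmain.le ?_)
    rw [map_div₀, hvH, div_one]
    exact hDxv hvH.le
  have hκle : ∀ i, w (κ' i) ≤ 1 := by
    intro i
    have h1 := gauss_le (K := L0) (L0 := K) hK hw hv hvw h hh κ' i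
    refine h1.trans ?_
    have h2 : ∑ i, algebraMap L0 L (h i) * algebraMap K L (κ' i) =
        ∑ i, algebraMap K L (κ' i) * algebraMap L0 L (h i) := Finset.sum_congr rfl fun i _ => mul_comm _ _
    rw [h2]
    exact hle
  choose c hc using fun i => exists_res hK hw (hκle i)
  obtain ⟨hb, hhb⟩ := res_gauss (K := L0) (L0 := K) hP.symm hK hw hv hvw hvH.le
  have hhb0 : hb ≠ 0 := by
    rintro rfl
    rw [map_zero, sub_zero, hvH] at hhb
    exact lt_irrefl _ hhb
  have hhbL : algebraMap L0 L hb ≠ 0 := (map_ne_zero _).2 hhb0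
  -- the residue
  have hres : ∑ i, c i • h i = dx hb / hb := by
    by_contra hne
    have h0 : ∑ i, c i • h i - dx hb / hb ≠ 0 := sub_ne_zero.2 hne
    have h1 := hv.2 _ h0
    have h2 : algebraMap L0 L (∑ i, c i • h i - dx hb / hb) =
        -(∑ i, algebraMap K L (κ' i - algebraMap k K (c i)) * algebraMap L0 L (h i)) +
        ((∑ i, algebraMap K L (κ' i) * algebraMap L0 L (h i) - Dx H / H) +
        (algebraMap L0 L hb * Dx (H - algebraMap L0 L hb) - (H - algebraMap L0 L hb) * Dx (algebraMap L0 L hb)) /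
          (H * algebraMap L0 L hb)) := by
      have h3 : ∑ i, algebraMap K L (κ' i - algebraMap k K (c i)) * algebraMap L0 L (h i) =
          ∑ i, algebraMap K L (κ' i) * algebraMap L0 L (h i) - algebraMap L0 L (∑ i, c i • h i) := by
        rw [map_sum, ← Finset.sum_sub_distrib]
        refine Finset.sum_congr rfl fun i _ => ?_
        rw [map_sub (algebraMap K L), ← IsScalarTower.algebraMap_apply k K L, Algebra.smul_def,
          map_mul (algebraMap L0 L), ← IsScalarTower.algebraMap_apply k L0 L]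
        ring
      rw [h3, map_sub (algebraMap L0 L), map_div₀, map_sub Dx, hDx]
      field_simp
      ring
    rw [h2] at h1
    have h3 : v (-(∑ i, algebraMap K L (κ' i - algebraMap k K (c i)) * algebraMap L0 L (h i))) < 1 := by
      rw [Valuation.map_neg]
      refine Valuation.map_sum_lt v one_ne_zero fun i _ => ?_
      rw [map_mul, hvw]
      exact (mul_le_of_le_one_right' (val_k hv _)).trans_lt (hc i)
    have h4 : v ((algebraMap L0 L hb * Dx (H - algebraMap L0 L hb) -
        (H - algebraMap L0 L hb) * Dx (algebraMap L0 L hb)) / (H * algebraMap L0 L hb)) < 1 := by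
      rw [map_div₀, map_mul v (H : L), hvH, hv.2 hb hhb0, mul_one, div_one]
      refine Valuation.map_sub_lt v ?_ ?_
      · rw [map_mul, hv.2 hb hhb0, one_mul]
        exact hDxv1 hhb
      · rw [map_mul, hDx]
        exact (mul_le_of_le_one_right' (val_k hv _)).trans_lt hhb
    exact absurd h1 (Valuation.map_add_lt v h3 (Valuation.map_add_lt v hmain h4)).ne
  -- the logarithmic differential is regular, so it vanishes
  have hreg' : Reg k dx (dx hb / hb) := by
    intro w' hw' z hz
    rw [← hres]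
    refine Valuation.map_sum_le w' fun i _ => ?_
    rw [Algebra.smul_def, map_mul]
    exact (mul_le_of_le_one_left' (val_k hw' _)).trans (hreg i w' hw' z hz)
  have hd0 := dlog_reg hL0 dx hdx hdx1 hhb0 hreg'
  rw [hd0, zero_div] at hres
  have hci := Fintype.linearIndependent_iff.1 hh c hres i
  have hlt := hc i
  rw [hci, map_zero, sub_zero] at hlt
  -- conclusion
  have hlt2 : w (κ i) * w τ / w (dt τ) < 1 := by
    have h1 : κ' i = κ i * (τ / dt τ) := rfl
    rw [h1, map_mul, map_div₀] at hlt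
    rwa [mul_div_assoc]
  by_cases hκ0 : κ i = 0
  · rw [hκ0, map_zero]; exact zero_le
  have hwκ : w (κ i) ≠ 0 := (Valuation.ne_zero_iff w).2 hκ0
  rw [hτ, ← WithZero.exp_log hwκ, ← WithZero.exp_log hwdτ, ← WithZero.exp_add, ← WithZero.exp_sub, ← WithZero.exp_zero,
    WithZero.exp_lt_exp] at hlt2
  rw [← WithZero.exp_log hwκ, ← WithZero.exp_log hwdτ, WithZero.exp_le_exp]
  omega

end partII

end Pool.Agent.Helper79.RG
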