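import Pool.Agent.Helper79.RG.M5

set_option autoImplicit false

/-!
# Regular differentials at an arbitrary place of a larger field
-/

set_option linter.unusedSectionVars false

namespace Pool.Agent.Helper79.RG

open scoped WithZero IntermediateField.algebraAdjoinAdjoin
open IntermediateField IsDedekindDomain
open Pool.Agent.Helper79.FE
open Pool.Agent.TH826.MK (KQ symb unitPart)
open Pool.Agent.Helper537_Sym (sy eq_cons)

/-- valuations with the same units -/
theorem lt_of_same {F : Type*} [Field F] {v w : Valuation F ℤᵐ⁰} (h : ∀ a, w a = 1 ↔ v a = 1) {a : F} (ha : v a < 1) :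
    w a < 1 := by
  have h1 : v (1 + a) = 1 := by
    rw [Valuation.map_add_eq_of_lt_left v (by rw [map_one]; exact ha), map_one]
  have h2 := (h _).2 h1
  have h3 : w a ≤ 1 := by
    by_contra hcon
    push Not at hcon
    rw [Valuation.map_add_eq_of_lt_right w (by rw [map_one]; exact hcon)] at h2
    exact absurd h2 hcon.ne'
  exact lt_of_le_of_ne h3 fun h4 => absurd ((h _).1 h4) ha.ne

theorem le_of_same {F : Type*} [Field F] {v w : Valuation F ℤᵐ⁰} (h : ∀ a, w a = 1 ↔ v a = 1) {a : F} (ha : v a ≤ 1) :
    w a ≤ 1 := by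
  rcases ha.lt_or_eq with h1 | h1
  · exact (lt_of_same h h1).le
  · exact ((h _).2 h1).le

/-- comparison of derivations along an embedding -/
theorem comp_der {k K0 E : Type*} [Field k] [Field K0] [CharZero K0] [Field E] [Algebra k K0] {t : K0}
    (halg : Algebra.IsAlgebraic k⟮t⟯ K0) (d : Derivation ℤ K0 K0)
    (hd : ∀ c : k, d (algebraMap k K0 c) = 0) (hdt : d t = 1) (j : K0 →+* E) (D : Derivation ℤ E E)
    (hDk : ∀ c : k, D (j (algebraMap k K0 c)) = 0) (a : K0) : D (j a) = D (j t) * j (d a) := by
  let _ : Algebra K0 E := j.toAlgebra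
  have h1 := der_eq (k := k) (E := K0) (M := E) t halg (D.compAlgebraMap K0)
    (D (j t) • (Algebra.linearMap K0 E).compDer d) (by
      intro c
      show D (j (algebraMap k K0 c)) = D (j t) • j (d (algebraMap k K0 c))
      rw [hDk, hd, map_zero, smul_zero]) (by
      show D (j t) = D (j t) • j (d t)
      rw [hdt, map_one, smul_eq_mul, mul_one])
  exact congrArg (fun X => X a) h1

section bound

variable {k k1 K0 E : Type*} [Field k] [IsAlgClosed k] [CharZero k] [Field k1] [IsAlgClosed k1] [CharZero k1]
  [Field K0] [Field E] [Algebra k K0] [Algebra k1 E]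

/-- a regular differential at an arbitrary place -/
theorem reg_bound (hK : IsFun k K0) (hE : IsFun k1 E) {t : K0} (ht : Transcendental k t) (d : Derivation ℤ K0 K0)
    (hd : ∀ c : k, d (algebraMap k K0 c) = 0) (hdt : d t = 1) {κ : K0} (hκ : Reg k d κ)
    {v : Valuation E ℤᵐ⁰} (hv : v ∈ VN k1 E) {z : E} (hz : v z = WithZero.exp (-1 : ℤ)) (j : K0 →+* E)
    (hj : ∀ c : k, ∃ c1 : k1, j (algebraMap k K0 c) = algebraMap k1 E c1) (D : Derivation ℤ E E)
    (hD : ∀ c : k1, ∃ c' : k1, D (algebraMap k1 E c) = algebraMap k1 E c')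
    (hDk : ∀ c : k, D (j (algebraMap k K0 c)) = 0) (hDz : v (D z) ≤ v z) :
    v (j κ * D (j t)) ≤ 1 ∧ ((∀ c : k1, D (algebraMap k1 E c) = 0) → v (j κ * D (j t)) < 1) := by
  have hK0c : CharZero K0 := charZero_of_injective_algebraMap (algebraMap k K0).injective
  have hEc : CharZero E := charZero_of_injective_algebraMap (algebraMap k1 E).injective
  have hle := fun a => der_le_self hE hv hz D hD hDz a
  by_cases htriv : ∀ a : K0, a ≠ 0 → v (j a) = 1
  · have h1 : ∀ a : K0, v (j a) ≤ 1 := by
      intro a
      by_cases ha : a = 0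
      · rw [ha, map_zero, map_zero]; exact zero_le_one
      · rw [htriv a ha]
    constructor
    · rw [map_mul]
      exact mul_le_one' (h1 _) ((hle _).trans (h1 _))
    · intro h0
      rw [map_mul]
      exact (mul_le_of_le_one_left' (h1 _)).trans_lt (der_lt_one hE hv hz D h0 hDz (h1 _))
  · push Not at htriv
    obtain ⟨a0, ha0, ha1⟩ := htriv
    obtain ⟨w, hws, hw1⟩ := exists_norm (v.comap j) ⟨a0, ha0, ha1⟩
    have hw : w ∈ VN k K0 := by
      refine ⟨hws, fun x hx => (hw1 _).2 ?_⟩
      obtain ⟨c1, hc1⟩ := hj x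
      show v (j (algebraMap k K0 x)) = 1
      rw [hc1]
      refine hv.2 c1 ?_
      rintro rfl
      rw [map_zero] at hc1
      exact hx ((map_eq_zero _).1 ((map_eq_zero j).1 hc1))
    obtain ⟨τ, hτ⟩ := hws (WithZero.exp (-1 : ℤ))
    have hτ1 : v (j τ) < 1 := by
      refine lt_of_same (v := w) (w := v.comap j) (fun a => (hw1 a).symm) ?_
      rw [hτ, ← WithZero.exp_zero, WithZero.exp_lt_exp]
      norm_num
    have hτt := unif_trans hw hτ
    have hfin := hK.alg hτt
    have hfint := hK.alg ht
    have hdτ : d τ ≠ 0 := der_ne (k := k) d hd hdt inferInstance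
    have hjd : j (d τ) ≠ 0 := (map_ne_zero _).2 hdτ
    -- comparison of the derivations
    have hcomp : D (j τ) = D (j t) * j (d τ) := comp_der inferInstance d hd hdt j D hDk τ
    have hκ1 : w (κ / d τ) ≤ 1 := by
      have h2 := hκ w hw τ hτ
      rw [map_div₀]
      exact (div_le_one₀ (zero_lt_iff.2 ((Valuation.ne_zero_iff w).2 hdτ))).2 h2
    have hκ2 : v (j (κ / d τ)) ≤ 1 := le_of_same (v := w) (w := v.comap j) (fun a => (hw1 a).symm) hκ1
    have h3 : j κ * D (j t) = j (κ / d τ) * D (j τ) := by
      rw [hcomp, map_div₀]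
      field_simp
    have h4 : v (j κ * D (j t)) < 1 := by
      rw [h3, map_mul]
      exact (mul_le_of_le_one_left' hκ2).trans_lt ((hle _).trans_lt hτ1)
    exact ⟨h4.le, fun _ => h4⟩

end bound

section prod

variable {k K L0 L : Type*} [Field k] [Field K] [Field L0] [Field L] [Algebra k K]
  [Algebra k L0] [Algebra k L] [Algebra K L] [Algebra L0 L] [IsScalarTower k K L] [IsScalarTower k L0 L]

/-- derivations of `L` are determined by their restrictions to `K` and `L0` -/
theorem der_eq_prod {E : Type*} [Field E] [Algebra L E] (hP : IsProd k K L0 L) (D D' : Derivation ℤ L E)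
    (h1 : ∀ κ : K, D (algebraMap K L κ) = D' (algebraMap K L κ))
    (h2 : ∀ h : L0, D (algebraMap L0 L h) = D' (algebraMap L0 L h)) : D = D' := by
  have hRR : ∀ p ∈ RR K L0 L, D p = D' p := by
    intro p hp
    obtain ⟨n, κ, h, rfl⟩ := rep_aux hp
    rw [map_sum, map_sum]
    refine Finset.sum_congr rfl fun i _ => ?_
    rw [D.leibniz, D'.leibniz, h1, h2]
  ext a
  obtain ⟨p, q, hp, hq, hq0, rfl⟩ := hP.gen a
  have e : ∀ D : Derivation ℤ L E, q • D (p / q) = D p - (p / q) • D q := by
    intro D
    have h3 : D ((p / q) * q) = D p := by rw [div_mul_cancel₀ _ hq0]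
    rw [D.leibniz] at h3
    rw [← h3]
    abel
  have h4 : q • D (p / q) = q • D' (p / q) := by rw [e, e, hRR p hp, hRR q hq]
  exact smul_right_injective E hq0 h4

end prod

/-- transfer of algebraicity -/
theorem alg_transfer {F1 F2 E1 E2 : Type*} [Field F1] [Field F2] [Field E1] [Field E2] [Algebra F1 E1] [Algebra F2 E2]
    (i : F1 →+* F2) (j : E2 →+* E1) (hij : ∀ a : F1, j (algebraMap F2 E2 (i a)) = algebraMap F1 E1 a) {e : E2}
    (he : IsAlgebraic F1 (j e)) : IsAlgebraic F2 e := by
  obtain ⟨p, hp0, hp⟩ := he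
  refine ⟨p.map i, (Polynomial.map_ne_zero_iff i.injective).2 hp0, ?_⟩
  apply j.injective
  rw [map_zero, ← hp, Polynomial.aeval_def, Polynomial.aeval_def, Polynomial.eval₂_map, Polynomial.hom_eval₂]
  congr 1
  ext a
  exact hij a

/-- a finitely generated field is finite over a subfield over which it is algebraic -/
theorem fd_of_gen {N E : Type*} [Field N] [Field E] [Algebra N E] (F' : IntermediateField N E)
    [Algebra.IsAlgebraic F' E] (S : Set E) (hS : S.Finite) (hgen : IntermediateField.adjoin N S = ⊤) :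
    FiniteDimensional F' E := by
  have : Finite S := hS
  have hfd : FiniteDimensional F' (IntermediateField.adjoin F' S) :=
    IntermediateField.finiteDimensional_adjoin fun x _ => (Algebra.IsAlgebraic.isAlgebraic x).isIntegral
  have htop : IntermediateField.adjoin F' S = ⊤ := by
    rw [eq_top_iff]
    intro x _
    have hx : x ∈ IntermediateField.adjoin N S := by rw [hgen]; trivial
    induction hx using IntermediateField.adjoin_induction with
    | mem x hx => exact IntermediateField.subset_adjoin _ _ hx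
    | algebraMap x =>
      rw [IsScalarTower.algebraMap_apply N F' E]
      exact IntermediateField.algebraMap_mem _ _
    | add x y _ _ h1 h2 => exact add_mem (h1 trivial) (h2 trivial)
    | mul x y _ _ h1 h2 => exact mul_mem (h1 trivial) (h2 trivial)
    | inv x _ h => exact inv_mem (h trivial)
  rw [htop] at hfd
  exact LinearEquiv.finiteDimensional (IntermediateField.topEquiv (F := F') (E := E)).toLinearEquiv

end Pool.Agent.Helper79.RG
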