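import Pool.Agent.Helper79.RG.M6

set_option autoImplicit false

/-!
# The function field over the algebraic closure of `k(g)`
-/

set_option linter.unusedSectionVars false

namespace Pool.Agent.Helper79.RG

open scoped WithZero IntermediateField.algebraAdjoinAdjoin
open IntermediateField IsDedekindDomain
open Pool.Agent.Helper79.FE

universe u

section big

variable {k : Type*} {Ω : Type u} [Field k] [Field Ω] [IsAlgClosed Ω] [CharZero Ω] [Algebra k Ω]
  (f g : Ω) (hb : IsTranscendenceBasis k ![f, g])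

include hb in
theorem trans_k1 : Transcendental (algebraicClosure k⟮g⟯ Ω) f := by
  intro h1
  have h2 : IsAlgebraic k⟮g⟯ f := h1.restrictScalars k⟮g⟯
  have h3 : IsAlgebraic (Algebra.adjoin k {g}) f := by
    have : Algebra.IsAlgebraic (Algebra.adjoin k {g}) k⟮g⟯ := IsLocalization.isAlgebraic _ (nonZeroDivisors _)
    exact h2.restrictScalars _
  have h4 := hb.1.transcendental_adjoin (s := {1}) (i := 0) (by simp)
  rw [Set.image_singleton] at h4
  exact h4 h3

include hb in
theorem alg_k1 : Algebra.IsAlgebraic (algebraicClosure k⟮g⟯ Ω)⟮f⟯ Ω := by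
  have h1 := hb.isAlgebraic_field
  constructor
  intro ω
  have hmem : ∀ a : Ω, a ∈ IntermediateField.adjoin k (Set.range ![f, g]) → a ∈ (algebraicClosure k⟮g⟯ Ω)⟮f⟯ := by
    intro a ha
    induction ha using IntermediateField.adjoin_induction with
    | mem x hx =>
      rw [Set.mem_range] at hx
      obtain ⟨i, rfl⟩ := hx
      fin_cases i
      · exact IntermediateField.mem_adjoin_simple_self _ _
      · have h2 : g ∈ algebraicClosure k⟮g⟯ Ω := by
          refine mem_algebraicClosure_iff.2 ?_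
          have : g = algebraMap k⟮g⟯ Ω ⟨g, IntermediateField.mem_adjoin_simple_self k g⟩ := rfl
          rw [this]
          exact isAlgebraic_algebraMap _
        exact IntermediateField.algebraMap_mem (algebraicClosure k⟮g⟯ Ω)⟮f⟯ ⟨g, h2⟩
    | algebraMap x =>
      exact IntermediateField.algebraMap_mem (algebraicClosure k⟮g⟯ Ω)⟮f⟯ (algebraMap k (algebraicClosure k⟮g⟯ Ω) x)
    | add x y _ _ hx hy => exact add_mem hx hy
    | mul x y _ _ hx hy => exact mul_mem hx hy
    | inv x _ h => exact inv_mem h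
  let i : IntermediateField.adjoin k (Set.range ![f, g]) →+* (algebraicClosure k⟮g⟯ Ω)⟮f⟯ :=
    { toFun := fun a => ⟨a, hmem a a.2⟩
      map_one' := rfl
      map_mul' := fun a b => rfl
      map_zero' := rfl
      map_add' := fun a b => rfl }
  exact alg_transfer i (RingHom.id Ω) (fun a => rfl) (h1.isAlgebraic ω)

/-- the derivation `g d/dg` of the algebraic closure of `k(g)` -/
theorem exists_dg (hg : Transcendental k g) :
    ∃ d : Derivation ℤ (algebraicClosure k⟮g⟯ Ω) (algebraicClosure k⟮g⟯ Ω),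
      (∀ c : k, d (algebraMap k _ c) = 0) ∧ ∀ x : algebraicClosure k⟮g⟯ Ω, (x : Ω) = g → d x = x := by
  have h2 : g ∈ algebraicClosure k⟮g⟯ Ω := by
    refine mem_algebraicClosure_iff.2 ?_
    have : g = algebraMap k⟮g⟯ Ω ⟨g, IntermediateField.mem_adjoin_simple_self k g⟩ := rfl
    rw [this]
    exact isAlgebraic_algebraMap _
  set x : algebraicClosure k⟮g⟯ Ω := ⟨g, h2⟩ with hx
  have hxt : Transcendental k x := by
    rintro ⟨p, hp0, hp⟩
    refine hg ⟨p, hp0, ?_⟩
    have h3 := congrArg (algebraMap (algebraicClosure k⟮g⟯ Ω) Ω) hp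
    rw [Polynomial.aeval_def, Polynomial.hom_eval₂, map_zero] at h3
    rw [Polynomial.aeval_def]
    exact h3
  have hmem : ∀ a : Ω, a ∈ k⟮g⟯ → ∀ ha : a ∈ algebraicClosure k⟮g⟯ Ω,
      (⟨a, ha⟩ : algebraicClosure k⟮g⟯ Ω) ∈ k⟮x⟯ := by
    intro a ha
    induction ha using IntermediateField.adjoin_induction with
    | mem y hy =>
      rw [Set.mem_singleton_iff] at hy
      intro ha
      have : (⟨y, ha⟩ : algebraicClosure k⟮g⟯ Ω) = x := Subtype.ext hy
      rw [this]
      exact IntermediateField.mem_adjoin_simple_self _ _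
    | algebraMap y =>
      intro ha
      exact IntermediateField.algebraMap_mem k⟮x⟯ y
    | add a b ha1 hb1 hx hy =>
      intro ha
      have ha2 : a ∈ algebraicClosure k⟮g⟯ Ω := mem_algebraicClosure_iff.2
        (isAlgebraic_algebraMap (⟨a, ha1⟩ : k⟮g⟯))
      have hb2 : b ∈ algebraicClosure k⟮g⟯ Ω := mem_algebraicClosure_iff.2
        (isAlgebraic_algebraMap (⟨b, hb1⟩ : k⟮g⟯))
      exact add_mem (hx ha2) (hy hb2)
    | mul a b ha1 hb1 hx hy =>
      intro ha
      have ha2 : a ∈ algebraicClosure k⟮g⟯ Ω := mem_algebraicClosure_iff.2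
        (isAlgebraic_algebraMap (⟨a, ha1⟩ : k⟮g⟯))
      have hb2 : b ∈ algebraicClosure k⟮g⟯ Ω := mem_algebraicClosure_iff.2
        (isAlgebraic_algebraMap (⟨b, hb1⟩ : k⟮g⟯))
      exact mul_mem (hx ha2) (hy hb2)
    | inv a ha1 h =>
      intro ha
      have ha2 : a ∈ algebraicClosure k⟮g⟯ Ω := mem_algebraicClosure_iff.2
        (isAlgebraic_algebraMap (⟨a, ha1⟩ : k⟮g⟯))
      exact inv_mem (h ha2)
  have halg : Algebra.IsAlgebraic k⟮x⟯ (algebraicClosure k⟮g⟯ Ω) := by
    constructor
    intro e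
    have h1 : IsAlgebraic k⟮g⟯ (e : Ω) := mem_algebraicClosure_iff.1 e.2
    let i : k⟮g⟯ →+* k⟮x⟯ :=
      { toFun := fun a => ⟨algebraMap k⟮g⟯ (algebraicClosure k⟮g⟯ Ω) a, hmem a a.2 _⟩
        map_one' := rfl
        map_mul' := fun a b => rfl
        map_zero' := rfl
        map_add' := fun a b => rfl }
    exact alg_transfer i (algebraMap (algebraicClosure k⟮g⟯ Ω) Ω) (fun a => rfl) h1
  have hc0 : CharZero (algebraicClosure k⟮g⟯ Ω) :=
    (algebraMap (algebraicClosure k⟮g⟯ Ω) Ω).charZero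
  obtain ⟨d, hd1, hd2⟩ := exists_der (K := k) (E := algebraicClosure k⟮g⟯ Ω) x hxt halg (fun _ => 0) (by simp)
    (by simp) x
  refine ⟨d, hd1, fun y hy => ?_⟩
  have : y = x := Subtype.ext hy
  rw [this, hd2]

end big

/-- transcendence basis with one element -/
theorem tb_one {k K : Type*} [Field k] [Field K] [Algebra k K] {t : K} (ht : Transcendental k t)
    (hta : Algebra.IsAlgebraic k⟮t⟯ K) : IsTranscendenceBasis k (fun _ : Unit => t) := by
  have h1 : AlgebraicIndependent k (fun _ : Unit => t) := algebraicIndependent_unique_type_iff.2 ht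
  rw [h1.isTranscendenceBasis_iff_isAlgebraic, Set.range_const]
  have : Algebra.IsAlgebraic (Algebra.adjoin k {t}) k⟮t⟯ := IsLocalization.isAlgebraic _ (nonZeroDivisors _)
  exact Algebra.IsAlgebraic.trans _ k⟮t⟯ _

/-- two algebraically independent elements of a field of transcendence degree two -/
theorem hbas {k K L : Type*} [Field k] [Field K] [Field L] [Algebra k K] [Algebra K L] [Algebra k L]
    [IsScalarTower k K L] {t : K} (ht : Transcendental k t) (hta : Algebra.IsAlgebraic k⟮t⟯ K)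
    {x : L} (hx : Transcendental K x) (hxa : Algebra.IsAlgebraic K⟮x⟯ L) {f g : L}
    (hfg : AlgebraicIndependent k ![f, g]) : IsTranscendenceBasis k ![f, g] := by
  have h1 := (tb_one ht hta).sumElim_comp (tb_one hx hxa)
  have h2 := h1.lift_cardinalMk_eq_trdeg
  refine hfg.isTranscendenceBasis_of_lift_trdeg_le_of_finite ?_
  have h3 : Algebra.trdeg k L = 2 := by
    have : Cardinal.mk (Unit ⊕ Unit) = 2 := by
      rw [Cardinal.mk_sum]
      simp only [Cardinal.mk_fintype, Fintype.card_unit, Nat.cast_one, Cardinal.lift_one]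
      norm_num
    rw [this, Cardinal.lift_ofNat, Cardinal.lift_uzero] at h2
    exact h2.symm
  rw [h3]
  simp

/-- the field in which the contradiction takes place -/
theorem exists_E {k : Type*} {L : Type u} [Field k] [CharZero k] [Field L] [Algebra k L] (S : Set L)
    (hS : S.Finite) (hgen : IntermediateField.adjoin k S = ⊤) {f g : L} (hb : IsTranscendenceBasis k ![f, g]) :
    ∃ (k1 E : Type u) (_ : Field k1) (_ : Field E) (_ : Algebra k1 E) (_ : IsAlgClosed k1) (_ : CharZero k1)
      (ι : L →+* E) (D₁ D₂ : Derivation ℤ E E) (v : Valuation E ℤᵐ⁰), IsFun k1 E ∧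
      (∀ c : k, ∃ c1 : k1, ι (algebraMap k L c) = algebraMap k1 E c1) ∧
      (∀ c : k1, D₁ (algebraMap k1 E c) = 0) ∧
      (∀ c : k1, ∃ c' : k1, D₂ (algebraMap k1 E c) = algebraMap k1 E c') ∧
      (∀ c : k, D₂ (ι (algebraMap k L c)) = 0) ∧ D₁ (ι f) = ι f ∧ D₁ (ι g) = 0 ∧ D₂ (ι f) = 0 ∧
      D₂ (ι g) = ι g ∧ v ∈ VN k1 E ∧ v (ι f) < 1 := by
  let Ω := AlgebraicClosure L
  set f' : Ω := algebraMap L Ω f with hf'
  set g' : Ω := algebraMap L Ω g with hg'
  have hLc : CharZero L := charZero_of_injective_algebraMap (algebraMap k L).injective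
  have hΩc : CharZero Ω := charZero_of_injective_algebraMap (algebraMap L Ω).injective
  have hb' : IsTranscendenceBasis k ![f', g'] := by
    have h1 := hb.algebraMap_comp (A := Ω)
    have h2 : (algebraMap L Ω ∘ ![f, g]) = ![f', g'] := by
      funext i; fin_cases i <;> rfl
    rwa [h2] at h1
  have hgt : Transcendental k g' := by
    have h1 := hb'.1.transcendental 1
    exact h1
  let k1 := algebraicClosure k⟮g'⟯ Ω
  have hk1c : CharZero k1 := (algebraMap k1 Ω).charZero
  have hk1a : IsAlgClosed k1 := (inferInstance : IsAlgClosure k⟮g'⟯ k1).isAlgClosed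
  let S' : Set Ω := algebraMap L Ω '' (insert f S)
  let E := IntermediateField.adjoin k1 S'
  have hEc : CharZero E := (algebraMap E Ω).charZero
  -- the embedding
  have hk_k1 : ∀ c : k, algebraMap k Ω c ∈ k1 := fun c => by
    refine mem_algebraicClosure_iff.2 ?_
    rw [IsScalarTower.algebraMap_apply k k⟮g'⟯ Ω]
    exact isAlgebraic_algebraMap _
  have hιmem : ∀ a : L, algebraMap L Ω a ∈ E := by
    intro a
    have ha : a ∈ IntermediateField.adjoin k S := by rw [hgen]; trivial
    induction ha using IntermediateField.adjoin_induction with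
    | mem x hx => exact IntermediateField.subset_adjoin _ _ ⟨x, Set.mem_insert_of_mem _ hx, rfl⟩
    | algebraMap x =>
      rw [← IsScalarTower.algebraMap_apply k L Ω]
      exact IntermediateField.algebraMap_mem E ⟨_, hk_k1 x⟩
    | add x y _ _ hx hy => rw [map_add]; exact add_mem hx hy
    | mul x y _ _ hx hy => rw [map_mul]; exact mul_mem hx hy
    | inv x _ h => rw [map_inv₀]; exact inv_mem h
  let ι : L →+* E := (algebraMap L Ω).codRestrict E.toSubring.toSubsemiring hιmem
  have hι : ∀ a, ((ι a : E) : Ω) = algebraMap L Ω a := fun a => rfl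
  -- transcendence of `f`
  let w : E := ι f
  have hwt : Transcendental k1 w := by
    rintro ⟨p, hp0, hp⟩
    refine trans_k1 f' g' hb' ⟨p, hp0, ?_⟩
    have h3 := congrArg (algebraMap E Ω) hp
    rw [Polynomial.aeval_def, Polynomial.hom_eval₂, map_zero] at h3
    rw [Polynomial.aeval_def]
    exact h3
  have hwa : Algebra.IsAlgebraic k1⟮w⟯ E := by
    constructor
    intro e
    have h1 := (alg_k1 f' g' hb').isAlgebraic (e : Ω)
    have hmem : ∀ a : Ω, a ∈ k1⟮f'⟯ → ∃ b ∈ k1⟮w⟯, ((b : E) : Ω) = a := by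
      intro a ha
      induction ha using IntermediateField.adjoin_induction with
      | mem y hy =>
        rw [Set.mem_singleton_iff] at hy
        exact ⟨w, IntermediateField.mem_adjoin_simple_self _ _, hy.symm⟩
      | algebraMap y => exact ⟨algebraMap k1 E y, IntermediateField.algebraMap_mem _ _, rfl⟩
      | add a b _ _ hx hy =>
        obtain ⟨x, hx1, hx2⟩ := hx
        obtain ⟨y, hy1, hy2⟩ := hy
        exact ⟨x + y, add_mem hx1 hy1, by rw [← hx2, ← hy2]; rfl⟩
      | mul a b _ _ hx hy =>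
        obtain ⟨x, hx1, hx2⟩ := hx
        obtain ⟨y, hy1, hy2⟩ := hy
        exact ⟨x * y, mul_mem hx1 hy1, by rw [← hx2, ← hy2]; rfl⟩
      | inv a _ hx =>
        obtain ⟨x, hx1, hx2⟩ := hx
        exact ⟨x⁻¹, inv_mem hx1, by rw [← hx2]; rfl⟩
    have hfE : ∀ a : Ω, a ∈ k1⟮f'⟯ → a ∈ E := fun a ha => by
      obtain ⟨b, _, rfl⟩ := hmem a ha
      exact b.2
    let i : k1⟮f'⟯ →+* k1⟮w⟯ :=
      { toFun := fun a => ⟨⟨a, hfE a a.2⟩, by
          obtain ⟨b, hb1, hb2⟩ := hmem a a.2
          have : (⟨a, hfE a a.2⟩ : E) = b := Subtype.ext hb2.symm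
          rw [this]
          exact hb1⟩
        map_one' := rfl
        map_mul' := fun a b => rfl
        map_zero' := rfl
        map_add' := fun a b => rfl }
    exact alg_transfer i (algebraMap E Ω) (fun a => rfl) h1
  have hfd : FiniteDimensional k1⟮w⟯ E := by
    refine fd_of_gen k1⟮w⟯ (ι '' (insert f S)) ((hS.insert f).image _) ?_
    rw [eq_top_iff]
    rintro ⟨x, hx⟩ _
    induction hx using IntermediateField.adjoin_induction with
    | mem y hy =>
      obtain ⟨z, hz, rfl⟩ := hy
      exact IntermediateField.subset_adjoin _ _ ⟨z, hz, rfl⟩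
    | algebraMap y => exact IntermediateField.algebraMap_mem _ y
    | add a b _ _ hx hy => exact add_mem (hx trivial) (hy trivial)
    | mul a b _ _ hx hy => exact mul_mem (hx trivial) (hy trivial)
    | inv a _ hx => exact inv_mem (hx trivial)
  have hfun : IsFun k1 E := ⟨w, hwt, hfd⟩
  have hgk : g' ∈ k1 := by
    refine mem_algebraicClosure_iff.2 ?_
    have : g' = algebraMap k⟮g'⟯ Ω ⟨g', IntermediateField.mem_adjoin_simple_self k g'⟩ := rfl
    rw [this]
    exact isAlgebraic_algebraMap _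
  have hιg : ι g = algebraMap k1 E ⟨g', hgk⟩ := rfl
  obtain ⟨D₁, hD11, hD12⟩ := exists_der (K := k1) (E := E) w hwt hwa (fun _ => 0) (by simp) (by simp) w
  obtain ⟨d, hd1, hd2⟩ := exists_dg g' hgt
  obtain ⟨D₂, hD21, hD22⟩ := exists_der (K := k1) (E := E) w hwt hwa (fun a => algebraMap k1 E (d a))
    (fun a b => by rw [map_add, map_add]) (fun a b => by
      rw [d.leibniz, map_add, smul_eq_mul, smul_eq_mul, map_mul, map_mul]) 0
  obtain ⟨v, hv1, hv2⟩ := exists_zero w hwt
  have hιk : ∀ c : k, ι (algebraMap k L c) = algebraMap k1 E (algebraMap k k1 c) := fun c =>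
    Subtype.ext (by
      show algebraMap L Ω (algebraMap k L c) = _
      rw [← IsScalarTower.algebraMap_apply k L Ω]
      rfl)
  refine ⟨k1, E, inferInstance, inferInstance, inferInstance, hk1a, hk1c, ι, D₁, D₂, v, hfun,
    fun c => ⟨_, hιk c⟩, hD11, fun c => ⟨_, hD21 c⟩, fun c => ?_, hD12, ?_, hD22, ?_, hv1, hv2⟩
  · rw [hιk, hD21, hd1, map_zero]
  · rw [hιg, hD11]
  · rw [hιg, hD21, hd2 ⟨g', hgk⟩ rfl]

end Pool.Agent.Helper79.RG
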