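import Pool.Agent.Helper79.RG.M7

set_option autoImplicit false

/-!
# Rigidity of unramified symbols: the contradiction
-/

set_option linter.unusedSectionVars false

namespace Pool.Agent.Helper79.RG

open scoped WithZero IntermediateField.algebraAdjoinAdjoin
open IntermediateField IsDedekindDomain
open Pool.Agent.Helper79.FE

universe u

/-- function fields are finitely generated -/
theorem fg_of_fun {k E : Type*} [Field k] [Field E] [Algebra k E] (hE : IsFun k E) :
    ∃ S : Set E, S.Finite ∧ IntermediateField.adjoin k S = ⊤ := by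
  obtain ⟨w, _, hfd⟩ := hE
  let b := Module.finBasis k⟮w⟯ E
  refine ⟨insert w (Set.range b), (Set.finite_range b).insert w, ?_⟩
  have h1 : ∀ a : E, a ∈ k⟮w⟯ → a ∈ IntermediateField.adjoin k (insert w (Set.range b)) := by
    intro a ha
    exact (IntermediateField.adjoin.mono k {w} (insert w (Set.range b)) (by simp)) ha
  rw [eq_top_iff]
  intro e _
  rw [← b.sum_repr e]
  refine sum_mem fun i _ => ?_
  rw [Algebra.smul_def]
  exact mul_mem (h1 _ (b.repr e i).2) (IntermediateField.subset_adjoin _ _ (Set.mem_insert_of_mem _ ⟨i, rfl⟩))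

section partIII

variable {k K L0 : Type*} {L : Type u} [Field k] [IsAlgClosed k] [CharZero k] [Field K] [Field L0] [Field L]
  [Algebra k K] [Algebra k L0] [Algebra k L] [Algebra K L] [Algebra L0 L] [IsScalarTower k K L]
  [IsScalarTower k L0 L]

theorem fg_prod (hP : IsProd k K L0 L) (hK : IsFun k K) (hL0 : IsFun k L0) :
    ∃ S : Set L, S.Finite ∧ IntermediateField.adjoin k S = ⊤ := by
  obtain ⟨S1, hS1, hg1⟩ := fg_of_fun hK
  obtain ⟨S2, hS2, hg2⟩ := fg_of_fun hL0
  refine ⟨algebraMap K L '' S1 ∪ algebraMap L0 L '' S2, (hS1.image _).union (hS2.image _), ?_⟩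
  set F := IntermediateField.adjoin k (algebraMap K L '' S1 ∪ algebraMap L0 L '' S2) with hF
  have h1 : ∀ a : K, algebraMap K L a ∈ F := by
    intro a
    have ha : a ∈ IntermediateField.adjoin k S1 := by rw [hg1]; trivial
    induction ha using IntermediateField.adjoin_induction with
    | mem x hx => exact IntermediateField.subset_adjoin _ _ (Or.inl ⟨x, hx, rfl⟩)
    | algebraMap x =>
      rw [← IsScalarTower.algebraMap_apply k K L]
      exact IntermediateField.algebraMap_mem _ _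
    | add x y _ _ hx hy => rw [map_add]; exact add_mem hx hy
    | mul x y _ _ hx hy => rw [map_mul]; exact mul_mem hx hy
    | inv x _ h => rw [map_inv₀]; exact inv_mem h
  have h2 : ∀ a : L0, algebraMap L0 L a ∈ F := by
    intro a
    have ha : a ∈ IntermediateField.adjoin k S2 := by rw [hg2]; trivial
    induction ha using IntermediateField.adjoin_induction with
    | mem x hx => exact IntermediateField.subset_adjoin _ _ (Or.inr ⟨x, hx, rfl⟩)
    | algebraMap x =>
      rw [← IsScalarTower.algebraMap_apply k L0 L]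
      exact IntermediateField.algebraMap_mem _ _
    | add x y _ _ hx hy => rw [map_add]; exact add_mem hx hy
    | mul x y _ _ hx hy => rw [map_mul]; exact mul_mem hx hy
    | inv x _ h => rw [map_inv₀]; exact inv_mem h
  rw [eq_top_iff]
  intro a _
  obtain ⟨p, q, hp, hq, hq0, rfl⟩ := hP.gen a
  have h3 : ∀ p ∈ RR K L0 L, p ∈ F := by
    intro p hp
    obtain ⟨n, κ, h, rfl⟩ := rep_aux hp
    exact sum_mem fun i _ => mul_mem (h1 _) (h2 _)
  exact div_mem (h3 p hp) (h3 q hq)

/-- the third part: regular coefficients force algebraic dependence -/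
theorem partIII (hP : IsProd k K L0 L) (hK : IsFun k K) (hL0 : IsFun k L0) {t : K} (ht : Transcendental k t)
    {x : L0} (hx : Transcendental k x)
    (dt : Derivation ℤ K K) (Dt : Derivation ℤ L L) (hdt : ∀ c : k, dt (algebraMap k K c) = 0) (hdt1 : dt t = 1)
    (hDt0 : ∀ h : L0, Dt (algebraMap L0 L h) = 0) (hDt : ∀ κ : K, Dt (algebraMap K L κ) = algebraMap K L (dt κ))
    (dx : Derivation ℤ L0 L0) (Dx : Derivation ℤ L L) (hdx : ∀ c : k, dx (algebraMap k L0 c) = 0) (hdx1 : dx x = 1)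
    (hDx0 : ∀ κ : K, Dx (algebraMap K L κ) = 0) (hDx : ∀ h : L0, Dx (algebraMap L0 L h) = algebraMap L0 L (dx h))
    (f g : Lˣ) {n : ℕ} (κ : Fin n → K) (h : Fin n → L0)
    (hW : Wf Dt Dx f g = ∑ i, algebraMap K L (κ i) * algebraMap L0 L (h i))
    (hregκ : ∀ i, Reg k dt (κ i)) (hregh : ∀ i, Reg k dx (h i)) :
    ¬ AlgebraicIndependent k ![(f : L), (g : L)] := by
  intro hai
  have hKc : CharZero K := charZero_of_injective_algebraMap (algebraMap k K).injective
  have hL0c : CharZero L0 := charZero_of_injective_algebraMap (algebraMap k L0).injective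
  have hfin := hK.alg ht
  have hfinx := hL0.alg hx
  have hb := hbas ht inferInstance (hP.trans hx) (hP.symm.alg inferInstance) hai
  obtain ⟨S, hS, hgen⟩ := fg_prod hP hK hL0
  obtain ⟨k1, E, _, _, _, _, _, ι, D₁, D₂, v, hE, hιk, hD1, hD2, hD2k, hD1f, hD1g, hD2f, hD2g, hv, hvf⟩ :=
    exists_E S hS hgen hb
  obtain ⟨z, hz⟩ := hv.1 (WithZero.exp (-1 : ℤ))
  have hιf : ι (f : L) ≠ 0 := (map_ne_zero _).2 f.ne_zero
  have hιg : ι (g : L) ≠ 0 := (map_ne_zero _).2 g.ne_zero
  have hD1' : ∀ c : k1, ∃ c' : k1, D₁ (algebraMap k1 E c) = algebraMap k1 E c' := fun c =>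
    ⟨0, by rw [hD1, map_zero]⟩
  have hD1k : ∀ c : k, D₁ (ι (algebraMap k L c)) = 0 := by
    intro c
    obtain ⟨c1, hc1⟩ := hιk c
    rw [hc1, hD1]
  have hz1 : v (D₁ z) ≤ v z := der_log hE hv hz D₁ hD1' hιf hvf.ne (by rw [hD1f])
  have hz2 : v (D₂ z) ≤ v z := der_log hE hv hz D₂ hD2 hιf hvf.ne (by rw [hD2f, map_zero]; exact zero_le)
  -- the embeddings of the factors
  let jK : K →+* E := ι.comp (algebraMap K L)
  let jL : L0 →+* E := ι.comp (algebraMap L0 L)
  have hjK : ∀ c : k, jK (algebraMap k K c) = ι (algebraMap k L c) := fun c => by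
    show ι (algebraMap K L (algebraMap k K c)) = _
    rw [← IsScalarTower.algebraMap_apply k K L]
  have hjL : ∀ c : k, jL (algebraMap k L0 c) = ι (algebraMap k L c) := fun c => by
    show ι (algebraMap L0 L (algebraMap k L0 c)) = _
    rw [← IsScalarTower.algebraMap_apply k L0 L]
  have bK1 : ∀ i, v (jK (κ i) * D₁ (jK t)) < 1 := fun i =>
    (reg_bound hK hE ht dt hdt hdt1 (hregκ i) hv hz jK (fun c => by rw [hjK]; exact hιk c) D₁ hD1'
      (fun c => by rw [hjK]; exact hD1k c) hz1).2 hD1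
  have bK2 : ∀ i, v (jK (κ i) * D₂ (jK t)) ≤ 1 := fun i =>
    (reg_bound hK hE ht dt hdt hdt1 (hregκ i) hv hz jK (fun c => by rw [hjK]; exact hιk c) D₂ hD2
      (fun c => by rw [hjK]; exact hD2k c) hz2).1
  have bL1 : ∀ i, v (jL (h i) * D₁ (jL x)) < 1 := fun i =>
    (reg_bound hL0 hE hx dx hdx hdx1 (hregh i) hv hz jL (fun c => by rw [hjL]; exact hιk c) D₁ hD1'
      (fun c => by rw [hjL]; exact hD1k c) hz1).2 hD1
  have bL2 : ∀ i, v (jL (h i) * D₂ (jL x)) ≤ 1 := fun i =>
    (reg_bound hL0 hE hx dx hdx hdx1 (hregh i) hv hz jL (fun c => by rw [hjL]; exact hιk c) D₂ hD2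
      (fun c => by rw [hjL]; exact hD2k c) hz2).1
  -- comparison of the derivations
  have hcomp : ∀ D : Derivation ℤ E E, (∀ c : k, D (ι (algebraMap k L c)) = 0) → ∀ a : L,
      D (ι a) = D (jK t) * ι (Dt a) + D (jL x) * ι (Dx a) := by
    intro D hDk a
    let _ : Algebra L E := ι.toAlgebra
    have h1 := der_eq_prod (E := E) hP (D.compAlgebraMap L)
      (D (jK t) • (Algebra.linearMap L E).compDer Dt + D (jL x) • (Algebra.linearMap L E).compDer Dx) (by
        intro c
        show D (jK c) = D (jK t) * ι (Dt (algebraMap K L c)) + D (jL x) * ι (Dx (algebraMap K L c))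
        rw [hDt, hDx0, map_zero, mul_zero, add_zero,
          comp_der inferInstance dt hdt hdt1 jK D (fun c => by rw [hjK]; exact hDk c) c]
        rfl) (by
        intro c
        show D (jL c) = D (jK t) * ι (Dt (algebraMap L0 L c)) + D (jL x) * ι (Dx (algebraMap L0 L c))
        rw [hDt0, hDx, map_zero, mul_zero, zero_add,
          comp_der inferInstance dx hdx hdx1 jL D (fun c => by rw [hjL]; exact hDk c) c]
        rfl)
    exact congrArg (fun X => X a) h1
  have e1 := hcomp D₁ hD1k f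
  have e2 := hcomp D₁ hD1k g
  have e3 := hcomp D₂ hD2k f
  have e4 := hcomp D₂ hD2k g
  rw [hD1f] at e1
  rw [hD1g] at e2
  rw [hD2f] at e3
  rw [hD2g] at e4
  have e5 : (D₁ (jK t) * D₂ (jL x) - D₁ (jL x) * D₂ (jK t)) * ι (Wf Dt Dx f g) = 1 := by
    unfold Wf
    rw [map_div₀, map_sub, map_mul, map_mul, map_mul]
    rw [mul_div_assoc', div_eq_one_iff_eq (mul_ne_zero hιf hιg)]
    calc (D₁ (jK t) * D₂ (jL x) - D₁ (jL x) * D₂ (jK t)) * (ι (Dt f) * ι (Dx g) - ι (Dt g) * ι (Dx f))
        = (D₁ (jK t) * ι (Dt f) + D₁ (jL x) * ι (Dx f)) * (D₂ (jK t) * ι (Dt g) + D₂ (jL x) * ι (Dx g)) -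
          (D₁ (jK t) * ι (Dt g) + D₁ (jL x) * ι (Dx g)) * (D₂ (jK t) * ι (Dt f) + D₂ (jL x) * ι (Dx f)) := by ring
      _ = ι f * ι g := by rw [← e1, ← e2, ← e4, zero_mul, sub_zero]
  have e6 : (1 : E) = ∑ i, ((jK (κ i) * D₁ (jK t)) * (jL (h i) * D₂ (jL x)) -
      (jL (h i) * D₁ (jL x)) * (jK (κ i) * D₂ (jK t))) := by
    rw [← e5, hW, map_sum, Finset.mul_sum]
    refine Finset.sum_congr rfl fun i _ => ?_
    rw [map_mul]
    show _ * (jK (κ i) * jL (h i)) = _
    ring
  have e7 : v (1 : E) < 1 := by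
    rw [e6]
    refine Valuation.map_sum_lt v one_ne_zero fun i _ => ?_
    refine Valuation.map_sub_lt v ?_ ?_
    · rw [map_mul]
      exact (mul_le_of_le_one_right' (bL2 i)).trans_lt (bK1 i)
    · rw [map_mul]
      exact (mul_le_of_le_one_right' (bK2 i)).trans_lt (bL1 i)
  rw [map_one] at e7
  exact lt_irrefl _ e7

end partIII

end Pool.Agent.Helper79.RG
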