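import Pool.Agent.Helper79.RG.M8

set_option autoImplicit false

/-!
# Places of `K (L0)`: either trivial on `L0` or the Gauss extension of a place of `L0`
-/

set_option linter.unusedSectionVars false

namespace Pool.Agent.Helper79.RG

open scoped WithZero IntermediateField.algebraAdjoinAdjoin
open IntermediateField IsDedekindDomain
open Pool.Agent.Helper79.FE

section

variable {k K L0 L : Type*} [Field k] [IsAlgClosed k] [CharZero k] [Field K] [Field L0] [Field L] [Algebra k K]
  [Algebra k L0] [Algebra k L] [Algebra K L] [Algebra L0 L] [IsScalarTower k K L] [IsScalarTower k L0 L]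

/-- a place of `L / K` is either trivial on `L0` or the Gauss extension of a place of `L0 / k` -/
theorem gauss_or_triv (hP : IsProd k K L0 L) (hL0 : IsFun k L0) {v : Valuation L ℤᵐ⁰} (hv : v ∈ VN K L) :
    (∀ h : L0, h ≠ 0 → v (algebraMap L0 L h) = 1) ∨ ∃ w ∈ VN k L0, ∀ h : L0, v (algebraMap L0 L h) = w h := by
  by_cases htriv : ∀ h : L0, h ≠ 0 → v (algebraMap L0 L h) = 1
  · exact Or.inl htriv
  right
  push Not at htriv
  obtain ⟨h0, hh0, hh1⟩ := htriv
  obtain ⟨w, hws, hw1⟩ := exists_norm (v.comap (algebraMap L0 L)) ⟨h0, hh0, hh1⟩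
  have hw : w ∈ VN k L0 := by
    refine ⟨hws, fun x hx => (hw1 _).2 ?_⟩
    show v (algebraMap L0 L (algebraMap k L0 x)) = 1
    rw [← IsScalarTower.algebraMap_apply k L0 L, IsScalarTower.algebraMap_apply k K L]
    exact hv.2 _ ((map_ne_zero _).2 hx)
  obtain ⟨v', hv', hv'w⟩ := exists_gauss (K := K) hP hL0 hw
  have hvK : ∀ c : K, v (algebraMap K L c) ≤ 1 := fun c => val_k hv c
  have hRW : ∀ p ∈ RW K L w, v p ≤ 1 := by
    intro p hp
    induction hp using Submodule.span_induction with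
    | mem x hx =>
      obtain ⟨h, hh, rfl⟩ := hx
      exact le_of_same (v := w) (w := v.comap (algebraMap L0 L)) (fun a => (hw1 a).symm) hh
    | zero => rw [map_zero]; exact zero_le_one
    | add x y _ _ hx hy => exact (Valuation.map_add v x y).trans (max_le hx hy)
    | smul c x _ hx =>
      rw [Algebra.smul_def, map_mul]
      exact mul_le_one' (hvK c) hx
  have hMW : ∀ p ∈ MW K L w, v p < 1 := by
    intro p hp
    induction hp using Submodule.span_induction with
    | mem x hx =>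
      obtain ⟨h, hh, rfl⟩ := hx
      exact lt_of_same (v := w) (w := v.comap (algebraMap L0 L)) (fun a => (hw1 a).symm) hh
    | zero => rw [map_zero]; exact zero_lt_one
    | add x y _ _ hx hy => exact Valuation.map_add_lt v hx hy
    | smul c x _ hx =>
      rw [Algebra.smul_def, map_mul]
      exact (mul_le_of_le_one_left' (hvK c)).trans_lt hx
  have hA : ∀ a : L, v' a ≤ 1 → v a ≤ 1 := by
    intro a ha
    obtain ⟨p, q, hp, hq, hq1, rfl⟩ := val_frac hP hL0 hw hv' hv'w ha
    obtain ⟨x, hx⟩ := RW_dec hL0 hw hq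
    have hx0 : x ≠ 0 := by
      rintro rfl
      rw [map_zero, sub_zero] at hx
      exact absurd hq1 (val_MW hv' hv'w hx).ne
    have h1 : q = algebraMap K L x + (q - algebraMap K L x) := by ring
    have hq2 : v q = 1 := by
      rw [h1, Valuation.map_add_eq_of_lt_left v (by rw [hv.2 x hx0]; exact hMW _ hx), hv.2 x hx0]
    rw [map_div₀, hq2, div_one]
    exact hRW p hp
  have hB : ∀ a : L, v' a = 1 → v a = 1 := by
    intro a ha
    have ha0 : a ≠ 0 := by
      rintro rfl
      rw [map_zero] at ha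
      exact zero_ne_one ha
    refine le_antisymm (hA a ha.le) ?_
    have h1 := hA a⁻¹ (by rw [map_inv₀, ha, inv_one])
    rw [map_inv₀] at h1
    exact (inv_le_one₀ (zero_lt_iff.2 ((Valuation.ne_zero_iff v).2 ha0))).1 h1
  obtain ⟨z, hz⟩ := hw.1 (WithZero.exp (-1 : ℤ))
  have hz0 : z ≠ 0 := by
    rintro rfl
    rw [map_zero] at hz
    exact WithZero.exp_ne_zero hz.symm
  have hzL : algebraMap L0 L z ≠ 0 := (map_ne_zero _).2 hz0
  have hvz0 : v (algebraMap L0 L z) ≠ 0 := (Valuation.ne_zero_iff v).2 hzL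
  have hvz1 : v (algebraMap L0 L z) ≤ 1 := hA _ (by
    rw [hv'w, hz, ← WithZero.exp_zero, WithZero.exp_le_exp]; norm_num)
  obtain ⟨s, hs⟩ : ∃ s : ℤ, v (algebraMap L0 L z) = WithZero.exp s := ⟨_, (WithZero.exp_log hvz0).symm⟩
  have hpow : ∀ a : L, a ≠ 0 → ∃ n : ℤ, v' a = WithZero.exp (-n) ∧ v a = WithZero.exp (n * s) := by
    intro a ha
    have hva : v' a ≠ 0 := (Valuation.ne_zero_iff v').2 ha
    obtain ⟨m, hm⟩ : ∃ m : ℤ, v' a = WithZero.exp m := ⟨_, (WithZero.exp_log hva).symm⟩
    refine ⟨-m, by rw [neg_neg]; exact hm, ?_⟩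
    have h1 : v' (a * (algebraMap L0 L z) ^ m) = 1 := by
      rw [map_mul, map_zpow₀, hv'w, hz, hm, ← WithZero.exp_zsmul, ← WithZero.exp_add, smul_eq_mul]
      rw [show m + m * -1 = 0 by ring, WithZero.exp_zero]
    have h2 := hB _ h1
    rw [map_mul, map_zpow₀, hs, ← WithZero.exp_zsmul, smul_eq_mul] at h2
    rw [eq_comm, ← mul_left_inj' (c := WithZero.exp (m * s)) WithZero.exp_ne_zero, h2, ← WithZero.exp_add]
    rw [show -m * s + m * s = 0 by ring, WithZero.exp_zero]
  have hs1 : s = -1 := by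
    obtain ⟨a, ha⟩ := hv.1 (WithZero.exp (-1 : ℤ))
    have ha0 : a ≠ 0 := by
      rintro rfl
      rw [map_zero] at ha
      exact WithZero.exp_ne_zero ha.symm
    obtain ⟨n, _, hn⟩ := hpow a ha0
    rw [ha, WithZero.exp_inj] at hn
    rw [hs, ← WithZero.exp_zero, WithZero.exp_le_exp] at hvz1
    have h3 : s ∣ 1 := ⟨-n, by linarith⟩
    rcases Int.isUnit_iff.1 (isUnit_of_dvd_one h3) with h | h
    · omega
    · exact h
  refine ⟨w, hw, fun h => ?_⟩
  by_cases hh : h = 0
  · rw [hh, map_zero, map_zero, map_zero]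
  obtain ⟨n, hn1, hn2⟩ := hpow _ ((map_ne_zero (algebraMap L0 L)).2 hh)
  rw [hn2, hs1, ← hv'w, hn1]
  congr 1
  ring

end

end Pool.Agent.Helper79.RG
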