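import Pool.Agent.Helper79.RG.QD

set_option autoImplicit false

/-!
# Module MIL: unramified elements of `K_2` of a rational function field
-/

set_option linter.unusedSectionVars false

namespace Pool.Agent.Helper79.RG

open scoped WithZero IntermediateField.algebraAdjoinAdjoin
open IntermediateField
open Pool.Agent.Helper79.FE
open Pool.Agent.TH826.MK (KQ symb unitPart)
open Pool.Agent.Helper537_Sym

section

variable {k F : Type*} [Field k] [IsAlgClosed k] [CharZero k] [Field F] [Algebra k F]

/-- the subspace `{k*, w}` -/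
def Wd (k : Type*) {F : Type*} [Field k] [IsAlgClosed k] [CharZero k] [Field F] [Algebra k F] (w : Fˣ) :
    Submodule ℚ (KQ F 2) where
  carrier := {z | ∃ c : kˣ, z = sy (Units.map ((algebraMap k F : k →+* F) : k →* F) c) w}
  add_mem' := by
    rintro _ _ ⟨c, rfl⟩ ⟨c', rfl⟩
    exact ⟨c * c', by rw [map_mul, sy_mul_left]⟩
  zero_mem' := ⟨1, by rw [map_one, sy_one_left]⟩
  smul_mem' := by
    rintro r _ ⟨c, rfl⟩
    obtain ⟨d, hd⟩ := IsAlgClosed.exists_pow_nat_eq ((c : k) ^ r.num) (n := r.den) r.den_pos
    have hd0 : d ≠ 0 := by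
      rintro rfl
      rw [zero_pow r.den_nz] at hd
      exact zpow_ne_zero _ c.ne_zero hd.symm
    refine ⟨Units.mk0 d hd0, ?_⟩
    have h1 : (Units.mk0 d hd0) ^ r.den = c ^ r.num := by
      refine Units.ext ?_
      rw [Units.val_pow_eq_pow_val, Units.val_mk0, hd, Units.val_zpow_eq_zpow_val]
    have h2 := congrArg (fun y => sy (Units.map ((algebraMap k F : k →+* F) : k →* F) y) w) h1
    simp only [map_pow, map_zpow, sy_pow_left, sy_zpow_left] at h2
    have h3 : (r.den : ℚ) ≠ 0 := Nat.cast_ne_zero.2 r.den_nz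
    have h4 : r = (r.den : ℚ)⁻¹ * r.num := by
      conv_lhs => rw [← Rat.num_div_den r]
      rw [div_eq_mul_inv, mul_comm]
    rw [h4, mul_smul, ← h2, smul_smul, inv_mul_cancel₀ h3, one_smul]

/-- the unit `u - a` -/
noncomputable def lin (u : F) (hu : Transcendental k u) (a : k) : Fˣ :=
  Units.mk0 (u - algebraMap k F a) (by
    intro h
    rw [sub_eq_zero] at h
    exact hu (h ▸ isAlgebraic_algebraMap a))

/-- the units of `k(u)` are products of constants and linear factors -/
theorem unit_gen (u : F) (hu : Transcendental k u) (hgen : ∀ x : F, x ∈ k⟮u⟯) (x : Fˣ) :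
    x ∈ Subgroup.closure (Set.range (fun c : kˣ => Units.map ((algebraMap k F : k →+* F) : k →* F) c) ∪
      Set.range (lin u hu)) := by
  classical
  set H := Subgroup.closure (Set.range (fun c : kˣ => Units.map ((algebraMap k F : k →+* F) : k →* F) c) ∪
      Set.range (lin u hu)) with hH
  have key : ∀ (p : Polynomial k) (y : Fˣ), (y : F) = Polynomial.aeval u p → y ∈ H := by
    intro p
    induction hn : p.natDegree using Nat.strong_induction_on generalizing p with
    | _ n ih =>
    intro y hy
    by_cases hp0 : p.degree ≤ 0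
    · rw [Polynomial.eq_C_of_degree_le_zero hp0] at hy
      rw [Polynomial.aeval_C] at hy
      have hc : p.coeff 0 ≠ 0 := by
        intro h0
        rw [h0, map_zero] at hy
        exact y.ne_zero hy
      refine Subgroup.subset_closure (Or.inl ⟨Units.mk0 _ hc, ?_⟩)
      exact Units.ext hy.symm
    · push Not at hp0
      obtain ⟨a, ha⟩ := IsAlgClosed.exists_root p hp0.ne'
      obtain ⟨q, rfl⟩ := Polynomial.dvd_iff_isRoot.2 ha
      have hq0 : q ≠ 0 := by
        rintro rfl
        rw [mul_zero, map_zero] at hy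
        exact y.ne_zero hy
      have hdeg : q.natDegree < n := by
        rw [← hn, Polynomial.natDegree_mul (Polynomial.X_sub_C_ne_zero a) hq0, Polynomial.natDegree_X_sub_C]
        omega
      have hy2 : (((lin u hu a)⁻¹ * y : Fˣ) : F) = Polynomial.aeval u q := by
        rw [Units.val_mul, Units.val_inv_eq_inv_val, hy, map_mul, map_sub, Polynomial.aeval_X, Polynomial.aeval_C]
        show (u - algebraMap k F a)⁻¹ * _ = _
        have : u - algebraMap k F a ≠ 0 := (lin u hu a).ne_zero
        field_simp
      have h1 := ih _ hdeg q rfl _ hy2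
      have h2 : lin u hu a ∈ H := Subgroup.subset_closure (Or.inr ⟨a, rfl⟩)
      have h3 := H.mul_mem h2 h1
      rwa [mul_inv_cancel_left] at h3
  obtain ⟨p, q, hpq⟩ := IntermediateField.mem_adjoin_simple_iff k (x : F) |>.1 (hgen x)
  have hq0 : Polynomial.aeval u q ≠ 0 := by
    intro h0
    rw [h0, div_zero] at hpq
    exact x.ne_zero hpq
  have hp0 : Polynomial.aeval u p ≠ 0 := by
    intro h0
    rw [h0, zero_div] at hpq
    exact x.ne_zero hpq
  have h1 := key p (Units.mk0 _ hp0) rfl
  have h2 := key q (Units.mk0 _ hq0) rfl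
  have h3 : x = Units.mk0 _ hp0 * (Units.mk0 _ hq0)⁻¹ := by
    refine Units.ext ?_
    rw [Units.val_mul, Units.val_inv_eq_inv_val, Units.val_mk0, Units.val_mk0, ← div_eq_mul_inv, hpq]
  rw [h3]
  exact H.mul_mem h1 (H.inv_mem h2)

/-- the structure of `K_2 (k(u))` -/
theorem k2_rational (u : F) (hu : Transcendental k u) (hgen : ∀ x : F, x ∈ k⟮u⟯) (z : KQ F 2) :
    z ∈ LinearMap.range (KQ.map 2 (algebraMap k F)) ⊔ ⨆ a : k, Wd k (lin u hu a) := by
  set W := LinearMap.range (KQ.map 2 (algebraMap k F)) ⊔ ⨆ a : k, Wd k (lin u hu a) with hW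
  let ι : kˣ → Fˣ := Units.map ((algebraMap k F : k →+* F) : k →* F)
  have hc : ∀ c d : kˣ, sy (ι c) (ι d) ∈ W := by
    intro c d
    refine Submodule.mem_sup_left ⟨sy c d, ?_⟩
    rw [map_sy']
  have hl : ∀ (c : kˣ) (a : k), sy (ι c) (lin u hu a) ∈ W := by
    intro c a
    exact Submodule.mem_sup_right (Submodule.mem_iSup_of_mem a ⟨c, rfl⟩)
  have hll : ∀ a b : k, sy (lin u hu a) (lin u hu b) ∈ W := by
    intro a b
    by_cases hab : a = b
    · rw [hab, sy_self]; exact zero_mem _
    · have hba : b - a ≠ 0 := sub_ne_zero.2 (Ne.symm hab)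
      let δ : kˣ := Units.mk0 (b - a) hba
      have hδ : (ι δ : F) = algebraMap k F b - algebraMap k F a := by
        show algebraMap k F (b - a) = _
        rw [map_sub]
      have h1 : sy (lin u hu a * (ι δ)⁻¹) (-(lin u hu b * (ι δ)⁻¹)) = 0 := by
        refine sy_steinberg ?_
        rw [Units.val_neg, Units.val_mul, Units.val_mul, Units.val_inv_eq_inv_val, hδ]
        show (u - algebraMap k F a) * _ + -((u - algebraMap k F b) * _) = 1
        have h2 : algebraMap k F b - algebraMap k F a ≠ 0 := by rw [← hδ]; exact (ι δ).ne_zero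
        field_simp
        ring
      rw [sy_neg_right, sy_mul_left, sy_mul_right, sy_mul_right, sy_inv_left, sy_inv_right, sy_inv_right,
        sy_inv_left] at h1
      have h2 : sy (lin u hu a) (lin u hu b) = sy (lin u hu a) (ι δ) + sy (ι δ) (lin u hu b) - sy (ι δ) (ι δ) := by
        rw [← sub_eq_zero, ← h1]
        abel
      rw [h2, sy_swap (lin u hu a)]
      exact sub_mem (add_mem (neg_mem (hl _ _)) (hl _ _)) (hc _ _)
  -- all symbols
  have h1 : ∀ x : Fˣ, ∀ y ∈ Set.range (fun c : kˣ => Units.map ((algebraMap k F : k →+* F) : k →* F) c) ∪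
      Set.range (lin u hu), sy x y ∈ W := by
    intro x y hy
    have hx := unit_gen u hu hgen x
    induction hx using Subgroup.closure_induction with
    | mem x hx =>
      rcases hx with ⟨c, rfl⟩ | ⟨a, rfl⟩ <;> rcases hy with ⟨d, rfl⟩ | ⟨b, rfl⟩
      · exact hc c d
      · exact hl c b
      · rw [sy_swap]; exact neg_mem (hl d a)
      · exact hll a b
    | one => rw [sy_one_left]; exact zero_mem _
    | mul x x' _ _ h h' => rw [sy_mul_left]; exact add_mem h h'
    | inv x _ h => rw [sy_inv_left]; exact neg_mem h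
  have h2 : ∀ x y : Fˣ, sy x y ∈ W := by
    intro x y
    have hy := unit_gen u hu hgen y
    induction hy using Subgroup.closure_induction with
    | mem y hy => exact h1 x y hy
    | one => rw [sy_one_right]; exact zero_mem _
    | mul y y' _ _ h h' => rw [sy_mul_right]; exact add_mem h h'
    | inv y _ h => rw [sy_inv_right]; exact neg_mem h
  have hle : Submodule.span ℚ (Set.range fun p : Fˣ × Fˣ => sy p.1 p.2) ≤ W := by
    rw [Submodule.span_le]
    rintro _ ⟨p, rfl⟩
    exact h2 p.1 p.2
  exact hle (sy_span z)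

end

/-- unramified elements of `K_2 (k(u))` come from `k` -/
theorem mil {k K F E : Type*} [Field k] [IsAlgClosed k] [CharZero k] [Field K] [Algebra k K] [Field F] [Algebra k F]
    [Field E] [CharZero K] [Algebra K E] [Algebra k E] [Algebra F E] [IsScalarTower k K E] [IsScalarTower k F E]
    (hE : IsFun K E) (u : F) (hu : Transcendental K (algebraMap F E u)) (hgen : ∀ x : F, x ∈ k⟮u⟯) (y : KQ F 2)
    (hy : ∀ v ∈ VN K E, KQ.map 2 (algebraMap F E) y ∈ unitPart v 2) :
    ∃ y0 : KQ k 2, KQ.map 2 (algebraMap k E) y0 = KQ.map 2 (algebraMap F E) y := by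
  classical
  have huk : Transcendental k u := by
    intro h
    refine hu ?_
    have h1 : IsAlgebraic k (algebraMap F E u) := h.algebraMap
    exact h1.tower_top K
  obtain ⟨z0, hz0, z1, hz1, rfl⟩ := Submodule.mem_sup.1 (k2_rational u huk hgen y)
  obtain ⟨y0, rfl⟩ := hz0
  rw [Submodule.mem_iSup_iff_exists_finsupp] at hz1
  obtain ⟨f, hf, rfl⟩ := hz1
  have hzero : ∀ a, KQ.map 2 (algebraMap F E) (f a) = 0 := by
    intro a
    obtain ⟨c, hc⟩ := hf a
    -- a place over `u = a`
    have hua : Transcendental K (algebraMap F E (u - algebraMap k F a)) := by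
      intro h
      refine hu ?_
      have h2 : algebraMap F E u = algebraMap F E (u - algebraMap k F a) + algebraMap K E (algebraMap k K a) := by
        rw [map_sub, ← IsScalarTower.algebraMap_apply, ← IsScalarTower.algebraMap_apply, sub_add_cancel]
      rw [h2]
      exact h.add (isAlgebraic_algebraMap _)
    have hfin := hE.alg hua
    obtain ⟨v, hv, hva⟩ := exists_zero (N := K) _ hua
    have hvk : ∀ c : k, c ≠ 0 → v (algebraMap k E c) = 1 := by
      intro c hc
      rw [IsScalarTower.algebraMap_apply k K E]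
      exact hv.2 _ ((map_ne_zero _).2 hc)
    have hother : ∀ b, b ≠ a → KQ.map 2 (algebraMap F E) (f b) ∈ unitPart v 2 := by
      intro b hb
      obtain ⟨d, hd⟩ := hf b
      rw [hd, map_sy']
      refine sy_unit v ?_ ?_
      · show v (algebraMap F E (algebraMap k F d)) = 1
        rw [← IsScalarTower.algebraMap_apply]
        exact hvk _ d.ne_zero
      · show v (algebraMap F E (u - algebraMap k F b)) = 1
        have h3 : algebraMap F E (u - algebraMap k F b) =
            algebraMap F E (u - algebraMap k F a) + algebraMap k E (a - b) := by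
          rw [map_sub, map_sub, map_sub, ← IsScalarTower.algebraMap_apply, ← IsScalarTower.algebraMap_apply]
          ring
        rw [h3, Valuation.map_add_eq_of_lt_right v (by rw [hvk _ (sub_ne_zero.2 (Ne.symm hb))]; exact hva),
          hvk _ (sub_ne_zero.2 (Ne.symm hb))]
    have hz0 : KQ.map 2 (algebraMap F E) (KQ.map 2 (algebraMap k F) y0) ∈ unitPart v 2 := by
      rw [kmap_map (algebraMap k F) (algebraMap F E) (algebraMap k E)
        (fun x => (IsScalarTower.algebraMap_apply k F E x).symm)]
      exact kmap_unit _ v hvk _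
    have hthis : KQ.map 2 (algebraMap F E) (f a) ∈ unitPart v 2 := by
      by_cases has : a ∈ f.support
      · have h4 := hy v hv
        rw [map_add, Finsupp.sum, map_sum, ← Finset.add_sum_erase _ _ has] at h4
        have h5 : ∑ x ∈ f.support.erase a, KQ.map 2 (algebraMap F E) (f x) ∈ unitPart v 2 :=
          Submodule.sum_mem _ fun b hb => hother b (Finset.ne_of_mem_erase hb)
        have h6 := sub_mem (sub_mem h4 hz0) h5
        have h7 : KQ.map 2 (algebraMap F E) (KQ.map 2 (algebraMap k F) y0) +
            (KQ.map 2 (algebraMap F E) (f a) + ∑ x ∈ f.support.erase a, KQ.map 2 (algebraMap F E) (f x)) -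
            KQ.map 2 (algebraMap F E) (KQ.map 2 (algebraMap k F) y0) -
            ∑ x ∈ f.support.erase a, KQ.map 2 (algebraMap F E) (f x) = KQ.map 2 (algebraMap F E) (f a) := by abel
        rwa [h7] at h6
      · rw [Finsupp.notMem_support_iff.1 has, map_zero]; exact zero_mem _
    rw [hc, map_sy'] at hthis ⊢
    obtain ⟨n, hn, hvn⟩ := tame_tors v _ _ hthis (by
      show v (algebraMap F E (algebraMap k F c)) = 1
      rw [← IsScalarTower.algebraMap_apply]
      exact hvk _ c.ne_zero) (ne_of_lt hva)
    have hcn : c ^ n = 1 := by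
      refine Units.ext ?_
      rw [Units.val_pow_eq_pow_val, Units.val_one]
      by_contra hne
      have h8 := hvk _ (sub_ne_zero.2 hne)
      rw [map_sub, map_pow, map_one, IsScalarTower.algebraMap_apply k F E] at h8
      have h9 : v (algebraMap F E (algebraMap k F (c : k)) ^ n - 1) < 1 := hvn
      rw [h8] at h9
      exact lt_irrefl _ h9
    rw [sy_swap, sy_tors_right _ _ n hn (by rw [← map_pow, ← map_pow, hcn, map_one, map_one]), neg_zero]
  refine ⟨y0, ?_⟩
  rw [map_add, Finsupp.sum, map_sum, Finset.sum_eq_zero fun a _ => hzero a, add_zero]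
  exact (kmap_map (algebraMap k F) (algebraMap F E) (algebraMap k E)
    (fun x => (IsScalarTower.algebraMap_apply k F E x).symm) y0).symm

end Pool.Agent.Helper79.RG
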