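import Pool.Agent.Helper79.RG.NB

set_option autoImplicit false

/-!
# Module NBG: the bound for the order of tame symbols, fields with few roots of unity
-/

set_option linter.unusedSectionVars false

namespace Pool.Agent.Helper79.RG

open scoped WithZero IntermediateField.algebraAdjoinAdjoin
open IntermediateField IsDedekindDomain
open Pool.Agent.Helper79.FE
open Pool.Agent.TH826.MK (KQ symb unitPart)
open Pool.Agent.Helper537_Sym (sy eq_cons)

universe u v w

/-- the roots of unity of degree at most `D` over `K` are of order dividing `B` -/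
def RB (K : Type*) [Field K] (D B : ℕ) : Prop :=
  0 < B ∧ ∀ P : Polynomial K, Irreducible P → P.natDegree ≤ D → (∃ n : ℕ, 0 < n ∧ P ∣ Polynomial.X ^ n - 1) →
    P ∣ Polynomial.X ^ B - 1

/-- number fields -/
theorem rb_nf (K : Type*) [Field K] [NumberField K] (D : ℕ) : ∃ B : ℕ, RB K D B := by
  refine ⟨_, Nat.factorial_pos (Module.finrank ℚ K * D * (Module.finrank ℚ K * D + 1)), ?_⟩
  rintro P hP hPD ⟨n, hn, hPn⟩
  have : Fact (Irreducible P) := ⟨hP⟩
  have h1 : (AdjoinRoot.root P) ^ n = 1 := by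
    have h2 := AdjoinRoot.mk_eq_zero.2 hPn
    rw [map_sub, map_pow, map_one, AdjoinRoot.mk_X] at h2
    exact sub_eq_zero.1 h2
  have h3 := nb_prim (K := K) D hn h1 P hP.ne_zero hPD (by rw [AdjoinRoot.aeval_eq, AdjoinRoot.mk_self])
  rw [← AdjoinRoot.mk_eq_zero, map_sub, map_pow, map_one, AdjoinRoot.mk_X, h3, sub_self]

/-- the property passes to an extension in which `K` is algebraically closed -/
theorem rb_ext {K K1 : Type*} [Field K] [CharZero K] [Field K1] [Algebra K K1]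
    (hK : ∀ x : K1, IsAlgebraic K x → ∃ c : K, algebraMap K K1 c = x) {D B : ℕ} (h : RB K D B) : RB K1 D B := by
  refine ⟨h.1, ?_⟩
  rintro P hP hPD ⟨n, hn, hPn⟩
  classical
  have hP0 : P ≠ 0 := hP.ne_zero
  have hmon : (normalize P).Monic := Polynomial.monic_normalize hP0
  have hass : Associated (normalize P) P := normalize_associated P
  have hdvd : normalize P ∣ (Polynomial.X ^ n - 1 : Polynomial K).map (algebraMap K K1) := by
    rw [Polynomial.map_sub, Polynomial.map_pow, Polynomial.map_X, Polynomial.map_one]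
    exact hass.dvd.trans hPn
  have hmonn : (Polynomial.X ^ n - 1 : Polynomial K).Monic := Polynomial.monic_X_pow_sub_C 1 hn.ne'
  have hlift := integralClosure.mem_lifts_of_monic_of_dvd_map K1 hmonn hmon hdvd
  -- the coefficients are in `K`
  have hco : ∀ i, ∃ c : K, algebraMap K K1 c = (normalize P).coeff i := by
    intro i
    obtain ⟨q, hq⟩ := (Polynomial.mem_lifts _).1 hlift
    rw [← hq, Polynomial.coeff_map]
    exact hK _ (q.coeff i).2.isAlgebraic
  have hlift2 : normalize P ∈ Polynomial.lifts (algebraMap K K1) := by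
    rw [Polynomial.lifts_iff_coeff_lifts]
    exact hco
  obtain ⟨Q, hQ⟩ := (Polynomial.mem_lifts _).1 hlift2
  have hinj : Function.Injective (algebraMap K K1) := (algebraMap K K1).injective
  have hQm : Q.Monic := (Polynomial.monic_map_iff).1 (by rw [hQ]; exact hmon)
  have hQirr : Irreducible Q := by
    refine hQm.irreducible_of_irreducible_map (algebraMap K K1) Q ?_
    rw [hQ]
    exact (hass.irreducible_iff).2 hP
  have hQD : Q.natDegree ≤ D := by
    rw [← Polynomial.natDegree_map_eq_of_injective hinj Q, hQ]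
    exact (Polynomial.natDegree_eq_of_degree_eq (Polynomial.degree_eq_degree_of_associated hass)).le.trans hPD
  have hQn : Q ∣ Polynomial.X ^ n - 1 := by
    rw [← Polynomial.map_dvd_map (algebraMap K K1) hinj hQm, hQ]
    exact hdvd
  have h1 := h.2 Q hQirr hQD ⟨n, hn, hQn⟩
  have h2 := (Polynomial.map_dvd_map (algebraMap K K1) hinj hQm).2 h1
  rw [hQ, Polynomial.map_sub, Polynomial.map_pow, Polynomial.map_X, Polynomial.map_one] at h2
  exact hass.symm.dvd.trans h2

/-- roots of unity of bounded degree -/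
theorem nbg_prim {K R : Type*} [Field K] [Field R] [Algebra K R] {D B : ℕ} (hB : RB K D B) {c : R} {n : ℕ}
    (hn : 0 < n) (hcn : c ^ n = 1) (P : Polynomial K) (hP0 : P ≠ 0) (hPD : P.natDegree ≤ D)
    (hPc : Polynomial.aeval c P = 0) : c ^ B = 1 := by
  have hint : IsIntegral K c := ⟨Polynomial.X ^ n - 1, Polynomial.monic_X_pow_sub_C 1 hn.ne', by simp [hcn]⟩
  have h1 := hB.2 (minpoly K c) (minpoly.irreducible hint)
    ((Polynomial.natDegree_le_natDegree (minpoly.degree_le_of_ne_zero K c hP0 hPc)).trans hPD)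
    ⟨n, hn, minpoly.dvd K c (by rw [map_sub, map_pow, Polynomial.aeval_X, map_one, hcn, sub_self])⟩
  have h2 := Polynomial.aeval_eq_zero_of_dvd_aeval_eq_zero h1 (minpoly.aeval K c)
  rw [map_sub, map_pow, Polynomial.aeval_X, map_one] at h2
  exact sub_eq_zero.1 h2

/-- the same for residues -/
theorem nbg_ord {K L : Type*} [Field K] [CharZero K] [Field L] [Algebra K L] (v : Valuation L ℤᵐ⁰)
    (hv : ∀ x : K, x ≠ 0 → v (algebraMap K L x) = 1) {D B : ℕ} (hB : RB K D B) {c : L} (hc : v c ≤ 1) {n : ℕ}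
    (hn : 0 < n) (hcn : v (c ^ n - 1) < 1) (P : Polynomial K) (hP0 : P ≠ 0) (hPD : P.natDegree ≤ D)
    (hPc : v (Polynomial.aeval c P) < 1) :
    v (c ^ B - 1) < 1 := by
  let A := v.valuationSubring
  let φ : K →+* A := (algebraMap K L).codRestrict A fun x => nb_k v hv x
  let R := IsLocalRing.ResidueField A
  let ρ : A →+* R := IsLocalRing.residue A
  let : Algebra K R := (ρ.comp φ).toAlgebra
  have hρ : ∀ a : A, ρ a = 0 ↔ v (a : L) < 1 := by
    intro a
    rw [IsLocalRing.residue_eq_zero_iff]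
    exact Valuation.mem_maximalIdeal_iff _ v
  let γ : A := ⟨c, hc⟩
  have h1 : ρ γ ^ n = 1 := by
    have : ρ (γ ^ n - 1) = 0 := (hρ _).2 hcn
    rw [map_sub, map_pow, map_one] at this
    exact sub_eq_zero.1 this
  have h2 : Polynomial.aeval (ρ γ) P = 0 := by
    have h3 : ρ (P.eval₂ φ γ) = Polynomial.aeval (ρ γ) P := by
      rw [Polynomial.hom_eval₂]
      rfl
    rw [← h3, hρ]
    have h4 : ((P.eval₂ φ γ : A) : L) = Polynomial.aeval c P := by
      have : ((P.eval₂ φ γ : A) : L) = A.subtype (P.eval₂ φ γ) := rfl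
      rw [this, Polynomial.hom_eval₂]
      rfl
    rw [h4]
    exact hPc
  have h5 := nbg_prim hB hn h1 P hP0 hPD h2
  have h6 : ρ (γ ^ B - 1) = 0 := by
    rw [map_sub, map_pow, map_one, h5, sub_self]
  exact (hρ _).1 h6

/-- the case of a normalized valuation -/
theorem nbg_norm {K L : Type*} [Field K] [CharZero K] [Field L] [Algebra K L] (v : Valuation L ℤᵐ⁰)
    (hvs : Function.Surjective v) (hv : ∀ x : K, x ≠ 0 → v (algebraMap K L x) = 1) {D B : ℕ} (hB : RB K D B) (f g : Lˣ)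
    (hf : FiniteDimensional K⟮(f : L)⟯ L) (hfD : Module.finrank K⟮(f : L)⟯ L ≤ D)
    (hg : FiniteDimensional K⟮(g : L)⟯ L) (hgD : Module.finrank K⟮(g : L)⟯ L ≤ D)
    (hsy : sy f g ∈ unitPart v 2) (hne : v (f : L) ≠ 1 ∨ v (g : L) ≠ 1) :
    v ((((f : L) ^ WithZero.log (v (g : L)) / (g : L) ^ WithZero.log (v (f : L))) ^
      (2 * B)) - 1) < 1 := by
  obtain ⟨t, ht⟩ := hvs (WithZero.exp (-1 : ℤ))
  have ht0 : t ≠ 0 := by
    rintro rfl
    rw [map_zero] at ht
    exact WithZero.exp_ne_zero ht.symm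
  let T : Lˣ := Units.mk0 t ht0
  have hT : v (T : L) = WithZero.exp (-1 : ℤ) := ht
  have key : ∀ f : Lˣ, ∃ (a : ℤ) (f1 : Lˣ), v (f1 : L) = 1 ∧ f = T ^ a * f1 ∧ WithZero.log (v (f : L)) = -a := by
    intro f
    have hf0 : v (f : L) ≠ 0 := (Valuation.ne_zero_iff v).2 f.ne_zero
    obtain ⟨r, hr⟩ : ∃ r : ℤ, v (f : L) = WithZero.exp r := ⟨_, (WithZero.exp_log hf0).symm⟩
    refine ⟨-r, T ^ r * f, ?_, ?_, ?_⟩
    · rw [Units.val_mul, map_mul, Units.val_zpow_eq_zpow_val, map_zpow₀, hT, ← WithZero.exp_zsmul, hr,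
        ← WithZero.exp_add, smul_eq_mul, show r * -1 + r = 0 by ring, WithZero.exp_zero]
    · rw [← mul_assoc, ← zpow_add, neg_add_cancel, zpow_zero, one_mul]
    · rw [hr, WithZero.log_exp, neg_neg]
  obtain ⟨a, f1, hf1, hfT, hla⟩ := key f
  obtain ⟨b, g1, hg1, hgT, hlb⟩ := key g
  rw [hla, hlb]
  let c : Lˣ := g1 ^ a * f1⁻¹ ^ b
  have hc : v (c : L) = 1 := by
    show v (((g1 ^ a * f1⁻¹ ^ b : Lˣ) : L)) = 1
    rw [Units.val_mul, Units.val_zpow_eq_zpow_val, Units.val_zpow_eq_zpow_val, map_mul, map_zpow₀, map_zpow₀, hg1,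
      Units.val_inv_eq_inv_val, map_inv₀, hf1, inv_one, one_zpow, one_zpow, one_mul]
  have hx : (f : L) ^ (-b) / (g : L) ^ (-a) = (c : L) := by
    have h1 : (c : L) = (g1 : L) ^ a * ((f1 : L)⁻¹) ^ b := by
      show ((g1 ^ a * f1⁻¹ ^ b : Lˣ) : L) = _
      rw [Units.val_mul, Units.val_zpow_eq_zpow_val, Units.val_zpow_eq_zpow_val, Units.val_inv_eq_inv_val]
    rw [h1, hfT, hgT, Units.val_mul, Units.val_mul, Units.val_zpow_eq_zpow_val, Units.val_zpow_eq_zpow_val]
    have hTL : (T : L) ≠ 0 := T.ne_zero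
    have hf1L : (f1 : L) ≠ 0 := f1.ne_zero
    have hg1L : (g1 : L) ≠ 0 := g1.ne_zero
    rw [mul_zpow, mul_zpow, ← zpow_mul, ← zpow_mul, inv_zpow, zpow_neg (f1 : L), zpow_neg (g1 : L),
      show b * -a = a * -b by ring]
    have h2 : (T : L) ^ (a * -b) ≠ 0 := zpow_ne_zero _ hTL
    have h3 : (g1 : L) ^ a ≠ 0 := zpow_ne_zero _ hg1L
    have h4 : (f1 : L) ^ b ≠ 0 := zpow_ne_zero _ hf1L
    field_simp
  rw [hx]
  have h5 : sy T c ∈ unitPart v 2 := by
    have h6 := hsy
    rw [hfT, hgT, sy_dec] at h6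
    have h7 := sub_mem h6 (sy_unit v hf1 hg1)
    rwa [add_sub_cancel_right] at h7
  obtain ⟨n, hn, hcn⟩ := tame_tors v c T (unitPart_swap v T c h5) hc (by
    rw [hT, ← WithZero.exp_zero, Ne, WithZero.exp_inj]
    norm_num)
  obtain ⟨P, hP0, hPD, hPc⟩ : ∃ P : Polynomial K, P ≠ 0 ∧ P.natDegree ≤ D ∧ v (Polynomial.aeval (c : L) P) < 1 := by
    rcases hne with h | h
    · exact nb_dep v hv h f.ne_zero hfD (c : L) hc.le
    · exact nb_dep v hv h g.ne_zero hgD (c : L) hc.le
  have h8 := nbg_ord v hv hB hc.le hn hcn P hP0 hPD hPc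
  rw [mul_comm 2, pow_mul]
  exact nb_pow v h8 2

/-- the bound for the order of tame symbols -/
theorem tame_bound_gen (K : Type u) [Field K] [CharZero K] {D B : ℕ} (h : RB K D B) : ∃ N : ℕ, 0 < N ∧
    ∀ {L : Type v} {E : Type w} [Field L] [Field E] [Algebra K L] [Algebra L E] (f g : Lˣ),
      Transcendental K (f : L) → FiniteDimensional K⟮(f : L)⟯ L → Module.finrank K⟮(f : L)⟯ L ≤ D →
      Transcendental K (g : L) → FiniteDimensional K⟮(g : L)⟯ L → Module.finrank K⟮(g : L)⟯ L ≤ D →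
      (∀ v ∈ VN K L, sy f g ∈ unitPart v 2) →
      ∀ w : Valuation E ℤᵐ⁰, (∀ x : K, x ≠ 0 → w (algebraMap L E (algebraMap K L x)) = 1) →
        TameTors w N (algebraMap L E f) (algebraMap L E g) := by
  refine ⟨2 * B, Nat.mul_pos two_pos h.1, ?_⟩
  intro L E _ _ _ _ f g _ hf hfD _ hg hgD hsy w hw
  let w' : Valuation L ℤᵐ⁰ := w.comap (algebraMap L E)
  have hww : ∀ x : L, w (algebraMap L E x) = w' x := fun x => rfl
  suffices hsuf : w' ((((-1) ^ (WithZero.log (w' (f : L)) * WithZero.log (w' (g : L))) *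
      (f : L) ^ WithZero.log (w' (g : L)) / (g : L) ^ WithZero.log (w' (f : L)))) ^ (2 * B) - 1) < 1 by
    unfold TameTors
    rw [hww, hww]
    rw [← hww] at hsuf
    rw [map_sub, map_one, map_pow, map_div₀, map_mul, map_zpow₀, map_zpow₀, map_zpow₀, map_neg, map_one] at hsuf
    exact hsuf
  have hsq : ∀ n : ℤ, ((-1 : L) ^ n) ^ (2 * B) = 1 := by
    intro n
    rw [pow_mul, ← zpow_natCast ((-1 : L) ^ n) 2, ← zpow_mul, mul_comm n, zpow_mul]
    norm_num
  rw [mul_div_assoc, mul_pow, hsq, one_mul]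
  by_cases hne : w' (f : L) ≠ 1 ∨ w' (g : L) ≠ 1
  · obtain ⟨v, hvs, hv1⟩ := exists_norm w' (by
      rcases hne with h | h
      · exact ⟨f, f.ne_zero, h⟩
      · exact ⟨g, g.ne_zero, h⟩)
    have hvK : ∀ x : K, x ≠ 0 → v (algebraMap K L x) = 1 := fun x hx => (hv1 _).2 (hw x hx)
    have hne' : v (f : L) ≠ 1 ∨ v (g : L) ≠ 1 := by
      rcases hne with h2 | h2
      · exact Or.inl fun h1 => h2 ((hv1 _).1 h1)
      · exact Or.inr fun h1 => h2 ((hv1 _).1 h1)
    have h1 := nbg_norm v hvs hvK h f g hf hfD hg hgD (hsy v ⟨hvs, hvK⟩) hne'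
    -- the relation between the valuations
    obtain ⟨t, ht⟩ := hvs (WithZero.exp (-1 : ℤ))
    have ht0 : t ≠ 0 := by
      rintro rfl
      rw [map_zero] at ht
      exact WithZero.exp_ne_zero ht.symm
    have hlt : w' t < 1 := lt_of_same (v := v) (w := w') (fun a => (hv1 a).symm) (by
      rw [ht, ← WithZero.exp_zero, WithZero.exp_lt_exp]
      norm_num)
    have hwt0 : w' t ≠ 0 := (Valuation.ne_zero_iff w').2 ht0
    obtain ⟨s, hs⟩ : ∃ s : ℤ, w' t = WithZero.exp s := ⟨_, (WithZero.exp_log hwt0).symm⟩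
    have hs0 : s < 0 := by rwa [hs, ← WithZero.exp_zero, WithZero.exp_lt_exp] at hlt
    obtain ⟨e, he⟩ : ∃ e : ℕ, s = -e := ⟨s.natAbs, by omega⟩
    have hlog : ∀ x : Lˣ, WithZero.log (w' (x : L)) = e * WithZero.log (v (x : L)) := by
      intro x
      have hx0 : v (x : L) ≠ 0 := (Valuation.ne_zero_iff v).2 x.ne_zero
      obtain ⟨r, hr⟩ : ∃ r : ℤ, v (x : L) = WithZero.exp r := ⟨_, (WithZero.exp_log hx0).symm⟩
      have h2 : v ((x : L) * t ^ r) = 1 := by
        rw [map_mul, map_zpow₀, ht, hr, ← WithZero.exp_zsmul, ← WithZero.exp_add, smul_eq_mul,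
          show r + r * -1 = 0 by ring, WithZero.exp_zero]
      have h3 := (hv1 _).1 h2
      rw [map_mul, map_zpow₀, hs, ← WithZero.exp_zsmul, smul_eq_mul] at h3
      have h4 : w' (x : L) = WithZero.exp (-(r * s)) := by
        rw [WithZero.exp_neg]
        exact eq_inv_of_mul_eq_one_left h3
      rw [h4, hr, WithZero.log_exp, WithZero.log_exp, he]
      ring
    rw [hlog, hlog]
    have h5 : ((f : L) ^ ((e : ℤ) * WithZero.log (v (g : L))) / (g : L) ^ ((e : ℤ) * WithZero.log (v (f : L)))) ^ (2 * B) =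
        (((f : L) ^ WithZero.log (v (g : L)) / (g : L) ^ WithZero.log (v (f : L))) ^ (2 * B)) ^ e := by
      rw [mul_comm (e : ℤ), mul_comm (e : ℤ), zpow_mul, zpow_mul, zpow_natCast, zpow_natCast, ← div_pow, ← pow_mul,
        ← pow_mul, mul_comm]
    rw [h5]
    exact lt_of_same (v := v) (w := w') (fun a => (hv1 a).symm) (nb_pow v h1 e)
  · push Not at hne
    rw [hne.1, hne.2, WithZero.log_one, zpow_zero, zpow_zero, div_one, one_pow, sub_self, map_zero]
    exact zero_lt_one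

end Pool.Agent.Helper79.RG
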