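import Pool.Agent.Helper79.RG.MIL
import Pool.Agent.Helper79.RG.G1
import Pool.Agent.Helper79.RG.M12

set_option autoImplicit false

/-!
# Module PL: extension of places, linear disjointness, descent of the unramified condition
-/

set_option linter.unusedSectionVars false

universe u

namespace Pool.Agent.Helper79.RG

open scoped WithZero IntermediateField.algebraAdjoinAdjoin
open IntermediateField IsDedekindDomain
open Pool.Agent.Helper79.FE
open Pool.Agent.TH826.MK (KQ symb unitPart)
open Pool.Agent.Helper537_Sym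

/-- descent of the unit part along an extension of valuations -/
theorem unit_descent {M L : Type*} [Field M] [Field L] [Algebra M L] (v : Valuation L ℤᵐ⁰) (w : Valuation M ℤᵐ⁰)
    (hw : Function.Surjective w) (hvw : ∀ a : M, w a < 1 ↔ v (algebraMap M L a) < 1) (f g : Mˣ)
    (h : KQ.map 2 (algebraMap M L) (sy f g) ∈ unitPart v 2) : sy f g ∈ unitPart w 2 := by
  obtain ⟨t, ht⟩ := hw (WithZero.exp (-1 : ℤ))
  have ht0 : t ≠ 0 := by
    rintro rfl
    rw [map_zero] at ht
    exact WithZero.exp_ne_zero ht.symm
  let T : Mˣ := Units.mk0 t ht0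
  have hT : w (T : M) = WithZero.exp (-1 : ℤ) := ht
  have hone : ∀ a : M, w a = 1 → v (algebraMap M L a) = 1 := by
    intro a ha
    have h1 : ¬ v (algebraMap M L a) < 1 := fun h => by
      rw [← hvw, ha] at h
      exact lt_irrefl _ h
    have h2 : ¬ v (algebraMap M L a⁻¹) < 1 := fun h => by
      rw [← hvw, map_inv₀, ha, inv_one] at h
      exact lt_irrefl _ h
    have h0 : v (algebraMap M L a) ≠ 0 := fun h => h1 (by rw [h]; exact zero_lt_one)
    rw [map_inv₀, map_inv₀] at h2
    push Not at h1 h2
    refine le_antisymm ?_ h1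
    exact (one_le_inv₀ (zero_lt_iff.2 h0)).1 h2
  have key : ∀ f : Mˣ, ∃ (a : ℤ) (f1 : Mˣ), w (f1 : M) = 1 ∧ f = T ^ a * f1 := by
    intro f
    have hf0 : w (f : M) ≠ 0 := (Valuation.ne_zero_iff w).2 f.ne_zero
    obtain ⟨r, hr⟩ : ∃ r : ℤ, w (f : M) = WithZero.exp r := ⟨_, (WithZero.exp_log hf0).symm⟩
    refine ⟨-r, T ^ r * f, ?_, ?_⟩
    · rw [Units.val_mul, map_mul, Units.val_zpow_eq_zpow_val, map_zpow₀, hT, ← WithZero.exp_zsmul, hr,
        ← WithZero.exp_add, smul_eq_mul, show r * -1 + r = 0 by ring, WithZero.exp_zero]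
    · rw [← mul_assoc, ← zpow_add, neg_add_cancel, zpow_zero, one_mul]
  obtain ⟨a, f1, hf1, rfl⟩ := key f
  obtain ⟨b, g1, hg1, rfl⟩ := key g
  rw [sy_dec] at h ⊢
  set c : Mˣ := g1 ^ a * f1⁻¹ ^ b with hc
  have hcw : w (c : M) = 1 := by
    rw [hc, Units.val_mul, Units.val_zpow_eq_zpow_val, Units.val_zpow_eq_zpow_val, map_mul, map_zpow₀, map_zpow₀,
      hg1, Units.val_inv_eq_inv_val, map_inv₀, hf1, inv_one, one_zpow, one_zpow, one_mul]
  refine add_mem ?_ (sy_unit w hf1 hg1)
  rw [map_add, map_sy', map_sy'] at h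
  have h1 : sy (Units.map ((algebraMap M L : M →+* L) : M →* L) T) (Units.map ((algebraMap M L : M →+* L) : M →* L) c)
      ∈ unitPart v 2 := by
    have h2 : sy (Units.map ((algebraMap M L : M →+* L) : M →* L) f1)
        (Units.map ((algebraMap M L : M →+* L) : M →* L) g1) ∈ unitPart v 2 :=
      sy_unit v (hone _ hf1) (hone _ hg1)
    have h3 := sub_mem h h2
    rwa [add_sub_cancel_right] at h3
  have hTv : v (algebraMap M L t) < 1 := (hvw t).1 (by
    rw [ht, ← WithZero.exp_zero, WithZero.exp_lt_exp]; norm_num)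
  obtain ⟨n, hn, hvn⟩ := tame_tors v _ _ (unitPart_swap v _ _ h1) (hone _ hcw) (ne_of_lt hTv)
  have h4 : w ((c : M) ^ n - 1) < 1 := by
    rw [hvw, map_sub, map_pow, map_one]
    exact hvn
  have h5 : sy T (c ^ n) ∈ unitPart w 2 := sy_one_add w T _ hT (by rwa [Units.val_pow_eq_pow_val])
  rw [sy_pow_right] at h5
  have h6 : (n : ℚ) ≠ 0 := Nat.cast_ne_zero.2 hn.ne'
  have h7 := Submodule.smul_mem _ ((n : ℚ))⁻¹ h5
  rwa [smul_smul, inv_mul_cancel₀ h6, one_smul] at h7

section pe

variable {K M L : Type*} [Field K] [CharZero K] [Field M] [Field L] [Algebra K M] [Algebra K L] [Algebra M L]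
  [IsScalarTower K M L]

theorem fin_tower (hM : IsFun K M) (hL : IsFun K L) : FiniteDimensional M L := by
  classical
  obtain ⟨x, hx, -⟩ := hM
  have hx' : Transcendental K (algebraMap M L x) := (transcendental_algebraMap_iff (algebraMap M L).injective).2 hx
  have hfin := hL.alg hx'
  have hmem : ∀ y : L, y ∈ K⟮algebraMap M L x⟯ → ∃ m : M, algebraMap M L m = y := by
    intro y hy
    have h1 : K⟮algebraMap M L x⟯ ≤ (IsScalarTower.toAlgHom K M L).fieldRange := by
      rw [IntermediateField.adjoin_simple_le_iff]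
      exact ⟨x, rfl⟩
    obtain ⟨m, hm⟩ := h1 hy
    exact ⟨m, hm⟩
  let b := Module.finBasis K⟮algebraMap M L x⟯ L
  refine Module.Finite.of_fg_top (R := M) (M := L) ?_ |> id
  refine ⟨Finset.univ.image b, ?_⟩
  rw [eq_top_iff]
  intro y _
  rw [← b.sum_repr y]
  refine Submodule.sum_mem _ fun i _ => ?_
  obtain ⟨m, hm⟩ := hmem _ (b.repr y i).2
  have h2 : (b.repr y i) • b i = m • b i := by
    rw [Algebra.smul_def m, hm]
    rfl
  rw [h2]
  exact Submodule.smul_mem _ _ (Submodule.subset_span (by simp))

/-- places extend along finite extensions of function fields -/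
theorem exists_place (hM : IsFun K M) (hL : IsFun K L) {w : Valuation M ℤᵐ⁰} (hw : w ∈ VN K M) :
    ∃ v ∈ VN K L, ∀ a : M, w a < 1 ↔ v (algebraMap M L a) < 1 := by
  have hfinML := fin_tower hM hL
  have hMc : CharZero M := charZero_of_injective_algebraMap (algebraMap K M).injective
  obtain ⟨x, hx⟩ := hw.1 (WithZero.exp (-1 : ℤ))
  have hx0 : x ≠ 0 := z_ne hx
  have hxt : Transcendental K x := unif_trans hw hx
  have hfin := hM.alg hxt
  obtain ⟨hded, hfrac⟩ := ded_closure x hxt
  let A := integralClosure (Algebra.adjoin K {x}) M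
  have hsep : Algebra.IsSeparable M L := inferInstance
  have hded2 : IsDedekindDomain (integralClosure A L) := integralClosure.isDedekindDomain A M L
  have hfrac2 : IsFractionRing (integralClosure A L) L := integralClosure.isFractionRing_of_finite_extension M L
  have hadj : ∀ b : Algebra.adjoin K {x}, w (algebraMap _ M b) ≤ 1 := fun b => v_adj hw (by
    rw [hx, ← WithZero.exp_zero, WithZero.exp_le_exp]; norm_num) b.2
  have hA : ∀ c : A, w (algebraMap A M c) ≤ 1 := fun c => val_int w hadj _ c.2
  obtain ⟨P, hP, hPm⟩ := exists_centre w hA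
  have hxB : x ∈ Algebra.adjoin K {x} := Algebra.self_mem_adjoin_singleton K x
  let xA : A := algebraMap (Algebra.adjoin K {x}) A ⟨x, hxB⟩
  have hxA : xA ∈ P := (hPm xA).1 (by
    show w x < 1
    rw [hx, ← WithZero.exp_zero, WithZero.exp_lt_exp]; norm_num)
  have hxA0 : xA ≠ 0 := by
    intro h
    exact hx0 (congrArg (fun y : A => (y : M)) h)
  have hP0 : P ≠ ⊥ := by
    rintro rfl
    exact hxA0 ((Ideal.mem_bot).1 hxA)
  have hPmax : P.IsMaximal := hP.isMaximal hP0
  have hinj : Function.Injective (algebraMap A (integralClosure A L)) := by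
    intro a b hab
    have h1 := congrArg (algebraMap (integralClosure A L) L) hab
    rw [← IsScalarTower.algebraMap_apply, ← IsScalarTower.algebraMap_apply] at h1
    have h2 : algebraMap M L (a : M) = algebraMap M L (b : M) := h1
    exact Subtype.ext ((algebraMap M L).injective h2)
  obtain ⟨Q, hQ, hQm⟩ := Ideal.exists_ideal_over_maximal_of_isIntegral (S := integralClosure A L) P (by
      rw [(RingHom.injective_iff_ker_eq_bot _).1 hinj]
      exact bot_le)
  have hQ0 : Q ≠ ⊥ := by
    rintro rfl
    apply hP0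
    rw [← hQm, eq_bot_iff]
    intro a ha
    rw [Ideal.mem_comap, Ideal.mem_bot] at ha
    rw [Ideal.mem_bot]
    exact hinj (by rw [ha, map_zero])
  let Pv : HeightOneSpectrum (integralClosure A L) := ⟨Q, hQ.isPrime, hQ0⟩
  have hle : ∀ a : A, Pv.valuation L (algebraMap M L a) ≤ 1 := fun a =>
    Pv.valuation_le_one (K := L) (algebraMap A (integralClosure A L) a)
  have hlt : ∀ a : A, Pv.valuation L (algebraMap M L a) < 1 ↔ w (a : M) < 1 := by
    intro a
    rw [show algebraMap M L (a : M) = algebraMap (integralClosure A L) L (algebraMap A (integralClosure A L) a) from rfl,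
      Pv.valuation_lt_one_iff_mem]
    show algebraMap A (integralClosure A L) a ∈ Q ↔ _
    rw [← Ideal.mem_comap, hQm]
    exact (hPm a).symm
  have hdir : ∀ a : M, w a ≤ 1 → Pv.valuation L (algebraMap M L a) ≤ 1 ∧
      (w a < 1 → Pv.valuation L (algebraMap M L a) < 1) := by
    intro a ha
    obtain ⟨p, q, hq, hpq⟩ := frac_unit (C := A) w hA ha
    have hq1 : Pv.valuation L (algebraMap M L (q : M)) = 1 := by
      refine le_antisymm (hle q) (not_lt.1 fun h => ?_)
      rw [hlt q] at h
      have h2 : w (q : M) = 1 := hq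
      rw [h2] at h
      exact lt_irrefl _ h
    have hpq' : (q : M) * a = (p : M) := hpq
    have h3 : Pv.valuation L (algebraMap M L a) = Pv.valuation L (algebraMap M L (p : M)) := by
      rw [← hpq', map_mul, map_mul, hq1, one_mul]
    rw [h3]
    refine ⟨hle p, fun h => ?_⟩
    rw [hlt p, ← hpq', map_mul]
    have h2 : w (q : M) = 1 := hq
    rwa [h2, one_mul]
  refine ⟨Pv.valuation L, ⟨Pv.valuation_surjective L, fun q hq => ?_⟩, fun a => ⟨fun h => (hdir a h.le).2 h, fun h => ?_⟩⟩
  · have h1 : ∀ q : K, Pv.valuation L (algebraMap K L q) ≤ 1 := by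
      intro q
      rw [IsScalarTower.algebraMap_apply K M L]
      exact hle (algebraMap (Algebra.adjoin K {x}) A (algebraMap K _ q))
    refine le_antisymm (h1 q) ?_
    have h2 := h1 q⁻¹
    have h3 : Pv.valuation L (algebraMap K L q) * Pv.valuation L (algebraMap K L q⁻¹) = 1 := by
      rw [← map_mul, ← map_mul, mul_inv_cancel₀ hq, map_one, map_one]
    calc (1 : ℤᵐ⁰) = Pv.valuation L (algebraMap K L q) * Pv.valuation L (algebraMap K L q⁻¹) := h3.symm
      _ ≤ Pv.valuation L (algebraMap K L q) * 1 := mul_le_mul_right h2 _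
      _ = _ := mul_one _
  · by_contra hcon
    push Not at hcon
    have ha0 : a ≠ 0 := by
      rintro rfl
      rw [map_zero] at hcon
      exact absurd hcon (not_le.2 zero_lt_one)
    have h1 : w a⁻¹ ≤ 1 := by
      rw [map_inv₀]
      exact inv_le_one_of_one_le₀ hcon
    have h2 := (hdir _ h1).1
    rw [map_inv₀, map_inv₀] at h2
    have h0 : Pv.valuation L (algebraMap M L a) ≠ 0 := (Valuation.ne_zero_iff _).2 ((map_ne_zero _).2 ha0)
    have h3 := (inv_le_one₀ (zero_lt_iff.2 h0)).1 h2
    exact absurd h (not_lt.2 h3)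

end pe

section ld

variable {k K M : Type*} {L : Type u} [Field k] [IsAlgClosed k] [CharZero k] [Field K] [Field M] [Field L]
  [Algebra k K] [Algebra k M] [Algebra k L] [Algebra K L] [Algebra M L] [IsScalarTower k K L] [IsScalarTower k M L]

/-- a function field over `k` which is not contained in `K` is linearly disjoint from `K` -/
theorem ld_of_trans (hL : IsFun K L) (hM : IsFun k M) (F : M) (hF : Transcendental K (algebraMap M L F)) (n : ℕ)
    (h : Fin n → M) (hh : LinearIndependent k h) : LinearIndependent K (fun i => algebraMap M L (h i)) := by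
  classical
  have hLc : CharZero L := charZero_of_injective_algebraMap (algebraMap k L).injective
  have hKc : CharZero K := charZero_of_injective_algebraMap (algebraMap k K).injective
  have hMc : CharZero M := charZero_of_injective_algebraMap (algebraMap k M).injective
  have hFk : Transcendental k F := by
    intro h0
    exact hF ((h0.algebraMap (A := L)).tower_top K)
  have hfinM := hM.alg hFk
  have hfinL := hL.alg hF
  -- derivations
  have hder : ∀ δ : Derivation ℤ K K, (∀ a : k, δ (algebraMap k K a) = 0) → ∃ D : Derivation ℤ L L,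
      (∀ c : K, D (algebraMap K L c) = algebraMap K L (δ c)) ∧ ∀ m : M, D (algebraMap M L m) = 0 := by
    intro δ hδ
    obtain ⟨D, hD1, hD2⟩ := exists_der (K := K) (E := L) (algebraMap M L F) hF inferInstance
      (fun c => algebraMap K L (δ c)) (fun a b => by rw [map_add, map_add])
      (fun a b => by rw [δ.leibniz, map_add, smul_eq_mul, smul_eq_mul, map_mul, map_mul]) 0
    refine ⟨D, hD1, fun m => ?_⟩
    have h1 := der_eq (k := k) (E := M) (M := L) F (Algebra.IsAlgebraic.of_finite _ _) (D.compAlgebraMap M) 0 (by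
        intro c
        show D (algebraMap M L (algebraMap k M c)) = 0
        rw [← IsScalarTower.algebraMap_apply, IsScalarTower.algebraMap_apply k K L, hD1, hδ, map_zero]) (by
        show D (algebraMap M L F) = 0
        rw [hD2])
    exact congrArg (fun X => X m) h1
  rw [Fintype.linearIndependent_iff] at hh ⊢
  have key : ∀ (N : ℕ) (s : Finset (Fin n)), s.card = N → ∀ κ : Fin n → K, (∀ i, i ∉ s → κ i = 0) →
      ∑ i, κ i • algebraMap M L (h i) = 0 → ∀ i, κ i = 0 := by
    intro N
    induction N using Nat.strong_induction_on with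
    | _ N ih =>
    intro s hs κ hκ hsum
    by_contra hne
    push Not at hne
    obtain ⟨i0, hi0⟩ := hne
    have hi0s : i0 ∈ s := by
      by_contra h0
      exact hi0 (hκ i0 h0)
    let κ' : Fin n → K := fun i => (κ i0)⁻¹ * κ i
    have hsum' : ∑ i, κ' i • algebraMap M L (h i) = 0 := by
      have : ∑ i, κ' i • algebraMap M L (h i) = (κ i0)⁻¹ • ∑ i, κ i • algebraMap M L (h i) := by
        rw [Finset.smul_sum]
        refine Finset.sum_congr rfl fun i _ => ?_
        rw [smul_smul]
      rw [this, hsum, smul_zero]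
    have hconst : ∀ i, ∃ a : k, algebraMap k K a = κ' i := by
      intro i
      by_contra hcon
      push Not at hcon
      obtain ⟨δ, hδ1, hδ2⟩ := exists_derK (κ' i) hcon
      obtain ⟨D, hD1, hD2⟩ := hder δ hδ1
      refine hδ2 (ih (s.erase i0).card ?_ (s.erase i0) rfl (fun i => δ (κ' i)) ?_ ?_ i)
      · rw [← hs]
        exact Finset.card_erase_lt_of_mem hi0s
      · intro j hj
        by_cases hj0 : j = i0
        · subst hj0
          have : κ' j = 1 := inv_mul_cancel₀ hi0
          show δ (κ' j) = 0
          rw [this]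
          exact δ.map_one_eq_zero
        · have : κ' j = 0 := by
            show (κ i0)⁻¹ * κ j = 0
            rw [hκ j (fun h => hj (Finset.mem_erase.2 ⟨hj0, h⟩)), mul_zero]
          show δ (κ' j) = 0
          rw [this, map_zero]
      · have h1 := congrArg D hsum'
        rw [map_zero, map_sum] at h1
        rw [← h1]
        refine Finset.sum_congr rfl fun j _ => ?_
        rw [Algebra.smul_def, Algebra.smul_def, D.leibniz, hD2, smul_zero, zero_add, hD1, smul_eq_mul, mul_comm]
    choose a ha using hconst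
    have h3 : ∑ i, a i • h i = 0 := by
      apply (algebraMap M L).injective
      rw [map_sum, map_zero, ← hsum']
      refine Finset.sum_congr rfl fun j _ => ?_
      rw [Algebra.smul_def, Algebra.smul_def, map_mul, ← ha j, ← IsScalarTower.algebraMap_apply,
        ← IsScalarTower.algebraMap_apply]
    have h4 := hh a h3 i0
    have h5 : κ' i0 = 1 := inv_mul_cancel₀ hi0
    rw [← ha i0, h4, map_zero] at h5
    exact zero_ne_one h5
  intro κ hκ
  exact key _ Finset.univ rfl κ (fun i hi => absurd (Finset.mem_univ i) hi) hκ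

/-- the compositum of `K` and `M` -/
theorem exists_big (hL : IsFun K L) (hM : IsFun k M) (F : M) (hF : Transcendental K (algebraMap M L F)) :
    ∃ (E : Type u) (_ : Field E) (_ : Algebra k E) (_ : Algebra K E) (_ : Algebra M E) (_ : Algebra E L)
      (_ : IsScalarTower k K E) (_ : IsScalarTower k M E) (_ : IsScalarTower K E L) (_ : IsScalarTower M E L)
      (_ : IsScalarTower k E L), IsProd k K M E ∧ IsFun K E := by
  have hLc : CharZero L := charZero_of_injective_algebraMap (algebraMap k L).injective
  have hKc : CharZero K := charZero_of_injective_algebraMap (algebraMap k K).injective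
  let E := IntermediateField.adjoin K (Set.range (algebraMap M L))
  let i0 : M →+* E := (algebraMap M L).codRestrict E.toSubring.toSubsemiring
    (fun h => IntermediateField.subset_adjoin _ _ ⟨h, rfl⟩)
  let aM : Algebra M E := i0.toAlgebra
  let akE : Algebra k E := ((algebraMap K E).comp (algebraMap k K)).toAlgebra
  have t1 : IsScalarTower k K E := IsScalarTower.of_algebraMap_eq' rfl
  have t4 : IsScalarTower M E L := IsScalarTower.of_algebraMap_eq' rfl
  have t3 : IsScalarTower K E L := inferInstance
  have t5 : IsScalarTower k E L := IsScalarTower.of_algebraMap_eq fun c => by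
    rw [IsScalarTower.algebraMap_apply k K E, ← IsScalarTower.algebraMap_apply K E L,
      ← IsScalarTower.algebraMap_apply k K L]
  have t2 : IsScalarTower k M E := IsScalarTower.of_algebraMap_eq fun c => by
    apply (algebraMap E L).injective
    rw [← IsScalarTower.algebraMap_apply k E L, ← IsScalarTower.algebraMap_apply M E L,
      ← IsScalarTower.algebraMap_apply k M L]
  have hRRE : ∀ a ∈ RR K M L, ∃ b : E, b ∈ RR K M E ∧ algebraMap E L b = a := by
    intro a ha
    obtain ⟨n, κ, h, rfl⟩ := rep_aux ha
    refine ⟨∑ i, algebraMap K E (κ i) * algebraMap M E (h i), sum_mem fun i _ => RR_mul (RR_K _) (RR_L0 _), ?_⟩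
    rw [map_sum]
    refine Finset.sum_congr rfl fun i _ => ?_
    rw [map_mul, ← IsScalarTower.algebraMap_apply K E L, ← IsScalarTower.algebraMap_apply M E L]
  have hFr : ∀ a : L, a ∈ E → FrR K M a := by
    intro a ha
    induction ha using IntermediateField.adjoin_induction with
    | mem x hx =>
      obtain ⟨h, rfl⟩ := hx
      exact FrR.of (RR_L0 h)
    | algebraMap x => exact FrR.of (RR_K x)
    | add x y _ _ hx hy => exact hx.add hy
    | mul x y _ _ hx hy => exact hx.mul hy
    | inv x _ h => exact h.inv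
  have hP1 : IsProd k K M E := by
    refine ⟨fun n h hh => ?_, fun a => ?_⟩
    · have h1 := ld_of_trans hL hM F hF n h hh
      exact LinearIndependent.of_comp (IsScalarTower.toAlgHom K E L).toLinearMap h1
    · obtain ⟨p, q, hp, hq, hq0, hpq⟩ := hFr a a.2
      obtain ⟨p', hp', rfl⟩ := hRRE p hp
      obtain ⟨q', hq', rfl⟩ := hRRE q hq
      refine ⟨p', q', hp', hq', fun h => hq0 (by rw [h, map_zero]), ?_⟩
      apply (algebraMap E L).injective
      rw [map_div₀]
      exact hpq
  have hFk : Transcendental k F := by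
    intro h0
    exact hF ((h0.algebraMap (A := L)).tower_top K)
  have hfinM := hM.alg hFk
  exact ⟨E, inferInstance, akE, inferInstance, aM, inferInstance, t1, t2, t3, t4, t5, hP1,
    ⟨algebraMap M E F, hP1.trans hFk, hP1.fin hFk⟩⟩

/-- descent of the unramified condition from `L / K` to `M / k` -/
theorem unram_descent [CharZero K] (hL : IsFun K L) (hM : IsFun k M) (F : M) (hF : Transcendental K (algebraMap M L F))
    (f g : Mˣ) (h : ∀ v ∈ VN K L, KQ.map 2 (algebraMap M L) (sy f g) ∈ unitPart v 2) :
    ∀ w ∈ VN k M, sy f g ∈ unitPart w 2 := by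
  intro w hw
  obtain ⟨E, _, _, _, _, _, _, _, _, _, _, hP, hE⟩ := exists_big hL hM F hF
  obtain ⟨w1, hw1, hw1e⟩ := exists_gauss (K := K) hP hM hw
  obtain ⟨v, hv, hve⟩ := exists_place hE hL hw1
  refine unit_descent v w hw.1 (fun a => ?_) f g (h v hv)
  rw [← hw1e, hve, ← IsScalarTower.algebraMap_apply]

end ld

end Pool.Agent.Helper79.RG
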