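import Pool.Agent.Helper79.RG.T1

set_option autoImplicit false

/-!
# Module QB: quotients of elements of a finite-dimensional space are of bounded degree
-/

set_option linter.unusedSectionVars false

namespace Pool.Agent.Helper79.RG

open scoped WithZero IntermediateField.algebraAdjoinAdjoin
open IntermediateField IsDedekindDomain
open Pool.Agent.Helper79.FE
open Polynomial

/-- the degree of a determinant -/
theorem qb_det_deg {R ι : Type*} [CommRing R] [Fintype ι] [DecidableEq ι] (B : Matrix ι ι R[X]) {d : ℕ}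
    (hB : ∀ i j, (B i j).natDegree ≤ d) : B.det.natDegree ≤ Fintype.card ι * d := by
  rw [Matrix.det_apply]
  refine natDegree_sum_le_of_forall_le _ _ fun σ _ => ?_
  have h1 : (∏ i, B (σ i) i).natDegree ≤ Fintype.card ι * d := by
    refine (natDegree_prod_le _ _).trans ?_
    refine (Finset.sum_le_card_nsmul _ _ d fun i _ => hB _ _).trans ?_
    simp
  rcases Int.units_eq_one_or (Equiv.Perm.sign σ) with h | h
  · rw [h, one_smul]; exact h1
  · rw [h, Units.neg_smul, one_smul, natDegree_neg]; exact h1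

/-- common denominators in `K(x)` -/
theorem qb_den {K L : Type*} [Field K] [Field L] [Algebra K L] (x : L) {ι : Type*} [Fintype ι] (u : ι → K⟮x⟯) :
    ∃ (h : K[X]) (p : ι → K[X]), aeval x h ≠ 0 ∧ ∀ s, aeval x (p s) = aeval x h * (u s : L) := by
  classical
  have h1 : ∀ s, ∃ r q : K[X], aeval x q ≠ 0 ∧ aeval x r = aeval x q * (u s : L) := by
    intro s
    obtain ⟨r, q, hrq⟩ := IntermediateField.mem_adjoin_simple_iff K (u s : L) |>.1 (u s).2
    by_cases hq : aeval x q = 0
    · refine ⟨0, 1, by simp, ?_⟩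
      rw [hrq, hq, div_zero, map_zero, mul_zero]
    · refine ⟨r, q, hq, ?_⟩
      rw [hrq, mul_div_cancel₀ _ hq]
  choose r q hq hr using h1
  refine ⟨∏ s, q s, fun s => r s * ∏ t ∈ Finset.univ.erase s, q t, ?_, fun s => ?_⟩
  · rw [map_prod]
    exact Finset.prod_ne_zero_iff.2 fun s _ => hq s
  · rw [map_mul, hr, ← Finset.mul_prod_erase Finset.univ q (Finset.mem_univ s), map_mul]
    ring

/-- the matrices of the multiplications by the elements of a finite-dimensional space -/
theorem qb_mat {K L : Type*} [Field K] [Field L] [Algebra K L] (x : L) {n : ℕ} (b : Module.Basis (Fin n) K⟮x⟯ L)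
    {m : ℕ} (e : Fin m → L) : ∃ (h : K[X]) (d : ℕ), aeval x h ≠ 0 ∧ ∀ a ∈ Submodule.span K (Set.range e),
      ∃ A : Matrix (Fin n) (Fin n) K[X], (∀ j k, (A j k).natDegree ≤ d) ∧
        ∀ j k, aeval x (A j k) = aeval x h * (Algebra.leftMulMatrix b a j k : L) := by
  classical
  obtain ⟨h, p, hh, hp⟩ := qb_den x (fun s : Fin m × Fin n × Fin n => Algebra.leftMulMatrix b (e s.1) s.2.1 s.2.2)
  refine ⟨h, Finset.univ.sup fun s => (p s).natDegree, hh, fun a ha => ?_⟩
  induction ha using Submodule.span_induction with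
  | mem y hy =>
    obtain ⟨i, rfl⟩ := hy
    refine ⟨fun j k => p (i, j, k), fun j k => ?_, fun j k => hp (i, j, k)⟩
    exact Finset.le_sup (f := fun s => (p s).natDegree) (Finset.mem_univ _)
  | zero =>
    refine ⟨0, fun j k => by simp, fun j k => ?_⟩
    rw [map_zero]
    simp
  | add y z _ _ hy hz =>
    obtain ⟨A, hA, hA'⟩ := hy
    obtain ⟨B, hB, hB'⟩ := hz
    refine ⟨A + B, fun j k => ?_, fun j k => ?_⟩
    · rw [Matrix.add_apply]
      exact (natDegree_add_le _ _).trans (max_le (hA j k) (hB j k))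
    · rw [Matrix.add_apply, map_add, hA', hB', map_add, Matrix.add_apply]
      push_cast
      ring
  | smul c y _ hy =>
    obtain ⟨A, hA, hA'⟩ := hy
    refine ⟨fun j k => C c * A j k, fun j k => (natDegree_C_mul_le _ _).trans (hA j k), fun j k => ?_⟩
    rw [map_mul, hA', aeval_C]
    have h1 : Algebra.leftMulMatrix b (c • y) j k = algebraMap K K⟮x⟯ c * Algebra.leftMulMatrix b y j k := by
      rw [Algebra.leftMulMatrix_eq_repr_mul, Algebra.leftMulMatrix_eq_repr_mul]
      have : c • y * b k = algebraMap K K⟮x⟯ c • (y * b k) := by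
        rw [algebraMap_smul, smul_mul_assoc]
      rw [this, map_smul]
      rfl
    rw [h1]
    have : ((algebraMap K K⟮x⟯ c * Algebra.leftMulMatrix b y j k : K⟮x⟯) : L) =
        algebraMap K L c * (Algebra.leftMulMatrix b y j k : L) := rfl
    rw [this]
    ring

/-- the quotients of elements of a fixed finite-dimensional space are of bounded degree -/
theorem quo_degree {K L : Type*} [Field K] [CharZero K] [Field L] [Algebra K L] (hL : IsFun K L) {m : ℕ}
    (e : Fin m → L) : ∃ D : ℕ, ∀ f : L, Quo K e f → Transcendental K f → Module.finrank K⟮f⟯ L ≤ D := by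
  classical
  obtain ⟨x, hx, hfin⟩ := hL
  set n := Module.finrank K⟮x⟯ L with hn
  let b := Module.finBasis K⟮x⟯ L
  obtain ⟨h, d, hh, hmat⟩ := qb_mat x b e
  refine ⟨n * d * n, ?_⟩
  rintro f ⟨a', b', ha', hb', hb0, hf⟩ hft
  obtain ⟨A, hA, hA'⟩ := hmat a' ha'
  obtain ⟨B, hB, hB'⟩ := hmat b' hb'
  have hbas : ∀ (c : L) (k : Fin n), ∑ j, (Algebra.leftMulMatrix b c j k : L) * b j = c * b k := by
    intro c k
    conv_rhs => rw [← b.sum_repr (c * b k)]
    refine Finset.sum_congr rfl fun j _ => ?_
    rw [Algebra.leftMulMatrix_eq_repr_mul]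
    rfl
  -- the matrix over `K(f)[X]`
  let fG : K⟮f⟯ := AdjoinSimple.gen K f
  have hfG : algebraMap K⟮f⟯ L fG = f := AdjoinSimple.algebraMap_gen K f
  let Mat : Matrix (Fin n) (Fin n) K⟮f⟯[X] := fun j k =>
    (A j k).map (algebraMap K K⟮f⟯) - C fG * (B j k).map (algebraMap K K⟮f⟯)
  have hdeg : Mat.det.natDegree ≤ n * d := by
    refine (qb_det_deg Mat (d := d) fun j k => ?_).trans (by rw [Fintype.card_fin])
    refine (natDegree_sub_le _ _).trans (max_le ?_ ?_)
    · exact natDegree_map_le.trans (hA j k)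
    · exact (natDegree_C_mul_le _ _).trans (natDegree_map_le.trans (hB j k))
  -- `x` is a root
  have hroot : aeval x Mat.det = 0 := by
    have h1 : aeval x Mat.det = ((aeval x : K⟮f⟯[X] →ₐ[K⟮f⟯] L) : K⟮f⟯[X] →+* L) Mat.det := rfl
    rw [h1, RingHom.map_det, ← Matrix.exists_vecMul_eq_zero_iff]
    refine ⟨fun j => b j, ?_, ?_⟩
    · intro h0
      have h2 := b.sum_repr (1 : L)
      rw [Finset.sum_eq_zero fun j _ => by rw [show b j = 0 from congrFun h0 j, smul_zero]] at h2
      exact zero_ne_one h2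
    · funext k
      have h2 : ∀ j, ((aeval x : K⟮f⟯[X] →ₐ[K⟮f⟯] L) : K⟮f⟯[X] →+* L).mapMatrix Mat j k =
          aeval x h * ((Algebra.leftMulMatrix b a' j k : L) - f * (Algebra.leftMulMatrix b b' j k : L)) := by
        intro j
        show aeval x ((A j k).map (algebraMap K K⟮f⟯) - C fG * (B j k).map (algebraMap K K⟮f⟯)) = _
        rw [map_sub, map_mul, aeval_map_algebraMap, aeval_map_algebraMap, aeval_C, hA', hB', hfG]
        ring
      show ∑ j, b j * ((aeval x : K⟮f⟯[X] →ₐ[K⟮f⟯] L) : K⟮f⟯[X] →+* L).mapMatrix Mat j k = 0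
      have h3 : ∑ j, b j * ((aeval x : K⟮f⟯[X] →ₐ[K⟮f⟯] L) : K⟮f⟯[X] →+* L).mapMatrix Mat j k =
          aeval x h * (∑ j, (Algebra.leftMulMatrix b a' j k : L) * b j -
            f * ∑ j, (Algebra.leftMulMatrix b b' j k : L) * b j) := by
        rw [Finset.mul_sum, ← Finset.sum_sub_distrib, Finset.mul_sum]
        refine Finset.sum_congr rfl fun j _ => ?_
        rw [h2]
        ring
      rw [h3, hbas, hbas, hf]
      field_simp
      ring
  -- it is nonzero
  have hne : Mat.det ≠ 0 := by
    intro h0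
    let MM : Matrix (Fin n) (Fin n) K[X][X] := fun j k => (A j k).map C - C X * (B j k).map C
    let θ : K[X] →+* K⟮f⟯ := ((aeval fG : K[X] →ₐ[K] K⟮f⟯) : K[X] →+* K⟮f⟯)
    have hθ : Function.Injective θ := by
      have h1 : Transcendental K fG := by
        intro h2
        apply hft
        rw [← hfG]
        exact h2.algebraMap
      exact transcendental_iff_injective.1 h1
    have h1 : Mat = (mapRingHom θ).mapMatrix MM := by
      ext1 j k
      show (A j k).map (algebraMap K K⟮f⟯) - C fG * (B j k).map (algebraMap K K⟮f⟯) =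
        ((A j k).map C - C X * (B j k).map C).map θ
      rw [Polynomial.map_sub, Polynomial.map_mul, Polynomial.map_map, Polynomial.map_map, map_C]
      have h2 : θ.comp C = algebraMap K K⟮f⟯ := by
        refine RingHom.ext fun c => ?_
        show aeval fG (C c) = _
        rw [aeval_C]
      have h3 : θ X = fG := aeval_X fG
      rw [h2, h3]
    rw [h1, ← RingHom.map_det] at h0
    have h2 : MM.det = 0 := by
      apply map_injective θ hθ
      rw [Polynomial.map_zero]
      exact h0
    have h3 : (mapRingHom (evalRingHom (0 : K))).mapMatrix MM = A := by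
      ext1 j k
      show ((A j k).map C - C X * (B j k).map C).map (evalRingHom (0 : K)) = A j k
      rw [Polynomial.map_sub, Polynomial.map_mul, Polynomial.map_map, Polynomial.map_map, map_C]
      have h4 : (evalRingHom (0 : K)).comp C = RingHom.id K := by
        ext c
        simp
      rw [h4, Polynomial.map_id, coe_evalRingHom, eval_X, map_zero, zero_mul, sub_zero]
    have h4 : A.det = 0 := by
      rw [← h3, ← RingHom.map_det, h2, map_zero]
    have h5 : ((aeval x : K[X] →ₐ[K] L) : K[X] →+* L).mapMatrix A =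
        aeval x h • (algebraMap K⟮x⟯ L).mapMatrix (Algebra.leftMulMatrix b a') := by
      ext1 j k
      exact hA' j k
    have h6 := congrArg ((aeval x : K[X] →ₐ[K] L) : K[X] →+* L) h4
    rw [RingHom.map_det, h5, Matrix.det_smul, map_zero, ← RingHom.map_det, mul_eq_zero] at h6
    have ha0 : a' ≠ 0 := by
      rintro rfl
      apply hft
      rw [hf, zero_div]
      exact isAlgebraic_zero
    rcases h6 with h6 | h6
    · exact pow_ne_zero _ hh h6
    · have h7 : (Algebra.leftMulMatrix b a').det = 0 := (map_eq_zero _).1 h6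
      have h8 : Algebra.leftMulMatrix b a' * Algebra.leftMulMatrix b a'⁻¹ = 1 := by
        rw [← map_mul, mul_inv_cancel₀ ha0, map_one]
      have h9 := congrArg Matrix.det h8
      rw [Matrix.det_mul, h7, zero_mul, Matrix.det_one] at h9
      exact zero_ne_one h9
  -- the degree of `x` over `K(f)`
  have hint : IsIntegral K⟮f⟯ x := by
    rw [← isAlgebraic_iff_isIntegral]
    exact ⟨Mat.det, hne, hroot⟩
  have hd1 : Module.finrank K⟮f⟯ (K⟮f⟯)⟮x⟯ ≤ n * d := by
    rw [IntermediateField.adjoin.finrank hint]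
    exact (natDegree_le_of_dvd (minpoly.dvd _ _ hroot) hne).trans hdeg
  have hd2 : Module.finrank (K⟮f⟯)⟮x⟯ L ≤ n := by
    have hmem : ∀ y : L, y ∈ K⟮x⟯ → y ∈ (K⟮f⟯)⟮x⟯ := by
      intro y hy
      induction hy using IntermediateField.adjoin_induction with
      | mem y hy =>
        rw [Set.mem_singleton_iff] at hy
        rw [hy]
        exact IntermediateField.mem_adjoin_simple_self _ _
      | algebraMap y =>
        have : algebraMap K L y = algebraMap K⟮f⟯ L (algebraMap K K⟮f⟯ y) := rfl
        rw [this]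
        exact IntermediateField.algebraMap_mem _ _
      | add a b _ _ hx hy => exact add_mem hx hy
      | mul a b _ _ hx hy => exact mul_mem hx hy
      | inv a _ hx => exact inv_mem hx
    have hspan : Submodule.span (K⟮f⟯)⟮x⟯ (Set.range b) = ⊤ := by
      rw [eq_top_iff]
      intro y _
      rw [← b.sum_repr y]
      refine Submodule.sum_mem _ fun j _ => ?_
      have h1 : (b.repr y j) • b j = (⟨(b.repr y j : L), hmem _ (b.repr y j).2⟩ : (K⟮f⟯)⟮x⟯) • b j := rfl
      rw [h1]
      exact Submodule.smul_mem _ _ (Submodule.subset_span ⟨j, rfl⟩)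
    have h2 := finrank_range_le_card (R := (K⟮f⟯)⟮x⟯) (b : Fin n → L)
    rw [Set.finrank, hspan, finrank_top, Fintype.card_fin] at h2
    exact h2
  rw [← Module.finrank_mul_finrank K⟮f⟯ (K⟮f⟯)⟮x⟯ L]
  exact Nat.mul_le_mul hd1 hd2

end Pool.Agent.Helper79.RG
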