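import Pool.Agent.Helper79.RG.T1

set_option autoImplicit false

/-!
# Module QD: the symbols of a quadratic extension
-/

set_option linter.unusedSectionVars false

namespace Pool.Agent.Helper79.RG

open scoped WithZero
open Pool.Agent.Helper79.FE
open Pool.Agent.TH826.MK (KQ symb unitPart)
open Pool.Agent.Helper537_Sym

theorem map_sy' {A L : Type*} [Field A] [Field L] (f : A →+* L) (u v : Aˣ) :
    KQ.map 2 f (sy u v) = sy (Units.map (f : A →* L) u) (Units.map (f : A →* L) v) := map_sy f u v

section

variable {F E : Type*} [Field F] [Field E] [Algebra F E]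

/-- `z + σ z` comes from `F` -/
theorem quad (u : E) (σ : E →+* E) (hσF : ∀ c : F, σ (algebraMap F E c) = algebraMap F E c) (τ ν : F)
    (hτ : u + σ u = algebraMap F E τ) (hν : u * σ u = algebraMap F E ν)
    (hE : ∀ e : E, ∃ p q : F, e = algebraMap F E p + algebraMap F E q * u) (z : KQ E 2) :
    ∃ y : KQ F 2, KQ.map 2 (algebraMap F E) y = z + KQ.map 2 σ z := by
  -- the good elements
  let G : Submodule ℚ (KQ E 2) :=
    (LinearMap.range (KQ.map 2 (algebraMap F E))).comap (LinearMap.id + KQ.map 2 σ)
  have hG : ∀ z, z ∈ G ↔ ∃ y : KQ F 2, KQ.map 2 (algebraMap F E) y = z + KQ.map 2 σ z := by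
    intro z
    rfl
  rw [← hG]
  let ι : Fˣ → Eˣ := Units.map ((algebraMap F E : F →+* E) : F →* E)
  have hι : ∀ c : Fˣ, (ι c : E) = algebraMap F E c := fun c => rfl
  -- one entry in `F`
  have h1 : ∀ (c : Fˣ) (e : Eˣ), sy (ι c) e ∈ G := by
    intro c e
    rw [hG]
    obtain ⟨p, q, hpq⟩ := hE e
    have hn : (e : E) * σ e = algebraMap F E (p ^ 2 + p * q * τ + q ^ 2 * ν) := by
      rw [hpq]
      simp only [map_add, map_mul, map_pow, hσF, ← hτ, ← hν]
      ring
    have hn0 : p ^ 2 + p * q * τ + q ^ 2 * ν ≠ 0 := by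
      intro h0
      rw [h0, map_zero] at hn
      exact mul_ne_zero e.ne_zero ((map_ne_zero σ).2 e.ne_zero) hn
    refine ⟨sy c (Units.mk0 _ hn0), ?_⟩
    rw [map_sy', map_sy']
    have h2 : Units.map (σ : E →* E) (ι c) = ι c := Units.ext (hσF c)
    rw [h2, ← sy_mul_right]
    congr 1
    exact Units.ext hn.symm
  have h2 : ∀ (e : Eˣ) (c : Fˣ), sy e (ι c) ∈ G := by
    intro e c
    rw [sy_swap]
    exact neg_mem (h1 c e)
  have key : ∀ f g : Eˣ, sy f g ∈ G := by
    intro f g
    obtain ⟨p1, q1, hf⟩ := hE f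
    obtain ⟨p2, q2, hg⟩ := hE g
    by_cases hq1 : q1 = 0
    · have hp1 : p1 ≠ 0 := by
        rintro rfl
        rw [hq1, map_zero, zero_mul, zero_add] at hf
        exact f.ne_zero hf
      have : f = ι (Units.mk0 p1 hp1) := Units.ext (by rw [hf, hq1, map_zero, zero_mul, add_zero]; rfl)
      rw [this]
      exact h1 _ _
    by_cases hq2 : q2 = 0
    · have hp2 : p2 ≠ 0 := by
        rintro rfl
        rw [hq2, map_zero, zero_mul, zero_add] at hg
        exact g.ne_zero hg
      have : g = ι (Units.mk0 p2 hp2) := Units.ext (by rw [hg, hq2, map_zero, zero_mul, add_zero]; rfl)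
      rw [this]
      exact h2 _ _
    have hrel : algebraMap F E q2 * f - algebraMap F E q1 * g = algebraMap F E (p1 * q2 - p2 * q1) := by
      rw [hf, hg, map_sub, map_mul, map_mul]
      ring
    by_cases hα : p1 * q2 - p2 * q1 = 0
    · -- proportional
      rw [hα, map_zero, sub_eq_zero] at hrel
      have : f = ι (Units.mk0 q1 hq1 * (Units.mk0 q2 hq2)⁻¹) * g := by
        refine Units.ext ?_
        have hq2' : algebraMap F E q2 ≠ 0 := (map_ne_zero _).2 hq2
        rw [Units.val_mul, hι, Units.val_mul, Units.val_inv_eq_inv_val, Units.val_mk0, Units.val_mk0, map_mul,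
          map_inv₀]
        field_simp
        rw [mul_comm, hrel]
      rw [this, sy_mul_left, sy_self, add_zero]
      exact h1 _ _
    · set α := p1 * q2 - p2 * q1 with hαdef
      let c : Fˣ := Units.mk0 α hα * (Units.mk0 q2 hq2)⁻¹
      let e : Fˣ := -(Units.mk0 α hα * (Units.mk0 q1 hq1)⁻¹)
      let f' : Eˣ := (ι c)⁻¹ * f
      let g' : Eˣ := (ι e)⁻¹ * g
      have hf' : f = ι c * f' := by
        show f = ι c * ((ι c)⁻¹ * f)
        rw [mul_inv_cancel_left]
      have hg' : g = ι e * g' := by
        show g = ι e * ((ι e)⁻¹ * g)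
        rw [mul_inv_cancel_left]
      have hst : sy f' g' = 0 := by
        refine sy_steinberg ?_
        have hq1' : algebraMap F E q1 ≠ 0 := (map_ne_zero _).2 hq1
        have hq2' : algebraMap F E q2 ≠ 0 := (map_ne_zero _).2 hq2
        have hα' : algebraMap F E α ≠ 0 := (map_ne_zero _).2 hα
        have e1 : (f' : E) = (algebraMap F E α / algebraMap F E q2)⁻¹ * f := by
          show (((ι c)⁻¹ * f : Eˣ) : E) = _
          rw [Units.val_mul, Units.val_inv_eq_inv_val, hι, Units.val_mul, Units.val_inv_eq_inv_val, Units.val_mk0,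
            Units.val_mk0, map_mul, map_inv₀, div_eq_mul_inv]
        have e2 : (g' : E) = (-(algebraMap F E α / algebraMap F E q1))⁻¹ * g := by
          show (((ι e)⁻¹ * g : Eˣ) : E) = _
          rw [Units.val_mul, Units.val_inv_eq_inv_val, hι, Units.val_neg, Units.val_mul, Units.val_inv_eq_inv_val,
            Units.val_mk0, Units.val_mk0, map_neg, map_mul, map_inv₀, div_eq_mul_inv]
        rw [e1, e2]
        have : (algebraMap F E α / algebraMap F E q2)⁻¹ * f + (-(algebraMap F E α / algebraMap F E q1))⁻¹ * g =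
            (algebraMap F E q2 * f - algebraMap F E q1 * g) / algebraMap F E α := by
          rw [inv_neg, inv_div, inv_div]
          ring
        rw [this, hrel, div_self hα']
      rw [hf', sy_mul_left]
      refine add_mem (h1 _ _) ?_
      rw [hg', sy_mul_right, hst, add_zero]
      exact h2 _ _
  -- all elements
  have hspan : ∀ z : KQ E 2, z ∈ Submodule.span ℚ (Set.range fun p : Eˣ × Eˣ => sy p.1 p.2) := by
    intro z
    obtain ⟨w, rfl⟩ := Submodule.Quotient.mk_surjective _ z
    change KQ.mkQ w ∈ _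
    induction w using Finsupp.induction_linear with
    | zero => rw [map_zero]; exact zero_mem _
    | add f g hf hg => rw [map_add]; exact add_mem hf hg
    | single a r =>
      have : (Finsupp.single a r : (Fin 2 → Eˣ) →₀ ℚ) = r • Finsupp.single a 1 := by
        rw [Finsupp.smul_single, smul_eq_mul, mul_one]
      rw [this, map_smul]
      refine Submodule.smul_mem _ _ (Submodule.subset_span ⟨(a 0, a 1), ?_⟩)
      show sy (a 0) (a 1) = symb a
      unfold sy
      rw [← eq_cons a]
  have hle : Submodule.span ℚ (Set.range fun p : Eˣ × Eˣ => sy p.1 p.2) ≤ G := by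
    rw [Submodule.span_le]
    rintro _ ⟨p, rfl⟩
    exact key p.1 p.2
  exact hle (hspan z)

end

/-- `K_2` is spanned by the symbols -/
theorem sy_span {E : Type*} [Field E] (z : KQ E 2) :
    z ∈ Submodule.span ℚ (Set.range fun p : Eˣ × Eˣ => sy p.1 p.2) := by
  obtain ⟨w, rfl⟩ := Submodule.Quotient.mk_surjective _ z
  change KQ.mkQ w ∈ _
  induction w using Finsupp.induction_linear with
  | zero => rw [map_zero]; exact zero_mem _
  | add f g hf hg => rw [map_add]; exact add_mem hf hg
  | single a r =>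
    have : (Finsupp.single a r : (Fin 2 → Eˣ) →₀ ℚ) = r • Finsupp.single a 1 := by
      rw [Finsupp.smul_single, smul_eq_mul, mul_one]
    rw [this, map_smul]
    refine Submodule.smul_mem _ _ (Submodule.subset_span ⟨(a 0, a 1), ?_⟩)
    show sy (a 0) (a 1) = symb a
    unfold sy
    rw [← eq_cons a]

theorem kmap_map {A B C : Type*} [Field A] [Field B] [Field C] (f : A →+* B) (g : B →+* C) (h : A →+* C)
    (hh : ∀ x, g (f x) = h x) (z : KQ A 2) : KQ.map 2 g (KQ.map 2 f z) = KQ.map 2 h z := by
  have hs := sy_span z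
  induction hs using Submodule.span_induction with
  | mem x hx =>
    obtain ⟨p, rfl⟩ := hx
    show KQ.map 2 g (KQ.map 2 f (sy p.1 p.2)) = KQ.map 2 h (sy p.1 p.2)
    rw [map_sy', map_sy', map_sy']
    congr 1
    · exact Units.ext (hh _)
    · exact Units.ext (hh _)
  | zero => rw [map_zero, map_zero, map_zero]
  | add x y _ _ h h' => rw [map_add, map_add, map_add, h, h']
  | smul r x _ h => rw [map_smul, map_smul, map_smul, h]

theorem kmap_unit {A L : Type*} [Field A] [Field L] (f : A →+* L) (v : Valuation L ℤᵐ⁰)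
    (hv : ∀ c : A, c ≠ 0 → v (f c) = 1) (z : KQ A 2) : KQ.map 2 f z ∈ unitPart v 2 := by
  have hs := sy_span z
  induction hs using Submodule.span_induction with
  | mem x hx =>
    obtain ⟨p, rfl⟩ := hx
    show KQ.map 2 f (sy p.1 p.2) ∈ _
    rw [map_sy']
    exact sy_unit v (hv _ p.1.ne_zero) (hv _ p.2.ne_zero)
  | zero => rw [map_zero]; exact zero_mem _
  | add x y _ _ h h' => rw [map_add]; exact add_mem h h'
  | smul r x _ h => rw [map_smul]; exact Submodule.smul_mem _ _ h

end Pool.Agent.Helper79.RG
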