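import Pool.Agent.Helper79.RG.T1
import Pool.Agent.Helper79.RG.G1

set_option autoImplicit false

/-!
# Module RED: a basis of the integral closure of `k[x]` which is reduced at infinity
-/

set_option linter.unusedSectionVars false

namespace Pool.Agent.Helper79.RG

open scoped WithZero IntermediateField.algebraAdjoinAdjoin
open IntermediateField IsDedekindDomain
open Pool.Agent.Helper79.FE

section red

variable {k M : Type*} [Field k] [IsAlgClosed k] [CharZero k] [Field M] [Algebra k M]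

/-- the value of a polynomial at a pole -/
theorem red_poly {w : Valuation M ℤᵐ⁰} (hw : w ∈ VN k M) {x : M} (hx : 1 < w x) {p : Polynomial k}
    (hp : p ≠ 0) : w (Polynomial.aeval x p) = w x ^ p.natDegree := by
  have h1 : Polynomial.aeval x p = (∑ i ∈ Finset.range p.natDegree, algebraMap k M (p.coeff i) * x ^ i) +
      algebraMap k M p.leadingCoeff * x ^ p.natDegree := by
    rw [Polynomial.aeval_eq_sum_range, Finset.sum_range_succ]
    simp only [Algebra.smul_def]
    rfl
  have hlc : w (algebraMap k M p.leadingCoeff * x ^ p.natDegree) = w x ^ p.natDegree := by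
    rw [map_mul, hw.2 _ (Polynomial.leadingCoeff_ne_zero.2 hp), one_mul, map_pow]
  have hx0 : w x ≠ 0 := (zero_lt_one.trans hx).ne'
  have h2 : w (∑ i ∈ Finset.range p.natDegree, algebraMap k M (p.coeff i) * x ^ i) <
      w (algebraMap k M p.leadingCoeff * x ^ p.natDegree) := by
    rw [hlc]
    refine Valuation.map_sum_lt w (pow_ne_zero _ hx0) fun i hi => ?_
    rw [map_mul, map_pow]
    refine (mul_le_of_le_one_left' (val_k hw _)).trans_lt ?_
    exact pow_lt_pow_right₀ hx (Finset.mem_range.1 hi)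
  rw [h1, Valuation.map_add_eq_of_lt_right w h2, hlc]

/-- the degree of an element of `k(x)` -/
theorem red_deg {x : M} (c : k⟮x⟯) (hc : c ≠ 0) :
    ∃ d : ℤ, ∀ w ∈ VN k M, 1 < w x → w (c : M) = w x ^ d := by
  obtain ⟨r, s, hrs⟩ := (IntermediateField.mem_adjoin_simple_iff k (c : M)).1 c.2
  have hc0 : (c : M) ≠ 0 := fun h => hc (Subtype.ext h)
  have hr : r ≠ 0 := by
    rintro rfl
    rw [map_zero, zero_div] at hrs
    exact hc0 hrs
  have hs : s ≠ 0 := by
    rintro rfl
    rw [map_zero, div_zero] at hrs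
    exact hc0 hrs
  refine ⟨(r.natDegree : ℤ) - s.natDegree, fun w hw hx => ?_⟩
  have hx0 : w x ≠ 0 := (zero_lt_one.trans hx).ne'
  rw [hrs, map_div₀, red_poly hw hx hr, red_poly hw hx hs, zpow_sub₀ hx0, zpow_natCast, zpow_natCast]

theorem red_adj {w : Valuation M ℤᵐ⁰} (hw : w ∈ VN k M) {x : M} (hx : w x ≤ 1)
    (a : Algebra.adjoin k {x}) : w (a : M) ≤ 1 := by
  obtain ⟨b, hb⟩ := a
  change w b ≤ 1
  induction hb using Algebra.adjoin_induction with
  | mem x hx' =>
    rw [Set.mem_singleton_iff] at hx'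
    rw [hx']
    exact hx
  | algebraMap r => exact val_k hw r
  | add x y _ _ hx hy => exact (w.map_add x y).trans (max_le hx hy)
  | mul x y _ _ hx hy => rw [map_mul]; exact mul_le_one' hx hy

theorem red_int {x : M} (hx : Transcendental k x) [FiniteDimensional k⟮x⟯ M] (y : M) :
    IsIntegral (Algebra.adjoin k {x}) y ↔ ∀ w ∈ VN k M, w x ≤ 1 → w y ≤ 1 := by
  constructor
  · intro h w hw hwx
    exact val_int (B := Algebra.adjoin k {x}) w (fun b => red_adj hw hwx b) _ h
  · intro h
    obtain ⟨hded, hfrac⟩ := ded_closure x hx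
    have hB1 : ∀ P : HeightOneSpectrum (integralClosure (Algebra.adjoin k {x}) M),
        ∀ c : integralClosure (Algebra.adjoin k {x}) M, P.valuation M (c : M) ≤ 1 := fun P c =>
      P.valuation_le_one (K := M) c
    have hVN : ∀ P : HeightOneSpectrum (integralClosure (Algebra.adjoin k {x}) M),
        P.valuation M ∈ VN k M ∧ P.valuation M x ≤ 1 := by
      intro P
      have h1 : ∀ q : k, P.valuation M (algebraMap k M q) ≤ 1 := by
        intro q
        exact hB1 P (algebraMap (Algebra.adjoin k {x}) _ (algebraMap k _ q))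
      refine ⟨⟨P.valuation_surjective M, ?_⟩, ?_⟩
      · intro q hq
        refine le_antisymm (h1 q) ?_
        have h2 := h1 q⁻¹
        have h3 : P.valuation M (algebraMap k M q) * P.valuation M (algebraMap k M q⁻¹) = 1 := by
          rw [← map_mul, ← map_mul, mul_inv_cancel₀ hq, map_one, map_one]
        calc (1 : ℤᵐ⁰) = P.valuation M (algebraMap k M q) * P.valuation M (algebraMap k M q⁻¹) :=
              h3.symm
          _ ≤ P.valuation M (algebraMap k M q) * 1 := mul_le_mul_right h2 _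
          _ = _ := mul_one _
      · exact hB1 P (algebraMap (Algebra.adjoin k {x}) _
          ⟨x, Algebra.self_mem_adjoin_singleton k x⟩)
    obtain ⟨c, hc⟩ := HeightOneSpectrum.mem_integers_of_valuation_le_one M y
      (R := integralClosure (Algebra.adjoin k {x}) M) (fun P => h _ (hVN P).1 (hVN P).2)
    rw [← hc]
    exact c.2

/-- spanning families -/
def Gd (k : Type*) {M : Type*} [Field k] [Field M] [Algebra k M] (x : M) {n : ℕ} (b : Fin n → M) : Prop :=
  (∀ i, ∀ w ∈ VN k M, w x ≤ 1 → w (b i) ≤ 1) ∧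
    ∀ y : M, (∀ w ∈ VN k M, w x ≤ 1 → w y ≤ 1) → ∃ p : Fin n → Polynomial k,
      y = ∑ i, Polynomial.aeval x (p i) * b i

theorem red_exists {x : M} (hx : Transcendental k x) [FiniteDimensional k⟮x⟯ M] :
    ∃ b : Fin (Module.finrank k⟮x⟯ M) → M, Gd k x b := by
  obtain ⟨hded, hfrac⟩ := ded_closure x hx
  have hpid := pid_adjoin x hx
  have hsep : Algebra.IsSeparable k⟮x⟯ M := by
    have : CharZero k⟮x⟯ := charZero_of_injective_algebraMap (algebraMap k k⟮x⟯).injective
    infer_instance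
  have hBf : Module.Finite (Algebra.adjoin k {x}) (integralClosure (Algebra.adjoin k {x}) M) :=
    IsIntegralClosure.finite (Algebra.adjoin k {x}) k⟮x⟯ M (integralClosure (Algebra.adjoin k {x}) M)
  have hBfree : Module.Free (Algebra.adjoin k {x}) (integralClosure (Algebra.adjoin k {x}) M) :=
    IsIntegralClosure.module_free (Algebra.adjoin k {x}) k⟮x⟯ M (integralClosure (Algebra.adjoin k {x}) M)
  have hr : Module.finrank (Algebra.adjoin k {x}) (integralClosure (Algebra.adjoin k {x}) M) =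
      Module.finrank k⟮x⟯ M :=
    IsIntegralClosure.rank (Algebra.adjoin k {x}) k⟮x⟯ M (integralClosure (Algebra.adjoin k {x}) M)
  let bB := Module.finBasisOfFinrankEq (Algebra.adjoin k {x})
    (integralClosure (Algebra.adjoin k {x}) M) hr
  refine ⟨fun i => (bB i : M), fun i => ?_, fun y hy => ?_⟩
  · exact (red_int hx _).1 (bB i).2
  · have hyB := (red_int hx y).2 hy
    have h1 := bB.sum_repr ⟨y, hyB⟩
    have h2 : ∀ i, ∃ p : Polynomial k, Polynomial.aeval x p = ((bB.repr ⟨y, hyB⟩ i :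
        Algebra.adjoin k {x}) : M) := by
      intro i
      obtain ⟨p, hp⟩ := (Algebra.adjoin_singleton_eq_range_aeval k x).le (bB.repr ⟨y, hyB⟩ i).2
      exact ⟨p, hp⟩
    choose p hp using h2
    refine ⟨p, ?_⟩
    have h3 := congrArg (fun z : integralClosure (Algebra.adjoin k {x}) M => (z : M)) h1
    simp only at h3
    rw [← h3]
    rw [AddSubmonoidClass.coe_finsetSum]
    refine Finset.sum_congr rfl fun i _ => ?_
    rw [hp]
    rfl

theorem red_span {x : M} (hx : Transcendental k x) [FiniteDimensional k⟮x⟯ M] {n : ℕ} {b : Fin n → M}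
    (hb : Gd k x b) : (⊤ : Submodule k⟮x⟯ M) ≤ Submodule.span k⟮x⟯ (Set.range b) := by
  intro m _
  obtain ⟨⟨a, ha⟩, hint⟩ := IsIntegral.exists_multiple_integral_of_isLocalization
    (nonZeroDivisors (Algebra.adjoin k {x})) (Rₘ := k⟮x⟯) m (Algebra.IsIntegral.isIntegral m)
  have ha0 : (a : M) ≠ 0 := by
    intro h
    exact nonZeroDivisors.ne_zero ha (Subtype.ext h)
  have hint' : IsIntegral (Algebra.adjoin k {x}) ((a : M) * m) := hint
  obtain ⟨p, hp⟩ := hb.2 _ ((red_int hx _).1 hint')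
  have hmem : ∀ q : Polynomial k, Polynomial.aeval x q ∈ k⟮x⟯ := fun q =>
    algebra_adjoin_le_adjoin k {x} (Polynomial.aeval_mem_adjoin_singleton k x)
  have haF : (a : M) ∈ k⟮x⟯ := algebra_adjoin_le_adjoin k {x} a.2
  have h1 : m = ∑ i, ((⟨(a : M)⁻¹ * Polynomial.aeval x (p i), mul_mem (inv_mem haF) (hmem _)⟩ : k⟮x⟯) •
      b i) := by
    have h2 : m = (a : M)⁻¹ * ((a : M) * m) := by rw [inv_mul_cancel_left₀ ha0]
    rw [h2, hp, Finset.mul_sum]
    refine Finset.sum_congr rfl fun i _ => ?_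
    rw [IntermediateField.smul_def]
    simp only [smul_eq_mul]
    ring
  rw [h1]
  exact Submodule.sum_mem _ fun i _ => Submodule.smul_mem _ _ (Submodule.subset_span ⟨i, rfl⟩)

/-- replacing one member -/
theorem red_replace {x : M} {n : ℕ} {b : Fin n → M} (hb : Gd k x b) {γ : Fin n → k} {j : Fin n}
    (hj : γ j ≠ 0) (e : Fin n → ℕ) (hej : e j = 0) :
    Gd k x (Function.update b j (∑ i, algebraMap k M (γ i) * x ^ e i * b i)) := by
  classical
  refine ⟨fun i w hw hwx => ?_, fun y hy => ?_⟩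
  · by_cases hij : i = j
    · subst hij
      rw [Function.update_self]
      refine Valuation.map_sum_le w fun i _ => ?_
      rw [map_mul, map_mul, map_pow]
      exact mul_le_one' (mul_le_one' (val_k hw _) (pow_le_one₀ zero_le hwx)) (hb.1 i w hw hwx)
    · rw [Function.update_of_ne hij]
      exact hb.1 i w hw hwx
  · obtain ⟨p, hp⟩ := hb.2 y hy
    have hγ : algebraMap k M (γ j) ≠ 0 := (map_ne_zero_iff _ (algebraMap k M).injective).2 hj
    refine ⟨fun i => if i = j then Polynomial.C (γ j)⁻¹ * p j else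
      p i - Polynomial.C (γ j)⁻¹ * p j * (Polynomial.C (γ i) * Polynomial.X ^ e i), ?_⟩
    rw [← Finset.add_sum_erase _ _ (Finset.mem_univ j)]
    beta_reduce
    rw [if_pos rfl, Function.update_self]
    have h1 : ∀ i ∈ Finset.univ.erase j, Polynomial.aeval x (if i = j then
        Polynomial.C (γ j)⁻¹ * p j else
        p i - Polynomial.C (γ j)⁻¹ * p j * (Polynomial.C (γ i) * Polynomial.X ^ e i)) *
        Function.update b j (∑ i, algebraMap k M (γ i) * x ^ e i * b i) i =
        Polynomial.aeval x (p i) * b i - (algebraMap k M (γ j))⁻¹ * Polynomial.aeval x (p j) *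
          (algebraMap k M (γ i) * x ^ e i * b i) := by
      intro i hi
      have hij : i ≠ j := (Finset.mem_erase.1 hi).1
      rw [if_neg hij, Function.update_of_ne hij]
      simp only [map_sub, map_mul, map_pow, Polynomial.aeval_C, Polynomial.aeval_X, map_inv₀]
      ring
    rw [Finset.sum_congr rfl h1, Finset.sum_sub_distrib, ← Finset.mul_sum]
    rw [hp, ← Finset.add_sum_erase _ _ (Finset.mem_univ j)]
    rw [← Finset.add_sum_erase Finset.univ (fun i => algebraMap k M (γ i) * x ^ e i * b i)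
      (Finset.mem_univ j)]
    simp only [map_mul, Polynomial.aeval_C, map_inv₀, hej, pow_zero, mul_one]
    field_simp
    ring

/-- a transcendental element has a pole -/
theorem red_pole {x : M} (hx : Transcendental k x) [FiniteDimensional k⟮x⟯ M] : ∃ w ∈ VN k M, 1 < w x := by
  have hxi : Transcendental k x⁻¹ := fun h => hx (by simpa using h.inv)
  have := fin_adj x x⁻¹ hx hxi
  obtain ⟨w, hw, hlt⟩ := exists_zero (N := k) x⁻¹ hxi
  have hx0 : x ≠ 0 := by
    rintro rfl
    exact hx isAlgebraic_zero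
  refine ⟨w, hw, ?_⟩
  rw [map_inv₀] at hlt
  exact (inv_lt_one₀ (zero_lt_iff.2 ((Valuation.ne_zero_iff w).2 hx0))).1 hlt

theorem red_poles_fin {x : M} (hx : Transcendental k x) [FiniteDimensional k⟮x⟯ M] :
    {w ∈ VN k M | 1 < w x}.Finite := by
  have hxi : Transcendental k x⁻¹ := fun h => hx (by simpa using h.inv)
  have := fin_adj x x⁻¹ hx hxi
  refine (finite_zeros (N := k) x⁻¹ hxi).subset ?_
  rintro w ⟨hw, hwx⟩
  refine ⟨hw, ?_⟩
  rw [map_inv₀]
  exact (inv_lt_one₀ (zero_lt_one.trans hwx)).2 hwx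

theorem red_bound {x : M} (hx : Transcendental k x) [FiniteDimensional k⟮x⟯ M] (b : M) :
    ∃ a : ℕ, ∀ w ∈ VN k M, 1 < w x → w b ≤ w x ^ a := by
  classical
  have hfin := red_poles_fin (k := k) hx
  have h1 : ∀ w : Valuation M ℤᵐ⁰, ∃ a : ℕ, 1 < w x → w b ≤ w x ^ a := by
    intro w
    by_cases hw : 1 < w x
    · by_cases hb : w b = 0
      · exact ⟨0, fun _ => by rw [hb]; exact zero_le⟩
      · have hx0 : w x ≠ 0 := (zero_lt_one.trans hw).ne'
        obtain ⟨r, hr⟩ : ∃ r : ℤ, w b = WithZero.exp r := ⟨_, (WithZero.exp_log hb).symm⟩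
        obtain ⟨s, hs⟩ : ∃ s : ℤ, w x = WithZero.exp s := ⟨_, (WithZero.exp_log hx0).symm⟩
        have hs1 : 1 ≤ s := by
          rw [hs, ← WithZero.exp_zero, WithZero.exp_lt_exp] at hw
          omega
        refine ⟨r.toNat, fun _ => ?_⟩
        rw [hr, hs, ← WithZero.exp_nsmul, WithZero.exp_le_exp, nsmul_eq_mul]
        calc r ≤ (r.toNat : ℤ) := Int.self_le_toNat r
          _ = (r.toNat : ℤ) * 1 := (mul_one _).symm
          _ ≤ (r.toNat : ℤ) * s := mul_le_mul_of_nonneg_left hs1 (by positivity)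
    · exact ⟨0, fun h => absurd h hw⟩
  choose A hA using h1
  refine ⟨hfin.toFinset.sup A, fun w hw hwx => (hA w hwx).trans ?_⟩
  exact pow_le_pow_right₀ hwx.le (Finset.le_sup (f := A) ((Set.Finite.mem_toFinset _).2 ⟨hw, hwx⟩))

end red

/-- a basis `b` of the integral closure of `k[x]` such that the `x ^ (- a i) * b i` are a basis of the ring of the
functions regular at the poles of `x` over the local ring of `k(x)` at infinity -/
theorem reduced_basis {k M : Type*} [Field k] [IsAlgClosed k] [CharZero k] [Field M] [Algebra k M] (hM : IsFun k M)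
    {x : M} (hx : Transcendental k x) :
    ∃ (n : ℕ) (b : Module.Basis (Fin n) k⟮x⟯ M) (a : Fin n → ℕ),
      (∀ i, ∀ w ∈ VN k M, w x ≤ 1 → w (b i) ≤ 1) ∧
      (∀ i, ∀ w ∈ VN k M, 1 < w x → w (b i) ≤ w x ^ a i) ∧
      (∀ y : M, (∀ w ∈ VN k M, w x ≤ 1 → w y ≤ 1) → ∀ i, ∃ p : Polynomial k,
        ((b.repr y i : k⟮x⟯) : M) = Polynomial.aeval x p) ∧
      (∀ y : M, (∀ w ∈ VN k M, 1 < w x → w y ≤ 1) → ∀ i, ∀ w ∈ VN k M, 1 < w x →
        w (((b.repr y i : k⟮x⟯) : M) * x ^ a i) ≤ 1) ∧
      ∃ i, a i = 0 := by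
  classical
  have hfin : FiniteDimensional k⟮x⟯ M := hM.alg hx
  have hx00 : x ≠ 0 := by
    rintro rfl
    exact hx isAlgebraic_zero
  obtain ⟨n, hn⟩ : ∃ n, n = Module.finrank k⟮x⟯ M := ⟨_, rfl⟩
  have hQ : ∃ s, ∃ (b : Fin n → M) (a : Fin n → ℕ), Gd k x b ∧
      (∀ i, ∀ w ∈ VN k M, 1 < w x → w (b i) ≤ w x ^ a i) ∧ ∑ i, a i = s := by
    subst hn
    obtain ⟨b, hb⟩ := red_exists (k := k) hx
    choose a ha using fun i => red_bound (k := k) hx (b i)
    exact ⟨_, b, a, hb, ha, rfl⟩
  obtain ⟨b, a, hb, ha, hs⟩ := Nat.find_spec hQ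
  have hmin : ∀ (b' : Fin n → M) (a' : Fin n → ℕ), Gd k x b' →
      (∀ i, ∀ w ∈ VN k M, 1 < w x → w (b' i) ≤ w x ^ a' i) → ∑ i, a i ≤ ∑ i, a' i := by
    intro b' a' h1 h2
    rw [hs]
    exact Nat.find_min' hQ ⟨b', a', h1, h2, rfl⟩
  -- the basis
  obtain ⟨bs, hbs⟩ : ∃ bs : Module.Basis (Fin n) k⟮x⟯ M, ∀ i, bs i = b i :=
    ⟨basisOfTopLeSpanOfCardEqFinrank b (red_span hx hb) (by rw [Fintype.card_fin]; exact hn),
      fun i => by rw [coe_basisOfTopLeSpanOfCardEqFinrank]⟩
  have hrep : ∀ y : M, ∑ i, ((bs.repr y i : k⟮x⟯) : M) * b i = y := by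
    intro y
    conv_rhs => rw [← bs.sum_repr y]
    refine Finset.sum_congr rfl fun i _ => ?_
    rw [IntermediateField.smul_def, hbs, smul_eq_mul]
  have hmem : ∀ q : Polynomial k, Polynomial.aeval x q ∈ k⟮x⟯ := fun q =>
    algebra_adjoin_le_adjoin k {x} (Polynomial.aeval_mem_adjoin_singleton k x)
  have hpol : ∀ y : M, (∀ w ∈ VN k M, w x ≤ 1 → w y ≤ 1) → ∀ i, ∃ p : Polynomial k,
        ((bs.repr y i : k⟮x⟯) : M) = Polynomial.aeval x p := by
    intro y hy i
    obtain ⟨p, hp⟩ := hb.2 y hy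
    have h1 : y = ∑ i, (⟨Polynomial.aeval x (p i), hmem _⟩ : k⟮x⟯) • bs i := by
      rw [hp]
      refine Finset.sum_congr rfl fun i _ => ?_
      rw [IntermediateField.smul_def, hbs, smul_eq_mul]
    refine ⟨p i, ?_⟩
    have h2 : bs.repr y i = (⟨Polynomial.aeval x (p i), hmem _⟩ : k⟮x⟯) := by
      conv_lhs => rw [h1]
      rw [Module.Basis.repr_sum_self]
    rw [h2]
  obtain ⟨w1, hw1, hw1x⟩ := red_pole (k := k) hx
  have hred : ∀ y : M, (∀ w ∈ VN k M, 1 < w x → w y ≤ 1) → ∀ i, ∀ w ∈ VN k M, 1 < w x →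
        w (((bs.repr y i : k⟮x⟯) : M) * x ^ a i) ≤ 1 := by
    intro y hy i0 w0 hw0 hw0x
    by_contra hcon
    rw [not_le] at hcon
    let X : k⟮x⟯ := AdjoinSimple.gen k x
    have hX : (X : M) = x := AdjoinSimple.coe_gen k x
    let c : Fin n → k⟮x⟯ := fun i => bs.repr y i * X ^ a i
    have hcM : ∀ i, ((c i : k⟮x⟯) : M) = ((bs.repr y i : k⟮x⟯) : M) * x ^ a i := by
      intro i
      show (((bs.repr y i * X ^ a i : k⟮x⟯)) : M) = _
      push_cast
      rw [hX]
    have hD : ∀ i, ∃ d : ℤ, c i ≠ 0 → ∀ w ∈ VN k M, 1 < w x → w (c i : M) = w x ^ d := by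
      intro i
      by_cases h : c i = 0
      · exact ⟨0, fun h' => absurd h h'⟩
      · obtain ⟨d, hd⟩ := red_deg (c i) h
        exact ⟨d, fun _ => hd⟩
    choose D hD using hD
    rw [← hcM] at hcon
    have hc0 : c i0 ≠ 0 := by
      intro h
      rw [h, ZeroMemClass.coe_zero, map_zero] at hcon
      exact absurd hcon (not_lt.2 zero_le_one)
    obtain ⟨i1, hi1, hmax⟩ := Finset.exists_max_image (Finset.univ.filter fun i => c i ≠ 0) D
      ⟨i0, Finset.mem_filter.2 ⟨Finset.mem_univ _, hc0⟩⟩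
    have hi1' : c i1 ≠ 0 := (Finset.mem_filter.1 hi1).2
    obtain ⟨m, hmdef⟩ : ∃ m, m = D i1 := ⟨_, rfl⟩
    have hm : 1 ≤ m := by
      have h1 := hmax i0 (Finset.mem_filter.2 ⟨Finset.mem_univ _, hc0⟩)
      rw [hD i0 hc0 w0 hw0 hw0x, ← zpow_zero (w0 x)] at hcon
      have h2 := (zpow_lt_zpow_iff_right₀ hw0x).1 hcon
      omega
    let e : Fin n → k⟮x⟯ := fun i => c i * X ^ (-m)
    have heM : ∀ i, ((e i : k⟮x⟯) : M) = ((c i : k⟮x⟯) : M) * x ^ (-m) := by
      intro i
      have h1 : ((X ^ (-m) : k⟮x⟯) : M) = (X : M) ^ (-m) := map_zpow₀ (algebraMap k⟮x⟯ M) X (-m)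
      show ((c i : k⟮x⟯) : M) * ((X ^ (-m) : k⟮x⟯) : M) = _
      rw [h1, hX]
    have he : ∀ i, ∀ w ∈ VN k M, 1 < w x → w ((e i : k⟮x⟯) : M) ≤ 1 := by
      intro i w hw hwx
      rw [heM, map_mul, map_zpow₀]
      by_cases hci : c i = 0
      · rw [hci, ZeroMemClass.coe_zero, map_zero, zero_mul]; exact zero_le_one
      · have hx0 : w x ≠ 0 := (zero_lt_one.trans hwx).ne'
        rw [hD i hci w hw hwx, ← zpow_add₀ hx0, ← zpow_zero (w x)]
        apply zpow_le_zpow_right₀ hwx.le
        have := hmax i (Finset.mem_filter.2 ⟨Finset.mem_univ _, hci⟩)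
        omega
    have he1 : ∀ w ∈ VN k M, 1 < w x → w ((e i1 : k⟮x⟯) : M) = 1 := by
      intro w hw hwx
      have hx0 : w x ≠ 0 := (zero_lt_one.trans hwx).ne'
      rw [heM, map_mul, map_zpow₀, hD i1 hi1' w hw hwx, ← zpow_add₀ hx0, ← hmdef, add_neg_cancel, zpow_zero]
    choose γ hγ using fun i => exists_res hM hw1 (he i w1 hw1 hw1x)
    have hγ2 : ∀ i, ∀ w ∈ VN k M, 1 < w x → w (((e i : k⟮x⟯) : M) - algebraMap k M (γ i)) ≤ (w x)⁻¹ := by
      intro i w hw hwx
      have hcoe : ((e i - algebraMap k k⟮x⟯ (γ i) : k⟮x⟯) : M) = ((e i : k⟮x⟯) : M) - algebraMap k M (γ i) := rfl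
      by_cases h : e i - algebraMap k k⟮x⟯ (γ i) = 0
      · rw [← hcoe, h, ZeroMemClass.coe_zero, map_zero]; exact zero_le
      · obtain ⟨d, hd⟩ := red_deg _ h
        have h1 := hγ i
        rw [← hcoe, hd w1 hw1 hw1x, ← zpow_zero (w1 x)] at h1
        have h2 := (zpow_lt_zpow_iff_right₀ hw1x).1 h1
        rw [← hcoe, hd w hw hwx, ← zpow_neg_one]
        exact zpow_le_zpow_right₀ hwx.le (by omega)
    have hγ1 : γ i1 ≠ 0 := by
      intro h
      have h1 := hγ i1
      rw [h, map_zero, sub_zero, he1 w1 hw1 hw1x] at h1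
      exact lt_irrefl _ h1
    obtain ⟨z, hz⟩ : ∃ z, z = ∑ i, algebraMap k M (γ i) * ((x ^ a i)⁻¹ * b i) := ⟨_, rfl⟩
    have hxb : ∀ i, ∀ w ∈ VN k M, 1 < w x → w ((x ^ a i)⁻¹ * b i) ≤ 1 := by
      intro i w hw hwx
      have hx0 : w x ≠ 0 := (zero_lt_one.trans hwx).ne'
      rw [map_mul, map_inv₀, map_pow, inv_mul_le_iff₀ (zero_lt_iff.2 (pow_ne_zero _ hx0)), mul_one]
      exact ha i w hw hwx
    have hzeq : z = x ^ (-m) * y - ∑ i, (((e i : k⟮x⟯) : M) - algebraMap k M (γ i)) * ((x ^ a i)⁻¹ * b i) := by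
      have h1 : x ^ (-m) * y = ∑ i, ((e i : k⟮x⟯) : M) * ((x ^ a i)⁻¹ * b i) := by
        conv_lhs => rw [← hrep y]
        rw [Finset.mul_sum]
        refine Finset.sum_congr rfl fun i _ => ?_
        rw [heM, hcM]
        have : x ^ a i ≠ 0 := pow_ne_zero _ hx00
        field_simp
      rw [h1, hz, ← Finset.sum_sub_distrib]
      refine Finset.sum_congr rfl fun i _ => ?_
      ring
    have hzw : ∀ w ∈ VN k M, 1 < w x → w z ≤ (w x)⁻¹ := by
      intro w hw hwx
      rw [hzeq]
      refine (w.map_sub _ _).trans (max_le ?_ ?_)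
      · rw [map_mul, map_zpow₀, ← zpow_neg_one]
        calc w x ^ (-m) * w y ≤ w x ^ (-m) * 1 := mul_le_mul_right (hy w hw hwx) _
          _ = w x ^ (-m) := mul_one _
          _ ≤ w x ^ (-1 : ℤ) := zpow_le_zpow_right₀ hwx.le (by omega)
      · refine Valuation.map_sum_le w fun i _ => ?_
        rw [map_mul]
        exact (mul_le_of_le_one_right' (hxb i w hw hwx)).trans (hγ2 i w hw hwx)
    obtain ⟨j, hj, hjmax⟩ := Finset.exists_max_image (Finset.univ.filter fun i => γ i ≠ 0) a
      ⟨i1, Finset.mem_filter.2 ⟨Finset.mem_univ _, hγ1⟩⟩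
    have hj' : γ j ≠ 0 := (Finset.mem_filter.1 hj).2
    obtain ⟨β, hβ⟩ : ∃ β, β = ∑ i, algebraMap k M (γ i) * x ^ (a j - a i) * b i := ⟨_, rfl⟩
    have hβz : β = x ^ a j * z := by
      rw [hβ, hz, Finset.mul_sum]
      refine Finset.sum_congr rfl fun i _ => ?_
      by_cases hγi : γ i = 0
      · rw [hγi, map_zero]; ring
      · have h1 := hjmax i (Finset.mem_filter.2 ⟨Finset.mem_univ _, hγi⟩)
        rw [pow_sub₀ x hx00 h1]
        ring
    have hgd : Gd k x (Function.update b j β) := by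
      rw [hβ]
      exact red_replace hb hj' (fun i => a j - a i) (Nat.sub_self _)
    have hβw : ∀ w ∈ VN k M, 1 < w x → w β ≤ w x ^ a j * (w x)⁻¹ := by
      intro w hw hwx
      rw [hβz, map_mul, map_pow]
      exact mul_le_mul_right (hzw w hw hwx) _
    rcases Nat.eq_zero_or_pos (a j) with h0 | h0
    · have hβ1 : ∀ w ∈ VN k M, 1 < w x → w β < 1 := by
        intro w hw hwx
        refine (hβw w hw hwx).trans_lt ?_
        rw [h0, pow_zero, one_mul]
        exact (inv_lt_one₀ (zero_lt_one.trans hwx)).2 hwx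
      have hβB := hgd.1 j
      rw [Function.update_self] at hβB
      obtain ⟨c0, hc0'⟩ := g1_const hM (b := β) (fun v hv => by
        rcases le_or_gt (v x) 1 with h | h
        · exact hβB v hv h
        · exact (hβ1 v hv h).le)
      have hc00 : c0 = 0 := by
        by_contra hne
        have h1 := hβ1 w1 hw1 hw1x
        rw [← hc0', hw1.2 c0 hne] at h1
        exact lt_irrefl _ h1
      have hβ0 : β = 0 := by rw [← hc0', hc00, map_zero]
      have hli := bs.linearIndependent
      rw [Fintype.linearIndependent_iff] at hli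
      have h2 := hli (fun i => algebraMap k k⟮x⟯ (γ i) * X ^ (a j - a i)) (by
        rw [← hβ0, hβ]
        refine Finset.sum_congr rfl fun i _ => ?_
        rw [IntermediateField.smul_def, hbs, smul_eq_mul]
        push_cast
        rw [hX]) j
      simp only [Nat.sub_self, pow_zero, mul_one] at h2
      exact hj' ((map_eq_zero _).1 h2)
    · have h1 := hmin (Function.update b j β) (Function.update a j (a j - 1)) hgd (by
        intro i w hw hwx
        by_cases hij : i = j
        · subst hij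
          rw [Function.update_self, Function.update_self]
          refine (hβw w hw hwx).trans (le_of_eq ?_)
          have hx0 : w x ≠ 0 := (zero_lt_one.trans hwx).ne'
          rw [pow_sub₀ _ hx0 h0, pow_one]
        · rw [Function.update_of_ne hij, Function.update_of_ne hij]
          exact ha i w hw hwx)
      have h2 : ∑ i, Function.update a j (a j - 1) i < ∑ i, a i := by
        apply Finset.sum_lt_sum
        · intro i _
          by_cases hij : i = j
          · subst hij
            rw [Function.update_self]; omega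
          · rw [Function.update_of_ne hij]
        · exact ⟨j, Finset.mem_univ _, by rw [Function.update_self]; omega⟩
      omega
  refine ⟨n, bs, a, ?_, ?_, hpol, hred, ?_⟩
  · intro i w hw hwx
    rw [hbs]
    exact hb.1 i w hw hwx
  · intro i w hw hwx
    rw [hbs]
    exact ha i w hw hwx
  · by_contra hcon
    push Not at hcon
    have h1 : ∀ i, ((bs.repr 1 i : k⟮x⟯) : M) = 0 := by
      intro i
      obtain ⟨p, hp⟩ := hpol 1 (fun w _ _ => by rw [map_one]) i
      have h2 := hred 1 (fun w _ _ => by rw [map_one]) i w1 hw1 hw1x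
      rw [hp] at h2 ⊢
      by_cases hp0 : p = 0
      · rw [hp0, map_zero]
      · exfalso
        rw [map_mul, map_pow, red_poly hw1 hw1x hp0, ← pow_add] at h2
        have h3 : 1 < w1 x ^ (p.natDegree + a i) := one_lt_pow₀ hw1x (by
          have := hcon i
          omega)
        exact absurd h2 (not_le.2 h3)
    have h2 := hrep 1
    simp only [h1, zero_mul, Finset.sum_const_zero] at h2
    exact zero_ne_one h2

end Pool.Agent.Helper79.RG
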