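import Pool.Agent.Helper79.RG.STR2

set_option autoImplicit false

/-!
# Module STR: function fields without two independent regular differentials
-/

set_option linter.unusedSectionVars false

namespace Pool.Agent.Helper79.RG

open scoped WithZero IntermediateField.algebraAdjoinAdjoin
open IntermediateField IsDedekindDomain
open Pool.Agent.Helper79.FE

section str3

variable {k M : Type*} [Field k] [IsAlgClosed k] [CharZero k] [Field M] [Algebra k M]

/-- degree of a function with a single pole -/
theorem s3_deg (hM : IsFun k M) {P : Valuation M ℤᵐ⁰} (hP : P ∈ VN k M) {u : M} (hu : Transcendental k u) {e : ℤ}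
    (hPu : P u = WithZero.exp e) (he : 0 < e) (hreg : ∀ w ∈ VN k M, w ≠ P → w u ≤ 1) :
    (Module.finrank k⟮u⟯ M : ℤ) = e := by
  classical
  obtain ⟨S, hS, hdeg⟩ := deg_poles hM hu
  have h1 : S = {P} := by
    ext w
    rw [hS, Finset.mem_singleton]
    constructor
    · rintro ⟨hw, hwu⟩
      by_contra hne
      exact absurd (hreg w hw hne) (not_le.2 hwu)
    · rintro rfl
      refine ⟨hP, ?_⟩
      rw [hPu, ← WithZero.exp_zero, WithZero.exp_lt_exp]
      exact he
  rw [h1, Finset.sum_singleton, hPu, WithZero.log_exp] at hdeg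
  exact hdeg.symm

/-- the generation by two functions -/
theorem s3_gen {P : Valuation M ℤᵐ⁰} (hP : P ∈ VN k M) {u v : M}
    (hPu : P u = WithZero.exp (2 : ℤ)) (hPv : P v = WithZero.exp (3 : ℤ)) (hdeg : Module.finrank k⟮u⟯ M = 2) (m : M) :
    m ∈ IntermediateField.adjoin k ({u, v} : Set M) := by
  have hv0 : v ≠ 0 := by
    rintro rfl
    rw [map_zero] at hPv
    exact WithZero.exp_ne_zero hPv.symm
  have hodd : ∀ c : k⟮u⟯, (c : M) ≠ v := by
    intro c hc
    have hc0 : c ≠ 0 := by
      rintro rfl
      exact hv0 hc.symm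
    obtain ⟨d, hd⟩ := red_deg (k := k) c hc0
    have h1 := hd P hP (by rw [hPu, ← WithZero.exp_zero, WithZero.exp_lt_exp]; norm_num)
    rw [hc, hPv, hPu, ← WithZero.exp_zsmul, WithZero.exp_inj, smul_eq_mul] at h1
    omega
  have hli : LinearIndependent k⟮u⟯ ![(1 : M), v] := by
    rw [LinearIndependent.pair_iff]
    intro s t hst
    have ht : t = 0 := by
      by_contra ht
      refine hodd (-(s / t)) ?_
      have ht' : (t : M) ≠ 0 := fun h => ht (Subtype.ext h)
      have h1 : (s : M) + t * v = 0 := by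
        have := hst
        rw [Algebra.smul_def, Algebra.smul_def, mul_one] at this
        exact this
      show -((s : M) / t) = v
      field_simp
      linear_combination -h1
    rw [ht, zero_smul, add_zero, Algebra.smul_def, mul_one] at hst
    exact ⟨(map_eq_zero _).1 hst, ht⟩
  have hsp := hli.span_eq_top_of_card_eq_finrank (by rw [hdeg]; rfl)
  have hm : m ∈ Submodule.span k⟮u⟯ (Set.range ![(1 : M), v]) := by
    rw [hsp]
    trivial
  have hr : Set.range ![(1 : M), v] = {1, v} := by
    simp [Matrix.range_cons, Set.pair_comm]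
  rw [hr, Submodule.mem_span_pair] at hm
  obtain ⟨s, t, rfl⟩ := hm
  have hle : k⟮u⟯ ≤ IntermediateField.adjoin k ({u, v} : Set M) := by
    rw [IntermediateField.adjoin_simple_le_iff]
    exact IntermediateField.subset_adjoin _ _ (Or.inl rfl)
  rw [Algebra.smul_def, Algebra.smul_def, mul_one]
  exact add_mem (hle s.2) (mul_mem (hle t.2) (IntermediateField.subset_adjoin _ _ (Or.inr rfl)))

/-- a cubic with a double root gives a rational function field -/
theorem s3_sing {u v : M} (hu : Transcendental k u) {p q : k}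
    (h : v ^ 2 = u ^ 3 + algebraMap k M p * u + algebraMap k M q) (hd : 4 * p ^ 3 + 27 * q ^ 2 = 0)
    (hg : ∀ m : M, m ∈ IntermediateField.adjoin k ({u, v} : Set M)) :
    ∃ s : M, Transcendental k s ∧ ∀ m : M, m ∈ k⟮s⟯ := by
  obtain ⟨a, hpa, hqa⟩ : ∃ a : k, p = -3 * a ^ 2 ∧ q = 2 * a ^ 3 := by
    by_cases hp : p = 0
    · refine ⟨0, by rw [hp]; ring, ?_⟩
      rw [hp] at hd
      have : q ^ 2 = 0 := by
        have h27 : (27 : k) ≠ 0 := by norm_num
        have h1 : 27 * q ^ 2 = 0 := by linear_combination hd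
        exact (mul_eq_zero.1 h1).resolve_left h27
      rw [pow_eq_zero_iff two_ne_zero] at this
      rw [this]
      ring
    · refine ⟨-3 * q / (2 * p), ?_, ?_⟩
      · field_simp
        linear_combination hd
      · field_simp
        linear_combination q * hd
  have hua : u - algebraMap k M a ≠ 0 := by
    intro h0
    rw [sub_eq_zero] at h0
    rw [h0] at hu
    exact hu (isAlgebraic_algebraMap a)
  rw [hpa, hqa] at h
  simp only [map_mul, map_neg, map_pow, map_ofNat] at h
  set A := algebraMap k M a with hA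
  have hs : (v / (u - A)) ^ 2 = u + 2 * A := by
    rw [div_pow, div_eq_iff (pow_ne_zero 2 hua), h]
    ring
  have hst : Transcendental k (v / (u - A)) := by
    intro hal
    refine hu ?_
    have h1 : u = (v / (u - A)) ^ 2 - 2 * A := by rw [hs]; ring
    have h2 : IsAlgebraic k ((v / (u - A)) ^ 2 - algebraMap k M (2 * a)) :=
      (hal.pow 2).sub (isAlgebraic_algebraMap _)
    rw [map_mul, map_ofNat, ← hA, ← h1] at h2
    exact h2
  refine ⟨v / (u - A), hst, fun m => ?_⟩
  have hsm : v / (u - A) ∈ k⟮v / (u - A)⟯ := mem_adjoin_simple_self k _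
  have hAm : A ∈ k⟮v / (u - A)⟯ := IntermediateField.algebraMap_mem _ a
  have hum : u ∈ k⟮v / (u - A)⟯ := by
    have h1 : u = (v / (u - A)) ^ 2 - 2 * A := by rw [hs]; ring
    have h2 : (v / (u - A)) ^ 2 - 2 * A ∈ k⟮v / (u - A)⟯ :=
      sub_mem (pow_mem hsm 2) (by rw [two_mul]; exact add_mem hAm hAm)
    rwa [← h1] at h2
  have hvm : v ∈ k⟮v / (u - A)⟯ := by
    have h1 : v = (v / (u - A)) * (u - A) := by field_simp
    have h2 : (v / (u - A)) * (u - A) ∈ k⟮v / (u - A)⟯ := mul_mem hsm (sub_mem hum hAm)
    rwa [← h1] at h2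
  have hle : IntermediateField.adjoin k ({u, v} : Set M) ≤ k⟮v / (u - A)⟯ := by
    rw [IntermediateField.adjoin_le_iff]
    rintro y (rfl | rfl)
    · exact hum
    · exact hvm
  exact hle (hg m)

/-- the normal form of the equation -/
theorem s3_norm {u v : M} (hu : Transcendental k u) {l6 l5 l4 l3 l2 c : k} (hl6 : l6 ≠ 0)
    (h : v ^ 2 = algebraMap k M l6 * u ^ 3 + algebraMap k M l5 * (u * v) + algebraMap k M l4 * u ^ 2 +
      algebraMap k M l3 * v + algebraMap k M l2 * u + algebraMap k M c)
    (hg : ∀ m : M, m ∈ IntermediateField.adjoin k ({u, v} : Set M)) :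
    ∃ (u' v' : M) (p q : k), Transcendental k u' ∧ v' ^ 2 = u' ^ 3 + algebraMap k M p * u' + algebraMap k M q ∧
      ∀ m : M, m ∈ IntermediateField.adjoin k ({u', v'} : Set M) := by
  obtain ⟨α, hα⟩ := IsAlgClosed.exists_pow_nat_eq l6 (n := 3) (by norm_num)
  have hα0 : α ≠ 0 := by
    rintro rfl
    rw [zero_pow three_ne_zero] at hα
    exact hl6 hα.symm
  obtain ⟨μ, hμ⟩ : ∃ μ : k, l5 = 2 * μ := ⟨l5 / 2, by field_simp⟩
  obtain ⟨ρ, hρ⟩ : ∃ ρ : k, l3 = 2 * ρ := ⟨l3 / 2, by field_simp⟩
  obtain ⟨β, hβ⟩ : ∃ β : k, 3 * α ^ 2 * β = l4 + μ ^ 2 := ⟨(l4 + μ ^ 2) / (3 * α ^ 2), by field_simp⟩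
  obtain ⟨p, hp⟩ : ∃ p : k, α * p = l2 + 2 * μ * ρ - 3 * α * β ^ 2 :=
    ⟨(l2 + 2 * μ * ρ - 3 * α * β ^ 2) / α, by field_simp⟩
  obtain ⟨q, hq⟩ : ∃ q : k, q = c + ρ ^ 2 - β ^ 3 - p * β := ⟨_, rfl⟩
  have h1 := congrArg (algebraMap k M) hα
  have h2 := congrArg (algebraMap k M) hμ
  have h3 := congrArg (algebraMap k M) hρ
  have h4 := congrArg (algebraMap k M) hβ
  have h5 := congrArg (algebraMap k M) hp
  have h6 := congrArg (algebraMap k M) hq
  simp only [map_mul, map_neg, map_pow, map_ofNat, map_add, map_sub] at h1 h2 h3 h4 h5 h6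
  have hA0 : algebraMap k M α ≠ 0 := (map_ne_zero _).2 hα0
  refine ⟨algebraMap k M α * u + algebraMap k M β, v - algebraMap k M μ * u - algebraMap k M ρ, p, q, ?_, ?_,
    fun m => ?_⟩
  · intro hal
    refine hu ?_
    have h7 : u = algebraMap k M α⁻¹ * ((algebraMap k M α * u + algebraMap k M β) - algebraMap k M β) := by
      rw [map_inv₀]
      field_simp
      ring
    rw [h7]
    exact (isAlgebraic_algebraMap _).mul (hal.sub (isAlgebraic_algebraMap _))
  · rw [h6]
    rw [h2, h3] at h
    linear_combination h - u ^ 3 * h1 - u ^ 2 * h4 - u * h5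
  · have hle : IntermediateField.adjoin k ({u, v} : Set M) ≤ IntermediateField.adjoin k
        ({algebraMap k M α * u + algebraMap k M β, v - algebraMap k M μ * u - algebraMap k M ρ} : Set M) := by
      have ha1 : algebraMap k M α * u + algebraMap k M β ∈ IntermediateField.adjoin k
        ({algebraMap k M α * u + algebraMap k M β, v - algebraMap k M μ * u - algebraMap k M ρ} : Set M) :=
        IntermediateField.subset_adjoin _ _ (Or.inl rfl)
      have ha2 : v - algebraMap k M μ * u - algebraMap k M ρ ∈ IntermediateField.adjoin k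
        ({algebraMap k M α * u + algebraMap k M β, v - algebraMap k M μ * u - algebraMap k M ρ} : Set M) :=
        IntermediateField.subset_adjoin _ _ (Or.inr rfl)
      have hum : u ∈ IntermediateField.adjoin k
        ({algebraMap k M α * u + algebraMap k M β, v - algebraMap k M μ * u - algebraMap k M ρ} : Set M) := by
        have h7 : u = (algebraMap k M α)⁻¹ * ((algebraMap k M α * u + algebraMap k M β) - algebraMap k M β) := by
          field_simp
          ring
        have h8 := mul_mem (inv_mem (IntermediateField.algebraMap_mem (IntermediateField.adjoin k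
          ({algebraMap k M α * u + algebraMap k M β, v - algebraMap k M μ * u - algebraMap k M ρ} : Set M)) α))
          (sub_mem ha1 (IntermediateField.algebraMap_mem _ β))
        rwa [← h7] at h8
      rw [IntermediateField.adjoin_le_iff]
      rintro y (rfl | rfl)
      · exact hum
      · have h9 := add_mem (add_mem ha2 (mul_mem (IntermediateField.algebraMap_mem _ μ) hum))
          (IntermediateField.algebraMap_mem _ ρ)
        have h7 : y - algebraMap k M μ * u - algebraMap k M ρ + algebraMap k M μ * u + algebraMap k M ρ = y := by ring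
        rwa [h7] at h9
    exact hle (hg m)

end str3

/-- a function field of genus at most one is rational or the function field of a plane cubic
`v ^ 2 = u ^ 3 + p u + q` -/
theorem genus_le_one {k M : Type*} [Field k] [IsAlgClosed k] [CharZero k] [Field M] [Algebra k M] (hM : IsFun k M)
    (h : ¬ TwoReg k M) :
    (∃ u : M, Transcendental k u ∧ ∀ m : M, m ∈ k⟮u⟯) ∨
    (∃ (u v : M) (p q : k), Transcendental k u ∧ v ^ 2 = u ^ 3 + algebraMap k M p * u + algebraMap k M q ∧
      4 * p ^ 3 + 27 * q ^ 2 ≠ 0 ∧ ∀ m : M, m ∈ IntermediateField.adjoin k ({u, v} : Set M)) := by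
  classical
  obtain ⟨x, hx, hxf⟩ := id hM
  obtain ⟨P, hP, -⟩ := red_pole hx
  by_cases hA : ∃ u : M, Transcendental k u ∧ P u ≤ WithZero.exp (1 : ℤ) ∧ ∀ w ∈ VN k M, w ≠ P → w u ≤ 1
  · -- a function with a single simple pole
    obtain ⟨u, hu, hPu, hreg⟩ := hA
    left
    refine ⟨u, hu, fun m => ?_⟩
    have hfin : FiniteDimensional k⟮u⟯ M := hM.alg hu
    have hPu' : P u = WithZero.exp (1 : ℤ) := by
      refine le_antisymm hPu ?_
      by_contra hcon
      push Not at hcon
      have h1 := s2_lt hcon
      rw [sub_self, WithZero.exp_zero] at h1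
      obtain ⟨w, hw, hwu⟩ := red_pole hu
      by_cases hwP : w = P
      · rw [hwP] at hwu
        exact absurd h1 (not_le.2 hwu)
      · exact absurd (hreg w hw hwP) (not_le.2 hwu)
    have hdeg := s3_deg hM hP hu hPu' one_pos hreg
    have h1 : Module.finrank k⟮u⟯ M = 1 := by exact_mod_cast hdeg
    rw [IntermediateField.finrank_eq_one_iff_eq_top.1 h1]
    trivial
  · push Not at hA
    have hconst : ∀ y : M, P y ≤ WithZero.exp (1 : ℤ) → (∀ w ∈ VN k M, w ≠ P → w y ≤ 1) →
        ∃ c : k, algebraMap k M c = y := by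
      intro y hy hreg
      by_cases hal : IsAlgebraic k y
      · exact g1_mem_range hal
      · obtain ⟨w, hw, hwP, hwy⟩ := hA y hal hy
        exact absurd (hreg w hw hwP) (not_le.2 hwy)
    obtain ⟨V2, hfd2, hV2, hV2'⟩ := s2_rie hM h hP 2 (by norm_num)
    obtain ⟨V3, hfd3, hV3, hV3'⟩ := s2_rie hM h hP 3 (by norm_num)
    -- a function with a double pole
    obtain ⟨u, huV, hu1⟩ : ∃ u ∈ V2, u ∉ Submodule.span k ({1} : Set M) := by
      by_contra hcon
      push Not at hcon
      have h1 : V2 ≤ Submodule.span k ({1} : Set M) := hcon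
      have h2 := Submodule.finrank_mono h1
      have h3 : Module.finrank k (Submodule.span k ({1} : Set M)) ≤ 1 := by
        have := finrank_span_le_card (R := k) ({1} : Set M)
        simpa using this
      omega
    have hunc : ∀ c : k, algebraMap k M c ≠ u := by
      intro c hc
      refine hu1 ?_
      rw [← hc, Algebra.algebraMap_eq_smul_one]
      exact Submodule.smul_mem _ _ (Submodule.mem_span_singleton_self _)
    have hu : Transcendental k u := by
      intro hal
      obtain ⟨c, hc⟩ := g1_mem_range hal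
      exact hunc c hc
    have hureg := (hV2' u huV).2
    have hPu : P u = WithZero.exp (2 : ℤ) := by
      refine le_antisymm (hV2' u huV).1 ?_
      by_contra hcon
      push Not at hcon
      have h1 := s2_lt hcon
      obtain ⟨c, hc⟩ := hconst u (by simpa using h1) hureg
      exact hunc c hc
    -- a function with a triple pole
    obtain ⟨v, hvV, hv1⟩ : ∃ v ∈ V3, v ∉ Submodule.span k ({1, u} : Set M) := by
      by_contra hcon
      push Not at hcon
      have h1 : V3 ≤ Submodule.span k ({1, u} : Set M) := hcon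
      have hfds : FiniteDimensional k (Submodule.span k ({1, u} : Set M)) :=
        FiniteDimensional.span_of_finite k (Set.toFinite _)
      have h2 := Submodule.finrank_mono h1
      have h3 : Module.finrank k (Submodule.span k ({1, u} : Set M)) ≤ 2 := by
        have h4 := finrank_span_finset_le_card (R := k) ({1, u} : Finset M)
        rw [Finset.coe_pair] at h4
        exact h4.trans Finset.card_le_two
      omega
    have hvreg := (hV3' v hvV).2
    have hPv : P v = WithZero.exp (3 : ℤ) := by
      refine le_antisymm (hV3' v hvV).1 ?_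
      by_contra hcon
      push Not at hcon
      have h1 := s2_lt hcon
      obtain ⟨l, hl⟩ := s2_lead hM hP (c := 2) (y := v) (y0 := u) (by simpa using h1) hPu
      obtain ⟨c, hc⟩ := hconst (v - algebraMap k M l * u) (by simpa using hl) (fun w hw hwP =>
        (w.map_sub _ _).trans (max_le (hvreg w hw hwP) (by
          rw [map_mul]
          exact mul_le_one' (val_k hw l) (hureg w hw hwP))))
      refine hv1 ?_
      rw [Submodule.mem_span_pair]
      refine ⟨c, l, ?_⟩
      rw [Algebra.smul_def, Algebra.smul_def, mul_one, hc]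
      ring
    have hdeg := s3_deg hM hP hu hPu two_pos hureg
    have hdeg2 : Module.finrank k⟮u⟯ M = 2 := by exact_mod_cast hdeg
    have hg := s3_gen hP hPu hPv hdeg2
    -- the equation
    have e2 : P (u ^ 2) = WithZero.exp (4 : ℤ) := by
      rw [map_pow, hPu, ← WithZero.exp_nsmul]; rfl
    have e3 : P (u ^ 3) = WithZero.exp (6 : ℤ) := by
      rw [map_pow, hPu, ← WithZero.exp_nsmul]; rfl
    have ev : P (v ^ 2) = WithZero.exp (6 : ℤ) := by
      rw [map_pow, hPv, ← WithZero.exp_nsmul]; rfl
    have euv : P (u * v) = WithZero.exp (5 : ℤ) := by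
      rw [map_mul, hPu, hPv, ← WithZero.exp_add]; rfl
    obtain ⟨l6, h6⟩ := s2_lead hM hP ev.le e3
    obtain ⟨l5, h5⟩ := s2_lead hM hP (by simpa using h6) euv
    obtain ⟨l4, h4⟩ := s2_lead hM hP (by simpa using h5) e2
    obtain ⟨l3, h3⟩ := s2_lead hM hP (by simpa using h4) hPv
    obtain ⟨l2, h2⟩ := s2_lead hM hP (by simpa using h3) hPu
    obtain ⟨c, hc⟩ := hconst _ (by simpa using h2) (fun w hw hwP => by
      have a1 : u ∈ w.integer := hureg w hw hwP
      have a2 : v ∈ w.integer := hvreg w hw hwP
      have a3 : ∀ l : k, algebraMap k M l ∈ w.integer := fun l => val_k hw l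
      exact sub_mem (sub_mem (sub_mem (sub_mem (sub_mem (pow_mem a2 2) (mul_mem (a3 _) (pow_mem a1 3)))
        (mul_mem (a3 _) (mul_mem a1 a2))) (mul_mem (a3 _) (pow_mem a1 2))) (mul_mem (a3 _) a2)) (mul_mem (a3 _) a1))
    have hl6 : l6 ≠ 0 := by
      rintro rfl
      rw [map_zero, zero_mul, sub_zero, ev, WithZero.exp_le_exp] at h6
      norm_num at h6
    obtain ⟨u', v', p, q, hu', heq, hg'⟩ := s3_norm (l6 := l6) (l5 := l5) (l4 := l4) (l3 := l3) (l2 := l2) (c := c)
      hu hl6 (by rw [hc]; ring) hg
    by_cases hdisc : 4 * p ^ 3 + 27 * q ^ 2 = 0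
    · left
      exact s3_sing hu' heq hdisc hg'
    · right
      exact ⟨u', v', p, q, hu', heq, hdisc, hg'⟩

end Pool.Agent.Helper79.RG
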