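import Pool.Agent.Helper79.RG.EL
import Pool.Agent.Helper79.RG.STR
import Pool.Agent.Helper79.RG.M12

set_option autoImplicit false

/-!
# Module RK: the unramified symbols of a constant curve come from the two factors
-/

set_option linter.unusedSectionVars false

universe u

namespace Pool.Agent.Helper79.RG

open scoped WithZero IntermediateField.algebraAdjoinAdjoin
open IntermediateField
open Pool.Agent.Helper79.FE
open Pool.Agent.TH826.MK (KQ symb unitPart)
open Pool.Agent.Helper537_Sym

theorem unit_sub {R L : Type*} [Field R] [Field L] [Algebra R L] (a : R) (f : Lˣ) (ha : algebraMap R L a = f) :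
    ∃ a' : Rˣ, Units.map ((algebraMap R L : R →+* L) : R →* L) a' = f := by
  have ha0 : a ≠ 0 := by
    rintro rfl
    rw [map_zero] at ha
    exact f.ne_zero ha.symm
  exact ⟨Units.mk0 a ha0, Units.ext ha⟩

/-- algebraically dependent elements -/
theorem alg_of_dep {k L : Type*} [Field k] [Field L] [Algebra k L] {f g : L} (hf : Transcendental k f)
    (hdep : ¬ AlgebraicIndependent k ![f, g]) : IsAlgebraic k⟮f⟯ g := by
  by_contra htr
  apply hdep
  have h1 : AlgebraicIndependent k (fun _ : Unit => f) := algebraicIndependent_unique_type_iff.2 hf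
  have h2 : Transcendental (Algebra.adjoin k (Set.range fun _ : Unit => f)) g := by
    intro halg
    apply htr
    have hrange : Set.range (fun _ : Unit => f) = {f} := by simp
    rw [hrange] at halg
    exact (IsFractionRing.isAlgebraic_iff (Algebra.adjoin k {f}) k⟮f⟯ L).1 halg
  have h3 := (h1.option_iff_transcendental g).2 h2
  have h4 := h3.comp (fun i : Fin 2 => if i = 0 then some () else none) (by
    intro i j hij
    fin_cases i <;> fin_cases j <;> simp_all)
  convert h4 using 1
  funext i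
  fin_cases i <;> rfl

/-- the field `k(f, g)` for algebraically dependent `f`, `g` -/
theorem isFun_dep {k : Type*} {L : Type u} [Field k] [CharZero k] [Field L] [Algebra k L] {f g : L}
    (hf : Transcendental k f) (hdep : ¬ AlgebraicIndependent k ![f, g]) :
    ∃ (M : Type u) (_ : Field M) (_ : Algebra k M) (_ : Algebra M L) (_ : IsScalarTower k M L), IsFun k M ∧
      (∃ a : M, algebraMap M L a = f) ∧ (∃ a : M, algebraMap M L a = g) := by
  have hg := alg_of_dep hf hdep
  let Ω := algebraicClosure k⟮f⟯ L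
  have tΩ : IsScalarTower k Ω L := IsScalarTower.of_algebraMap_eq fun c => rfl
  have hfF : f ∈ k⟮f⟯ := IntermediateField.mem_adjoin_simple_self k f
  let fΩ : Ω := algebraMap k⟮f⟯ Ω ⟨f, hfF⟩
  let gΩ : Ω := ⟨g, (mem_algebraicClosure_iff (F := k⟮f⟯) (E := L)).2 hg⟩
  have hfΩ : algebraMap Ω L fΩ = f := rfl
  have hgΩ : algebraMap Ω L gΩ = g := rfl
  have htr : Transcendental k fΩ := by
    intro h0
    refine hf ?_
    have h1 := h0.algebraMap (A := L)
    rwa [hfΩ] at h1
  have hta : Algebra.IsAlgebraic k⟮fΩ⟯ Ω := by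
    constructor
    intro a
    have h1 : IsAlgebraic k⟮f⟯ (algebraMap Ω L a) := (Algebra.IsAlgebraic.isAlgebraic a).algebraMap
    have h2 : IsAlgebraic k⟮fΩ⟯ (algebraMap Ω L a) := by
      refine alg_of_range (R1 := k⟮f⟯) (R2 := k⟮fΩ⟯) (L := L) (algebraMap k⟮f⟯ L).injective
        (algebraMap k⟮fΩ⟯ L).injective (fun c => ?_) h1
      obtain ⟨c, hc⟩ := c
      induction hc using IntermediateField.adjoin_induction with
      | mem x hx =>
        rw [Set.mem_singleton_iff] at hx
        subst hx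
        exact ⟨⟨fΩ, IntermediateField.mem_adjoin_simple_self k fΩ⟩, rfl⟩
      | algebraMap x => exact ⟨algebraMap k _ x, rfl⟩
      | add x y hx' hy' hx hy =>
        obtain ⟨x1, hx1⟩ := hx
        obtain ⟨y1, hy1⟩ := hy
        refine ⟨x1 + y1, ?_⟩
        rw [map_add, hx1, hy1, ← map_add]
        rfl
      | mul x y hx' hy' hx hy =>
        obtain ⟨x1, hx1⟩ := hx
        obtain ⟨y1, hy1⟩ := hy
        refine ⟨x1 * y1, ?_⟩
        rw [map_mul, hx1, hy1, ← map_mul]
        rfl
      | inv x hx' hx =>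
        obtain ⟨x1, hx1⟩ := hx
        refine ⟨x1⁻¹, ?_⟩
        rw [map_inv₀, hx1, ← map_inv₀]
        rfl
    exact (isAlgebraic_algebraMap_iff (algebraMap Ω L).injective).1 h2
  obtain ⟨h1, h2⟩ := isFun_adjoin htr hta {fΩ, gΩ} (Set.toFinite _) (Or.inl rfl)
  refine ⟨IntermediateField.adjoin k {fΩ, gΩ}, inferInstance, inferInstance,
    ((algebraMap Ω L).comp (algebraMap (IntermediateField.adjoin k {fΩ, gΩ}) Ω)).toAlgebra, ?_, ⟨_, h1, h2⟩, ?_, ?_⟩
  · exact IsScalarTower.of_algebraMap_eq fun c => rfl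
  · exact ⟨⟨fΩ, IntermediateField.subset_adjoin _ _ (Or.inl rfl)⟩, rfl⟩
  · exact ⟨⟨gΩ, IntermediateField.subset_adjoin _ _ (Or.inr rfl)⟩, rfl⟩

section

variable {k K L0 : Type*} {L : Type u} [Field k] [IsAlgClosed k] [CharZero k] [Field K] [IsAlgClosed K] [CharZero K]
  [Field L0] [Field L] [Algebra k K] [Algebra k L0] [Algebra k L] [Algebra K L] [Algebra L0 L]
  [IsScalarTower k K L] [IsScalarTower k L0 L]

/-- one entry in `K` -/
theorem one_const (hL : IsFun K L) (f g : Lˣ) (hfg : ∀ v ∈ VN K L, sy f g ∈ unitPart v 2) (hf : ∃ a : K, algebraMap K L a = f)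
    (hg : ¬ ∃ a : K, algebraMap K L a = g) : sy f g = 0 := by
  obtain ⟨a, ha⟩ := hf
  have hgt : Transcendental K (g : L) := by
    intro h0
    exact hg (mem_of_alg h0)
  have hfin := hL.alg hgt
  obtain ⟨v, hv, hvg⟩ := exists_zero (N := K) (g : L) hgt
  have ha0 : a ≠ 0 := by
    rintro rfl
    rw [map_zero] at ha
    exact f.ne_zero ha.symm
  obtain ⟨n, hn, hvn⟩ := tame_tors v f g (hfg v hv) (by rw [← ha]; exact hv.2 a ha0) (ne_of_lt hvg)
  have h1 : a ^ n = 1 := by
    by_contra hne
    have h2 := hv.2 _ (sub_ne_zero.2 hne)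
    rw [map_sub, map_pow, map_one, ha] at h2
    rw [h2] at hvn
    exact lt_irrefl _ hvn
  rw [sy_swap, sy_tors_right g f n hn (Units.ext (by rw [Units.val_pow_eq_pow_val, ← ha, ← map_pow, h1, map_one]; rfl)),
    neg_zero]

/-- **rigidity in `K_2`** -/
theorem rigid_k2 (hP : IsProd k K L0 L) (hL0 : IsFun k L0) (f g : Lˣ)
    (hfg : ∀ v ∈ VN K L, sy f g ∈ unitPart v 2) :
    ∃ (y0 : KQ L0 2) (yK : KQ K 2), sy f g = KQ.map 2 (algebraMap L0 L) y0 + KQ.map 2 (algebraMap K L) yK := by
  obtain ⟨x, hx, hfinx⟩ := id hL0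
  have hLfun : IsFun K L := ⟨algebraMap L0 L x, hP.trans hx, hP.fin hx⟩
  by_cases hfK : ∃ a : K, algebraMap K L a = f
  · by_cases hgK : ∃ a : K, algebraMap K L a = g
    · obtain ⟨a, ha⟩ := hfK
      obtain ⟨b, hb⟩ := hgK
      obtain ⟨a', ha'⟩ := unit_sub a f ha
      obtain ⟨b', hb'⟩ := unit_sub b g hb
      refine ⟨0, sy a' b', ?_⟩
      rw [map_zero, zero_add, map_sy', ha', hb']
    · exact ⟨0, 0, by rw [map_zero, map_zero, add_zero, one_const hLfun f g hfg hfK hgK]⟩
  by_cases hgK : ∃ a : K, algebraMap K L a = g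
  · refine ⟨0, 0, ?_⟩
    rw [map_zero, map_zero, add_zero, sy_swap, one_const hLfun g f (fun v hv => unitPart_swap v f g (hfg v hv)) hgK hfK,
      neg_zero]
  have hdep : ¬ AlgebraicIndependent k ![(f : L), (g : L)] := by
    rcases rigid hP hL0 f g hfg with h | ⟨h, -⟩
    · exact h
    · exact absurd h hfK
  have hfKt : Transcendental K (f : L) := fun h0 => hfK (mem_of_alg h0)
  have hft : Transcendental k (f : L) := fun h0 => hfKt (h0.tower_top K)
  obtain ⟨M, _, _, _, _, hM, ⟨F, hF⟩, ⟨G, hG⟩⟩ := isFun_dep hft hdep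
  obtain ⟨F', hF'⟩ := unit_sub F f hF
  obtain ⟨G', hG'⟩ := unit_sub G g hG
  have hsyM : KQ.map 2 (algebraMap M L) (sy F' G') = sy f g := by rw [map_sy', hF', hG']
  by_cases h2 : TwoReg k M
  · rcases deFranchis hP hL0 hM h2 (algebraMap M L) (fun c => (IsScalarTower.algebraMap_apply k M L c).symm) with h | h
    · exfalso
      obtain ⟨c, hc⟩ := h F
      exact hfK ⟨c, by rw [hc, hF]⟩
    · obtain ⟨a, ha⟩ := h F
      obtain ⟨b, hb⟩ := h G
      obtain ⟨a', ha'⟩ := unit_sub a f (by rw [ha, hF])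
      obtain ⟨b', hb'⟩ := unit_sub b g (by rw [hb, hG])
      refine ⟨sy a' b', 0, ?_⟩
      rw [map_zero, add_zero, map_sy', ha', hb']
  · -- transcendental elements of `M` are transcendental over `K`
    have htK : ∀ u : M, Transcendental k u → Transcendental K (algebraMap M L u) := by
      intro u hu h0
      have hfin := hM.alg hu
      obtain ⟨c, hc⟩ := mem_of_alg h0
      refine hfKt ?_
      have h3 : IsAlgebraic k⟮u⟯ F := Algebra.IsAlgebraic.isAlgebraic F
      have h4 : IsAlgebraic k⟮u⟯ (algebraMap M L F) := h3.algebraMap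
      rw [hF] at h4
      refine alg_of_range (R1 := k⟮u⟯) (R2 := K) (L := L) (algebraMap k⟮u⟯ L).injective
        (algebraMap K L).injective (fun c' => ?_) h4
      obtain ⟨c', hc'⟩ := c'
      induction hc' using IntermediateField.adjoin_induction with
      | mem x hx =>
        rw [Set.mem_singleton_iff] at hx
        subst hx
        exact ⟨c, by rw [hc]; rfl⟩
      | algebraMap x => exact ⟨algebraMap k K x, by
          rw [← IsScalarTower.algebraMap_apply, IsScalarTower.algebraMap_apply k M L]; rfl⟩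
      | add x y hx' hy' hx hy =>
        obtain ⟨x1, hx1⟩ := hx
        obtain ⟨y1, hy1⟩ := hy
        refine ⟨x1 + y1, ?_⟩
        rw [map_add, hx1, hy1, ← map_add]
        rfl
      | mul x y hx' hy' hx hy =>
        obtain ⟨x1, hx1⟩ := hx
        obtain ⟨y1, hy1⟩ := hy
        refine ⟨x1 * y1, ?_⟩
        rw [map_mul, hx1, hy1, ← map_mul]
        rfl
      | inv x hx' hx =>
        obtain ⟨x1, hx1⟩ := hx
        refine ⟨x1⁻¹, ?_⟩
        rw [map_inv₀, hx1, ← map_inv₀]
        rfl
    rcases genus_le_one hM h2 with ⟨u, hu, hgen⟩ | ⟨u, v, p, q, hu, huv, hpq, hgen⟩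
    · obtain ⟨y, hy⟩ := mil (k := k) (K := K) (F := M) (E := L) hLfun u (htK u hu) hgen (sy F' G') (by
        intro v hv
        rw [hsyM]
        exact hfg v hv)
      refine ⟨0, KQ.map 2 (algebraMap k K) y, ?_⟩
      rw [map_zero, zero_add, kmap_map (algebraMap k K) (algebraMap K L) (algebraMap k L)
        (fun x => (IsScalarTower.algebraMap_apply k K L x).symm), hy, hsyM]
    · obtain ⟨y0, yK, h⟩ := elliptic hP hL0 hM (htK u hu) huv hpq hgen F' G' (by
        intro v hv
        rw [hsyM]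
        exact hfg v hv)
      exact ⟨y0, yK, by rw [← hsyM, h]⟩

end

end Pool.Agent.Helper79.RG
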