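import Pool.Agent.Helper79.RG.VX
import Pool.Agent.Helper79.QP.Rel

set_option autoImplicit false

/-!
# Finitely many relative classes: coverings
-/

set_option linter.unusedSectionVars false

universe u

namespace Pool.Agent.Helper79.RG

open scoped WithZero IntermediateField.algebraAdjoinAdjoin Pointwise
open IntermediateField Filter
open Pool.Agent.Helper79.FE
open Pool.Agent.TH826.MK (KQ symb unitPart)
open Pool.Agent.Helper537_Sym
open Pool.Agent.Helper79.QP (up gg mem_UU norm_mem sy_prod_left UU)

/-- degrees over a field in which `K` is algebraically closed -/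
theorem deg_le_of_closed {K L M : Type*} [Field K] [CharZero K] [Field L] [Field M] [Algebra K L] [Algebra K M]
    [Algebra L M] [IsScalarTower K L M] [FiniteDimensional L M]
    (hK : ∀ x : L, IsAlgebraic K x → ∃ c : K, algebraMap K L c = x) (α : M) (hα : IsAlgebraic K α) :
    (minpoly K α).natDegree ≤ Module.finrank L M := by
  have hint : IsIntegral K α := hα.isIntegral
  have hintL : IsIntegral L α := Algebra.IsIntegral.isIntegral α
  have hdvd : minpoly L α ∣ (minpoly K α).map (algebraMap K L) := minpoly.dvd_map_of_isScalarTower K L α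
  have hlift := integralClosure.mem_lifts_of_monic_of_dvd_map L (minpoly.monic hint) (minpoly.monic hintL) hdvd
  have hlift2 : minpoly L α ∈ Polynomial.lifts (algebraMap K L) := by
    rw [Polynomial.lifts_iff_coeff_lifts]
    intro i
    obtain ⟨q, hq⟩ := (Polynomial.mem_lifts _).1 hlift
    rw [← hq, Polynomial.coeff_map]
    exact hK _ (q.coeff i).2.isAlgebraic
  obtain ⟨Q, hQ⟩ := (Polynomial.mem_lifts _).1 hlift2
  have hQm : Q.Monic := (Polynomial.monic_map_iff).1 (by rw [hQ]; exact minpoly.monic hintL)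
  have hQα : Polynomial.aeval α Q = 0 := by
    have h1 := minpoly.aeval L α
    rw [← hQ, Polynomial.aeval_map_algebraMap] at h1
    exact h1
  have h2 : (minpoly K α).natDegree ≤ Q.natDegree :=
    Polynomial.natDegree_le_natDegree (minpoly.degree_le_of_ne_zero K α hQm.ne_zero hQα)
  have h3 : Q.natDegree = (minpoly L α).natDegree := by rw [← hQ, Polynomial.natDegree_map]
  rw [h3] at h2
  exact h2.trans (minpoly.natDegree_le α)

/-- the field of constants of a finite extension is finite -/
theorem fin_const {K L M : Type*} [Field K] [CharZero K] [Field L] [Field M] [Algebra K L] [Algebra K M]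
    [Algebra L M] [IsScalarTower K L M] [FiniteDimensional L M]
    (hK : ∀ x : L, IsAlgebraic K x → ∃ c : K, algebraMap K L c = x) :
    FiniteDimensional K (algebraicClosure K M) := by
  by_contra hnfd
  obtain ⟨E, hE, hlt⟩ := IntermediateField.exists_lt_finrank_of_infinite_dimensional hnfd (Module.finrank L M)
  obtain ⟨α, hα⟩ := Field.exists_primitive_element K E
  have h1 : Module.finrank K E = (minpoly K α).natDegree := by
    rw [← IntermediateField.adjoin.finrank (Algebra.IsIntegral.isIntegral α), hα, IntermediateField.finrank_top']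
  have h2 : minpoly K ((α : algebraicClosure K M) : M) = minpoly K α :=
    (minpoly.algebraMap_eq (algebraMap (algebraicClosure K M) M).injective (α : algebraicClosure K M)).trans
      (minpoly.algebraMap_eq (algebraMap E (algebraicClosure K M)).injective α)
  have h3 := deg_le_of_closed (K := K) (L := L) hK ((α : algebraicClosure K M) : M)
    (Algebra.IsAlgebraic.isAlgebraic (R := K) (α : algebraicClosure K M)).algebraMap
  rw [h2, ← h1] at h3
  omega

/-- the property of roots of unity passes to finite extensions -/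
theorem rb_fin {K K1 : Type*} [Field K] [CharZero K] [Field K1] [Algebra K K1] [FiniteDimensional K K1]
    (h : ∀ D, ∃ B, RB K D B) (D : ℕ) : ∃ B, RB K1 D B := by
  obtain ⟨B, hB⟩ := h (D * Module.finrank K K1)
  refine ⟨B, hB.1, ?_⟩
  rintro P hP hPD ⟨n, hn, hPn⟩
  have : Fact (Irreducible P) := ⟨hP⟩
  have hP0 := hP.ne_zero
  let R := AdjoinRoot P
  have hR : FiniteDimensional K1 R := (AdjoinRoot.powerBasis hP0).finite
  have hR2 : Module.finrank K1 R = P.natDegree := by
    rw [(AdjoinRoot.powerBasis hP0).finrank, AdjoinRoot.powerBasis_dim]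
  have : IsScalarTower K K1 R := inferInstance
  have hR3 : FiniteDimensional K R := FiniteDimensional.trans K K1 R
  have hr : (AdjoinRoot.root P) ^ n = 1 := by
    have h2 := AdjoinRoot.mk_eq_zero.2 hPn
    rw [map_sub, map_pow, map_one, AdjoinRoot.mk_X] at h2
    exact sub_eq_zero.1 h2
  have hint : IsIntegral K (AdjoinRoot.root P : R) := Algebra.IsIntegral.isIntegral _
  have hdeg : (minpoly K (AdjoinRoot.root P : R)).natDegree ≤ D * Module.finrank K K1 := by
    refine (minpoly.natDegree_le _).trans ?_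
    rw [← Module.finrank_mul_finrank K K1 R, hR2, mul_comm]
    exact Nat.mul_le_mul_right _ hPD
  have h3 := nbg_prim hB hn hr (minpoly K (AdjoinRoot.root P : R)) (minpoly.ne_zero hint) hdeg (minpoly.aeval _ _)
  rw [← AdjoinRoot.mk_eq_zero, map_sub, map_pow, map_one, AdjoinRoot.mk_X, h3, sub_self]

/-- a finite set as the range of a family -/
theorem fin_range {L : Type*} {S : Set L} (hS : S.Finite) : ∃ (m : ℕ) (e : Fin m → L), Set.range e = S := by
  have := hS.to_subtype
  obtain ⟨m, ⟨i⟩⟩ := Finite.exists_equiv_fin S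
  exact ⟨m, fun j => (i.symm j : L), by
    ext x
    constructor
    · rintro ⟨j, rfl⟩
      exact (i.symm j).2
    · intro hx
      exact ⟨i ⟨x, hx⟩, by
        show ((i.symm (i ⟨x, hx⟩) : S) : L) = x
        rw [Equiv.symm_apply_apply]⟩⟩

/-- constants: descent through a finite extension -/
theorem descent2 {K L M : Type u} [Field K] [CharZero K] [Field L] [Field M] [Algebra K L] [Algebra K M]
    [Algebra L M] [IsScalarTower K L M] [Algebra.IsAlgebraic L M]
    (hK : ∀ x : L, IsAlgebraic K x → ∃ c : K, algebraMap K L c = x) (δ : KQ L 2)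
    (y : KQ (algebraicClosure K M) 2) (h : KQ.map 2 (algebraMap L M) δ = KQ.map 2 (algebraMap (algebraicClosure K M) M) y) :
    ∃ y0 : KQ K 2, KQ.map 2 (algebraMap K L) y0 = δ := by
  let Ω := AlgebraicClosure M
  have h1 : Algebra.IsAlgebraic L Ω := Algebra.IsAlgebraic.trans L M Ω
  have h2 : IsScalarTower K L Ω := IsScalarTower.of_algebraMap_eq fun x => by
    rw [IsScalarTower.algebraMap_apply K M Ω, IsScalarTower.algebraMap_apply K L M,
      ← IsScalarTower.algebraMap_apply L M Ω]
  have hka : IsAlgClosed (algebraicClosure K Ω) :=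
    (inferInstance : IsAlgClosure K (algebraicClosure K Ω)).isAlgClosed
  obtain ⟨i, hi⟩ := exists_hom (R1 := algebraicClosure K M) (R2 := algebraicClosure K Ω) (L := Ω)
    (algebraMap (algebraicClosure K Ω) Ω).injective (fun a => by
      have h3 : IsAlgebraic K (algebraMap (algebraicClosure K M) Ω a) :=
        (Algebra.IsAlgebraic.isAlgebraic (R := K) a).algebraMap
      exact ⟨⟨_, mem_algebraicClosure_iff.2 h3⟩, rfl⟩)
  refine descent (k := algebraicClosure K Ω) (L0 := Ω) hK δ (KQ.map 2 i y) ?_
  rw [kmap_map i (algebraMap (algebraicClosure K Ω) Ω) (algebraMap (algebraicClosure K M) Ω) hi,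
    ← kmap_map (algebraMap (algebraicClosure K M) M) (algebraMap M Ω) (algebraMap (algebraicClosure K M) Ω)
      (fun x => rfl), ← h,
    kmap_map (algebraMap L M) (algebraMap M Ω) (algebraMap L Ω)
      (fun x => (IsScalarTower.algebraMap_apply L M Ω x).symm)]

theorem quo_gg {K F M : Type*} [Field K] [Field F] [Field M] [Algebra K F] [Algebra K M] [Algebra F M]
    [IsScalarTower K F M] {m : ℕ} (e : Fin m → M) (f : Mˣ) (hf : Quo K e (f : M)) (σ : M ≃ₐ[F] M) {m' : ℕ}
    (e' : Fin m' → M) (he' : ∀ i j, σ (e i) * e j ∈ Set.range e') : Quo K e' ((gg f σ : Mˣ) : M) := by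
  obtain ⟨a, b, ha, hb, hb0, hfab⟩ := hf
  have ha0 : a ≠ 0 := by
    rintro rfl
    rw [zero_div] at hfab
    exact f.ne_zero hfab
  have hσ : ∀ x : M, x ∈ Submodule.span K (Set.range e) →
      σ x ∈ Submodule.span K (Set.range fun i => σ (e i)) := by
    intro x hx
    induction hx using Submodule.span_induction with
    | mem x hx =>
      obtain ⟨i, rfl⟩ := hx
      exact Submodule.subset_span ⟨i, rfl⟩
    | zero => rw [map_zero]; exact zero_mem _
    | add x y _ _ hx hy => rw [map_add]; exact add_mem hx hy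
    | smul c x _ hx =>
      have h1 : σ (c • x) = c • σ x := by
        rw [Algebra.smul_def, map_mul, IsScalarTower.algebraMap_apply K F M, σ.commutes,
          ← IsScalarTower.algebraMap_apply K F M, ← Algebra.smul_def]
      rw [h1]
      exact Submodule.smul_mem _ _ hx
  have hmul : ∀ x y : M, x ∈ Submodule.span K (Set.range fun i => σ (e i)) → y ∈ Submodule.span K (Set.range e) →
      x * y ∈ Submodule.span K (Set.range e') := by
    intro x y hx hy
    induction hx, hy using Submodule.span_induction₂ with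
    | mem_mem x y hx hy =>
      obtain ⟨i, rfl⟩ := hx
      obtain ⟨j, rfl⟩ := hy
      exact Submodule.subset_span (he' i j)
    | zero_left y hy => rw [zero_mul]; exact zero_mem _
    | zero_right x hx => rw [mul_zero]; exact zero_mem _
    | add_left x y z _ _ _ h1 h2 => rw [add_mul]; exact add_mem h1 h2
    | add_right x y z _ _ _ h1 h2 => rw [mul_add]; exact add_mem h1 h2
    | smul_left c x y _ _ h1 => rw [smul_mul_assoc]; exact Submodule.smul_mem _ _ h1
    | smul_right c x y _ _ h1 => rw [mul_smul_comm]; exact Submodule.smul_mem _ _ h1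
  refine ⟨σ a * b, σ b * a, hmul _ _ (hσ a ha) hb, hmul _ _ (hσ b hb) ha,
    mul_ne_zero ((map_ne_zero σ).2 hb0) ha0, ?_⟩
  rw [gg, Units.val_mul, Units.val_inv_eq_inv_val, Units.coe_map]
  show σ (f : M) * ((f : M))⁻¹ = _
  rw [hfab, map_div₀]
  field_simp

/-- the main step -/
theorem rel_core {K F L M : Type u} [Field K] [CharZero K] [Field F] [Field L] [Field M] [Algebra K F] [Algebra K L]
    [Algebra F L] [Algebra K M] [Algebra F M] [Algebra L M] [IsScalarTower K F L] [IsScalarTower K L M]
    [IsScalarTower F L M] [IsScalarTower K F M] [FiniteDimensional F M] [IsGalois F M] [FiniteDimensional L M]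
    (hfg : ∃ S : Finset M, IntermediateField.adjoin K (S : Set M) = ⊤)
    (hK : ∀ x : L, IsAlgebraic K x → ∃ c : K, algebraMap K L c = x) (hRB : ∀ D, ∃ B, RB K D B)
    {m : ℕ} (e : Fin m → L) :
    {z : KQ L 2 ⧸ LinearMap.range (KQ.map 2 (algebraMap F L)) | ∃ (f : Lˣ) (u : Fˣ) (β : KQ L 2),
      β ∈ LinearMap.range (KQ.map 2 (algebraMap F L)) ∧ Quo K e (f : L) ∧ Quo K e (algebraMap F L u) ∧
      (∀ v ∈ VN K L, sy f (up F L u) + β ∈ unitPart v 2) ∧
      z = Submodule.Quotient.mk (sy f (up F L u))}.Finite := by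
  classical
  have hfinG : Fintype (M ≃ₐ[F] M) := Fintype.ofFinite _
  set R := LinearMap.range (KQ.map 2 (algebraMap F L)) with hR
  set RM := LinearMap.range (KQ.map 2 (algebraMap F M)) with hRM
  have hMc : CharZero M := charZero_of_injective_algebraMap (algebraMap K M).injective
  -- the constants of `M`
  let K' := algebraicClosure K M
  have hK'fin : FiniteDimensional K K' := fin_const (K := K) (L := L) hK
  have hK'c : CharZero K' := charZero_of_injective_algebraMap (algebraMap K K').injective
  have hK' : ∀ x : M, IsAlgebraic K' x → ∃ c : K', algebraMap K' M c = x := by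
    intro x hx
    exact ⟨⟨x, mem_algebraicClosure_iff.2 (hx.restrictScalars K)⟩, rfl⟩
  have hRB' : ∀ D, ∃ B, RB K' D B := fun D => rb_fin hRB D
  have hfg' : ∃ S : Finset M, IntermediateField.adjoin K' (S : Set M) = ⊤ := by
    obtain ⟨S, hS⟩ := hfg
    refine ⟨S, ?_⟩
    rw [eq_top_iff]
    intro x _
    have h2 : x ∈ IntermediateField.adjoin K (S : Set M) := by rw [hS]; exact IntermediateField.mem_top
    have h3 : IntermediateField.adjoin K (S : Set M) ≤
        (IntermediateField.adjoin K' (S : Set M)).restrictScalars K :=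
      IntermediateField.adjoin_le_iff.2 (IntermediateField.subset_adjoin K' (S : Set M))
    exact h3 h2
  set RK := LinearMap.range (KQ.map 2 (algebraMap K' M)) with hRK
  -- the finite-dimensional space
  let eM : Fin m → M := fun i => algebraMap L M (e i)
  obtain ⟨m', e', he'⟩ := fin_range (S := (Set.range eM) ∪
    Set.range (fun p : (M ≃ₐ[F] M) × Fin m × Fin m => p.1 (eM p.2.1) * eM p.2.2))
    ((Set.finite_range _).union (Set.finite_range _))
  have hfin := classes_var hfg' hK' hRB' e'
  -- the maps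
  have hρ0 : R ≤ LinearMap.ker ((RM ⊔ RK).mkQ.comp (KQ.map 2 (algebraMap L M))) := by
    rintro _ ⟨y, rfl⟩
    rw [LinearMap.mem_ker, LinearMap.comp_apply, Submodule.mkQ_apply, Submodule.Quotient.mk_eq_zero]
    refine Submodule.mem_sup_left ⟨y, ?_⟩
    rw [kmap_map (algebraMap F L) (algebraMap L M) (algebraMap F M)
      (fun x => (IsScalarTower.algebraMap_apply F L M x).symm)]
  let ρ : (KQ L 2 ⧸ R) →ₗ[ℚ] (KQ M 2 ⧸ (RM ⊔ RK)) := R.liftQ _ hρ0
  have hρ : ∀ x, ρ (Submodule.Quotient.mk x) = Submodule.Quotient.mk (KQ.map 2 (algebraMap L M) x) := fun x => rfl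
  have hinj : Function.Injective ρ := by
    rw [injective_iff_map_eq_zero]
    intro z hz
    obtain ⟨δ, rfl⟩ := Submodule.Quotient.mk_surjective _ z
    rw [hρ, Submodule.Quotient.mk_eq_zero] at hz
    obtain ⟨_, ⟨b, rfl⟩, _, ⟨y, rfl⟩, hby⟩ := Submodule.mem_sup.1 hz
    rw [Submodule.Quotient.mk_eq_zero]
    obtain ⟨y0, hy0⟩ := descent2 (K := K) (M := M) hK (δ - KQ.map 2 (algebraMap F L) b) y (by
      rw [map_sub, ← hby, kmap_map (algebraMap F L) (algebraMap L M) (algebraMap F M)
        (fun x => (IsScalarTower.algebraMap_apply F L M x).symm), add_sub_cancel_left])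
    refine ⟨b + KQ.map 2 (algebraMap K F) y0, ?_⟩
    rw [map_add, kmap_map (algebraMap K F) (algebraMap F L) (algebraMap K L)
      (fun x => (IsScalarTower.algebraMap_apply K F L x).symm), hy0, add_sub_cancel]
  let τ : (KQ M 2 ⧸ RK) →ₗ[ℚ] (KQ M 2 ⧸ (RM ⊔ RK)) := RK.mapQ _ LinearMap.id (by
    rw [Submodule.comap_id]
    exact le_sup_right)
  let T : ((M ≃ₐ[F] M) → (KQ M 2 ⧸ RK)) → (KQ M 2 ⧸ (RM ⊔ RK)) := fun c =>
    -(((Fintype.card (M ≃ₐ[F] M) : ℕ) : ℚ)⁻¹ • ∑ σ, τ (c σ))
  have hcard : ((Fintype.card (M ≃ₐ[F] M) : ℕ) : ℚ) ≠ 0 := by exact_mod_cast Fintype.card_ne_zero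
  have hpi := Set.Finite.pi (ι := M ≃ₐ[F] M) (t := fun _ => {z : KQ M 2 ⧸ RK | ∃ f g : Mˣ, (Quo K' e' (f : M) ∧
    Quo K' e' (g : M) ∧ ∀ v ∈ VN K' M, sy f g ∈ unitPart v 2) ∧ z = Submodule.Quotient.mk (sy f g)})
    (fun _ => hfin)
  refine ((hpi.image T).preimage hinj.injOn).subset ?_
  rintro z ⟨f, u, β, hβ, hf, hu, hun, rfl⟩
  have hUU : u ∈ (UU K M f : Subgroup Fˣ) := by
    refine mem_UU (k := K) (M := M) f 1 one_ne_zero u β hβ ?_
    rw [one_smul, Submodule.mem_iInf]
    intro v
    rw [Submodule.mem_iInf]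
    exact hun v
  refine ⟨fun σ => Submodule.Quotient.mk (sy (gg (up L M f) σ) (up F M u)), ?_, ?_⟩
  · intro σ _
    refine ⟨gg (up L M f) σ, up F M u, ⟨?_, ?_, fun v hv => hUU σ v ⟨hv.1, fun x hx => ?_⟩⟩, rfl⟩
    · refine quo_base (K := K) (quo_gg (F := F) eM (up L M f) ?_ σ e' fun i j => ?_)
      · exact quo_map (K := K) (L := L) (k := K) (L0 := M) hf
      · rw [he']
        exact Or.inr ⟨(σ, i, j), rfl⟩
    · have h1 : Quo K eM (algebraMap L M (algebraMap F L u)) := quo_map (K := K) (L := L) (k := K) (L0 := M) hu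
      have h2 : ((up F M u : Mˣ) : M) = algebraMap L M (algebraMap F L u) :=
        IsScalarTower.algebraMap_apply F L M (u : F)
      rw [h2]
      obtain ⟨a, b, ha, hb, hb0, hab⟩ := h1
      have hle : Submodule.span K (Set.range eM) ≤ Submodule.span K (Set.range e') := by
        refine Submodule.span_mono ?_
        rw [he']
        exact Set.subset_union_left
      exact quo_base (K := K) ⟨a, b, hle ha, hle hb, hb0, hab⟩
    · rw [IsScalarTower.algebraMap_apply K K' M]
      exact hv.2 _ ((map_ne_zero _).2 hx)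
  · -- the average
    obtain ⟨Nf, hNf⟩ := norm_mem (F := F) (up L M f)
    have hprod : ∏ σ : M ≃ₐ[F] M, gg (up L M f) σ = up F M Nf * ((up L M f) ^ (Fintype.card (M ≃ₐ[F] M)))⁻¹ := by
      rw [hNf]
      simp only [gg, Finset.prod_mul_distrib, Finset.prod_const, Finset.card_univ, inv_pow]
    have havg : ∑ σ : M ≃ₐ[F] M, sy (gg (up L M f) σ) (up F M u) =
        sy (up F M Nf) (up F M u) - ((Fintype.card (M ≃ₐ[F] M) : ℕ) : ℚ) • sy (up L M f) (up F M u) := by
      rw [← Pool.Agent.Helper79.QP.sy_prod_left, hprod, sy_mul_left, sy_inv_left, sy_pow_left]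
      abel
    have hN : sy (up F M Nf) (up F M u) ∈ RM ⊔ RK := by
      refine Submodule.mem_sup_left ⟨sy Nf u, ?_⟩
      rw [map_sy']
      rfl
    have h1 : KQ.map 2 (algebraMap L M) (sy f (up F L u)) = sy (up L M f) (up F M u) := by
      rw [map_sy']
      congr 1
      apply Units.ext
      exact (IsScalarTower.algebraMap_apply F L M (u : F)).symm
    show T _ = ρ _
    rw [hρ, h1]
    show -(((Fintype.card (M ≃ₐ[F] M) : ℕ) : ℚ)⁻¹ • ∑ σ : M ≃ₐ[F] M,
      (RM ⊔ RK).mkQ (sy (gg (up L M f) σ) (up F M u))) = (RM ⊔ RK).mkQ (sy (up L M f) (up F M u))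
    have h3 : ∑ σ : M ≃ₐ[F] M, (RM ⊔ RK).mkQ (sy (gg (up L M f) σ) (up F M u)) =
        (RM ⊔ RK).mkQ (∑ σ : M ≃ₐ[F] M, sy (gg (up L M f) σ) (up F M u)) := (map_sum _ _ _).symm
    have h4 : (RM ⊔ RK).mkQ (sy (up F M Nf) (up F M u)) = 0 := by
      rw [Submodule.mkQ_apply, Submodule.Quotient.mk_eq_zero]
      exact hN
    rw [h3, havg, map_sub, map_smul, h4, zero_sub, smul_neg, neg_neg, smul_smul, inv_mul_cancel₀ hcard, one_smul]

/-- finite extensions of finitely generated extensions are finitely generated -/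
theorem fg_ext {K L M : Type*} [Field K] [Field L] [Field M] [Algebra K L] [Algebra K M] [Algebra L M]
    [IsScalarTower K L M] [FiniteDimensional L M]
    (hfg : ∃ S : Finset L, IntermediateField.adjoin K (S : Set L) = ⊤) :
    ∃ S : Finset M, IntermediateField.adjoin K (S : Set M) = ⊤ := by
  classical
  obtain ⟨S, hS⟩ := hfg
  let b := Module.finBasis L M
  let S' : Finset M := S.image (algebraMap L M) ∪ Finset.univ.image b
  refine ⟨S', ?_⟩
  have h1 : ∀ x : L, algebraMap L M x ∈ IntermediateField.adjoin K (S' : Set M) := by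
    intro x
    have hx : x ∈ IntermediateField.adjoin K (S : Set L) := by rw [hS]; exact IntermediateField.mem_top
    induction hx using IntermediateField.adjoin_induction with
    | mem y hy =>
      refine IntermediateField.subset_adjoin _ _ ?_
      exact Finset.mem_coe.2 (Finset.mem_union_left _ (Finset.mem_image_of_mem _ hy))
    | algebraMap y =>
      rw [← IsScalarTower.algebraMap_apply]
      exact IntermediateField.algebraMap_mem _ _
    | add x y _ _ hx hy => rw [map_add]; exact add_mem hx hy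
    | inv x _ hx => rw [map_inv₀]; exact inv_mem hx
    | mul x y _ _ hx hy => rw [map_mul]; exact mul_mem hx hy
  rw [eq_top_iff]
  intro x _
  rw [← b.sum_repr x]
  refine sum_mem fun i _ => ?_
  rw [Algebra.smul_def]
  refine mul_mem (h1 _) (IntermediateField.subset_adjoin _ _ ?_)
  exact Finset.mem_coe.2 (Finset.mem_union_right _ (Finset.mem_image_of_mem _ (Finset.mem_univ i)))

/-- **finitely many relative classes** -/
theorem rel_var {K L : Type u} [Field K] [CharZero K] [Field L] [Algebra K L]
    (hfg : ∃ S : Finset L, IntermediateField.adjoin K (S : Set L) = ⊤)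
    (hK : ∀ x : L, IsAlgebraic K x → ∃ c : K, algebraMap K L c = x) (hRB : ∀ D, ∃ B, RB K D B)
    (F : IntermediateField K L) [FiniteDimensional F L] {m : ℕ} (e : Fin m → L) :
    {z : KQ L 2 ⧸ LinearMap.range (KQ.map 2 (algebraMap F L)) | ∃ (f : Lˣ) (u : Fˣ) (β : KQ L 2),
      β ∈ LinearMap.range (KQ.map 2 (algebraMap F L)) ∧ Quo K e (f : L) ∧ Quo K e (algebraMap F L u) ∧
      (∀ v ∈ VN K L, sy f (up F L u) + β ∈ unitPart v 2) ∧
      z = Submodule.Quotient.mk (sy f (up F L u))}.Finite := by
  have : CharZero L := charZero_of_injective_algebraMap (algebraMap K L).injective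
  let Ω := AlgebraicClosure L
  have h1 : Algebra.IsAlgebraic F Ω := Algebra.IsAlgebraic.trans F L Ω
  have h2 : IsAlgClosure F Ω := ⟨inferInstance, h1⟩
  have h3 : Normal F Ω := IsAlgClosure.normal F Ω
  let M := normalClosure F L Ω
  have i2 : IsScalarTower F L M := inferInstance
  have i3 : FiniteDimensional F M := inferInstance
  have i7 : IsScalarTower K F M := inferInstance
  have i8 : IsScalarTower K L M := IsScalarTower.of_algebraMap_eq fun x => Subtype.ext rfl
  have i4 : Normal F M := inferInstance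
  have i5 : IsGalois F M := ⟨⟩
  have i6 : FiniteDimensional L M := FiniteDimensional.right F L M
  exact rel_core (M := M) (fg_ext (L := L) (M := M) hfg) hK hRB e

end Pool.Agent.Helper79.RG
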