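import Pool.Agent.Helper79.RG.QD
import Pool.Agent.Helper79.BT.Alg

set_option autoImplicit false

/-!
# Module RT: the sum of the Galois conjugates of an element of `K_2` comes from the ground field
-/

set_option linter.unusedSectionVars false

universe u

namespace Pool.Agent.Helper79.RG

open Polynomial IntermediateField
open Pool.Agent.TH826.MK (KQ symb)
open Pool.Agent.Helper537_Sym

namespace RTm

section s0

variable {L : Type*} [Field L]

open Classical in
/-- the symbol of two elements, zero if one of them is zero -/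
noncomputable def s0 (a b : L) : KQ L 2 :=
  if h : a ≠ 0 ∧ b ≠ 0 then sy (Units.mk0 a h.1) (Units.mk0 b h.2) else 0

theorem s0_eq {a b : L} (ha : a ≠ 0) (hb : b ≠ 0) : s0 a b = sy (Units.mk0 a ha) (Units.mk0 b hb) := by
  unfold s0
  rw [dif_pos ⟨ha, hb⟩]

theorem s0_units (a b : Lˣ) : s0 (a : L) (b : L) = sy a b := by
  rw [s0_eq a.ne_zero b.ne_zero, Units.mk0_val, Units.mk0_val]

theorem s0_left {a b : L} (ha : a = 0) : s0 a b = 0 := by
  unfold s0
  rw [dif_neg]
  exact fun h => h.1 ha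

theorem s0_right {a b : L} (hb : b = 0) : s0 a b = 0 := by
  unfold s0
  rw [dif_neg]
  exact fun h => h.2 hb

theorem s0_mul_left {a a' : L} (ha : a ≠ 0) (ha' : a' ≠ 0) (b : L) :
    s0 (a * a') b = s0 a b + s0 a' b := by
  by_cases hb : b = 0
  · rw [s0_right hb, s0_right hb, s0_right hb, add_zero]
  · rw [s0_eq (mul_ne_zero ha ha') hb, s0_eq ha hb, s0_eq ha' hb, ← sy_mul_left]
    congr 1
    exact Units.ext rfl

theorem s0_mul_right {b b' : L} (hb : b ≠ 0) (hb' : b' ≠ 0) (a : L) :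
    s0 a (b * b') = s0 a b + s0 a b' := by
  by_cases ha : a = 0
  · rw [s0_left ha, s0_left ha, s0_left ha, add_zero]
  · rw [s0_eq ha (mul_ne_zero hb hb'), s0_eq ha hb, s0_eq ha hb', ← sy_mul_right]
    congr 1
    exact Units.ext rfl

theorem s0_neg_left (a b : L) : s0 (-a) b = s0 a b := by
  by_cases ha : a = 0
  · rw [s0_left ha, s0_left (by rw [ha, neg_zero])]
  by_cases hb : b = 0
  · rw [s0_right hb, s0_right hb]
  have h : Units.mk0 (-a) (neg_ne_zero.2 ha) = -Units.mk0 a ha := Units.ext rfl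
  rw [s0_eq (neg_ne_zero.2 ha) hb, s0_eq ha hb, h, sy_neg_left]

theorem s0_neg_right (a b : L) : s0 a (-b) = s0 a b := by
  by_cases ha : a = 0
  · rw [s0_left ha, s0_left ha]
  by_cases hb : b = 0
  · rw [s0_right hb, s0_right (by rw [hb, neg_zero])]
  have h : Units.mk0 (-b) (neg_ne_zero.2 hb) = -Units.mk0 b hb := Units.ext rfl
  rw [s0_eq ha (neg_ne_zero.2 hb), s0_eq ha hb, h, sy_neg_right]

theorem s0_self (a : L) : s0 a a = 0 := by
  by_cases ha : a = 0
  · rw [s0_left ha]
  · rw [s0_eq ha ha, sy_self]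

theorem s0_st {a b : L} (h : a + b = 1) : s0 a b = 0 := by
  by_cases ha : a = 0
  · rw [s0_left ha]
  by_cases hb : b = 0
  · rw [s0_right hb]
  rw [s0_eq ha hb]
  exact sy_steinberg h

theorem s0_one_left (b : L) : s0 1 b = 0 := by
  by_cases hb : b = 0
  · rw [s0_right hb]
  rw [s0_eq one_ne_zero hb, Units.mk0_one, sy_one_left]

theorem s0_one_right (a : L) : s0 a 1 = 0 := by
  by_cases ha : a = 0
  · rw [s0_left ha]
  rw [s0_eq ha one_ne_zero, Units.mk0_one, sy_one_right]

theorem s0_map {L' : Type*} [Field L'] (f : L →+* L') (a b : L) : KQ.map 2 f (s0 a b) = s0 (f a) (f b) := by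
  by_cases ha : a = 0
  · rw [s0_left ha, s0_left (by rw [ha, map_zero]), map_zero]
  by_cases hb : b = 0
  · rw [s0_right hb, s0_right (by rw [hb, map_zero]), map_zero]
  rw [s0_eq ha hb, s0_eq ((map_ne_zero f).2 ha) ((map_ne_zero f).2 hb), map_sy']
  congr 1 <;> exact Units.ext rfl

/-- the key identity -/
theorem s0_key {α β : L} (hα : α ≠ 0) (hβ : β ≠ 0) (h : β ≠ α) :
    s0 β (β - α) = s0 α (α - β) + s0 β α := by
  have hba : β / α ≠ 0 := div_ne_zero hβ hα
  have hsub : β / α - 1 ≠ 0 := by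
    intro h0
    apply h
    rw [sub_eq_zero, div_eq_one_iff_eq hα] at h0
    exact h0
  have h1 : s0 (β / α) (1 - β / α) = 0 := s0_st (by ring)
  have h2 : s0 (β / α) (β - α) = s0 (β / α) α + s0 (β / α) (β / α - 1) := by
    rw [← s0_mul_right hα hsub]
    congr 1
    field_simp
  have h3 : s0 (β / α) (β / α - 1) = 0 := by
    rw [← h1, ← s0_neg_right]
    congr 1
    ring
  have h4 : s0 β (β - α) = s0 (β / α) (β - α) + s0 α (β - α) := by
    rw [← s0_mul_left hba hα]
    congr 1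
    field_simp
  have h5 : s0 β α = s0 (β / α) α + s0 α α := by
    rw [← s0_mul_left hba hα]
    congr 1
    field_simp
  have h6 : s0 α (β - α) = s0 α (α - β) := by
    rw [← s0_neg_right]
    congr 1
    ring
  rw [h4, h2, h3, h5, s0_self, h6]
  abel

theorem s0_multiset_left (s : Multiset L) (hs : ∀ a ∈ s, a ≠ 0) (b : L) :
    s0 s.prod b = (s.map fun a => s0 a b).sum := by
  induction s using Multiset.induction_on with
  | empty => rw [Multiset.prod_zero, s0_one_left, Multiset.map_zero, Multiset.sum_zero]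
  | cons a s ih =>
    have h1 : s.prod ≠ 0 := Multiset.prod_ne_zero fun h0 => hs 0 (Multiset.mem_cons_of_mem h0) rfl
    rw [Multiset.prod_cons, s0_mul_left (hs a (Multiset.mem_cons_self a s)) h1, Multiset.map_cons,
      Multiset.sum_cons, ih fun a ha => hs a (Multiset.mem_cons_of_mem ha)]

theorem s0_multiset_right (s : Multiset L) (hs : ∀ a ∈ s, a ≠ 0) (b : L) :
    s0 b s.prod = (s.map fun a => s0 b a).sum := by
  induction s using Multiset.induction_on with
  | empty => rw [Multiset.prod_zero, s0_one_right, Multiset.map_zero, Multiset.sum_zero]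
  | cons a s ih =>
    have h1 : s.prod ≠ 0 := Multiset.prod_ne_zero fun h0 => hs 0 (Multiset.mem_cons_of_mem h0) rfl
    rw [Multiset.prod_cons, s0_mul_right (hs a (Multiset.mem_cons_self a s)) h1, Multiset.map_cons,
      Multiset.sum_cons, ih fun a ha => hs a (Multiset.mem_cons_of_mem ha)]

end s0

section lem

variable {F Ω : Type*} [Field F] [Field Ω] [IsAlgClosed Ω] [Algebra F Ω]

/-- the sum over the roots -/
noncomputable def SS (q : F[X]) (Ω : Type*) [Field Ω] [Algebra F Ω] (p : F[X]) : KQ Ω 2 :=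
  ((q.aroots Ω).map fun β => s0 β (aeval β p)).sum

theorem aeval_prod {q : F[X]} (hq : q.Monic) (x : Ω) :
    aeval x q = ((q.aroots Ω).map fun β => x - β).prod := by
  have h1 : q.map (algebraMap F Ω) = ((q.aroots Ω).map fun β => X - C β).prod := by
    have h2 := (IsAlgClosed.splits (q.map (algebraMap F Ω))).eq_prod_roots
    rw [(hq.map (algebraMap F Ω)).leadingCoeff, C_1, one_mul] at h2
    exact h2
  rw [← eval_map_algebraMap, h1, eval_multiset_prod, Multiset.map_map]
  congr 1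
  refine Multiset.map_congr rfl fun β _ => ?_
  simp

theorem root_ne {q : F[X]} (h0 : q.coeff 0 ≠ 0) {β : Ω} (hβ : β ∈ q.aroots Ω) : β ≠ 0 := by
  rintro rfl
  have h1 := (mem_aroots.1 hβ).2
  rw [← eval_map_algebraMap, ← coeff_zero_eq_eval_zero, coeff_map] at h1
  exact h0 ((map_eq_zero _).1 h1)

/-- the sum over the roots of a constant symbol -/
theorem sum_const {q : F[X]} (hq : q.Monic) (h0 : q.coeff 0 ≠ 0) (c : Ω) :
    ((q.aroots Ω).map fun β => s0 β c).sum = s0 (algebraMap F Ω (q.coeff 0)) c := by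
  have h1 := aeval_prod hq (0 : Ω)
  rw [← eval_map_algebraMap, ← coeff_zero_eq_eval_zero, coeff_map] at h1
  rw [h1, s0_multiset_left]
  · rw [Multiset.map_map]
    congr 1
    refine Multiset.map_congr rfl fun β _ => ?_
    show s0 β c = s0 (0 - β) c
    rw [zero_sub, s0_neg_left]
  · intro a ha
    obtain ⟨β, hβ, rfl⟩ := Multiset.mem_map.1 ha
    rw [zero_sub]
    exact neg_ne_zero.2 (root_ne h0 hβ)

theorem sum_const' {q : F[X]} (hq : q.Monic) (h0 : q.coeff 0 ≠ 0) (c : Ω) :
    ((q.aroots Ω).map fun β => s0 c β).sum = s0 c (algebraMap F Ω (q.coeff 0)) := by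
  have h1 := aeval_prod hq (0 : Ω)
  rw [← eval_map_algebraMap, ← coeff_zero_eq_eval_zero, coeff_map] at h1
  rw [h1, s0_multiset_right]
  · rw [Multiset.map_map]
    congr 1
    refine Multiset.map_congr rfl fun β _ => ?_
    show s0 c β = s0 c (0 - β)
    rw [zero_sub, s0_neg_right]
  · intro a ha
    obtain ⟨β, hβ, rfl⟩ := Multiset.mem_map.1 ha
    rw [zero_sub]
    exact neg_ne_zero.2 (root_ne h0 hβ)

theorem SS_mul {q p p' : F[X]} (h : ∀ β ∈ q.aroots Ω, aeval β p ≠ 0 ∧ aeval β p' ≠ 0) :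
    SS q Ω (p * p') = SS q Ω p + SS q Ω p' := by
  unfold SS
  rw [← Multiset.sum_map_add]
  congr 1
  refine Multiset.map_congr rfl fun β hβ => ?_
  rw [map_mul, s0_mul_right (h β hβ).1 (h β hβ).2]

/-- the exchange -/
theorem SS_swap {q p : F[X]} (hq : q.Monic) (hp : p.Monic) (hq0 : q.coeff 0 ≠ 0) (hp0 : p.coeff 0 ≠ 0)
    (h : ∀ β ∈ q.aroots Ω, aeval β p ≠ 0) :
    SS q Ω p = SS p Ω q + s0 (algebraMap F Ω (q.coeff 0)) (algebraMap F Ω (p.coeff 0)) := by
  have hne : ∀ β ∈ q.aroots Ω, ∀ α ∈ p.aroots Ω, β ≠ α := by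
    rintro β hβ α hα rfl
    exact h β hβ (mem_aroots.1 hα).2
  have h1 : SS q Ω p = ((q.aroots Ω).map fun β => ((p.aroots Ω).map fun α => s0 β (β - α)).sum).sum := by
    unfold SS
    congr 1
    refine Multiset.map_congr rfl fun β hβ => ?_
    rw [aeval_prod hp, s0_multiset_right, Multiset.map_map]
    · rfl
    · intro a ha
      obtain ⟨α, hα, rfl⟩ := Multiset.mem_map.1 ha
      exact sub_ne_zero.2 (hne β hβ α hα)
  have h2 : SS p Ω q = ((p.aroots Ω).map fun α => ((q.aroots Ω).map fun β => s0 α (α - β)).sum).sum := by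
    unfold SS
    congr 1
    refine Multiset.map_congr rfl fun α hα => ?_
    rw [aeval_prod hq, s0_multiset_right, Multiset.map_map]
    · rfl
    · intro a ha
      obtain ⟨β, hβ, rfl⟩ := Multiset.mem_map.1 ha
      exact sub_ne_zero.2 (hne β hβ α hα).symm
  have h3 : ((q.aroots Ω).map fun β => ((p.aroots Ω).map fun α => s0 β α).sum).sum =
      s0 (algebraMap F Ω (q.coeff 0)) (algebraMap F Ω (p.coeff 0)) := by
    rw [← sum_const hq hq0]
    congr 1
    refine Multiset.map_congr rfl fun β hβ => ?_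
    rw [sum_const' hp hp0]
  have h4 : ((p.aroots Ω).map fun α => ((q.aroots Ω).map fun β => s0 β (β - α)).sum).sum =
      ((p.aroots Ω).map fun α => (((q.aroots Ω).map fun β => s0 α (α - β)).sum +
        ((q.aroots Ω).map fun β => s0 β α).sum)).sum := by
    congr 1
    refine Multiset.map_congr rfl fun α hα => ?_
    rw [← Multiset.sum_map_add]
    congr 1
    refine Multiset.map_congr rfl fun β hβ => ?_
    exact s0_key (root_ne hp0 hα) (root_ne hq0 hβ) (hne β hβ α hα)
  rw [h1, h2, ← h3, Multiset.sum_map_sum_map (q.aroots Ω) (p.aroots Ω) (f := fun β α => s0 β (β - α)),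
    Multiset.sum_map_sum_map (q.aroots Ω) (p.aroots Ω) (f := fun β α => s0 β α), h4,
    Multiset.sum_map_add]

/-- the sum over the roots comes from the ground field -/
theorem SS_range (n : ℕ) : ∀ (q p : F[X]), q.natDegree ≤ n → q.Monic → q.coeff 0 ≠ 0 →
    (∀ β ∈ q.aroots Ω, aeval β p ≠ 0) → SS q Ω p ∈ LinearMap.range (KQ.map 2 (algebraMap F Ω)) := by
  induction n with
  | zero =>
    intro q p hn hq _ _
    have : q = 1 := hq.natDegree_eq_zero.1 (by omega)
    subst this
    unfold SS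
    rw [aroots_one, Multiset.map_zero, Multiset.sum_zero]
    exact zero_mem _
  | succ n ih =>
    intro q p hn hq hq0 h
    by_cases hd : q.natDegree = 0
    · exact ih q p (by omega) hq hq0 h
    -- the remainder
    obtain ⟨r, hr⟩ : ∃ r, r = p %ₘ q := ⟨_, rfl⟩
    have hval : ∀ β ∈ q.aroots Ω, aeval β p = aeval β r := by
      intro β hβ
      have h1 := modByMonic_add_div p q
      conv_lhs => rw [← h1]
      rw [map_add, map_mul, (mem_aroots.1 hβ).2, zero_mul, add_zero, hr]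
    have hrd : r.natDegree < q.natDegree := by
      rw [hr]
      exact natDegree_modByMonic_lt p hq (by rintro rfl; exact hd natDegree_one)
    obtain ⟨β0, hβ0⟩ : ∃ β : Ω, β ∈ q.aroots Ω := by
      obtain ⟨β, hβ⟩ := IsAlgClosed.exists_root (q.map (algebraMap F Ω)) (by
        rw [degree_map]
        intro h1
        exact hd (natDegree_eq_of_degree_eq_some h1))
      refine ⟨β, mem_aroots.2 ⟨hq.ne_zero, ?_⟩⟩
      rw [← eval_map_algebraMap]
      exact hβ
    have hr0 : r ≠ 0 := by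
      rintro h0
      have h1 := h β0 hβ0
      rw [hval β0 hβ0, h0, map_zero] at h1
      exact h1 rfl
    -- decomposition of the remainder
    obtain ⟨r', hr', hr'0⟩ := exists_eq_pow_rootMultiplicity_mul_and_not_dvd r hr0 0
    rw [C_0, sub_zero] at hr' hr'0
    obtain ⟨m, hm⟩ : ∃ m, m = rootMultiplicity 0 r := ⟨_, rfl⟩
    rw [← hm] at hr'
    have hr'ne : r' ≠ 0 := by
      rintro rfl
      exact hr'0 (dvd_zero _)
    have hc0 : r'.leadingCoeff ≠ 0 := leadingCoeff_ne_zero.2 hr'ne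
    obtain ⟨p1, hp1⟩ : ∃ p1, p1 = C r'.leadingCoeff⁻¹ * r' := ⟨_, rfl⟩
    have hp1m : p1.Monic := by
      rw [hp1, Monic, leadingCoeff_mul, leadingCoeff_C, inv_mul_cancel₀ hc0]
    have hr'p : r' = C r'.leadingCoeff * p1 := by
      rw [hp1, ← mul_assoc, ← C_mul, mul_inv_cancel₀ hc0, C_1, one_mul]
    have hp10 : p1.coeff 0 ≠ 0 := by
      intro h0
      apply hr'0
      rw [X_dvd_iff, hr'p, coeff_C_mul, h0, mul_zero]
    have hp1d : p1.natDegree < q.natDegree := by
      have h1 : r.natDegree = m + p1.natDegree := by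
        rw [hr', natDegree_mul (pow_ne_zero _ X_ne_zero) hr'ne, natDegree_X_pow, hr'p,
          natDegree_C_mul hc0]
      omega
    have hreq : r = X ^ m * (C r'.leadingCoeff * p1) := by rw [← hr'p]; exact hr'
    have hX : ∀ β ∈ q.aroots Ω, aeval β (X ^ m : F[X]) ≠ 0 := by
      intro β hβ
      rw [map_pow, aeval_X]
      exact pow_ne_zero _ (root_ne hq0 hβ)
    have hC : ∀ β ∈ q.aroots Ω, aeval β (C r'.leadingCoeff : F[X]) ≠ 0 := by
      intro β hβ
      rw [aeval_C]
      exact (_root_.map_ne_zero _).2 hc0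
    have hP : ∀ β ∈ q.aroots Ω, aeval β p1 ≠ 0 := by
      intro β hβ h0
      apply h β hβ
      rw [hval β hβ, hreq, map_mul, map_mul, h0, mul_zero, mul_zero]
    have hSr : SS q Ω p = SS q Ω r := by
      unfold SS
      congr 1
      refine Multiset.map_congr rfl fun β hβ => ?_
      rw [hval β hβ]
    rw [hSr, hreq, SS_mul fun β hβ => ⟨hX β hβ, by rw [map_mul]; exact mul_ne_zero (hC β hβ) (hP β hβ)⟩,
      SS_mul fun β hβ => ⟨hC β hβ, hP β hβ⟩]
    refine add_mem ?_ (add_mem ?_ ?_)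
    · have : SS q Ω (X ^ m : F[X]) = 0 := by
        unfold SS
        rw [← Multiset.sum_map_zero (m := q.aroots Ω)]
        congr 1
        refine Multiset.map_congr rfl fun β hβ => ?_
        rw [map_pow, aeval_X]
        clear hreq hm hr' hX
        induction m with
        | zero => rw [pow_zero, s0_one_right]
        | succ m ihm =>
          rw [pow_succ, s0_mul_right (pow_ne_zero _ (root_ne hq0 hβ)) (root_ne hq0 hβ), ihm, s0_self, add_zero]
      rw [this]
      exact zero_mem _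
    · have : SS q Ω (C r'.leadingCoeff : F[X]) = s0 (algebraMap F Ω (q.coeff 0))
          (algebraMap F Ω r'.leadingCoeff) := by
        unfold SS
        simp only [aeval_C]
        exact sum_const hq hq0 _
      rw [this, ← s0_map]
      exact ⟨_, rfl⟩
    · rw [SS_swap hq hp1m hq0 hp10 hP]
      refine add_mem (ih p1 q (by omega) hp1m hp10 ?_) ?_
      · intro α hα h0
        exact hP α (mem_aroots.2 ⟨hq.ne_zero, h0⟩) (mem_aroots.1 hα).2
      · rw [← s0_map]
        exact ⟨_, rfl⟩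

end lem

end RTm

open RTm

/-- the sum of the conjugates of an element of `K_2(E)` comes from `K_2(F)`, `E / F` a finite Galois extension -/
theorem rt {F E : Type u} [Field F] [CharZero F] [Field E] [Algebra F E] [FiniteDimensional F E] [IsGalois F E]
    (z : KQ E 2) : ∃ y : KQ F 2, KQ.map 2 (algebraMap F E) y =
      ∑ σ : E ≃ₐ[F] E, KQ.map 2 ((σ : E →ₐ[F] E) : E →+* E) z := by
  classical
  let T : KQ E 2 →ₗ[ℚ] KQ E 2 := ∑ σ : E ≃ₐ[F] E, KQ.map 2 ((σ : E →ₐ[F] E) : E →+* E)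
  have hT : ∀ z, T z = ∑ σ : E ≃ₐ[F] E, KQ.map 2 ((σ : E →ₐ[F] E) : E →+* E) z := fun z =>
    LinearMap.sum_apply _ _ _
  let G : Submodule ℚ (KQ E 2) := (LinearMap.range (KQ.map 2 (algebraMap F E))).comap T
  suffices h : ∀ f g : Eˣ, sy f g ∈ G by
    have hle : Submodule.span ℚ (Set.range fun p : Eˣ × Eˣ => sy p.1 p.2) ≤ G := by
      rw [Submodule.span_le]
      rintro _ ⟨p, rfl⟩
      exact h p.1 p.2
    obtain ⟨y, hy⟩ := hle (sy_span z)
    exact ⟨y, by rw [hy, hT]⟩
  intro f g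
  -- the norm of `g` to `F(f)`
  obtain ⟨H, hH⟩ : ∃ H : Finset (E ≃ₐ[F] E), H = Finset.univ.filter fun ρ : E ≃ₐ[F] E => ρ (f : E) = (f : E) := ⟨_, rfl⟩
  have hHm : ∀ ρ, ρ ∈ H ↔ ρ (f : E) = (f : E) := fun ρ => by rw [hH, Finset.mem_filter]; simp
  have hHne : (H.card : ℚ) ≠ 0 := by
    rw [Nat.cast_ne_zero]
    exact Finset.card_ne_zero_of_mem ((hHm 1).2 rfl)
  obtain ⟨h, hh⟩ : ∃ h : E, h = ∏ ρ ∈ H, ρ (g : E) := ⟨_, rfl⟩
  have hh0 : h ≠ 0 := by
    rw [hh]
    exact Finset.prod_ne_zero_iff.2 fun ρ _ => (_root_.map_ne_zero ρ).2 g.ne_zero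
  obtain ⟨p, hp⟩ : ∃ p : F[X], aeval (f : E) p = h := by
    have h1 : h ∈ F⟮(f : E)⟯ := by
      rw [← IsGalois.fixedField_fixingSubgroup F⟮(f : E)⟯]
      rw [IntermediateField.mem_fixedField_iff]
      intro σ hσ
      rw [IntermediateField.mem_fixingSubgroup_iff] at hσ
      have hσf : σ (f : E) = f := hσ _ (mem_adjoin_simple_self F (f : E))
      rw [hh, map_prod]
      refine Finset.prod_bij (fun ρ _ => σ * ρ) ?_ ?_ ?_ ?_
      · intro ρ hρ
        rw [hHm] at hρ ⊢
        rw [AlgEquiv.mul_apply, hρ, hσf]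
      · intro ρ _ ρ' _ heq
        exact mul_left_cancel heq
      · intro ρ hρ
        refine ⟨σ⁻¹ * ρ, ?_, ?_⟩
        · rw [hHm] at hρ ⊢
          rw [AlgEquiv.mul_apply, hρ]
          have : σ⁻¹ (σ (f : E)) = f := AlgEquiv.symm_apply_apply σ _
          rwa [hσf] at this
        · rw [mul_inv_cancel_left]
      · intro ρ _
        rfl
    have h2 : IsAlgebraic F (f : E) := Algebra.IsAlgebraic.isAlgebraic _
    have h3 : h ∈ Algebra.adjoin F {(f : E)} := by
      rw [← IntermediateField.adjoin_simple_toSubalgebra_of_isAlgebraic h2]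
      exact h1
    rw [Algebra.adjoin_singleton_eq_range_aeval] at h3
    exact h3
  have hpτ : ∀ τ : E ≃ₐ[F] E, aeval (τ (f : E)) p = τ h := by
    intro τ
    rw [← hp]
    exact aeval_algHom_apply (τ : E →ₐ[F] E) (f : E) p
  -- the sum
  have hTs : T (sy f g) = ∑ σ : E ≃ₐ[F] E, s0 (σ (f : E)) (σ (g : E)) := by
    rw [hT]
    refine Finset.sum_congr rfl fun σ _ => ?_
    rw [← s0_units, s0_map]
    rfl
  have hsum : ∑ τ : E ≃ₐ[F] E, s0 (τ (f : E)) (τ h) = (H.card : ℚ) • T (sy f g) := by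
    have h1 : ∀ τ : E ≃ₐ[F] E, s0 (τ (f : E)) (τ h) = ∑ ρ ∈ H, s0 ((τ * ρ) (f : E)) ((τ * ρ) (g : E)) := by
      intro τ
      rw [hh, map_prod]
      have h2 : ∏ ρ ∈ H, τ (ρ (g : E)) = (H.val.map fun ρ => τ (ρ (g : E))).prod := rfl
      rw [h2, s0_multiset_right, Multiset.map_map]
      · show (H.val.map _).sum = (H.val.map _).sum
        congr 1
        refine Multiset.map_congr rfl fun ρ hρ => ?_
        have h3 := (hHm ρ).1 hρ
        rw [AlgEquiv.mul_apply, AlgEquiv.mul_apply, h3]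
        rfl
      · intro a ha
        obtain ⟨ρ, _, rfl⟩ := Multiset.mem_map.1 ha
        exact (_root_.map_ne_zero τ).2 ((_root_.map_ne_zero ρ).2 g.ne_zero)
    rw [Finset.sum_congr rfl fun τ _ => h1 τ, Finset.sum_comm, hTs]
    have h4 : ∀ ρ ∈ H, ∑ τ : E ≃ₐ[F] E, s0 ((τ * ρ) (f : E)) ((τ * ρ) (g : E)) =
        ∑ σ : E ≃ₐ[F] E, s0 (σ (f : E)) (σ (g : E)) := fun ρ _ =>
      Fintype.sum_equiv (Equiv.mulRight ρ) _ _ fun τ => rfl
    rw [Finset.sum_congr rfl h4, Finset.sum_const, ← Nat.cast_smul_eq_nsmul ℚ]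
  -- the polynomial
  obtain ⟨Q, hQ⟩ : ∃ Q : E[X], Q = ∏ τ : E ≃ₐ[F] E, (X - C (τ (f : E))) := ⟨_, rfl⟩
  have hQm : Q.Monic := by
    rw [hQ]
    exact monic_prod_of_monic _ _ fun τ _ => monic_X_sub_C _
  have hQl : Q ∈ lifts (algebraMap F E) := by
    rw [lifts_iff_coeff_lifts]
    intro n
    rw [IsGalois.mem_range_algebraMap_iff_fixed]
    intro σ
    have h1 : Q.map ((σ : E →ₐ[F] E) : E →+* E) = Q := by
      conv_lhs => rw [hQ, Polynomial.map_prod]
      conv_rhs => rw [hQ]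
      refine Fintype.prod_equiv (Equiv.mulLeft σ) _ _ fun τ => ?_
      rw [Polynomial.map_sub, map_X, map_C]
      rfl
    have h2 := congrArg (fun q => coeff q n) h1
    simp only [coeff_map] at h2
    exact h2
  obtain ⟨Q0, hQ0, hQ0d, hQ0m⟩ := lifts_and_natDegree_eq_and_monic hQl hQm
  -- in the algebraic closure
  let Ω := AlgebraicClosure E
  have hroots : Q0.aroots Ω = (Finset.univ : Finset (E ≃ₐ[F] E)).val.map
      (fun τ => algebraMap E Ω (τ (f : E))) := by
    unfold aroots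
    rw [IsScalarTower.algebraMap_eq F E Ω, ← Polynomial.map_map, hQ0, hQ, Polynomial.map_prod]
    have h1 : ∏ τ : E ≃ₐ[F] E, Polynomial.map (algebraMap E Ω) (X - C (τ (f : E))) =
        (((Finset.univ : Finset (E ≃ₐ[F] E)).val.map
          (fun τ => algebraMap E Ω (τ (f : E)))).map fun a => X - C a).prod := by
      rw [Multiset.map_map]
      show (Multiset.map _ _).prod = _
      congr 1
      refine Multiset.map_congr rfl fun τ _ => ?_
      rw [Polynomial.map_sub, map_X, map_C]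
      rfl
    rw [h1, roots_multiset_prod_X_sub_C]
  have hQ00 : Q0.coeff 0 ≠ 0 := by
    intro h0
    have h1 : Q.coeff 0 = 0 := by rw [← hQ0, coeff_map, h0, map_zero]
    rw [coeff_zero_eq_eval_zero, hQ, eval_prod, Finset.prod_eq_zero_iff] at h1
    obtain ⟨τ, _, hτ⟩ := h1
    rw [eval_sub, eval_X, eval_C, zero_sub, neg_eq_zero] at hτ
    exact (_root_.map_ne_zero τ).2 f.ne_zero hτ
  have hvals : ∀ τ : E ≃ₐ[F] E, aeval (algebraMap E Ω (τ (f : E))) p = algebraMap E Ω (τ h) := by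
    intro τ
    rw [aeval_algebraMap_apply, hpτ]
  have hmem := SS_range (Ω := Ω) Q0.natDegree Q0 p le_rfl hQ0m hQ00 (by
    intro β hβ
    rw [hroots] at hβ
    obtain ⟨τ, _, rfl⟩ := Multiset.mem_map.1 hβ
    rw [hvals]
    exact (_root_.map_ne_zero _).2 ((_root_.map_ne_zero τ).2 hh0))
  have hSS : SS Q0 Ω p = KQ.map 2 (algebraMap E Ω) (∑ τ : E ≃ₐ[F] E, s0 (τ (f : E)) (τ h)) := by
    unfold SS
    rw [hroots, Multiset.map_map, map_sum]
    show (Multiset.map _ _).sum = (Multiset.map _ _).sum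
    congr 1
    refine Multiset.map_congr rfl fun τ _ => ?_
    rw [s0_map, Function.comp_apply, hvals]
  rw [hSS, hsum] at hmem
  obtain ⟨y, hy⟩ := hmem
  have hy2 : KQ.map 2 (algebraMap F E) y = (H.card : ℚ) • T (sy f g) := by
    rw [← sub_eq_zero]
    refine Pool.Agent.Helper79.BT.inj_alg (F := E) (F' := Ω) _ ?_
    rw [map_sub, ← hy, sub_eq_zero]
    exact kmap_map (algebraMap F E) (algebraMap E Ω) (algebraMap F Ω) (fun x => rfl) y
  show T (sy f g) ∈ LinearMap.range (KQ.map 2 (algebraMap F E))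
  have h5 : T (sy f g) = (H.card : ℚ)⁻¹ • KQ.map 2 (algebraMap F E) y := by
    rw [hy2, smul_smul, inv_mul_cancel₀ hHne, one_smul]
  rw [h5]
  exact Submodule.smul_mem _ _ ⟨y, rfl⟩

end Pool.Agent.Helper79.RG
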