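import Pool.Agent.Helper79.RG.RED
import Pool.Agent.Helper79.RG.DIFF
import Pool.Agent.Helper79.RG.DEG
import Pool.Agent.Helper79.RG.G1

set_option autoImplicit false

/-!
# Module STR, part 1: regular differentials from the dual basis
-/

set_option linter.unusedSectionVars false

namespace Pool.Agent.Helper79.RG

open scoped WithZero IntermediateField.algebraAdjoinAdjoin
open IntermediateField IsDedekindDomain
open Pool.Agent.Helper79.FE

section str1

variable {k M : Type*} [Field k] [IsAlgClosed k] [CharZero k] [Field M] [Algebra k M]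

/-- an element with trivial trace pairings at the pertinent places gives a regular differential -/
theorem s1_reg (hM : IsFun k M) {x : M} (hx : Transcendental k x) [FiniteDimensional k⟮x⟯ M]
    (d : Derivation ℤ M M) (hd : ∀ c : k, d (algebraMap k M c) = 0) (hdx : d x = 1) (h : M)
    (h1 : ∀ y : M, (∀ w ∈ VN k M, w x ≤ 1 → w y ≤ 1) → ∀ w ∈ VN k M, w x ≤ 1 →
      w ((Algebra.trace k⟮x⟯ M (h * y) : k⟮x⟯) : M) ≤ 1)
    (h2 : ∀ y : M, (∀ w ∈ VN k M, 1 < w x → w y ≤ 1) → ∀ w ∈ VN k M, 1 < w x →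
      w ((x ^ 2 : M) * ((Algebra.trace k⟮x⟯ M (h * y) : k⟮x⟯) : M)) ≤ 1) :
    Reg k d h := by
  intro w hw z hz
  have hx0 : x ≠ 0 := by
    rintro rfl
    exact hx isAlgebraic_zero
  rcases le_or_gt (w x) 1 with hwx | hwx
  · -- a finite place
    obtain ⟨c, hc⟩ := exists_res hM hw hwx
    have ht : Transcendental k (x - algebraMap k M c) := by
      intro hal
      refine hx ?_
      have := hal.add (isAlgebraic_algebraMap c)
      rwa [sub_add_cancel] at this
    have hF : k⟮x - algebraMap k M c⟯ = k⟮x⟯ := by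
      apply le_antisymm
      · rw [IntermediateField.adjoin_simple_le_iff]
        exact sub_mem (mem_adjoin_simple_self k x) (IntermediateField.algebraMap_mem _ c)
      · rw [IntermediateField.adjoin_simple_le_iff]
        have := add_mem (mem_adjoin_simple_self k (x - algebraMap k M c))
          (IntermediateField.algebraMap_mem k⟮x - algebraMap k M c⟯ c)
        rwa [sub_add_cancel] at this
    have hle : ∀ v ∈ VN k M, (v (x - algebraMap k M c) ≤ 1 ↔ v x ≤ 1) := by
      intro v hv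
      constructor
      · intro h
        have : x = (x - algebraMap k M c) + algebraMap k M c := by ring
        rw [this]
        exact (v.map_add _ _).trans (max_le h (val_k hv c))
      · intro h
        exact (v.map_sub _ _).trans (max_le h (val_k hv c))
    have key := tame_diff hM k⟮x⟯ (x - algebraMap k M c) ht hF d hd h (fun b hb v hv hvt => by
      exact h1 b (fun v hv hvx => hb v hv ((hle v hv).2 hvx)) v hv ((hle v hv).1 hvt.le)) w hw hc z hz
    have hdt : d (x - algebraMap k M c) = 1 := by rw [map_sub, hd, hdx, sub_zero]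
    rwa [hdt, map_one, mul_one] at key
  · -- a pole of `x`
    have ht : Transcendental k x⁻¹ := fun h => hx (by simpa using h.inv)
    have key := tame_diff hM k⟮x⟯ x⁻¹ ht (bd_inv x) d hd (x ^ 2 * h) (fun b hb v hv hvt => by
      have hvx : 1 < v x := by
        rw [map_inv₀] at hvt
        exact (inv_lt_one₀ (zero_lt_iff.2 ((Valuation.ne_zero_iff v).2 hx0))).1 hvt
      have e1 : Algebra.trace k⟮x⟯ M (x ^ 2 * h * b) =
          (⟨x, mem_adjoin_simple_self k x⟩ : k⟮x⟯) ^ 2 * Algebra.trace k⟮x⟯ M (h * b) := by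
        have e2 : x ^ 2 * h * b = (⟨x, mem_adjoin_simple_self k x⟩ : k⟮x⟯) ^ 2 • (h * b) := by
          rw [Algebra.smul_def, mul_assoc]
          rfl
        rw [e2, map_smul, smul_eq_mul]
      rw [e1]
      exact h2 b (fun v hv hvx => hb v hv (by
        rw [map_inv₀]
        exact inv_le_one_of_one_le₀ hvx.le)) v hv hvx) w hw (by
          rw [map_inv₀]
          exact inv_lt_one_of_one_lt₀ hwx) z hz
    have hdt : d x⁻¹ = -(x ^ 2)⁻¹ := by
      have := d.leibniz_inv (a := x)
      rw [this, hdx, smul_eq_mul, mul_one, inv_pow]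
    rw [hdt, Valuation.map_neg, ← map_mul, mul_comm (x ^ 2) h, mul_assoc, mul_inv_cancel₀ (pow_ne_zero 2 hx0),
      mul_one] at key
    exact key

/-- the regular differentials given by a reduced basis -/
theorem s1_dual (hM : IsFun k M) {x : M} (hx : Transcendental k x) [FiniteDimensional k⟮x⟯ M]
    (d : Derivation ℤ M M) (hd : ∀ c : k, d (algebraMap k M c) = 0) (hdx : d x = 1) {n : ℕ}
    (b : Module.Basis (Fin n) k⟮x⟯ M) (a : Fin n → ℕ)
    (hb3 : ∀ y : M, (∀ w ∈ VN k M, w x ≤ 1 → w y ≤ 1) → ∀ i, ∃ p : Polynomial k,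
        ((b.repr y i : k⟮x⟯) : M) = Polynomial.aeval x p)
    (hb4 : ∀ y : M, (∀ w ∈ VN k M, 1 < w x → w y ≤ 1) → ∀ i, ∀ w ∈ VN k M, 1 < w x →
        w (((b.repr y i : k⟮x⟯) : M) * x ^ a i) ≤ 1) (j : Fin n) (r : ℕ) (hr : r + 2 ≤ a j)
    (hs : Algebra.IsSeparable k⟮x⟯ M) :
    Reg k d (x ^ r * b.traceDual j) := by
  classical
  have hx0 : x ≠ 0 := by
    rintro rfl
    exact hx isAlgebraic_zero
  have hT : ∀ y : M, Algebra.trace k⟮x⟯ M (x ^ r * b.traceDual j * y) =
      (⟨x, mem_adjoin_simple_self k x⟩ : k⟮x⟯) ^ r * b.repr y j := by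
    intro y
    have e1 : x ^ r * b.traceDual j * y = (⟨x, mem_adjoin_simple_self k x⟩ : k⟮x⟯) ^ r • (b.traceDual j * y) := by
      rw [Algebra.smul_def, mul_assoc]
      rfl
    rw [e1, map_smul, smul_eq_mul]
    congr 1
    have h1 := b.traceDual.traceDual_repr_apply y j
    rw [Module.Basis.traceDual_traceDual] at h1
    rw [h1, Algebra.traceForm_apply, mul_comm]
  refine s1_reg hM hx d hd hdx _ (fun y hy w hw hwx => ?_) (fun y hy w hw hwx => ?_)
  · rw [hT]
    obtain ⟨p, hp⟩ := hb3 y hy j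
    have : (((⟨x, mem_adjoin_simple_self k x⟩ : k⟮x⟯) ^ r * b.repr y j : k⟮x⟯) : M) = x ^ r * Polynomial.aeval x p := by
      rw [← hp]
      rfl
    rw [this, map_mul, map_pow]
    exact mul_le_one' (pow_le_one' hwx r) (nb_le w hw.2 hwx p)
  · rw [hT]
    have : x ^ 2 * (((⟨x, mem_adjoin_simple_self k x⟩ : k⟮x⟯) ^ r * b.repr y j : k⟮x⟯) : M) =
        (x ^ (a j - (r + 2)))⁻¹ * (((b.repr y j : k⟮x⟯) : M) * x ^ a j) := by
      have h1 : x ^ a j = x ^ (a j - (r + 2)) * x ^ (r + 2) := by rw [← pow_add]; congr 1; omega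
      rw [h1]
      have h2 : x ^ (a j - (r + 2)) ≠ 0 := pow_ne_zero _ hx0
      have h3 : (((⟨x, mem_adjoin_simple_self k x⟩ : k⟮x⟯) ^ r * b.repr y j : k⟮x⟯) : M) =
        x ^ r * ((b.repr y j : k⟮x⟯) : M) := rfl
      rw [h3, pow_add x r 2]
      field_simp
    rw [this, map_mul]
    refine mul_le_one' ?_ (hb4 y hy j w hw hwx)
    rw [map_inv₀, map_pow]
    exact inv_le_one_of_one_le₀ (one_le_pow₀ hwx.le)

/-- the monomials times a basis are independent over the constants -/
theorem s1_li {x : M} (hx : Transcendental k x) {n : ℕ} (b : Module.Basis (Fin n) k⟮x⟯ M) :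
    LinearIndependent k (fun p : ℕ × Fin n => x ^ p.1 * b p.2) := by
  have hx' : Transcendental k (⟨x, mem_adjoin_simple_self k x⟩ : k⟮x⟯) := by
    intro h
    exact hx (h.algebraMap (A := M))
  have h1 := linearIndependent_smul (li_pow hx') b.linearIndependent
  exact h1

theorem s1_pair (hM : IsFun k M) (h : ¬ TwoReg k M) {x : M} (hx : Transcendental k x) [FiniteDimensional k⟮x⟯ M]
    {n : ℕ} (b : Module.Basis (Fin n) k⟮x⟯ M) (a : Fin n → ℕ)
    (hb3 : ∀ y : M, (∀ w ∈ VN k M, w x ≤ 1 → w y ≤ 1) → ∀ i, ∃ p : Polynomial k,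
        ((b.repr y i : k⟮x⟯) : M) = Polynomial.aeval x p)
    (hb4 : ∀ y : M, (∀ w ∈ VN k M, 1 < w x → w y ≤ 1) → ∀ i, ∀ w ∈ VN k M, 1 < w x →
        w (((b.repr y i : k⟮x⟯) : M) * x ^ a i) ≤ 1) (p q : ℕ × Fin n) (hpq : p ≠ q)
    (hp : p.1 + 2 ≤ a p.2) (hq : q.1 + 2 ≤ a q.2) : False := by
  classical
  have hMc : CharZero M := charZero_of_injective_algebraMap (algebraMap k M).injective
  have hFc : CharZero k⟮x⟯ := charZero_of_injective_algebraMap (algebraMap k k⟮x⟯).injective
  have hs : Algebra.IsSeparable k⟮x⟯ M := inferInstance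
  obtain ⟨d, hd, hdx⟩ := exists_der (K := k) (E := M) x hx (Algebra.IsAlgebraic.of_finite _ _)
    (fun _ => 0) (by simp) (by simp) 1
  refine h ⟨x, d, x ^ p.1 * b.traceDual p.2, x ^ q.1 * b.traceDual q.2, hx, hd, hdx, ?_,
    s1_dual hM hx d hd hdx b a hb3 hb4 p.2 p.1 hp hs, s1_dual hM hx d hd hdx b a hb3 hb4 q.2 q.1 hq hs⟩
  have h1 := (s1_li hx b.traceDual).comp (![p, q] : Fin 2 → ℕ × Fin n) (by
    intro i j hij
    fin_cases i <;> fin_cases j <;> simp_all [eq_comm])
  convert h1 using 1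
  funext i
  fin_cases i <;> rfl

/-- the exponents of a reduced basis, genus at most one -/
theorem s1_bound (hM : IsFun k M) (h : ¬ TwoReg k M) {x : M} (hx : Transcendental k x) [FiniteDimensional k⟮x⟯ M]
    {n : ℕ} (b : Module.Basis (Fin n) k⟮x⟯ M) (a : Fin n → ℕ)
    (hb3 : ∀ y : M, (∀ w ∈ VN k M, w x ≤ 1 → w y ≤ 1) → ∀ i, ∃ p : Polynomial k,
        ((b.repr y i : k⟮x⟯) : M) = Polynomial.aeval x p)
    (hb4 : ∀ y : M, (∀ w ∈ VN k M, 1 < w x → w y ≤ 1) → ∀ i, ∀ w ∈ VN k M, 1 < w x →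
        w (((b.repr y i : k⟮x⟯) : M) * x ^ a i) ≤ 1) (i0 : Fin n) (hi0 : a i0 = 0) :
    (∀ i, a i ≤ 2) ∧ ∑ i, a i ≤ n := by
  classical
  have hle : ∀ i, a i ≤ 2 := by
    intro i
    by_contra hcon
    push Not at hcon
    exact s1_pair hM h hx b a hb3 hb4 (0, i) (1, i) (by simp) (by simp; omega) (by simp; omega)
  refine ⟨hle, ?_⟩
  have h1 : ∑ i ∈ Finset.univ.erase i0, (a i - 1) ≤ 1 := by
    by_contra hcon
    push Not at hcon
    have h2 : ∃ i ∈ Finset.univ.erase i0, a i = 2 := by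
      by_contra hc
      push Not at hc
      have : ∑ i ∈ Finset.univ.erase i0, (a i - 1) = 0 := by
        refine Finset.sum_eq_zero fun i hi => ?_
        have := hle i
        have := hc i hi
        omega
      omega
    obtain ⟨i, hi, hai⟩ := h2
    have h3 : ∃ j ∈ (Finset.univ.erase i0).erase i, a j = 2 := by
      by_contra hc
      push Not at hc
      have : ∑ i ∈ (Finset.univ.erase i0).erase i, (a i - 1) = 0 := by
        refine Finset.sum_eq_zero fun i hi => ?_
        have := hle i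
        have := hc i hi
        omega
      have h4 := Finset.add_sum_erase _ (fun i => a i - 1) hi
      omega
    obtain ⟨j, hj, haj⟩ := h3
    have hij : j ≠ i := (Finset.mem_erase.1 hj).1
    exact s1_pair hM h hx b a hb3 hb4 (0, i) (0, j) (by simp [hij.symm]) (by simp; omega) (by simp; omega)
  have h2 := Finset.add_sum_erase Finset.univ a (Finset.mem_univ i0)
  have h3 : ∑ i ∈ Finset.univ.erase i0, a i ≤ ∑ i ∈ Finset.univ.erase i0, ((a i - 1) + 1) :=
    Finset.sum_le_sum fun i _ => by omega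
  rw [Finset.sum_add_distrib, Finset.sum_const, Finset.card_erase_of_mem (Finset.mem_univ _), Finset.card_univ,
    Fintype.card_fin, smul_eq_mul, mul_one] at h3
  have h4 : 0 < n := Fin.pos i0
  omega

end str1

end Pool.Agent.Helper79.RG
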