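import Pool.Agent.Helper79.RG.STR1

set_option autoImplicit false

/-!
# Module STR, part 2: functions with one pole of order at most three, genus at most one
-/

set_option linter.unusedSectionVars false

namespace Pool.Agent.Helper79.RG

open scoped WithZero IntermediateField.algebraAdjoinAdjoin
open IntermediateField IsDedekindDomain
open Pool.Agent.Helper79.FE

section str2

variable {k M : Type*} [Field k] [IsAlgClosed k] [CharZero k] [Field M] [Algebra k M]

/-- the functions of bounded value at a place -/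
def s2_sub {w : Valuation M ℤᵐ⁰} (hw : w ∈ VN k M) (C : ℤᵐ⁰) : Submodule k M where
  carrier := {y | w y ≤ C}
  zero_mem' := by
    show w 0 ≤ C
    rw [map_zero]
    exact zero_le
  add_mem' := fun {a b} ha hb => (w.map_add a b).trans (max_le ha hb)
  smul_mem' := fun c y hy => by
    show w (c • y) ≤ C
    rw [Algebra.smul_def, map_mul]
    exact (mul_le_of_le_one_left' (val_k hw c)).trans hy

theorem s2_mem {w : Valuation M ℤᵐ⁰} (hw : w ∈ VN k M) (C : ℤᵐ⁰) (y : M) : y ∈ s2_sub hw C ↔ w y ≤ C := Iff.rfl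

theorem s2_lt {w : Valuation M ℤᵐ⁰} {c : ℤ} {y : M} (h : w y < WithZero.exp c) : w y ≤ WithZero.exp (c - 1) := by
  by_cases h0 : w y = 0
  · rw [h0]; exact zero_le
  · obtain ⟨s, hs⟩ : ∃ s : ℤ, w y = WithZero.exp s := ⟨_, (WithZero.exp_log h0).symm⟩
    rw [hs, WithZero.exp_lt_exp] at h
    rw [hs, WithZero.exp_le_exp]
    omega

/-- leading coefficients -/
theorem s2_lead (hM : IsFun k M) {w : Valuation M ℤᵐ⁰} (hw : w ∈ VN k M) {c : ℤ} {y y0 : M}
    (hy : w y ≤ WithZero.exp c) (hy0 : w y0 = WithZero.exp c) :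
    ∃ l : k, w (y - algebraMap k M l * y0) ≤ WithZero.exp (c - 1) := by
  have hy00 : y0 ≠ 0 := by
    rintro rfl
    rw [map_zero] at hy0
    exact WithZero.exp_ne_zero hy0.symm
  have h1 : w (y / y0) ≤ 1 := by
    rw [map_div₀, hy0]
    exact div_le_one_of_le₀ hy zero_le
  obtain ⟨l, hl⟩ := exists_res hM hw h1
  refine ⟨l, s2_lt ?_⟩
  have h2 : y - algebraMap k M l * y0 = (y / y0 - algebraMap k M l) * y0 := by
    field_simp
  rw [h2, map_mul, hy0]
  calc w (y / y0 - algebraMap k M l) * WithZero.exp c < 1 * WithZero.exp c :=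
        mul_lt_mul_of_pos_right hl (zero_lt_iff.2 WithZero.exp_ne_zero)
    _ = WithZero.exp c := one_mul _

theorem s2_step (hM : IsFun k M) {w : Valuation M ℤᵐ⁰} (hw : w ∈ VN k M) (V : Submodule k M)
    [FiniteDimensional k V] (c : ℤ) (hV : ∀ y ∈ V, w y ≤ WithZero.exp c) :
    ∃ V' ≤ V, Module.finrank k V ≤ Module.finrank k V' + 1 ∧ ∀ y ∈ V', w y ≤ WithZero.exp (c - 1) := by
  refine ⟨V ⊓ s2_sub hw (WithZero.exp (c - 1)), inf_le_left, ?_, fun y hy => hy.2⟩
  have hfd : FiniteDimensional k (V ⊓ s2_sub hw (WithZero.exp (c - 1)) : Submodule k M) :=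
    Submodule.finiteDimensional_of_le inf_le_left
  by_cases hex : ∃ y0 ∈ V, w y0 = WithZero.exp c
  · obtain ⟨y0, hy0V, hy0⟩ := hex
    have h1 : V ≤ (V ⊓ s2_sub hw (WithZero.exp (c - 1))) ⊔ Submodule.span k {y0} := by
      intro y hy
      obtain ⟨l, hl⟩ := s2_lead hM hw (hV y hy) hy0
      have h2 : y = (y - algebraMap k M l * y0) + l • y0 := by
        rw [Algebra.smul_def]
        ring
      rw [h2]
      refine Submodule.add_mem_sup ⟨?_, hl⟩ (Submodule.smul_mem _ _ (Submodule.mem_span_singleton_self y0))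
      refine sub_mem hy ?_
      rw [← Algebra.smul_def]
      exact Submodule.smul_mem _ _ hy0V
    have h3 := Submodule.finrank_mono h1
    have h4 := Submodule.finrank_add_le_finrank_add_finrank (V ⊓ s2_sub hw (WithZero.exp (c - 1)))
      (Submodule.span k {y0})
    have h5 : Module.finrank k (Submodule.span k {y0}) ≤ 1 := by
      have := finrank_span_le_card (R := k) ({y0} : Set M)
      simpa using this
    omega
  · push Not at hex
    have h1 : V ≤ V ⊓ s2_sub hw (WithZero.exp (c - 1)) := by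
      intro y hy
      exact ⟨hy, s2_lt (lt_of_le_of_ne (hV y hy) (hex y hy))⟩
    have := Submodule.finrank_mono h1
    omega

theorem s2_iter (hM : IsFun k M) {w : Valuation M ℤᵐ⁰} (hw : w ∈ VN k M) (V : Submodule k M)
    [FiniteDimensional k V] (c : ℤ) (hV : ∀ y ∈ V, w y ≤ WithZero.exp c) (m : ℕ) :
    ∃ V' ≤ V, Module.finrank k V ≤ Module.finrank k V' + m ∧ ∀ y ∈ V', w y ≤ WithZero.exp (c - m) := by
  induction m with
  | zero => exact ⟨V, le_rfl, le_rfl, by simpa using hV⟩
  | succ m ih =>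
    obtain ⟨V', h1, h2, h3⟩ := ih
    have hfd : FiniteDimensional k V' := Submodule.finiteDimensional_of_le h1
    obtain ⟨V'', h4, h5, h6⟩ := s2_step hM hw V' _ h3
    refine ⟨V'', h4.trans h1, by omega, fun y hy => ?_⟩
    have := h6 y hy
    push_cast
    rwa [← sub_sub]

theorem s2_fin (hM : IsFun k M) (S : Finset (Valuation M ℤᵐ⁰)) (hS : ∀ w ∈ S, w ∈ VN k M) (V : Submodule k M)
    [FiniteDimensional k V] (c : Valuation M ℤᵐ⁰ → ℤ) (m : Valuation M ℤᵐ⁰ → ℕ)
    (hV : ∀ y ∈ V, ∀ w ∈ S, w y ≤ WithZero.exp (c w)) :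
    ∃ V' ≤ V, Module.finrank k V ≤ Module.finrank k V' + ∑ w ∈ S, m w ∧
      ∀ y ∈ V', ∀ w ∈ S, w y ≤ WithZero.exp (c w - m w) := by
  classical
  induction S using Finset.induction_on with
  | empty => exact ⟨V, le_rfl, by simp, by simp⟩
  | insert w S hw ih =>
    obtain ⟨V', h1, h2, h3⟩ := ih (fun v hv => hS v (Finset.mem_insert_of_mem hv))
      (fun y hy v hv => hV y hy v (Finset.mem_insert_of_mem hv))
    have hfd : FiniteDimensional k V' := Submodule.finiteDimensional_of_le h1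
    obtain ⟨V'', h4, h5, h6⟩ := s2_iter hM (hS w (Finset.mem_insert_self w S)) V' (c w)
      (fun y hy => hV y (h1 hy) w (Finset.mem_insert_self w S)) (m w)
    refine ⟨V'', h4.trans h1, ?_, fun y hy v hv => ?_⟩
    · rw [Finset.sum_insert hw]
      omega
    · rcases Finset.mem_insert.1 hv with rfl | hv
      · exact h6 y hy
      · exact h3 y (h4 hy) v hv

/-- functions with a single pole -/
theorem s2_rie (hM : IsFun k M) (h : ¬ TwoReg k M) {P : Valuation M ℤᵐ⁰} (hP : P ∈ VN k M) (r : ℕ) (hr : r ≤ 3) :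
    ∃ V : Submodule k M, FiniteDimensional k V ∧ r ≤ Module.finrank k V ∧
      ∀ y ∈ V, P y ≤ WithZero.exp (r : ℤ) ∧ ∀ w ∈ VN k M, w ≠ P → w y ≤ 1 := by
  classical
  obtain ⟨z, hz⟩ := hP.1 (WithZero.exp (-1 : ℤ))
  have hzt := z_trans hP hz
  obtain ⟨x, hxz⟩ : ∃ x, x = z⁻¹ := ⟨_, rfl⟩
  have hx : Transcendental k x := by
    rw [hxz]
    exact fun h => hzt (by simpa using h.inv)
  have hPx : P x = WithZero.exp (1 : ℤ) := by
    rw [hxz, map_inv₀, hz, ← WithZero.exp_neg, neg_neg]
  have hfin : FiniteDimensional k⟮x⟯ M := hM.alg hx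
  obtain ⟨n, b, a, hb1, hb2, hb3, hb4, i0, hi0⟩ := reduced_basis hM hx
  obtain ⟨ha2, hasum⟩ := s1_bound hM h hx b a hb3 hb4 i0 hi0
  obtain ⟨S, hS, hdeg⟩ := deg_poles hM hx
  rw [Module.finrank_eq_card_basis b, Fintype.card_fin] at hdeg
  have hlog : ∀ w ∈ S, w x = WithZero.exp (WithZero.log (w x)) ∧ 0 < WithZero.log (w x) := by
    intro w hw
    have h1 := ((hS w).1 hw).2
    have h0 : w x ≠ 0 := (zero_lt_one.trans h1).ne'
    refine ⟨(WithZero.exp_log h0).symm, ?_⟩
    rw [← WithZero.exp_log h0, ← WithZero.exp_zero, WithZero.exp_lt_exp] at h1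
    exact h1
  have hPS : P ∈ S := (hS P).2 ⟨hP, by rw [hPx, ← WithZero.exp_zero, WithZero.exp_lt_exp]; norm_num⟩
  -- the space
  let f : (Σ j : Fin n, Fin (4 - a j)) → M := fun p => x ^ (p.2 : ℕ) * b p.1
  have hf : LinearIndependent k f := by
    have h1 := (s1_li hx b).comp (fun p : (Σ j : Fin n, Fin (4 - a j)) => ((p.2 : ℕ), p.1)) (by
      rintro ⟨j, i⟩ ⟨j', i'⟩ hij
      simp only [Prod.mk.injEq] at hij
      obtain ⟨h1, h2⟩ := hij
      subst h2
      rw [Fin.ext h1])
    exact h1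
  have hcard := finrank_span_eq_card hf
  rw [Fintype.card_sigma] at hcard
  simp only [Fintype.card_fin] at hcard
  have hdim : 3 * n ≤ Module.finrank k (Submodule.span k (Set.range f)) := by
    rw [hcard]
    have h1 : ∑ j, (4 - a j) + ∑ j, a j = ∑ j : Fin n, 4 := by
      rw [← Finset.sum_add_distrib]
      refine Finset.sum_congr rfl fun j _ => ?_
      have := ha2 j
      omega
    rw [Finset.sum_const, Finset.card_univ, Fintype.card_fin, smul_eq_mul] at h1
    omega
  have hfd : FiniteDimensional k (Submodule.span k (Set.range f)) :=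
    FiniteDimensional.span_of_finite k (Set.finite_range f)
  have hreg : ∀ y ∈ Submodule.span k (Set.range f), ∀ w ∈ VN k M, w x ≤ 1 → w y ≤ 1 := by
    intro y hy w hw hwx
    have h1 : Submodule.span k (Set.range f) ≤ s2_sub hw 1 := by
      rw [Submodule.span_le]
      rintro _ ⟨p, rfl⟩
      show w (x ^ (p.2 : ℕ) * b p.1) ≤ 1
      rw [map_mul, map_pow]
      exact mul_le_one' (pow_le_one' hwx _) (hb1 _ w hw hwx)
    exact h1 hy
  have hpol : ∀ y ∈ Submodule.span k (Set.range f), ∀ w ∈ S, w y ≤ WithZero.exp (3 * WithZero.log (w x)) := by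
    intro y hy w hwS
    obtain ⟨hw, hwx⟩ := (hS w).1 hwS
    have h1 : Submodule.span k (Set.range f) ≤ s2_sub hw (WithZero.exp (3 * WithZero.log (w x))) := by
      rw [Submodule.span_le]
      rintro _ ⟨p, rfl⟩
      show w (x ^ (p.2 : ℕ) * b p.1) ≤ _
      have h2 : WithZero.exp (3 * WithZero.log (w x)) = w x ^ 3 := by
        conv_rhs => rw [(hlog w hwS).1]
        rw [← WithZero.exp_nsmul]
        congr 1
      rw [h2, map_mul, map_pow]
      calc w x ^ (p.2 : ℕ) * w (b p.1) ≤ w x ^ (p.2 : ℕ) * w x ^ a p.1 := mul_le_mul_right (hb2 _ w hw hwx) _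
        _ = w x ^ ((p.2 : ℕ) + a p.1) := (pow_add _ _ _).symm
        _ ≤ w x ^ 3 := pow_le_pow_right₀ hwx.le (by have := p.2.2; omega)
    exact h1 hy
  obtain ⟨V', h1, h2, h3⟩ := s2_fin hM S (fun w hw => ((hS w).1 hw).1) (Submodule.span k (Set.range f))
    (fun w => 3 * WithZero.log (w x))
    (fun w => if w = P then 3 - r else (3 * WithZero.log (w x)).toNat) hpol
  have hfd' : FiniteDimensional k V' := Submodule.finiteDimensional_of_le h1
  refine ⟨V', hfd', ?_, fun y hy => ⟨?_, fun w hw hwP => ?_⟩⟩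
  · have h4 : ((∑ w ∈ S, (if w = P then 3 - r else (3 * WithZero.log (w x)).toNat) : ℕ) : ℤ) = 3 * n - r := by
      rw [← hdeg, Finset.mul_sum, ← Finset.add_sum_erase S _ hPS, ← Finset.add_sum_erase S _ hPS, if_pos rfl,
        hPx, WithZero.log_exp]
      push_cast
      have h5 : ∑ w ∈ S.erase P, (if w = P then ((3 - r : ℕ) : ℤ) else (((3 * WithZero.log (w x)).toNat : ℕ) : ℤ)) =
          ∑ w ∈ S.erase P, 3 * WithZero.log (w x) := by
        refine Finset.sum_congr rfl fun w hw => ?_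
        rw [if_neg (Finset.ne_of_mem_erase hw)]
        have := (hlog w (Finset.mem_of_mem_erase hw)).2
        rw [Int.toNat_of_nonneg (by omega)]
      rw [h5, Nat.cast_sub hr]
      push_cast
      ring
    omega
  · have h4 := h3 y hy P hPS
    simp only [if_true, hPx, WithZero.log_exp] at h4
    rw [Nat.cast_sub hr] at h4
    convert h4 using 2
    push_cast
    ring
  · by_cases hwS : w ∈ S
    · have h4 := h3 y hy w hwS
      have h5 := (hlog w hwS).2
      simp only [if_neg hwP] at h4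
      rwa [Int.toNat_of_nonneg (by omega), sub_self, WithZero.exp_zero] at h4
    · refine hreg y (h1 hy) w hw ?_
      by_contra hcon
      push Not at hcon
      exact hwS ((hS w).2 ⟨hw, hcon⟩)

end str2

end Pool.Agent.Helper79.RG
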