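import Pool.Agent.Helper79.RG.LK
import Pool.Agent.Helper79.RG.DS
import Pool.Agent.Helper79.RG.FIN

set_option autoImplicit false

/-!
# Finitely many classes of unramified symbols of bounded degree over a number field
-/

set_option linter.unusedSectionVars false

universe u

namespace Pool.Agent.Helper79.RG

open scoped WithZero IntermediateField.algebraAdjoinAdjoin
open IntermediateField Filter
open Pool.Agent.Helper79.FE
open Pool.Agent.TH826.MK (KQ symb unitPart)
open Pool.Agent.Helper537_Sym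

/-- one entry in `K` -/
theorem one_const' {K L : Type*} [Field K] [CharZero K] [Field L] [Algebra K L] (hL : IsFun K L) (f g : Lˣ)
    (hfg : ∀ v ∈ VN K L, sy f g ∈ unitPart v 2) (hf : ∃ a : K, algebraMap K L a = f)
    (hg : Transcendental K (g : L)) : sy f g = 0 := by
  obtain ⟨a, ha⟩ := hf
  have hfin := hL.alg hg
  obtain ⟨v, hv, hvg⟩ := exists_zero (N := K) (g : L) hg
  have ha0 : a ≠ 0 := by
    rintro rfl
    rw [map_zero] at ha
    exact f.ne_zero ha.symm
  obtain ⟨n, hn, hvn⟩ := tame_tors v f g (hfg v hv) (by rw [← ha]; exact hv.2 a ha0) (ne_of_lt hvg)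
  have h1 : a ^ n = 1 := by
    by_contra hne
    have h2 := hv.2 _ (sub_ne_zero.2 hne)
    rw [map_sub, map_pow, map_one, ha] at h2
    rw [h2] at hvn
    exact lt_irrefl _ hvn
  rw [sy_swap, sy_tors_right g f n hn (Units.ext (by rw [Units.val_pow_eq_pow_val, ← ha, ← map_pow, h1, map_one]; rfl)),
    neg_zero]

/-- the general statement: an arbitrary field of characteristic zero, tame symbols of bounded order -/
theorem classes_core {K L : Type u} [Field K] [CharZero K] [Field L] [Algebra K L] (hL : IsFun K L)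
    (hK : ∀ x : L, IsAlgebraic K x → ∃ c : K, algebraMap K L c = x) (D : ℕ) {N : ℕ} (hN : 0 < N)
    (Pr : Lˣ → Lˣ → Prop) (hPr : ∀ f g, Pr f g → Module.finrank K⟮(f : L)⟯ L ≤ D ∧
      Module.finrank K⟮(g : L)⟯ L ≤ D ∧ (∀ v ∈ VN K L, sy f g ∈ unitPart v 2) ∧
      (Transcendental K (f : L) → Transcendental K (g : L) → ∀ {E : Type u} [Field E] [Algebra L E]
        (w : Valuation E ℤᵐ⁰), (∀ x : K, x ≠ 0 → w (algebraMap L E (algebraMap K L x)) = 1) →
        TameTors w N (algebraMap L E f) (algebraMap L E g))) :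
    {z : KQ L 2 ⧸ LinearMap.range (KQ.map 2 (algebraMap K L)) | ∃ f g : Lˣ, Pr f g ∧
      z = Submodule.Quotient.mk (sy f g)}.Finite := by
  obtain ⟨k, L0, _, _, _, _, _, _, _, _, _, _, _, hL0, htr, hdeg⟩ := exists_bc hL
  obtain ⟨m, e, he⟩ := bounded_degree hL0 D
  have hne : ∀ f : L, Transcendental K f → algebraMap L L0 f ≠ 0 := by
    intro f hf h
    have : f = 0 := (map_eq_zero _).1 h
    rw [this] at hf
    exact hf isAlgebraic_zero
  have hfin := finite_classes hL0 e hN
  have hLL0 : Algebra.IsAlgebraic L L0 := by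
    obtain ⟨x, hx, -⟩ := hL
    have := hL0.alg (htr x hx)
    exact alg_bc (K := K) (k := k) x
  -- the map on quotients
  let Φ : (KQ L 2 ⧸ LinearMap.range (KQ.map 2 (algebraMap K L))) →ₗ[ℚ]
      (KQ L0 2 ⧸ LinearMap.range (KQ.map 2 (algebraMap k L0))) :=
    Submodule.mapQ _ _ (KQ.map 2 (algebraMap L L0)) (by
      rintro _ ⟨y, rfl⟩
      refine ⟨KQ.map 2 (algebraMap K k) y, ?_⟩
      rw [kmap_map (algebraMap K k) (algebraMap k L0) (algebraMap K L0)
        (fun x => (IsScalarTower.algebraMap_apply K k L0 x).symm),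
        kmap_map (algebraMap K L) (algebraMap L L0) (algebraMap K L0)
        (fun x => (IsScalarTower.algebraMap_apply K L L0 x).symm)])
  have hΦ : Function.Injective Φ := by
    rw [injective_iff_map_eq_zero]
    intro z hz
    obtain ⟨δ, rfl⟩ := Submodule.Quotient.mk_surjective _ z
    have h1 : Φ (Submodule.Quotient.mk δ) = Submodule.Quotient.mk (KQ.map 2 (algebraMap L L0) δ) := rfl
    rw [h1, Submodule.Quotient.mk_eq_zero] at hz
    obtain ⟨y, hy⟩ := hz
    rw [Submodule.Quotient.mk_eq_zero]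
    exact descent hK δ y hy.symm
  refine ((hfin.union (Set.finite_singleton 0)).preimage hΦ.injOn).subset ?_
  rintro z ⟨f, g, hfg, rfl⟩
  obtain ⟨hfd, hgd, hun, htame⟩ := hPr f g hfg
  by_cases hf : Transcendental K (f : L)
  · by_cases hg : Transcendental K (g : L)
    · left
      refine ⟨Units.map ((algebraMap L L0 : L →+* L0) : L →* L0) f, Units.map ((algebraMap L L0 : L →+* L0) : L →* L0) g,
        he _ (htr _ hf) ((hdeg _ hf).trans hfd), he _ (htr _ hg) ((hdeg _ hg).trans hgd), fun v hv => ?_, ?_⟩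
      · refine htame hf hg v fun x hx => ?_
        rw [← IsScalarTower.algebraMap_apply K L L0, IsScalarTower.algebraMap_apply K k L0]
        exact hv.2 _ ((map_ne_zero _).2 hx)
      · show Submodule.Quotient.mk (KQ.map 2 (algebraMap L L0) (sy f g)) = _
        rw [map_sy']
    · right
      have hg' : ∃ a : K, algebraMap K L a = g := by
        obtain ⟨c, hc⟩ := hK g (not_not.1 hg)
        exact ⟨c, hc⟩
      have h1 : sy f g = 0 := by
        rw [sy_swap, one_const' hL g f (fun v hv => unitPart_swap v f g (hun v hv)) hg' hf, neg_zero]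
      rw [h1, Submodule.Quotient.mk_zero, map_zero]
      rfl
  · right
    obtain ⟨a, ha⟩ := hK f (not_not.1 hf)
    by_cases hg : Transcendental K (g : L)
    · rw [one_const' hL f g hun ⟨a, ha⟩ hg, Submodule.Quotient.mk_zero, map_zero]
      rfl
    · obtain ⟨b, hb⟩ := hK g (not_not.1 hg)
      obtain ⟨a', ha'⟩ := unit_sub a f ha
      obtain ⟨b', hb'⟩ := unit_sub b g hb
      have h1 : (Submodule.Quotient.mk (sy f g) : KQ L 2 ⧸ LinearMap.range (KQ.map 2 (algebraMap K L))) = 0 := by
        rw [Submodule.Quotient.mk_eq_zero]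
        exact ⟨sy a' b', by rw [map_sy', ha', hb']⟩
      rw [h1, map_zero]
      rfl

/-- **finitely many classes over a number field** -/
theorem classes_nf {K L : Type u} [Field K] [NumberField K] [Field L] [Algebra K L] (hL : IsFun K L)
    (hK : ∀ x : L, IsAlgebraic K x → ∃ c : K, algebraMap K L c = x) (D : ℕ) :
    {z : KQ L 2 ⧸ LinearMap.range (KQ.map 2 (algebraMap K L)) | ∃ f g : Lˣ, (Module.finrank K⟮(f : L)⟯ L ≤ D ∧
      Module.finrank K⟮(g : L)⟯ L ≤ D ∧ ∀ v ∈ VN K L, sy f g ∈ unitPart v 2) ∧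
      z = Submodule.Quotient.mk (sy f g)}.Finite := by
  obtain ⟨N, hN, hbound⟩ := tame_bound.{u, u, u} K D
  refine classes_core hL hK D hN _ fun f g ⟨hfd, hgd, hun⟩ => ⟨hfd, hgd, hun, ?_⟩
  intro hf hg E _ _ w hw
  exact hbound f g hf (hL.alg hf) hfd hg (hL.alg hg) hgd hun w hw

/-- **finitely many classes**, tame symbols of bounded order over an arbitrary field of characteristic zero -/
theorem classes_general {K L : Type u} [Field K] [CharZero K] [Field L] [Algebra K L] (hL : IsFun K L)
    (hK : ∀ x : L, IsAlgebraic K x → ∃ c : K, algebraMap K L c = x) (D : ℕ) {N : ℕ} (hN : 0 < N) :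
    {z : KQ L 2 ⧸ LinearMap.range (KQ.map 2 (algebraMap K L)) | ∃ f g : Lˣ, (Module.finrank K⟮(f : L)⟯ L ≤ D ∧
      Module.finrank K⟮(g : L)⟯ L ≤ D ∧ ∀ v ∈ VN K L, TameTors v N (f : L) (g : L)) ∧
      z = Submodule.Quotient.mk (sy f g)}.Finite := by
  refine classes_core hL hK D hN _ fun f g ⟨hfd, hgd, hun⟩ => ⟨hfd, hgd, fun v hv => tame_unit v hv.1 hN f g (hun v hv), ?_⟩
  intro hf hg E _ _ w hw
  exact tame_res f.ne_zero g.ne_zero hun w hw

end Pool.Agent.Helper79.RG
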