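import Pool.Agent.Helper79.RG.BC

set_option autoImplicit false

/-!
# Transfer of tame symbols and of regular differentials to an extension
-/

set_option linter.unusedSectionVars false

namespace Pool.Agent.Helper79.RG

open scoped WithZero IntermediateField.algebraAdjoinAdjoin
open IntermediateField IsDedekindDomain Filter
open Pool.Agent.Helper79.FE

universe u v w

/-- `M / k` has two regular differentials `h₁ dx`, `h₂ dx` whose quotient is not constant -/
def TwoRegT (k M : Type*) [Field k] [Field M] [Algebra k M] : Prop :=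
  ∃ (x : M) (d : Derivation ℤ M M) (h₁ h₂ : M), Transcendental k x ∧ (∀ c : k, d (algebraMap k M c) = 0) ∧
    d x = 1 ∧ Transcendental k (h₁ / h₂) ∧ Reg k d h₁ ∧ Reg k d h₂

theorem TwoRegT.twoReg {k M : Type*} [Field k] [Field M] [Algebra k M] (h : TwoRegT k M) : TwoReg k M := by
  obtain ⟨x, d, h₁, h₂, hx, hd, hdx, ht, hr1, hr2⟩ := h
  refine ⟨x, d, h₁, h₂, hx, hd, hdx, ?_, hr1, hr2⟩
  have h20 : h₂ ≠ 0 := by
    rintro rfl
    rw [div_zero] at ht
    exact ht isAlgebraic_zero
  rw [LinearIndependent.pair_iff]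
  intro s t hst
  rw [Algebra.smul_def, Algebra.smul_def] at hst
  have hs : s = 0 := by
    by_contra hs
    have hs' : algebraMap k M s ≠ 0 := (map_ne_zero _).2 hs
    have h1 : h₁ / h₂ = algebraMap k M (-t / s) := by
      rw [map_div₀, map_neg, div_eq_div_iff h20 hs']
      linear_combination hst
    rw [h1] at ht
    exact ht (isAlgebraic_algebraMap _)
  rw [hs, map_zero, zero_mul, zero_add, mul_eq_zero] at hst
  exact ⟨hs, (map_eq_zero _).1 (hst.resolve_right h20)⟩

/-- a nontrivial valuation is a power of a normalised one -/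
theorem norm_pow {L : Type*} [Field L] (w : Valuation L ℤᵐ⁰) (hw : ∃ a : L, a ≠ 0 ∧ w a ≠ 1) :
    ∃ (v : Valuation L ℤᵐ⁰) (e : ℕ), 0 < e ∧ Function.Surjective v ∧ (∀ a : L, v a = 1 ↔ w a = 1) ∧
      ∀ a : L, a ≠ 0 → WithZero.log (w a) = e * WithZero.log (v a) := by
  obtain ⟨v, hvs, hv1⟩ := exists_norm w hw
  obtain ⟨T, hT⟩ := hvs (WithZero.exp (-1 : ℤ))
  have hT0 : T ≠ 0 := by
    rintro rfl
    rw [map_zero] at hT
    exact WithZero.exp_ne_zero hT.symm
  have hwT0 : w T ≠ 0 := (Valuation.ne_zero_iff w).2 hT0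
  have hwT : w T < 1 := lt_of_same (v := v) (w := w) (fun a => (hv1 a).symm) (by
    rw [hT, ← WithZero.exp_zero, WithZero.exp_lt_exp]; norm_num)
  obtain ⟨s, hs⟩ : ∃ s : ℤ, w T = WithZero.exp s := ⟨_, (WithZero.exp_log hwT0).symm⟩
  have hs0 : s < 0 := by rwa [hs, ← WithZero.exp_zero, WithZero.exp_lt_exp] at hwT
  obtain ⟨e, he⟩ := Int.eq_ofNat_of_zero_le (a := -s) (by omega)
  refine ⟨v, e, by omega, hvs, hv1, fun a ha => ?_⟩
  have hva : v a ≠ 0 := (Valuation.ne_zero_iff v).2 ha
  have hwa : w a ≠ 0 := (Valuation.ne_zero_iff w).2 ha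
  obtain ⟨m, hm⟩ : ∃ m : ℤ, v a = WithZero.exp m := ⟨_, (WithZero.exp_log hva).symm⟩
  obtain ⟨n, hn⟩ : ∃ n : ℤ, w a = WithZero.exp n := ⟨_, (WithZero.exp_log hwa).symm⟩
  have h1 : v (a * T ^ m) = 1 := by
    rw [map_mul, map_zpow₀, hT, hm, ← WithZero.exp_zsmul, ← WithZero.exp_add, smul_eq_mul,
      show m + m * -1 = 0 by ring, WithZero.exp_zero]
  have h2 := (hv1 _).1 h1
  rw [map_mul, map_zpow₀, hs, hn, ← WithZero.exp_zsmul, ← WithZero.exp_add, smul_eq_mul, ← WithZero.exp_zero,
    WithZero.exp_inj] at h2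
  rw [hm, hn, WithZero.log_exp, WithZero.log_exp, ← he]
  linarith

/-- transfer of the tame symbol -/
theorem tame_res {K L E : Type*} [Field K] [Field L] [Field E] [Algebra K L] [Algebra L E] {N : ℕ} {f g : L}
    (hf0 : f ≠ 0) (hg0 : g ≠ 0) (h : ∀ v ∈ VN K L, TameTors v N f g) (w : Valuation E ℤᵐ⁰)
    (hw : ∀ x : K, x ≠ 0 → w (algebraMap L E (algebraMap K L x)) = 1) :
    TameTors w N (algebraMap L E f) (algebraMap L E g) := by
  by_cases htriv : ∀ a : L, a ≠ 0 → w (algebraMap L E a) = 1
  · unfold TameTors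
    rw [htriv f hf0, htriv g hg0]
    have h1 : WithZero.log (1 : ℤᵐ⁰) = 0 := by rw [← WithZero.exp_zero, WithZero.log_exp]
    rw [h1, mul_zero, zpow_zero, zpow_zero, zpow_zero, mul_one, div_one, one_pow, sub_self, map_zero]
    exact zero_lt_one
  push Not at htriv
  obtain ⟨v, e, he, hvs, hv1, hvl⟩ := norm_pow (w.comap (algebraMap L E)) htriv
  have hv : v ∈ VN K L := ⟨hvs, fun x hx => (hv1 _).2 (hw x hx)⟩
  have h1 := h v hv
  have hlt : ∀ a : L, v a < 1 → w (algebraMap L E a) < 1 := fun a ha =>
    lt_of_same (v := v) (w := w.comap (algebraMap L E)) (fun a => (hv1 a).symm) ha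
  unfold TameTors at h1 ⊢
  have hlf : WithZero.log (w (algebraMap L E f)) = e * WithZero.log (v f) := hvl f hf0
  have hlg : WithZero.log (w (algebraMap L E g)) = e * WithZero.log (v g) := hvl g hg0
  set i := WithZero.log (v f) with hi
  set j := WithZero.log (v g) with hj
  rw [hlf, hlg]
  set X : L := (-1) ^ (i * j) * f ^ j / g ^ i with hX
  have hsign : ((-1 : L)) ^ ((e : ℤ) * i * (e * j)) = ((-1 : L) ^ (i * j)) ^ (e : ℤ) := by
    rw [← zpow_mul]
    have h2 : (e : ℤ) * i * (e * j) = i * j * e + (e * (e - 1)) * (i * j) := by ring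
    obtain ⟨q, hq⟩ := Int.even_mul_pred_self (e : ℤ)
    rw [h2, hq, zpow_add₀ (by norm_num), ← two_mul, mul_assoc 2 q, zpow_mul (-1 : L) 2]
    norm_num
  have hX2 : (-1 : L) ^ ((e : ℤ) * i * (e * j)) * f ^ ((e : ℤ) * j) / g ^ ((e : ℤ) * i) = X ^ e := by
    rw [hX, hsign, mul_comm (e : ℤ) j, mul_comm (e : ℤ) i, zpow_mul f, zpow_mul g, ← mul_zpow, ← div_zpow,
      zpow_natCast]
  have hX3 : (-1 : E) ^ ((e : ℤ) * i * (e * j)) * algebraMap L E f ^ ((e : ℤ) * j) / algebraMap L E g ^ ((e : ℤ) * i) =
      algebraMap L E (X ^ e) := by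
    rw [← hX2, map_div₀, map_mul, map_zpow₀, map_zpow₀, map_zpow₀, map_neg, map_one]
  rw [hX3, ← map_pow, ← map_one (algebraMap L E), ← map_sub]
  refine hlt _ ?_
  -- `X ^ (e N) - 1` is divisible by `X ^ N - 1`
  have hXN : v (X ^ N) ≤ 1 := by
    have : X ^ N = (X ^ N - 1) + 1 := by ring
    rw [this]
    exact (Valuation.map_add v _ _).trans (max_le h1.le (by rw [map_one]))
  have hfac : (X ^ e) ^ N - 1 = (X ^ N - 1) * ∑ i ∈ Finset.range e, (X ^ N) ^ i := by
    rw [mul_comm, geom_sum_mul, ← pow_mul, ← pow_mul, mul_comm e N]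
  rw [hfac, map_mul]
  refine (mul_le_of_le_one_right' ?_).trans_lt h1
  refine Valuation.map_sum_le v fun i _ => ?_
  rw [map_pow]
  exact pow_le_one₀ zero_le hXN

/-- `K(f, g)` is a function field -/
theorem isFun_pair {K L : Type*} [Field K] [CharZero K] [Field L] [Algebra K L] (hL : IsFun K L) {f g : L}
    (x : IntermediateField.adjoin K {f, g}) (hx : Transcendental K x) : IsFun K (IntermediateField.adjoin K {f, g}) := by
  have key : ∀ t : L, t ∈ ({f, g} : Set L) → Transcendental K t → IsFun K (IntermediateField.adjoin K {f, g}) := by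
    intro t ht htt
    have hfin := hL.alg htt
    have hta : Algebra.IsAlgebraic K⟮t⟯ L := Algebra.IsAlgebraic.of_finite _ _
    obtain ⟨h1, h2⟩ := isFun_adjoin htt hta {f, g} (Set.toFinite _) ht
    exact ⟨_, h1, h2⟩
  by_cases hcf : Transcendental K f
  · exact key _ (Or.inl rfl) hcf
  by_cases hcg : Transcendental K g
  · exact key _ (Or.inr rfl) hcg
  exfalso
  rw [Transcendental, not_not] at hcf hcg
  have h1 : Algebra.IsAlgebraic K (IntermediateField.adjoin K {f, g}) := by
    refine IntermediateField.isAlgebraic_adjoin fun y hy => ?_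
    rcases hy with rfl | hy
    · exact hcf.isIntegral
    · rw [Set.mem_singleton_iff] at hy
      rw [hy]
      exact hcg.isIntegral
  exact hx (h1.isAlgebraic x)

section bc

variable {K : Type*} {L k L0 : Type*} [Field K] [CharZero K] [Field L] [Algebra K L] [Field k] [IsAlgClosed k]
  [CharZero k] [Field L0] [Algebra K k] [Algebra.IsAlgebraic K k] [Algebra k L0] [Algebra L L0] [Algebra K L0]
  [IsScalarTower K k L0] [IsScalarTower K L L0]

/-- transfer of regular differentials -/
theorem twoReg_bc (hL0 : IsFun k L0) (hL : IsFun K L)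
    (htr : ∀ f : L, Transcendental K f → Transcendental k (algebraMap L L0 f)) {f g : L}
    (h : TwoRegT K (IntermediateField.adjoin K {f, g})) :
    TwoRegT k (IntermediateField.adjoin k {algebraMap L L0 f, algebraMap L L0 g}) := by
  set M := IntermediateField.adjoin K {f, g} with hM
  set M' := IntermediateField.adjoin k {algebraMap L L0 f, algebraMap L L0 g} with hM'
  obtain ⟨x, d, h₁, h₂, hx, hd, hdx, ht, hr1, hr2⟩ := h
  have hmem : ∀ a : L, a ∈ M → algebraMap L L0 a ∈ M' := by
    intro a ha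
    induction ha using IntermediateField.adjoin_induction with
    | mem x hx =>
      rcases hx with rfl | hx
      · exact IntermediateField.subset_adjoin _ _ (Or.inl rfl)
      · rw [Set.mem_singleton_iff.1 hx]
        exact IntermediateField.subset_adjoin _ _ (Or.inr rfl)
    | algebraMap x =>
      rw [← IsScalarTower.algebraMap_apply K L L0, IsScalarTower.algebraMap_apply K k L0]
      exact IntermediateField.algebraMap_mem _ _
    | add x y _ _ hx hy => rw [map_add]; exact add_mem hx hy
    | mul x y _ _ hx hy => rw [map_mul]; exact mul_mem hx hy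
    | inv x _ h => rw [map_inv₀]; exact inv_mem h
  let j : M →+* M' :=
    { toFun := fun a => ⟨algebraMap L L0 a, hmem a a.2⟩
      map_one' := Subtype.ext (map_one _)
      map_mul' := fun a b => Subtype.ext (map_mul _ _ _)
      map_zero' := Subtype.ext (map_zero _)
      map_add' := fun a b => Subtype.ext (map_add _ _ _) }
  have hjK : ∀ c : K, j (algebraMap K M c) = algebraMap k M' (algebraMap K k c) := fun c => by
    refine Subtype.ext ?_
    show algebraMap L L0 (algebraMap K L c) = algebraMap k L0 (algebraMap K k c)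
    rw [← IsScalarTower.algebraMap_apply K L L0, IsScalarTower.algebraMap_apply K k L0]
  have hinjM : Function.Injective (algebraMap M L) := (algebraMap M L).injective
  -- transcendence
  have htM : ∀ a : M, Transcendental K a → Transcendental k (j a) := by
    intro a ha h1
    have h2 : Transcendental K (a : L) := fun h3 => ha ((isAlgebraic_algebraMap_iff hinjM).1 h3)
    refine htr _ h2 ?_
    obtain ⟨p, hp0, hp⟩ := h1
    refine ⟨p, hp0, ?_⟩
    have h3 := congrArg (algebraMap M' L0) hp
    rw [Polynomial.aeval_def, Polynomial.hom_eval₂, map_zero] at h3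
    rw [Polynomial.aeval_def]
    exact h3
  -- function fields
  have hMc : CharZero M := charZero_of_injective_algebraMap (algebraMap K M).injective
  have hM'c : CharZero M' := charZero_of_injective_algebraMap (algebraMap k M').injective
  have hjx := htM x hx
  have hfunM : IsFun K M := isFun_pair hL x hx
  have hfunM' : IsFun k M' := isFun_pair hL0 (j x) hjx
  have hfinx0 := hfunM.alg hx
  have halx0 : Algebra.IsAlgebraic K⟮x⟯ M := Algebra.IsAlgebraic.of_finite _ _
  have hfinx := hfunM'.alg hjx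
  have halx : Algebra.IsAlgebraic k⟮j x⟯ M' := Algebra.IsAlgebraic.of_finite _ _
  obtain ⟨d', hd'1, hd'2⟩ := exists_der (K := k) (E := M') (j x) hjx halx (fun _ => 0) (by simp) (by simp) 1
  have hcomp : ∀ a : M, d' (j a) = j (d a) := by
    intro a
    have h1 := comp_der (k := K) (K0 := M) (t := x) halx0 d hd hdx j d' (fun c => by rw [hjK]; exact hd'1 _) a
    rw [h1, hd'2, one_mul]
  -- regularity
  have hreg : ∀ h : M, Reg K d h → Reg k d' (j h) := by
    intro h hr w hw z hz
    have hwK : ∀ c : K, c ≠ 0 → w (j (algebraMap K M c)) = 1 := fun c hc => by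
      rw [hjK]
      exact hw.2 _ ((map_ne_zero _).2 hc)
    have hnt : ∃ a : M, a ≠ 0 ∧ w (j a) ≠ 1 := by
      by_contra hcon
      push Not at hcon
      -- `w` is trivial on `M`, hence on `M'`, which is algebraic over `M`
      let aMM' : Algebra M M' := j.toAlgebra
      have hwM : w ∈ VN M M' := ⟨hw.1, hcon⟩
      have hal : ∀ a : L0, ∀ ha : a ∈ M', IsAlgebraic M (⟨a, ha⟩ : M') := by
        intro a ha
        induction ha using IntermediateField.adjoin_induction with
        | mem y hy =>
          rcases hy with rfl | hy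
          · exact isAlgebraic_algebraMap (A := M') (⟨f, IntermediateField.subset_adjoin _ _ (Or.inl rfl)⟩ : M)
          · rw [Set.mem_singleton_iff] at hy
            subst hy
            exact isAlgebraic_algebraMap (A := M') (⟨g, IntermediateField.subset_adjoin _ _ (Or.inr rfl)⟩ : M)
        | algebraMap c =>
          have hcK : IsAlgebraic K c := Algebra.IsAlgebraic.isAlgebraic c
          obtain ⟨p, hp0, hp⟩ := hcK
          refine ⟨p.map (algebraMap K M), (Polynomial.map_ne_zero_iff (algebraMap K M).injective).2 hp0, ?_⟩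
          rw [Polynomial.aeval_def, Polynomial.eval₂_map]
          have h1 : (algebraMap M M').comp (algebraMap K M) = (algebraMap k M').comp (algebraMap K k) :=
            RingHom.ext hjK
          rw [h1]
          have h2 := congrArg (algebraMap k M') hp
          rw [Polynomial.aeval_def, Polynomial.hom_eval₂, map_zero] at h2
          exact h2
        | add a b ha hb hx hy => exact hx.add hy
        | mul a b ha hb hx hy => exact hx.mul hy
        | inv a ha hx => exact hx.inv
      have hz0 : z ≠ 0 := z_ne hz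
      have h1 := val_alg hwM hz0 (hal z z.2)
      rw [hz, ← WithZero.exp_zero, WithZero.exp_inj] at h1
      omega
    obtain ⟨v, e, he, hvs, hv1, hvl⟩ := norm_pow (w.comap j) hnt
    have hv : v ∈ VN K M := ⟨hvs, fun c hc => (hv1 _).2 (hwK c hc)⟩
    obtain ⟨τ, hτ⟩ := hvs (WithZero.exp (-1 : ℤ))
    have h1 := hr v hv τ hτ
    have hτt : Transcendental K τ := unif_trans hv hτ
    have hfinτ := hfunM.alg hτt
    have hdτ : d τ ≠ 0 := der_ne (k := K) d hd hdx (Algebra.IsAlgebraic.of_finite K⟮τ⟯ M)
    have hjdτ : j (d τ) ≠ 0 := (map_ne_zero _).2 hdτ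
    have h2 : v (h / d τ) ≤ 1 := by
      rw [map_div₀]
      exact (div_le_one₀ (zero_lt_iff.2 ((Valuation.ne_zero_iff v).2 hdτ))).2 h1
    have h3 : w (j (h / d τ)) ≤ 1 := le_of_same (v := v) (w := w.comap j) (fun a => (hv1 a).symm) h2
    rw [map_div₀, map_div₀] at h3
    have h4 := (div_le_one₀ (zero_lt_iff.2 ((Valuation.ne_zero_iff w).2 hjdτ))).1 h3
    refine h4.trans ?_
    rw [← hcomp]
    have h5 : w (j τ) < 1 := lt_of_same (v := v) (w := w.comap j) (fun a => (hv1 a).symm) (by
      rw [hτ, ← WithZero.exp_zero, WithZero.exp_lt_exp]; norm_num)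
    exact dx_le hfunM' hw hz d' hd'1 hd'2 h5.le
  exact ⟨j x, d', j h₁, j h₂, hjx, hd'1, hd'2, by rw [← map_div₀]; exact htM _ ht, hreg _ hr1, hreg _ hr2⟩

end bc

end Pool.Agent.Helper79.RG
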