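import Pool.Agent.Helper79.RG.U1b

set_option autoImplicit false

/-!
# Module U1: places of an ultraproduct are ultraproducts of places
-/

set_option linter.unusedSectionVars false

namespace Pool.Agent.Helper79.RG

open scoped WithZero IntermediateField.algebraAdjoinAdjoin
open IntermediateField IsDedekindDomain Filter
open Pool.Agent.Helper79.FE

variable {I : Type*}

section

variable {k K L0 L : Type*} [Field k] [IsAlgClosed k] [CharZero k] [Field K] [IsAlgClosed K] [Field L0] [Field L]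
  [Algebra k K] [Algebra k L0] [Algebra k L] [Algebra K L] [Algebra L0 L] [IsScalarTower k K L]
  [IsScalarTower k L0 L]

/-- the affine coordinate ring is finitely presented -/
theorem fp_closure (x : L0) (hx : Transcendental k x) [FiniteDimensional k⟮x⟯ L0] :
    Algebra.FiniteType k (integralClosure (Algebra.adjoin k {x}) L0) ∧
      Algebra.FinitePresentation k (integralClosure (Algebra.adjoin k {x}) L0) := by
  have hpid := pid_adjoin x hx
  have hsep : Algebra.IsSeparable k⟮x⟯ L0 := by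
    have : CharZero k⟮x⟯ := charZero_of_injective_algebraMap (algebraMap k k⟮x⟯).injective
    infer_instance
  have h1 : Algebra.FiniteType k (Algebra.adjoin k {x}) := by
    rw [← Subalgebra.fg_iff_finiteType]
    exact ⟨{x}, by simp⟩
  have h2 : Module.Finite (Algebra.adjoin k {x}) (integralClosure (Algebra.adjoin k {x}) L0) :=
    IsIntegralClosure.finite (Algebra.adjoin k {x}) k⟮x⟯ L0 (integralClosure (Algebra.adjoin k {x}) L0)
  have h3 : Algebra.FiniteType k (integralClosure (Algebra.adjoin k {x}) L0) :=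
    Algebra.FiniteType.trans h1 inferInstance
  exact ⟨h3, Algebra.FinitePresentation.of_finiteType.1 h3⟩

/-- the residue map -/
theorem exists_resmap (hP : IsProd k K L0 L) (hL0 : IsFun k L0) (v : Valuation L ℤᵐ⁰) (hv : v ∈ VN K L)
    (htriv : ∀ h : L0, h ≠ 0 → v (algebraMap L0 L h) = 1) :
    ∃ φ0 : L0 →ₐ[k] K, ∀ h : L0, v (algebraMap L0 L h - algebraMap K L (φ0 h)) < 1 := by
  have hcK : CharZero K := charZero_of_injective_algebraMap (algebraMap k K).injective
  obtain ⟨x, hx, hfin⟩ := hL0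
  have hfinL := hP.fin hx
  have hL : IsFun K L := ⟨algebraMap L0 L x, hP.trans hx, hfinL⟩
  have hle : ∀ h : L0, v (algebraMap L0 L h) ≤ 1 := by
    intro h
    by_cases h0 : h = 0
    · rw [h0, map_zero, map_zero]; exact zero_le_one
    · rw [htriv h h0]
  choose f hf using fun h : L0 => exists_res hL hv (hle h)
  have huniq : ∀ c c' : K, v (algebraMap K L c - algebraMap K L c') < 1 → c = c' := by
    intro c c' h
    by_contra hne
    rw [← map_sub, hv.2 _ (sub_ne_zero.2 hne)] at h
    exact lt_irrefl _ h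
  have huniq2 : ∀ (h : L0) (c : K), v (algebraMap L0 L h - algebraMap K L c) < 1 → f h = c := by
    intro h c hc
    apply huniq
    have h1 : algebraMap K L (f h) - algebraMap K L c =
        (algebraMap L0 L h - algebraMap K L c) - (algebraMap L0 L h - algebraMap K L (f h)) := by ring
    rw [h1]
    exact (Valuation.map_sub v _ _).trans_lt (max_lt hc (hf h))
  have hf1 : ∀ h, v (algebraMap K L (f h)) ≤ 1 := fun h => val_k hv _
  refine ⟨{ toFun := f, map_one' := ?_, map_mul' := ?_, map_zero' := ?_, map_add' := ?_, commutes' := ?_ }, hf⟩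
  · apply huniq2
    rw [map_one, map_one, sub_self, map_zero]
    exact zero_lt_one
  · intro a b
    apply huniq2
    have h1 : algebraMap L0 L (a * b) - algebraMap K L (f a * f b) =
        algebraMap L0 L a * (algebraMap L0 L b - algebraMap K L (f b)) +
          algebraMap K L (f b) * (algebraMap L0 L a - algebraMap K L (f a)) := by
      rw [map_mul, map_mul]; ring
    rw [h1]
    refine Valuation.map_add_lt v ?_ ?_
    · rw [map_mul]
      exact (mul_le_of_le_one_left' (hle a)).trans_lt (hf b)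
    · rw [map_mul]
      exact (mul_le_of_le_one_left' (hf1 b)).trans_lt (hf a)
  · apply huniq2
    rw [map_zero, map_zero, sub_self, map_zero]
    exact zero_lt_one
  · intro a b
    apply huniq2
    have h1 : algebraMap L0 L (a + b) - algebraMap K L (f a + f b) =
        (algebraMap L0 L a - algebraMap K L (f a)) + (algebraMap L0 L b - algebraMap K L (f b)) := by
      rw [map_add, map_add]; ring
    rw [h1]
    exact Valuation.map_add_lt v (hf a) (hf b)
  · intro c
    apply huniq2
    rw [← IsScalarTower.algebraMap_apply, ← IsScalarTower.algebraMap_apply, sub_self, map_zero]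
    exact zero_lt_one

theorem RR_le {v : Valuation L ℤᵐ⁰} (hv : v ∈ VN K L) (htriv : ∀ h : L0, h ≠ 0 → v (algebraMap L0 L h) = 1)
    {p : L} (hp : p ∈ RR K L0 L) : v p ≤ 1 := by
  induction hp using Submodule.span_induction with
  | mem x hx =>
    obtain ⟨h, rfl⟩ := hx
    by_cases h0 : h = 0
    · rw [h0, map_zero, map_zero]; exact zero_le_one
    · rw [htriv h h0]
  | zero => rw [map_zero]; exact zero_le_one
  | add x y _ _ hx hy => exact (Valuation.map_add v x y).trans (max_le hx hy)
  | smul c x _ hx =>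
    rw [Algebra.smul_def, map_mul]
    exact mul_le_one' (val_k hv c) hx

theorem los_aux {B : Type*} [CommRing B] [IsDedekindDomain B] [Algebra k B] [Algebra B L0]
    [IsScalarTower k B L0] [IsFractionRing B L0] (hP : IsProd k K L0 L) (x : L0) (hx : Transcendental k x)
    [FiniteDimensional k⟮x⟯ L0] (U : Ultrafilter I)
    (φ : K ≃+* (U : Filter I).Germ k) (ψ : L →+* (U : Filter I).Germ L0)
    (hψ1 : ∀ (c : K) (s : I → k), φ c = (s : (U : Filter I).Germ k) →
      ψ (algebraMap K L c) = ((fun n => algebraMap k L0 (s n) : I → L0) : (U : Filter I).Germ L0))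
    (hψ2 : ∀ h : L0, ψ (algebraMap L0 L h) = ((fun _ => h : I → L0) : (U : Filter I).Germ L0))
    (v : Valuation L ℤᵐ⁰) (hv : v ∈ VN K L) (htriv : ∀ h : L0, h ≠ 0 → v (algebraMap L0 L h) = 1)
    (φ0 : L0 →ₐ[k] K) (hφ0 : ∀ h : L0, v (algebraMap L0 L h - algebraMap K L (φ0 h)) < 1)
    (Φ : I → (B →ₐ[k] k))
    (hΦ : ∀ b : B, φ (φ0 (algebraMap B L0 b)) = ((fun n => Φ n b : I → k) : (U : Filter I).Germ k))
    (b0 : B) (hb0x : algebraMap B L0 b0 = x) (vn : I → Valuation L0 ℤᵐ⁰) (hvn : ∀ n, vn n ∈ VN k L0)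
    (hv1 : ∀ n (b : B), vn n (algebraMap B L0 b) ≤ 1)
    (hv2 : ∀ n (b : B), Φ n b = 0 → vn n (algebraMap B L0 b) < 1)
    (hv3 : ∀ n (b : B), Φ n b ≠ 0 → vn n (algebraMap B L0 b) = 1)
    (d : Derivation ℤ L0 L0) (D : Derivation ℤ L L) (hd : ∀ c : k, d (algebraMap k L0 c) = 0)
    (hdx : d x = 1) (hDK : ∀ c : K, D (algebraMap K L c) = 0)
    (hDL : ∀ h : L0, D (algebraMap L0 L h) = algebraMap L0 L (d h)) (s0 : B) (hs0 : s0 ≠ 0)
    (hs : ∀ b : B, ∃ c : B, algebraMap B L0 s0 * d (algebraMap B L0 b) = algebraMap B L0 c)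
    (a : L) (s : I → L0) (hsa : ψ a = (s : (U : Filter I).Germ L0)) :
    ∀ᶠ n in (U : Filter I), vn n (s n) = v a := by
  have hinj : Function.Injective (algebraMap B L0) := IsFractionRing.injective _ _
  have hv4 : ∀ n (b : B), vn n (algebraMap B L0 b - algebraMap k L0 (Φ n b)) < 1 := by
    intro n b
    have h1 : algebraMap B L0 b - algebraMap k L0 (Φ n b) =
        algebraMap B L0 (b - algebraMap k B (Φ n b)) := by
      rw [map_sub, ← IsScalarTower.algebraMap_apply]
    rw [h1]
    apply hv2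
    rw [map_sub, AlgHom.commutes]
    exact sub_self _
  have hRRle : ∀ p ∈ RR K L0 L, v p ≤ 1 := fun p hp => RR_le hv htriv hp
  -- the uniformizers
  have hyn : ∀ᶠ n in (U : Filter I), vn n (x - algebraMap k L0 (Φ n b0)) = WithZero.exp (-1 : ℤ) := by
    have h1 : φ0 (algebraMap B L0 s0) ≠ 0 := by
      rw [map_ne_zero]
      exact (map_ne_zero_iff _ hinj).2 hs0
    filter_upwards [germ_ne U φ h1 (hΦ s0)] with n hn
    refine unif_of_der (vn n) (hvn n).1 d (fun a ha => der_pres (B := B) (vn n) (hv1 n) d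
      (algebraMap B L0 s0) (hv3 n s0 hn) hs ha) ?_ ?_
    · rw [← hb0x]; exact hv4 n b0
    · rw [map_sub, hd, sub_zero, hdx, map_one]
  have hDRR : ∀ p ∈ RR K L0 L, D p ∈ RR K L0 L := by
    intro p hp
    induction hp using Submodule.span_induction with
    | mem x hx =>
      obtain ⟨h, rfl⟩ := hx
      rw [hDL]
      exact RR_L0 _
    | zero => rw [map_zero]; exact Submodule.zero_mem _
    | add x y _ _ hx hy => rw [map_add]; exact Submodule.add_mem _ hx hy
    | smul c x _ hx =>
      rw [Algebra.smul_def, Derivation.leibniz, hDK, smul_zero, add_zero, smul_eq_mul, ← Algebra.smul_def]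
      exact Submodule.smul_mem _ _ hx
  have hy : v (algebraMap L0 L x - algebraMap K L (φ0 x)) = WithZero.exp (-1 : ℤ) := by
    refine unif_of_der v hv.1 D (fun a ha => ?_) (hφ0 x) ?_
    · obtain ⟨p, q, hp, hq, hq1, rfl⟩ := frac_nc hP x hx hv htriv ha
      have hq0 : q ≠ 0 := by
        rintro rfl
        rw [map_zero] at hq1
        exact zero_ne_one hq1
      have h1 : q * D (p / q) = D p - (p / q) * D q := by
        have h2 : D p = D ((p / q) * q) := by rw [div_mul_cancel₀ _ hq0]
        rw [h2, Derivation.leibniz, smul_eq_mul, smul_eq_mul]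
        ring
      have h3 := congrArg v h1
      rw [map_mul, hq1, one_mul] at h3
      rw [h3]
      refine (Valuation.map_sub v _ _).trans (max_le (hRRle _ (hDRR p hp)) ?_)
      rw [map_mul]
      exact mul_le_one' ha (hRRle _ (hDRR q hq))
    · rw [map_sub, hDK, sub_zero, hDL, hdx, map_one, map_one]
  -- the ring `K ⊗ B`
  let RB : Submodule K L := Submodule.span K (Set.range fun b : B => algebraMap L0 L (algebraMap B L0 b))
  have hRBmul : ∀ (b : B), ∀ p ∈ RB, algebraMap L0 L (algebraMap B L0 b) * p ∈ RB := by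
    intro b p hp
    induction hp using Submodule.span_induction with
    | mem x hx =>
      obtain ⟨c, rfl⟩ := hx
      refine Submodule.subset_span ⟨b * c, ?_⟩
      simp only [map_mul]
    | zero => rw [mul_zero]; exact Submodule.zero_mem _
    | add x y _ _ hx hy => rw [mul_add]; exact Submodule.add_mem _ hx hy
    | smul c x _ hx => rw [mul_smul_comm]; exact Submodule.smul_mem _ _ hx
  have hden : ∀ p ∈ RR K L0 L, ∃ b : B, b ≠ 0 ∧ algebraMap L0 L (algebraMap B L0 b) * p ∈ RB := by
    intro p hp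
    induction hp using Submodule.span_induction with
    | mem x hx =>
      obtain ⟨h, rfl⟩ := hx
      obtain ⟨c, b, hb, rfl⟩ := IsFractionRing.div_surjective (A := B) h
      have hb0 : b ≠ 0 := nonZeroDivisors.ne_zero hb
      refine ⟨b, hb0, Submodule.subset_span ⟨c, ?_⟩⟩
      rw [← map_mul, mul_div_cancel₀ _ ((map_ne_zero_iff _ hinj).2 hb0)]
    | zero => exact ⟨1, one_ne_zero, by rw [mul_zero]; exact Submodule.zero_mem _⟩
    | add x y _ _ hx hy =>
      obtain ⟨b, hb, hb1⟩ := hx
      obtain ⟨c, hc, hc1⟩ := hy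
      refine ⟨b * c, mul_ne_zero hb hc, ?_⟩
      have h1 : algebraMap L0 L (algebraMap B L0 (b * c)) * (x + y) =
          algebraMap L0 L (algebraMap B L0 c) * (algebraMap L0 L (algebraMap B L0 b) * x) +
          algebraMap L0 L (algebraMap B L0 b) * (algebraMap L0 L (algebraMap B L0 c) * y) := by
        rw [map_mul, map_mul]; ring
      rw [h1]
      exact Submodule.add_mem _ (hRBmul c _ hb1) (hRBmul b _ hc1)
    | smul c x _ hx =>
      obtain ⟨b, hb, hb1⟩ := hx
      exact ⟨b, hb, by rw [mul_smul_comm]; exact Submodule.smul_mem _ _ hb1⟩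
  -- elements of `K ⊗ B` reduce well
  have hE : ∀ p ∈ RB, ∃ (s : I → L0) (t : I → k) (c : K), ψ p = (s : (U : Filter I).Germ L0) ∧
      φ c = (t : (U : Filter I).Germ k) ∧ v (p - algebraMap K L c) < 1 ∧
      ∀ᶠ n in (U : Filter I), vn n (s n - algebraMap k L0 (t n)) < 1 := by
    intro p hp
    induction hp using Submodule.span_induction with
    | mem x hx =>
      obtain ⟨b, rfl⟩ := hx
      exact ⟨fun _ => algebraMap B L0 b, fun n => Φ n b, φ0 (algebraMap B L0 b), hψ2 _, hΦ b, hφ0 _,
        Eventually.of_forall fun n => hv4 n b⟩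
    | zero =>
      refine ⟨0, 0, 0, by rw [map_zero, Germ.coe_zero], by rw [map_zero, Germ.coe_zero], ?_, ?_⟩
      · rw [map_zero, sub_zero, map_zero]; exact zero_lt_one
      · refine Eventually.of_forall fun n => ?_
        rw [Pi.zero_apply, Pi.zero_apply, map_zero, sub_zero, map_zero]
        exact zero_lt_one
    | add x y _ _ hx hy =>
      obtain ⟨s, t, c, h1, h2, h3, h4⟩ := hx
      obtain ⟨s', t', c', h1', h2', h3', h4'⟩ := hy
      refine ⟨s + s', t + t', c + c', by rw [map_add, h1, h1', Germ.coe_add],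
        by rw [map_add, h2, h2', Germ.coe_add], ?_, ?_⟩
      · have h5 : x + y - algebraMap K L (c + c') = (x - algebraMap K L c) + (y - algebraMap K L c') := by
          rw [map_add]; ring
        rw [h5]
        exact Valuation.map_add_lt v h3 h3'
      · filter_upwards [h4, h4'] with n h5 h6
        have h7 : (s + s') n - algebraMap k L0 ((t + t') n) =
            (s n - algebraMap k L0 (t n)) + (s' n - algebraMap k L0 (t' n)) := by
          rw [Pi.add_apply, Pi.add_apply, map_add]; ring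
        rw [h7]
        exact Valuation.map_add_lt (vn n) h5 h6
    | smul e x _ hx =>
      obtain ⟨s, t, c, h1, h2, h3, h4⟩ := hx
      obtain ⟨r, hr⟩ := germ_rep U (φ e)
      refine ⟨(fun n => algebraMap k L0 (r n)) * s, r * t, e * c, by
        rw [Algebra.smul_def, map_mul, h1, hψ1 e r hr, Germ.coe_mul],
        by rw [map_mul, hr, h2, Germ.coe_mul], ?_, ?_⟩
      · have h5 : e • x - algebraMap K L (e * c) = algebraMap K L e * (x - algebraMap K L c) := by
          rw [Algebra.smul_def, map_mul]; ring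
        rw [h5, map_mul]
        exact (mul_le_of_le_one_left' (val_k hv e)).trans_lt h3
      · filter_upwards [h4] with n h5
        have h7 : ((fun n => algebraMap k L0 (r n)) * s) n - algebraMap k L0 ((r * t) n) =
            algebraMap k L0 (r n) * (s n - algebraMap k L0 (t n)) := by
          rw [Pi.mul_apply, Pi.mul_apply, map_mul]; ring
        rw [h7, map_mul]
        exact (mul_le_of_le_one_left' (val_k (hvn n) _)).trans_lt h5
  have hF : ∀ p ∈ RB, v p = 1 → ∀ s : I → L0, ψ p = (s : (U : Filter I).Germ L0) →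
      ∀ᶠ n in (U : Filter I), vn n (s n) = 1 := by
    intro p hp hp1 s hs
    obtain ⟨s', t, c, h1, h2, h3, h4⟩ := hE p hp
    have hc0 : c ≠ 0 := by
      rintro rfl
      rw [map_zero, sub_zero, hp1] at h3
      exact lt_irrefl _ h3
    rw [h1, Germ.coe_eq] at hs
    filter_upwards [hs, h4, germ_ne U φ hc0 h2] with n h5 h6 h7
    rw [← h5]
    have h8 : s' n = algebraMap k L0 (t n) + (s' n - algebraMap k L0 (t n)) := by ring
    rw [h8, Valuation.map_add_eq_of_lt_left (vn n) (by rw [(hvn n).2 _ h7]; exact h6), (hvn n).2 _ h7]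
  -- the end
  by_cases ha : a = 0
  · subst ha
    rw [map_zero, ← Germ.coe_zero, Germ.coe_eq] at hsa
    filter_upwards [hsa] with n hn
    rw [← hn, Pi.zero_apply, map_zero, map_zero]
  set y : L := algebraMap L0 L x - algebraMap K L (φ0 x) with hyd
  have hψy : ψ y = ((fun n => x - algebraMap k L0 (Φ n b0) : I → L0) : (U : Filter I).Germ L0) := by
    have h1 := hΦ b0
    rw [hb0x] at h1
    rw [hyd, map_sub, hψ2, hψ1 _ _ h1, ← Germ.coe_sub]
    rfl
  have hva : v a ≠ 0 := (Valuation.ne_zero_iff v).2 ha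
  obtain ⟨e, he⟩ : ∃ e : ℤ, v a = WithZero.exp e := ⟨_, (WithZero.exp_log hva).symm⟩
  obtain ⟨m1, m2, hm⟩ : ∃ m1 m2 : ℕ, e = m2 - m1 := ⟨(-e).toNat, e.toNat, by omega⟩
  have hy0 : y ≠ 0 := by
    intro h
    rw [h, map_zero] at hy
    exact WithZero.exp_ne_zero hy.symm
  have hym : ∀ m : ℕ, (WithZero.exp (-1 : ℤ)) ^ m = (WithZero.exp (-(m : ℤ)) : ℤᵐ⁰) := by
    intro m
    rw [← WithZero.exp_nsmul]
    congr 1
    simp
  have h1 : v (a * y ^ m2 / y ^ m1) = 1 := by
    rw [map_div₀, map_mul, map_pow, map_pow, hy, he, hym, hym, ← WithZero.exp_add, hm]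
    rw [div_eq_one_iff_eq WithZero.exp_ne_zero]
    congr 1
    ring
  obtain ⟨p, q, hp, hq, hq1, hpq⟩ := frac_nc hP x hx hv htriv h1.le
  have hp1 : v p = 1 := by
    rw [hpq, map_div₀, hq1, div_one] at h1
    exact h1
  have hq0 : q ≠ 0 := by
    rintro rfl
    rw [map_zero] at hq1
    exact zero_ne_one hq1
  obtain ⟨b, hb, hb1⟩ := hden p hp
  obtain ⟨c, hc, hc1⟩ := hden q hq
  have hvb : ∀ b : B, b ≠ 0 → v (algebraMap L0 L (algebraMap B L0 b)) = 1 := fun b hb =>
    htriv _ ((map_ne_zero_iff _ hinj).2 hb)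
  set P : L := algebraMap L0 L (algebraMap B L0 c) * (algebraMap L0 L (algebraMap B L0 b) * p) with hPd
  set Q : L := algebraMap L0 L (algebraMap B L0 b) * (algebraMap L0 L (algebraMap B L0 c) * q) with hQd
  have hPv : v P = 1 := by rw [hPd, map_mul, map_mul, hvb c hc, hvb b hb, hp1, mul_one, mul_one]
  have hQv : v Q = 1 := by rw [hQd, map_mul, map_mul, hvb c hc, hvb b hb, hq1, mul_one, mul_one]
  have hkey : a * Q * y ^ m2 = y ^ m1 * P := by
    have h2 : a * y ^ m2 * q = y ^ m1 * p := by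
      field_simp at hpq
      rw [hpq]
    rw [hPd, hQd]
    linear_combination (algebraMap L0 L (algebraMap B L0 b) * algebraMap L0 L (algebraMap B L0 c)) * h2
  obtain ⟨sP, hsP⟩ := germ_rep U (ψ P)
  obtain ⟨sQ, hsQ⟩ := germ_rep U (ψ Q)
  have h2 : ((s * sQ * (fun n => x - algebraMap k L0 (Φ n b0)) ^ m2 : I → L0) : (U : Filter I).Germ L0) =
      (((fun n => x - algebraMap k L0 (Φ n b0)) ^ m1 * sP : I → L0) : (U : Filter I).Germ L0) := by
    rw [Germ.coe_mul, Germ.coe_mul, Germ.coe_mul, Germ.coe_pow, Germ.coe_pow, ← hsa, ← hsQ, ← hsP, ← hψy,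
      ← map_pow, ← map_pow, ← map_mul, ← map_mul, ← map_mul, hkey]
  rw [Germ.coe_eq] at h2
  filter_upwards [h2, hyn, hF P (hRBmul c _ hb1) hPv sP hsP, hF Q (hRBmul b _ hc1) hQv sQ hsQ] with n h3 h4 h5 h6
  have h7 := congrArg (vn n) h3
  rw [Pi.mul_apply, Pi.mul_apply, Pi.mul_apply, Pi.pow_apply, Pi.pow_apply, map_mul, map_mul, map_mul, map_pow,
    map_pow, h4, h5, h6, mul_one, mul_one, hym, hym] at h7
  have h8 : v a * WithZero.exp (-(m2 : ℤ)) = WithZero.exp (-(m1 : ℤ)) := by
    rw [he, ← WithZero.exp_add, hm]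
    congr 1
    ring
  rw [← h8] at h7
  exact mul_right_cancel₀ WithZero.exp_ne_zero h7

theorem los_triv (hP : IsProd k K L0 L) (hL0 : IsFun k L0) (U : Ultrafilter I)
    (φ : K ≃+* (U : Filter I).Germ k) (ψ : L →+* (U : Filter I).Germ L0)
    (hφ : ∀ c : k, φ (algebraMap k K c) = ((fun _ => c : I → k) : (U : Filter I).Germ k))
    (hψ1 : ∀ (c : K) (s : I → k), φ c = (s : (U : Filter I).Germ k) →
      ψ (algebraMap K L c) = ((fun n => algebraMap k L0 (s n) : I → L0) : (U : Filter I).Germ L0))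
    (hψ2 : ∀ h : L0, ψ (algebraMap L0 L h) = ((fun _ => h : I → L0) : (U : Filter I).Germ L0))
    (v : Valuation L ℤᵐ⁰) (hv : v ∈ VN K L) (htriv : ∀ h : L0, h ≠ 0 → v (algebraMap L0 L h) = 1) :
    ∃ vn : I → Valuation L0 ℤᵐ⁰, (∀ n, vn n ∈ VN k L0) ∧
      ∀ (a : L) (s : I → L0), ψ a = (s : (U : Filter I).Germ L0) → ∀ᶠ n in (U : Filter I), vn n (s n) = v a := by
  obtain ⟨φ0, hφ0⟩ := exists_resmap hP hL0 v hv htriv
  obtain ⟨x, hx, hfin⟩ := hL0
  obtain ⟨hded, hfrac⟩ := ded_closure x hx
  obtain ⟨hft, hfp⟩ := fp_closure x hx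
  have halg : Algebra.IsAlgebraic k⟮x⟯ L0 := inferInstance
  let θ : integralClosure (Algebra.adjoin k {x}) L0 →ₐ[k] K :=
    φ0.comp (IsScalarTower.toAlgHom k (integralClosure (Algebra.adjoin k {x}) L0) L0)
  have hθ : ∀ b : integralClosure (Algebra.adjoin k {x}) L0,
      θ b = φ0 (algebraMap (integralClosure (Algebra.adjoin k {x}) L0) L0 b) := fun _ => rfl
  obtain ⟨Φ, hΦ⟩ := lift_points U φ hφ θ
  obtain ⟨b0, hb0x⟩ : ∃ b0 : integralClosure (Algebra.adjoin k {x}) L0,
      algebraMap (integralClosure (Algebra.adjoin k {x}) L0) L0 b0 = x :=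
    ⟨algebraMap (Algebra.adjoin k {x}) (integralClosure (Algebra.adjoin k {x}) L0)
      ⟨x, Algebra.self_mem_adjoin_singleton k x⟩, rfl⟩
  have hinj : Function.Injective (algebraMap (integralClosure (Algebra.adjoin k {x}) L0) L0) :=
    IsFractionRing.injective _ _
  have hb0 : ∀ c : k, b0 ≠ algebraMap k (integralClosure (Algebra.adjoin k {x}) L0) c := by
    intro c hc
    rw [hc, ← IsScalarTower.algebraMap_apply] at hb0x
    exact hx (hb0x ▸ isAlgebraic_algebraMap c)
  choose vn hvn hv1 hv2 hv3 using fun n => pt_val (F := L0) (Φ n) b0 hb0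
  obtain ⟨d, D, hd, hdx, hDK, hDL⟩ := exists_pd hP.symm x hx halg
  obtain ⟨s0, hs0, hs⟩ := exists_den (B := integralClosure (Algebra.adjoin k {x}) L0) d hd
  exact ⟨vn, hvn, fun a s hsa => los_aux (B := integralClosure (Algebra.adjoin k {x}) L0) hP x hx U φ ψ hψ1 hψ2 v hv
    htriv φ0 hφ0 Φ (fun b => by rw [← hθ]; exact hΦ b) b0 hb0x vn hvn hv1 hv2 hv3 d D hd hdx hDK hDL s0 hs0 hs a s hsa⟩

/-- `K` is the ultrapower of `k` and `L` is embedded in the ultrapower of `L0`: every place of `L / K` is the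
ultraproduct of a sequence of places of `L0 / k` -/
theorem los_place (hP : IsProd k K L0 L) (hL0 : IsFun k L0) (U : Ultrafilter I)
    (φ : K ≃+* (U : Filter I).Germ k) (ψ : L →+* (U : Filter I).Germ L0)
    (hφ : ∀ c : k, φ (algebraMap k K c) = ((fun _ => c : I → k) : (U : Filter I).Germ k))
    (hψ1 : ∀ (c : K) (s : I → k), φ c = (s : (U : Filter I).Germ k) →
      ψ (algebraMap K L c) = ((fun n => algebraMap k L0 (s n) : I → L0) : (U : Filter I).Germ L0))
    (hψ2 : ∀ h : L0, ψ (algebraMap L0 L h) = ((fun _ => h : I → L0) : (U : Filter I).Germ L0))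
    (v : Valuation L ℤᵐ⁰) (hv : v ∈ VN K L) :
    ∃ vn : I → Valuation L0 ℤᵐ⁰, (∀ n, vn n ∈ VN k L0) ∧
      ∀ (a : L) (s : I → L0), ψ a = (s : (U : Filter I).Germ L0) → ∀ᶠ n in (U : Filter I), vn n (s n) = v a := by
  rcases gauss_or_triv hP hL0 hv with htriv | ⟨w, hw, hvw⟩
  · exact los_triv hP hL0 U φ ψ hφ hψ1 hψ2 v hv htriv
  · exact ⟨fun _ => w, fun _ => hw, fun a s hs => los_gauss hP hL0 U φ ψ hψ1 hψ2 v hv w hw hvw a s hs⟩

end

end Pool.Agent.Helper79.RG
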