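import Pool.Agent.Helper79.RG.M9
import Mathlib.Order.Filter.Ultrafilter.Basic
import Mathlib.Order.Filter.FilterProduct

set_option autoImplicit false

/-!
# Points of finitely presented algebras over an ultrapower, and the places they give
-/

set_option linter.unusedSectionVars false

namespace Pool.Agent.Helper79.RG

open scoped WithZero IntermediateField.algebraAdjoinAdjoin
open IntermediateField IsDedekindDomain Filter
open Pool.Agent.Helper79.FE

variable {I : Type*}

section

/-- a point of a finitely presented algebra over an ultrapower is an ultraproduct of points -/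
theorem lift_points {k K B : Type*} [Field k] [Field K] [CommRing B] [Algebra k K] [Algebra k B]
    [Algebra.FinitePresentation k B] (U : Ultrafilter I) (φ : K ≃+* (U : Filter I).Germ k)
    (hφ : ∀ c : k, φ (algebraMap k K c) = ((fun _ => c : I → k) : (U : Filter I).Germ k))
    (θ : B →ₐ[k] K) : ∃ Φ : I → (B →ₐ[k] k), ∀ b : B,
      φ (θ b) = ((fun n => Φ n b : I → k) : (U : Filter I).Germ k) := by
  classical
  obtain ⟨m, π, hπ, T, hT⟩ := Algebra.FinitePresentation.out (R := k) (A := B)
  have hrep : ∀ g : (U : Filter I).Germ k, ∃ s : I → k, g = (s : (U : Filter I).Germ k) := by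
    intro g
    induction g using Filter.Germ.inductionOn with
    | _ f => exact ⟨f, rfl⟩
  choose c hc using fun i : Fin m => hrep (φ (θ (π (MvPolynomial.X i))))
  let ev : I → (MvPolynomial (Fin m) k →ₐ[k] k) := fun n => MvPolynomial.aeval (fun i => c i n)
  have hev : ∀ P, φ (θ (π P)) = ((fun n => ev n P : I → k) : (U : Filter I).Germ k) := by
    intro P
    induction P using MvPolynomial.induction_on with
    | C a =>
      have h1 : (MvPolynomial.C a : MvPolynomial (Fin m) k) = algebraMap k _ a := rfl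
      rw [h1, AlgHom.commutes, AlgHom.commutes, hφ]
      congr 1
      ext n
      rw [AlgHom.commutes]
      rfl
    | add p q hp hq =>
      rw [map_add, map_add, map_add, hp, hq, ← Germ.coe_add]
      congr 1
      ext n
      simp only [Pi.add_apply, map_add]
    | mul_X p i hp =>
      rw [map_mul, map_mul, map_mul, hp, hc, ← Germ.coe_mul]
      congr 1
      ext n
      simp only [Pi.mul_apply, map_mul]
      congr 1
      show c i n = MvPolynomial.aeval (R := k) (fun i => c i n) (MvPolynomial.X i)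
      rw [MvPolynomial.aeval_X]
  have hgood : ∀ᶠ n in (U : Filter I), ∀ P ∈ T, ev n P = 0 := by
    rw [Filter.eventually_all_finset]
    intro P hP
    have h1 : π P = 0 := by
      have h2 : P ∈ RingHom.ker π.toRingHom := by
        rw [← hT]
        exact Ideal.subset_span hP
      exact h2
    have h2 := hev P
    rw [h1, map_zero, map_zero, ← Germ.coe_zero, Germ.coe_eq] at h2
    filter_upwards [h2] with n hn
    exact hn.symm
  have hker : ∀ n, (∀ P ∈ T, ev n P = 0) → RingHom.ker π.toRingHom ≤ RingHom.ker (ev n).toRingHom := by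
    intro n hn
    rw [← hT, Ideal.span_le]
    intro P hP
    exact hn P hP
  obtain ⟨n0, hn0⟩ := hgood.exists
  let Φ0 : B →ₐ[k] k := AlgHom.liftOfSurjective π hπ (ev n0) (hker n0 hn0)
  let Φ : I → (B →ₐ[k] k) := fun n => if hn : ∀ P ∈ T, ev n P = 0 then
    AlgHom.liftOfSurjective π hπ (ev n) (hker n hn) else Φ0
  refine ⟨Φ, fun b => ?_⟩
  obtain ⟨P, rfl⟩ := hπ b
  rw [hev, Germ.coe_eq]
  filter_upwards [hgood] with n hn
  have h1 : Φ n = AlgHom.liftOfSurjective π hπ (ev n) (hker n hn) := dif_pos hn
  rw [h1, AlgHom.liftOfSurjective_apply]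

/-- the place of a point -/
theorem pt_val {k B F : Type*} [Field k] [CommRing B] [IsDedekindDomain B] [Field F] [Algebra B F]
    [IsFractionRing B F] [Algebra k B] [Algebra k F] [IsScalarTower k B F] (Φ : B →ₐ[k] k)
    (b0 : B) (hb0 : ∀ c : k, b0 ≠ algebraMap k B c) :
    ∃ w ∈ VN k F, (∀ b : B, w (algebraMap B F b) ≤ 1) ∧
      (∀ b : B, Φ b = 0 → w (algebraMap B F b) < 1) ∧
      ∀ b : B, Φ b ≠ 0 → w (algebraMap B F b) = 1 := by
  have hprime : (RingHom.ker Φ).IsPrime := RingHom.ker_isPrime Φ
  have hne : RingHom.ker Φ ≠ ⊥ := by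
    intro h
    have h1 : b0 - algebraMap k B (Φ b0) ∈ RingHom.ker Φ := by
      rw [RingHom.mem_ker, map_sub, AlgHom.commutes]
      exact sub_self _
    rw [h, Ideal.mem_bot, sub_eq_zero] at h1
    exact hb0 _ h1
  let P : HeightOneSpectrum B := ⟨RingHom.ker Φ, hprime, hne⟩
  have hle : ∀ b : B, P.valuation F (algebraMap B F b) ≤ 1 := fun b => P.valuation_le_one b
  have hlt : ∀ b : B, P.valuation F (algebraMap B F b) < 1 ↔ Φ b = 0 := fun b =>
    P.valuation_lt_one_iff_mem b
  refine ⟨P.valuation F, ⟨P.valuation_surjective F, ?_⟩, hle, fun b hb => (hlt b).2 hb, ?_⟩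
  · intro c hc
    refine le_antisymm ?_ ?_
    · rw [IsScalarTower.algebraMap_apply k B F]
      exact hle _
    · by_contra h
      push Not at h
      rw [IsScalarTower.algebraMap_apply k B F, hlt, AlgHom.commutes] at h
      exact hc h
  · intro b hb
    refine le_antisymm (hle b) ?_
    by_contra h
    push Not at h
    exact hb ((hlt b).1 h)

/-- a derivation with bounded denominator preserves the valuation ring -/
theorem der_pres {B F : Type*} [CommRing B] [IsDedekindDomain B] [Field F] [Algebra B F]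
    [IsFractionRing B F] (w : Valuation F ℤᵐ⁰) (hw : ∀ b : B, w (algebraMap B F b) ≤ 1)
    (D : Derivation ℤ F F) (s : F) (hs : w s = 1)
    (hD : ∀ b : B, ∃ c : B, s * D (algebraMap B F b) = algebraMap B F c) {a : F} (ha : w a ≤ 1) :
    w (D a) ≤ 1 := by
  have hb : ∀ b : B, w (D (algebraMap B F b)) ≤ 1 := by
    intro b
    obtain ⟨c, hc⟩ := hD b
    have h1 := congrArg w hc
    rw [map_mul, hs, one_mul] at h1
    rw [h1]
    exact hw c
  obtain ⟨p, q, hq, hpq⟩ := frac_unit w hw ha
  have h1 := congrArg D hpq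
  rw [Derivation.leibniz, smul_eq_mul, smul_eq_mul] at h1
  have h2 : algebraMap B F q * D a = D (algebraMap B F p) - a * D (algebraMap B F q) := by
    rw [← h1]; ring
  have h3 := congrArg w h2
  rw [map_mul, hq, one_mul] at h3
  rw [h3]
  refine (Valuation.map_sub w _ _).trans (max_le (hb p) ?_)
  rw [map_mul]
  exact mul_le_one' ha (hb q)

/-- a criterion for uniformizers -/
theorem unif_of_der {F : Type*} [Field F] (w : Valuation F ℤᵐ⁰) (hw : Function.Surjective w)
    (D : Derivation ℤ F F) (hD : ∀ a : F, w a ≤ 1 → w (D a) ≤ 1) {y : F} (hy : w y < 1)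
    (hDy : w (D y) = 1) : w y = WithZero.exp (-1 : ℤ) := by
  have hy0 : y ≠ 0 := by
    rintro rfl
    rw [map_zero, map_zero] at hDy
    exact zero_ne_one hDy
  have hwy : w y ≠ 0 := (Valuation.ne_zero_iff w).2 hy0
  obtain ⟨z, hz⟩ := hw (WithZero.exp (-1 : ℤ))
  have hz0 : z ≠ 0 := by
    rintro rfl
    rw [map_zero] at hz
    exact WithZero.exp_ne_zero hz.symm
  obtain ⟨e, he⟩ : ∃ e : ℤ, w y = WithZero.exp e := ⟨_, (WithZero.exp_log hwy).symm⟩
  have he1 : e < 0 := by
    rw [he, ← WithZero.exp_zero, WithZero.exp_lt_exp] at hy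
    exact hy
  by_contra hcon
  have he2 : e ≤ -2 := by
    by_contra h
    apply hcon
    rw [he]
    congr 1
    omega
  have hz1 : w z < 1 := by
    rw [hz, ← WithZero.exp_zero, WithZero.exp_lt_exp]; norm_num
  obtain ⟨t, ht⟩ : ∃ t : F, y = z * (z * t) := ⟨y / (z * z), by field_simp⟩
  have hwt : w t ≤ 1 := by
    have h1 := congrArg w ht
    rw [map_mul, map_mul, hz, he] at h1
    have hwt0 : w t ≠ 0 := by
      intro h0
      rw [h0, mul_zero, mul_zero] at h1
      exact WithZero.exp_ne_zero h1
    obtain ⟨j, hj⟩ : ∃ j : ℤ, w t = WithZero.exp j := ⟨_, (WithZero.exp_log hwt0).symm⟩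
    rw [hj, ← WithZero.exp_add, ← WithZero.exp_add, WithZero.exp_inj] at h1
    rw [hj, ← WithZero.exp_zero, WithZero.exp_le_exp]
    omega
  have hzt : w (z * t) ≤ 1 := by
    rw [map_mul]
    exact mul_le_one' hz1.le hwt
  have h1 : D y = z * D (z * t) + (z * t) * D z := by
    rw [ht, Derivation.leibniz, smul_eq_mul, smul_eq_mul]
  have h2 : w (D y) < 1 := by
    rw [h1]
    refine Valuation.map_add_lt w ?_ ?_
    · rw [map_mul]
      exact (mul_le_of_le_one_right' (hD _ hzt)).trans_lt hz1
    · rw [map_mul, map_mul]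
      have h3 : w z * w t * w (D z) ≤ w z := by
        rw [mul_assoc]
        exact mul_le_of_le_one_right' (mul_le_one' hwt (hD _ hz1.le))
      exact h3.trans_lt hz1
  rw [hDy] at h2
  exact lt_irrefl _ h2

/-- the denominator of a derivation on a finitely generated algebra -/
theorem exists_den {k B F : Type*} [Field k] [CommRing B] [IsDomain B] [Field F] [Algebra B F]
    [IsFractionRing B F] [Algebra k B] [Algebra k F] [IsScalarTower k B F]
    [Algebra.FiniteType k B] (D : Derivation ℤ F F) (hD : ∀ c : k, D (algebraMap k F c) = 0) :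
    ∃ s : B, s ≠ 0 ∧ ∀ b : B, ∃ c : B, algebraMap B F s * D (algebraMap B F b) = algebraMap B F c := by
  classical
  obtain ⟨T, hT⟩ := Algebra.FiniteType.out (R := k) (A := B)
  obtain ⟨s, hs⟩ := IsLocalization.exist_integer_multiples (nonZeroDivisors B) T
    (fun b : B => D (algebraMap B F b))
  refine ⟨s, nonZeroDivisors.ne_zero s.2, fun b => ?_⟩
  have hb : b ∈ Algebra.adjoin k (T : Set B) := by
    rw [hT]; trivial
  induction hb using Algebra.adjoin_induction with
  | mem y hy =>
    obtain ⟨c, hc⟩ := hs y hy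
    refine ⟨c, ?_⟩
    rw [hc, Algebra.smul_def]
  | algebraMap r =>
    refine ⟨0, ?_⟩
    rw [← IsScalarTower.algebraMap_apply, hD, mul_zero, map_zero]
  | add a b _ _ ha hb =>
    obtain ⟨c, hc⟩ := ha
    obtain ⟨d, hd⟩ := hb
    refine ⟨c + d, ?_⟩
    rw [map_add, map_add, map_add, mul_add, hc, hd]
  | mul a b _ _ ha hb =>
    obtain ⟨c, hc⟩ := ha
    obtain ⟨d, hd⟩ := hb
    refine ⟨a * d + b * c, ?_⟩
    rw [map_mul, Derivation.leibniz, smul_eq_mul, smul_eq_mul, map_add, map_mul, map_mul, ← hc, ← hd]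
    ring

end

end Pool.Agent.Helper79.RG
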