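import Pool.Agent.Helper79.RG.U1a

set_option autoImplicit false

/-!
# Module U1: places of an ultraproduct are ultraproducts of places: the Gauss case
-/

set_option linter.unusedSectionVars false

namespace Pool.Agent.Helper79.RG

open scoped WithZero IntermediateField.algebraAdjoinAdjoin
open IntermediateField IsDedekindDomain Filter
open Pool.Agent.Helper79.FE

variable {I : Type*}

section

variable {k K L0 L : Type*} [Field k] [IsAlgClosed k] [CharZero k] [Field K] [IsAlgClosed K] [Field L0] [Field L]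
  [Algebra k K] [Algebra k L0] [Algebra k L] [Algebra K L] [Algebra L0 L] [IsScalarTower k K L]
  [IsScalarTower k L0 L]

theorem germ_rep {β : Type*} (U : Ultrafilter I) (g : (U : Filter I).Germ β) :
    ∃ s : I → β, g = (s : (U : Filter I).Germ β) := by
  induction g using Filter.Germ.inductionOn with
  | _ f => exact ⟨f, rfl⟩

theorem germ_ne (U : Ultrafilter I) (φ : K ≃+* (U : Filter I).Germ k) {x : K} (hx : x ≠ 0) {t : I → k}
    (ht : φ x = (t : (U : Filter I).Germ k)) : ∀ᶠ n in (U : Filter I), t n ≠ 0 := by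
  have h1 : ¬ ∀ᶠ n in (U : Filter I), t n = 0 := by
    intro h
    apply hx
    apply φ.injective
    rw [ht, map_zero, ← Germ.coe_zero, Germ.coe_eq]
    exact h
  exact Ultrafilter.eventually_not.2 h1

theorem los_gauss (hP : IsProd k K L0 L) (hL0 : IsFun k L0) (U : Ultrafilter I)
    (φ : K ≃+* (U : Filter I).Germ k) (ψ : L →+* (U : Filter I).Germ L0)
    (hψ1 : ∀ (c : K) (s : I → k), φ c = (s : (U : Filter I).Germ k) →
      ψ (algebraMap K L c) = ((fun n => algebraMap k L0 (s n) : I → L0) : (U : Filter I).Germ L0))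
    (hψ2 : ∀ h : L0, ψ (algebraMap L0 L h) = ((fun _ => h : I → L0) : (U : Filter I).Germ L0))
    (v : Valuation L ℤᵐ⁰) (hv : v ∈ VN K L) (w : Valuation L0 ℤᵐ⁰) (hw : w ∈ VN k L0)
    (hvw : ∀ h : L0, v (algebraMap L0 L h) = w h)
    (a : L) (s : I → L0) (hs : ψ a = (s : (U : Filter I).Germ L0)) : ∀ᶠ n in (U : Filter I), w (s n) = v a := by
  -- elements of `MW`
  have hM : ∀ p ∈ MW K L w, ∀ s : I → L0, ψ p = (s : (U : Filter I).Germ L0) →
      ∀ᶠ n in (U : Filter I), w (s n) < 1 := by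
    intro p hp
    have h1 : ∃ s : I → L0, ψ p = (s : (U : Filter I).Germ L0) ∧ ∀ᶠ n in (U : Filter I), w (s n) < 1 := by
      induction hp using Submodule.span_induction with
      | mem x hx =>
        obtain ⟨h, hh, rfl⟩ := hx
        exact ⟨fun _ => h, hψ2 h, Eventually.of_forall fun _ => hh⟩
      | zero => exact ⟨0, by rw [map_zero, Germ.coe_zero], Eventually.of_forall fun _ => by
          rw [Pi.zero_apply, map_zero]; exact zero_lt_one⟩
      | add x y _ _ hx hy =>
        obtain ⟨s, hs, hs1⟩ := hx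
        obtain ⟨t, ht, ht1⟩ := hy
        refine ⟨s + t, by rw [map_add, hs, ht, Germ.coe_add], ?_⟩
        filter_upwards [hs1, ht1] with n h1 h2
        exact Valuation.map_add_lt w h1 h2
      | smul c x _ hx =>
        obtain ⟨s, hs, hs1⟩ := hx
        obtain ⟨t, ht⟩ := germ_rep U (φ c)
        refine ⟨(fun n => algebraMap k L0 (t n)) * s, by
          rw [Algebra.smul_def, map_mul, hs, hψ1 c t ht, Germ.coe_mul], ?_⟩
        filter_upwards [hs1] with n h1
        rw [Pi.mul_apply, map_mul]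
        exact (mul_le_of_le_one_left' (val_k hw _)).trans_lt h1
    obtain ⟨s', hs', hs1⟩ := h1
    intro s hs
    rw [hs', Germ.coe_eq] at hs
    filter_upwards [hs, hs1] with n h1 h2
    rw [← h1]; exact h2
  -- elements of `RW` outside `MW`
  have hR : ∀ p, (p ∈ RW K L w ∧ p ∉ MW K L w) → ∀ s : I → L0, ψ p = (s : (U : Filter I).Germ L0) →
      ∀ᶠ n in (U : Filter I), w (s n) = 1 := by
    intro p hp s hs
    obtain ⟨x, hx⟩ := RW_dec hL0 hw hp.1
    have hx0 : x ≠ 0 := by
      rintro rfl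
      rw [map_zero, sub_zero] at hx
      exact hp.2 hx
    obtain ⟨t, ht⟩ := germ_rep U (φ x)
    have ht0 : ∀ᶠ n in (U : Filter I), t n ≠ 0 := germ_ne U φ hx0 ht
    have h1 := hM _ hx (s - fun n => algebraMap k L0 (t n)) (by
      rw [map_sub, hs, hψ1 x t ht, Germ.coe_sub])
    filter_upwards [ht0, h1] with n h2 h3
    rw [Pi.sub_apply] at h3
    have h4 : s n = algebraMap k L0 (t n) + (s n - algebraMap k L0 (t n)) := by ring
    rw [h4, Valuation.map_add_eq_of_lt_left w (by rw [hw.2 _ h2]; exact h3), hw.2 _ h2]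
  by_cases ha : a = 0
  · subst ha
    rw [map_zero, ← Germ.coe_zero, Germ.coe_eq] at hs
    filter_upwards [hs] with n hn
    rw [← hn, Pi.zero_apply, map_zero, map_zero]
  obtain ⟨z, hz⟩ := hw.1 (WithZero.exp (-1 : ℤ))
  have hz0 : z ≠ 0 := by
    rintro rfl
    rw [map_zero] at hz
    exact WithZero.exp_ne_zero hz.symm
  obtain ⟨m, p, q, hp, hq, hpq⟩ := L_struct hP hL0 hw hz ha
  obtain ⟨sp, hsp⟩ := germ_rep U (ψ p)
  obtain ⟨sq, hsq⟩ := germ_rep U (ψ q)
  have hq0 : q ≠ 0 := by
    rintro rfl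
    exact hq.2 (Submodule.zero_mem _)
  have h1 : a * q = algebraMap L0 L (z ^ m) * p := by
    rw [hpq, map_zpow₀, mul_assoc, div_mul_cancel₀ _ hq0]
  have h2 : ((s * sq : I → L0) : (U : Filter I).Germ L0) = (((fun _ => z ^ m) * sp : I → L0) : (U : Filter I).Germ L0) := by
    rw [Germ.coe_mul, Germ.coe_mul, ← hs, ← hsq, ← hsp, ← hψ2, ← map_mul, ← map_mul, h1]
  rw [Germ.coe_eq] at h2
  have hva : v a = w (z ^ m) := by
    have h3 := congrArg v h1
    rw [map_mul, map_mul, val_UW hL0 hw hv hvw hp, val_UW hL0 hw hv hvw hq, mul_one, mul_one, hvw] at h3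
    exact h3
  filter_upwards [h2, hR p hp sp hsp, hR q hq sq hsq] with n h3 h4 h5
  have h6 := congrArg w h3
  rw [Pi.mul_apply, Pi.mul_apply, map_mul, map_mul, h4, h5, mul_one, mul_one] at h6
  rw [h6, hva]

end

end Pool.Agent.Helper79.RG
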