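import Pool.Agent.Helper79.RG.U1
import Pool.Agent.Helper79.RG.M12

set_option autoImplicit false

/-!
# The ultrapower of a function field
-/

set_option linter.unusedSectionVars false

namespace Pool.Agent.Helper79.RG

open scoped WithZero IntermediateField.algebraAdjoinAdjoin
open IntermediateField IsDedekindDomain Filter
open Pool.Agent.Helper79.FE

universe u v w

/-- the ultrapower of an algebraically closed field is algebraically closed -/
theorem germ_closed {I : Type u} (U : Ultrafilter I) {k : Type v} [Field k] [IsAlgClosed k] :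
    IsAlgClosed ((U : Filter I).Germ k) := by
  refine IsAlgClosed.of_exists_root _ fun p hp hirr => ?_
  choose s hs using fun i : ℕ => germ_rep U (p.coeff i)
  have hd : p.natDegree ≠ 0 := hirr.natDegree_pos.ne'
  let P : I → Polynomial k := fun n => ∑ i ∈ Finset.range (p.natDegree + 1), Polynomial.C (s i n) * Polynomial.X ^ i
  have hPc : ∀ n, (P n).coeff p.natDegree = s p.natDegree n := by
    intro n
    simp only [P, Polynomial.finsetSum_coeff, Polynomial.coeff_C_mul, Polynomial.coeff_X_pow]
    rw [Finset.sum_eq_single p.natDegree]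
    · simp
    · intro b _ hb
      rw [if_neg (Ne.symm hb), mul_zero]
    · intro h
      exact absurd (Finset.mem_range.2 (Nat.lt_succ_self _)) h
  have hroot : ∀ n, ∃ r : k, s p.natDegree n = 1 → (P n).eval r = 0 := by
    intro n
    by_cases h : s p.natDegree n = 1
    · have h1 : (P n).degree ≠ 0 := by
        intro h2
        have h3 := Polynomial.natDegree_eq_of_degree_eq_some h2
        have h4 : (P n).coeff p.natDegree = 0 := Polynomial.coeff_eq_zero_of_natDegree_lt (by
          rw [h3]; exact Nat.pos_of_ne_zero hd)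
        rw [hPc, h] at h4
        exact one_ne_zero h4
      obtain ⟨r, hr⟩ := IsAlgClosed.exists_root (P n) h1
      exact ⟨r, fun _ => hr⟩
    · exact ⟨0, fun h' => absurd h' h⟩
  choose r hr using hroot
  refine ⟨(r : (U : Filter I).Germ k), ?_⟩
  rw [Polynomial.eval_eq_sum_range]
  have h1 : ∑ i ∈ Finset.range (p.natDegree + 1), p.coeff i * (r : (U : Filter I).Germ k) ^ i =
      ((fun n => (P n).eval (r n) : I → k) : (U : Filter I).Germ k) := by
    have h2 : ((fun n => (P n).eval (r n) : I → k)) = ∑ i ∈ Finset.range (p.natDegree + 1), s i * r ^ i := by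
      funext n
      simp only [P, Polynomial.eval_finsetSum, Polynomial.eval_mul, Polynomial.eval_C, Polynomial.eval_pow,
        Polynomial.eval_X, Finset.sum_apply, Pi.mul_apply, Pi.pow_apply]
    rw [h2]
    have h3 := map_sum (Germ.coeRingHom (U : Filter I) (R := k)) (fun i => s i * r ^ i) (Finset.range (p.natDegree + 1))
    refine Eq.trans (Finset.sum_congr rfl fun i _ => ?_) h3.symm
    rw [hs]
    rfl
  rw [h1]
  have h4 : (s p.natDegree : (U : Filter I).Germ k) = 1 := by rw [← hs]; exact hp
  have h5 : ∀ᶠ n in (U : Filter I), s p.natDegree n = 1 := by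
    rw [← Germ.coe_one, Germ.coe_eq] at h4
    exact h4
  rw [← Germ.coe_zero, Germ.coe_eq]
  filter_upwards [h5] with n hn
  exact hr n hn

section sub

variable {k K L0 : Type*} {M : Type u} [Field k] [Field K] [Field L0] [Field M]
  [Algebra k K] [Algebra k L0] [Algebra k M] [Algebra K M] [Algebra L0 M] [IsScalarTower k K M]
  [IsScalarTower k L0 M]

/-- the compositum of two linearly disjoint subfields -/
theorem exists_sub (ld : ∀ (n : ℕ) (h : Fin n → L0), LinearIndependent k h →
      LinearIndependent K (fun i => algebraMap L0 M (h i))) :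
    ∃ (L : Type u) (_ : Field L) (_ : Algebra k L) (_ : Algebra K L) (_ : Algebra L0 L) (_ : Algebra L M)
      (_ : IsScalarTower k K L) (_ : IsScalarTower k L0 L) (_ : IsScalarTower K L M) (_ : IsScalarTower L0 L M),
      IsProd k K L0 L ∧ ∀ a ∈ RR K L0 M, ∃ b : L, algebraMap L M b = a := by
  let E := IntermediateField.adjoin K (Set.range (algebraMap L0 M))
  let i0 : L0 →+* E := (algebraMap L0 M).codRestrict E.toSubring.toSubsemiring
    (fun h => IntermediateField.subset_adjoin _ _ ⟨h, rfl⟩)
  let aL0 : Algebra L0 E := i0.toAlgebra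
  have t1 : IsScalarTower k K E := inferInstance
  have t4 : IsScalarTower L0 E M := IsScalarTower.of_algebraMap_eq' rfl
  have t3 : IsScalarTower K E M := inferInstance
  have t5 : IsScalarTower k E M := IsScalarTower.of_algebraMap_eq fun c => by
    rw [IsScalarTower.algebraMap_apply k K E, ← IsScalarTower.algebraMap_apply K E M,
      ← IsScalarTower.algebraMap_apply k K M]
  have t2 : IsScalarTower k L0 E := IsScalarTower.of_algebraMap_eq fun c => by
    apply (algebraMap E M).injective
    rw [← IsScalarTower.algebraMap_apply k E M, ← IsScalarTower.algebraMap_apply L0 E M,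
      ← IsScalarTower.algebraMap_apply k L0 M]
  have hRRE : ∀ a ∈ RR K L0 M, ∃ b : E, b ∈ RR K L0 E ∧ algebraMap E M b = a := by
    intro a ha
    obtain ⟨n, κ, h, rfl⟩ := rep_aux ha
    refine ⟨∑ i, algebraMap K E (κ i) * algebraMap L0 E (h i), sum_mem fun i _ => RR_mul (RR_K _) (RR_L0 _), ?_⟩
    rw [map_sum]
    refine Finset.sum_congr rfl fun i _ => ?_
    rw [map_mul, ← IsScalarTower.algebraMap_apply K E M, ← IsScalarTower.algebraMap_apply L0 E M]
  have hFr : ∀ a : M, a ∈ E → FrR K L0 a := by
    intro a ha
    induction ha using IntermediateField.adjoin_induction with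
    | mem x hx =>
      obtain ⟨h, rfl⟩ := hx
      exact FrR.of (RR_L0 h)
    | algebraMap x => exact FrR.of (RR_K x)
    | add x y _ _ hx hy => exact hx.add hy
    | mul x y _ _ hx hy => exact hx.mul hy
    | inv x _ h => exact h.inv
  have hP1 : IsProd k K L0 E := by
    refine ⟨fun n h hh => ?_, fun a => ?_⟩
    · exact LinearIndependent.of_comp (IsScalarTower.toAlgHom K E M).toLinearMap (ld n h hh)
    · obtain ⟨p, q, hp, hq, hq0, hpq⟩ := hFr a a.2
      obtain ⟨p', hp', rfl⟩ := hRRE p hp
      obtain ⟨q', hq', rfl⟩ := hRRE q hq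
      refine ⟨p', q', hp', hq', fun h => hq0 (by rw [h, map_zero]), ?_⟩
      apply (algebraMap E M).injective
      rw [map_div₀]
      exact hpq
  refine ⟨E, inferInstance, inferInstance, inferInstance, aL0, inferInstance, t1, t2, t3, t4, hP1, fun a ha => ?_⟩
  obtain ⟨b, _, hb⟩ := hRRE a ha
  exact ⟨b, hb⟩

end sub

/-- the ultrapower -/
def UP {I : Type u} (U : Ultrafilter I) (k : Type v) : Type (max u v) := (U : Filter I).Germ k

noncomputable instance {I : Type u} (U : Ultrafilter I) (k : Type v) [Field k] : Field (UP U k) :=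
  inferInstanceAs (Field ((U : Filter I).Germ k))

/-- the class of a sequence -/
def cl {I : Type u} (U : Ultrafilter I) {k : Type v} [Field k] : (I → k) →+* UP U k :=
  Germ.coeRingHom (U : Filter I)

theorem cl_surj {I : Type u} (U : Ultrafilter I) {k : Type v} [Field k] (g : UP U k) : ∃ s : I → k, g = cl U s :=
  germ_rep U g

theorem cl_eq {I : Type u} (U : Ultrafilter I) {k : Type v} [Field k] (s t : I → k) :
    cl U s = cl U t ↔ ∀ᶠ n in (U : Filter I), s n = t n := Germ.coe_eq

/-- functoriality -/
noncomputable def mapUP {I : Type u} (U : Ultrafilter I) {k : Type v} {l : Type w} [Field k] [Field l] (j : k →+* l) :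
    UP U k →+* UP U l :=
  { toFun := fun g => Germ.map (l := (U : Filter I)) j g
    map_one' := by
      show Germ.map j ((1 : I → k) : (U : Filter I).Germ k) = ((1 : I → l) : (U : Filter I).Germ l)
      rw [Germ.map_coe]
      congr 1
      funext n
      exact map_one j
    map_zero' := by
      show Germ.map j ((0 : I → k) : (U : Filter I).Germ k) = ((0 : I → l) : (U : Filter I).Germ l)
      rw [Germ.map_coe]
      congr 1
      funext n
      exact map_zero j
    map_add' := fun a b => by
      obtain ⟨s, rfl⟩ := cl_surj U a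
      obtain ⟨t, rfl⟩ := cl_surj U b
      show Germ.map j ((s + t : I → k) : (U : Filter I).Germ k) = ((j ∘ s + j ∘ t : I → l) : (U : Filter I).Germ l)
      rw [Germ.map_coe]
      congr 1
      funext n
      exact map_add j _ _
    map_mul' := fun a b => by
      obtain ⟨s, rfl⟩ := cl_surj U a
      obtain ⟨t, rfl⟩ := cl_surj U b
      show Germ.map j ((s * t : I → k) : (U : Filter I).Germ k) = ((j ∘ s * j ∘ t : I → l) : (U : Filter I).Germ l)
      rw [Germ.map_coe]
      congr 1
      funext n
      exact map_mul j _ _ }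

theorem mapUP_cl {I : Type u} (U : Ultrafilter I) {k : Type v} {l : Type w} [Field k] [Field l] (j : k →+* l)
    (s : I → k) : mapUP U j (cl U s) = cl U (fun n => j (s n)) := rfl

/-- the ultrapower of the ground field and the compositum with the function field -/
theorem exists_ultra {I : Type u} (U : Ultrafilter I) {k : Type v} {L0 : Type w} [Field k] [IsAlgClosed k]
    [CharZero k] [Field L0] [Algebra k L0] :
    ∃ (K : Type (max u v)) (L : Type (max u w)) (_ : Field K) (_ : Field L) (_ : IsAlgClosed K) (_ : Algebra k K)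
      (_ : Algebra k L) (_ : Algebra K L) (_ : Algebra L0 L) (_ : IsScalarTower k K L) (_ : IsScalarTower k L0 L)
      (φ : K ≃+* (U : Filter I).Germ k) (ψ : L →+* (U : Filter I).Germ L0), IsProd k K L0 L ∧
      (∀ c : k, φ (algebraMap k K c) = ((fun _ => c : I → k) : (U : Filter I).Germ k)) ∧
      (∀ (c : K) (s : I → k), φ c = (s : (U : Filter I).Germ k) →
        ψ (algebraMap K L c) = ((fun n => algebraMap k L0 (s n) : I → L0) : (U : Filter I).Germ L0)) ∧
      (∀ h : L0, ψ (algebraMap L0 L h) = ((fun _ => h : I → L0) : (U : Filter I).Germ L0)) ∧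
      ∀ (n : ℕ) (e : Fin n → L0) (s : I → L0), (∀ i, s i ∈ Submodule.span k (Set.range e)) →
        ∃ a : L, ψ a = (s : (U : Filter I).Germ L0) := by
  let a1 : Algebra k (UP U k) := ((cl U).comp (Pi.constRingHom I k)).toAlgebra
  let a2 : Algebra L0 (UP U L0) := ((cl U).comp (Pi.constRingHom I L0)).toAlgebra
  let a3 : Algebra (UP U k) (UP U L0) := (mapUP U (algebraMap k L0)).toAlgebra
  let a4 : Algebra k (UP U L0) := (((cl U).comp (Pi.constRingHom I L0)).comp (algebraMap k L0)).toAlgebra
  have t1 : IsScalarTower k (UP U k) (UP U L0) := IsScalarTower.of_algebraMap_eq fun c => rfl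
  have t2 : IsScalarTower k L0 (UP U L0) := IsScalarTower.of_algebraMap_eq fun c => rfl
  have hm : ∀ s : I → k, algebraMap (UP U k) (UP U L0) (cl U s) = cl U (fun n => algebraMap k L0 (s n)) := fun s =>
    mapUP_cl U _ s
  have ld : ∀ (n : ℕ) (h : Fin n → L0), LinearIndependent k h →
      LinearIndependent (UP U k) (fun i => algebraMap L0 (UP U L0) (h i)) := by
    intro n h hh
    rw [Fintype.linearIndependent_iff]
    intro κ hκ
    choose s hs using fun i => cl_surj U (κ i)
    have h1 : ∑ i, κ i • algebraMap L0 (UP U L0) (h i) =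
        cl U (fun n => ∑ i, algebraMap k L0 (s i n) * h i) := by
      have h2 : (fun n => ∑ i, algebraMap k L0 (s i n) * h i) =
          ∑ i, (fun n => algebraMap k L0 (s i n)) * (fun _ => h i) := by
        funext n
        simp only [Finset.sum_apply, Pi.mul_apply]
      rw [h2, map_sum]
      refine Finset.sum_congr rfl fun i _ => ?_
      rw [map_mul, Algebra.smul_def, hs, hm]
      rfl
    rw [h1, ← map_zero (cl U), cl_eq] at hκ
    intro i
    rw [hs, ← map_zero (cl U), cl_eq]
    filter_upwards [hκ] with m hm'
    have hm0 : ∑ i, algebraMap k L0 (s i m) * h i = 0 := hm'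
    have h3 := (Fintype.linearIndependent_iff.1 hh) (fun i => s i m) (by
      rw [← hm0]
      refine Finset.sum_congr rfl fun i _ => ?_
      rw [Algebra.smul_def])
    exact h3 i
  obtain ⟨L, _, _, _, _, _, _, _, t3, t4, hP, hmem⟩ := exists_sub ld
  have hcl : IsAlgClosed (UP U k) := germ_closed U
  refine ⟨UP U k, L, inferInstance, inferInstance, hcl, a1, inferInstance, inferInstance, inferInstance, inferInstance,
    inferInstance, RingEquiv.refl _, algebraMap L (UP U L0), hP, fun c => rfl, ?_, ?_, ?_⟩
  · intro c s hs
    have h1 : c = cl U s := hs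
    have h2 : algebraMap L (UP U L0) (algebraMap (UP U k) L c) = cl U (fun n => algebraMap k L0 (s n)) := by
      rw [h1, ← IsScalarTower.algebraMap_apply, hm]
    exact h2
  · intro h
    have h2 : algebraMap L (UP U L0) (algebraMap L0 L h) = cl U (fun _ => h) := by
      rw [← IsScalarTower.algebraMap_apply]
      rfl
    exact h2
  · intro n e s hs
    choose c hc using fun m => (Submodule.mem_span_range_iff_exists_fun k).1 (hs m)
    refine hmem (cl U s) ?_
    have h1 : cl U s = ∑ i, algebraMap (UP U k) (UP U L0) (cl U (fun m => c m i)) * algebraMap L0 (UP U L0) (e i) := by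
      have h2 : s = ∑ i, (fun m => algebraMap k L0 (c m i)) * (fun _ => e i) := by
        funext m
        rw [← hc m]
        simp only [Finset.sum_apply, Pi.mul_apply, Algebra.smul_def]
      conv_lhs => rw [h2, map_sum]
      refine Finset.sum_congr rfl fun i _ => ?_
      rw [map_mul, hm]
      rfl
    rw [h1]
    exact sum_mem fun i _ => RR_mul (RR_K _) (RR_L0 _)

end Pool.Agent.Helper79.RG
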