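import Pool.Agent.Helper79.RG.U3
import Pool.Agent.Helper79.RG.G1

set_option autoImplicit false

/-!
# Finiteness of the unramified pairs of bounded degree which generate a field of genus at least two
-/

set_option linter.unusedSectionVars false

namespace Pool.Agent.Helper79.RG

open scoped WithZero IntermediateField.algebraAdjoinAdjoin
open IntermediateField IsDedekindDomain Filter
open Pool.Agent.Helper79.FE
open Pool.Agent.TH826.MK (KQ symb unitPart)
open Pool.Agent.Helper537_Sym (sy eq_cons)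

universe u v w

/-- two nested height one primes of `k[X, Y]` are equal -/
theorem ker_eq {k E E' : Type*} [Field k] [IsAlgClosed k] [Field E] [Field E'] [Algebra k E] [Algebra k E']
    {f g : E} {F G : E'}
    (hle : RingHom.ker (MvPolynomial.aeval (R := k) ![F, G]) ≤ RingHom.ker (MvPolynomial.aeval (R := k) ![f, g]))
    {Q : MvPolynomial (Fin 2) k} (hQ0 : Q ≠ 0) (hQ : MvPolynomial.aeval ![F, G] Q = 0)
    (hnc : ¬ ((∃ c : k, algebraMap k E c = f) ∧ ∃ c : k, algebraMap k E c = g)) :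
    RingHom.ker (MvPolynomial.aeval (R := k) ![f, g]) ≤ RingHom.ker (MvPolynomial.aeval (R := k) ![F, G]) := by
  by_contra hcon
  have hlt : RingHom.ker (MvPolynomial.aeval (R := k) ![F, G]) < RingHom.ker (MvPolynomial.aeval (R := k) ![f, g]) :=
    lt_of_le_not_ge hle hcon
  let P0 : PrimeSpectrum (MvPolynomial (Fin 2) k) := ⟨⊥, Ideal.isPrime_bot⟩
  let P1 : PrimeSpectrum (MvPolynomial (Fin 2) k) := ⟨RingHom.ker (MvPolynomial.aeval (R := k) ![F, G]), RingHom.ker_isPrime _⟩
  let P2 : PrimeSpectrum (MvPolynomial (Fin 2) k) := ⟨RingHom.ker (MvPolynomial.aeval (R := k) ![f, g]), RingHom.ker_isPrime _⟩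
  obtain ⟨m, hm, hm1⟩ := Ideal.exists_le_maximal P2.asIdeal P2.2.ne_top
  let P3 : PrimeSpectrum (MvPolynomial (Fin 2) k) := ⟨m, hm.isPrime⟩
  have h01 : P0 < P1 := by
    rw [← PrimeSpectrum.asIdeal_lt_asIdeal]
    refine bot_lt_iff_ne_bot.2 fun h => hQ0 ?_
    have h1 : Q ∈ P1.asIdeal := hQ
    rw [h] at h1
    exact h1
  have h12 : P1 < P2 := hlt
  have h23 : P2 < P3 := by
    rw [← PrimeSpectrum.asIdeal_lt_asIdeal]
    refine lt_of_le_of_ne hm1 fun h => hnc ?_
    have hmax : P2.asIdeal.IsMaximal := by rw [h]; exact hm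
    obtain ⟨x, hx⟩ := MvPolynomial.eq_vanishingIdeal_singleton_of_isMaximal k hmax
    have h1 : ∀ i : Fin 2, MvPolynomial.X i - MvPolynomial.C (x i) ∈ P2.asIdeal := by
      intro i
      rw [hx, MvPolynomial.mem_vanishingIdeal_singleton_iff]
      simp
    have h2 : MvPolynomial.aeval (R := k) ![f, g] (MvPolynomial.X 0 - MvPolynomial.C (x 0)) = 0 := h1 0
    have h3 : MvPolynomial.aeval (R := k) ![f, g] (MvPolynomial.X 1 - MvPolynomial.C (x 1)) = 0 := h1 1
    rw [map_sub, MvPolynomial.aeval_X, MvPolynomial.aeval_C, sub_eq_zero] at h2 h3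
    exact ⟨⟨x 0, h2.symm⟩, ⟨x 1, h3.symm⟩⟩
  let t : Fin 4 → PrimeSpectrum (MvPolynomial (Fin 2) k) := ![P0, P1, P2, P3]
  have ht : StrictMono t := by
    rw [Fin.strictMono_iff_lt_succ]
    intro i
    fin_cases i
    · exact h01
    · exact h12
    · exact h23
  have h4 := Order.LTSeries.length_le_krullDim (LTSeries.mk 3 t ht)
  have h5 : (LTSeries.mk 3 t ht).length = 3 := rfl
  have h6 : ringKrullDim (MvPolynomial (Fin 2) k) = 2 := by
    rw [MvPolynomial.ringKrullDim_of_isNoetherianRing, ringKrullDim_eq_zero_of_field]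
    simp
  rw [h5] at h4
  have h7 : ((3 : ℕ) : WithBot ℕ∞) ≤ 2 := by rw [← h6]; exact h4
  exact absurd h7 (by decide)

/-- the pair `(F, G)` defines an embedding of `k(f, g)` -/
theorem exists_rho {k E E' : Type*} [Field k] [Field E] [Field E'] [Algebra k E] [Algebra k E']
    {f g : E} {F G : E'}
    (h : RingHom.ker (MvPolynomial.aeval (R := k) ![f, g]) = RingHom.ker (MvPolynomial.aeval (R := k) ![F, G])) :
    ∃ ρ : IntermediateField.adjoin k {f, g} →+* E', (∀ c : k, ρ (algebraMap k _ c) = algebraMap k E' c) ∧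
      (∀ a : IntermediateField.adjoin k {f, g}, (a : E) = f → ρ a = F) ∧
      ∀ a : IntermediateField.adjoin k {f, g}, (a : E) = g → ρ a = G := by
  have hS : Set.range ![f, g] = {f, g} := by
    simp [Set.pair_comm]
  let A := Algebra.adjoin k ({f, g} : Set E)
  have hmem : ∀ P : MvPolynomial (Fin 2) k, MvPolynomial.aeval ![f, g] P ∈ A := by
    intro P
    show _ ∈ Algebra.adjoin k ({f, g} : Set E)
    rw [← hS, Algebra.adjoin_range_eq_range_aeval]
    exact ⟨P, rfl⟩
  let π : MvPolynomial (Fin 2) k →ₐ[k] A := (MvPolynomial.aeval ![f, g]).codRestrict A hmem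
  have hπ : Function.Surjective π := by
    rintro ⟨a, ha⟩
    have ha' : a ∈ Algebra.adjoin k ({f, g} : Set E) := ha
    rw [← hS, Algebra.adjoin_range_eq_range_aeval] at ha'
    obtain ⟨P, hP⟩ := ha'
    exact ⟨P, Subtype.ext hP⟩
  have hker : RingHom.ker π.toRingHom = RingHom.ker (MvPolynomial.aeval (R := k) ![f, g]) := by
    ext P
    rw [RingHom.mem_ker, RingHom.mem_ker]
    exact ⟨fun h => congrArg Subtype.val h, fun h => Subtype.ext h⟩
  let j : A →ₐ[k] E' := AlgHom.liftOfSurjective π hπ (MvPolynomial.aeval ![F, G]) (by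
    rw [hker, h]
    exact le_refl _)
  have hj : ∀ P, j (π P) = MvPolynomial.aeval ![F, G] P := fun P => AlgHom.liftOfSurjective_apply _ _ _ _ _
  have hinj : Function.Injective j := by
    rw [injective_iff_map_eq_zero]
    intro a ha
    obtain ⟨P, rfl⟩ := hπ a
    rw [hj] at ha
    have h1 : P ∈ RingHom.ker (MvPolynomial.aeval (R := k) ![f, g]) := by rw [h]; exact ha
    rw [← hker] at h1
    exact h1
  let ρ : IntermediateField.adjoin k {f, g} →+* E' := IsFractionRing.lift (A := A) (K := IntermediateField.adjoin k {f, g})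
    (g := j.toRingHom) hinj
  have hρ : ∀ a : A, ρ (algebraMap A (IntermediateField.adjoin k {f, g}) a) = j a := fun a =>
    IsFractionRing.lift_algebraMap hinj a
  refine ⟨ρ, fun c => ?_, fun a ha => ?_, fun a ha => ?_⟩
  · have h1 : algebraMap k (IntermediateField.adjoin k {f, g}) c = algebraMap A _ (algebraMap k A c) := rfl
    rw [h1, hρ, AlgHom.commutes]
  · have h1 : a = algebraMap A (IntermediateField.adjoin k {f, g}) (π (MvPolynomial.X 0)) := by
      refine Subtype.ext ?_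
      rw [ha]
      show f = MvPolynomial.aeval ![f, g] (MvPolynomial.X 0)
      rw [MvPolynomial.aeval_X]
      rfl
    rw [h1, hρ, hj, MvPolynomial.aeval_X]
    rfl
  · have h1 : a = algebraMap A (IntermediateField.adjoin k {f, g}) (π (MvPolynomial.X 1)) := by
      refine Subtype.ext ?_
      rw [ha]
      show g = MvPolynomial.aeval ![f, g] (MvPolynomial.X 1)
      rw [MvPolynomial.aeval_X]
      rfl
    rw [h1, hρ, hj, MvPolynomial.aeval_X]
    rfl

/-- the set of the pairs in question -/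
def Pairs (k : Type v) {L0 : Type w} [Field k] [Field L0] [Algebra k L0] {m : ℕ} (e : Fin m → L0) (N : ℕ) :
    Set (L0 × L0) :=
  {p | Quo k e p.1 ∧ Quo k e p.2 ∧ p.1 ≠ 0 ∧ p.2 ≠ 0 ∧ (∀ v ∈ VN k L0, TameTors v N p.1 p.2) ∧
    TwoReg k (IntermediateField.adjoin k {p.1, p.2})}

theorem not_const {k : Type v} {L0 : Type w} [Field k] [Field L0] [Algebra k L0] {f g : L0}
    (h : TwoReg k (IntermediateField.adjoin k {f, g})) :
    ¬ ((∃ c : k, algebraMap k L0 c = f) ∧ ∃ c : k, algebraMap k L0 c = g) := by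
  rintro ⟨⟨c, hc⟩, ⟨c', hc'⟩⟩
  obtain ⟨x, _, _, _, hx, _⟩ := h
  have h1 : IntermediateField.adjoin k {f, g} = ⊥ := by
    rw [IntermediateField.adjoin_eq_bot_iff]
    rintro y (rfl | hy)
    · exact IntermediateField.mem_bot.2 ⟨c, hc⟩
    · rw [Set.mem_singleton_iff] at hy
      rw [hy]
      exact IntermediateField.mem_bot.2 ⟨c', hc'⟩
  have h2 : (x : L0) ∈ (⊥ : IntermediateField k L0) := by
    rw [← h1]; exact x.2
  obtain ⟨y, hy⟩ := IntermediateField.mem_bot.1 h2
  refine hx ?_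
  have h3 : x = algebraMap k _ y := Subtype.ext hy.symm
  rw [h3]
  exact isAlgebraic_algebraMap y

/-- **finiteness** -/
theorem finite_pairs {k : Type v} {L0 : Type w} [Field k] [IsAlgClosed k] [CharZero k]
    [Field L0] [Algebra k L0] (hL0 : IsFun k L0) {m : ℕ} (e : Fin m → L0) {N : ℕ} (hN : 0 < N) :
    (Pairs k e N).Finite := by
  by_contra hinf
  have hinf' : (Pairs k e N).Infinite := hinf
  let p : ℕ → L0 × L0 := fun n => (hinf'.natEmbedding _ n : L0 × L0)
  have hp : ∀ n, p n ∈ Pairs k e N := fun n => (hinf'.natEmbedding _ n).2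
  have hpinj : Function.Injective p := Subtype.val_injective.comp (hinf'.natEmbedding _).injective
  let f : ℕ → L0 := fun n => (p n).1
  let g : ℕ → L0 := fun n => (p n).2
  have hc : ∀ i, ¬ ((∃ c : k, algebraMap k L0 c = f i) ∧ ∃ c : k, algebraMap k L0 c = g i) := fun i =>
    not_const (hp i).2.2.2.2.2
  let U : Ultrafilter ℕ := hyperfilter ℕ
  obtain ⟨K, L, _, _, _, _, _, _, _, _, _, φ, ψ, hP, hφ, hψ1, hψ2, hrange⟩ := exists_ultra U (k := k) (L0 := L0)
  obtain ⟨F, hF⟩ := lift_quo U ψ hrange e f (fun i => (hp i).1) (fun i => (hp i).2.2.1)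
  obtain ⟨G, hG⟩ := lift_quo U ψ hrange e g (fun i => (hp i).2.1) (fun i => (hp i).2.2.2.1)
  have hψ0 : ∀ c : k, ψ (algebraMap k L c) =
      ((fun _ => algebraMap k L0 c : ℕ → L0) : (U : Filter ℕ).Germ L0) := fun c => by
    rw [IsScalarTower.algebraMap_apply k L0 L]
    exact hψ2 _
  have hun := lift_unram U hP hL0 φ ψ hφ hψ1 hψ2 hN f g (fun i => (hp i).2.2.2.2.1) F G hF hG
  -- not both constant
  have hconst : ¬ ((∃ a : K, algebraMap K L a = F) ∧ ∃ a : K, algebraMap K L a = G) := by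
    rintro ⟨⟨a, ha⟩, ⟨b, hb⟩⟩
    obtain ⟨s, hs⟩ := germ_rep U (φ a)
    obtain ⟨t, ht⟩ := germ_rep U (φ b)
    have h1 := hψ1 a s hs
    have h2 := hψ1 b t ht
    rw [ha, hF, Germ.coe_eq] at h1
    rw [hb, hG, Germ.coe_eq] at h2
    obtain ⟨i, hi1, hi2⟩ := (h1.and h2).exists
    exact hc i ⟨⟨s i, hi1.symm⟩, ⟨t i, hi2.symm⟩⟩
  have hdep := (rigid hP hL0 F G hun).resolve_right hconst
  rw [algebraicIndependent_iff] at hdep
  push Not at hdep
  obtain ⟨Q, hQ, hQ0⟩ := hdep
  -- the kernels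
  obtain ⟨T, hT⟩ := (isNoetherianRing_iff_ideal_fg (MvPolynomial (Fin 2) k)).1 inferInstance
    (RingHom.ker (MvPolynomial.aeval (R := k) ![(F : L), (G : L)]))
  have h1 : ∀ᶠ n in (U : Filter ℕ), ∀ P ∈ T, MvPolynomial.aeval ![f n, g n] P = 0 := by
    rw [Filter.eventually_all_finset]
    intro P hP
    have h2 : P ∈ RingHom.ker (MvPolynomial.aeval (R := k) ![(F : L), (G : L)]) := by
      rw [← hT]
      exact Ideal.subset_span hP
    have h3 := lift_poly U ψ hψ0 hF hG P
    have h4 : MvPolynomial.aeval ![(F : L), (G : L)] P = 0 := h2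
    rw [h4, map_zero, ← Germ.coe_zero, Germ.coe_eq] at h3
    filter_upwards [h3] with i hi
    exact hi.symm
  obtain ⟨n0, hn0⟩ := h1.exists
  have hle : RingHom.ker (MvPolynomial.aeval (R := k) ![(F : L), (G : L)]) ≤
      RingHom.ker (MvPolynomial.aeval (R := k) ![f n0, g n0]) := by
    rw [← hT, Ideal.span_le]
    exact fun P hP => hn0 P hP
  have hker := le_antisymm (ker_eq hle hQ0 hQ (hc n0)) hle
  obtain ⟨ρ, hρk, hρf, hρg⟩ := exists_rho hker
  -- `k(f, g)` is a function field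
  have hM : IsFun k (IntermediateField.adjoin k {f n0, g n0}) := by
    have key : ∀ t : L0, t ∈ ({f n0, g n0} : Set L0) → (¬ ∃ c : k, algebraMap k L0 c = t) →
        IsFun k (IntermediateField.adjoin k {f n0, g n0}) := by
      intro t ht hct
      have htt : Transcendental k t := fun h => hct (mem_of_alg h)
      have hfin := hL0.alg htt
      have hta : Algebra.IsAlgebraic k⟮t⟯ L0 := Algebra.IsAlgebraic.of_finite _ _
      obtain ⟨h1, h2⟩ := isFun_adjoin htt hta {f n0, g n0} (Set.toFinite _) ht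
      exact ⟨_, h1, h2⟩
    by_cases hcf : ∃ c : k, algebraMap k L0 c = f n0
    · by_cases hcg : ∃ c : k, algebraMap k L0 c = g n0
      · exact absurd ⟨hcf, hcg⟩ (hc n0)
      · exact key _ (Or.inr rfl) hcg
    · exact key _ (Or.inl rfl) hcf
  let fM : IntermediateField.adjoin k {f n0, g n0} := ⟨f n0, IntermediateField.subset_adjoin _ _ (Or.inl rfl)⟩
  let gM : IntermediateField.adjoin k {f n0, g n0} := ⟨g n0, IntermediateField.subset_adjoin _ _ (Or.inr rfl)⟩
  rcases deFranchis hP hL0 hM (hp n0).2.2.2.2.2 ρ hρk with h | h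
  · obtain ⟨a, ha⟩ := h fM
    obtain ⟨b, hb⟩ := h gM
    exact hconst ⟨⟨a, by rw [ha, hρf fM rfl]⟩, ⟨b, by rw [hb, hρg gM rfl]⟩⟩
  · obtain ⟨a, ha⟩ := h fM
    obtain ⟨b, hb⟩ := h gM
    rw [hρf fM rfl] at ha
    rw [hρg gM rfl] at hb
    have h5 := hψ2 a
    have h6 := hψ2 b
    rw [ha, hF, Germ.coe_eq] at h5
    rw [hb, hG, Germ.coe_eq] at h6
    have h7 : ∀ᶠ n in (U : Filter ℕ), p n = (a, b) := by
      filter_upwards [h5, h6] with n hn1 hn2
      exact Prod.ext hn1 hn2
    have h8 : {n : ℕ | p n = (a, b)}.Finite := by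
      refine Set.Subsingleton.finite fun x hx y hy => hpinj ?_
      rw [Set.mem_ofPred_eq] at hx hy
      rw [hx, hy]
    have h9 : {n : ℕ | p n = (a, b)}ᶜ ∈ (U : Filter ℕ) := by
      exact Filter.hyperfilter_le_cofinite h8.compl_mem_cofinite
    obtain ⟨n, hn1, hn2⟩ := (h7.and h9).exists
    exact hn2 hn1

end Pool.Agent.Helper79.RG
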