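import Pool.Agent.Helper79.RG.LK
import Pool.Agent.Helper79.RG.DS
import Pool.Agent.Helper79.RG.FIN
import Pool.Agent.Helper79.RG.BC2
import Pool.Agent.Helper79.RG.NBG
import Pool.Agent.Helper79.RG.QB
import Pool.Agent.Helper79.RG.IL

set_option autoImplicit false

/-!
# Finitely many classes of unramified symbols in a finitely generated extension
-/

set_option linter.unusedSectionVars false

universe u

namespace Pool.Agent.Helper79.RG

open scoped WithZero IntermediateField.algebraAdjoinAdjoin
open IntermediateField Filter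
open Pool.Agent.Helper79.FE
open Pool.Agent.TH826.MK (KQ symb unitPart)
open Pool.Agent.Helper537_Sym

/-- one algebraic entry -/
theorem one_alg {K L : Type*} [Field K] [CharZero K] [Field L] [Algebra K L] (hL : IsFun K L) (f g : Lˣ)
    (hfg : ∀ v ∈ VN K L, sy f g ∈ unitPart v 2) (hf : IsAlgebraic K (f : L))
    (hg : Transcendental K (g : L)) : sy f g = 0 := by
  have hfin := hL.alg hg
  obtain ⟨v, hv, hvg⟩ := exists_zero (N := K) (g : L) hg
  obtain ⟨n, hn, hvn⟩ := tame_tors v f g (hfg v hv) (val_alg hv f.ne_zero hf) (ne_of_lt hvg)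
  have h1 : f ^ n = 1 := by
    refine Units.ext ?_
    rw [Units.val_pow_eq_pow_val, Units.val_one]
    by_contra hne
    have h2 : v ((f : L) ^ n - 1) = 1 := val_alg hv (sub_ne_zero.2 hne) ((hf.pow n).sub isAlgebraic_one)
    rw [h2] at hvn
    exact lt_irrefl _ hvn
  rw [sy_swap, sy_tors_right g f n hn h1, neg_zero]

theorem quo_map {K L k L0 : Type*} [Field K] [Field L] [Algebra K L] [Field k] [Field L0] [Algebra K k] [Algebra k L0]
    [Algebra L L0] [Algebra K L0] [IsScalarTower K k L0] [IsScalarTower K L L0] {m : ℕ} {e : Fin m → L} {f : L}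
    (hf : Quo K e f) : Quo k (fun i => algebraMap L L0 (e i)) (algebraMap L L0 f) := by
  have key : ∀ a : L, a ∈ Submodule.span K (Set.range e) →
      algebraMap L L0 a ∈ Submodule.span k (Set.range fun i => algebraMap L L0 (e i)) := by
    intro a ha
    induction ha using Submodule.span_induction with
    | mem x hx =>
      obtain ⟨i, rfl⟩ := hx
      exact Submodule.subset_span ⟨i, rfl⟩
    | zero => rw [map_zero]; exact zero_mem _
    | add x y _ _ hx hy => rw [map_add]; exact add_mem hx hy
    | smul c x _ hx =>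
      rw [Algebra.smul_def, map_mul, ← IsScalarTower.algebraMap_apply, IsScalarTower.algebraMap_apply K k L0,
        ← Algebra.smul_def]
      exact Submodule.smul_mem _ _ hx
  obtain ⟨a, b, ha, hb, hb0, rfl⟩ := hf
  exact ⟨_, _, key a ha, key b hb, (map_ne_zero _).2 hb0, map_div₀ _ _ _⟩

theorem quo_base {K K1 L : Type*} [Field K] [Field K1] [Field L] [Algebra K K1] [Algebra K L] [Algebra K1 L]
    [IsScalarTower K K1 L] {m : ℕ} {e : Fin m → L} {f : L} (hf : Quo K e f) : Quo K1 e f := by
  have key : ∀ a : L, a ∈ Submodule.span K (Set.range e) → a ∈ Submodule.span K1 (Set.range e) := by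
    intro a ha
    induction ha using Submodule.span_induction with
    | mem x hx => exact Submodule.subset_span hx
    | zero => exact zero_mem _
    | add x y _ _ hx hy => exact add_mem hx hy
    | smul c x _ hx =>
      rw [← IsScalarTower.algebraMap_smul K1 c x]
      exact Submodule.smul_mem _ _ hx
  obtain ⟨a, b, ha, hb, hb0, rfl⟩ := hf
  exact ⟨a, b, key a ha, key b hb, hb0, rfl⟩

/-- the one-dimensional case, inside the algebraic closure of `L` -/
theorem curve_case {K L : Type u} [Field K] [CharZero K] [Field L] [Algebra K L] (hL : IsFun K L)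
    (hRB : ∀ D, ∃ B, RB K D B) {m : ℕ} (e : Fin m → L) {C : Type u} [Field C] [Algebra C (AlgebraicClosure L)]
    (hC : ∀ x : AlgebraicClosure L, IsAlgebraic K x → ∃ c : C, algebraMap C (AlgebraicClosure L) c = x) :
    {z : KQ (AlgebraicClosure L) 2 ⧸ LinearMap.range (KQ.map 2 (algebraMap C (AlgebraicClosure L))) |
      ∃ f g : Lˣ, Quo K e (f : L) ∧ Quo K e (g : L) ∧ (∀ v ∈ VN K L, sy f g ∈ unitPart v 2) ∧
      z = Submodule.Quotient.mk (KQ.map 2 (algebraMap L (AlgebraicClosure L)) (sy f g))}.Finite := by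
  obtain ⟨k, L0, _, _, _, _, _, _, _, _, _, _, _, _, _, _, _, _, hL0, htr, hdeg⟩ := exists_bc2 hL
  obtain ⟨D, hD⟩ := quo_degree hL e
  obtain ⟨B, hB⟩ := hRB D
  obtain ⟨N, hN, hbound⟩ := tame_bound_gen.{u, u, u} K hB
  have hfin := finite_classes hL0 (fun i => algebraMap L L0 (e i)) hN
  -- `k → C`
  obtain ⟨i, hi⟩ := exists_hom (R1 := k) (R2 := C) (L := AlgebraicClosure L)
    (algebraMap C (AlgebraicClosure L)).injective (fun a => hC _ (by
      exact (Algebra.IsAlgebraic.isAlgebraic (R := K) a).algebraMap))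
  let Φ : (KQ L0 2 ⧸ LinearMap.range (KQ.map 2 (algebraMap k L0))) →ₗ[ℚ]
      (KQ (AlgebraicClosure L) 2 ⧸ LinearMap.range (KQ.map 2 (algebraMap C (AlgebraicClosure L)))) :=
    Submodule.mapQ _ _ (KQ.map 2 (algebraMap L0 (AlgebraicClosure L))) (by
      rintro _ ⟨y, rfl⟩
      refine ⟨KQ.map 2 i y, ?_⟩
      rw [kmap_map i (algebraMap C (AlgebraicClosure L)) (algebraMap k (AlgebraicClosure L)) hi,
        kmap_map (algebraMap k L0) (algebraMap L0 (AlgebraicClosure L)) (algebraMap k (AlgebraicClosure L))
        (fun x => (IsScalarTower.algebraMap_apply k L0 (AlgebraicClosure L) x).symm)])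
  refine ((hfin.image Φ).union (Set.finite_singleton 0)).subset ?_
  rintro z ⟨f, g, hqf, hqg, hun, rfl⟩
  by_cases hf : Transcendental K (f : L)
  · by_cases hg : Transcendental K (g : L)
    · left
      refine ⟨Submodule.Quotient.mk (sy (Units.map ((algebraMap L L0 : L →+* L0) : L →* L0) f)
        (Units.map ((algebraMap L L0 : L →+* L0) : L →* L0) g)), ⟨_, _, quo_map hqf, quo_map hqg, fun v hv => ?_, rfl⟩, ?_⟩
      · refine hbound f g hf (hL.alg hf) (hD _ hqf hf) hg (hL.alg hg) (hD _ hqg hg) hun v fun x hx => ?_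
        rw [← IsScalarTower.algebraMap_apply K L L0, IsScalarTower.algebraMap_apply K k L0]
        exact hv.2 _ ((map_ne_zero _).2 hx)
      · show Submodule.Quotient.mk (KQ.map 2 (algebraMap L0 (AlgebraicClosure L)) _) = _
        rw [← map_sy', kmap_map (algebraMap L L0) (algebraMap L0 (AlgebraicClosure L)) (algebraMap L (AlgebraicClosure L))
          (fun x => (IsScalarTower.algebraMap_apply L L0 (AlgebraicClosure L) x).symm)]
    · right
      have h1 : sy f g = 0 := by
        rw [sy_swap, one_alg hL g f (fun v hv => unitPart_swap v f g (hun v hv)) (not_not.1 hg) hf, neg_zero]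
      rw [h1, map_zero, Submodule.Quotient.mk_zero]
      rfl
  · right
    by_cases hg : Transcendental K (g : L)
    · rw [one_alg hL f g hun (not_not.1 hf) hg, map_zero, Submodule.Quotient.mk_zero]
      rfl
    · obtain ⟨a, ha⟩ := hC (algebraMap L (AlgebraicClosure L) (f : L)) (not_not.1 hf).algebraMap
      obtain ⟨b, hb⟩ := hC (algebraMap L (AlgebraicClosure L) (g : L)) (not_not.1 hg).algebraMap
      let F : (AlgebraicClosure L)ˣ := Units.map ((algebraMap L (AlgebraicClosure L) : L →+* _) : L →* _) f
      let G : (AlgebraicClosure L)ˣ := Units.map ((algebraMap L (AlgebraicClosure L) : L →+* _) : L →* _) g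
      have hF : algebraMap C (AlgebraicClosure L) a = (F : AlgebraicClosure L) := ha
      have hG : algebraMap C (AlgebraicClosure L) b = (G : AlgebraicClosure L) := hb
      obtain ⟨a', ha'⟩ := unit_sub a F hF
      obtain ⟨b', hb'⟩ := unit_sub b G hG
      rw [map_sy']
      have h2 : (Submodule.Quotient.mk (sy F G) :
          KQ (AlgebraicClosure L) 2 ⧸ LinearMap.range (KQ.map 2 (algebraMap C (AlgebraicClosure L)))) = 0 := by
        rw [Submodule.Quotient.mk_eq_zero]
        exact ⟨sy a' b', by rw [map_sy', ha', hb']⟩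
      exact h2

end Pool.Agent.Helper79.RG
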