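import Pool.Agent.Helper79.RG.VV

set_option autoImplicit false

/-!
# Fields generated by subsets of a transcendence basis; the classes in a finitely generated extension
-/

set_option linter.unusedSectionVars false

universe u

namespace Pool.Agent.Helper79.RG

open scoped WithZero IntermediateField.algebraAdjoinAdjoin
open IntermediateField Filter
open Pool.Agent.Helper79.FE
open Pool.Agent.TH826.MK (KQ symb unitPart)
open Pool.Agent.Helper537_Sym

/-- transfer of algebraicity -/
theorem alg_over {F1 F2 E Ω : Type*} [Field F1] [Field F2] [Field E] [Field Ω] [Algebra F1 Ω] [Algebra F2 E]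
    [Algebra E Ω] (h : ∀ a : F1, ∃ b : F2, algebraMap E Ω (algebraMap F2 E b) = algebraMap F1 Ω a) (x : E)
    (hx : IsAlgebraic F1 (algebraMap E Ω x)) : IsAlgebraic F2 x := by
  let _ : Algebra F2 Ω := ((algebraMap E Ω).comp (algebraMap F2 E)).toAlgebra
  obtain ⟨i, hi⟩ := exists_hom (R1 := F1) (R2 := F2) (L := Ω) (algebraMap F2 Ω).injective h
  obtain ⟨p, hp, hpx⟩ := hx
  refine ⟨p.map i, (Polynomial.map_ne_zero_iff i.injective).2 hp, ?_⟩
  apply (algebraMap E Ω).injective
  rw [Polynomial.aeval_def, Polynomial.eval₂_map, Polynomial.hom_eval₂, map_zero, ← hpx, Polynomial.aeval_def]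
  congr 1
  ext a
  exact hi a

section
variable {K L : Type u} (Ω : Type u) [Field K] [Field L] [Algebra K L] [Field Ω] [Algebra L Ω] [Algebra K Ω]
  [IsScalarTower K L Ω]

/-- the algebraic closure of `K(A)` in `Ω`, an extension of `L` -/
noncomputable def KA (K : Type u) {L : Type u} (Ω : Type u) [Field K] [Field L] [Algebra K L] [Field Ω]
    [Algebra L Ω] [Algebra K Ω] [IsScalarTower K L Ω] (A : Set L) : IntermediateField K Ω :=
  (algebraicClosure (IntermediateField.adjoin K A) Ω).restrictScalars K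

theorem mem_KA (A : Set L) (x : Ω) : x ∈ KA K Ω A ↔ IsAlgebraic (IntermediateField.adjoin K A) x := by
  show x ∈ algebraicClosure (IntermediateField.adjoin K A) Ω ↔ _
  exact mem_algebraicClosure_iff

theorem KA_closed [IsAlgClosed Ω] (A : Set L) : IsAlgClosed (KA K Ω A) :=
  (inferInstance : IsAlgClosure (IntermediateField.adjoin K A)
    (algebraicClosure (IntermediateField.adjoin K A) Ω)).isAlgClosed

theorem KA_mem (A : Set L) (a : L) (ha : a ∈ IntermediateField.adjoin K A) : algebraMap L Ω a ∈ KA K Ω A := by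
  rw [mem_KA]
  have h1 := isAlgebraic_algebraMap (R := IntermediateField.adjoin K A) (A := Ω) ⟨a, ha⟩
  exact h1

theorem KA_mono {A B : Set L} (h : A ⊆ B) : KA K Ω A ≤ KA K Ω B := by
  intro x hx
  rw [mem_KA] at hx ⊢
  refine alg_over (Ω := Ω) (F1 := IntermediateField.adjoin K A) (fun a => ?_) x hx
  exact ⟨⟨a, IntermediateField.adjoin.mono K A B h a.2⟩, rfl⟩

/-- the elements of `KA K (A ∪ {t})` are algebraic over `KA K A (t)` -/
theorem KA_insert (A : Set L) (t : L) (x : Ω) (hx : IsAlgebraic (IntermediateField.adjoin K (insert t A)) x) :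
    IsAlgebraic (IntermediateField.adjoin (KA K Ω A) {algebraMap L Ω t}) x := by
  refine alg_over (Ω := Ω) (F1 := IntermediateField.adjoin K (insert t A)) (fun a => ?_) x hx
  obtain ⟨a, ha⟩ := a
  show ∃ b : IntermediateField.adjoin (KA K Ω A) {algebraMap L Ω t}, (b : Ω) = algebraMap L Ω a
  suffices h : algebraMap L Ω a ∈ IntermediateField.adjoin (KA K Ω A) {algebraMap L Ω t} from ⟨⟨_, h⟩, rfl⟩
  have hk : ∀ y ∈ IntermediateField.adjoin K A,
      algebraMap L Ω y ∈ IntermediateField.adjoin (KA K Ω A) {algebraMap L Ω t} := fun y hy =>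
    IntermediateField.algebraMap_mem _ (⟨_, KA_mem Ω A y hy⟩ : KA K Ω A)
  induction ha using IntermediateField.adjoin_induction with
  | mem y hy =>
    rcases hy with rfl | hy
    · exact IntermediateField.mem_adjoin_simple_self _ _
    · exact hk y (IntermediateField.subset_adjoin K A hy)
  | algebraMap y => exact hk _ (IntermediateField.algebraMap_mem _ y)
  | add x y _ _ hx hy => rw [map_add]; exact add_mem hx hy
  | inv x _ hx => rw [map_inv₀]; exact inv_mem hx
  | mul x y _ _ hx hy => rw [map_mul]; exact mul_mem hx hy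

end

/-- an element of a transcendence basis is transcendental over the field generated by the others -/
theorem basis_trans {K L : Type u} [Field K] [Field L] [Algebra K L] {u : Set L}
    (hu : IsTranscendenceBasis K ((↑) : u → L)) {A : Set L} (hA : A ⊆ u) {t : L} (ht : t ∈ u) (htA : t ∉ A) :
    Transcendental (IntermediateField.adjoin K A) t := by
  have h1 := hu.1.transcendental_adjoin (s := Subtype.val ⁻¹' A) (i := ⟨t, ht⟩) htA
  rw [Subtype.image_preimage_coe, Set.inter_eq_self_of_subset_right hA] at h1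
  intro h2
  exact h1 ((IsFractionRing.isAlgebraic_iff (Algebra.adjoin K A) (IntermediateField.adjoin K A) L).2 h2)

theorem basis_alg {K L : Type u} [Field K] [Field L] [Algebra K L] {u : Set L}
    (hu : IsTranscendenceBasis K ((↑) : u → L)) : Algebra.IsAlgebraic (IntermediateField.adjoin K u) L := by
  have h1 := hu.isAlgebraic
  rw [Subtype.range_coe] at h1
  exact ⟨fun x => (IsFractionRing.isAlgebraic_iff (Algebra.adjoin K u) (IntermediateField.adjoin K u) L).1
    (h1.isAlgebraic x)⟩

theorem kmap_id {F : Type*} [Field F] (z : KQ F 2) : KQ.map 2 (RingHom.id F) z = z := by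
  have hs := sy_span z
  induction hs using Submodule.span_induction with
  | mem x hx =>
    obtain ⟨p, rfl⟩ := hx
    show KQ.map 2 _ (sy p.1 p.2) = sy p.1 p.2
    rw [map_sy']
    congr 1
  | zero => rw [map_zero]
  | add x y _ _ hx hy => rw [map_add, hx, hy]
  | smul c x _ hx => rw [map_smul, hx]

/-- one step -/
theorem inter_step {K Ω : Type u} [Field K] [CharZero K] [Field Ω] [Algebra K Ω] (k K' M : IntermediateField K Ω)
    (hkK : k ≤ K') (hkM : k ≤ M) [IsAlgClosed k] [IsAlgClosed K'] (t : Ω) (htM : t ∈ M) (htK : t ∉ K')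
    (hM : ∀ x ∈ M, IsAlgebraic (IntermediateField.adjoin k {t}) x)
    (hΩ : ∀ x : Ω, IsAlgebraic (IntermediateField.adjoin K' {t}) x) (z : KQ Ω 2)
    (h1 : z ∈ LinearMap.range (KQ.map 2 (algebraMap M Ω))) (h2 : z ∈ LinearMap.range (KQ.map 2 (algebraMap K' Ω))) :
    z ∈ LinearMap.range (KQ.map 2 (algebraMap k Ω)) := by
  have hΩc : CharZero Ω := charZero_of_injective_algebraMap (algebraMap K Ω).injective
  have hc1 : CharZero k := (algebraMap k Ω).charZero
  have hc2 : CharZero K' := (algebraMap K' Ω).charZero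
  obtain ⟨η, hη⟩ := h1
  obtain ⟨η', hη'⟩ := h2
  let _ : Algebra k M := (IntermediateField.inclusion hkM).toRingHom.toAlgebra
  let _ : Algebra k K' := (IntermediateField.inclusion hkK).toRingHom.toAlgebra
  have s1 : IsScalarTower k M Ω := IsScalarTower.of_algebraMap_eq fun x => rfl
  have s2 : IsScalarTower k K' Ω := IsScalarTower.of_algebraMap_eq fun x => rfl
  let t' : M := ⟨t, htM⟩
  have ht' : Transcendental K' (algebraMap M Ω t') := by
    intro h
    obtain ⟨c, hc⟩ := alg_mem h
    apply htK
    have h3 : t = (c : Ω) := hc.symm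
    rw [h3]
    exact c.2
  have hM' : Algebra.IsAlgebraic k⟮t'⟯ M := by
    constructor
    intro x
    refine alg_over (Ω := Ω) (F1 := IntermediateField.adjoin k {t}) (fun a => ?_) x (hM x x.2)
    obtain ⟨a, ha⟩ := a
    show ∃ b : k⟮t'⟯, algebraMap M Ω (b : M) = a
    induction ha using IntermediateField.adjoin_induction with
    | mem y hy =>
      rw [Set.mem_singleton_iff.1 hy]
      exact ⟨⟨t', IntermediateField.mem_adjoin_simple_self k t'⟩, rfl⟩
    | algebraMap y => exact ⟨algebraMap k k⟮t'⟯ y, rfl⟩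
    | add x y _ _ hx hy =>
      obtain ⟨b, hb⟩ := hx
      obtain ⟨c, hc⟩ := hy
      exact ⟨b + c, by rw [IntermediateField.coe_add, map_add, hb, hc]⟩
    | inv x _ hx =>
      obtain ⟨b, hb⟩ := hx
      exact ⟨b⁻¹, by rw [IntermediateField.coe_inv, map_inv₀, hb]⟩
    | mul x y _ _ hx hy =>
      obtain ⟨b, hb⟩ := hx
      obtain ⟨c, hc⟩ := hy
      exact ⟨b * c, by rw [IntermediateField.coe_mul, map_mul, hb, hc]⟩
  have hΩ' : Algebra.IsAlgebraic K'⟮algebraMap M Ω t'⟯ Ω := ⟨fun x => hΩ x⟩
  obtain ⟨y, hy⟩ := inter (k := k) (K := K') (M := M) (Ω := Ω) t' ht' hM' hΩ' η η' (by rw [hη, hη'])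
  exact ⟨y, by rw [hy, hη]⟩

/-- the intersection over all the elements of a transcendence basis -/
theorem inter_all {K L Ω : Type u} [Field K] [CharZero K] [Field L] [Algebra K L] [Field Ω] [IsAlgClosed Ω]
    [Algebra L Ω] [Algebra K Ω] [IsScalarTower K L Ω] [Algebra.IsAlgebraic L Ω] (u : Set L)
    (hu : IsTranscendenceBasis K ((↑) : u → L)) (z : KQ Ω 2)
    (hz : ∀ j ∈ u, z ∈ LinearMap.range (KQ.map 2 (algebraMap (KA K Ω (u \ {j})) Ω))) :
    ∀ B : Finset L, (B : Set L) ⊆ u →
      z ∈ LinearMap.range (KQ.map 2 (algebraMap (KA K Ω (u \ (B : Set L))) Ω)) := by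
  classical
  have hbu := basis_alg hu
  -- all elements are algebraic over `K(u)`
  have halg : ∀ x : Ω, IsAlgebraic (IntermediateField.adjoin K u) x := by
    intro x
    have h1 : Algebra.IsAlgebraic (IntermediateField.adjoin K u) Ω :=
      Algebra.IsAlgebraic.trans _ L _
    exact h1.isAlgebraic x
  intro B
  induction B using Finset.induction_on with
  | empty =>
    intro _
    have h1 : ∀ x : Ω, x ∈ KA K Ω (u \ ((∅ : Finset L) : Set L)) := by
      intro x
      rw [mem_KA, Finset.coe_empty, Set.diff_empty]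
      exact halg x
    obtain ⟨i, hi⟩ := exists_hom (R1 := Ω) (R2 := KA K Ω (u \ ((∅ : Finset L) : Set L)))
      (L := Ω) (algebraMap (KA K Ω (u \ ((∅ : Finset L) : Set L))) Ω).injective
      (fun a => ⟨⟨a, h1 a⟩, rfl⟩)
    refine ⟨KQ.map 2 i z, ?_⟩
    rw [kmap_map i (algebraMap _ Ω) (RingHom.id _) hi, kmap_id]
  | insert t B htB ih =>
    intro hB
    rw [Finset.coe_insert, Set.insert_subset_iff] at hB
    obtain ⟨ht, hB⟩ := hB
    -- the fields
    have hset : insert t (u \ ((insert t B : Finset L) : Set L)) = u \ (B : Set L) := by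
      ext x
      simp only [Finset.coe_insert, Set.mem_insert_iff, Set.mem_diff, Finset.mem_coe, not_or]
      constructor
      · rintro (rfl | ⟨h1, h2, h3⟩)
        · exact ⟨ht, htB⟩
        · exact ⟨h1, h3⟩
      · rintro ⟨h1, h2⟩
        by_cases h : x = t
        · exact Or.inl h
        · exact Or.inr ⟨h1, h, h2⟩
    have hset2 : insert t (u \ {t}) = u := by
      rw [Set.insert_diff_singleton, Set.insert_eq_of_mem ht]
    have hkM : KA K Ω (u \ ((insert t B : Finset L) : Set L)) ≤ KA K Ω (u \ (B : Set L)) :=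
      KA_mono Ω (fun x hx => by rw [← hset]; exact Set.mem_insert_of_mem _ hx)
    have hkK : KA K Ω (u \ ((insert t B : Finset L) : Set L)) ≤ KA K Ω (u \ {t}) :=
      KA_mono Ω (fun x hx => ⟨hx.1, fun h => hx.2 (by rw [Set.mem_singleton_iff.1 h]; simp)⟩)
    have c1 := KA_closed (K := K) Ω (u \ ((insert t B : Finset L) : Set L))
    have c2 := KA_closed (K := K) Ω (u \ {t})
    have htM : t ∈ IntermediateField.adjoin K (u \ (B : Set L)) := IntermediateField.subset_adjoin _ _ ⟨ht, htB⟩
    refine inter_step _ _ _ hkK hkM (algebraMap L Ω t) (KA_mem Ω _ t htM) ?_ ?_ ?_ z (ih hB) (hz t ht)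
    · intro h2
      rw [mem_KA] at h2
      exact basis_trans hu (A := u \ {t}) Set.diff_subset ht (fun h => h.2 rfl)
        ((isAlgebraic_algebraMap_iff (algebraMap L Ω).injective).1 h2)
    · intro x hx
      refine KA_insert Ω _ t x ?_
      rw [mem_KA] at hx
      rw [hset]
      exact hx
    · intro x
      refine KA_insert Ω _ t x ?_
      rw [hset2]
      exact halg x

end Pool.Agent.Helper79.RG
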