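import Pool.Agent.Helper79.RG.VW

set_option autoImplicit false

/-!
# Finitely many classes of unramified symbols in a finitely generated extension
-/

set_option linter.unusedSectionVars false

universe u

namespace Pool.Agent.Helper79.RG

open scoped WithZero IntermediateField.algebraAdjoinAdjoin
open IntermediateField Filter
open Pool.Agent.Helper79.FE
open Pool.Agent.TH826.MK (KQ symb unitPart)
open Pool.Agent.Helper537_Sym

/-- a finitely generated algebraic extension is finite -/
theorem fin_of_fg {K F L : Type*} [Field K] [Field F] [Field L] [Algebra K F] [Algebra K L] [Algebra F L]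
    [IsScalarTower K F L] [Algebra.IsAlgebraic F L] (S : Finset L)
    (hS : IntermediateField.adjoin K (S : Set L) = ⊤) : FiniteDimensional F L := by
  have h1 : IntermediateField.adjoin F (S : Set L) = ⊤ := by
    rw [eq_top_iff]
    intro x _
    have h2 : x ∈ IntermediateField.adjoin K (S : Set L) := by rw [hS]; exact IntermediateField.mem_top
    have h3 : IntermediateField.adjoin K (S : Set L) ≤
        (IntermediateField.adjoin F (S : Set L)).restrictScalars K :=
      IntermediateField.adjoin_le_iff.2 (IntermediateField.subset_adjoin F (S : Set L))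
    exact h3 h2
  have h4 : FiniteDimensional F (IntermediateField.adjoin F (S : Set L)) :=
    IntermediateField.finiteDimensional_adjoin fun x _ => Algebra.IsIntegral.isIntegral x
  rw [h1] at h4
  exact (IntermediateField.topEquiv (F := F) (E := L)).toLinearEquiv.finiteDimensional

/-- function field of one variable over `K(u - {j})` -/
theorem basis_isFun {K L : Type u} [Field K] [Field L] [Algebra K L] {u : Set L}
    (hu : IsTranscendenceBasis K ((↑) : u → L)) (S : Finset L) (hS : IntermediateField.adjoin K (S : Set L) = ⊤)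
    {t : L} (ht : t ∈ u) : IsFun (IntermediateField.adjoin K (u \ {t})) L := by
  refine ⟨t, basis_trans hu Set.diff_subset ht (fun h => h.2 rfl), ?_⟩
  have h1 := basis_alg hu
  have h2 : Algebra.IsAlgebraic (IntermediateField.adjoin K (u \ {t}))⟮t⟯ L := by
    constructor
    intro x
    have h3 : ∀ a ∈ IntermediateField.adjoin K u, a ∈ (IntermediateField.adjoin K (u \ {t}))⟮t⟯ := by
      intro a ha
      induction ha using IntermediateField.adjoin_induction with
      | mem y hy =>
        by_cases h : y = t
        · rw [h]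
          exact IntermediateField.mem_adjoin_simple_self _ _
        · have h5 : y ∈ IntermediateField.adjoin K (u \ {t}) := IntermediateField.subset_adjoin K _ ⟨hy, h⟩
          have h6 := IntermediateField.algebraMap_mem (IntermediateField.adjoin K (u \ {t}))⟮t⟯ ⟨y, h5⟩
          exact h6
      | algebraMap y =>
        have h6 := IntermediateField.algebraMap_mem (IntermediateField.adjoin K (u \ {t}))⟮t⟯
          (algebraMap K (IntermediateField.adjoin K (u \ {t})) y)
        exact h6
      | add x y _ _ hx hy => exact add_mem hx hy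
      | inv x _ hx => exact inv_mem hx
      | mul x y _ _ hx hy => exact mul_mem hx hy
    refine alg_over (Ω := L) (F1 := IntermediateField.adjoin K u) (fun a => ?_) x (h1.isAlgebraic x)
    exact ⟨⟨a, h3 a a.2⟩, rfl⟩
  have h4 : IsScalarTower K (IntermediateField.adjoin K (u \ {t}))⟮t⟯ L :=
    IsScalarTower.of_algebraMap_eq fun x => rfl
  exact fin_of_fg (K := K) S hS

/-- **finitely many classes**: a finitely generated extension of a field with finitely many roots of unity of
every degree -/
theorem classes_var {K L : Type u} [Field K] [CharZero K] [Field L] [Algebra K L]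
    (hfg : ∃ S : Finset L, IntermediateField.adjoin K (S : Set L) = ⊤)
    (hK : ∀ x : L, IsAlgebraic K x → ∃ c : K, algebraMap K L c = x) (hRB : ∀ D, ∃ B, RB K D B)
    {m : ℕ} (e : Fin m → L) :
    {z : KQ L 2 ⧸ LinearMap.range (KQ.map 2 (algebraMap K L)) | ∃ f g : Lˣ, (Quo K e (f : L) ∧ Quo K e (g : L) ∧
      ∀ v ∈ VN K L, sy f g ∈ unitPart v 2) ∧ z = Submodule.Quotient.mk (sy f g)}.Finite := by
  classical
  obtain ⟨S, hS⟩ := hfg
  have hLc : CharZero L := charZero_of_injective_algebraMap (algebraMap K L).injective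
  let Ω := AlgebraicClosure L
  -- the transcendence basis
  have hS' : Algebra.IsAlgebraic (Algebra.adjoin K (S : Set L)) L := by
    constructor
    intro x
    rw [IsFractionRing.isAlgebraic_iff (Algebra.adjoin K (S : Set L)) (IntermediateField.adjoin K (S : Set L)) L]
    have hx : x ∈ IntermediateField.adjoin K (S : Set L) := by rw [hS]; exact IntermediateField.mem_top
    exact isAlgebraic_algebraMap (⟨x, hx⟩ : IntermediateField.adjoin K (S : Set L))
  obtain ⟨u, huS, hu⟩ := exists_isTranscendenceBasis_subset (R := K) (S : Set L)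
  have hufin : u.Finite := S.finite_toSet.subset huS
  have hufin' : Finite u := hufin.to_subtype
  -- the constants of the intermediate fields
  have hKu : ∀ j : L, (∀ x : IntermediateField.adjoin K (u \ {j}), IsAlgebraic K x →
      ∃ c : K, algebraMap K (IntermediateField.adjoin K (u \ {j})) c = x) := by
    intro j x hx
    obtain ⟨c, hc⟩ := hK (x : L) (hx.algebraMap)
    exact ⟨c, Subtype.ext hc⟩
  -- the finite sets
  have hZ : ∀ j : u, {z : KQ Ω 2 ⧸ LinearMap.range (KQ.map 2 (algebraMap (KA K Ω (u \ {(j : L)})) Ω)) |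
      ∃ f g : Lˣ, Quo (IntermediateField.adjoin K (u \ {(j : L)})) e (f : L) ∧
        Quo (IntermediateField.adjoin K (u \ {(j : L)})) e (g : L) ∧
        (∀ v ∈ VN (IntermediateField.adjoin K (u \ {(j : L)})) L, sy f g ∈ unitPart v 2) ∧
      z = Submodule.Quotient.mk (KQ.map 2 (algebraMap L Ω) (sy f g))}.Finite := by
    intro j
    refine curve_case (basis_isFun hu S hS j.2) (fun D => ?_) e (C := KA K Ω (u \ {(j : L)})) (fun x hx => ?_)
    · obtain ⟨B, hB⟩ := hRB D
      exact ⟨B, rb_ext (hKu j) hB⟩
    · exact ⟨⟨x, (mem_KA Ω _ x).2 hx⟩, rfl⟩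
  -- the map
  have hle : ∀ j : u, LinearMap.range (KQ.map 2 (algebraMap K L)) ≤
      LinearMap.ker ((LinearMap.range (KQ.map 2 (algebraMap (KA K Ω (u \ {(j : L)})) Ω))).mkQ.comp
        (KQ.map 2 (algebraMap L Ω))) := by
    rintro j _ ⟨y, rfl⟩
    rw [LinearMap.mem_ker, LinearMap.comp_apply, Submodule.mkQ_apply, Submodule.Quotient.mk_eq_zero]
    refine ⟨KQ.map 2 (algebraMap K (KA K Ω (u \ {(j : L)}))) y, ?_⟩
    rw [kmap_map (algebraMap K (KA K Ω (u \ {(j : L)}))) (algebraMap _ Ω) (algebraMap K Ω) (fun x => rfl),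
      kmap_map (algebraMap K L) (algebraMap L Ω) (algebraMap K Ω)
        (fun x => (IsScalarTower.algebraMap_apply K L Ω x).symm)]
  let Ψ : (KQ L 2 ⧸ LinearMap.range (KQ.map 2 (algebraMap K L))) →ₗ[ℚ]
      ((j : u) → (KQ Ω 2 ⧸ LinearMap.range (KQ.map 2 (algebraMap (KA K Ω (u \ {(j : L)})) Ω)))) :=
    LinearMap.pi fun j => (LinearMap.range (KQ.map 2 (algebraMap K L))).liftQ _ (hle j)
  have hΨ : ∀ (x : KQ L 2) (j : u), Ψ (Submodule.Quotient.mk x) j =
      Submodule.Quotient.mk (KQ.map 2 (algebraMap L Ω) x) := fun x j => rfl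
  have hinj : Function.Injective Ψ := by
    rw [injective_iff_map_eq_zero]
    intro z hz
    obtain ⟨δ, rfl⟩ := Submodule.Quotient.mk_surjective _ z
    rw [Submodule.Quotient.mk_eq_zero]
    have h1 : ∀ j ∈ u, KQ.map 2 (algebraMap L Ω) δ ∈
        LinearMap.range (KQ.map 2 (algebraMap (KA K Ω (u \ {j})) Ω)) := by
      intro j hj
      have h2 := congrFun hz ⟨j, hj⟩
      rw [hΨ] at h2
      exact (Submodule.Quotient.mk_eq_zero _).1 h2
    have h3 := inter_all u hu _ h1 hufin.toFinset (by rw [hufin.coe_toFinset])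
    rw [hufin.coe_toFinset, Set.diff_self] at h3
    obtain ⟨y, hy⟩ := h3
    have c1 := KA_closed (K := K) Ω (∅ : Set L)
    have c2 : Algebra.IsAlgebraic K (KA K Ω (∅ : Set L)) := by
      constructor
      intro x
      have h4 := (mem_KA Ω (∅ : Set L) (x : Ω)).1 x.2
      refine alg_over (Ω := Ω) (F1 := IntermediateField.adjoin K (∅ : Set L)) (fun a => ?_) x h4
      have h5 : (a : L) ∈ (⊥ : IntermediateField K L) := by
        rw [← IntermediateField.adjoin_empty]
        exact a.2
      obtain ⟨c, hc⟩ := IntermediateField.mem_bot.1 h5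
      refine ⟨c, ?_⟩
      have h6 : algebraMap (IntermediateField.adjoin K (∅ : Set L)) Ω a = algebraMap L Ω (a : L) := rfl
      rw [h6, ← hc, ← IsScalarTower.algebraMap_apply K L Ω]
      rfl
    exact descent hK δ y hy.symm
  refine ((Set.Finite.pi fun j => hZ j).preimage hinj.injOn).subset ?_
  rintro z ⟨f, g, ⟨hf, hg, hun⟩, rfl⟩ j _
  refine ⟨f, g, quo_base hf, quo_base hg, fun v hv => hun v ⟨hv.1, fun x hx => ?_⟩, hΨ _ _⟩
  rw [IsScalarTower.algebraMap_apply K (IntermediateField.adjoin K (u \ {(j : L)})) L]
  exact hv.2 _ ((map_ne_zero _).2 hx)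

end Pool.Agent.Helper79.RG
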